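import Mathlib
import Pool.Agent.HDI.Defs

/-!
# Project D4Q (MP_be5eee_co): definitions

Incidences between points and smooth two-dimensional real algebraic surfaces in `ℝ ^ 4`.
-/

namespace D4Q

open MvPolynomial

/-! ## Definitions used in the final statement -/

/-- `S ⊆ ℝ ^ 4` is a smooth real algebraic variety of dimension two and degree at most `C`:
it is the set of common zeros of the polynomials of degree at most `C` vanishing on it, and
near each of its points it is the set of common zeros of two such polynomials whose gradients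
are linearly independent at the point. -/
structure IsSurf (C : ℕ) (S : Set (Fin 4 → ℝ)) : Prop where
  cut : ∀ x, (∀ f ∈ HDI.van C S, eval x f = 0) → x ∈ S
  smooth : ∀ x ∈ S, ∃ f ∈ HDI.van C S, ∃ g ∈ HDI.van C S,
    LinearIndependent ℝ ![HDI.grad x f, HDI.grad x g] ∧
    ∃ U ∈ nhds x, ∀ y ∈ U, eval y f = 0 → eval y g = 0 → y ∈ S

open scoped Classical in
/-- The admissible families of surfaces: any two distinct surfaces have at most `C` common
points and at most `C` surfaces contain any `k` given points. -/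
structure Adm (k C : ℕ) (F : Finset (Set (Fin 4 → ℝ))) : Prop where
  surf : ∀ S ∈ F, IsSurf C S
  inter : ∀ S ∈ F, ∀ T ∈ F, S ≠ T → (S ∩ T).encard ≤ C
  deg : ∀ Q : Finset (Fin 4 → ℝ), Q.card = k →
    (F.filter fun S => (Q : Set (Fin 4 → ℝ)) ⊆ S).card ≤ C

open scoped Classical in
/-- The number of incidences between the points of `P` and the surfaces of `F`. -/
noncomputable def inc (P : Finset (Fin 4 → ℝ)) (F : Finset (Set (Fin 4 → ℝ))) : ℕ :=
  ((P ×ˢ F).filter fun q => q.1 ∈ q.2).card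

/-! ## Étale surfaces

The variables are `Fin c ⊕ Fin 2`; the last two, `inr 0` and `inr 1`, are called `x` and `y`. -/

/-- An étale surface: `c` equations of degree at most `K` whose common zero set `E` is étale
over the `(x, y)`-plane, and an open and closed subset `S` of `E`. -/
structure IsEt {c : ℕ} (K : ℕ) (e : Fin c → MvPolynomial (Fin c ⊕ Fin 2) ℝ)
    (S : Set (Fin c ⊕ Fin 2 → ℝ)) : Prop where
  deg : ∀ a, (e a).totalDegree ≤ K
  zero : ∀ s ∈ S, ∀ a, eval s (e a) = 0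
  reg : ∀ s, (∀ a, eval s (e a) = 0) → eval s (HDI.mu e) ≠ 0
  closed : IsClosed S
  clop : IsClosed ({s | ∀ a, eval s (e a) = 0} \ S)

/-- A map to `ℝ ^ 4` whose first two coordinates are `x` and `y`. -/
structure IsChart {c : ℕ} (K : ℕ) (ψ : Fin 4 → MvPolynomial (Fin c ⊕ Fin 2) ℝ) : Prop where
  x : ψ 0 = X (Sum.inr 0)
  y : ψ 1 = X (Sum.inr 1)
  deg : ∀ i, (ψ i).totalDegree ≤ K

/-- Evaluation of a polynomial map. -/
noncomputable def ev {ι κ : Type*} (ψ : κ → MvPolynomial ι ℝ) (s : ι → ℝ) : κ → ℝ :=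
  fun i => eval s (ψ i)

/-- The polynomial `h` vanishes on the image of a neighbourhood of `s` in `S`. -/
def VanAt {ι κ : Type*} (S : Set (ι → ℝ)) (ψ : κ → MvPolynomial ι ℝ)
    (h : MvPolynomial κ ℝ) (s : ι → ℝ) : Prop :=
  ∀ᶠ t in nhdsWithin s S, eval (ev ψ t) h = 0

/-- The data of the framework theorem: étale surfaces `S i` with maps `ψ i` to `ℝ ^ 4`, a
finite set `P` of points of `ℝ ^ 4`, a set `D` of designated incidences `(p, i)`, and for each
of them a point `s (p, i)` of `S i` over `p`. -/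
structure Fr (c k K : ℕ) {I : Type} [Fintype I] [DecidableEq I]
    (e : I → Fin c → MvPolynomial (Fin c ⊕ Fin 2) ℝ) (S : I → Set (Fin c ⊕ Fin 2 → ℝ))
    (ψ : I → Fin 4 → MvPolynomial (Fin c ⊕ Fin 2) ℝ) (P : Finset (Fin 4 → ℝ))
    (D : Finset ((Fin 4 → ℝ) × I)) (s : (Fin 4 → ℝ) × I → (Fin c ⊕ Fin 2 → ℝ)) : Prop where
  et : ∀ i, IsEt K (e i) (S i)
  ch : ∀ i, IsChart K (ψ i)
  mem : ∀ d ∈ D, d.1 ∈ P ∧ s d ∈ S d.2 ∧ ev (ψ d.2) (s d) = d.1
  xinj : Set.InjOn (fun p : Fin 4 → ℝ => p 0) (P : Set (Fin 4 → ℝ))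
  kdof : ∀ Q : Finset (Fin 4 → ℝ), Q ⊆ P → Q.card = k →
    (Finset.univ.filter fun i => ∀ p ∈ Q, (p, i) ∈ D).card ≤ K
  cross : ∀ i j, {q : (Fin c ⊕ Fin 2 → ℝ) × (Fin c ⊕ Fin 2 → ℝ) |
    q.1 ∈ S i ∧ q.2 ∈ S j ∧ (i = j → q.1 ≠ q.2) ∧ ev (ψ i) q.1 = ev (ψ j) q.2}.encard ≤ K

/-- The regular part of the curve `q = 0` on an étale surface, minus the zeros of `l`; for
`j = 1` it is étale over the `x`-axis, for `j = 0` over the `y`-axis. -/
def Crv {c : ℕ} (e : Fin c → MvPolynomial (Fin c ⊕ Fin 2) ℝ) (S : Set (Fin c ⊕ Fin 2 → ℝ))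
    (j : Fin 2) (q l : MvPolynomial (Fin c ⊕ Fin 2) ℝ) : Set (Fin c ⊕ Fin 2 → ℝ) :=
  {t | t ∈ S ∧ eval t q = 0 ∧ eval t (HDI.bord e q j) ≠ 0 ∧ eval t l ≠ 0}

/-- Near `v` the set `H` is the image of a continuous section over an interval of the
`x`-axis. -/
def LocSec {X : Type*} [TopologicalSpace X] (x : X → ℝ) (H : Set X) (v : X) : Prop :=
  ∃ ε : ℝ, 0 < ε ∧ ∃ κ : ℝ → X, ContinuousOn κ (Set.Ioo (x v - ε) (x v + ε)) ∧ κ (x v) = v ∧
    (∀ t ∈ Set.Ioo (x v - ε) (x v + ε), x (κ t) = t ∧ κ t ∈ H) ∧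
    ∃ U ∈ nhds v, ∀ z ∈ U, z ∈ H → z = κ (x z)

/-- The signs of the polynomials `f j` at `p`. -/
noncomputable def sgn {J : ℕ} (f : Fin J → MvPolynomial (Fin 4) ℝ) (p : Fin 4 → ℝ) :
    Fin J → Prop :=
  fun j => 0 < eval p (f j)

/-- The maximal ideal of the point `p`. -/
noncomputable def mI (p : Fin 4 → ℝ) : Ideal (MvPolynomial (Fin 4) ℝ) :=
  Ideal.span (Set.range fun i => X i - C (p i))

/-! ## Bases and classes (codimension two) -/

/-- Bases `b : B` with polynomials `h b` (vanishing), `κ b` (vanishing), `G b` (nonvanishing)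
and classes `c : L` with base `β c` and polynomials `g c` (vanishing), `l c` (vanishing),
`r c` (nonvanishing). -/
structure Tab (B L : Type) where
  β : L → B
  h : B → MvPolynomial (Fin 4) ℝ
  κ : B → MvPolynomial (Fin 4) ℝ
  G : B → MvPolynomial (Fin 4) ℝ
  g : L → MvPolynomial (Fin 4) ℝ
  l : L → MvPolynomial (Fin 4) ℝ
  r : L → MvPolynomial (Fin 4) ℝ

/-- The region of a class. -/
def Tab.Reg {B L : Type} (T : Tab B L) (c : L) : Set (Fin 4 → ℝ) :=
  {p | eval p (T.h (T.β c)) = 0 ∧ eval p (T.κ (T.β c)) = 0 ∧ eval p (T.G (T.β c)) ≠ 0 ∧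
    eval p (T.g c) = 0 ∧ eval p (T.l c) = 0 ∧ eval p (T.r c) ≠ 0}

/-- The number of arcs per surface. -/
noncomputable def Tab.arcs {B L : Type} [Fintype B] [Fintype L] (T : Tab B L) : ℕ :=
  (∑ b, ((T.h b).totalDegree + 1) *
    ((T.h b).totalDegree + (T.κ b).totalDegree + (T.G b).totalDegree + 1)) +
  ∑ c, ((T.h (T.β c)).totalDegree + 1) * ((T.h (T.β c)).totalDegree + (T.g c).totalDegree +
    (T.l c).totalDegree + (T.r c).totalDegree + 1)

/-- The complexity of the boundaries. -/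
noncomputable def Tab.cost {B L : Type} [Fintype B] [Fintype L] (T : Tab B L) : ℕ :=
  ∑ c, ((T.h (T.β c)).totalDegree + 1) * ((T.g c).totalDegree + 1) *
    ((T.h (T.β c)).totalDegree + (T.g c).totalDegree + (T.G (T.β c)).totalDegree +
      (T.r c).totalDegree + 1) ^ 2

/-- The last minor of the gradients of `f` and `g`. -/
noncomputable def jzw (f g : MvPolynomial (Fin 4) ℝ) : MvPolynomial (Fin 4) ℝ :=
  pderiv 2 f * pderiv 3 g - pderiv 3 f * pderiv 2 g

/-- The derivative in the direction `ν`. -/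
noncomputable def dnu (ν : Fin 4 → ℝ) (h : MvPolynomial (Fin 4) ℝ) : MvPolynomial (Fin 4) ℝ :=
  ∑ i, C (ν i) * pderiv i h

/-- The derivative along a vector field tangent to the levels of `h`. -/
noncomputable def dX (m : Fin 4 → Fin 4 → ℝ) (h g : MvPolynomial (Fin 4) ℝ) :
    MvPolynomial (Fin 4) ℝ :=
  ∑ i, ∑ j, C (m i j) * pderiv i h * pderiv j g

/-- The part of `h = g = 0` which is étale over the `(x, y)`-plane. -/
def Wv (h g : MvPolynomial (Fin 4) ℝ) : Type :=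
  {ζ : Fin 4 → ℝ // eval ζ h = 0 ∧ eval ζ g = 0 ∧ eval ζ (jzw h g) ≠ 0}

instance (h g : MvPolynomial (Fin 4) ℝ) : TopologicalSpace (Wv h g) :=
  inferInstanceAs (TopologicalSpace {ζ : Fin 4 → ℝ // _})

instance (h g : MvPolynomial (Fin 4) ℝ) : T2Space (Wv h g) :=
  inferInstanceAs (T2Space {ζ : Fin 4 → ℝ // _})

/-- The incidences which the framework theorem does not count. -/
def Left {c : ℕ} {I : Type} (S : I → Set (Fin c ⊕ Fin 2 → ℝ))
    (ψ : I → Fin 4 → MvPolynomial (Fin c ⊕ Fin 2) ℝ) (s : (Fin 4 → ℝ) × I → (Fin c ⊕ Fin 2 → ℝ))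
    (h : (Fin 4 → ℝ) → MvPolynomial (Fin 4) ℝ) (d : (Fin 4 → ℝ) × I) : Prop :=
  eval d.1 (h d.1) = 0 ∧ HDI.grad d.1 (h d.1) ≠ 0 ∧ VanAt (S d.2) (ψ d.2) (h d.1) (s d)

end D4Q
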