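import Mathlib
import Pool.Agent.HDI.Bezout
import Pool.Agent.HDI.Sard
import Pool.Agent.HDI.MaxP
import Pool.Agent.HDI.Bord
import Pool.Agent.D4Q.Defs

/-!
# D4Q-GcP: counting pieces with individual degrees

Same as `HDI.pieces` with individual degrees `d a` of the equations. Repeat the proof of `HDI.pieces` (file Pool/Agent/HDI/Pieces.lean);
`HDI.exists_crit`, `HDI.generic`, `HDI.bezout` work with individual degrees; only the degree bounds `deg (mu f) ≤ ∑ d a`,
`deg (bord f φ j) ≤ ∑ d a + E` (and `mu` again) have to be redone: see the proofs of `HDI.totalDegree_mu_le`, `HDI.totalDegree_bord_le` in Pool/Agent/HDI/Bord.lean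
(expand the determinant: each term takes one entry from each row).
-/

namespace D4Q

open MvPolynomial

theorem totalDegree_mu_le' {c s : ℕ} (d : Fin c → ℕ) (f : Fin c → MvPolynomial (Fin c ⊕ Fin s) ℝ)
    (hf : ∀ a, (f a).totalDegree ≤ d a) : (HDI.mu f).totalDegree ≤ ∑ a, d a := by
  unfold HDI.mu
  rw [← Matrix.det_transpose, Matrix.det_apply]
  refine (totalDegree_finsetSum _ _).trans (Finset.sup_le fun σ _ => ?_)
  have h1 : ∀ p : MvPolynomial (Fin c ⊕ Fin s) ℝ,
      (Equiv.Perm.sign σ • p).totalDegree ≤ p.totalDegree := by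
    intro p
    rcases Int.units_eq_one_or (Equiv.Perm.sign σ) with h | h <;> rw [h] <;>
      simp [totalDegree_neg]
  refine (h1 _).trans ?_
  refine (totalDegree_finsetProd _ _).trans ?_
  refine Finset.sum_le_sum fun i _ => ?_
  rw [Matrix.transpose_apply]
  exact (HDI.totalDegree_pderiv_le' _ _).trans (hf _)

theorem totalDegree_bord_le' {c s : ℕ} (d : Fin c → ℕ) (E : ℕ)
    (f : Fin c → MvPolynomial (Fin c ⊕ Fin s) ℝ) (hf : ∀ a, (f a).totalDegree ≤ d a)
    (φ : MvPolynomial (Fin c ⊕ Fin s) ℝ) (hφ : φ.totalDegree ≤ E) (j : Fin s) :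
    (HDI.bord f φ j).totalDegree ≤ ∑ a, d a + E := by
  unfold HDI.bord
  rw [← Matrix.det_transpose, Matrix.det_apply]
  refine (totalDegree_finsetSum _ _).trans (Finset.sup_le fun σ _ => ?_)
  have h1 : ∀ p : MvPolynomial (Fin c ⊕ Fin s) ℝ,
      (Equiv.Perm.sign σ • p).totalDegree ≤ p.totalDegree := by
    intro p
    rcases Int.units_eq_one_or (Equiv.Perm.sign σ) with h | h <;> rw [h] <;>
      simp [totalDegree_neg]
  refine (h1 _).trans ?_
  refine (totalDegree_finsetProd _ _).trans ?_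
  rw [Fintype.sum_sum_type]
  refine add_le_add ?_ ?_
  · refine Finset.sum_le_sum fun i _ => ?_
    rw [Matrix.transpose_apply]
    rcases σ (Sum.inl i) with k | k
    · exact (HDI.totalDegree_pderiv_le' _ _).trans (hf _)
    · exact (HDI.totalDegree_pderiv_le' _ _).trans (hf _)
  · rw [Fintype.sum_unique, Matrix.transpose_apply]
    rcases σ (Sum.inr default) with k | k
    · exact (HDI.totalDegree_pderiv_le' _ _).trans hφ
    · exact (HDI.totalDegree_pderiv_le' _ _).trans hφ

theorem pieces' {c s : ℕ} (d : Fin c → ℕ) (E : ℕ) (f : Fin c → MvPolynomial (Fin c ⊕ Fin s) ℝ)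
    (hf : ∀ a, (f a).totalDegree ≤ d a) (φ : MvPolynomial (Fin c ⊕ Fin s) ℝ)
    (hφ : φ.totalDegree ≤ E) {L : Type*} [Fintype L] (U : L → Set (Fin c ⊕ Fin s → ℝ))
    (p : L → Fin c ⊕ Fin s → ℝ) (hopen : ∀ l, IsOpen (U l))
    (hbd : ∀ l, Bornology.IsBounded (U l)) (hdis : ∀ l l', l ≠ l' → Disjoint (U l) (U l'))
    (ε0 : ℝ) (h0 : 0 < ε0)
    (hcl : ∀ l, ∀ x ∈ closure (U l), (∀ a, |eval x (f a)| ≤ ε0) → 0 < eval x φ →
      x ∈ U l ∧ eval x (HDI.mu f) ≠ 0)
    (hp : ∀ l, p l ∈ U l) (hpf : ∀ l a, eval (p l) (f a) = 0)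
    (hpm : ∀ l, eval (p l) (HDI.mu f) ≠ 0) (hpφ : ∀ l, 0 < eval (p l) φ) :
    Fintype.card L ≤ (∏ a, (d a + 1)) * (∑ a, d a + E + 1) ^ s := by
  classical
  rcases isEmpty_or_nonempty L with hL | hL
  · rw [Fintype.card_eq_zero]
    exact Nat.zero_le _
  choose ε hε hε' using fun l => HDI.exists_crit f φ (U l) (hopen l) (hbd l) ε0 h0 (hcl l) (p l)
    (hp l) (hpf l) (hpm l) (hpφ l)
  obtain ⟨l0, hl0⟩ := Finite.exists_min ε
  obtain ⟨w, v, hw, hv, hgen⟩ := HDI.generic f φ (ε l0) (hε l0)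
  choose x hxU hxm hxs using fun l => hε' l w v (fun a => (hw a).trans_le (hl0 l))
    (fun j => (hv j).trans_le (hl0 l))
  have hinj : Function.Injective x := by
    intro l l' h
    by_contra hne
    exact Set.disjoint_left.1 (hdis l l' hne) (hxU l) (h ▸ hxU l')
  have hdeg : ∀ i, (HDI.sys f φ w v i).totalDegree ≤
      (Sum.elim d (fun _ : Fin s => ∑ a, d a + E)) i := by
    rintro (a | j)
    · simp only [HDI.sys, Sum.elim_inl]
      exact (totalDegree_sub_C_le _ _).trans (hf a)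
    · simp only [HDI.sys, Sum.elim_inr]
      refine (totalDegree_add _ _).trans (max_le (totalDegree_bord_le' d E f hf φ hφ j) ?_)
      refine (totalDegree_mul _ _).trans ?_
      rw [totalDegree_C, zero_add]
      exact (totalDegree_mu_le' d f hf).trans (Nat.le_add_right _ _)
  have hb := HDI.bezout (Sum.elim d (fun _ : Fin s => ∑ a, d a + E))
    (HDI.sys f φ w v) hdeg (Finset.univ.image x) (by
      intro z hz
      obtain ⟨l, -, rfl⟩ := Finset.mem_image.1 hz
      exact ⟨hxs l, hgen (x l) (hxm l) (hxs l)⟩)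
  rw [Finset.card_image_of_injective _ hinj, Finset.card_univ, Fintype.prod_sum_type] at hb
  simpa only [Sum.elim_inl, Sum.elim_inr, Finset.prod_const, Finset.card_univ,
    Fintype.card_fin] using hb

end D4Q
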