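import Mathlib
import Pool.Agent.D4Q.GcP

/-!
# D4Q-Gc: counting connected components

`gc`: let `f a` (`a : Fin c`) have degrees `≤ d a`, `φ` degree `≤ E`, `S` an open and closed
subset of `{f = 0}` with `mu f ≠ 0` on `S ∩ {φ > 0}`. If the points of the finite set `Q` lie in
pairwise different connected components of `Y = {x ∈ S | 0 < φ x}`, then
`Q.card ≤ ∏ (d a + 1) * (∑ d a + E + 3) ^ s`.

PAPER PROOF. (1) `HDI.pieces` with individual degrees: repeat its proof (`HDI.exists_crit`,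
`HDI.generic`, `HDI.bezout` all work with individual degrees); only
`totalDegree_mu_le` and `totalDegree_bord_le` have to be redone:
`deg (mu f) ≤ ∑ d a`, `deg (bord f φ j) ≤ ∑ d a + E`. Result (`pieces'`): same hypotheses as
`HDI.pieces`, bound `∏ (d a + 1) * (∑ d a + E + 1) ^ s`.
(2) Choose `ρ > 0` with `‖p‖`-sum of squares `< ρ ^ 2` for `p ∈ Q`, put
`φ' = φ * (C (ρ ^ 2) - ∑ X i ^ 2) - C δ` (degree `≤ E + 2`) with
`0 < δ < φ p * (ρ ^ 2 - ∑ p i ^ 2)` for all `p ∈ Q`. The set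
`Kδ = {x ∈ S | ∑ x i ^ 2 ≤ ρ ^ 2 ∧ 0 ≤ φ' x}` is compact and contained in `Y` (inside the closed
ball `φ' ≥ 0` forces `φ > 0`), so two points of `Q` are in different components of `Kδ`;
in the compact Hausdorff space `Kδ` the component of a point is the intersection of its clopen
neighbourhoods (`connectedComponent_eq_iInter_isClopen`), so there is a finite clopen partition
`Kδ = ⊔ K_p` (`p ∈ Q`) with `p ∈ K_p`.
(3) Let `τ > 0` be smaller than half of all distances between different `K_p` and smaller than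
the distance of `Kδ` to the closed set `{f = 0} \ S`. Let `U p` be the set of points of the open
ball of radius `ρ` (sum of squares `< ρ ^ 2`) at distance `< τ` from `K_p`. The `U p` are open,
bounded, pairwise disjoint. Closure condition of `pieces'` for `φ'`: there is `ε0 > 0` such that
`x ∈ closure (U p)`, `|f a x| ≤ ε0` and `0 < φ' x` imply `x ∈ U p` and `mu f x ≠ 0`.
Otherwise there are `x_j ∈ closure (U p)` with `f (x_j) → 0`, `φ' (x_j) > 0` violating it; a limit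
point `x` satisfies `f x = 0`, `φ' x ≥ 0`, `∑ x i ^ 2 ≤ ρ ^ 2`, `dist (x, K_p) ≤ τ`, so `x ∈ S`
(distance to `{f = 0} \ S`), `x ∈ Kδ`, `x ∈ K_p`, hence `x ∈ U p` (note `φ' x ≥ 0` gives
`∑ x i ^ 2 < ρ ^ 2`), and `mu f x ≠ 0`; both conditions are open: contradiction.
(4) Apply `pieces'` to `φ'`.


Part (1) is `pieces'` in GcP.lean.
-/

namespace D4Q

open MvPolynomial

/-- A compact subset of a set in which finitely many points lie in pairwise different components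
contains pairwise disjoint relatively clopen neighbourhoods of these points. -/
private theorem Gc_clopens {X : Type*} [TopologicalSpace X] [T2Space X] {K Y : Set X} (hK : IsCompact K)
    (hKY : K ⊆ Y) (Q : Finset X) (hQ : ∀ p ∈ Q, p ∈ K)
    (hsep : ∀ p ∈ Q, ∀ q ∈ Q, p ≠ q → q ∉ connectedComponentIn Y p) :
    ∃ V : X → Set X, (∀ p ∈ Q, IsClosed (V p) ∧ IsClosed (K \ V p) ∧ p ∈ V p ∧ V p ⊆ K) ∧
      ∀ p ∈ Q, ∀ q ∈ Q, p ≠ q → Disjoint (V p) (V q) := by
  classical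
  have : CompactSpace K := isCompact_iff_compactSpace.1 hK
  have h1 : ∀ p q : {x // x ∈ Q}, p ≠ q →
      ∃ W : Set K, IsClopen W ∧ (⟨p.1, hQ p.1 p.2⟩ : K) ∈ W ∧ (⟨q.1, hQ q.1 q.2⟩ : K) ∉ W := by
    intro p q hpq
    have h2 : q.1 ∉ connectedComponentIn K p.1 := fun h =>
      hsep p.1 p.2 q.1 q.2 (fun h => hpq (Subtype.ext h)) (connectedComponentIn_mono _ hKY h)
    rw [connectedComponentIn_eq_image (hQ p.1 p.2), connectedComponent_eq_iInter_isClopen] at h2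
    by_contra hcon
    push Not at hcon
    refine h2 ⟨⟨q.1, hQ q.1 q.2⟩, ?_, rfl⟩
    rw [Set.mem_iInter]
    rintro ⟨W, hW, hpW⟩
    exact hcon W hW hpW
  choose! W hW hWp hWq using h1
  let V : {x // x ∈ Q} → Set K := fun p => ⋂ q : {x // x ∈ Q}, if p = q then Set.univ else W p q \ W q p
  have hV : ∀ p, IsClopen (V p) := by
    intro p
    refine isClopen_iInter_of_finite fun q => ?_
    split_ifs with h
    · exact isClopen_univ
    · exact (hW p q h).diff (hW q p (Ne.symm h))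
  have hVp : ∀ p : {x // x ∈ Q}, (⟨p.1, hQ p.1 p.2⟩ : K) ∈ V p := by
    intro p
    rw [Set.mem_iInter]
    intro q
    split_ifs with h
    · exact Set.mem_univ _
    · exact ⟨hWp p q h, hWq q p (Ne.symm h)⟩
  have hVd : ∀ p q, p ≠ q → ∀ x, x ∈ V p → x ∉ V q := by
    intro p q hpq x hx hx'
    have h3 := Set.mem_iInter.1 hx q
    have h4 := Set.mem_iInter.1 hx' p
    rw [if_neg hpq] at h3
    rw [if_neg (Ne.symm hpq)] at h4
    exact h3.2 h4.1
  have hcl : IsClosed K := hK.isClosed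
  refine ⟨fun p => if h : p ∈ Q then Subtype.val '' V ⟨p, h⟩ else ∅, fun p hp => ?_,
    fun p hp q hq hpq => ?_⟩
  · simp only [dif_pos hp]
    refine ⟨hcl.isClosedMap_subtype_val _ (hV ⟨p, hp⟩).isClosed, ?_, ⟨_, hVp ⟨p, hp⟩, rfl⟩, ?_⟩
    · have h5 : K \ Subtype.val '' V ⟨p, hp⟩ = Subtype.val '' (V ⟨p, hp⟩)ᶜ := by
        ext x
        constructor
        · rintro ⟨hx, hx'⟩
          exact ⟨⟨x, hx⟩, fun h => hx' ⟨_, h, rfl⟩, rfl⟩
        · rintro ⟨y, hy, rfl⟩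
          refine ⟨y.2, ?_⟩
          rintro ⟨z, hz, hzy⟩
          exact hy (Subtype.ext hzy ▸ hz)
      rw [h5]
      exact hcl.isClosedMap_subtype_val _ (hV ⟨p, hp⟩).compl.isClosed
    · rintro x ⟨y, -, rfl⟩
      exact y.2
  · simp only [dif_pos hp, dif_pos hq]
    rw [Set.disjoint_left]
    rintro x ⟨y, hy, rfl⟩ ⟨z, hz, hzy⟩
    have h6 : z = y := Subtype.ext hzy
    subst h6
    exact hVd ⟨p, hp⟩ ⟨q, hq⟩ (fun h => hpq (Subtype.ext_iff.1 h)) _ hy hz

private theorem Gc_pos {X : Type*} (Q : Finset X) (g : X → ℝ) (hg : ∀ p ∈ Q, 0 < g p) :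
    ∃ δ : ℝ, 0 < δ ∧ ∀ p ∈ Q, δ < g p := by
  classical
  induction Q using Finset.induction_on with
  | empty => exact ⟨1, one_pos, fun p hp => absurd hp (Finset.notMem_empty p)⟩
  | insert a Q ha ih =>
    obtain ⟨δ, hδ, h⟩ := ih fun p hp => hg p (Finset.mem_insert_of_mem hp)
    have h1 := hg a (Finset.mem_insert_self a Q)
    refine ⟨min δ (g a / 2), lt_min hδ (half_pos h1), fun p hp => ?_⟩
    rcases Finset.mem_insert.1 hp with rfl | hp
    · exact (min_le_right _ _).trans_lt (half_lt_self h1)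
    · exact (min_le_left _ _).trans_lt (h p hp)

theorem gc {c s : ℕ} (d : Fin c → ℕ) (E : ℕ) (f : Fin c → MvPolynomial (Fin c ⊕ Fin s) ℝ)
    (hf : ∀ a, (f a).totalDegree ≤ d a) (φ : MvPolynomial (Fin c ⊕ Fin s) ℝ)
    (hφ : φ.totalDegree ≤ E) (S : Set (Fin c ⊕ Fin s → ℝ)) (hS : IsClosed S)
    (hS0 : ∀ x ∈ S, ∀ a, eval x (f a) = 0)
    (hS' : IsClosed ({x | ∀ a, eval x (f a) = 0} \ S))
    (hreg : ∀ x ∈ S, 0 < eval x φ → eval x (HDI.mu f) ≠ 0)
    (Q : Finset (Fin c ⊕ Fin s → ℝ)) (hQ : ∀ p ∈ Q, p ∈ S ∧ 0 < eval p φ)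
    (hsep : ∀ p ∈ Q, ∀ q ∈ Q, p ≠ q → q ∉ connectedComponentIn {x | x ∈ S ∧ 0 < eval x φ} p) :
    Q.card ≤ (∏ a, (d a + 1)) * (∑ a, d a + E + 3) ^ s := by
  classical
  have hcont : ∀ g : MvPolynomial (Fin c ⊕ Fin s) ℝ, Continuous fun x : Fin c ⊕ Fin s → ℝ => eval x g :=
    fun g => MvPolynomial.continuous_eval g
  have hcs : Continuous fun x : Fin c ⊕ Fin s → ℝ => ∑ i, x i ^ 2 :=
    continuous_finsetSum _ fun i _ => (continuous_apply i).pow 2
  -- the radius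
  obtain ⟨R, hR⟩ : ∃ R : ℝ, ∀ p ∈ Q, ∑ i, p i ^ 2 < R := by
    obtain ⟨M, hM⟩ := (Q.image fun p => ∑ i, p i ^ 2).exists_le
    exact ⟨M + 1, fun p hp => (hM _ (Finset.mem_image_of_mem _ hp)).trans_lt (lt_add_one _)⟩
  obtain ⟨δ, hδ0, hδ⟩ : ∃ δ : ℝ, 0 < δ ∧ ∀ p ∈ Q, δ < eval p φ * (R - ∑ i, p i ^ 2) :=
    Gc_pos Q _ fun p hp => mul_pos (hQ p hp).2 (sub_pos.2 (hR p hp))
  -- the new polynomial
  obtain ⟨ψ, hψ, hψe⟩ : ∃ ψ : MvPolynomial (Fin c ⊕ Fin s) ℝ, ψ.totalDegree ≤ E + 2 ∧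
      ∀ x, eval x ψ = eval x φ * (R - ∑ i, x i ^ 2) - δ := by
    refine ⟨φ * (C R - ∑ i, X i ^ 2) - C δ, ?_, fun x => by simp⟩
    refine (totalDegree_sub _ _).trans (max_le ((totalDegree_mul _ _).trans (add_le_add hφ ?_))
      (by rw [totalDegree_C]; exact Nat.zero_le _))
    refine (totalDegree_sub _ _).trans (max_le (by rw [totalDegree_C]; exact Nat.zero_le _) ?_)
    refine totalDegree_finsetSum_le fun i _ => ?_
    rw [totalDegree_X_pow]
  -- positivity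
  have hpos : ∀ x : Fin c ⊕ Fin s → ℝ, ∑ i, x i ^ 2 ≤ R → 0 ≤ eval x ψ → 0 < eval x φ ∧ ∑ i, x i ^ 2 < R := by
    intro x hx hx'
    rw [hψe] at hx'
    have h1 : 0 < eval x φ * (R - ∑ i, x i ^ 2) := by linarith
    have h2 : 0 ≤ R - ∑ i, x i ^ 2 := by linarith
    have h3 : 0 < R - ∑ i, x i ^ 2 := by
      rcases h2.lt_or_eq with h | h
      · exact h
      · rw [← h, mul_zero] at h1
        exact absurd h1 (lt_irrefl _)
    exact ⟨pos_of_mul_pos_left h1 h3.le, by linarith⟩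
  -- the compact set
  set B : Set (Fin c ⊕ Fin s → ℝ) := {x | ∑ i, x i ^ 2 ≤ R} with hB
  have hBc : IsClosed B := isClosed_le hcs continuous_const
  have hBb : Bornology.IsBounded B := by
    refine (Metric.isBounded_closedBall (x := (0 : Fin c ⊕ Fin s → ℝ)) (r := R + 1)).subset fun x hx => ?_
    rw [mem_closedBall_zero_iff]
    have h0 : 0 ≤ R := (Finset.sum_nonneg fun i _ => sq_nonneg (x i)).trans hx
    rw [pi_norm_le_iff_of_nonneg (by linarith)]
    intro i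
    have h1 : x i ^ 2 ≤ R := (Finset.single_le_sum (f := fun i => x i ^ 2) (fun i _ => sq_nonneg (x i))
      (Finset.mem_univ i)).trans hx
    rw [Real.norm_eq_abs, abs_le]
    constructor <;> nlinarith [sq_nonneg (x i + 1), sq_nonneg (x i - 1)]
  have hBk : IsCompact B := Metric.isCompact_of_isClosed_isBounded hBc hBb
  set K : Set (Fin c ⊕ Fin s → ℝ) := B ∩ (S ∩ {x | 0 ≤ eval x ψ}) with hK
  have hKk : IsCompact K := hBk.inter_right (hS.inter (isClosed_le continuous_const (hcont ψ)))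
  have hKY : K ⊆ {x | x ∈ S ∧ 0 < eval x φ} := fun x hx => ⟨hx.2.1, (hpos x hx.1 hx.2.2).1⟩
  have hψp : ∀ p ∈ Q, 0 < eval p ψ := by
    intro p hp
    rw [hψe]
    linarith [hδ p hp]
  have hQK : ∀ p ∈ Q, p ∈ K := fun p hp => ⟨(hR p hp).le, (hQ p hp).1, (hψp p hp).le⟩
  obtain ⟨V, hV, hVd⟩ := Gc_clopens hKk hKY Q hQK hsep
  have hVk : ∀ p ∈ Q, IsCompact (V p) := fun p hp => hKk.of_isClosed_subset (hV p hp).1 (hV p hp).2.2.2
  -- the thickenings
  have h1 : ∀ p : Fin c ⊕ Fin s → ℝ, p ∈ Q → ∃ τ : ℝ, 0 < τ ∧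
      Disjoint (Metric.cthickening τ (V p)) ((K \ V p) ∪ ({x | ∀ a, eval x (f a) = 0} \ S)) := by
    intro p hp
    have h2 : Disjoint (V p) ((K \ V p) ∪ ({x | ∀ a, eval x (f a) = 0} \ S)) := by
      rw [Set.disjoint_left]
      rintro x hx (hx' | hx')
      · exact hx'.2 hx
      · exact hx'.2 ((hV p hp).2.2.2 hx).2.1
    obtain ⟨τ, hτ, h⟩ := h2.exists_cthickenings (hVk p hp) ((hV p hp).2.1.union hS')
    exact ⟨τ, hτ, h.mono_right (Metric.self_subset_cthickening _)⟩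
  have h2 : ∀ z : (Fin c ⊕ Fin s → ℝ) × (Fin c ⊕ Fin s → ℝ), z ∈ Q.offDiag → ∃ τ : ℝ, 0 < τ ∧
      Disjoint (Metric.cthickening τ (V z.1)) (Metric.cthickening τ (V z.2)) := by
    intro z hz
    obtain ⟨hz1, hz2, hz3⟩ := Finset.mem_offDiag.1 hz
    exact (hVd z.1 hz1 z.2 hz2 hz3).exists_cthickenings (hVk z.1 hz1) (hV z.2 hz2).1
  choose! τ₁ hτ₁ hτ₁' using h1
  choose! τ₂ hτ₂ hτ₂' using h2
  obtain ⟨δ₁, hδ₁, hδ₁'⟩ := Gc_pos Q τ₁ hτ₁
  obtain ⟨δ₂, hδ₂, hδ₂'⟩ := Gc_pos Q.offDiag τ₂ hτ₂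
  set τ : ℝ := min δ₁ δ₂ with hτd
  have hτ : 0 < τ := lt_min hδ₁ hδ₂
  have hτa : ∀ p ∈ Q, Disjoint (Metric.cthickening τ (V p))
      ((K \ V p) ∪ ({x | ∀ a, eval x (f a) = 0} \ S)) := fun p hp =>
    (hτ₁' p hp).mono_left (Metric.cthickening_mono ((min_le_left _ _).trans (hδ₁' p hp).le) _)
  have hτb : ∀ p ∈ Q, ∀ q ∈ Q, p ≠ q →
      Disjoint (Metric.cthickening τ (V p)) (Metric.cthickening τ (V q)) := fun p hp q hq hpq => by
    have h3 : (p, q) ∈ Q.offDiag := Finset.mem_offDiag.2 ⟨hp, hq, hpq⟩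
    have h4 : τ ≤ τ₂ (p, q) := (min_le_right _ _).trans (hδ₂' _ h3).le
    exact (hτ₂' _ h3).mono (Metric.cthickening_mono h4 _) (Metric.cthickening_mono h4 _)
  set U : (Fin c ⊕ Fin s → ℝ) → Set (Fin c ⊕ Fin s → ℝ) := fun p =>
    Metric.thickening τ (V p) ∩ {x | ∑ i, x i ^ 2 < R} with hU
  have hUo : ∀ p, IsOpen (U p) := fun p => Metric.isOpen_thickening.inter (isOpen_lt hcs continuous_const)
  have hUB : ∀ p, closure (U p) ⊆ Metric.cthickening τ (V p) ∩ B := fun p => by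
    refine closure_minimal (fun x hx => ⟨Metric.thickening_subset_cthickening _ _ hx.1, ?_⟩)
      (Metric.isClosed_cthickening.inter hBc)
    have h3 : ∑ i, x i ^ 2 < R := hx.2
    exact h3.le
  -- the exceptional compact set
  set W : Set (Fin c ⊕ Fin s → ℝ) := ⋃ p ∈ Q, closure (U p) ∩
    ({x | 0 ≤ eval x ψ} ∩ ((U p)ᶜ ∪ {x | eval x (HDI.mu f) = 0})) with hW
  have hWk : IsCompact W := by
    refine Q.isCompact_biUnion fun p _ => ?_
    refine (hBk.of_isClosed_subset isClosed_closure ((hUB p).trans Set.inter_subset_right)).inter_right ?_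
    exact (isClosed_le continuous_const (hcont ψ)).inter
      ((hUo p).isClosed_compl.union (isClosed_eq (hcont _) continuous_const))
  have hW0 : ∀ x ∈ W, 0 < ‖fun a => eval x (f a)‖ := by
    intro x hx
    rw [norm_pos_iff]
    intro hfx
    have hfx' : ∀ a, eval x (f a) = 0 := fun a => congrFun hfx a
    simp only [hW, Set.mem_iUnion] at hx
    obtain ⟨p, hp, hxc, hxψ, hx'⟩ := hx
    obtain ⟨hx1, hx2⟩ := hUB p hxc
    have hxn : x ∉ (K \ V p) ∪ ({x | ∀ a, eval x (f a) = 0} \ S) := Set.disjoint_left.1 (hτa p hp) hx1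
    have hxS : x ∈ S := by
      by_contra h
      exact hxn (Or.inr ⟨hfx', h⟩)
    have hxV : x ∈ V p := by
      by_contra h
      exact hxn (Or.inl ⟨⟨hx2, hxS, hxψ⟩, h⟩)
    have hxp := hpos x hx2 hxψ
    rcases hx' with h | h
    · exact h ⟨Metric.self_subset_thickening hτ _ hxV, hxp.2⟩
    · exact hreg x hxS hxp.1 h
  obtain ⟨m, hm, hm'⟩ := hWk.exists_forall_le'
    (continuous_pi fun a => hcont (f a)).norm.continuousOn hW0
  -- conclusion
  have key := pieces' d (E + 2) f hf ψ hψ (L := {x // x ∈ Q}) (fun p => U p.1) (fun p => p.1)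
    (fun p => hUo p.1) (fun p => hBb.subset (subset_closure.trans ((hUB p.1).trans Set.inter_subset_right)))
    (fun p q hpq => (hτb p.1 p.2 q.1 q.2 fun h => hpq (Subtype.ext h)).mono
      (fun x hx => Metric.thickening_subset_cthickening _ _ hx.1)
      (fun x hx => Metric.thickening_subset_cthickening _ _ hx.1))
    (m / 2) (half_pos hm) (fun p x hx hxf hxψ => ?_)
    (fun p => ⟨Metric.self_subset_thickening hτ _ (hV p.1 p.2).2.2.1, hR p.1 p.2⟩)
    (fun p a => hS0 _ (hQ p.1 p.2).1 a) (fun p => hreg _ (hQ p.1 p.2).1 (hQ p.1 p.2).2)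
    (fun p => hψp p.1 p.2)
  · rw [Fintype.card_coe] at key
    exact key
  · by_contra hcon
    have hxW : x ∈ W := by
      simp only [hW, Set.mem_iUnion]
      refine ⟨p.1, p.2, hx, hxψ.le, ?_⟩
      by_cases h : x ∈ U p.1
      · right
        by_contra h'
        exact hcon ⟨h, h'⟩
      · exact Or.inl h
    have h5 := hm' x hxW
    have h6 : ‖fun a => eval x (f a)‖ ≤ m / 2 := (pi_norm_le_iff_of_nonneg (half_pos hm).le).2 hxf
    linarith

end D4Q
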