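import Mathlib
import Pool.Agent.D4Q.Gc

/-!
# D4Q-GcCurve: components of a curve minus a zero set

`gcCurve`: the number of components of the curve `{s ∈ S | q s = 0, bord e q j s ≠ 0, l s ≠ 0}`. This is `gc` for the `c + 1`
polynomials `(e, q)` in the variables `Fin (c + 1) ⊕ Fin 1` (renamed), and `φ = (bord e q j * l) ^ 2`.
-/

namespace D4Q

open MvPolynomial

private theorem GcCurve_equiv (c : ℕ) (j : Fin 2) : ∃ σ : Fin c ⊕ Fin 2 ≃ Fin (c + 1) ⊕ Fin 1,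
    (∀ a : Fin c, σ (Sum.inl a) = Sum.inl a.castSucc) ∧ σ (Sum.inr j) = Sum.inl (Fin.last c) := by
  have d1 : ∀ i j : Fin 2, ¬ i = j → j + 1 = i := by decide
  have d2 : ∀ j : Fin 2, ¬ j + 1 = j := by decide
  refine ⟨⟨Sum.elim (fun a => Sum.inl a.castSucc)
      (fun i => if i = j then Sum.inl (Fin.last c) else Sum.inr 0),
    Sum.elim (fun b => if h : b.1 < c then Sum.inl ⟨b.1, h⟩ else Sum.inr j)
      (fun _ => Sum.inr (j + 1)), ?_, ?_⟩, fun a => rfl, ?_⟩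
  · rintro (a | i)
    · simp
    · by_cases h : i = j
      · simp [h]
      · simp [h, d1 i j h]
  · rintro (b | i)
    · by_cases h : b.1 < c
      · simp only [Sum.elim_inl, dif_pos h]
        rfl
      · have hb : b = Fin.last c := Fin.ext (by
          rw [Fin.val_last]
          omega)
        simp [hb]
    · have hi : i = 0 := Subsingleton.elim _ _
      simp only [Sum.elim_inr, if_neg (d2 j), hi]
  · simp

private theorem GcCurve_equiv' (c : ℕ) : ∃ τ : Fin c ⊕ Unit ≃ Fin (c + 1),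
    (∀ a : Fin c, τ (Sum.inl a) = a.castSucc) ∧ ∀ u : Unit, τ (Sum.inr u) = Fin.last c := by
  refine ⟨⟨Sum.elim (fun a => a.castSucc) (fun _ => Fin.last c),
    fun b => if h : b.1 < c then Sum.inl ⟨b.1, h⟩ else Sum.inr (), ?_, ?_⟩, fun a => rfl,
    fun u => rfl⟩
  · rintro (a | i)
    · simp
    · simp
  · intro b
    by_cases h : b.1 < c
    · simp only [dif_pos h, Sum.elim_inl]
      rfl
    · have hb : b = Fin.last c := Fin.ext (by
        rw [Fin.val_last]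
        omega)
      simp [hb]

private theorem GcCurve_pd {c : ℕ} (σ : Fin c ⊕ Fin 2 ≃ Fin (c + 1) ⊕ Fin 1)
    (y : Fin (c + 1) ⊕ Fin 1 → ℝ) (f : MvPolynomial (Fin c ⊕ Fin 2) ℝ) (i : Fin c ⊕ Fin 2) :
    eval y (pderiv (σ i) (rename σ f)) = eval (y ∘ σ) (pderiv i f) := by
  rw [pderiv_rename σ.injective, eval_rename]

private theorem GcCurve_mu {c : ℕ} (e : Fin c → MvPolynomial (Fin c ⊕ Fin 2) ℝ)
    (q : MvPolynomial (Fin c ⊕ Fin 2) ℝ) (j : Fin 2) (σ : Fin c ⊕ Fin 2 ≃ Fin (c + 1) ⊕ Fin 1)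
    (h1 : ∀ a : Fin c, σ (Sum.inl a) = Sum.inl a.castSucc)
    (h2 : σ (Sum.inr j) = Sum.inl (Fin.last c))
    (f : Fin (c + 1) → MvPolynomial (Fin (c + 1) ⊕ Fin 1) ℝ)
    (fc : ∀ a : Fin c, f a.castSucc = rename σ (e a)) (fl : f (Fin.last c) = rename σ q)
    (y : Fin (c + 1) ⊕ Fin 1 → ℝ) :
    eval y (HDI.mu f) = eval (y ∘ σ) (HDI.bord e q j) := by
  rw [HDI.eval_mu, HDI.eval_bord]
  obtain ⟨τ, t1, t2⟩ := GcCurve_equiv' c
  rw [← Matrix.det_submatrix_equiv_self τ]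
  congr 1
  ext i k
  rcases i with i | i <;> rcases k with k | k
  · show eval y (pderiv (Sum.inl (τ (Sum.inl k))) (f (τ (Sum.inl i)))) =
      eval (y ∘ σ) (pderiv (Sum.inl k) (e i))
    rw [t1, t1, fc, ← h1, GcCurve_pd]
  · show eval y (pderiv (Sum.inl (τ (Sum.inr k))) (f (τ (Sum.inl i)))) =
      eval (y ∘ σ) (pderiv (Sum.inr j) (e i))
    rw [t1, t2, fc, ← h2, GcCurve_pd]
  · show eval y (pderiv (Sum.inl (τ (Sum.inl k))) (f (τ (Sum.inr i)))) =
      eval (y ∘ σ) (pderiv (Sum.inl k) q)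
    rw [t1, t2, fl, ← h1, GcCurve_pd]
  · show eval y (pderiv (Sum.inl (τ (Sum.inr k))) (f (τ (Sum.inr i)))) =
      eval (y ∘ σ) (pderiv (Sum.inr j) q)
    rw [t2, fl, ← h2, GcCurve_pd]

private theorem GcCurve_arith (c K a b : ℕ) :
    (K + 1) ^ c * (a + 1) * (c * K + a + 2 * (c * K + a + b) + 3) ^ 1 ≤
      (K + 1) ^ c * (3 * (c * K) + 3) * (a + 1) * (a + b + 1) := by
  rw [pow_one]
  have h1 : c * K + a + 2 * (c * K + a + b) + 3 ≤ (3 * (c * K) + 3) * (a + b + 1) := by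
    have h2 : (3 * (c * K) + 3) * (a + b + 1) =
        3 * (c * K) * (a + b) + 3 * (c * K) + 3 * a + 3 * b + 3 := by ring
    rw [h2]
    have h3 : 0 ≤ 3 * (c * K) * (a + b) := Nat.zero_le _
    omega
  calc (K + 1) ^ c * (a + 1) * (c * K + a + 2 * (c * K + a + b) + 3)
      ≤ (K + 1) ^ c * (a + 1) * ((3 * (c * K) + 3) * (a + b + 1)) := Nat.mul_le_mul_left _ h1
    _ = (K + 1) ^ c * (3 * (c * K) + 3) * (a + 1) * (a + b + 1) := by ring

/-- Components of the regular part of a curve on an étale surface minus the zeros of `l`. -/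
theorem gcCurve (c K : ℕ) : ∃ K1 : ℕ, ∀ (e : Fin c → MvPolynomial (Fin c ⊕ Fin 2) ℝ)
    (S : Set (Fin c ⊕ Fin 2 → ℝ)), IsEt K e S →
    ∀ (j : Fin 2) (q l : MvPolynomial (Fin c ⊕ Fin 2) ℝ) (Q : Finset (Fin c ⊕ Fin 2 → ℝ)),
    (∀ p ∈ Q, p ∈ Crv e S j q l) →
    (∀ p ∈ Q, ∀ p' ∈ Q, p ≠ p' → p' ∉ connectedComponentIn (Crv e S j q l) p) →
    Q.card ≤ K1 * (q.totalDegree + 1) * (q.totalDegree + l.totalDegree + 1) := by
  classical
  refine ⟨(K + 1) ^ c * (3 * (c * K) + 3), fun e S hS j q l Q hQ hsep => ?_⟩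
  obtain ⟨σ, h1, h2⟩ := GcCurve_equiv c j
  obtain ⟨f, fc, fl⟩ : ∃ f : Fin (c + 1) → MvPolynomial (Fin (c + 1) ⊕ Fin 1) ℝ,
      (∀ a : Fin c, f a.castSucc = rename σ (e a)) ∧ f (Fin.last c) = rename σ q :=
    ⟨Fin.snoc (α := fun _ => MvPolynomial (Fin (c + 1) ⊕ Fin 1) ℝ) (fun a => rename σ (e a))
      (rename σ q), fun a => Fin.snoc_castSucc _ _ _, Fin.snoc_last _ _⟩
  obtain ⟨d, dc, dl⟩ : ∃ d : Fin (c + 1) → ℕ,
      (∀ a : Fin c, d a.castSucc = K) ∧ d (Fin.last c) = q.totalDegree :=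
    ⟨Fin.snoc (α := fun _ => ℕ) (fun _ => K) q.totalDegree, fun a => Fin.snoc_castSucc _ _ _,
      Fin.snoc_last _ _⟩
  have hmu := GcCurve_mu e q j σ h1 h2 f fc fl
  have cont : Continuous fun y : Fin (c + 1) ⊕ Fin 1 → ℝ => y ∘ σ :=
    continuous_pi fun i => continuous_apply _
  have contq : Continuous fun y : Fin (c + 1) ⊕ Fin 1 → ℝ => eval (y ∘ σ) q :=
    (MvPolynomial.continuous_eval q).comp cont
  have key : ∀ y : Fin (c + 1) ⊕ Fin 1 → ℝ, (∀ a, eval y (f a) = 0) ↔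
      (∀ a, eval (y ∘ σ) (e a) = 0) ∧ eval (y ∘ σ) q = 0 := by
    intro y
    constructor
    · intro h
      refine ⟨fun a => ?_, ?_⟩
      · have h3 := h a.castSucc
        rwa [fc, eval_rename] at h3
      · have h3 := h (Fin.last c)
        rwa [fl, eval_rename] at h3
    · rintro ⟨h3, h4⟩ a
      refine Fin.lastCases ?_ (fun b => ?_) a
      · rw [fl, eval_rename]
        exact h4
      · rw [fc, eval_rename]
        exact h3 b
  have posφ : ∀ y : Fin (c + 1) ⊕ Fin 1 → ℝ, 0 < eval y (rename σ ((HDI.bord e q j * l) ^ 2)) ↔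
      eval (y ∘ σ) (HDI.bord e q j) ≠ 0 ∧ eval (y ∘ σ) l ≠ 0 := by
    intro y
    rw [eval_rename, map_pow, map_mul, sq_pos_iff, mul_ne_zero_iff]
  have hcomp : ∀ x : Fin c ⊕ Fin 2 → ℝ, (x ∘ σ.symm) ∘ σ = x := by
    intro x
    funext i
    show x (σ.symm (σ i)) = x i
    rw [Equiv.symm_apply_apply]
  have hsub : ∀ y : Fin (c + 1) ⊕ Fin 1 → ℝ,
      (y ∈ {y : Fin (c + 1) ⊕ Fin 1 → ℝ | y ∘ σ ∈ S ∧ eval (y ∘ σ) q = 0} ∧
        0 < eval y (rename σ ((HDI.bord e q j * l) ^ 2))) ↔ y ∘ σ ∈ Crv e S j q l := by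
    intro y
    rw [posφ]
    constructor
    · rintro ⟨⟨a1, a2⟩, a3, a4⟩
      exact ⟨a1, a2, a3, a4⟩
    · rintro ⟨a1, a2, a3, a4⟩
      exact ⟨⟨a1, a2⟩, a3, a4⟩
  have hg := gc (c := c + 1) (s := 1) d (2 * (c * K + q.totalDegree + l.totalDegree)) f (by
      intro a
      refine Fin.lastCases ?_ (fun b => ?_) a
      · rw [fl, dl]
        exact totalDegree_rename_le _ _
      · rw [fc, dc]
        exact (totalDegree_rename_le _ _).trans (hS.deg b))
    (rename σ ((HDI.bord e q j * l) ^ 2)) (by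
      refine (totalDegree_rename_le _ _).trans ((totalDegree_pow _ _).trans ?_)
      refine Nat.mul_le_mul_left 2 ((totalDegree_mul _ _).trans ?_)
      refine Nat.add_le_add_right ?_ _
      have h3 := totalDegree_bord_le' (fun _ => K) q.totalDegree e hS.deg q le_rfl j
      rw [Finset.sum_const, Finset.card_univ, Fintype.card_fin, smul_eq_mul] at h3
      exact h3)
    {y : Fin (c + 1) ⊕ Fin 1 → ℝ | y ∘ σ ∈ S ∧ eval (y ∘ σ) q = 0}
    ((hS.closed.preimage cont).inter (isClosed_eq contq continuous_const))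
    (fun y hy => (key y).2 ⟨hS.zero _ hy.1, hy.2⟩)
    (by
      have h3 : {y : Fin (c + 1) ⊕ Fin 1 → ℝ | ∀ a, eval y (f a) = 0} \
          {y : Fin (c + 1) ⊕ Fin 1 → ℝ | y ∘ σ ∈ S ∧ eval (y ∘ σ) q = 0} =
          (fun y : Fin (c + 1) ⊕ Fin 1 → ℝ => y ∘ σ) ⁻¹' ({s | ∀ a, eval s (e a) = 0} \ S) ∩
            {y | eval (y ∘ σ) q = 0} := by
        ext y
        constructor
        · rintro ⟨a1, a2⟩
          obtain ⟨a3, a4⟩ := (key y).1 a1
          exact ⟨⟨a3, fun a5 => a2 ⟨a5, a4⟩⟩, a4⟩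
        · rintro ⟨⟨a1, a2⟩, a3⟩
          exact ⟨(key y).2 ⟨a1, a3⟩, fun a4 => a2 a4.1⟩
      rw [h3]
      exact (hS.clop.preimage cont).inter (isClosed_eq contq continuous_const))
    (fun y hy hpos => by
      rw [hmu]
      exact ((posφ y).1 hpos).1)
    (Q.image fun x => x ∘ σ.symm)
    (by
      intro p hp
      obtain ⟨x, hx, rfl⟩ := Finset.mem_image.1 hp
      refine (hsub _).2 ?_
      rw [hcomp]
      exact hQ x hx)
    (by
      intro p hp p' hp' hne hmem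
      obtain ⟨x, hx, rfl⟩ := Finset.mem_image.1 hp
      obtain ⟨x', hx', rfl⟩ := Finset.mem_image.1 hp'
      have hne' : x ≠ x' := by
        rintro rfl
        exact hne rfl
      apply hsep x hx x' hx' hne'
      have hpc := (isPreconnected_connectedComponentIn
        (F := {y : Fin (c + 1) ⊕ Fin 1 → ℝ | y ∈ {y : Fin (c + 1) ⊕ Fin 1 → ℝ |
          y ∘ σ ∈ S ∧ eval (y ∘ σ) q = 0} ∧ 0 < eval y (rename σ ((HDI.bord e q j * l) ^ 2))})
        (x := x ∘ σ.symm)).image (fun y : Fin (c + 1) ⊕ Fin 1 → ℝ => y ∘ σ) cont.continuousOn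
      have hxm : x ∘ σ.symm ∈ {y : Fin (c + 1) ⊕ Fin 1 → ℝ | y ∈ {y : Fin (c + 1) ⊕ Fin 1 → ℝ |
          y ∘ σ ∈ S ∧ eval (y ∘ σ) q = 0} ∧ 0 < eval y (rename σ ((HDI.bord e q j * l) ^ 2))} := by
        refine (hsub _).2 ?_
        rw [hcomp]
        exact hQ x hx
      have hsubset := hpc.subset_connectedComponentIn (F := Crv e S j q l) (x := x)
        ⟨x ∘ σ.symm, mem_connectedComponentIn hxm, hcomp x⟩ (by
          rintro z ⟨y, hy, rfl⟩
          have hyF := connectedComponentIn_subset _ _ hy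
          exact (hsub y).1 hyF)
      exact hsubset ⟨x' ∘ σ.symm, hmem, hcomp x'⟩)
  rw [Finset.card_image_of_injective _ σ.symm.surjective.injective_comp_right] at hg
  refine hg.trans ?_
  rw [Fin.prod_univ_castSucc, Fin.sum_univ_castSucc]
  simp only [dc, dl]
  rw [Finset.prod_const, Finset.sum_const, Finset.card_univ, Fintype.card_fin, smul_eq_mul]
  exact GcCurve_arith c K q.totalDegree l.totalDegree

end D4Q
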