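import Mathlib
import Pool.Agent.D4Q.Gc

/-!
# D4Q-GcSurf: components of an étale surface minus a zero set

Apply `gc` with `f = e`, `d a = K`, `φ = q ^ 2`, `E = 2 deg q`, `s = 2`.
-/

namespace D4Q

open MvPolynomial

/-- Components of an étale surface minus the zeros of a polynomial. -/
theorem gcSurf (c K : ℕ) : ∃ K1 : ℕ, ∀ (e : Fin c → MvPolynomial (Fin c ⊕ Fin 2) ℝ)
    (S : Set (Fin c ⊕ Fin 2 → ℝ)), IsEt K e S →
    ∀ (q : MvPolynomial (Fin c ⊕ Fin 2) ℝ) (Q : Finset (Fin c ⊕ Fin 2 → ℝ)),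
    (∀ p ∈ Q, p ∈ S ∧ eval p q ≠ 0) →
    (∀ p ∈ Q, ∀ p' ∈ Q, p ≠ p' → p' ∉ connectedComponentIn {t | t ∈ S ∧ eval t q ≠ 0} p) →
    Q.card ≤ K1 * (q.totalDegree + 1) ^ 2 := by
  refine ⟨(K + 1) ^ c * (c * K + 3) ^ 2, fun e S hS q Q hQ hsep => ?_⟩
  have hpos : ∀ t : Fin c ⊕ Fin 2 → ℝ, eval t q ≠ 0 ↔ 0 < eval t (q ^ 2) := by
    intro t
    rw [map_pow]
    exact (sq_pos_iff (a := eval t q)).symm
  have hset : {t : Fin c ⊕ Fin 2 → ℝ | t ∈ S ∧ eval t q ≠ 0} =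
      {t | t ∈ S ∧ 0 < eval t (q ^ 2)} := by
    ext t
    exact and_congr_right fun _ => hpos t
  have h1 := gc (fun _ : Fin c => K) (2 * q.totalDegree) e hS.deg (q ^ 2)
    (totalDegree_pow q 2) S hS.closed hS.zero hS.clop (fun x hx _ => hS.reg x (hS.zero x hx)) Q
    (fun p hp => ⟨(hQ p hp).1, (hpos p).1 (hQ p hp).2⟩)
    (fun p hp p' hp' hne => by
      rw [← hset]
      exact hsep p hp p' hp' hne)
  have h2 : (∏ _a : Fin c, (K + 1)) = (K + 1) ^ c := by simp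
  have h3 : (∑ _a : Fin c, K) = c * K := by simp
  rw [h2, h3] at h1
  have h4 : c * K + 2 * q.totalDegree + 3 ≤ (c * K + 3) * (q.totalDegree + 1) := by
    nlinarith [Nat.zero_le (c * K * q.totalDegree)]
  calc Q.card ≤ (K + 1) ^ c * (c * K + 2 * q.totalDegree + 3) ^ 2 := h1
    _ ≤ (K + 1) ^ c * ((c * K + 3) * (q.totalDegree + 1)) ^ 2 :=
        Nat.mul_le_mul_left _ (Nat.pow_le_pow_left h4 2)
    _ = (K + 1) ^ c * (c * K + 3) ^ 2 * (q.totalDegree + 1) ^ 2 := by ring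

end D4Q
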