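import Mathlib
import Pool.Agent.D4Q.Defs

/-!
# D4Q-CompS: components of curves étale over the x-axis

`comp_section`: let `Y` be a subset of a Hausdorff space which near each of its points is a
section over an interval of the `x`-axis (`LocSec`). Then each connected component of `Y` is the
image of a continuous section over an open interval.

PAPER PROOF. For `v ∈ Y` consider all pairs `(J, κ)` with `J` open, order connected,
`x v ∈ J`, `κ` continuous on `J`, `x (κ t) = t`, `κ t ∈ Y`, `κ (x v) = v`. Two of them agree on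
`J ∩ J'` (the set where they agree is closed in `J ∩ J'`, `X` being Hausdorff, open by `LocSec`:
if `κ t = κ' t = w` then near `t` both are the local section at `w`, and contains `x v`; and
`J ∩ J'` is connected). So they glue to a maximal one `(J, κ)`. `κ '' J` is open in `Y` (by
`LocSec`: near `κ t` the set `Y` is the image of the local section, which agrees with `κ`).
It is closed in `Y`: let `w ∈ Y` be in the closure of `κ '' J`, with local section
`κ_w` on `(x w - ε, x w + ε)` and neighbourhood `U` of `w` (which we shrink such that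
`|x z - x w| < ε` on `U`); there is `t ∈ J` with `κ t ∈ U`, so `κ t = κ_w t`, and
`κ` and `κ_w` glue to a section over `J ∪ (x w - ε, x w + ε)`; by maximality `x w ∈ J` and
`w = κ_w (x w) = κ (x w)`. So `κ '' J` is nonempty, connected, open and closed in `Y`, hence it is
the component of `v` (`IsPreconnected.subset_connectedComponentIn`, and
`isPreconnected_connectedComponentIn` with the clopen set).
-/

namespace D4Q

open MvPolynomial

private theorem comp_ind {α : Type*} [TopologicalSpace α] {K : Set α} (hK : IsPreconnected K)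
    (p : α → Prop) (h1 : ∀ t ∈ K, p t → ∀ᶠ s in nhdsWithin t K, p s)
    (h2 : ∀ t ∈ K, ¬ p t → ∀ᶠ s in nhdsWithin t K, ¬ p s) {t0 : α} (h0 : t0 ∈ K) (hp : p t0)
    {t : α} (ht : t ∈ K) : p t := by
  have h : (p t0 ↔ p t) := by
    refine hK.induction₂ (fun a b => (p a ↔ p b)) (fun a ha => ?_)
      (fun a b c _ _ _ h3 h4 => h3.trans h4) (fun a b _ _ h3 => h3.symm) h0 ht
    by_cases hpa : p a
    · exact (h1 a ha hpa).mono fun s hs => ⟨fun _ => hs, fun _ => hpa⟩
    · exact (h2 a ha hpa).mono fun s hs => ⟨fun h => absurd h hpa, fun h => absurd h hs⟩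
  exact h.1 hp

private theorem comp_uniq {X : Type*} [TopologicalSpace X] [T2Space X] (x : X → ℝ) (Y : Set X)
    (hY : ∀ v ∈ Y, LocSec x Y v) {K : Set ℝ} (hK : IsPreconnected K) {κ1 κ2 : ℝ → X}
    (hc1 : ContinuousOn κ1 K) (hc2 : ContinuousOn κ2 K) (h1 : ∀ t ∈ K, x (κ1 t) = t ∧ κ1 t ∈ Y)
    (h2 : ∀ t ∈ K, x (κ2 t) = t ∧ κ2 t ∈ Y) {t0 : ℝ} (ht0 : t0 ∈ K) (he : κ1 t0 = κ2 t0) :
    ∀ t ∈ K, κ1 t = κ2 t := by
  intro t ht
  refine comp_ind hK (fun s => κ1 s = κ2 s) (fun s hs hse => ?_) (fun s hs hse => ?_) ht0 he ht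
  · obtain ⟨ε, hε, κ, hκ, hκv, hκt, U, hU, hUz⟩ := hY (κ1 s) (h1 s hs).2
    have hU2 : U ∈ nhds (κ2 s) := by rw [← hse]; exact hU
    have e1 : ∀ᶠ r in nhdsWithin s K, κ1 r ∈ U := hc1 s hs hU
    have e2 : ∀ᶠ r in nhdsWithin s K, κ2 r ∈ U := hc2 s hs hU2
    have e3 : ∀ᶠ r in nhdsWithin s K, r ∈ K := self_mem_nhdsWithin
    filter_upwards [e1, e2, e3] with r hr1 hr2 hr3
    have f1 := hUz _ hr1 (h1 r hr3).2
    have f2 := hUz _ hr2 (h2 r hr3).2
    rw [(h1 r hr3).1] at f1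
    rw [(h2 r hr3).1] at f2
    rw [f1, f2]
  · obtain ⟨U, V, hU, hV, hsU, hsV, hd⟩ := t2_separation hse
    have e1 : ∀ᶠ r in nhdsWithin s K, κ1 r ∈ U := hc1 s hs (hU.mem_nhds hsU)
    have e2 : ∀ᶠ r in nhdsWithin s K, κ2 r ∈ V := hc2 s hs (hV.mem_nhds hsV)
    filter_upwards [e1, e2] with r hr1 hr2 he'
    rw [← he'] at hr2
    exact Set.disjoint_left.1 hd hr1 hr2

private theorem comp_union {A B : Set ℝ} (hA : A.OrdConnected) (hB : B.OrdConnected) {t : ℝ}
    (hA' : t ∈ A) (hB' : t ∈ B) : (A ∪ B).OrdConnected := by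
  refine ⟨fun a ha b hb c hc => ?_⟩
  rcases le_total c t with h | h
  · rcases ha with ha | ha
    · exact Or.inl (hA.out ha hA' ⟨hc.1, h⟩)
    · exact Or.inr (hB.out ha hB' ⟨hc.1, h⟩)
  · rcases hb with hb | hb
    · exact Or.inl (hA.out hA' hb ⟨h, hc.2⟩)
    · exact Or.inr (hB.out hB' hb ⟨h, hc.2⟩)

private structure CSec {X : Type*} [TopologicalSpace X] (x : X → ℝ) (Y : Set X) (v : X)
    (J : Set ℝ) (κ : ℝ → X) : Prop where
  op : IsOpen J
  oc : J.OrdConnected
  mem : x v ∈ J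
  co : ContinuousOn κ J
  sec : ∀ t ∈ J, x (κ t) = t ∧ κ t ∈ Y
  base : κ (x v) = v

private theorem comp_max {X : Type*} [TopologicalSpace X] [T2Space X] (x : X → ℝ)
    (Y : Set X) (hY : ∀ v ∈ Y, LocSec x Y v) (v : X) (hv : v ∈ Y) :
    ∃ (J : Set ℝ) (κ : ℝ → X), CSec x Y v J κ ∧ ∀ J' κ', CSec x Y v J' κ' → J' ⊆ J := by
  classical
  have huni : ∀ J1 κ1 J2 κ2, CSec x Y v J1 κ1 → CSec x Y v J2 κ2 → ∀ t ∈ J1 ∩ J2,
      κ1 t = κ2 t := by
    intro J1 κ1 J2 κ2 h1 h2
    exact comp_uniq x Y hY (K := J1 ∩ J2) (h1.oc.inter h2.oc).isPreconnected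
      (h1.co.mono Set.inter_subset_left) (h2.co.mono Set.inter_subset_right)
      (fun t ht => h1.sec t ht.1) (fun t ht => h2.sec t ht.2) ⟨h1.mem, h2.mem⟩
      (h1.base.trans h2.base.symm)
  have hval : ∀ t : ℝ, ∃ y : X, ∀ J' κ', CSec x Y v J' κ' → t ∈ J' → y = κ' t := by
    intro t
    by_cases h : ∃ J' κ', CSec x Y v J' κ' ∧ t ∈ J'
    · obtain ⟨J1, κ1, h1, ht1⟩ := h
      exact ⟨κ1 t, fun J' κ' h' ht' => huni _ _ _ _ h1 h' t ⟨ht1, ht'⟩⟩
    · exact ⟨v, fun J' κ' h' ht' => absurd ⟨J', κ', h', ht'⟩ h⟩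
  choose κ hκ using hval
  obtain ⟨J0, κ0, h0⟩ : ∃ J κ, CSec x Y v J κ := by
    obtain ⟨ε, hε, κ, hκ, hκv, hκt, -⟩ := hY v hv
    exact ⟨Set.Ioo (x v - ε) (x v + ε), κ, isOpen_Ioo, Set.ordConnected_Ioo,
      ⟨by linarith, by linarith⟩, hκ, hκt, hκv⟩
  refine ⟨{t | ∃ J' κ', CSec x Y v J' κ' ∧ t ∈ J'}, κ, ⟨?_, ?_, ?_, ?_, ?_, ?_⟩, ?_⟩
  · rw [isOpen_iff_mem_nhds]
    rintro t ⟨J', κ', h', ht'⟩
    exact Filter.mem_of_superset (h'.op.mem_nhds ht') fun s hs => ⟨J', κ', h', hs⟩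
  · refine ⟨?_⟩
    rintro a ⟨J1, κ1, h1, ha⟩ b ⟨J2, κ2, h2, hb⟩ c hc
    rcases le_total c (x v) with h | h
    · exact ⟨J1, κ1, h1, h1.oc.out ha h1.mem ⟨hc.1, h⟩⟩
    · exact ⟨J2, κ2, h2, h2.oc.out h2.mem hb ⟨h, hc.2⟩⟩
  · exact ⟨J0, κ0, h0, h0.mem⟩
  · rintro t ⟨J', κ', h', ht'⟩
    have e1 : ContinuousAt κ' t := h'.co.continuousAt (h'.op.mem_nhds ht')
    have e2 : κ' =ᶠ[nhds t] κ := by
      filter_upwards [h'.op.mem_nhds ht'] with s hs
      exact (hκ s J' κ' h' hs).symm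
    exact (e1.congr e2).continuousWithinAt
  · rintro t ⟨J', κ', h', ht'⟩
    rw [hκ t J' κ' h' ht']
    exact h'.sec t ht'
  · rw [hκ (x v) J0 κ0 h0 h0.mem]
    exact h0.base
  · intro J' κ' h' t ht
    exact ⟨J', κ', h', ht⟩

theorem comp_section {X : Type*} [TopologicalSpace X] [T2Space X] (x : X → ℝ)
    (hx : Continuous x) (Y : Set X) (hY : ∀ v ∈ Y, LocSec x Y v) (v : X) (hv : v ∈ Y) :
    ∃ (J : Set ℝ) (κ : ℝ → X), IsOpen J ∧ J.OrdConnected ∧ x v ∈ J ∧ ContinuousOn κ J ∧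
      (∀ t ∈ J, x (κ t) = t) ∧ κ (x v) = v ∧ κ '' J = connectedComponentIn Y v := by
  classical
  obtain ⟨J, κ, hS, hmax⟩ := comp_max x Y hY v hv
  refine ⟨J, κ, hS.op, hS.oc, hS.mem, hS.co, fun t ht => (hS.sec t ht).1, hS.base, ?_⟩
  have hvJ : v ∈ κ '' J := ⟨x v, hS.mem, hS.base⟩
  refine Set.Subset.antisymm ?_ ?_
  · refine IsPreconnected.subset_connectedComponentIn
      (hS.oc.isPreconnected.image κ hS.co) hvJ ?_
    rintro _ ⟨t, ht, rfl⟩
    exact (hS.sec t ht).2
  · intro z hz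
    refine comp_ind (K := connectedComponentIn Y v) isPreconnected_connectedComponentIn
      (fun z => z ∈ κ '' J) ?_ ?_ (mem_connectedComponentIn hv) hvJ hz
    · rintro w hw ⟨t0, ht0, rfl⟩
      have hwY := connectedComponentIn_subset Y v hw
      obtain ⟨ε, hε, κw, hκw, hκv, hκt, U, hU, hUz⟩ := hY _ hwY
      rw [(hS.sec t0 ht0).1] at hκw hκv hκt
      obtain ⟨δ, hδ, hδJ⟩ := Metric.isOpen_iff.1 hS.op t0 ht0
      rw [Real.ball_eq_Ioo] at hδJ
      have hm : 0 < min ε δ := lt_min hε hδ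
      have hs1 : Set.Ioo (t0 - min ε δ) (t0 + min ε δ) ⊆ Set.Ioo (t0 - ε) (t0 + ε) :=
        Set.Ioo_subset_Ioo (by have := min_le_left ε δ; linarith)
          (by have := min_le_left ε δ; linarith)
      have hs2 : Set.Ioo (t0 - min ε δ) (t0 + min ε δ) ⊆ J :=
        (Set.Ioo_subset_Ioo (by have := min_le_right ε δ; linarith)
          (by have := min_le_right ε δ; linarith)).trans hδJ
      have hag : ∀ t ∈ Set.Ioo (t0 - min ε δ) (t0 + min ε δ), κ t = κw t :=
        comp_uniq x Y hY isPreconnected_Ioo (hS.co.mono hs2) (hκw.mono hs1)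
          (fun t ht => hS.sec t (hs2 ht)) (fun t ht => hκt t (hs1 ht))
          (t0 := t0) ⟨by linarith, by linarith⟩ hκv.symm
      have hN : ∀ᶠ z in nhds (κ t0), x z ∈ Set.Ioo (t0 - min ε δ) (t0 + min ε δ) := by
        refine hx.continuousAt.eventually_mem ?_
        rw [(hS.sec t0 ht0).1]
        exact Ioo_mem_nhds (by linarith) (by linarith)
      have e1 : ∀ᶠ z in nhdsWithin (κ t0) (connectedComponentIn Y v),
          x z ∈ Set.Ioo (t0 - min ε δ) (t0 + min ε δ) := hN.filter_mono nhdsWithin_le_nhds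
      have e2 : ∀ᶠ z in nhdsWithin (κ t0) (connectedComponentIn Y v), z ∈ U :=
        Filter.Eventually.filter_mono nhdsWithin_le_nhds hU
      have e3 : ∀ᶠ z in nhdsWithin (κ t0) (connectedComponentIn Y v),
          z ∈ connectedComponentIn Y v := self_mem_nhdsWithin
      filter_upwards [e1, e2, e3] with z hz1 hz2 hz3
      refine ⟨x z, hs2 hz1, ?_⟩
      rw [hag _ hz1]
      exact (hUz z hz2 (connectedComponentIn_subset Y v hz3)).symm
    · intro w hw hwJ
      have hwY := connectedComponentIn_subset Y v hw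
      obtain ⟨ε, hε, κw, hκw, hκv, hκt, U, hU, hUz⟩ := hY w hwY
      have hN : ∀ᶠ z in nhds w, x z ∈ Set.Ioo (x w - ε) (x w + ε) :=
        hx.continuousAt.eventually_mem (Ioo_mem_nhds (by linarith) (by linarith))
      have e1 : ∀ᶠ z in nhdsWithin w (connectedComponentIn Y v),
          x z ∈ Set.Ioo (x w - ε) (x w + ε) := hN.filter_mono nhdsWithin_le_nhds
      have e2 : ∀ᶠ z in nhdsWithin w (connectedComponentIn Y v), z ∈ U :=
        Filter.Eventually.filter_mono nhdsWithin_le_nhds hU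
      filter_upwards [e1, e2] with z hz1 hz2 hz3
      obtain ⟨t, ht, rfl⟩ := hz3
      have hxt := (hS.sec t ht).1
      rw [hxt] at hz1
      have hzw : κ t = κw t := by
        have := hUz _ hz2 (hS.sec t ht).2
        rwa [hxt] at this
      have hag : ∀ s ∈ J ∩ Set.Ioo (x w - ε) (x w + ε), κ s = κw s :=
        comp_uniq x Y hY (hS.oc.inter Set.ordConnected_Ioo).isPreconnected
          (hS.co.mono Set.inter_subset_left) (hκw.mono Set.inter_subset_right)
          (fun s hs => hS.sec s hs.1) (fun s hs => hκt s hs.2) (t0 := t) ⟨ht, hz1⟩ hzw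
      have hS' : CSec x Y v (J ∪ Set.Ioo (x w - ε) (x w + ε))
          (fun s => if s ∈ J then κ s else κw s) := by
        refine ⟨hS.op.union isOpen_Ioo, comp_union hS.oc Set.ordConnected_Ioo ht hz1,
          Or.inl hS.mem, ?_, ?_, ?_⟩
        · rintro s (hs | hs)
          · have c1 : ContinuousAt κ s := hS.co.continuousAt (hS.op.mem_nhds hs)
            refine (c1.congr ?_).continuousWithinAt
            filter_upwards [hS.op.mem_nhds hs] with r hr
            exact (if_pos hr).symm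
          · have c1 : ContinuousAt κw s := hκw.continuousAt (isOpen_Ioo.mem_nhds hs)
            refine (c1.congr ?_).continuousWithinAt
            filter_upwards [isOpen_Ioo.mem_nhds hs] with r hr
            by_cases hrJ : r ∈ J
            · rw [if_pos hrJ]
              exact (hag r ⟨hrJ, hr⟩).symm
            · rw [if_neg hrJ]
        · intro s hs
          by_cases hsJ : s ∈ J
          · simp only [if_pos hsJ]
            exact hS.sec s hsJ
          · simp only [if_neg hsJ]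
            exact hκt s (hs.resolve_left hsJ)
        · simp only [if_pos hS.mem]
          exact hS.base
      have hwI : x w ∈ Set.Ioo (x w - ε) (x w + ε) := ⟨by linarith, by linarith⟩
      have hwJ' : x w ∈ J := hmax _ _ hS' (Or.inr hwI)
      exact hwJ ⟨x w, hwJ', (hag _ ⟨hwJ', hwI⟩).trans hκv⟩

end D4Q
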