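import Mathlib
import Pool.Agent.HDI.Base
import Pool.Agent.D4Q.Defs

/-!
# D4Q-CrvL: curves on étale surfaces are étale over the x-axis

`crv_locSec`: the curves `Crv e S 1 q l` satisfy `LocSec`: inverse function theorem for the map `t ↦ (e t, q t, x t)`, whose derivative is invertible at `v`
since the minor `bord e q 1` of `(e, q)` with respect to `inl` and `inr 1` is nonzero; as `S` is open in `{e = 0}` the solutions near the point are in `S`; the nonvanishing conditions are open.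
-/

namespace D4Q

open MvPolynomial

/-- the differential of a polynomial function -/
private noncomputable def CrvL_G {ι : Type} [Fintype ι] (p : MvPolynomial ι ℝ) (x : ι → ℝ) :
    (ι → ℝ) →L[ℝ] ℝ :=
  ∑ i, eval x (pderiv i p) • (ContinuousLinearMap.proj i : (ι → ℝ) →L[ℝ] ℝ)

private theorem CrvL_G_apply {ι : Type} [Fintype ι] (p : MvPolynomial ι ℝ) (x z : ι → ℝ) :
    CrvL_G p x z = ∑ i, eval x (pderiv i p) * z i := by
  unfold CrvL_G
  rw [_root_.sum_apply]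
  rfl

/-- the map `t ↦ (e t, x t, q t)` -/
private noncomputable def CrvL_F {c : ℕ} (e : Fin c → MvPolynomial (Fin c ⊕ Fin 2) ℝ)
    (q : MvPolynomial (Fin c ⊕ Fin 2) ℝ) (t : Fin c ⊕ Fin 2 → ℝ) : Fin c ⊕ Fin 2 → ℝ :=
  fun i => Sum.elim (fun a => eval t (e a)) ![t (Sum.inr 0), eval t q] i

/-- its differential -/
private noncomputable def CrvL_D {c : ℕ} (e : Fin c → MvPolynomial (Fin c ⊕ Fin 2) ℝ)
    (q : MvPolynomial (Fin c ⊕ Fin 2) ℝ) (t : Fin c ⊕ Fin 2 → ℝ) :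
    (Fin c ⊕ Fin 2 → ℝ) →L[ℝ] (Fin c ⊕ Fin 2 → ℝ) :=
  ContinuousLinearMap.pi fun i => Sum.elim (fun a => CrvL_G (e a) t)
    ![(ContinuousLinearMap.proj (Sum.inr 0) : (Fin c ⊕ Fin 2 → ℝ) →L[ℝ] ℝ), CrvL_G q t] i

private theorem CrvL_has {c : ℕ} (e : Fin c → MvPolynomial (Fin c ⊕ Fin 2) ℝ)
    (q : MvPolynomial (Fin c ⊕ Fin 2) ℝ) (t : Fin c ⊕ Fin 2 → ℝ) :
    HasStrictFDerivAt (CrvL_F e q) (CrvL_D e q t) t := by
  rw [hasStrictFDerivAt_pi']
  intro i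
  cases i with
  | inl a => exact HDI.hasStrictFDerivAt_eval (e a) t
  | inr j =>
    fin_cases j
    · exact hasStrictFDerivAt_apply (Sum.inr 0) t
    · exact HDI.hasStrictFDerivAt_eval q t

private theorem CrvL_inj {c : ℕ} (e : Fin c → MvPolynomial (Fin c ⊕ Fin 2) ℝ)
    (q : MvPolynomial (Fin c ⊕ Fin 2) ℝ) (t : Fin c ⊕ Fin 2 → ℝ) (ht : eval t (HDI.bord e q 1) ≠ 0)
    (w : Fin c ⊕ Fin 2 → ℝ) (h1 : ∀ a, CrvL_G (e a) t w = 0) (h2 : w (Sum.inr 0) = 0)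
    (h3 : CrvL_G q t w = 0) : w = 0 := by
  classical
  let M : Matrix (Fin c ⊕ Unit) (Fin c ⊕ Unit) ℝ :=
    Matrix.fromBlocks (Matrix.of fun a b : Fin c => eval t (pderiv (Sum.inl b) (e a)))
      (Matrix.of fun (a : Fin c) (_ : Unit) => eval t (pderiv (Sum.inr 1) (e a)))
      (Matrix.of fun (_ : Unit) (b : Fin c) => eval t (pderiv (Sum.inl b) q))
      (Matrix.of fun (_ : Unit) (_ : Unit) => eval t (pderiv (Sum.inr 1) q))
  have hm : M.det ≠ 0 := by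
    have h4 : eval t (HDI.bord e q 1) = M.det := by
      rw [HDI.bord, RingHom.map_det]
      congr 1
      ext i j
      rcases i with i | i <;> rcases j with j | j <;> rfl
    rwa [h4] at ht
  let u : Fin c ⊕ Unit → ℝ := Sum.elim (fun b => w (Sum.inl b)) fun _ => w (Sum.inr 1)
  have hu : u = 0 := by
    by_contra hne
    apply hm
    refine Matrix.exists_mulVec_eq_zero_iff.mp ⟨u, hne, ?_⟩
    funext i
    rcases i with a | a
    · have h5 := h1 a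
      rw [CrvL_G_apply, Fintype.sum_sum_type, Fin.sum_univ_two, h2, mul_zero, zero_add] at h5
      have h6 : (M.mulVec u) (Sum.inl a) = (∑ b, eval t (pderiv (Sum.inl b) (e a)) * w (Sum.inl b)) +
          eval t (pderiv (Sum.inr 1) (e a)) * w (Sum.inr 1) := by
        rw [Matrix.mulVec, dotProduct, Fintype.sum_sum_type]
        congr 1
        exact Fintype.sum_unique _
      rw [h6, h5]
      rfl
    · have h5 := h3
      rw [CrvL_G_apply, Fintype.sum_sum_type, Fin.sum_univ_two, h2, mul_zero, zero_add] at h5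
      have h6 : (M.mulVec u) (Sum.inr a) = (∑ b, eval t (pderiv (Sum.inl b) q) * w (Sum.inl b)) +
          eval t (pderiv (Sum.inr 1) q) * w (Sum.inr 1) := by
        rw [Matrix.mulVec, dotProduct, Fintype.sum_sum_type]
        congr 1
        exact Fintype.sum_unique _
      rw [h6, h5]
      rfl
  funext i
  rcases i with b | j
  · exact congrFun hu (Sum.inl b)
  · fin_cases j
    · exact h2
    · exact congrFun hu (Sum.inr ())

/-- the points `(0, s, 0)` -/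
private noncomputable def CrvL_g (c : ℕ) (s : ℝ) : Fin c ⊕ Fin 2 → ℝ :=
  fun i => Sum.elim (fun _ => 0) ![s, 0] i

private theorem CrvL_g_cont (c : ℕ) : Continuous (CrvL_g c) := by
  refine continuous_pi fun i => ?_
  rcases i with a | j
  · exact continuous_const
  · fin_cases j
    · exact continuous_id
    · exact continuous_const

private theorem CrvL_F_eq {c : ℕ} (e : Fin c → MvPolynomial (Fin c ⊕ Fin 2) ℝ)
    (q : MvPolynomial (Fin c ⊕ Fin 2) ℝ) (t : Fin c ⊕ Fin 2 → ℝ) (s : ℝ) :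
    CrvL_F e q t = CrvL_g c s ↔ (∀ a, eval t (e a) = 0) ∧ t (Sum.inr 0) = s ∧ eval t q = 0 := by
  constructor
  · intro h
    exact ⟨fun a => congrFun h (Sum.inl a), congrFun h (Sum.inr 0), congrFun h (Sum.inr 1)⟩
  · rintro ⟨h1, h2, h3⟩
    funext i
    rcases i with a | j
    · exact h1 a
    · fin_cases j
      · exact h2
      · exact h3

theorem crv_locSec {c K : ℕ} (e : Fin c → MvPolynomial (Fin c ⊕ Fin 2) ℝ)
    (S : Set (Fin c ⊕ Fin 2 → ℝ)) (hS : IsEt K e S) (q l : MvPolynomial (Fin c ⊕ Fin 2) ℝ)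
    (v : Fin c ⊕ Fin 2 → ℝ) (hv : v ∈ Crv e S 1 q l) :
    LocSec (fun t : Fin c ⊕ Fin 2 → ℝ => t (Sum.inr 0)) (Crv e S 1 q l) v := by
  obtain ⟨hvS, hvq, hvb, hvl⟩ := hv
  have hinj : Function.Injective (CrvL_D e q v) := by
    rw [injective_iff_map_eq_zero]
    intro w hw
    exact CrvL_inj e q v hvb w (fun a => congrFun hw (Sum.inl a)) (congrFun hw (Sum.inr 0))
      (congrFun hw (Sum.inr 1))
  obtain ⟨A, hA⟩ : ∃ A : (Fin c ⊕ Fin 2 → ℝ) ≃L[ℝ] (Fin c ⊕ Fin 2 → ℝ),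
      (A : (Fin c ⊕ Fin 2 → ℝ) →L[ℝ] (Fin c ⊕ Fin 2 → ℝ)) = CrvL_D e q v := by
    refine ⟨(LinearEquiv.ofInjectiveEndo
      ((CrvL_D e q v : (Fin c ⊕ Fin 2 → ℝ) →L[ℝ] (Fin c ⊕ Fin 2 → ℝ)) :
        (Fin c ⊕ Fin 2 → ℝ) →ₗ[ℝ] (Fin c ⊕ Fin 2 → ℝ)) hinj).toContinuousLinearEquiv, ?_⟩
    ext w i
    rfl
  have hst : HasStrictFDerivAt (CrvL_F e q)
      (A : (Fin c ⊕ Fin 2 → ℝ) →L[ℝ] (Fin c ⊕ Fin 2 → ℝ)) v := by
    rw [hA]
    exact CrvL_has e q v
  let Φ := hst.toOpenPartialHomeomorph (CrvL_F e q)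
  have hΦ : ∀ t, Φ t = CrvL_F e q t := fun t => rfl
  have hmem : v ∈ Φ.source := hst.mem_toOpenPartialHomeomorph_source
  let E : Set (Fin c ⊕ Fin 2 → ℝ) := {s | ∀ a, eval s (e a) = 0}
  let O : Set (Fin c ⊕ Fin 2 → ℝ) := (E \ S)ᶜ ∩ {t | eval t (HDI.bord e q 1) ≠ 0} ∩ {t | eval t l ≠ 0}
  have hO : IsOpen O := by
    refine (hS.clop.isOpen_compl.inter ?_).inter ?_
    · exact isOpen_ne_fun (HDI.continuous_evalp _) continuous_const
    · exact isOpen_ne_fun (HDI.continuous_evalp _) continuous_const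
  have hvO : v ∈ O := ⟨⟨fun h => h.2 hvS, hvb⟩, hvl⟩
  have hFv : Φ v = CrvL_g c (v (Sum.inr 0)) := (CrvL_F_eq e q v _).2 ⟨hS.zero v hvS, rfl, hvq⟩
  have hT : IsOpen (Φ.target ∩ Φ.symm ⁻¹' O) := Φ.symm.isOpen_inter_preimage hO
  have hvT : CrvL_g c (v (Sum.inr 0)) ∈ Φ.target ∩ Φ.symm ⁻¹' O := by
    rw [← hFv]
    refine ⟨Φ.map_source hmem, ?_⟩
    rw [Set.mem_preimage, Φ.left_inv hmem]
    exact hvO
  obtain ⟨ε, hε, hball⟩ := Metric.isOpen_iff.1 (hT.preimage (CrvL_g_cont c)) _ hvT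
  have hin : ∀ s ∈ Set.Ioo (v (Sum.inr 0) - ε) (v (Sum.inr 0) + ε),
      CrvL_g c s ∈ Φ.target ∩ Φ.symm ⁻¹' O := by
    intro s hs
    refine hball ?_
    rw [Real.ball_eq_Ioo]
    exact hs
  refine ⟨ε, hε, fun s => Φ.symm (CrvL_g c s), ?_, ?_, ?_, Φ.source, Φ.open_source.mem_nhds hmem, ?_⟩
  · exact Φ.continuousOn_symm.comp (CrvL_g_cont c).continuousOn fun s hs => (hin s hs).1
  · show Φ.symm (CrvL_g c (v (Sum.inr 0))) = v
    rw [← hFv, Φ.left_inv hmem]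
  · intro s hs
    obtain ⟨h1, h2⟩ := hin s hs
    have h3 : CrvL_F e q (Φ.symm (CrvL_g c s)) = CrvL_g c s := Φ.right_inv h1
    obtain ⟨h4, h5, h6⟩ := (CrvL_F_eq e q _ s).1 h3
    obtain ⟨⟨h7, h8⟩, h9⟩ := h2
    refine ⟨h5, ?_, h6, h8, h9⟩
    by_contra hne
    exact h7 ⟨h4, hne⟩
  · intro z hz hzH
    have h1 : Φ z = CrvL_g c (z (Sum.inr 0)) :=
      (CrvL_F_eq e q z _).2 ⟨hS.zero z hzH.1, rfl, hzH.2.1⟩
    show z = Φ.symm (CrvL_g c (z (Sum.inr 0)))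
    rw [← h1, Φ.left_inv hz]

end D4Q
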