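import Mathlib
import Pool.Agent.HDI.Base
import Pool.Agent.D4Q.Defs

/-!
# D4Q-SurfL: local structure of étale surfaces

`surf_local`: near `s ∈ S` there are a C^1 section over an open neighbourhood of `(x, y)` and a neighbourhood of `s` in which
`S` is its image. Inverse function theorem for `t ↦ (e t, t ∘ inr)` (derivative invertible since `mu e ≠ 0`), or the
implicit function theorem; near `s` the set `{e = 0}` is the image of the section, and `S` is open in it (`clop`) so after shrinking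
the section has values in `S`.
-/

namespace D4Q

open MvPolynomial

/-- the differential of a polynomial function -/
private noncomputable def surfG {ι : Type} [Fintype ι] (p : MvPolynomial ι ℝ) (x : ι → ℝ) :
    (ι → ℝ) →L[ℝ] ℝ :=
  ∑ i, eval x (pderiv i p) • (ContinuousLinearMap.proj i : (ι → ℝ) →L[ℝ] ℝ)

private theorem surfG_apply {ι : Type} [Fintype ι] (p : MvPolynomial ι ℝ) (x z : ι → ℝ) :
    surfG p x z = ∑ i, eval x (pderiv i p) * z i := by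
  unfold surfG
  rw [_root_.sum_apply]
  rfl

private theorem has_surfG {ι : Type} [Fintype ι] (p : MvPolynomial ι ℝ) (x : ι → ℝ) :
    HasStrictFDerivAt (fun y : ι → ℝ => eval y p) (surfG p x) x :=
  HDI.hasStrictFDerivAt_eval p x

/-- the map `t ↦ (e t, t ∘ inr)` -/
private noncomputable def surfPsi {c : ℕ} (e : Fin c → MvPolynomial (Fin c ⊕ Fin 2) ℝ)
    (t : Fin c ⊕ Fin 2 → ℝ) : Fin c ⊕ Fin 2 → ℝ :=
  fun i => Sum.elim (fun a => eval t (e a)) (fun j => t (Sum.inr j)) i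

/-- its differential -/
private noncomputable def surfPsi' {c : ℕ} (e : Fin c → MvPolynomial (Fin c ⊕ Fin 2) ℝ)
    (t : Fin c ⊕ Fin 2 → ℝ) : (Fin c ⊕ Fin 2 → ℝ) →L[ℝ] (Fin c ⊕ Fin 2 → ℝ) :=
  ContinuousLinearMap.pi fun i => Sum.elim (fun a => surfG (e a) t)
    (fun j => (ContinuousLinearMap.proj (Sum.inr j) : (Fin c ⊕ Fin 2 → ℝ) →L[ℝ] ℝ)) i

private theorem has_surfPsi {c : ℕ} (e : Fin c → MvPolynomial (Fin c ⊕ Fin 2) ℝ)
    (t : Fin c ⊕ Fin 2 → ℝ) : HasStrictFDerivAt (surfPsi e) (surfPsi' e t) t := by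
  rw [hasStrictFDerivAt_pi']
  intro i
  cases i with
  | inl a => exact has_surfG (e a) t
  | inr j => exact hasStrictFDerivAt_apply (Sum.inr j) t

private theorem surfPsi_contDiff {c : ℕ} (e : Fin c → MvPolynomial (Fin c ⊕ Fin 2) ℝ) :
    ContDiff ℝ 1 (surfPsi e) := by
  rw [contDiff_pi]
  intro i
  cases i with
  | inl a => exact (HDI.contDiff_eval (e a)).of_le le_top
  | inr j => exact contDiff_apply ℝ ℝ (Sum.inr j)

private theorem surfPsi'_inj {c : ℕ} (e : Fin c → MvPolynomial (Fin c ⊕ Fin 2) ℝ)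
    (t : Fin c ⊕ Fin 2 → ℝ) (ht : eval t (HDI.mu e) ≠ 0) (v : Fin c ⊕ Fin 2 → ℝ)
    (h1 : ∀ a, surfG (e a) t v = 0) (h2 : ∀ j, v (Sum.inr j) = 0) : v = 0 := by
  classical
  have hm : (Matrix.of fun a b : Fin c => eval t (pderiv (Sum.inl b) (e a))).det ≠ 0 := by
    have h3 : eval t (HDI.mu e) =
        (Matrix.of fun a b : Fin c => eval t (pderiv (Sum.inl b) (e a))).det := by
      rw [HDI.mu, RingHom.map_det]
      rfl
    rwa [h3] at ht
  have h4 : (fun b : Fin c => v (Sum.inl b)) = 0 := by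
    by_contra hne
    apply hm
    refine Matrix.exists_mulVec_eq_zero_iff.mp ⟨_, hne, ?_⟩
    funext a
    have h5 := h1 a
    rw [surfG_apply, Fintype.sum_sum_type] at h5
    simp only [h2, mul_zero, Finset.sum_const_zero, add_zero] at h5
    simpa [Matrix.mulVec, dotProduct] using h5
  funext i
  cases i with
  | inl b => exact congrFun h4 b
  | inr j => exact h2 j

private theorem surfPsi'_equiv {c : ℕ} (e : Fin c → MvPolynomial (Fin c ⊕ Fin 2) ℝ)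
    (t : Fin c ⊕ Fin 2 → ℝ) (ht : eval t (HDI.mu e) ≠ 0) :
    ∃ A : (Fin c ⊕ Fin 2 → ℝ) ≃L[ℝ] (Fin c ⊕ Fin 2 → ℝ),
      (A : (Fin c ⊕ Fin 2 → ℝ) →L[ℝ] (Fin c ⊕ Fin 2 → ℝ)) = surfPsi' e t := by
  have hinj : Function.Injective (surfPsi' e t) := by
    rw [injective_iff_map_eq_zero]
    intro v hv
    refine surfPsi'_inj e t ht v (fun a => ?_) fun j => ?_
    · exact congrFun hv (Sum.inl a)
    · exact congrFun hv (Sum.inr j)
  refine ⟨(LinearEquiv.ofInjectiveEndo _ hinj).toContinuousLinearEquiv, ?_⟩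
  ext v i
  rfl

theorem surf_local {c K : ℕ} (e : Fin c → MvPolynomial (Fin c ⊕ Fin 2) ℝ)
    (S : Set (Fin c ⊕ Fin 2 → ℝ)) (hS : IsEt K e S) (v : Fin c ⊕ Fin 2 → ℝ) (hv : v ∈ S) :
    ∃ (W : Set (Fin 2 → ℝ)) (σ : (Fin 2 → ℝ) → (Fin c ⊕ Fin 2 → ℝ)), W ∈ nhds (v ∘ Sum.inr) ∧
      IsOpen W ∧ σ (v ∘ Sum.inr) = v ∧ ContDiffOn ℝ 1 σ W ∧
      (∀ w ∈ W, σ w ∘ Sum.inr = w ∧ σ w ∈ S) ∧
      ∃ U ∈ nhds v, ∀ t ∈ U, t ∈ S → t ∘ Sum.inr ∈ W ∧ t = σ (t ∘ Sum.inr) := by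
  classical
  have hmu : eval v (HDI.mu e) ≠ 0 := hS.reg v (hS.zero v hv)
  obtain ⟨A0, hA0⟩ := surfPsi'_equiv e v hmu
  have hst0 : HasStrictFDerivAt (surfPsi e)
      (A0 : (Fin c ⊕ Fin 2 → ℝ) →L[ℝ] (Fin c ⊕ Fin 2 → ℝ)) v := by
    rw [hA0]
    exact has_surfPsi e v
  let Φ := hst0.toOpenPartialHomeomorph (surfPsi e)
  have hΦ : ∀ t, Φ t = surfPsi e t := fun t => rfl
  have hmem0 : v ∈ Φ.source := hst0.mem_toOpenPartialHomeomorph_source
  -- the linear map `w ↦ (0, w)`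
  let P : (Fin 2 → ℝ) →L[ℝ] (Fin c ⊕ Fin 2 → ℝ) :=
    ContinuousLinearMap.pi fun i => Sum.elim (fun _ => (0 : (Fin 2 → ℝ) →L[ℝ] ℝ))
      (fun j => (ContinuousLinearMap.proj j : (Fin 2 → ℝ) →L[ℝ] ℝ)) i
  have hPt : ∀ t : Fin c ⊕ Fin 2 → ℝ, (∀ a, eval t (e a) = 0) →
      P (t ∘ Sum.inr) = surfPsi e t := by
    intro t ht
    funext i
    cases i with
    | inl a =>
      show (0 : ℝ) = eval t (e a)
      rw [ht a]
    | inr j => rfl
  let σ : (Fin 2 → ℝ) → (Fin c ⊕ Fin 2 → ℝ) := fun w => Φ.symm (P w)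
  have hσv : σ (v ∘ Sum.inr) = v := by
    show Φ.symm (P (v ∘ Sum.inr)) = v
    rw [hPt v (hS.zero v hv), ← hΦ]
    exact Φ.left_inv hmem0
  -- good open set in the source: `mu ≠ 0` and not in the rest of the zero set
  let O : Set (Fin c ⊕ Fin 2 → ℝ) := Φ.source ∩ ({t | eval t (HDI.mu e) ≠ 0} ∩
    ({s | ∀ a, eval s (e a) = 0} \ S)ᶜ)
  have hOo : IsOpen O := by
    refine Φ.open_source.inter (IsOpen.inter ?_ hS.clop.isOpen_compl)
    exact isOpen_ne_fun (HDI.continuous_evalp (HDI.mu e)) continuous_const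
  have hvO : v ∈ O := ⟨hmem0, hmu, fun h => h.2 hv⟩
  let T : Set (Fin c ⊕ Fin 2 → ℝ) := Φ.target ∩ Φ.symm ⁻¹' O
  have hTo : IsOpen T := Φ.isOpen_inter_preimage_symm hOo
  let W : Set (Fin 2 → ℝ) := P ⁻¹' T
  have hWo : IsOpen W := hTo.preimage P.continuous
  have hkey : ∀ t ∈ O, t ∈ S → t ∘ Sum.inr ∈ W ∧ t = σ (t ∘ Sum.inr) := by
    intro t htO htS
    have h1 : P (t ∘ Sum.inr) = Φ t := by
      rw [hPt t (hS.zero t htS), hΦ]
    have h2 : Φ.symm (Φ t) = t := Φ.left_inv htO.1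
    refine ⟨⟨?_, ?_⟩, ?_⟩
    · rw [h1]
      exact Φ.map_source htO.1
    · show Φ.symm (P (t ∘ Sum.inr)) ∈ O
      rw [h1, h2]
      exact htO
    · show t = Φ.symm (P (t ∘ Sum.inr))
      rw [h1, h2]
  have hσW : ∀ w ∈ W, surfPsi e (σ w) = P w := by
    intro w hw
    rw [← hΦ]
    exact Φ.right_inv hw.1
  refine ⟨W, σ, hWo.mem_nhds (hkey v hvO hv).1, hWo, hσv, ?_, ?_, O, hOo.mem_nhds hvO, hkey⟩
  · intro w hw
    have hmw : eval (σ w) (HDI.mu e) ≠ 0 := hw.2.2.1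
    obtain ⟨A, hA⟩ := surfPsi'_equiv e (σ w) hmw
    have h1 : HasFDerivAt Φ (A : (Fin c ⊕ Fin 2 → ℝ) →L[ℝ] (Fin c ⊕ Fin 2 → ℝ))
        (Φ.symm (P w)) := by
      rw [hA]
      exact (has_surfPsi e _).hasFDerivAt
    have h2 : ContDiffAt ℝ 1 Φ.symm (P w) :=
      Φ.contDiffAt_symm hw.1 h1 (surfPsi_contDiff e).contDiffAt
    exact (h2.comp w P.contDiff.contDiffAt).contDiffWithinAt
  · intro w hw
    have h1 := hσW w hw
    have h2 : σ w ∘ Sum.inr = w := by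
      funext j
      exact congrFun h1 (Sum.inr j)
    refine ⟨h2, ?_⟩
    by_contra hn
    refine hw.2.2.2 ⟨?_, hn⟩
    intro a
    exact congrFun h1 (Sum.inl a)

end D4Q
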