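import Mathlib
import Pool.Agent.D4Q.GC
import Pool.Agent.D4Q.O1

/-!
# D4Q part ARC: arcs

`arcs`: let `u (x, y)` be a polynomial, `Y = {s ∈ S | u = 0 ≠ ∂u/∂y}` (étale over the `x`-axis), and
let `ell j` (`j : J`) be finitely many polynomials; for a class `c : L` let `Zc c` be the set of
those which have to vanish and `Nc c` the set of those which must not vanish. Let `Q ⊆ Y` be finite
with a class `cl q` for `q ∈ Q` such that `q` satisfies the conditions of the class `cl q` but of no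
other class. Then there is a family of at most `K1 ∑_j (deg u + 1)(deg u + deg (ell j) + 1) + K1 (deg u + 1)^2`
compact arcs in `Y` (sections over intervals `[a, b]`, `a < b`, of the `x`-axis), pairwise disjoint, with
labels in `L`, each arc satisfying the conditions of its label at all its points, with endpoints in
`Q`, such that all but so many points `q ∈ Q` lie on an arc with label `cl q`.

PROOF. `arc_main` is the topological part: `Y` is a subset of a Hausdorff space whose components are sections (`comp_section`).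
`arcG q q'`: `q'` is on the component of `q`, not to the left of `q`, and the piece between them satisfies the conditions of the class of
`q`. A point `q` of `Q` is an end if there is no `q' ≠ q` in `Q` with `arcG q q'`. The arcs belong to the ends `q` for which there is
a `q' ≠ q` with `arcG q' q`; all points of `Q` which are not on an arc with their class are ends. An end is either the last point of `Q` on its
component (at most one for each component), or between `q` and the next point `q'` there is a point `z ≠ q` violating a condition `j` of the class of `q`: either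
`j` vanishes at `z` and not at `q`; then the components in `Y ∖ {ell j = 0}` of these `q` are different; or `j` vanishes at `q` and not
at `z`; then the components of these `z` are different. The numbers of components are bounded by `gcCurve`.
-/

namespace D4Q

open MvPolynomial

section Topology

variable {X : Type*} [TopologicalSpace X] [T2Space X] {x : X → ℝ} {Y : Set X}

private theorem arc_sec (hx : Continuous x) (hY : ∀ v ∈ Y, LocSec x Y v) {v : X} (hv : v ∈ Y) :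
    ∃ (J : Set ℝ) (κ : ℝ → X), J.OrdConnected ∧ ContinuousOn κ J ∧
      (∀ t ∈ J, x (κ t) = t ∧ κ t ∈ connectedComponentIn Y v) ∧
      ∀ z ∈ connectedComponentIn Y v, x z ∈ J ∧ κ (x z) = z := by
  obtain ⟨J, κ, _, h2, _, h4, h5, _, h7⟩ := comp_section x hx Y hY v hv
  refine ⟨J, κ, h2, h4, fun t ht => ⟨h5 t ht, ?_⟩, fun z hz => ?_⟩
  · rw [← h7]
    exact ⟨t, ht, rfl⟩
  · rw [← h7] at hz
    obtain ⟨t, ht, rfl⟩ := hz
    rw [h5 t ht]
    exact ⟨ht, rfl⟩

private theorem arc_inj (hx : Continuous x) (hY : ∀ v ∈ Y, LocSec x Y v) {v z z' : X} (hv : v ∈ Y)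
    (hz : z ∈ connectedComponentIn Y v) (hz' : z' ∈ connectedComponentIn Y v) (h : x z = x z') : z = z' := by
  obtain ⟨J, κ, _, _, _, h4⟩ := arc_sec hx hY hv
  rw [← (h4 z hz).2, ← (h4 z' hz').2, h]

private theorem arc_key (hx : Continuous x) (hY : ∀ v ∈ Y, LocSec x Y v) {A : Set X} {p p' z : X}
    (h : p' ∈ connectedComponentIn (Y ∩ A) p) (hz : z ∈ connectedComponentIn Y p)
    (hle : (x p ≤ x z ∧ x z ≤ x p') ∨ (x p' ≤ x z ∧ x z ≤ x p)) : z ∈ A := by
  have hp : p ∈ Y ∩ A := by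
    by_contra h0
    rw [connectedComponentIn_eq_empty h0] at h
    exact h
  have hpre : IsPreconnected (connectedComponentIn (Y ∩ A) p) := isPreconnected_connectedComponentIn
  have hpm : p ∈ connectedComponentIn (Y ∩ A) p := mem_connectedComponentIn hp
  have hsub : connectedComponentIn (Y ∩ A) p ⊆ Y ∩ A := connectedComponentIn_subset _ _
  have hsub' : connectedComponentIn (Y ∩ A) p ⊆ connectedComponentIn Y p :=
    hpre.subset_connectedComponentIn hpm (hsub.trans Set.inter_subset_left)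
  have himg : IsPreconnected (x '' connectedComponentIn (Y ∩ A) p) := hpre.image x hx.continuousOn
  have hmem : x z ∈ x '' connectedComponentIn (Y ∩ A) p := by
    rcases hle with ⟨h1, h2⟩ | ⟨h1, h2⟩
    · exact himg.ordConnected.out ⟨p, hpm, rfl⟩ ⟨p', h, rfl⟩ ⟨h1, h2⟩
    · exact himg.ordConnected.out ⟨p', h, rfl⟩ ⟨p, hpm, rfl⟩ ⟨h1, h2⟩
  obtain ⟨d, hd, hdz⟩ := hmem
  have h3 : z = d := arc_inj hx hY hp.1 hz (hsub' hd) hdz.symm
  rw [h3]
  exact (hsub hd).2

end Topology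

/-- the conditions of the class `c` -/
private def arcC {X J L : Type} (A : J → Set X) (Zc Nc : L → Finset J) (c : L) (z : X) : Prop :=
  (∀ j ∈ Zc c, z ∉ A j) ∧ ∀ j ∈ Nc c, z ∈ A j

/-- `q'` is on the component of `q`, not to the left of `q`, and the piece between them satisfies the conditions of the
class of `q` -/
private def arcG {X J L : Type} [TopologicalSpace X] (x : X → ℝ) (Y : Set X) (A : J → Set X)
    (Zc Nc : L → Finset J) (cl : X → L) (q q' : X) : Prop :=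
  q' ∈ connectedComponentIn Y q ∧ x q ≤ x q' ∧
    ∀ z ∈ connectedComponentIn Y q, x q ≤ x z → x z ≤ x q' → arcC A Zc Nc (cl q) z

section Main

variable {X : Type} [TopologicalSpace X] [T2Space X] {x : X → ℝ} {Y : Set X} {J L : Type}
  {A : J → Set X} {Zc Nc : L → Finset J} {Q : Finset X} {cl : X → L}

/-- the finite set `Q` meets each component of `Z` at most once -/
private def arcS (Z : Set X) (Q : Finset X) : Prop :=
  (∀ p ∈ Q, p ∈ Z) ∧ ∀ p ∈ Q, ∀ p' ∈ Q, p ≠ p' → p' ∉ connectedComponentIn Z p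

omit [T2Space X] in
private theorem arc_cl (hc' : ∀ q ∈ Q, ∀ c', c' ≠ cl q → ¬ arcC A Zc Nc c' q) {q q' : X} (hq' : q' ∈ Q)
    (h : arcG x Y A Zc Nc cl q q') : cl q = cl q' := by
  by_contra h0
  exact hc' q' hq' (cl q) h0 (h.2.2 q' h.1 h.2.1 le_rfl)

omit [T2Space X] in
private theorem arc_trans (hc' : ∀ q ∈ Q, ∀ c', c' ≠ cl q → ¬ arcC A Zc Nc c' q) {q q' q'' : X} (hq' : q' ∈ Q)
    (h : arcG x Y A Zc Nc cl q q') (h' : arcG x Y A Zc Nc cl q' q'') : arcG x Y A Zc Nc cl q q'' := by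
  have h1 := connectedComponentIn_eq h.1
  refine ⟨by rw [h1]; exact h'.1, h.2.1.trans h'.2.1, fun z hz h2 h3 => ?_⟩
  rcases le_total (x z) (x q') with h4 | h4
  · exact h.2.2 z hz h2 h4
  · rw [arc_cl hc' hq' h]
    rw [h1] at hz
    exact h'.2.2 z hz h4 h3

omit [T2Space X] in
/-- a point of `Q` between `s` and `q`, if `arcG s q` -/
private theorem arc_mid (hc' : ∀ q ∈ Q, ∀ c', c' ≠ cl q → ¬ arcC A Zc Nc c' q) {s m q : X} (hm : m ∈ Q)
    (h : arcG x Y A Zc Nc cl s q) (hms : m ∈ connectedComponentIn Y s) (h1 : x s ≤ x m) (h2 : x m ≤ x q) :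
    arcG x Y A Zc Nc cl m q := by
  have e1 := connectedComponentIn_eq hms
  have h3 : arcG x Y A Zc Nc cl s m := ⟨hms, h1, fun z hz a b => h.2.2 z hz a (b.trans h2)⟩
  refine ⟨by rw [← e1]; exact h.1, h2, fun z hz a b => ?_⟩
  rw [← e1] at hz
  rw [← arc_cl hc' hm h3]
  exact h.2.2 z hz (h1.trans a) b

/-- the ends -/
private def arcE (x : X → ℝ) (Y : Set X) (A : J → Set X) (Zc Nc : L → Finset J) (cl : X → L) (Q : Finset X) (q : X) : Prop :=
  ∀ q' ∈ Q, arcG x Y A Zc Nc cl q q' → x q' ≤ x q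

open scoped Classical in
/-- the number of ends -/
private theorem arc_count [Fintype J] (hx : Continuous x) (hY : ∀ v ∈ Y, LocSec x Y v) (hQ : ∀ q ∈ Q, q ∈ Y)
    (hc : ∀ q ∈ Q, arcC A Zc Nc (cl q) q) (N0 : ℕ) (N : J → ℕ) (hN0 : ∀ Q' : Finset X, arcS Y Q' → Q'.card ≤ N0)
    (hN : ∀ j, ∀ Q' : Finset X, arcS (Y ∩ A j) Q' → Q'.card ≤ N j) :
    (Q.filter fun q => arcE x Y A Zc Nc cl Q q).card ≤ N0 + ∑ j, 2 * N j := by
  -- the last points on the components
  have h0 : (Q.filter fun q => ∀ q' ∈ Q, q' ∈ connectedComponentIn Y q → x q' ≤ x q).card ≤ N0 := by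
    refine hN0 _ ⟨fun p hp => hQ p (Finset.mem_filter.1 hp).1, fun p hp p' hp' hne hmem => hne ?_⟩
    rw [Finset.mem_filter] at hp hp'
    have e1 := connectedComponentIn_eq hmem
    have h1 := hp.2 p' hp'.1 hmem
    have h2 := hp'.2 p hp.1 (by rw [← e1]; exact mem_connectedComponentIn (hQ p hp.1))
    exact arc_inj hx hY (hQ p hp.1) (mem_connectedComponentIn (hQ p hp.1)) hmem (le_antisymm h2 h1)
  have hneq : ∀ {p p' : X}, p ∈ Q → p' ∈ connectedComponentIn Y p → p ≠ p' → x p < x p' ∨ x p' < x p := by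
    intro p p' hp hp' hne
    rcases lt_trichotomy (x p) (x p') with h1 | h1 | h1
    · exact Or.inl h1
    · exact absurd (arc_inj hx hY (hQ p hp) (mem_connectedComponentIn (hQ p hp)) hp' h1) hne
    · exact Or.inr h1
  -- points `q` in `A j` with a point outside of `A j` before the next point
  have hR : ∀ j, (Q.filter fun q => q ∈ A j ∧ ∃ z ∈ connectedComponentIn Y q, x q < x z ∧
      (∀ q' ∈ Q, q' ∈ connectedComponentIn Y q → x q < x q' → x z ≤ x q') ∧ z ∉ A j).card ≤ N j := by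
    intro j
    refine hN j _ ⟨fun p hp => ?_, fun p hp p' hp' hne hmem => ?_⟩
    · rw [Finset.mem_filter] at hp
      exact ⟨hQ p hp.1, hp.2.1⟩
    · rw [Finset.mem_filter] at hp hp'
      obtain ⟨hpQ, _, z, hz, hz1, hz2, hz3⟩ := hp
      obtain ⟨hpQ', _, z', hz', hz1', hz2', hz3'⟩ := hp'
      have hm : p' ∈ connectedComponentIn Y p :=
        connectedComponentIn_mono p Set.inter_subset_left hmem
      have e1 := connectedComponentIn_eq hm
      rcases hneq hpQ hm hne with h1 | h1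
      · exact hz3 (arc_key hx hY hmem hz (Or.inl ⟨hz1.le, hz2 p' hpQ' hm h1⟩))
      · have h2 : p ∈ connectedComponentIn Y p' := by rw [← e1]; exact mem_connectedComponentIn (hQ p hpQ)
        rw [← e1] at hz'
        exact hz3' (arc_key hx hY hmem hz' (Or.inr ⟨hz1'.le, hz2' p hpQ h2 h1⟩))
  -- points `q` outside of `A j` with a point in `A j` before the next point
  have hL : ∀ j, (Q.filter fun q => q ∉ A j ∧ ∃ z ∈ connectedComponentIn Y q, x q < x z ∧
      (∀ q' ∈ Q, q' ∈ connectedComponentIn Y q → x q < x q' → x z ≤ x q') ∧ z ∈ A j).card ≤ N j := by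
    intro j
    have hch : ∀ q : X, ∃ z : X, (q ∈ Q ∧ q ∉ A j ∧ ∃ z ∈ connectedComponentIn Y q, x q < x z ∧
      (∀ q' ∈ Q, q' ∈ connectedComponentIn Y q → x q < x q' → x z ≤ x q') ∧ z ∈ A j) →
      z ∈ connectedComponentIn Y q ∧ x q < x z ∧
      (∀ q' ∈ Q, q' ∈ connectedComponentIn Y q → x q < x q' → x z ≤ x q') ∧ z ∈ A j := by
      intro q
      by_cases h : ∃ z ∈ connectedComponentIn Y q, x q < x z ∧
          (∀ q' ∈ Q, q' ∈ connectedComponentIn Y q → x q < x q' → x z ≤ x q') ∧ z ∈ A j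
      · obtain ⟨z, hz⟩ := h
        exact ⟨z, fun _ => hz⟩
      · exact ⟨q, fun h' => absurd h'.2.2 h⟩
    choose w hw using hch
    have hsep : ∀ p ∈ Q.filter (fun q => q ∉ A j ∧ ∃ z ∈ connectedComponentIn Y q, x q < x z ∧
        (∀ q' ∈ Q, q' ∈ connectedComponentIn Y q → x q < x q' → x z ≤ x q') ∧ z ∈ A j),
        ∀ p' ∈ Q.filter (fun q => q ∉ A j ∧ ∃ z ∈ connectedComponentIn Y q, x q < x z ∧
        (∀ q' ∈ Q, q' ∈ connectedComponentIn Y q → x q < x q' → x z ≤ x q') ∧ z ∈ A j),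
        p ≠ p' → w p' ∉ connectedComponentIn (Y ∩ A j) (w p) := by
      intro p hp p' hp' hne hmem
      rw [Finset.mem_filter] at hp hp'
      obtain ⟨a1, a2, a3, a4⟩ := hw p hp
      obtain ⟨b1, b2, b3, b4⟩ := hw p' hp'
      have hm : w p' ∈ connectedComponentIn Y (w p) :=
        connectedComponentIn_mono (w p) Set.inter_subset_left hmem
      have e1 := connectedComponentIn_eq a1
      have e2 := connectedComponentIn_eq b1
      have e3 := connectedComponentIn_eq hm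
      have e4 : connectedComponentIn Y p = connectedComponentIn Y p' := by rw [e1, e3, ← e2]
      have hpp : p ∈ connectedComponentIn Y p := mem_connectedComponentIn (hQ p hp.1)
      have hpp' : p' ∈ connectedComponentIn Y p' := mem_connectedComponentIn (hQ p' hp'.1)
      rcases hneq hp.1 (by rw [e4]; exact hpp') hne with h1 | h1
      · have h2 := a3 p' hp'.1 (by rw [e4]; exact hpp') h1
        refine hp'.2.1 (arc_key hx hY hmem ?_ (Or.inl ⟨h2, b2.le⟩))
        rw [← e1, e4]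
        exact hpp'
      · have h2 := b3 p hp.1 (by rw [← e4]; exact hpp) h1
        refine hp.2.1 (arc_key hx hY hmem ?_ (Or.inr ⟨h2, a2.le⟩))
        rw [← e1]
        exact hpp
    have hin : ∀ p ∈ Q.filter (fun q => q ∉ A j ∧ ∃ z ∈ connectedComponentIn Y q, x q < x z ∧
        (∀ q' ∈ Q, q' ∈ connectedComponentIn Y q → x q < x q' → x z ≤ x q') ∧ z ∈ A j), w p ∈ Y ∩ A j := by
      intro p hp
      rw [Finset.mem_filter] at hp
      obtain ⟨a1, _, _, a4⟩ := hw p hp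
      exact ⟨connectedComponentIn_subset _ _ a1, a4⟩
    have hinj : Set.InjOn w (Q.filter (fun q => q ∉ A j ∧ ∃ z ∈ connectedComponentIn Y q, x q < x z ∧
        (∀ q' ∈ Q, q' ∈ connectedComponentIn Y q → x q < x q' → x z ≤ x q') ∧ z ∈ A j) : Finset X) := by
      intro p hp p' hp' heq
      by_contra hne
      refine hsep p hp p' hp' hne ?_
      rw [← heq]
      exact mem_connectedComponentIn (hin p hp)
    rw [← Finset.card_image_of_injOn hinj]
    refine hN j _ ⟨fun p hp => ?_, fun p hp p' hp' hne => ?_⟩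
    · obtain ⟨r, hr, rfl⟩ := Finset.mem_image.1 hp
      exact hin r hr
    · obtain ⟨r, hr, rfl⟩ := Finset.mem_image.1 hp
      obtain ⟨r', hr', rfl⟩ := Finset.mem_image.1 hp'
      exact hsep r hr r' hr' fun h => hne (by rw [h])
  -- the ends
  have hsub : (Q.filter fun q => arcE x Y A Zc Nc cl Q q) ⊆
      (Q.filter fun q => ∀ q' ∈ Q, q' ∈ connectedComponentIn Y q → x q' ≤ x q) ∪
      Finset.univ.biUnion fun j => (Q.filter fun q => q ∈ A j ∧ ∃ z ∈ connectedComponentIn Y q, x q < x z ∧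
      (∀ q' ∈ Q, q' ∈ connectedComponentIn Y q → x q < x q' → x z ≤ x q') ∧ z ∉ A j) ∪
      (Q.filter fun q => q ∉ A j ∧ ∃ z ∈ connectedComponentIn Y q, x q < x z ∧
      (∀ q' ∈ Q, q' ∈ connectedComponentIn Y q → x q < x q' → x z ≤ x q') ∧ z ∈ A j) := by
    intro q hq
    rw [Finset.mem_filter] at hq
    obtain ⟨hqQ, hqE⟩ := hq
    rw [Finset.mem_union]
    by_cases hlast : ∀ q' ∈ Q, q' ∈ connectedComponentIn Y q → x q' ≤ x q
    · exact Or.inl (Finset.mem_filter.2 ⟨hqQ, hlast⟩)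
    · right
      push Not at hlast
      obtain ⟨q1, hq1, hq1c, hq1x⟩ := hlast
      obtain ⟨r, hr, hrmin⟩ := Finset.exists_min_image
        (Q.filter fun q' => q' ∈ connectedComponentIn Y q ∧ x q < x q') x
        ⟨q1, Finset.mem_filter.2 ⟨hq1, hq1c, hq1x⟩⟩
      rw [Finset.mem_filter] at hr
      obtain ⟨hrQ, hrc, hrx⟩ := hr
      have hnG : ¬ arcG x Y A Zc Nc cl q r := fun h => absurd (hqE r hrQ h) (not_le.2 hrx)
      have hz : ∃ z ∈ connectedComponentIn Y q, x q ≤ x z ∧ x z ≤ x r ∧ ¬ arcC A Zc Nc (cl q) z := by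
        by_contra h
        push Not at h
        exact hnG ⟨hrc, hrx.le, fun z h1 h2 h3 => h z h1 h2 h3⟩
      obtain ⟨z, hz1, hz2, hz3, hz4⟩ := hz
      have hlt : x q < x z := by
        rcases hz2.lt_or_eq with h | h
        · exact h
        · have h5 : q = z := arc_inj hx hY (hQ q hqQ) (mem_connectedComponentIn (hQ q hqQ)) hz1 h
          rw [← h5] at hz4
          exact absurd (hc q hqQ) hz4
      have hnext : ∀ q' ∈ Q, q' ∈ connectedComponentIn Y q → x q < x q' → x z ≤ x q' := fun q' h1 h2 h3 =>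
        hz3.trans (hrmin q' (Finset.mem_filter.2 ⟨h1, h2, h3⟩))
      have hcq := hc q hqQ
      rw [Finset.mem_biUnion]
      by_cases hb : ∃ j ∈ Zc (cl q), z ∈ A j
      · obtain ⟨j, hj, hjz⟩ := hb
        exact ⟨j, Finset.mem_univ _, Finset.mem_union_right _
          (Finset.mem_filter.2 ⟨hqQ, hcq.1 j hj, z, hz1, hlt, hnext, hjz⟩)⟩
      · push Not at hb
        have hb' : ∃ j ∈ Nc (cl q), z ∉ A j := by
          by_contra h
          push Not at h
          exact hz4 ⟨hb, h⟩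
        obtain ⟨j, hj, hjz⟩ := hb'
        exact ⟨j, Finset.mem_univ _, Finset.mem_union_left _
          (Finset.mem_filter.2 ⟨hqQ, hcq.2 j hj, z, hz1, hlt, hnext, hjz⟩)⟩
  refine (Finset.card_le_card hsub).trans ((Finset.card_union_le _ _).trans (Nat.add_le_add h0 ?_))
  refine Finset.card_biUnion_le.trans (Finset.sum_le_sum fun j _ => ?_)
  refine (Finset.card_union_le _ _).trans ?_
  have h1 := hR j
  have h2 := hL j
  omega

open scoped Classical in
private theorem arc_main [Fintype J] (hx : Continuous x) (hY : ∀ v ∈ Y, LocSec x Y v) (hQ : ∀ q ∈ Q, q ∈ Y)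
    (hc : ∀ q ∈ Q, arcC A Zc Nc (cl q) q) (hc' : ∀ q ∈ Q, ∀ c', c' ≠ cl q → ¬ arcC A Zc Nc c' q)
    (N0 : ℕ) (N : J → ℕ) (hN0 : ∀ Q' : Finset X, arcS Y Q' → Q'.card ≤ N0)
    (hN : ∀ j, ∀ Q' : Finset X, arcS (Y ∩ A j) Q' → Q'.card ≤ N j) :
    ∃ (Λ : Type) (_ : Fintype Λ) (lab : Λ → L) (a b : Λ → ℝ) (ρ : Λ → ℝ → X),
      Fintype.card Λ ≤ N0 + ∑ j, 2 * N j ∧
      (∀ l, a l < b l ∧ ContinuousOn (ρ l) (Set.Icc (a l) (b l)) ∧
        (∀ t ∈ Set.Icc (a l) (b l), x (ρ l t) = t ∧ ρ l t ∈ Y ∧ arcC A Zc Nc (lab l) (ρ l t)) ∧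
        ρ l (a l) ∈ Q ∧ ρ l (b l) ∈ Q) ∧
      (∀ l l' t t', t ∈ Set.Icc (a l) (b l) → t' ∈ Set.Icc (a l') (b l') → ρ l t = ρ l' t' → l = l') ∧
      (Q.filter fun q => ¬ ∃ l, lab l = cl q ∧ ∃ t ∈ Set.Icc (a l) (b l), ρ l t = q).card ≤ N0 + ∑ j, 2 * N j := by
  have hcount := arc_count (A := A) (Zc := Zc) (Nc := Nc) (cl := cl) hx hY hQ hc N0 N hN0 hN
  -- the ends with an arc
  have hst : ∀ q : X, ∃ s : X, q ∈ Q.filter (fun q => arcE x Y A Zc Nc cl Q q ∧
      ∃ q' ∈ Q, x q' < x q ∧ arcG x Y A Zc Nc cl q' q) →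
      s ∈ Q ∧ x s < x q ∧ arcG x Y A Zc Nc cl s q ∧ ∀ q' ∈ Q, arcG x Y A Zc Nc cl q' q → x s ≤ x q' := by
    intro q
    by_cases hq : q ∈ Q.filter (fun q => arcE x Y A Zc Nc cl Q q ∧ ∃ q' ∈ Q, x q' < x q ∧ arcG x Y A Zc Nc cl q' q)
    · obtain ⟨_, _, q1, h1, h2, h3⟩ := Finset.mem_filter.1 hq
      obtain ⟨s, hs, hsmin⟩ := Finset.exists_min_image (Q.filter fun q' => arcG x Y A Zc Nc cl q' q) x
        ⟨q1, Finset.mem_filter.2 ⟨h1, h3⟩⟩
      rw [Finset.mem_filter] at hs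
      refine ⟨s, fun _ => ⟨hs.1, ?_, hs.2, fun q' h4 h5 => hsmin q' (Finset.mem_filter.2 ⟨h4, h5⟩)⟩⟩
      exact lt_of_le_of_lt (hsmin q1 (Finset.mem_filter.2 ⟨h1, h3⟩)) h2
    · exact ⟨q, fun h => absurd h hq⟩
  choose s hs using hst
  have hsec : ∀ q : X, ∃ (I : Set ℝ) (κ : ℝ → X), q ∈ Q → I.OrdConnected ∧ ContinuousOn κ I ∧
      (∀ t ∈ I, x (κ t) = t ∧ κ t ∈ connectedComponentIn Y q) ∧
      ∀ z ∈ connectedComponentIn Y q, x z ∈ I ∧ κ (x z) = z := by
    intro q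
    by_cases hq : q ∈ Q
    · obtain ⟨I, κ, h⟩ := arc_sec hx hY (hQ q hq)
      exact ⟨I, κ, fun _ => h⟩
    · exact ⟨∅, fun _ => q, fun h => absurd h hq⟩
  choose I κ hκ using hsec
  -- the facts about an arc
  have hfact : ∀ q ∈ Q.filter (fun q => arcE x Y A Zc Nc cl Q q ∧ ∃ q' ∈ Q, x q' < x q ∧ arcG x Y A Zc Nc cl q' q),
      Set.Icc (x (s q)) (x q) ⊆ I q ∧ s q ∈ connectedComponentIn Y q ∧ ∀ z ∈ connectedComponentIn Y q,
        x (s q) ≤ x z → x z ≤ x q → arcC A Zc Nc (cl q) z := by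
    intro q hq
    obtain ⟨a1, a2, a3, a4⟩ := hs q hq
    have hqQ : q ∈ Q := (Finset.mem_filter.1 hq).1
    have e1 := connectedComponentIn_eq a3.1
    have h1 : s q ∈ connectedComponentIn Y q := by rw [← e1]; exact mem_connectedComponentIn (hQ _ a1)
    refine ⟨?_, h1, fun z hz h2 h3 => ?_⟩
    · exact (hκ q hqQ).1.out ((hκ q hqQ).2.2.2 _ h1).1
        ((hκ q hqQ).2.2.2 q (mem_connectedComponentIn (hQ q hqQ))).1
    · rw [← arc_cl hc' hqQ a3]
      rw [← e1] at hz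
      exact a3.2.2 z hz h2 h3
  refine ⟨↥(Q.filter (fun q => arcE x Y A Zc Nc cl Q q ∧ ∃ q' ∈ Q, x q' < x q ∧ arcG x Y A Zc Nc cl q' q)),
    inferInstance, fun q => cl q, fun q => x (s q), fun q => x q, fun q => κ q, ?_, fun q => ?_,
    fun q q' t t' ht ht' heq => ?_, ?_⟩
  · rw [Fintype.card_coe]
    refine le_trans (Finset.card_le_card fun q hq => ?_) hcount
    rw [Finset.mem_filter] at hq ⊢
    exact ⟨hq.1, hq.2.1⟩
  · obtain ⟨a1, a2, a3, a4⟩ := hs q q.2
    have hqQ : (q : X) ∈ Q := (Finset.mem_filter.1 q.2).1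
    obtain ⟨b1, b2, b3⟩ := hfact q q.2
    obtain ⟨c1, c2, c3, c4⟩ := hκ q hqQ
    refine ⟨a2, c2.mono b1, fun t ht => ?_, ?_, ?_⟩
    · obtain ⟨d1, d2⟩ := c3 t (b1 ht)
      refine ⟨d1, connectedComponentIn_subset _ _ d2, b3 _ d2 ?_ ?_⟩
      · rw [d1]
        exact ht.1
      · rw [d1]
        exact ht.2
    · have e1 := (c4 _ b2).2
      show κ (q : X) (x (s q)) ∈ Q
      rw [e1]
      exact a1
    · have e1 := (c4 _ (mem_connectedComponentIn (hQ _ hqQ))).2
      show κ (q : X) (x q) ∈ Q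
      rw [e1]
      exact hqQ
  · -- disjointness
    have hdis : ∀ q ∈ Q.filter (fun q => arcE x Y A Zc Nc cl Q q ∧ ∃ q' ∈ Q, x q' < x q ∧ arcG x Y A Zc Nc cl q' q),
        ∀ q' ∈ Q.filter (fun q => arcE x Y A Zc Nc cl Q q ∧ ∃ q' ∈ Q, x q' < x q ∧ arcG x Y A Zc Nc cl q' q),
        ∀ z, z ∈ connectedComponentIn Y q → z ∈ connectedComponentIn Y q' → x (s q') ≤ x z → x z ≤ x q →
        ¬ x q < x q' := by
      intro q hq q' hq' z hz hz' h1 h2 hlt
      obtain ⟨a1, a2, a3, a4⟩ := hs q' hq'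
      rw [Finset.mem_filter] at hq
      have e1 := connectedComponentIn_eq hz
      have e2 := connectedComponentIn_eq hz'
      have e3 := connectedComponentIn_eq a3.1
      have h3 : q ∈ connectedComponentIn Y (s q') := by
        rw [e3, e2, ← e1]
        exact mem_connectedComponentIn (hQ q hq.1)
      have h4 := arc_mid hc' hq.1 a3 h3 (h1.trans h2) hlt.le
      exact absurd (hq.2.1 q' (Finset.mem_filter.1 hq').1 h4) (not_le.2 hlt)
    have hqQ : (q : X) ∈ Q := (Finset.mem_filter.1 q.2).1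
    have hqQ' : (q' : X) ∈ Q := (Finset.mem_filter.1 q'.2).1
    obtain ⟨b1, _, _⟩ := hfact q q.2
    obtain ⟨b1', _, _⟩ := hfact q' q'.2
    have hz : κ q t ∈ connectedComponentIn Y (q : X) := ((hκ q hqQ).2.2.1 t (b1 ht)).2
    have hz' : κ q' t' ∈ connectedComponentIn Y (q' : X) := ((hκ q' hqQ').2.2.1 t' (b1' ht')).2
    have hxt : x (κ q t) = t := ((hκ q hqQ).2.2.1 t (b1 ht)).1
    have hxt' : x (κ q' t') = t' := ((hκ q' hqQ').2.2.1 t' (b1' ht')).1
    have heq' : κ (q : X) t = κ (q' : X) t' := heq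
    have htt : t = t' := by rw [← hxt, ← hxt', heq']
    have hzz : κ q t ∈ connectedComponentIn Y (q' : X) := by rw [heq']; exact hz'
    have hzz' : κ q' t' ∈ connectedComponentIn Y (q : X) := by rw [← heq']; exact hz
    have n1 := hdis q q.2 q' q'.2 (κ q t) hz hzz (by rw [hxt, htt]; exact ht'.1) (by rw [hxt]; exact ht.2)
    have n2 := hdis q' q'.2 q q.2 (κ q' t') hz' hzz' (by rw [hxt', ← htt]; exact ht.1) (by rw [hxt']; exact ht'.2)
    have e1 := connectedComponentIn_eq hz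
    have e2 := connectedComponentIn_eq hzz
    have h3 : (q' : X) ∈ connectedComponentIn Y (q : X) := by
      rw [e1, ← e2]
      exact mem_connectedComponentIn (hQ _ hqQ')
    exact Subtype.ext (arc_inj hx hY (hQ _ hqQ) (mem_connectedComponentIn (hQ _ hqQ)) h3
      (le_antisymm (not_lt.1 n2) (not_lt.1 n1)))
  · -- the exceptions are ends
    refine le_trans (Finset.card_le_card fun q hq => ?_) hcount
    rw [Finset.mem_filter] at hq ⊢
    obtain ⟨hqQ, hq⟩ := hq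
    refine ⟨hqQ, ?_⟩
    by_contra hE
    refine hq ?_
    have hE' : ∃ q1 ∈ Q, arcG x Y A Zc Nc cl q q1 ∧ x q < x q1 := by
      by_contra h
      push Not at h
      exact hE h
    obtain ⟨q1, h1, h2, h3⟩ := hE'
    obtain ⟨b, hb, hbmax⟩ := Finset.exists_max_image (Q.filter fun q' => arcG x Y A Zc Nc cl q q') x
      ⟨q1, Finset.mem_filter.2 ⟨h1, h2⟩⟩
    rw [Finset.mem_filter] at hb
    have hlt : x q < x b := lt_of_lt_of_le h3 (hbmax q1 (Finset.mem_filter.2 ⟨h1, h2⟩))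
    have hbE : arcE x Y A Zc Nc cl Q b := fun q' h4 h5 =>
      hbmax q' (Finset.mem_filter.2 ⟨h4, arc_trans hc' hb.1 hb.2 h5⟩)
    have hbm : b ∈ Q.filter (fun q => arcE x Y A Zc Nc cl Q q ∧
        ∃ q' ∈ Q, x q' < x q ∧ arcG x Y A Zc Nc cl q' q) :=
      Finset.mem_filter.2 ⟨hb.1, hbE, q, hqQ, hlt, hb.2⟩
    obtain ⟨a1, a2, a3, a4⟩ := hs b hbm
    have e1 := connectedComponentIn_eq hb.2.1
    have hqc : q ∈ connectedComponentIn Y b := by rw [← e1]; exact mem_connectedComponentIn (hQ q hqQ)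
    exact ⟨⟨b, hbm⟩, (arc_cl hc' hb.1 hb.2).symm, x q, ⟨a4 q hqQ hb.2, hlt.le⟩, ((hκ b hb.1).2.2.2 q hqc).2⟩

end Main

private theorem arc_bord {c : ℕ} (e : Fin c → MvPolynomial (Fin c ⊕ Fin 2) ℝ) (u : MvPolynomial (Fin 2) ℝ)
    (t : Fin c ⊕ Fin 2 → ℝ) :
    eval t (HDI.bord e (rename Sum.inr u) 1) = eval t (HDI.mu e) * eval (t ∘ Sum.inr) (pderiv 1 u) := by
  have h1 : ∀ b : Fin c, pderiv (Sum.inl b : Fin c ⊕ Fin 2) (rename Sum.inr u : MvPolynomial (Fin c ⊕ Fin 2) ℝ) = 0 := by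
    intro b
    classical
    refine pderiv_eq_zero_of_notMem_vars fun h => ?_
    have h2 := vars_rename (Sum.inr : Fin 2 → Fin c ⊕ Fin 2) u h
    obtain ⟨i, _, hi⟩ := Finset.mem_image.1 h2
    cases hi
  have h2 : pderiv (Sum.inr 1 : Fin c ⊕ Fin 2) (rename Sum.inr u : MvPolynomial (Fin c ⊕ Fin 2) ℝ) =
      rename Sum.inr (pderiv 1 u) := pderiv_rename Sum.inr_injective 1 u
  have h3 : (Matrix.of fun (_ : Unit) (b : Fin c) =>
      pderiv (Sum.inl b : Fin c ⊕ Fin 2) (rename Sum.inr u : MvPolynomial (Fin c ⊕ Fin 2) ℝ)) = 0 := by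
    ext i b
    rw [Matrix.of_apply, h1]
    rfl
  have h4 : ∀ M : Matrix Unit Unit (MvPolynomial (Fin c ⊕ Fin 2) ℝ), M.det = M () () := fun M =>
    Matrix.det_unique M
  unfold HDI.bord
  rw [h3, Matrix.det_fromBlocks_zero₂₁, map_mul, h2, h4]
  rw [Matrix.of_apply, eval_rename]
  rfl

open scoped Classical in
theorem arcs (c K : ℕ) : ∃ K1 : ℕ, ∀ (e : Fin c → MvPolynomial (Fin c ⊕ Fin 2) ℝ)
    (S : Set (Fin c ⊕ Fin 2 → ℝ)), IsEt K e S →
    ∀ (u : MvPolynomial (Fin 2) ℝ) (J L : Type) [Fintype J] (ell : J → MvPolynomial (Fin c ⊕ Fin 2) ℝ)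
      (Zc Nc : L → Finset J) (Q : Finset (Fin c ⊕ Fin 2 → ℝ)) (cl : (Fin c ⊕ Fin 2 → ℝ) → L),
    (∀ q ∈ Q, q ∈ S ∧ eval (q ∘ Sum.inr) u = 0 ∧ eval (q ∘ Sum.inr) (pderiv 1 u) ≠ 0) →
    (∀ q ∈ Q, (∀ j ∈ Zc (cl q), eval q (ell j) = 0) ∧ ∀ j ∈ Nc (cl q), eval q (ell j) ≠ 0) →
    (∀ q ∈ Q, ∀ c', c' ≠ cl q →
      ¬ ((∀ j ∈ Zc c', eval q (ell j) = 0) ∧ ∀ j ∈ Nc c', eval q (ell j) ≠ 0)) →
    ∃ (Λ : Type) (_ : Fintype Λ) (lab : Λ → L) (a b : Λ → ℝ)
      (ρ : Λ → ℝ → (Fin c ⊕ Fin 2 → ℝ)),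
      Fintype.card Λ ≤ K1 * (∑ j, (u.totalDegree + 1) * (u.totalDegree + (ell j).totalDegree + 1)) +
        K1 * (u.totalDegree + 1) ^ 2 ∧
      (∀ l, a l < b l ∧ ContinuousOn (ρ l) (Set.Icc (a l) (b l)) ∧
        (∀ t ∈ Set.Icc (a l) (b l), ρ l t (Sum.inr 0) = t ∧ ρ l t ∈ S ∧
          (∀ j ∈ Zc (lab l), eval (ρ l t) (ell j) = 0) ∧
          ∀ j ∈ Nc (lab l), eval (ρ l t) (ell j) ≠ 0) ∧
        ρ l (a l) ∈ Q ∧ ρ l (b l) ∈ Q) ∧
      (∀ l l' t t', t ∈ Set.Icc (a l) (b l) → t' ∈ Set.Icc (a l') (b l') → ρ l t = ρ l' t' → l = l') ∧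
      (Q.filter fun q => ¬ ∃ l, lab l = cl q ∧ ∃ t ∈ Set.Icc (a l) (b l), ρ l t = q).card ≤
        K1 * (∑ j, (u.totalDegree + 1) * (u.totalDegree + (ell j).totalDegree + 1)) +
        K1 * (u.totalDegree + 1) ^ 2 := by
  classical
  obtain ⟨K1, hK1⟩ := gcCurve c K
  refine ⟨2 * K1, ?_⟩
  intro e S hS u J L _ ell Zc Nc Q cl hQ hc hc'
  have hmu : ∀ s ∈ S, eval s (HDI.mu e) ≠ 0 := fun s hs => hS.reg s (hS.zero s hs)
  have hd : (rename Sum.inr u : MvPolynomial (Fin c ⊕ Fin 2) ℝ).totalDegree ≤ u.totalDegree := totalDegree_rename_le _ _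
  have hYe : ∀ j, Crv e S 1 (rename Sum.inr u) 1 ∩ {t | eval t (ell j) ≠ 0} = Crv e S 1 (rename Sum.inr u) (ell j) := by
    intro j
    ext t
    constructor
    · rintro ⟨⟨h1, h2, h3, _⟩, h5⟩
      exact ⟨h1, h2, h3, h5⟩
    · rintro ⟨h1, h2, h3, h4⟩
      refine ⟨⟨h1, h2, h3, ?_⟩, h4⟩
      rw [map_one]
      exact one_ne_zero
  have hQY : ∀ q ∈ Q, q ∈ Crv e S 1 (rename Sum.inr u) 1 := by
    intro q hq
    obtain ⟨h1, h2, h3⟩ := hQ q hq
    refine ⟨h1, ?_, ?_, ?_⟩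
    · rw [eval_rename]
      exact h2
    · rw [arc_bord]
      exact mul_ne_zero (hmu q h1) h3
    · rw [map_one]
      exact one_ne_zero
  have hcc : ∀ (c' : L) (q : Fin c ⊕ Fin 2 → ℝ), arcC (fun j => {t | eval t (ell j) ≠ 0}) Zc Nc c' q ↔
      (∀ j ∈ Zc c', eval q (ell j) = 0) ∧ ∀ j ∈ Nc c', eval q (ell j) ≠ 0 := by
    intro c' q
    constructor
    · rintro ⟨h1, h2⟩
      exact ⟨fun j hj => not_not.1 (h1 j hj), h2⟩
    · rintro ⟨h1, h2⟩
      exact ⟨fun j hj => not_not.2 (h1 j hj), h2⟩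
  obtain ⟨Λ, hΛ, lab, a, b, ρ, m1, m2, m3, m4⟩ := arc_main (x := fun t : Fin c ⊕ Fin 2 → ℝ => t (Sum.inr 0))
    (Y := Crv e S 1 (rename Sum.inr u) 1) (A := fun j => {t | eval t (ell j) ≠ 0}) (Zc := Zc) (Nc := Nc) (Q := Q) (cl := cl)
    (continuous_apply _) (fun v hv => crv_locSec e S hS _ _ v hv) hQY (fun q hq => (hcc _ _).2 (hc q hq))
    (fun q hq c' hne h => hc' q hq c' hne ((hcc _ _).1 h))
    (K1 * (u.totalDegree + 1) * (u.totalDegree + 1))
    (fun j => K1 * (u.totalDegree + 1) * (u.totalDegree + (ell j).totalDegree + 1))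
    (fun Q' h => by
      have h1 := hK1 e S hS 1 (rename Sum.inr u) 1 Q' h.1 h.2
      rw [totalDegree_one, add_zero] at h1
      exact h1.trans (Nat.mul_le_mul (Nat.mul_le_mul_left _ (by omega)) (by omega)))
    (fun j Q' h => by
      rw [hYe j] at h
      have h1 := hK1 e S hS 1 (rename Sum.inr u) (ell j) Q' h.1 h.2
      exact h1.trans (Nat.mul_le_mul (Nat.mul_le_mul_left _ (by omega)) (by omega)))
  have hle : K1 * (u.totalDegree + 1) * (u.totalDegree + 1) +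
      ∑ j, 2 * (K1 * (u.totalDegree + 1) * (u.totalDegree + (ell j).totalDegree + 1)) ≤
      2 * K1 * (∑ j, (u.totalDegree + 1) * (u.totalDegree + (ell j).totalDegree + 1)) +
        2 * K1 * (u.totalDegree + 1) ^ 2 := by
    have h1 : ∑ j, 2 * (K1 * (u.totalDegree + 1) * (u.totalDegree + (ell j).totalDegree + 1)) =
        2 * K1 * (∑ j, (u.totalDegree + 1) * (u.totalDegree + (ell j).totalDegree + 1)) := by
      rw [Finset.mul_sum]
      exact Finset.sum_congr rfl fun j _ => by ring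
    rw [h1]
    nlinarith [Nat.zero_le (K1 * (u.totalDegree + 1) ^ 2)]
  refine ⟨Λ, hΛ, lab, a, b, ρ, m1.trans hle, fun l => ?_, m3, m4.trans hle⟩
  obtain ⟨n1, n2, n3, n4, n5⟩ := m2 l
  refine ⟨n1, n2, fun t ht => ?_, n4, n5⟩
  obtain ⟨p1, p2, p3⟩ := n3 t ht
  exact ⟨p1, p2.1, ((hcc _ _).1 p3).1, ((hcc _ _).1 p3).2⟩

end D4Q
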