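import Mathlib
import Pool.Agent.HDI.FinCrit
import Pool.Agent.D4Q.Defs

/-!
# D4Q-Bd_fc: finitely many critical values on a subvariety of `ℝ ^ 4`

`bd_fc`: the quotient `N / u` has finitely many critical values on the set of the points with `P a = 0`,
`J ≠ 0`, `u ≠ 0`: `HDI.finite_crit` for the equations `t u - N`, `τ J - 1`, `P a` and the coordinate `t`.
-/

namespace D4Q

open MvPolynomial

private theorem bdfc_inr (p : MvPolynomial (Fin 4) ℝ) (j : Fin 2) :
    pderiv (Sum.inr j : Fin 4 ⊕ Fin 2) (rename Sum.inl p : MvPolynomial (Fin 4 ⊕ Fin 2) ℝ) = 0 := by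
  induction p using MvPolynomial.induction_on with
  | C a => rw [rename_C, pderiv_C]
  | add p q hp hq => rw [map_add, map_add, hp, hq, add_zero]
  | mul_X p i hp =>
    rw [map_mul, rename_X, pderiv_mul, hp, zero_mul, pderiv_X_of_ne (by simp), mul_zero, add_zero]

theorem bd_fc {c : ℕ} (P : Fin c → MvPolynomial (Fin 4) ℝ) (J u N : MvPolynomial (Fin 4) ℝ) :
    {s : ℝ | ∃ ζ : Fin 4 → ℝ, (∀ a, eval ζ (P a) = 0) ∧ eval ζ J ≠ 0 ∧ eval ζ u ≠ 0 ∧
      eval ζ N = s * eval ζ u ∧ ∃ l : Fin c → ℝ, ∀ i : Fin 4,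
        eval ζ (pderiv i N) - s * eval ζ (pderiv i u) = ∑ a, l a * eval ζ (pderiv i (P a))}.Finite := by
  classical
  let R : MvPolynomial (Fin 4) ℝ → MvPolynomial (Fin 4 ⊕ Fin 2) ℝ := rename Sum.inl
  let f : Fin (c + 1 + 1) → MvPolynomial (Fin 4 ⊕ Fin 2) ℝ :=
    Fin.cons (X (Sum.inr 1) * R u - R N) (Fin.cons (X (Sum.inr 0) * R J - 1) fun a => R (P a))
  refine (HDI.finite_crit f (Sum.inr 1)).subset ?_
  rintro s ⟨ζ, hP, hJ, hu, hN, l, hl⟩
  let x : Fin 4 ⊕ Fin 2 → ℝ := Sum.elim ζ ![(eval ζ J)⁻¹, s]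
  have hR : ∀ p, eval x (R p) = eval ζ p := by
    intro p
    show eval x (rename Sum.inl p) = eval ζ p
    rw [eval_rename]
    rfl
  have hR1 : ∀ (i : Fin 4) p, eval x (pderiv (Sum.inl i) (R p)) = eval ζ (pderiv i p) := by
    intro i p
    have h1 : pderiv (Sum.inl i : Fin 4 ⊕ Fin 2) (R p) = R (pderiv i p) :=
      pderiv_rename Sum.inl_injective i p
    rw [h1, hR]
  have hR2 : ∀ (j : Fin 2) p, eval x (pderiv (Sum.inr j) (R p)) = 0 := by
    intro j p
    have h1 : pderiv (Sum.inr j : Fin 4 ⊕ Fin 2) (R p) = 0 := bdfc_inr p j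
    rw [h1, map_zero]
  have hx0 : x (Sum.inr 0) = (eval ζ J)⁻¹ := rfl
  have hx1 : x (Sum.inr 1) = s := rfl
  refine ⟨x, ?_, ⟨Fin.cons (eval ζ u)⁻¹ (Fin.cons 0 fun a => l a * (eval ζ u)⁻¹), ?_⟩, hx1⟩
  · intro a
    refine Fin.cases ?_ (fun a => Fin.cases ?_ (fun a => ?_) a) a
    · show eval x (X (Sum.inr 1) * R u - R N) = 0
      rw [map_sub, map_mul, eval_X, hR, hR, hx1, hN, sub_self]
    · show eval x (X (Sum.inr 0) * R J - 1) = 0
      rw [map_sub, map_mul, eval_X, hR, hx0, map_one, inv_mul_cancel₀ hJ, sub_self]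
    · show eval x (R (P a)) = 0
      rw [hR, hP]
  · intro i
    rw [Fin.sum_univ_succ, Fin.sum_univ_succ]
    show (if i = Sum.inr 1 then (1 : ℝ) else 0) =
      (eval ζ u)⁻¹ * eval x (pderiv i (X (Sum.inr 1) * R u - R N)) +
        (0 * eval x (pderiv i (X (Sum.inr 0) * R J - 1)) +
          ∑ a, (l a * (eval ζ u)⁻¹) * eval x (pderiv i (R (P a))))
    rcases i with i | i
    · rw [if_neg (by simp), map_sub, pderiv_mul, pderiv_X_of_ne (by simp), zero_mul, zero_add, map_sub,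
        map_mul, eval_X, hx1, hR1, hR1, zero_mul, zero_add]
      have h1 : ∑ a, (l a * (eval ζ u)⁻¹) * eval x (pderiv (Sum.inl i) (R (P a))) =
          (eval ζ u)⁻¹ * ∑ a, l a * eval ζ (pderiv i (P a)) := by
        rw [Finset.mul_sum]
        refine Finset.sum_congr rfl fun a _ => ?_
        rw [hR1]
        ring
      rw [h1, ← hl i]
      ring
    · have h1 : ∑ a, (l a * (eval ζ u)⁻¹) * eval x (pderiv (Sum.inr i) (R (P a))) = 0 := by
        refine Finset.sum_eq_zero fun a _ => ?_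
        rw [hR2, mul_zero]
      rw [h1, map_sub, pderiv_mul, map_sub, map_add, map_mul, map_mul, hR2, hR2, hR, mul_zero, add_zero,
        sub_zero, zero_mul, add_zero, add_zero]
      by_cases hi : i = 1
      · subst hi
        rw [if_pos rfl, pderiv_X_self, map_one, one_mul, inv_mul_cancel₀ hu]
      · rw [if_neg (by simpa using hi), pderiv_X_of_ne (by
          intro h
          exact hi (Sum.inr_injective h).symm), map_zero, zero_mul, mul_zero]

end D4Q
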