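import Mathlib
import Pool.Agent.HDI.Base
import Pool.Agent.D4Q.Defs

/-!
# D4Q-Bd_ift: local sections

`bd_ift`: at a nondegenerate zero of `F 1, F 2, F 3` and `F 0 = x` the common zeros of `F 1, F 2, F 3` are
locally the image of a continuous section over the `x`-axis (inverse function theorem for `(F 0, .., F 3)`).
-/

namespace D4Q

open MvPolynomial Topology

theorem bd_ift (F : Fin 4 → MvPolynomial (Fin 4) ℝ) (hF : F 0 = X 0) (z : Fin 4 → ℝ)
    (hz : ∀ i, i ≠ 0 → eval z (F i) = 0) (hj : (HDI.jac F z).det ≠ 0) (W : Set (Fin 4 → ℝ))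
    (hW : W ∈ 𝓝 z) :
    ∃ ε : ℝ, 0 < ε ∧ ∃ κ : ℝ → Fin 4 → ℝ, ContinuousOn κ (Set.Ioo (z 0 - ε) (z 0 + ε)) ∧ κ (z 0) = z ∧
      (∀ t ∈ Set.Ioo (z 0 - ε) (z 0 + ε), κ t 0 = t ∧ κ t ∈ W ∧ ∀ i, i ≠ 0 → eval (κ t) (F i) = 0) ∧
      ∃ U ∈ 𝓝 z, ∀ y ∈ U, (∀ i, i ≠ 0 → eval y (F i) = 0) → y = κ (y 0) := by
  classical
  let Ψ : (Fin 4 → ℝ) → (Fin 4 → ℝ) := fun y i => eval y (F i)
  have hu : IsUnit (HDI.jac F z).det := isUnit_iff_ne_zero.2 hj
  let L : (Fin 4 → ℝ) ≃ₗ[ℝ] (Fin 4 → ℝ) := (HDI.jac F z).toLinearEquiv' ((Matrix.isUnit_iff_isUnit_det _).2 hu).invertible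
  let Lc : (Fin 4 → ℝ) ≃L[ℝ] (Fin 4 → ℝ) := L.toContinuousLinearEquiv
  have hL : ∀ v i, Lc v i = ∑ j, eval z (pderiv j (F i)) * v j := by
    intro v i
    show (HDI.jac F z).mulVec v i = _
    simp only [Matrix.mulVec, dotProduct, HDI.jac, Matrix.of_apply]
  have hΨ : HasStrictFDerivAt Ψ (Lc : (Fin 4 → ℝ) →L[ℝ] (Fin 4 → ℝ)) z := by
    have h1 : HasStrictFDerivAt Ψ (ContinuousLinearMap.pi fun i : Fin 4 =>
        ∑ j, eval z (pderiv j (F i)) • (ContinuousLinearMap.proj j : (Fin 4 → ℝ) →L[ℝ] ℝ)) z :=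
      hasStrictFDerivAt_pi.2 fun i => HDI.hasStrictFDerivAt_eval (F i) z
    have h2 : (ContinuousLinearMap.pi fun i : Fin 4 =>
        ∑ j, eval z (pderiv j (F i)) • (ContinuousLinearMap.proj j : (Fin 4 → ℝ) →L[ℝ] ℝ)) =
        (Lc : (Fin 4 → ℝ) →L[ℝ] (Fin 4 → ℝ)) := by
      ext v i
      rw [ContinuousLinearEquiv.coe_coe, hL]
      simp
    rw [← h2]
    exact h1
  let e := hΨ.toOpenPartialHomeomorph Ψ
  have he : ∀ y, e y = Ψ y := fun y => rfl
  have hze : z ∈ e.source := hΨ.mem_toOpenPartialHomeomorph_source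
  let cc : ℝ → Fin 4 → ℝ := fun t i => if i = 0 then t else 0
  have hcc : Continuous cc := by
    refine continuous_pi fun i => ?_
    by_cases hi : i = 0
    · simp only [cc, hi, if_true]
      exact continuous_id
    · simp only [cc, hi, if_false]
      exact continuous_const
  have hΨcc : ∀ y, (∀ i, i ≠ 0 → eval y (F i) = 0) → Ψ y = cc (y 0) := by
    intro y hy
    funext i
    show eval y (F i) = if i = 0 then y 0 else 0
    by_cases hi : i = 0
    · subst hi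
      rw [if_pos rfl, hF, eval_X]
    · rw [if_neg hi, hy i hi]
  have hcz : cc (z 0) = e z := by
    rw [he, hΨcc z hz]
  have htar : cc (z 0) ∈ e.target := by
    rw [hcz]
    exact e.map_source hze
  have hsz : e.symm (cc (z 0)) = z := by
    rw [hcz, e.left_inv hze]
  have hev1 : ∀ᶠ t in 𝓝 (z 0), cc t ∈ e.target :=
    hcc.continuousAt.eventually_mem (e.open_target.mem_nhds htar)
  have hev2 : ∀ᶠ t in 𝓝 (z 0), e.symm (cc t) ∈ W := by
    have h1 : ContinuousAt (fun t => e.symm (cc t)) (z 0) :=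
      ContinuousAt.comp (f := cc) (g := e.symm) (e.continuousAt_symm htar) hcc.continuousAt
    refine h1.eventually_mem ?_
    show W ∈ 𝓝 (e.symm (cc (z 0)))
    rw [hsz]
    exact hW
  obtain ⟨ε, hε, hball⟩ := Metric.eventually_nhds_iff.1 (hev1.and hev2)
  have hIoo : ∀ t ∈ Set.Ioo (z 0 - ε) (z 0 + ε), cc t ∈ e.target ∧ e.symm (cc t) ∈ W := by
    intro t ht
    refine hball ?_
    rw [Real.dist_eq, abs_lt]
    exact ⟨by linarith [ht.1], by linarith [ht.2]⟩
  refine ⟨ε, hε, fun t => e.symm (cc t), ?_, hsz, ?_, e.source, e.open_source.mem_nhds hze, ?_⟩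
  · exact e.continuousOn_symm.comp hcc.continuousOn fun t ht => (hIoo t ht).1
  · intro t ht
    have h1 : Ψ (e.symm (cc t)) = cc t := e.right_inv (hIoo t ht).1
    refine ⟨?_, (hIoo t ht).2, fun i hi => ?_⟩
    · have h2 := congrFun h1 0
      have h3 : eval (e.symm (cc t)) (F 0) = cc t 0 := h2
      rw [hF, eval_X] at h3
      exact h3
    · have h2 := congrFun h1 i
      have h3 : eval (e.symm (cc t)) (F i) = cc t i := h2
      rw [h3]
      show (if i = 0 then t else 0) = 0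
      rw [if_neg hi]
  · intro y hy hy0
    show y = e.symm (cc (y 0))
    rw [← hΨcc y hy0, ← he, e.left_inv hy]

end D4Q
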