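import Mathlib
import Pool.Agent.HDI.Base
import Pool.Agent.D4Q.Defs

/-!
# D4Q-WvL: a codimension two variety is locally homeomorphic to the plane

Inverse function theorem for `ζ ↦ (ζ 0, ζ 1, h ζ, g ζ)` at the points of `Wv h g` (the Jacobian determinant is `± jzw h g ζ ≠ 0`): it is injective on a neighbourhood
with open image and continuous inverse; restrict to `h = g = 0`. (`IsLocalHomeomorph` via `IsLocalHomeomorph.mk` with an `OpenPartialHomeomorph`, or show
locally injective, continuous and open.)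
-/

namespace D4Q

open MvPolynomial

/-- the differential of a polynomial function -/
private noncomputable def wvG (p : MvPolynomial (Fin 4) ℝ) (x : Fin 4 → ℝ) :
    (Fin 4 → ℝ) →L[ℝ] ℝ :=
  ∑ i, eval x (pderiv i p) • (ContinuousLinearMap.proj i : (Fin 4 → ℝ) →L[ℝ] ℝ)

private theorem wvG_apply (p : MvPolynomial (Fin 4) ℝ) (x z : Fin 4 → ℝ) :
    wvG p x z = ∑ i, eval x (pderiv i p) * z i := by
  unfold wvG
  rw [_root_.sum_apply]
  rfl

private theorem has_wvG (p : MvPolynomial (Fin 4) ℝ) (x : Fin 4 → ℝ) :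
    HasStrictFDerivAt (fun y : Fin 4 → ℝ => eval y p) (wvG p x) x :=
  HDI.hasStrictFDerivAt_eval p x

/-- the map `ζ ↦ (ζ 0, ζ 1, h ζ, g ζ)` -/
private noncomputable def wvPsi (h g : MvPolynomial (Fin 4) ℝ) (t : Fin 4 → ℝ) : Fin 4 → ℝ :=
  ![t 0, t 1, eval t h, eval t g]

/-- its differential -/
private noncomputable def wvPsi' (h g : MvPolynomial (Fin 4) ℝ) (t : Fin 4 → ℝ) :
    (Fin 4 → ℝ) →L[ℝ] (Fin 4 → ℝ) :=
  ContinuousLinearMap.pi ![(ContinuousLinearMap.proj 0 : (Fin 4 → ℝ) →L[ℝ] ℝ),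
    ContinuousLinearMap.proj 1, wvG h t, wvG g t]

private theorem has_wvPsi (h g : MvPolynomial (Fin 4) ℝ) (t : Fin 4 → ℝ) :
    HasStrictFDerivAt (wvPsi h g) (wvPsi' h g t) t := by
  rw [hasStrictFDerivAt_pi']
  intro i
  fin_cases i
  · exact hasStrictFDerivAt_apply (0 : Fin 4) t
  · exact hasStrictFDerivAt_apply (1 : Fin 4) t
  · exact has_wvG h t
  · exact has_wvG g t

private theorem wvPsi'_equiv (h g : MvPolynomial (Fin 4) ℝ) (t : Fin 4 → ℝ)
    (ht : eval t (jzw h g) ≠ 0) : ∃ A : (Fin 4 → ℝ) ≃L[ℝ] (Fin 4 → ℝ),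
      (A : (Fin 4 → ℝ) →L[ℝ] (Fin 4 → ℝ)) = wvPsi' h g t := by
  have hinj : Function.Injective (wvPsi' h g t) := by
    rw [injective_iff_map_eq_zero]
    intro v hv
    have h0 : v 0 = 0 := congrFun hv 0
    have h1 : v 1 = 0 := congrFun hv 1
    have h2 : wvG h t v = 0 := congrFun hv 2
    have h3 : wvG g t v = 0 := congrFun hv 3
    rw [wvG_apply, Fin.sum_univ_four, h0, h1] at h2 h3
    simp only [jzw, map_sub, map_mul] at ht
    have h4 : v 2 = 0 := by
      have h5 : (eval t (pderiv 2 h) * eval t (pderiv 3 g) -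
          eval t (pderiv 3 h) * eval t (pderiv 2 g)) * v 2 = 0 := by
        linear_combination eval t (pderiv 3 g) * h2 - eval t (pderiv 3 h) * h3
      exact (mul_eq_zero.mp h5).resolve_left ht
    have h6 : v 3 = 0 := by
      have h5 : (eval t (pderiv 2 h) * eval t (pderiv 3 g) -
          eval t (pderiv 3 h) * eval t (pderiv 2 g)) * v 3 = 0 := by
        linear_combination eval t (pderiv 2 h) * h3 - eval t (pderiv 2 g) * h2
      exact (mul_eq_zero.mp h5).resolve_left ht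
    funext i
    fin_cases i
    · exact h0
    · exact h1
    · exact h4
    · exact h6
  refine ⟨(LinearEquiv.ofInjectiveEndo _ hinj).toContinuousLinearEquiv, ?_⟩
  ext v i
  rfl

theorem wv_local (h g : MvPolynomial (Fin 4) ℝ) :
    IsLocalHomeomorph (fun ζ : Wv h g => (ζ.1 0, ζ.1 1)) := by
  classical
  rw [isLocalHomeomorph_iff_isOpenEmbedding_restrict]
  intro v
  obtain ⟨A0, hA0⟩ := wvPsi'_equiv h g v.1 v.2.2.2
  have hst0 : HasStrictFDerivAt (wvPsi h g) (A0 : (Fin 4 → ℝ) →L[ℝ] (Fin 4 → ℝ)) v.1 := by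
    rw [hA0]
    exact has_wvPsi h g v.1
  let Φ := hst0.toOpenPartialHomeomorph (wvPsi h g)
  have hΦ : ∀ t, Φ t = wvPsi h g t := fun t => rfl
  have hmem0 : v.1 ∈ Φ.source := hst0.mem_toOpenPartialHomeomorph_source
  let Q : ℝ × ℝ → (Fin 4 → ℝ) := fun w => ![w.1, w.2, 0, 0]
  have hQc : Continuous Q := by
    rw [continuous_pi_iff]
    intro i
    fin_cases i
    · exact continuous_fst
    · exact continuous_snd
    · exact continuous_const
    · exact continuous_const
  have hQt : ∀ ζ : Wv h g, Q (ζ.1 0, ζ.1 1) = wvPsi h g ζ.1 := by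
    intro ζ
    funext i
    fin_cases i
    · rfl
    · rfl
    · exact ζ.2.1.symm
    · exact ζ.2.2.1.symm
  have hcv : Continuous (fun ζ : Wv h g => ζ.1) := continuous_subtype_val
  let U : Set (Wv h g) := {ζ | ζ.1 ∈ Φ.source}
  have hUo : IsOpen U := Φ.open_source.preimage hcv
  have hvU : v ∈ U := hmem0
  have hfc : Continuous (fun ζ : Wv h g => (ζ.1 0, ζ.1 1)) :=
    ((continuous_apply 0).comp hcv).prodMk ((continuous_apply 1).comp hcv)
  refine ⟨U, hUo.mem_nhds hvU, ?_⟩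
  refine Topology.IsOpenEmbedding.of_continuous_injective_isOpenMap
    (hfc.comp continuous_subtype_val) ?_ ?_
  · intro a b hab
    have h1 : Q (a.1.1 0, a.1.1 1) = Q (b.1.1 0, b.1.1 1) := congrArg Q hab
    rw [hQt, hQt] at h1
    exact Subtype.ext (Subtype.ext (Φ.injOn a.2 b.2 h1))
  · intro V hV
    -- `V` is open in `U`; the image is the preimage under `Q` of an open set
    have hV1 : IsOpen (Subtype.val '' V : Set (Wv h g)) := hUo.isOpenMap_subtype_val V hV
    obtain ⟨G, hGo, hG⟩ := isOpen_induced_iff.mp hV1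
    let O : Set (Fin 4 → ℝ) := Φ.source ∩ ({t | eval t (jzw h g) ≠ 0} ∩ G)
    have hOo : IsOpen O := by
      refine Φ.open_source.inter (IsOpen.inter ?_ hGo)
      exact isOpen_ne_fun (HDI.continuous_evalp (jzw h g)) continuous_const
    have hTo : IsOpen (Φ.target ∩ Φ.symm ⁻¹' O) := Φ.isOpen_inter_preimage_symm hOo
    have h2 : (U.domRestrict fun ζ : Wv h g => (ζ.1 0, ζ.1 1)) '' V =
        Q ⁻¹' (Φ.target ∩ Φ.symm ⁻¹' O) := by
      ext w
      constructor
      · rintro ⟨ζ, hζV, rfl⟩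
        have h3 : Q (ζ.1.1 0, ζ.1.1 1) = Φ ζ.1.1 := by
          rw [hQt]
          rfl
        have h4 : Φ.symm (Φ ζ.1.1) = ζ.1.1 := Φ.left_inv ζ.2
        refine ⟨?_, ?_⟩
        · show Q (ζ.1.1 0, ζ.1.1 1) ∈ Φ.target
          rw [h3]
          exact Φ.map_source ζ.2
        · show Φ.symm (Q (ζ.1.1 0, ζ.1.1 1)) ∈ O
          rw [h3, h4]
          refine ⟨ζ.2, ζ.1.2.2.2, ?_⟩
          have h5 : ζ.1 ∈ (Subtype.val '' V : Set (Wv h g)) := ⟨ζ, hζV, rfl⟩
          rw [← hG] at h5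
          exact h5
      · rintro ⟨hw1, hw2⟩
        have h3 : wvPsi h g (Φ.symm (Q w)) = Q w := by
          rw [← hΦ]
          exact Φ.right_inv hw1
        have h4 : eval (Φ.symm (Q w)) h = 0 := congrFun h3 2
        have h5 : eval (Φ.symm (Q w)) g = 0 := congrFun h3 3
        let ζ : Wv h g := ⟨Φ.symm (Q w), h4, h5, hw2.2.1⟩
        have h6 : ζ ∈ (Subtype.val '' V : Set (Wv h g)) := by
          rw [← hG]
          exact hw2.2.2
        obtain ⟨ζ', hζ', hζζ⟩ := h6
        refine ⟨ζ', hζ', ?_⟩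
        show (ζ'.1.1 0, ζ'.1.1 1) = w
        rw [hζζ]
        exact Prod.ext (congrFun h3 0) (congrFun h3 1)
    have h7 : IsOpen (Q ⁻¹' (Φ.target ∩ Φ.symm ⁻¹' O)) := hTo.preimage hQc
    rw [← h2] at h7
    exact h7

end D4Q
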