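import Mathlib
import Pool.Agent.HDI.Bezout
import Pool.Agent.HDI.Bord
import Pool.Agent.HDI.FinCrit
import Pool.Agent.D4Q.WvL
import Pool.Agent.D4Q.Bd_fc
import Pool.Agent.D4Q.Bd_ift

/-!
# D4Q-Bd: a compact piece of a codimension two variety and its boundary

`Wv h g`: the points of `ℝ ^ 4` with `h = g = 0` and nonzero `(z, w)`-minor.

`bd`: let `φ ≥ 0` be a polynomial vanishing at all points where `h = g = 0` and (`jzw h g = 0` or
`∑ ζ_i^2 = ρ^2`). Let `A0 ⊆ Wv h g` be compact with `φ > 0`, `∑ ζ_i^2 < ρ^2` on `A0` and `X0` a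
finite set of real numbers. Then there is a compact `K ⊆ Wv h g` with boundary set `B` as in the conclusion.

PROOF. `K = {∑ ζ_i^2 ≤ ρ^2, Φ ≥ η}`, `B = {.., Φ = η}` with `Φ = φ + v y` (`bdP`) and small `v`, `η`.
`crit` is the set of the points of `B` with `D = 0`, where `D = J ∂_y Φ` (`bdD`) along `Wv`.
Outside finite sets of values of `v` and `η` (`bd_fc`): the gradient of `D` is not a combination of those of `h`, `g`
at the points with `D = 0`; the gradient of `Φ` is not a combination of those of `h, g, D` at the points with `D = 0`,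
`Φ = η`, nor of those of `h, g, x` at the points with `x = r`, `Φ = η` (so `D ≠ 0` there).
So the points of `crit` are nondegenerate zeros of `(h, g, Φ - η, D)`, and the points of `B` outside `crit` with
`x = t` are nondegenerate zeros of `(h, g, x - t, Φ - η)`: `HDI.bezout`. `LocSec` by `bd_ift`.
-/

namespace D4Q

open MvPolynomial Topology

private noncomputable def bdM (h g φ : MvPolynomial (Fin 4) ℝ) : MvPolynomial (Fin 4) ℝ :=
  pderiv 1 φ * jzw h g - pderiv 2 φ * (pderiv 1 h * pderiv 3 g - pderiv 3 h * pderiv 1 g) +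
    pderiv 3 φ * (pderiv 1 h * pderiv 2 g - pderiv 2 h * pderiv 1 g)

private noncomputable def bdD (h g φ : MvPolynomial (Fin 4) ℝ) (v : ℝ) : MvPolynomial (Fin 4) ℝ :=
  bdM h g φ + C v * jzw h g

private noncomputable def bdP (φ : MvPolynomial (Fin 4) ℝ) (v : ℝ) : MvPolynomial (Fin 4) ℝ :=
  φ + C v * X 1

private theorem bd_pderivP (φ : MvPolynomial (Fin 4) ℝ) (v : ℝ) (ζ : Fin 4 → ℝ) (i : Fin 4) :
    eval ζ (pderiv i (bdP φ v)) = eval ζ (pderiv i φ) + (if i = 1 then v else 0) := by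
  unfold bdP
  rw [map_add, pderiv_C_mul, map_add, map_mul, eval_C]
  by_cases hi : i = 1
  · subst hi
    rw [if_pos rfl, pderiv_X_self, map_one, mul_one]
  · rw [if_neg hi, pderiv_X_of_ne (fun h => hi h.symm), map_zero, mul_zero]

private theorem bd_evalJ (h g : MvPolynomial (Fin 4) ℝ) (ζ : Fin 4 → ℝ) :
    eval ζ (jzw h g) = eval ζ (pderiv 2 h) * eval ζ (pderiv 3 g) -
      eval ζ (pderiv 3 h) * eval ζ (pderiv 2 g) := by
  unfold jzw
  rw [map_sub, map_mul, map_mul]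

private theorem bd_evalD (h g φ : MvPolynomial (Fin 4) ℝ) (v : ℝ) (ζ : Fin 4 → ℝ) :
    eval ζ (bdD h g φ v) =
      eval ζ (pderiv 1 (bdP φ v)) * (eval ζ (pderiv 2 h) * eval ζ (pderiv 3 g) -
        eval ζ (pderiv 3 h) * eval ζ (pderiv 2 g)) -
      eval ζ (pderiv 2 (bdP φ v)) * (eval ζ (pderiv 1 h) * eval ζ (pderiv 3 g) -
        eval ζ (pderiv 3 h) * eval ζ (pderiv 1 g)) +
      eval ζ (pderiv 3 (bdP φ v)) * (eval ζ (pderiv 1 h) * eval ζ (pderiv 2 g) -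
        eval ζ (pderiv 2 h) * eval ζ (pderiv 1 g)) := by
  rw [bd_pderivP, bd_pderivP, bd_pderivP]
  have h2 : ¬ ((2 : Fin 4) = 1) := by decide
  have h3 : ¬ ((3 : Fin 4) = 1) := by decide
  rw [if_pos rfl, if_neg h2, if_neg h3]
  unfold bdD bdM
  simp only [map_add, map_sub, map_mul, eval_C, bd_evalJ]
  ring

private theorem bd_degP (φ : MvPolynomial (Fin 4) ℝ) (v η : ℝ) :
    (bdP φ v - C η).totalDegree ≤ φ.totalDegree + 1 := by
  unfold bdP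
  refine (totalDegree_sub _ _).trans (max_le ((totalDegree_add _ _).trans (max_le (by omega) ?_)) ?_)
  · refine (totalDegree_mul _ _).trans ?_
    rw [totalDegree_C, totalDegree_X]
    omega
  · rw [totalDegree_C]
    omega

private theorem bd_deg2 {p q : MvPolynomial (Fin 4) ℝ} {a b : ℕ} (hp : p.totalDegree ≤ a)
    (hq : q.totalDegree ≤ b) : (p * q).totalDegree ≤ a + b :=
  (totalDegree_mul _ _).trans (add_le_add hp hq)

private theorem bd_deg3 {p q : MvPolynomial (Fin 4) ℝ} {a : ℕ} (hp : p.totalDegree ≤ a)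
    (hq : q.totalDegree ≤ a) : (p - q).totalDegree ≤ a :=
  (totalDegree_sub _ _).trans (max_le hp hq)

private theorem bd_degJ (h g : MvPolynomial (Fin 4) ℝ) :
    (jzw h g).totalDegree ≤ h.totalDegree + g.totalDegree := by
  unfold jzw
  exact bd_deg3 (bd_deg2 (HDI.totalDegree_pderiv_le' _ _) (HDI.totalDegree_pderiv_le' _ _))
    (bd_deg2 (HDI.totalDegree_pderiv_le' _ _) (HDI.totalDegree_pderiv_le' _ _))

private theorem bd_degD (h g φ : MvPolynomial (Fin 4) ℝ) (v : ℝ) :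
    (bdD h g φ v).totalDegree ≤ h.totalDegree + g.totalDegree + φ.totalDegree := by
  unfold bdD bdM
  have hp := fun i => HDI.totalDegree_pderiv_le' i φ
  have hm : ∀ i j : Fin 4, (pderiv i h * pderiv j g - pderiv j h * pderiv i g).totalDegree ≤
      h.totalDegree + g.totalDegree := fun i j =>
    bd_deg3 (bd_deg2 (HDI.totalDegree_pderiv_le' _ _) (HDI.totalDegree_pderiv_le' _ _))
      (bd_deg2 (HDI.totalDegree_pderiv_le' _ _) (HDI.totalDegree_pderiv_le' _ _))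
  have h1 := bd_deg2 (hp 1) (bd_degJ h g)
  have h2 := bd_deg2 (hp 2) (hm 1 3)
  have h3 := bd_deg2 (hp 3) (hm 1 2)
  have h4 : (C v * jzw h g).totalDegree ≤ 0 + (h.totalDegree + g.totalDegree) :=
    bd_deg2 (by rw [totalDegree_C]) (bd_degJ h g)
  refine (totalDegree_add _ _).trans (max_le ((totalDegree_add _ _).trans (max_le
    ((totalDegree_sub _ _).trans (max_le ?_ ?_)) ?_)) ?_)
  · exact h1.trans (by omega)
  · exact h2.trans (by omega)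
  · exact h3.trans (by omega)
  · exact h4.trans (by omega)

private theorem bd_det {F : Fin 4 → MvPolynomial (Fin 4) ℝ} {z : Fin 4 → ℝ}
    (h : ∀ l : Fin 4 → ℝ, (∀ i, ∑ a, l a * eval z (pderiv i (F a)) = 0) → l = 0) :
    (HDI.jac F z).det ≠ 0 := by
  intro hd
  obtain ⟨l, hl, hl0⟩ := Matrix.exists_vecMul_eq_zero_iff.2 hd
  refine hl (h l fun i => ?_)
  have h1 := congrFun hl0 i
  simpa [Matrix.vecMul, dotProduct, HDI.jac] using h1

private theorem bd_two {J H2 H3 G2 G3 a b : ℝ} (hJ : J ≠ 0) (hJe : J = H2 * G3 - H3 * G2)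
    (h2 : a * H2 + b * G2 = 0) (h3 : a * H3 + b * G3 = 0) : a = 0 ∧ b = 0 := by
  constructor
  · have h4 : a * J = 0 := by
      rw [hJe]
      linear_combination G3 * h2 - G2 * h3
    exact (mul_eq_zero.1 h4).resolve_right hJ
  · have h4 : b * J = 0 := by
      rw [hJe]
      linear_combination H2 * h3 - H3 * h2
    exact (mul_eq_zero.1 h4).resolve_right hJ

/-- the points of `crit` are nondegenerate -/
private theorem bd_ndeg {h g Φ D : MvPolynomial (Fin 4) ℝ} {ζ : Fin 4 → ℝ} (η : ℝ)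
    (hJ : eval ζ (jzw h g) ≠ 0)
    (h1 : ¬ ∃ l : Fin 2 → ℝ, ∀ i, eval ζ (pderiv i D) = l 0 * eval ζ (pderiv i h) + l 1 * eval ζ (pderiv i g))
    (h2 : ¬ ∃ l : Fin 3 → ℝ, ∀ i, eval ζ (pderiv i Φ) =
      l 0 * eval ζ (pderiv i h) + l 1 * eval ζ (pderiv i g) + l 2 * eval ζ (pderiv i D)) :
    (HDI.jac ![h, g, Φ - C η, D] ζ).det ≠ 0 := by
  refine bd_det fun l hl => ?_
  have hl' : ∀ i, l 0 * eval ζ (pderiv i h) + l 1 * eval ζ (pderiv i g) + l 2 * eval ζ (pderiv i Φ) +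
      l 3 * eval ζ (pderiv i D) = 0 := by
    intro i
    have h3 := hl i
    rw [Fin.sum_univ_four] at h3
    have h4 : eval ζ (pderiv i (Φ - C η)) = eval ζ (pderiv i Φ) := by
      rw [map_sub, pderiv_C, sub_zero]
    have h5 : l 0 * eval ζ (pderiv i h) + l 1 * eval ζ (pderiv i g) +
        l 2 * eval ζ (pderiv i (Φ - C η)) + l 3 * eval ζ (pderiv i D) = 0 := h3
    rw [h4] at h5
    exact h5
  have e2 : l 2 = 0 := by
    by_contra hne
    refine h2 ⟨![-(l 0) / l 2, -(l 1) / l 2, -(l 3) / l 2], fun i => ?_⟩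
    show eval ζ (pderiv i Φ) = -(l 0) / l 2 * eval ζ (pderiv i h) + -(l 1) / l 2 * eval ζ (pderiv i g) +
      -(l 3) / l 2 * eval ζ (pderiv i D)
    have h3 := hl' i
    field_simp
    linear_combination h3
  have e3 : l 3 = 0 := by
    by_contra hne
    refine h1 ⟨![-(l 0) / l 3, -(l 1) / l 3], fun i => ?_⟩
    show eval ζ (pderiv i D) = -(l 0) / l 3 * eval ζ (pderiv i h) + -(l 1) / l 3 * eval ζ (pderiv i g)
    have h3 := hl' i
    rw [e2] at h3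
    field_simp
    linear_combination h3
  have h3 := hl' 2
  have h4 := hl' 3
  rw [e2, e3] at h3 h4
  obtain ⟨e0, e1⟩ := bd_two (a := l 0) (b := l 1) hJ (bd_evalJ h g ζ) (by linarith) (by linarith)
  funext i
  fin_cases i
  · exact e0
  · exact e1
  · exact e2
  · exact e3

/-- the combinations of the gradients in the fibres -/
private theorem bd_fib {h g φ : MvPolynomial (Fin 4) ℝ} {v : ℝ} {ζ : Fin 4 → ℝ}
    (hJ : eval ζ (jzw h g) ≠ 0) (hD : eval ζ (bdD h g φ v) ≠ 0) {a b c d : ℝ}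
    (hl : ∀ i : Fin 4, a * eval ζ (pderiv i h) + b * eval ζ (pderiv i g) + c * (if i = 0 then 1 else 0) +
      d * eval ζ (pderiv i (bdP φ v)) = 0) : a = 0 ∧ b = 0 ∧ c = 0 ∧ d = 0 := by
  have n1 : ¬ ((1 : Fin 4) = 0) := by decide
  have n2 : ¬ ((2 : Fin 4) = 0) := by decide
  have n3 : ¬ ((3 : Fin 4) = 0) := by decide
  have l0 := hl 0
  have l1 := hl 1
  have l2 := hl 2
  have l3 := hl 3
  rw [if_pos rfl] at l0
  rw [if_neg n1] at l1
  rw [if_neg n2] at l2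
  rw [if_neg n3] at l3
  have hd : d = 0 := by
    have h1 : d * eval ζ (bdD h g φ v) = 0 := by
      rw [bd_evalD]
      linear_combination (eval ζ (pderiv 2 h) * eval ζ (pderiv 3 g) -
        eval ζ (pderiv 3 h) * eval ζ (pderiv 2 g)) * l1 - (eval ζ (pderiv 1 h) * eval ζ (pderiv 3 g) -
        eval ζ (pderiv 3 h) * eval ζ (pderiv 1 g)) * l2 + (eval ζ (pderiv 1 h) * eval ζ (pderiv 2 g) -
        eval ζ (pderiv 2 h) * eval ζ (pderiv 1 g)) * l3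
    exact (mul_eq_zero.1 h1).resolve_right hD
  rw [hd] at l0 l1 l2 l3
  obtain ⟨e0, e1⟩ := bd_two (a := a) (b := b) hJ (bd_evalJ h g ζ) (by linarith) (by linarith)
  rw [e0, e1] at l0
  exact ⟨e0, e1, by linarith, hd⟩

private theorem bd_solve {J H1 H2 H3 G1 G2 G3 P1 P2 P3 : ℝ} (hJ : J ≠ 0) (hJe : J = H2 * G3 - H3 * G2)
    (hD : P1 * J - P2 * (H1 * G3 - H3 * G1) + P3 * (H1 * G2 - H2 * G1) = 0) :
    ∃ a b : ℝ, P1 = a * H1 + b * G1 ∧ P2 = a * H2 + b * G2 ∧ P3 = a * H3 + b * G3 := by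
  refine ⟨(P2 * G3 - P3 * G2) / J, (H2 * P3 - H3 * P2) / J, ?_, ?_, ?_⟩
  · field_simp
    linear_combination hD
  · field_simp
    rw [hJe]
    ring
  · field_simp
    rw [hJe]
    ring

/-- if `D = 0` then the gradient of `Φ` is a combination of those of `h, g, x` -/
private theorem bd_comb {h g φ : MvPolynomial (Fin 4) ℝ} {v : ℝ} {ζ : Fin 4 → ℝ}
    (hJ : eval ζ (jzw h g) ≠ 0) (hD : eval ζ (bdD h g φ v) = 0) :
    ∃ a b c : ℝ, ∀ i : Fin 4, eval ζ (pderiv i (bdP φ v)) =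
      a * eval ζ (pderiv i h) + b * eval ζ (pderiv i g) + c * (if i = 0 then 1 else 0) := by
  rw [bd_evalD, ← bd_evalJ] at hD
  obtain ⟨a, b, h1, h2, h3⟩ := bd_solve hJ (bd_evalJ h g ζ) hD
  have n1 : ¬ ((1 : Fin 4) = 0) := by decide
  have n2 : ¬ ((2 : Fin 4) = 0) := by decide
  have n3 : ¬ ((3 : Fin 4) = 0) := by decide
  refine ⟨a, b, eval ζ (pderiv 0 (bdP φ v)) - a * eval ζ (pderiv 0 h) - b * eval ζ (pderiv 0 g),
    fun i => ?_⟩
  fin_cases i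
  · show eval ζ (pderiv 0 (bdP φ v)) = a * eval ζ (pderiv 0 h) + b * eval ζ (pderiv 0 g) +
      _ * (if (0 : Fin 4) = 0 then 1 else 0)
    rw [if_pos rfl]
    ring
  · show eval ζ (pderiv 1 (bdP φ v)) = a * eval ζ (pderiv 1 h) + b * eval ζ (pderiv 1 g) +
      _ * (if (1 : Fin 4) = 0 then 1 else 0)
    rw [if_neg n1, h1]
    ring
  · show eval ζ (pderiv 2 (bdP φ v)) = a * eval ζ (pderiv 2 h) + b * eval ζ (pderiv 2 g) +
      _ * (if (2 : Fin 4) = 0 then 1 else 0)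
    rw [if_neg n2, h2]
    ring
  · show eval ζ (pderiv 3 (bdP φ v)) = a * eval ζ (pderiv 3 h) + b * eval ζ (pderiv 3 g) +
      _ * (if (3 : Fin 4) = 0 then 1 else 0)
    rw [if_neg n3, h3]
    ring

private theorem bd_pX (ζ : Fin 4 → ℝ) (i : Fin 4) (r : ℝ) :
    eval ζ (pderiv i (X 0 - C r)) = if i = 0 then 1 else 0 := by
  rw [map_sub, pderiv_C, sub_zero]
  by_cases hi : i = 0
  · subst hi
    rw [if_pos rfl, pderiv_X_self, map_one]
  · rw [if_neg hi, pderiv_X_of_ne (fun h => hi h.symm), map_zero]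

private theorem bd_bez {h g : MvPolynomial (Fin 4) ℝ} {F : Fin 4 → MvPolynomial (Fin 4) ℝ} {δ : Fin 4 → ℕ}
    (hδ : ∀ i, (F i).totalDegree ≤ δ i) {S : Set (Wv h g)}
    (hS : ∀ ζ ∈ S, (∀ i, eval ζ.1 (F i) = 0) ∧ (HDI.jac F ζ.1).det ≠ 0) :
    S.Finite ∧ ∀ T : Finset (Wv h g), (T : Set (Wv h g)) ⊆ S → T.card ≤ ∏ i, (δ i + 1) := by
  classical
  have h1 : ∀ T : Finset (Wv h g), (T : Set (Wv h g)) ⊆ S → T.card ≤ ∏ i, (δ i + 1) := by
    intro T hT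
    have h2 : (T.image fun ζ : Wv h g => ζ.1).card = T.card :=
      Finset.card_image_of_injective _ fun a b hab => Subtype.ext hab
    rw [← h2]
    refine HDI.bezout δ F hδ _ fun z hz => ?_
    obtain ⟨ζ, hζ, rfl⟩ := Finset.mem_image.1 hz
    exact hS ζ (hT hζ)
  refine ⟨?_, h1⟩
  by_contra hinf
  obtain ⟨T, hT, hc⟩ := Set.Infinite.exists_subset_card_eq hinf (∏ i, (δ i + 1) + 1)
  have h2 := h1 T hT
  omega

private theorem bd_loc {h g φ : MvPolynomial (Fin 4) ℝ} {v η ρ : ℝ} {z : Wv h g}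
    (hz1 : ∑ i, z.1 i ^ 2 < ρ ^ 2) (hz2 : eval z.1 (bdP φ v) = η) (hD : eval z.1 (bdD h g φ v) ≠ 0) :
    LocSec (fun ζ : Wv h g => ζ.1 0) {ζ : Wv h g | ∑ i, ζ.1 i ^ 2 ≤ ρ ^ 2 ∧ eval ζ.1 (bdP φ v) = η} z := by
  classical
  have hval : Continuous (fun ζ : Wv h g => ζ.1) := continuous_subtype_val
  have hind : IsInducing (fun ζ : Wv h g => ζ.1) := IsInducing.subtypeVal
  have hcs : Continuous fun y : Fin 4 → ℝ => ∑ i, y i ^ 2 := by fun_prop
  have hdet : (HDI.jac ![X 0, h, g, bdP φ v - C η] z.1).det ≠ 0 := by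
    refine bd_det fun l hl => ?_
    have hl' : ∀ i : Fin 4, l 1 * eval z.1 (pderiv i h) + l 2 * eval z.1 (pderiv i g) +
        l 0 * (if i = 0 then 1 else 0) + l 3 * eval z.1 (pderiv i (bdP φ v)) = 0 := by
      intro i
      have h3 := hl i
      rw [Fin.sum_univ_four] at h3
      have h5 : l 0 * eval z.1 (pderiv i (X 0)) + l 1 * eval z.1 (pderiv i h) +
        l 2 * eval z.1 (pderiv i g) + l 3 * eval z.1 (pderiv i (bdP φ v - C η)) = 0 := h3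
      have h4 : eval z.1 (pderiv i (bdP φ v - C η)) = eval z.1 (pderiv i (bdP φ v)) := by
        rw [map_sub, pderiv_C, sub_zero]
      have h6 : eval z.1 (pderiv i (X 0)) = if i = 0 then 1 else 0 := by
        have h7 := bd_pX z.1 i 0
        rw [map_sub, pderiv_C, sub_zero] at h7
        exact h7
      rw [h4, h6] at h5
      linarith
    obtain ⟨e1, e2, e0, e3⟩ := bd_fib z.2.2.2 hD hl'
    funext i
    fin_cases i
    · exact e0
    · exact e1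
    · exact e2
    · exact e3
  have hzz : ∀ i : Fin 4, i ≠ 0 → eval z.1 ((![X 0, h, g, bdP φ v - C η] : Fin 4 → MvPolynomial (Fin 4) ℝ) i) = 0 := by
    intro i hi
    fin_cases i
    · exact absurd rfl hi
    · exact z.2.1
    · exact z.2.2.1
    · show eval z.1 (bdP φ v - C η) = 0
      rw [map_sub, eval_C, hz2, sub_self]
  have hW : {y : Fin 4 → ℝ | eval y (jzw h g) ≠ 0 ∧ ∑ i, y i ^ 2 < ρ ^ 2} ∈ 𝓝 z.1 := by
    have h1 : IsOpen {y : Fin 4 → ℝ | eval y (jzw h g) ≠ 0 ∧ ∑ i, y i ^ 2 < ρ ^ 2} :=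
      (isOpen_ne_fun (MvPolynomial.continuous_eval (jzw h g)) continuous_const).inter
        (isOpen_lt hcs continuous_const)
    exact h1.mem_nhds ⟨z.2.2.2, hz1⟩
  obtain ⟨ε, hε, κ, hκc, hκz, hκ, U, hU, hUκ⟩ := bd_ift
    ![X 0, h, g, bdP φ v - C η] rfl z.1 hzz hdet _ hW
  have hκm : ∀ t ∈ Set.Ioo (z.1 0 - ε) (z.1 0 + ε), eval (κ t) h = 0 ∧ eval (κ t) g = 0 ∧
      eval (κ t) (jzw h g) ≠ 0 := fun t ht =>
    ⟨(hκ t ht).2.2 1 (by decide), (hκ t ht).2.2 2 (by decide), (hκ t ht).2.1.1⟩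
  let κ' : ℝ → Wv h g := fun t =>
    if ht : t ∈ Set.Ioo (z.1 0 - ε) (z.1 0 + ε) then ⟨κ t, hκm t ht⟩ else z
  have hκ' : ∀ t ∈ Set.Ioo (z.1 0 - ε) (z.1 0 + ε), (κ' t).1 = κ t := by
    intro t ht
    simp only [κ', dif_pos ht]
  have hz0 : z.1 0 ∈ Set.Ioo (z.1 0 - ε) (z.1 0 + ε) := ⟨by linarith, by linarith⟩
  refine ⟨ε, hε, κ', ?_, ?_, ?_, (fun ζ : Wv h g => ζ.1) ⁻¹' U ∩
    {ζ : Wv h g | ζ.1 0 ∈ Set.Ioo (z.1 0 - ε) (z.1 0 + ε)}, ?_, ?_⟩
  · rw [hind.continuousOn_iff]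
    exact hκc.congr fun t ht => hκ' t ht
  · apply Subtype.ext
    rw [hκ' _ hz0, hκz]
  · intro t ht
    refine ⟨?_, ?_⟩
    · show (κ' t).1 0 = t
      rw [hκ' t ht]
      exact (hκ t ht).1
    · show ∑ i, (κ' t).1 i ^ 2 ≤ ρ ^ 2 ∧ eval (κ' t).1 (bdP φ v) = η
      rw [hκ' t ht]
      refine ⟨(hκ t ht).2.1.2.le, ?_⟩
      have h1 : eval (κ t) (bdP φ v - C η) = 0 := (hκ t ht).2.2 3 (by decide)
      rw [map_sub, eval_C] at h1
      linarith
  · refine Filter.inter_mem (hval.continuousAt.preimage_mem_nhds hU) ?_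
    have h1 : Continuous fun ζ : Wv h g => ζ.1 0 := (continuous_apply 0).comp hval
    exact h1.continuousAt.preimage_mem_nhds (Ioo_mem_nhds hz0.1 hz0.2)
  · rintro ζ ⟨hζU, hζI⟩ hζB
    apply Subtype.ext
    show ζ.1 = (κ' (ζ.1 0)).1
    rw [hκ' _ hζI]
    refine hUκ ζ.1 hζU ?_
    intro i hi
    fin_cases i
    · exact absurd rfl hi
    · exact ζ.2.1
    · exact ζ.2.2.1
    · show eval ζ.1 (bdP φ v - C η) = 0
      rw [map_sub, eval_C, hζB.2, sub_self]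

private theorem bd_fibf (h g φ : MvPolynomial (Fin 4) ℝ) (v η t : ℝ) :
    {ζ : Wv h g | ζ.1 0 = t ∧ eval ζ.1 (bdP φ v) = η ∧ eval ζ.1 (bdD h g φ v) ≠ 0}.Finite := by
  refine (bd_bez (h := h) (g := g) (F := ![h, g, X 0 - C t, bdP φ v - C η]) (δ := fun i =>
    ((![h, g, X 0 - C t, bdP φ v - C η] : Fin 4 → MvPolynomial (Fin 4) ℝ) i).totalDegree)
    (fun i => le_rfl) ?_).1
  rintro ζ ⟨hx, hP, hD⟩
  refine ⟨?_, bd_det fun l hl => ?_⟩
  · intro i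
    fin_cases i
    · exact ζ.2.1
    · exact ζ.2.2.1
    · show eval ζ.1 (X 0 - C t) = 0
      rw [map_sub, eval_C, eval_X, hx, sub_self]
    · show eval ζ.1 (bdP φ v - C η) = 0
      rw [map_sub, eval_C, hP, sub_self]
  · have hl' : ∀ i : Fin 4, l 0 * eval ζ.1 (pderiv i h) + l 1 * eval ζ.1 (pderiv i g) +
        l 2 * (if i = 0 then 1 else 0) + l 3 * eval ζ.1 (pderiv i (bdP φ v)) = 0 := by
      intro i
      have h3 := hl i
      rw [Fin.sum_univ_four] at h3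
      have h5 : l 0 * eval ζ.1 (pderiv i h) + l 1 * eval ζ.1 (pderiv i g) +
        l 2 * eval ζ.1 (pderiv i (X 0 - C t)) + l 3 * eval ζ.1 (pderiv i (bdP φ v - C η)) = 0 := h3
      have h4 : eval ζ.1 (pderiv i (bdP φ v - C η)) = eval ζ.1 (pderiv i (bdP φ v)) := by
        rw [map_sub, pderiv_C, sub_zero]
      rw [h4, bd_pX] at h5
      exact h5
    obtain ⟨e0, e1, e2, e3⟩ := bd_fib ζ.2.2.2 hD hl'
    funext i
    fin_cases i
    · exact e0
    · exact e1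
    · exact e2
    · exact e3

theorem bd (h g φ : MvPolynomial (Fin 4) ℝ) (ρ : ℝ) (hφ : ∀ ζ, 0 ≤ eval ζ φ)
    (h0 : ∀ ζ, eval ζ h = 0 → eval ζ g = 0 →
      (eval ζ (jzw h g) = 0 ∨ ∑ i, ζ i ^ 2 = ρ ^ 2) → eval ζ φ = 0)
    (A0 : Set (Wv h g)) (hA : IsCompact A0)
    (hA0 : ∀ ζ ∈ A0, 0 < eval ζ.1 φ ∧ ∑ i, ζ.1 i ^ 2 < ρ ^ 2)
    (X0 : Finset ℝ) :
    ∃ (K B : Set (Wv h g)) (crit : Finset (Wv h g)), IsCompact K ∧ IsClosed B ∧ B ⊆ K ∧
      IsOpen (K \ B) ∧ (crit : Set (Wv h g)) ⊆ B ∧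
      (∀ v ∈ B, v ∉ crit → LocSec (fun ζ : Wv h g => ζ.1 0) B v) ∧
      (∀ t : ℝ, {v | v ∈ B ∧ v.1 0 = t}.Finite) ∧ A0 ⊆ K \ B ∧
      (∀ r ∈ X0, ∀ v ∈ crit, v.1 0 ≠ r) ∧
      crit.card ≤ (h.totalDegree + 1) * (g.totalDegree + 1) * (φ.totalDegree + 2) *
        (h.totalDegree + g.totalDegree + φ.totalDegree + 1) := by
  classical
  have hval : Continuous (fun ζ : Wv h g => ζ.1) := continuous_subtype_val
  have hind : IsInducing (fun ζ : Wv h g => ζ.1) := IsInducing.subtypeVal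
  -- the minimum of `φ` on `A0`
  obtain ⟨m, hm0, hm⟩ : ∃ m : ℝ, 0 < m ∧ ∀ ζ ∈ A0, m ≤ eval ζ.1 φ := by
    rcases A0.eq_empty_or_nonempty with he | hne
    · exact ⟨1, one_pos, fun ζ hζ => by rw [he] at hζ; exact hζ.elim⟩
    · obtain ⟨ζ, hζ, hmin⟩ := hA.exists_isMinOn hne
        ((MvPolynomial.continuous_eval φ).comp hval).continuousOn
      exact ⟨eval ζ.1 φ, (hA0 ζ hζ).1, fun ζ' hζ' => hmin hζ'⟩
  obtain ⟨R, hR⟩ : ∃ R : ℝ, R = |ρ| + 1 := ⟨_, rfl⟩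
  have hR1 : 1 ≤ R := by
    rw [hR]
    linarith [abs_nonneg ρ]
  -- choice of `v`
  have hf1 := bd_fc ![h, g] (jzw h g) (jzw h g) (bdM h g φ)
  obtain ⟨S1, hS1⟩ : ∃ S : Set ℝ, S = {s : ℝ | ∃ ζ : Fin 4 → ℝ, (∀ a, eval ζ ((![h, g] : Fin 2 → MvPolynomial (Fin 4) ℝ) a) = 0) ∧
      eval ζ (jzw h g) ≠ 0 ∧ eval ζ (jzw h g) ≠ 0 ∧
      eval ζ (bdM h g φ) = s * eval ζ (jzw h g) ∧ ∃ l : Fin 2 → ℝ, ∀ i : Fin 4,
        eval ζ (pderiv i (bdM h g φ)) - s * eval ζ (pderiv i (jzw h g)) =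
          ∑ a, l a * eval ζ (pderiv i ((![h, g] : Fin 2 → MvPolynomial (Fin 4) ℝ) a))} := ⟨_, rfl⟩
  rw [← hS1] at hf1
  obtain ⟨v, hvI, hvS⟩ : ∃ v, v ∈ Set.Ioo 0 (m / (32 * R)) ∧ -v ∉ S1 := by
    have h1 : (Set.Ioo 0 (m / (32 * R))).Infinite := Set.Ioo_infinite (by positivity)
    obtain ⟨v, hv, hv'⟩ := (h1.sdiff (hf1.preimage (neg_injective.injOn))).nonempty
    exact ⟨v, hv, hv'⟩
  have hcrit1 : ∀ ζ : Fin 4 → ℝ, eval ζ h = 0 → eval ζ g = 0 → eval ζ (jzw h g) ≠ 0 →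
      eval ζ (bdD h g φ v) = 0 → ¬ ∃ l : Fin 2 → ℝ, ∀ i, eval ζ (pderiv i (bdD h g φ v)) =
        l 0 * eval ζ (pderiv i h) + l 1 * eval ζ (pderiv i g) := by
    rintro ζ hh hg hJ hD ⟨l, hl⟩
    apply hvS
    rw [hS1]
    refine ⟨ζ, ?_, hJ, hJ, ?_, l, fun i => ?_⟩
    · intro a
      fin_cases a
      · exact hh
      · exact hg
    · have h1 : eval ζ (bdM h g φ) + v * eval ζ (jzw h g) = 0 := by
        rw [← hD]
        unfold bdD
        rw [map_add, map_mul, eval_C]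
      linarith
    · rw [Fin.sum_univ_two]
      show _ = l 0 * eval ζ (pderiv i h) + l 1 * eval ζ (pderiv i g)
      rw [← hl i]
      unfold bdD
      rw [map_add, pderiv_C_mul, map_add, map_mul, eval_C]
      ring
  -- choice of `η`
  have hf2 := bd_fc ![h, g, bdD h g φ v] (jzw h g) 1 (bdP φ v)
  have hf3 := fun r : ℝ => bd_fc ![h, g, X 0 - C r] (jzw h g) 1 (bdP φ v)
  obtain ⟨η, hηI, hη2, hη3⟩ : ∃ η, η ∈ Set.Ioo (m / 4) (m / 2) ∧
      (¬ ∃ ζ : Fin 4 → ℝ, (∀ a, eval ζ ((![h, g, bdD h g φ v] : Fin 3 → MvPolynomial (Fin 4) ℝ) a) = 0) ∧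
        eval ζ (jzw h g) ≠ 0 ∧ eval ζ (1 : MvPolynomial (Fin 4) ℝ) ≠ 0 ∧
        eval ζ (bdP φ v) = η * eval ζ (1 : MvPolynomial (Fin 4) ℝ) ∧ ∃ l : Fin 3 → ℝ, ∀ i : Fin 4,
          eval ζ (pderiv i (bdP φ v)) - η * eval ζ (pderiv i (1 : MvPolynomial (Fin 4) ℝ)) =
            ∑ a, l a * eval ζ (pderiv i ((![h, g, bdD h g φ v] : Fin 3 → MvPolynomial (Fin 4) ℝ) a))) ∧
      ∀ r ∈ X0, ¬ ∃ ζ : Fin 4 → ℝ, (∀ a, eval ζ ((![h, g, X 0 - C r] : Fin 3 → MvPolynomial (Fin 4) ℝ) a) = 0) ∧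
        eval ζ (jzw h g) ≠ 0 ∧ eval ζ (1 : MvPolynomial (Fin 4) ℝ) ≠ 0 ∧
        eval ζ (bdP φ v) = η * eval ζ (1 : MvPolynomial (Fin 4) ℝ) ∧ ∃ l : Fin 3 → ℝ, ∀ i : Fin 4,
          eval ζ (pderiv i (bdP φ v)) - η * eval ζ (pderiv i (1 : MvPolynomial (Fin 4) ℝ)) =
            ∑ a, l a * eval ζ (pderiv i ((![h, g, X 0 - C r] : Fin 3 → MvPolynomial (Fin 4) ℝ) a)) := by
    have h1 : (Set.Ioo (m / 4) (m / 2)).Infinite := Set.Ioo_infinite (by linarith)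
    have h2 := hf2.union (X0.finite_toSet.biUnion fun r _ => hf3 r)
    obtain ⟨η, hη, hη'⟩ := (h1.sdiff h2).nonempty
    refine ⟨η, hη, fun h3 => hη' (Or.inl h3), fun r hr h3 => hη' (Or.inr ?_)⟩
    exact Set.mem_biUnion hr h3
  have hcrit2 : ∀ ζ : Fin 4 → ℝ, eval ζ h = 0 → eval ζ g = 0 → eval ζ (jzw h g) ≠ 0 →
      eval ζ (bdD h g φ v) = 0 → eval ζ (bdP φ v) = η → ¬ ∃ l : Fin 3 → ℝ, ∀ i, eval ζ (pderiv i (bdP φ v)) =
        l 0 * eval ζ (pderiv i h) + l 1 * eval ζ (pderiv i g) + l 2 * eval ζ (pderiv i (bdD h g φ v)) := by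
    rintro ζ hh hg hJ hD hP ⟨l, hl⟩
    refine hη2 ⟨ζ, ?_, hJ, by rw [map_one]; exact one_ne_zero, by rw [map_one, mul_one]; exact hP, l,
      fun i => ?_⟩
    · intro a
      fin_cases a
      · exact hh
      · exact hg
      · exact hD
    · rw [Fin.sum_univ_three]
      show _ = l 0 * eval ζ (pderiv i h) + l 1 * eval ζ (pderiv i g) + l 2 * eval ζ (pderiv i (bdD h g φ v))
      rw [← hl i, pderiv_one, map_zero, mul_zero, sub_zero]
  have hcrit3 : ∀ r ∈ X0, ∀ ζ : Fin 4 → ℝ, eval ζ h = 0 → eval ζ g = 0 → eval ζ (jzw h g) ≠ 0 →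
      eval ζ (bdD h g φ v) = 0 → eval ζ (bdP φ v) = η → ζ 0 ≠ r := by
    intro r hr ζ hh hg hJ hD hP hx
    obtain ⟨a, b, c, habc⟩ := bd_comb hJ hD
    refine hη3 r hr ⟨ζ, ?_, hJ, by rw [map_one]; exact one_ne_zero, by rw [map_one, mul_one]; exact hP,
      ![a, b, c], fun i => ?_⟩
    · intro a
      fin_cases a
      · exact hh
      · exact hg
      · show eval ζ (X 0 - C r) = 0
        rw [map_sub, eval_X, eval_C, hx, sub_self]
    · rw [Fin.sum_univ_three]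
      show _ = a * eval ζ (pderiv i h) + b * eval ζ (pderiv i g) + c * eval ζ (pderiv i (X 0 - C r))
      rw [habc i, bd_pX, pderiv_one, map_zero, mul_zero, sub_zero]
  -- bounds
  have hv0 : 0 < v := hvI.1
  have hvR : v * R < m / 32 := by
    have h1 := hvI.2
    rw [lt_div_iff₀ (by positivity)] at h1
    nlinarith
  have hη0 : 0 < η := by linarith [hηI.1]
  have hvη : v * R < η / 4 := by linarith [hηI.1]
  have hy : ∀ y : Fin 4 → ℝ, ∑ i, y i ^ 2 ≤ ρ ^ 2 → |v * y 1| < η / 4 := by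
    intro y hy
    have h1 : y 1 ^ 2 ≤ ∑ i, y i ^ 2 := Finset.single_le_sum (f := fun i => y i ^ 2)
      (fun i _ => sq_nonneg (y i)) (Finset.mem_univ 1)
    have h2 : |y 1| ≤ |ρ| := sq_le_sq.1 (h1.trans hy)
    rw [abs_mul, abs_of_pos hv0]
    have h3 : v * |y 1| ≤ v * R := mul_le_mul_of_nonneg_left (by rw [hR]; linarith) hv0.le
    linarith
  have hPe : ∀ y : Fin 4 → ℝ, eval y (bdP φ v) = eval y φ + v * y 1 := by
    intro y
    unfold bdP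
    rw [map_add, map_mul, eval_C, eval_X]
  have key : ∀ y : Fin 4 → ℝ, eval y h = 0 → eval y g = 0 → ∑ i, y i ^ 2 ≤ ρ ^ 2 → η ≤ eval y (bdP φ v) →
      eval y (jzw h g) ≠ 0 ∧ ∑ i, y i ^ 2 < ρ ^ 2 := by
    intro y hh hg hs hP
    have h1 : 0 < eval y φ := by
      rw [hPe] at hP
      have h2 := abs_lt.1 (hy y hs)
      linarith [h2.2]
    refine ⟨fun hJ => ?_, lt_of_le_of_ne hs fun he => ?_⟩
    · rw [h0 y hh hg (Or.inl hJ)] at h1
      exact lt_irrefl _ h1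
    · rw [h0 y hh hg (Or.inr he)] at h1
      exact lt_irrefl _ h1
  have hcs : Continuous fun y : Fin 4 → ℝ => ∑ i, y i ^ 2 := by fun_prop
  have hcP := MvPolynomial.continuous_eval (bdP φ v)
  obtain ⟨K, hK⟩ : ∃ K : Set (Wv h g), K = {ζ : Wv h g | ∑ i, ζ.1 i ^ 2 ≤ ρ ^ 2 ∧ η ≤ eval ζ.1 (bdP φ v)} :=
    ⟨_, rfl⟩
  obtain ⟨B, hB⟩ : ∃ B : Set (Wv h g), B = {ζ : Wv h g | ∑ i, ζ.1 i ^ 2 ≤ ρ ^ 2 ∧ eval ζ.1 (bdP φ v) = η} :=
    ⟨_, rfl⟩
  have hBK : B ⊆ K := by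
    rw [hB, hK]
    exact fun ζ hζ => ⟨hζ.1, hζ.2.ge⟩
  have hBs : ∀ ζ ∈ B, ∑ i, ζ.1 i ^ 2 < ρ ^ 2 ∧ eval ζ.1 (bdP φ v) = η := by
    intro ζ hζ
    rw [hB] at hζ
    exact ⟨(key ζ.1 ζ.2.1 ζ.2.2.1 hζ.1 hζ.2.ge).2, hζ.2⟩
  have hKB : K \ B = {ζ : Wv h g | ∑ i, ζ.1 i ^ 2 < ρ ^ 2 ∧ η < eval ζ.1 (bdP φ v)} := by
    ext ζ
    rw [hK, hB]
    constructor
    · rintro ⟨h1, h2⟩
      exact ⟨(key ζ.1 ζ.2.1 ζ.2.2.1 h1.1 h1.2).2, lt_of_le_of_ne h1.2 fun h3 => h2 ⟨h1.1, h3.symm⟩⟩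
    · rintro ⟨h1, h2⟩
      exact ⟨⟨h1.le, h2.le⟩, fun h3 => h2.ne h3.2.symm⟩
  have hKc : IsCompact K := by
    let Kb : Set (Fin 4 → ℝ) := {y | (eval y h = 0 ∧ eval y g = 0) ∧ (∑ i, y i ^ 2 ≤ ρ ^ 2 ∧
      η ≤ eval y (bdP φ v))}
    have h1 : IsClosed Kb :=
      ((isClosed_eq (MvPolynomial.continuous_eval h) continuous_const).inter
        (isClosed_eq (MvPolynomial.continuous_eval g) continuous_const)).inter
        ((isClosed_le hcs continuous_const).inter (isClosed_le continuous_const hcP))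
    have h2 : Bornology.IsBounded Kb := by
      refine (Metric.isBounded_closedBall (x := (0 : Fin 4 → ℝ)) (r := |ρ|)).subset fun y hy => ?_
      rw [mem_closedBall_zero_iff, pi_norm_le_iff_of_nonneg (abs_nonneg _)]
      intro i
      rw [Real.norm_eq_abs]
      have h3 : y i ^ 2 ≤ ∑ i, y i ^ 2 := Finset.single_le_sum (f := fun i => y i ^ 2)
        (fun i _ => sq_nonneg (y i)) (Finset.mem_univ i)
      exact sq_le_sq.1 (h3.trans hy.2.1)
    have h3 : IsCompact Kb := Metric.isCompact_of_isClosed_isBounded h1 h2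
    have h4 : K = (fun ζ : Wv h g => ζ.1) ⁻¹' Kb := by
      rw [hK]
      ext ζ
      exact ⟨fun h5 => ⟨⟨ζ.2.1, ζ.2.2.1⟩, h5⟩, fun h5 => h5.2⟩
    rw [h4]
    refine (hind.isCompact_preimage_iff ?_).2 h3
    intro y hy
    exact ⟨⟨y, hy.1.1, hy.1.2, (key y hy.1.1 hy.1.2 hy.2.1 hy.2.2).1⟩, rfl⟩
  have hBc : IsClosed B := by
    rw [hB]
    exact (isClosed_le (hcs.comp hval) continuous_const).inter (isClosed_eq (hcP.comp hval) continuous_const)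
  have hKBo : IsOpen (K \ B) := by
    rw [hKB]
    exact (isOpen_lt (hcs.comp hval) continuous_const).inter (isOpen_lt continuous_const (hcP.comp hval))
  -- the critical points
  have hcr := bd_bez (h := h) (g := g) (F := ![h, g, bdP φ v - C η, bdD h g φ v])
    (δ := ![h.totalDegree, g.totalDegree, φ.totalDegree + 1, h.totalDegree + g.totalDegree + φ.totalDegree])
    (by
      intro i
      fin_cases i
      · exact le_rfl
      · exact le_rfl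
      · exact bd_degP φ v η
      · exact bd_degD h g φ v) (S := {ζ | ζ ∈ B ∧ eval ζ.1 (bdD h g φ v) = 0}) (by
      rintro ζ ⟨hζ, hD⟩
      refine ⟨?_, bd_ndeg η ζ.2.2.2 (hcrit1 _ ζ.2.1 ζ.2.2.1 ζ.2.2.2 hD)
        (hcrit2 _ ζ.2.1 ζ.2.2.1 ζ.2.2.2 hD (hBs ζ hζ).2)⟩
      intro i
      fin_cases i
      · exact ζ.2.1
      · exact ζ.2.2.1
      · show eval ζ.1 (bdP φ v - C η) = 0
        rw [map_sub, eval_C, (hBs ζ hζ).2, sub_self]
      · exact hD)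
  obtain ⟨hcf, hcc⟩ := hcr
  have hmem : ∀ ζ, ζ ∈ hcf.toFinset ↔ ζ ∈ B ∧ eval ζ.1 (bdD h g φ v) = 0 := fun ζ => hcf.mem_toFinset
  refine ⟨K, B, hcf.toFinset, hKc, hBc, hBK, hKBo, ?_, ?_, ?_, ?_, ?_, ?_⟩
  · intro ζ hζ
    exact ((hmem ζ).1 hζ).1
  · intro z hz hzc
    have hD : eval z.1 (bdD h g φ v) ≠ 0 := fun hD => hzc ((hmem z).2 ⟨hz, hD⟩)
    have h1 := bd_loc (ρ := ρ) (z := z) (hBs z hz).1 (hBs z hz).2 hD
    rw [hB]
    exact h1
  · intro t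
    have h1 : {ζ : Wv h g | ζ.1 0 = t ∧ eval ζ.1 (bdP φ v) = η ∧ eval ζ.1 (bdD h g φ v) ≠ 0}.Finite :=
      bd_fibf h g φ v η t
    refine (hcf.union h1).subset ?_
    rintro ζ ⟨hζ, hx⟩
    by_cases hD : eval ζ.1 (bdD h g φ v) = 0
    · exact Or.inl ⟨hζ, hD⟩
    · exact Or.inr ⟨hx, (hBs ζ hζ).2, hD⟩
  · intro ζ hζ
    rw [hKB]
    have h1 := hm ζ hζ
    have h2 := (hA0 ζ hζ).2
    refine ⟨h2, ?_⟩
    rw [hPe]
    have h3 := abs_lt.1 (hy ζ.1 h2.le)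
    linarith [h3.1, hηI.2]
  · intro r hr ζ hζ
    obtain ⟨h1, h2⟩ := (hmem ζ).1 hζ
    exact hcrit3 r hr ζ.1 ζ.2.1 ζ.2.2.1 ζ.2.2.2 h2 (hBs ζ h1).2
  · have h1 := hcc hcf.toFinset (by rw [hcf.coe_toFinset])
    rw [Fin.prod_univ_four] at h1
    exact h1

end D4Q
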