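import Mathlib
import Pool.Agent.D4Q.Defs

/-!
# D4Q: definitions for the jets part

The étale surface belonging to a set `F ⊆ ℝ^4` on which the polynomials `b1`, `b2` vanish: variables
`inl 0 = z`, `inl 1 = w`, `inl 2 = τ`, `inr 0 = x`, `inr 1 = y`, equations `b1 = b2 = 0`, `τ μ = 1`,
`μ = jzw b1 b2`. `derB j` is the derivation which on this surface is the derivative with respect to
`x` (`j = 0`) or `y` (`j = 1`).
-/

namespace D4Q

open MvPolynomial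

/-- The coordinates of `ℝ ^ 4` among the five variables. -/
def sw : Fin 4 → Fin 3 ⊕ Fin 2 := ![Sum.inr 0, Sum.inr 1, Sum.inl 0, Sum.inl 1]

/-- The three equations. -/
noncomputable def eB (b1 b2 : MvPolynomial (Fin 4) ℝ) : Fin 3 → MvPolynomial (Fin 3 ⊕ Fin 2) ℝ :=
  ![rename sw b1, rename sw b2, X (Sum.inl 2) * rename sw (jzw b1 b2) - 1]

/-- The étale surface. -/
def SB (b1 b2 : MvPolynomial (Fin 4) ℝ) (F : Set (Fin 4 → ℝ)) : Set (Fin 3 ⊕ Fin 2 → ℝ) :=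
  {t | t ∘ sw ∈ F ∧ ∀ a, eval t (eB b1 b2 a) = 0}

/-- Derivative of `z` with respect to the coordinate `j` (`0` for `x`, `1` for `y`). -/
noncomputable def dz (b1 b2 : MvPolynomial (Fin 4) ℝ) (j : Fin 2) : MvPolynomial (Fin 3 ⊕ Fin 2) ℝ :=
  X (Sum.inl 2) * rename sw (pderiv 3 b1 * pderiv (Fin.castLE (by omega) j) b2 -
    pderiv (Fin.castLE (by omega) j) b1 * pderiv 3 b2)

/-- Derivative of `w`. -/
noncomputable def dw (b1 b2 : MvPolynomial (Fin 4) ℝ) (j : Fin 2) : MvPolynomial (Fin 3 ⊕ Fin 2) ℝ :=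
  X (Sum.inl 2) * rename sw (pderiv 2 b2 * pderiv (Fin.castLE (by omega) j) b1 -
    pderiv (Fin.castLE (by omega) j) b2 * pderiv 2 b1)

/-- Derivative of `τ`. -/
noncomputable def dt (b1 b2 : MvPolynomial (Fin 4) ℝ) (j : Fin 2) : MvPolynomial (Fin 3 ⊕ Fin 2) ℝ :=
  - X (Sum.inl 2) ^ 2 * (rename sw (pderiv (Fin.castLE (by omega) j) (jzw b1 b2)) +
    rename sw (pderiv 2 (jzw b1 b2)) * dz b1 b2 j + rename sw (pderiv 3 (jzw b1 b2)) * dw b1 b2 j)

/-- The derivation. -/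
noncomputable def derB (b1 b2 : MvPolynomial (Fin 4) ℝ) (j : Fin 2) :
    Derivation ℝ (MvPolynomial (Fin 3 ⊕ Fin 2) ℝ) (MvPolynomial (Fin 3 ⊕ Fin 2) ℝ) :=
  mkDerivation ℝ (Sum.elim (![dz b1 b2 j, dw b1 b2 j, dt b1 b2 j]) fun i => if i = j then 1 else 0)

/-- Iterated derivatives along a word. -/
noncomputable def wd (b1 b2 : MvPolynomial (Fin 4) ℝ) : List (Fin 2) →
    MvPolynomial (Fin 3 ⊕ Fin 2) ℝ → MvPolynomial (Fin 3 ⊕ Fin 2) ℝ
  | [], F => F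
  | j :: u, F => derB b1 b2 j (wd b1 b2 u F)

/-- The derivatives of `z` (`q = 0`) and `w` (`q = 1`) along the word `u`. -/
noncomputable def jt (b1 b2 : MvPolynomial (Fin 4) ℝ) (u : List (Fin 2)) (q : Fin 2) :
    MvPolynomial (Fin 3 ⊕ Fin 2) ℝ :=
  wd b1 b2 u (X (Sum.inl (Fin.castLE (by omega) q)))

end D4Q
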