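import Mathlib
import Pool.Agent.D4Q.JD
import Pool.Agent.HDI.Base

/-!
# D4Q-DerS: the derivation is the derivative along sections

Chain rule: the derivatives of the components of `σ` are determined by differentiating the three equations (Cramer; `τ μ = 1`), and are the values of `dz`, `dw`, `dt`; then induction on `f` (`MvPolynomial.induction_on`) or the chain rule for polynomials.
-/

namespace D4Q

open MvPolynomial

private theorem DerS_sum {ι : Type*} [Fintype ι] [DecidableEq ι]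
    (δ : Derivation ℝ (MvPolynomial ι ℝ) (MvPolynomial ι ℝ)) (s : ι → ℝ) (f : MvPolynomial ι ℝ) :
    eval s (δ f) = ∑ i, eval s (pderiv i f) * eval s (δ (X i)) := by
  induction f using MvPolynomial.induction_on with
  | C a =>
    simp only [derivation_C, map_zero, zero_mul, Finset.sum_const_zero]
  | add p q hp hq =>
    simp only [map_add, hp, hq, add_mul, Finset.sum_add_distrib]
  | mul_X p n hp =>
    simp only [Derivation.leibniz, smul_eq_mul, map_add, map_mul, eval_X, hp, add_mul,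
      Finset.sum_add_distrib]
    congr 1
    · rw [Finset.sum_eq_single n]
      · rw [pderiv_X_self, map_one, mul_one]
      · intro i _ hi
        rw [pderiv_X_of_ne (Ne.symm hi), map_zero, mul_zero, zero_mul]
      · intro h
        exact absurd (Finset.mem_univ n) h
    · rw [Finset.mul_sum]
      exact Finset.sum_congr rfl fun i _ => by ring

/-- the pull back of coordinates -/
private noncomputable def DerS_pb : (Fin 3 ⊕ Fin 2 → ℝ) →L[ℝ] (Fin 4 → ℝ) :=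
  ContinuousLinearMap.pi fun k => (ContinuousLinearMap.proj (sw k) : (Fin 3 ⊕ Fin 2 → ℝ) →L[ℝ] ℝ)

private theorem DerS_chain {σ : (Fin 2 → ℝ) → (Fin 3 ⊕ Fin 2 → ℝ)} {w : Fin 2 → ℝ}
    {D : (Fin 2 → ℝ) →L[ℝ] (Fin 3 ⊕ Fin 2 → ℝ)} (hD : HasFDerivAt σ D w)
    (b : MvPolynomial (Fin 4) ℝ) :
    HasFDerivAt (fun w' => eval (σ w') (rename sw b))
      ((∑ k, eval (σ w ∘ sw) (pderiv k b) • (ContinuousLinearMap.proj k : (Fin 4 → ℝ) →L[ℝ] ℝ)).comp
        (DerS_pb.comp D)) w := by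
  have h1 : HasFDerivAt (fun w' => DerS_pb (σ w')) (DerS_pb.comp D) w :=
    (DerS_pb.hasFDerivAt (x := σ w)).comp w hD
  have h2 := (HDI.hasStrictFDerivAt_eval b (DerS_pb (σ w))).hasFDerivAt.comp w h1
  have e : (fun w' => eval (σ w') (rename sw b)) =
      (fun y : Fin 4 → ℝ => eval y b) ∘ fun w' => DerS_pb (σ w') := by
    funext w'
    rw [eval_rename]
    rfl
  rw [e]
  exact h2

private theorem DerS_apply {w : Fin 2 → ℝ} {σ : (Fin 2 → ℝ) → (Fin 3 ⊕ Fin 2 → ℝ)}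
    {D : (Fin 2 → ℝ) →L[ℝ] (Fin 3 ⊕ Fin 2 → ℝ)} (b : MvPolynomial (Fin 4) ℝ) (u : Fin 2 → ℝ) :
    ((∑ k, eval (σ w ∘ sw) (pderiv k b) • (ContinuousLinearMap.proj k : (Fin 4 → ℝ) →L[ℝ] ℝ)).comp
        (DerS_pb.comp D)) u =
      eval (σ w ∘ sw) (pderiv 0 b) * (D u) (Sum.inr 0) + eval (σ w ∘ sw) (pderiv 1 b) * (D u) (Sum.inr 1)
        + eval (σ w ∘ sw) (pderiv 2 b) * (D u) (Sum.inl 0)
        + eval (σ w ∘ sw) (pderiv 3 b) * (D u) (Sum.inl 1) := by
  rw [ContinuousLinearMap.comp_apply, _root_.sum_apply, Fin.sum_univ_four]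
  rfl

/-- `derB` is the derivative along sections. -/
theorem der_section (b1 b2 : MvPolynomial (Fin 4) ℝ) (W : Set (Fin 2 → ℝ)) (hW : IsOpen W)
    (σ : (Fin 2 → ℝ) → (Fin 3 ⊕ Fin 2 → ℝ)) (hσ : DifferentiableOn ℝ σ W)
    (h1 : ∀ w ∈ W, σ w ∘ Sum.inr = w ∧ ∀ a, eval (σ w) (eB b1 b2 a) = 0)
    (f : MvPolynomial (Fin 3 ⊕ Fin 2) ℝ) (w : Fin 2 → ℝ) (hw : w ∈ W) :
    HasFDerivAt (fun w => eval (σ w) f)
      (∑ j, (eval (σ w) (derB b1 b2 j f)) • (ContinuousLinearMap.proj j : (Fin 2 → ℝ) →L[ℝ] ℝ)) w := by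
  have hD : HasFDerivAt σ (fderiv ℝ σ w) w := (hσ.differentiableAt (hW.mem_nhds hw)).hasFDerivAt
  set D := fderiv ℝ σ w with hDdef
  have hev : ∀ᶠ w' in nhds w, w' ∈ W := hW.mem_nhds hw
  -- the last two components
  have hr : ∀ (i : Fin 2) (u : Fin 2 → ℝ), (D u) (Sum.inr i) = u i := by
    intro i u
    have h2 : HasFDerivAt (fun w' => σ w' (Sum.inr i))
        ((ContinuousLinearMap.proj (Sum.inr i) : (Fin 3 ⊕ Fin 2 → ℝ) →L[ℝ] ℝ).comp D) w :=
      (ContinuousLinearMap.proj (Sum.inr i) : (Fin 3 ⊕ Fin 2 → ℝ) →L[ℝ] ℝ).hasFDerivAt.comp w hD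
    have h3 : HasFDerivAt (fun w' => σ w' (Sum.inr i))
        (ContinuousLinearMap.proj i : (Fin 2 → ℝ) →L[ℝ] ℝ) w := by
      refine ((ContinuousLinearMap.proj i : (Fin 2 → ℝ) →L[ℝ] ℝ).hasFDerivAt (x := w)).congr_of_eventuallyEq ?_
      filter_upwards [hev] with w' hw'
      exact congrFun (h1 w' hw').1 i
    have h4 := congrArg (fun L : (Fin 2 → ℝ) →L[ℝ] ℝ => L u) (h2.unique h3)
    exact h4
  -- the two equations
  have hb : ∀ b : MvPolynomial (Fin 4) ℝ, (∀ w' ∈ W, eval (σ w') (rename sw b) = 0) →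
      ∀ u : Fin 2 → ℝ, eval (σ w ∘ sw) (pderiv 0 b) * u 0 + eval (σ w ∘ sw) (pderiv 1 b) * u 1
        + eval (σ w ∘ sw) (pderiv 2 b) * (D u) (Sum.inl 0)
        + eval (σ w ∘ sw) (pderiv 3 b) * (D u) (Sum.inl 1) = 0 := by
    intro b hb0 u
    have h2 := DerS_chain hD b
    have h3 : HasFDerivAt (fun w' => eval (σ w') (rename sw b)) (0 : (Fin 2 → ℝ) →L[ℝ] ℝ) w := by
      refine (hasFDerivAt_const (0 : ℝ) w).congr_of_eventuallyEq ?_
      filter_upwards [hev] with w' hw'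
      exact hb0 w' hw'
    have h4 := congrArg (fun L : (Fin 2 → ℝ) →L[ℝ] ℝ => L u) (h2.unique h3)
    have h5 := DerS_apply (w := w) (σ := σ) (D := D) b u
    rw [hr, hr] at h5
    rw [← h5]
    exact h4
  have e1 := hb b1 fun w' hw' => (h1 w' hw').2 0
  have e2 := hb b2 fun w' hw' => (h1 w' hw').2 1
  -- the third equation
  have h0 : eval (σ w) (X (Sum.inl 2) * rename sw (jzw b1 b2) - 1) = 0 := (h1 w hw).2 2
  have hτ : σ w (Sum.inl 2) * eval (σ w ∘ sw) (jzw b1 b2) = 1 := by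
    rw [map_sub, map_mul, eval_X, eval_rename, map_one] at h0
    linarith
  have e3 : ∀ u : Fin 2 → ℝ, (D u) (Sum.inl 2) * eval (σ w ∘ sw) (jzw b1 b2) +
      σ w (Sum.inl 2) * (eval (σ w ∘ sw) (pderiv 0 (jzw b1 b2)) * u 0 +
        eval (σ w ∘ sw) (pderiv 1 (jzw b1 b2)) * u 1
        + eval (σ w ∘ sw) (pderiv 2 (jzw b1 b2)) * (D u) (Sum.inl 0)
        + eval (σ w ∘ sw) (pderiv 3 (jzw b1 b2)) * (D u) (Sum.inl 1)) = 0 := by
    intro u
    have h2 : HasFDerivAt (fun w' => σ w' (Sum.inl 2))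
        ((ContinuousLinearMap.proj (Sum.inl 2) : (Fin 3 ⊕ Fin 2 → ℝ) →L[ℝ] ℝ).comp D) w :=
      (ContinuousLinearMap.proj (Sum.inl 2) : (Fin 3 ⊕ Fin 2 → ℝ) →L[ℝ] ℝ).hasFDerivAt.comp w hD
    have h3 := h2.mul (DerS_chain hD (jzw b1 b2))
    have h4 : HasFDerivAt (fun w' => σ w' (Sum.inl 2) * eval (σ w') (rename sw (jzw b1 b2)))
        (0 : (Fin 2 → ℝ) →L[ℝ] ℝ) w := by
      refine (hasFDerivAt_const (1 : ℝ) w).congr_of_eventuallyEq ?_
      filter_upwards [hev] with w' hw'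
      have h5 : eval (σ w') (X (Sum.inl 2) * rename sw (jzw b1 b2) - 1) = 0 := (h1 w' hw').2 2
      rw [map_sub, map_mul, eval_X, map_one] at h5
      linarith
    have h5 := congrArg (fun L : (Fin 2 → ℝ) →L[ℝ] ℝ => L u) (h3.unique h4)
    have h6 := DerS_apply (w := w) (σ := σ) (D := D) (jzw b1 b2) u
    rw [hr, hr] at h6
    have h7 : σ w (Sum.inl 2) * ((∑ k, eval (σ w ∘ sw) (pderiv k (jzw b1 b2)) •
        (ContinuousLinearMap.proj k : (Fin 4 → ℝ) →L[ℝ] ℝ)).comp (DerS_pb.comp D)) u +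
        eval (σ w) (rename sw (jzw b1 b2)) * (D u) (Sum.inl 2) = 0 := h5
    rw [h6, eval_rename] at h7
    linarith
  -- the derivatives of the components
  have hμ : eval (σ w ∘ sw) (jzw b1 b2) = eval (σ w ∘ sw) (pderiv 2 b1) * eval (σ w ∘ sw) (pderiv 3 b2)
      - eval (σ w ∘ sw) (pderiv 3 b1) * eval (σ w ∘ sw) (pderiv 2 b2) := by
    simp only [jzw, map_sub, map_mul]
  have c0 : (Fin.castLE (by omega : 2 ≤ 4) (0 : Fin 2)) = (0 : Fin 4) := rfl
  have c1 : (Fin.castLE (by omega : 2 ≤ 4) (1 : Fin 2)) = (1 : Fin 4) := rfl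
  have dX : ∀ (j : Fin 2) (i : Fin 3 ⊕ Fin 2), derB b1 b2 j (X i) =
      Sum.elim (![dz b1 b2 j, dw b1 b2 j, dt b1 b2 j]) (fun i => if i = j then 1 else 0) i :=
    fun j i => mkDerivation_X _ _ _
  have hz : ∀ u : Fin 2 → ℝ, (D u) (Sum.inl 0) = ∑ j, eval (σ w) (dz b1 b2 j) * u j := by
    intro u
    have a1 := e1 u
    have a2 := e2 u
    rw [Fin.sum_univ_two]
    simp only [dz, map_mul, eval_X, eval_rename, map_sub, c0, c1]
    rw [hμ] at hτ
    linear_combination (-(D u) (Sum.inl 0)) * hτ +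
      σ w (Sum.inl 2) * eval (σ w ∘ sw) (pderiv 3 b2) * a1 -
      σ w (Sum.inl 2) * eval (σ w ∘ sw) (pderiv 3 b1) * a2
  have hw' : ∀ u : Fin 2 → ℝ, (D u) (Sum.inl 1) = ∑ j, eval (σ w) (dw b1 b2 j) * u j := by
    intro u
    have a1 := e1 u
    have a2 := e2 u
    rw [Fin.sum_univ_two]
    simp only [dw, map_mul, eval_X, eval_rename, map_sub, c0, c1]
    rw [hμ] at hτ
    linear_combination (-(D u) (Sum.inl 1)) * hτ -
      σ w (Sum.inl 2) * eval (σ w ∘ sw) (pderiv 2 b2) * a1 +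
      σ w (Sum.inl 2) * eval (σ w ∘ sw) (pderiv 2 b1) * a2
  have ht : ∀ u : Fin 2 → ℝ, (D u) (Sum.inl 2) = ∑ j, eval (σ w) (dt b1 b2 j) * u j := by
    intro u
    have a3 := e3 u
    have a1 := hz u
    have a2 := hw' u
    rw [Fin.sum_univ_two] at a1 a2
    rw [Fin.sum_univ_two]
    simp only [dt, map_mul, map_neg, map_pow, map_add, eval_X, eval_rename, c0, c1]
    rw [a1, a2] at a3
    linear_combination (-(D u) (Sum.inl 2)) * hτ + σ w (Sum.inl 2) * a3
  have hall : ∀ (i : Fin 3 ⊕ Fin 2) (u : Fin 2 → ℝ), (D u) i = ∑ j, eval (σ w) (derB b1 b2 j (X i)) * u j := by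
    intro i u
    simp only [dX]
    rcases i with i | i
    · fin_cases i
      · exact hz u
      · exact hw' u
      · exact ht u
    · rw [hr]
      simp only [Sum.elim_inr]
      rw [Finset.sum_eq_single i]
      · rw [if_pos rfl, map_one, one_mul]
      · intro j _ hj
        rw [if_neg (Ne.symm hj), map_zero, zero_mul]
      · intro h
        exact absurd (Finset.mem_univ i) h
  have hf : HasFDerivAt (fun w' => eval (σ w') f)
      ((∑ i, eval (σ w) (pderiv i f) •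
        (ContinuousLinearMap.proj i : (Fin 3 ⊕ Fin 2 → ℝ) →L[ℝ] ℝ)).comp D) w :=
    (HDI.hasStrictFDerivAt_eval f (σ w)).hasFDerivAt.comp w hD
  have he : ((∑ i, eval (σ w) (pderiv i f) •
        (ContinuousLinearMap.proj i : (Fin 3 ⊕ Fin 2 → ℝ) →L[ℝ] ℝ)).comp D) =
      (∑ j, (eval (σ w) (derB b1 b2 j f)) • (ContinuousLinearMap.proj j : (Fin 2 → ℝ) →L[ℝ] ℝ)) := by
    apply ContinuousLinearMap.ext
    intro u
    rw [ContinuousLinearMap.comp_apply, _root_.sum_apply, _root_.sum_apply]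
    show ∑ i, eval (σ w) (pderiv i f) * (D u) i = ∑ j, eval (σ w) (derB b1 b2 j f) * u j
    simp only [DerS_sum (derB b1 b2 _) (σ w) f, hall, Finset.sum_mul, Finset.mul_sum]
    rw [Finset.sum_comm]
    exact Finset.sum_congr rfl fun j _ => Finset.sum_congr rfl fun i _ => by ring
  rw [he] at hf
  exact hf

end D4Q
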