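import Mathlib
import Pool.Agent.D4Q.JD
import Pool.Agent.HDI.Bord

/-!
# D4Q-EBt: the surfaces are étale

`mu (eB b1 b2)` equals `μ ^ 2` (`μ = jzw b1 b2`), and at the points of `{eB = 0}` it is nonzero because `τ μ = 1`. `SB` is closed (`F` closed) and its complement in `{eB = 0}` is closed by the local condition (at all points `τ μ = 1` gives `μ ≠ 0`). Degrees: `C, C, 2 C + 1`.
-/

namespace D4Q

open MvPolynomial

private theorem sw_inj : Function.Injective sw := by
  intro i j h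
  fin_cases i <;> fin_cases j <;> simp [sw] at h ⊢

private theorem sw_ne (i : Fin 4) : sw i ≠ Sum.inl 2 := by
  fin_cases i <;> simp [sw]

private theorem pd_sw (i : Fin 4) (p : MvPolynomial (Fin 4) ℝ) :
    pderiv (sw i) (rename sw p) = rename sw (pderiv i p) := pderiv_rename sw_inj i p

private theorem pd0 (p : MvPolynomial (Fin 4) ℝ) :
    pderiv (Sum.inl 0) (rename sw p) = rename sw (pderiv 2 p) := pd_sw 2 p

private theorem pd1 (p : MvPolynomial (Fin 4) ℝ) :
    pderiv (Sum.inl 1) (rename sw p) = rename sw (pderiv 3 p) := pd_sw 3 p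

private theorem pd2 (p : MvPolynomial (Fin 4) ℝ) :
    pderiv (Sum.inl 2) (rename sw p) = 0 := by
  classical
  refine pderiv_eq_zero_of_notMem_vars fun h => ?_
  have h2 := vars_rename sw p h
  obtain ⟨i, _, hi⟩ := Finset.mem_image.1 h2
  exact sw_ne i hi

private theorem mu_eB (b1 b2 : MvPolynomial (Fin 4) ℝ) :
    HDI.mu (eB b1 b2) = rename sw (jzw b1 b2) ^ 2 := by
  unfold HDI.mu
  rw [Matrix.det_fin_three]
  simp only [Matrix.of_apply, eB, Matrix.cons_val_zero, Matrix.cons_val_one, Matrix.cons_val_two,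
    Matrix.head_cons, Matrix.tail_cons, pd0, pd1, pd2]
  have h1 : pderiv (Sum.inl 2) (X (Sum.inl 2) * rename sw (jzw b1 b2) - 1 :
      MvPolynomial (Fin 3 ⊕ Fin 2) ℝ) = rename sw (jzw b1 b2) := by
    rw [map_sub, Derivation.leibniz, pd2, pderiv_X_self, smul_zero, zero_add, smul_eq_mul, mul_one,
      pderiv_one, sub_zero]
  rw [h1]
  have h2 : rename sw (jzw b1 b2) = rename sw (pderiv 2 b1) * rename sw (pderiv 3 b2) -
      rename sw (pderiv 3 b1) * rename sw (pderiv 2 b2) := by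
    unfold jzw
    rw [map_sub, map_mul, map_mul]
  linear_combination (-rename sw (jzw b1 b2)) * h2

private theorem jzw_deg {C : ℕ} {b1 b2 : MvPolynomial (Fin 4) ℝ} (h1 : b1.totalDegree ≤ C)
    (h2 : b2.totalDegree ≤ C) : (jzw b1 b2).totalDegree ≤ 2 * C := by
  have hp : ∀ (i : Fin 4) (p : MvPolynomial (Fin 4) ℝ), p.totalDegree ≤ C →
      (pderiv i p).totalDegree ≤ C := fun i p hp => (HDI.totalDegree_pderiv_le' i p).trans (by omega)
  unfold jzw
  refine (totalDegree_sub _ _).trans (max_le ?_ ?_)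
  · refine (totalDegree_mul _ _).trans ?_
    have := hp 2 b1 h1
    have := hp 3 b2 h2
    omega
  · refine (totalDegree_mul _ _).trans ?_
    have := hp 3 b1 h1
    have := hp 2 b2 h2
    omega

private theorem cont_sw : Continuous fun t : Fin 3 ⊕ Fin 2 → ℝ => t ∘ sw :=
  continuous_pi fun i => continuous_apply (sw i)

private theorem closed_E (b1 b2 : MvPolynomial (Fin 4) ℝ) :
    IsClosed {s : Fin 3 ⊕ Fin 2 → ℝ | ∀ a, eval s (eB b1 b2 a) = 0} := by
  rw [Set.ofPred_forall]
  exact isClosed_iInter fun a => isClosed_eq (MvPolynomial.continuous_eval _) continuous_const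

theorem eB_isEt (C : ℕ) : ∃ K : ℕ, ∀ (b1 b2 : MvPolynomial (Fin 4) ℝ) (F : Set (Fin 4 → ℝ)),
    b1.totalDegree ≤ C → b2.totalDegree ≤ C → IsClosed F →
    (∀ x ∈ F, eval x b1 = 0 ∧ eval x b2 = 0 ∧ (eval x (jzw b1 b2) ≠ 0 →
      ∃ U ∈ nhds x, ∀ y ∈ U, eval y b1 = 0 → eval y b2 = 0 → y ∈ F)) →
    IsEt K (eB b1 b2) (SB b1 b2 F) := by
  refine ⟨2 * C + 1, fun b1 b2 F h1 h2 hF hloc => ?_⟩
  have hE := closed_E b1 b2
  have hs : ∀ (t : Fin 3 ⊕ Fin 2 → ℝ), (∀ a, eval t (eB b1 b2 a) = 0) →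
      eval (t ∘ sw) b1 = 0 ∧ eval (t ∘ sw) b2 = 0 ∧ t (Sum.inl 2) * eval (t ∘ sw) (jzw b1 b2) = 1 := by
    intro t ht
    refine ⟨?_, ?_, ?_⟩
    · have h := ht 0
      rw [← eval_rename]
      exact h
    · have h := ht 1
      rw [← eval_rename]
      exact h
    · have h : eval t (X (Sum.inl 2) * rename sw (jzw b1 b2) - 1) = 0 := ht 2
      rw [map_sub, map_mul, eval_X, eval_rename, map_one, sub_eq_zero] at h
      exact h
  refine ⟨?_, fun s hs' => hs'.2, ?_, ?_, ?_⟩
  · intro a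
    fin_cases a
    · show (rename sw b1).totalDegree ≤ _
      exact (totalDegree_rename_le _ _).trans (by omega)
    · show (rename sw b2).totalDegree ≤ _
      exact (totalDegree_rename_le _ _).trans (by omega)
    · show (X (Sum.inl 2) * rename sw (jzw b1 b2) - 1 : MvPolynomial (Fin 3 ⊕ Fin 2) ℝ).totalDegree ≤ _
      refine (totalDegree_sub _ _).trans (max_le ?_ ?_)
      · refine (totalDegree_mul _ _).trans ?_
        have h3 := (totalDegree_rename_le sw (jzw b1 b2)).trans (jzw_deg h1 h2)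
        rw [totalDegree_X]
        omega
      · rw [totalDegree_one]
        omega
  · intro s hs'
    rw [mu_eB, map_pow, eval_rename]
    have h := (hs s hs').2.2
    refine pow_ne_zero 2 fun h0 => ?_
    rw [h0, mul_zero] at h
    exact zero_ne_one h
  · have h3 : SB b1 b2 F = (fun t : Fin 3 ⊕ Fin 2 → ℝ => t ∘ sw) ⁻¹' F ∩
        {s | ∀ a, eval s (eB b1 b2 a) = 0} := rfl
    rw [h3]
    exact (hF.preimage cont_sw).inter hE
  · rw [← isOpen_compl_iff, isOpen_iff_mem_nhds]
    intro s hsn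
    by_cases hsE : s ∈ {s | ∀ a, eval s (eB b1 b2 a) = 0}
    · have hsS : s ∈ SB b1 b2 F := by
        by_contra hc
        exact hsn ⟨hsE, hc⟩
      have h := (hs s hsE).2.2
      obtain ⟨_, _, h5⟩ := hloc (s ∘ sw) hsS.1
      obtain ⟨U, hU, hUF⟩ := h5 (fun h0 => by
        rw [h0, mul_zero] at h
        exact zero_ne_one h)
      have hV : (fun t : Fin 3 ⊕ Fin 2 → ℝ => t ∘ sw) ⁻¹' U ∈ nhds s :=
        cont_sw.continuousAt.preimage_mem_nhds hU
      filter_upwards [hV] with t ht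
      rintro ⟨htE, htS⟩
      have h6 := hs t htE
      exact htS ⟨hUF (t ∘ sw) ht h6.1 h6.2.1, htE⟩
    · filter_upwards [hE.isOpen_compl.mem_nhds hsE] with t ht
      exact fun htn => ht htn.1

end D4Q
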