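import Mathlib
import Pool.Agent.D4Q.Defs
import Pool.Agent.HDI.Base

/-!
# D4Q-FIN_gen: generic coordinates

`gen`: for finitely many nonzero vectors `z` and finitely many pairs `(u, v)` of linearly independent
vectors there is an invertible matrix `M` such that the first coordinate of `M z` is not zero and the
rows `0`, `1` of `M` and `u`, `v` are linearly independent. (The product of finitely many nonzero
polynomials in the entries of `M` is a nonzero polynomial.)
-/

namespace D4Q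

open MvPolynomial

/-- evaluation at the entries of a matrix -/
private noncomputable def evM (M : Matrix (Fin 4) (Fin 4) ℝ) : MvPolynomial (Fin 4 × Fin 4) ℝ →+* ℝ :=
  eval fun p => M p.1 p.2

private theorem common_root {ι : Type*} (T : Finset ι) (q : ι → MvPolynomial (Fin 4 × Fin 4) ℝ)
    (hq : ∀ t ∈ T, ∃ M, evM M (q t) ≠ 0) : ∃ M, ∀ t ∈ T, evM M (q t) ≠ 0 := by
  have h1 : (∏ t ∈ T, q t) ≠ 0 := by
    rw [Finset.prod_ne_zero_iff]
    intro t ht h0
    obtain ⟨M, hM⟩ := hq t ht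
    rw [h0, map_zero] at hM
    exact hM rfl
  obtain ⟨x, hx⟩ : ∃ x : Fin 4 × Fin 4 → ℝ, eval x (∏ t ∈ T, q t) ≠ 0 := by
    by_contra hc
    push Not at hc
    exact h1 (MvPolynomial.funext fun x => by rw [hc x, map_zero])
  refine ⟨Matrix.of fun i j => x (i, j), fun t ht h0 => hx ?_⟩
  rw [map_prod]
  refine Finset.prod_eq_zero ht ?_
  have h2 : (fun p : Fin 4 × Fin 4 => (Matrix.of fun i j => x (i, j)) p.1 p.2) = x := rfl
  rw [evM, h2] at h0
  exact h0

private theorem exists_rows {u v : Fin 4 → ℝ} (h : LinearIndependent ℝ ![u, v]) :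
    ∃ a b : Fin 4 → ℝ, (Matrix.of ![a, b, u, v]).det ≠ 0 := by
  by_contra hc
  push Not at hc
  have key : ∀ i j, u i * v j = u j * v i := by
    have d : ∀ a b : Fin 4 → ℝ, (Matrix.of ![a, b, u, v]).det =
        (a 0 * b 1 - a 1 * b 0) * (u 2 * v 3 - u 3 * v 2) -
        (a 0 * b 2 - a 2 * b 0) * (u 1 * v 3 - u 3 * v 1) +
        (a 0 * b 3 - a 3 * b 0) * (u 1 * v 2 - u 2 * v 1) +
        (a 1 * b 2 - a 2 * b 1) * (u 0 * v 3 - u 3 * v 0) -
        (a 1 * b 3 - a 3 * b 1) * (u 0 * v 2 - u 2 * v 0) +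
        (a 2 * b 3 - a 3 * b 2) * (u 0 * v 1 - u 1 * v 0) := by
      intro a b
      have e1 : (Fin.succAbove (0 : Fin 4) : Fin 3 → Fin 4) = ![1,2,3] := by decide
      have e2 : (Fin.succAbove (1 : Fin 4) : Fin 3 → Fin 4) = ![0,2,3] := by decide
      have e3 : (Fin.succAbove (2 : Fin 4) : Fin 3 → Fin 4) = ![0,1,3] := by decide
      have e4 : (Fin.succAbove (3 : Fin 4) : Fin 3 → Fin 4) = ![0,1,2] := by decide
      rw [Matrix.det_succ_row_zero, Fin.sum_univ_four, e1, e2, e3, e4]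
      simp only [Matrix.det_fin_three, Matrix.submatrix_apply, Matrix.of_apply, Fin.val_zero,
        Fin.val_one, Fin.val_two]
      simp
      ring
    have h01 := hc ![0, 0, 1, 0] ![0, 0, 0, 1]
    have h02 := hc ![0, 1, 0, 0] ![0, 0, 0, 1]
    have h03 := hc ![0, 1, 0, 0] ![0, 0, 1, 0]
    have h12 := hc ![1, 0, 0, 0] ![0, 0, 0, 1]
    have h13 := hc ![1, 0, 0, 0] ![0, 0, 1, 0]
    have h23 := hc ![1, 0, 0, 0] ![0, 1, 0, 0]
    rw [d] at h01 h02 h03 h12 h13 h23
    simp at h01 h02 h03 h12 h13 h23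
    intro i j
    fin_cases i <;> fin_cases j <;> simp <;> linarith
  rw [LinearIndependent.pair_iff] at h
  have h0 : u = 0 := by
    funext i
    have h2 := (h (v i) (-(u i)) ?_).2
    · simpa using h2
    · funext j
      have := key i j
      simp only [Pi.add_apply, Pi.smul_apply, smul_eq_mul, Pi.zero_apply]
      linarith
  have h3 := (h 1 0 (by rw [h0]; simp)).1
  exact one_ne_zero h3

theorem gen (Z : Finset (Fin 4 → ℝ)) (hZ : ∀ z ∈ Z, z ≠ 0)
    (T : Finset ((Fin 4 → ℝ) × (Fin 4 → ℝ))) (hT : ∀ t ∈ T, LinearIndependent ℝ ![t.1, t.2]) :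
    ∃ M : Matrix (Fin 4) (Fin 4) ℝ, M.det ≠ 0 ∧ (∀ z ∈ Z, (M.mulVec z) 0 ≠ 0) ∧
      ∀ t ∈ T, (Matrix.of ![M 0, M 1, t.1, t.2]).det ≠ 0 := by
  classical
  -- the three kinds of polynomials
  let pd : MvPolynomial (Fin 4 × Fin 4) ℝ := (Matrix.of fun i j => X (i, j)).det
  let pz : (Fin 4 → ℝ) → MvPolynomial (Fin 4 × Fin 4) ℝ := fun z => ∑ j, X (0, j) * C (z j)
  let pt : (Fin 4 → ℝ) × (Fin 4 → ℝ) → MvPolynomial (Fin 4 × Fin 4) ℝ := fun t =>
    (Matrix.of ![fun j => X (0, j), fun j => X (1, j), fun j => C (t.1 j), fun j => C (t.2 j)]).det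
  have ed : ∀ M, evM M pd = M.det := by
    intro M
    rw [RingHom.map_det]
    congr 1
    ext i j
    simp [evM]
  have ez : ∀ M z, evM M (pz z) = (M.mulVec z) 0 := by
    intro M z
    simp [pz, evM, Matrix.mulVec, dotProduct]
  have et : ∀ M t, evM M (pt t) = (Matrix.of ![M 0, M 1, t.1, t.2]).det := by
    intro M t
    rw [RingHom.map_det]
    congr 1
    ext i j
    fin_cases i <;> simp [evM]
  obtain ⟨M, hM⟩ := common_root (Finset.univ : Finset (Unit ⊕ (Z ⊕ T)))
    (Sum.elim (fun _ => pd) (Sum.elim (fun z => pz z.1) (fun t => pt t.1))) (by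
      rintro (_ | z | t) -
      · exact ⟨1, by
          show evM 1 pd ≠ 0
          rw [ed, Matrix.det_one]; exact one_ne_zero⟩
      · obtain ⟨j, hj⟩ : ∃ j, z.1 j ≠ 0 := by
          by_contra hc
          push Not at hc
          exact hZ z.1 z.2 (funext hc)
        refine ⟨Matrix.of fun i k => if k = j then 1 else 0, ?_⟩
        show evM _ (pz z.1) ≠ 0
        rw [ez]
        simpa [Matrix.mulVec, dotProduct] using hj
      · obtain ⟨a, b, hab⟩ := exists_rows (hT t.1 t.2)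
        refine ⟨Matrix.of ![a, b, 0, 0], ?_⟩
        show evM _ (pt t.1) ≠ 0
        rw [et]
        exact hab)
  refine ⟨M, ?_, ?_, ?_⟩
  · rw [← ed]
    exact hM (Sum.inl ()) (Finset.mem_univ _)
  · intro z hz
    rw [← ez]
    exact hM (Sum.inr (Sum.inl ⟨z, hz⟩)) (Finset.mem_univ _)
  · intro t ht
    rw [← et]
    exact hM (Sum.inr (Sum.inr ⟨t, ht⟩)) (Finset.mem_univ _)

end D4Q
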