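import Mathlib
import Pool.Agent.D4Q.Defs
import Pool.Agent.HDI.Base
import Pool.Agent.D4Q.FIN_gen

/-!
# D4Q-FIN_loc: two equations of a surface define it near a point

`local0`: if near `x` the set `f = g = 0` is contained in `S`, the polynomials `b, b'` vanish on `S` and both pairs of
gradients are linearly independent at `x`, then near `x` the set `b = b' = 0` is contained in `S`: `gen` gives linear
forms `m, n` such that `(m, n, f, g)` and `(m, n, b, b')` are local homeomorphisms at `x`. If `y` is near `x` and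
`b y = b' y = 0`, there is `y'` near `x` with `(m, n, f, g) y' = (m y, n y, 0, 0)`; so `y' ∈ S` and
`(m, n, b, b') y' = (m, n, b, b') y`, so `y = y'`.
-/

namespace D4Q

open MvPolynomial Topology

private theorem inv_fun {n : ℕ} (h : Fin n → MvPolynomial (Fin n) ℝ) (x : Fin n → ℝ)
    (hj : (HDI.jac h x).det ≠ 0) :
    (∃ s ∈ 𝓝 x, Set.InjOn (fun (y : Fin n → ℝ) (i : Fin n) => eval y (h i)) s) ∧
    Filter.map (fun (y : Fin n → ℝ) (i : Fin n) => eval y (h i)) (𝓝 x) =
      𝓝 (fun i => eval x (h i)) := by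
  have h1 : HasStrictFDerivAt (fun (y : Fin n → ℝ) (i : Fin n) => eval y (h i))
      (ContinuousLinearMap.pi fun i => ∑ j, eval x (pderiv j (h i)) •
        (ContinuousLinearMap.proj j : (Fin n → ℝ) →L[ℝ] ℝ)) x :=
    hasStrictFDerivAt_pi.2 fun i => HDI.hasStrictFDerivAt_eval (h i) x
  set L : (Fin n → ℝ) →L[ℝ] (Fin n → ℝ) :=
    ContinuousLinearMap.pi fun i => ∑ j, eval x (pderiv j (h i)) •
        (ContinuousLinearMap.proj j : (Fin n → ℝ) →L[ℝ] ℝ) with hL
  have h2 : (L : (Fin n → ℝ) →ₗ[ℝ] (Fin n → ℝ)) = Matrix.toLin' (HDI.jac h x) := by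
    refine LinearMap.ext fun v => ?_
    funext i
    simp [hL, HDI.jac, Matrix.toLin'_apply, Matrix.mulVec, dotProduct]
  have h3 : L.det ≠ 0 := by
    show LinearMap.det (L : (Fin n → ℝ) →ₗ[ℝ] (Fin n → ℝ)) ≠ 0
    rw [h2, LinearMap.det_toLin']
    exact hj
  have h4 : HasStrictFDerivAt (fun (y : Fin n → ℝ) (i : Fin n) => eval y (h i))
      ((L.toContinuousLinearEquivOfDetNeZero h3 : (Fin n → ℝ) ≃L[ℝ] (Fin n → ℝ)) :
        (Fin n → ℝ) →L[ℝ] (Fin n → ℝ)) x := by
    rw [ContinuousLinearMap.coe_toContinuousLinearEquivOfDetNeZero]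
    exact h1
  refine ⟨⟨(h4.toOpenPartialHomeomorph _).source, ?_, ?_⟩, h4.map_nhds_eq_of_equiv⟩
  · exact (h4.toOpenPartialHomeomorph _).open_source.mem_nhds h4.mem_toOpenPartialHomeomorph_source
  · exact (h4.toOpenPartialHomeomorph _).injOn

private noncomputable def lin (c : Fin 4 → ℝ) : MvPolynomial (Fin 4) ℝ := ∑ j, C (c j) * X j

private theorem eval_lin (c y : Fin 4 → ℝ) : eval y (lin c) = ∑ j, c j * y j := by
  simp [lin]

private theorem grad_lin (c y : Fin 4 → ℝ) (j : Fin 4) : eval y (pderiv j (lin c)) = c j := by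
  classical
  simp only [lin, map_sum, pderiv_C_mul, pderiv_X, Pi.single_apply, mul_ite, mul_one, mul_zero,
    apply_ite (eval y), eval_C, map_zero]
  simp

theorem local0 {S : Set (Fin 4 → ℝ)} {x : Fin 4 → ℝ} {f g b b' : MvPolynomial (Fin 4) ℝ}
    (hf : eval x f = 0) (hg : eval x g = 0) (U : Set (Fin 4 → ℝ)) (hU : U ∈ 𝓝 x)
    (hS : ∀ y ∈ U, eval y f = 0 → eval y g = 0 → y ∈ S)
    (hb : ∀ y ∈ S, eval y b = 0 ∧ eval y b' = 0)
    (h1 : LinearIndependent ℝ ![HDI.grad x f, HDI.grad x g])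
    (h2 : LinearIndependent ℝ ![HDI.grad x b, HDI.grad x b']) :
    ∃ V ∈ 𝓝 x, ∀ y ∈ V, eval y b = 0 → eval y b' = 0 → y ∈ S := by
  classical
  obtain ⟨M, -, -, hM⟩ := gen ∅ (fun z hz => absurd hz (Finset.notMem_empty z))
    {(HDI.grad x f, HDI.grad x g), (HDI.grad x b, HDI.grad x b')} (by
      intro t ht
      rw [Finset.mem_insert, Finset.mem_singleton] at ht
      rcases ht with rfl | rfl
      · exact h1
      · exact h2)
  have hM1 := hM (HDI.grad x f, HDI.grad x g) (by simp)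
  have hM2 := hM (HDI.grad x b, HDI.grad x b') (by simp)
  have hj : ∀ u v : MvPolynomial (Fin 4) ℝ, HDI.jac ![lin (M 0), lin (M 1), u, v] x =
      Matrix.of ![M 0, M 1, HDI.grad x u, HDI.grad x v] := by
    intro u v
    ext i j
    fin_cases i <;> simp [HDI.jac, grad_lin, HDI.grad]
  obtain ⟨-, hm⟩ := inv_fun ![lin (M 0), lin (M 1), f, g] x (by rw [hj]; exact hM1)
  obtain ⟨⟨s, hs, hinj⟩, -⟩ := inv_fun ![lin (M 0), lin (M 1), b, b'] x (by rw [hj]; exact hM2)
  have h3 : (fun (y : Fin 4 → ℝ) (i : Fin 4) => eval y (![lin (M 0), lin (M 1), f, g] i)) '' (U ∩ s) ∈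
      𝓝 (fun i => eval x (![lin (M 0), lin (M 1), f, g] i)) := by
    rw [← hm]
    exact Filter.image_mem_map (Filter.inter_mem hU hs)
  have h4 : Filter.Tendsto (fun y : Fin 4 → ℝ =>
      (![eval y (lin (M 0)), eval y (lin (M 1)), 0, 0] : Fin 4 → ℝ)) (𝓝 x)
      (𝓝 (fun i => eval x (![lin (M 0), lin (M 1), f, g] i))) := by
    have h5 : (fun i => eval x (![lin (M 0), lin (M 1), f, g] i)) =
        (![eval x (lin (M 0)), eval x (lin (M 1)), 0, 0] : Fin 4 → ℝ) := by
      funext i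
      fin_cases i <;> simp [hf, hg]
    rw [h5]
    refine Continuous.tendsto ?_ x
    refine continuous_pi fun i => ?_
    fin_cases i
    · exact HDI.continuous_evalp _
    · exact HDI.continuous_evalp _
    · exact continuous_const
    · exact continuous_const
  refine ⟨s ∩ {y | (![eval y (lin (M 0)), eval y (lin (M 1)), 0, 0] : Fin 4 → ℝ) ∈
    (fun (y : Fin 4 → ℝ) (i : Fin 4) => eval y (![lin (M 0), lin (M 1), f, g] i)) '' (U ∩ s)},
    Filter.inter_mem hs (h4 h3), ?_⟩
  rintro y ⟨hys, y', ⟨hyU, hys'⟩, he⟩ hby hby'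
  have e0 := congrFun he 0
  have e1 := congrFun he 1
  have e2 := congrFun he 2
  have e3 := congrFun he 3
  simp only [Matrix.cons_val] at e0 e1 e2 e3
  have hyS : y' ∈ S := hS y' hyU e2 e3
  have h6 : y' = y := by
    refine hinj hys' hys ?_
    funext i
    fin_cases i
    · exact e0
    · exact e1
    · exact (hb y' hyS).1.trans hby.symm
    · exact (hb y' hyS).2.trans hby'.symm
  rw [← h6]
  exact hyS

end D4Q
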