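import Mathlib
import Pool.Agent.D4Q.Defs

/-!
# D4Q-FIN_sub: linear substitutions

`sub N b` is the polynomial `y ↦ b (N y)`.
-/

namespace D4Q

open MvPolynomial

/-- The polynomial `y ↦ b (N y)`. -/
noncomputable def sub (N : Matrix (Fin 4) (Fin 4) ℝ) (b : MvPolynomial (Fin 4) ℝ) :
    MvPolynomial (Fin 4) ℝ :=
  bind₁ (fun i => ∑ j, C (N i j) * X j) b

theorem eval_sub (N : Matrix (Fin 4) (Fin 4) ℝ) (b : MvPolynomial (Fin 4) ℝ) (y : Fin 4 → ℝ) :
    eval y (sub N b) = eval (N.mulVec y) b := by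
  induction b using MvPolynomial.induction_on with
  | C a => simp [sub]
  | add p q hp hq =>
    simp only [sub, map_add] at hp hq ⊢
    rw [hp, hq]
  | mul_X p i hp =>
    simp only [sub, map_mul, bind₁_X_right, eval_X] at hp ⊢
    rw [hp]
    simp [Matrix.mulVec, dotProduct]

private theorem deg_lin (N : Matrix (Fin 4) (Fin 4) ℝ) (i : Fin 4) :
    (∑ j, C (N i j) * X j : MvPolynomial (Fin 4) ℝ).totalDegree ≤ 1 := by
  refine (totalDegree_finset_sum _ _).trans (Finset.sup_le fun j _ => ?_)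
  refine (totalDegree_mul _ _).trans ?_
  rw [totalDegree_C, totalDegree_X]

theorem degree_sub (N : Matrix (Fin 4) (Fin 4) ℝ) (b : MvPolynomial (Fin 4) ℝ) :
    (sub N b).totalDegree ≤ b.totalDegree := by
  have h1 : sub N b = ∑ d ∈ b.support, C (coeff d b) *
      ∏ i ∈ d.support, (∑ j, C (N i j) * X j) ^ d i := by
    rw [sub, bind₁, aeval_def, eval₂_eq]
    rfl
  rw [h1]
  refine (totalDegree_finset_sum _ _).trans (Finset.sup_le fun d hd => ?_)
  refine (totalDegree_mul _ _).trans ?_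
  rw [totalDegree_C, zero_add]
  refine (totalDegree_finset_prod _ _).trans ?_
  refine le_trans ?_ (le_totalDegree hd)
  rw [Finsupp.sum]
  refine Finset.sum_le_sum fun i _ => ?_
  refine (totalDegree_pow _ _).trans ?_
  calc d i * _ ≤ d i * 1 := Nat.mul_le_mul_left _ (deg_lin N i)
    _ = d i := mul_one _

private theorem pderiv_lin (N : Matrix (Fin 4) (Fin 4) ℝ) (i j : Fin 4) :
    pderiv j (∑ l, C (N i l) * X l : MvPolynomial (Fin 4) ℝ) = C (N i j) := by
  classical
  simp only [map_sum, pderiv_C_mul, pderiv_X, Pi.single_apply, mul_ite, mul_one, mul_zero]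
  simp

theorem pderiv_sub (N : Matrix (Fin 4) (Fin 4) ℝ) (b : MvPolynomial (Fin 4) ℝ) (j : Fin 4) :
    pderiv j (sub N b) = ∑ i, sub N (pderiv i b) * C (N i j) := by
  classical
  induction b using MvPolynomial.induction_on with
  | C a => simp [sub]
  | add p q hp hq =>
    simp only [sub, map_add] at hp hq ⊢
    rw [hp, hq, ← Finset.sum_add_distrib]
    refine Finset.sum_congr rfl fun i _ => ?_
    ring
  | mul_X p l hp =>
    simp only [sub, map_mul, bind₁_X_right] at hp ⊢
    rw [pderiv_mul, hp, pderiv_lin]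
    have h1 : ∀ i, bind₁ (fun i => ∑ j, C (N i j) * X j) (pderiv i (p * X l)) * C (N i j) =
        (bind₁ (fun i => ∑ j, C (N i j) * X j) (pderiv i p) * C (N i j)) *
          (∑ j, C (N l j) * X j) +
        (if l = i then bind₁ (fun i => ∑ j, C (N i j) * X j) p * C (N i j) else 0) := by
      intro i
      rw [pderiv_mul, map_add, map_mul, map_mul, bind₁_X_right, pderiv_X, Pi.single_apply]
      by_cases h : l = i
      · rw [if_pos h, if_pos h, map_one]
        ring
      · rw [if_neg h, if_neg h, map_zero]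
        ring
    rw [Finset.sum_congr rfl fun i _ => h1 i, Finset.sum_add_distrib, ← Finset.sum_mul,
      Finset.sum_ite_eq, if_pos (Finset.mem_univ l)]

theorem grad_sub (N : Matrix (Fin 4) (Fin 4) ℝ) (b : MvPolynomial (Fin 4) ℝ) (y : Fin 4 → ℝ) :
    HDI.grad y (sub N b) = Matrix.vecMul (HDI.grad (N.mulVec y) b) N := by
  funext j
  simp only [HDI.grad, pderiv_sub, map_sum, map_mul, eval_sub, eval_C, Matrix.vecMul, dotProduct]

private theorem eval_jzw (f g : MvPolynomial (Fin 4) ℝ) (y : Fin 4 → ℝ) :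
    eval y (jzw f g) = HDI.grad y f 2 * HDI.grad y g 3 - HDI.grad y f 3 * HDI.grad y g 2 := by
  simp [jzw, HDI.grad]

theorem sub_jzw {M N : Matrix (Fin 4) (Fin 4) ℝ} (h : M * N = 1) (y : Fin 4 → ℝ)
    (b b' : MvPolynomial (Fin 4) ℝ) :
    eval y (jzw (sub N b) (sub N b')) =
      (Matrix.of ![M 0, M 1, HDI.grad (N.mulVec y) b, HDI.grad (N.mulVec y) b']).det * N.det := by
  rw [← Matrix.det_mul, eval_jzw, grad_sub, grad_sub]
  set u := HDI.grad (N.mulVec y) b
  set v := HDI.grad (N.mulVec y) b'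
  have h1 : Matrix.of ![M 0, M 1, u, v] * N =
      Matrix.of ![![1, 0, 0, 0], ![0, 1, 0, 0], Matrix.vecMul u N, Matrix.vecMul v N] := by
    ext i j
    have h2 : ∀ i, ∑ l, M i l * N l j = (1 : Matrix (Fin 4) (Fin 4) ℝ) i j := by
      intro i
      rw [← h, Matrix.mul_apply]
    rw [Matrix.mul_apply]
    fin_cases i
    · simp only [Fin.zero_eta, Matrix.of_apply, Matrix.cons_val]
      rw [h2 0, Matrix.one_apply]
      fin_cases j <;> simp
    · simp only [Fin.mk_one, Matrix.of_apply, Matrix.cons_val]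
      rw [h2 1, Matrix.one_apply]
      fin_cases j <;> simp
    · simp [Matrix.vecMul, dotProduct]
    · simp [Matrix.vecMul, dotProduct]
  rw [h1]
  have e1 : (Fin.succAbove (0 : Fin 4) : Fin 3 → Fin 4) = ![1,2,3] := by decide
  have e2 : (Fin.succAbove (1 : Fin 4) : Fin 3 → Fin 4) = ![0,2,3] := by decide
  have e3 : (Fin.succAbove (2 : Fin 4) : Fin 3 → Fin 4) = ![0,1,3] := by decide
  have e4 : (Fin.succAbove (3 : Fin 4) : Fin 3 → Fin 4) = ![0,1,2] := by decide
  rw [Matrix.det_succ_row_zero, Fin.sum_univ_four, e1, e2, e3, e4]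
  simp only [Matrix.det_fin_three, Matrix.submatrix_apply, Matrix.of_apply, Fin.val_zero,
    Fin.val_one, Fin.val_two]
  simp

theorem indep_of_jzw {N : Matrix (Fin 4) (Fin 4) ℝ} {y : Fin 4 → ℝ}
    {b b' : MvPolynomial (Fin 4) ℝ} (h : eval y (jzw (sub N b) (sub N b')) ≠ 0) :
    LinearIndependent ℝ ![HDI.grad (N.mulVec y) b, HDI.grad (N.mulVec y) b'] := by
  rw [LinearIndependent.pair_iff]
  intro s t hst
  have h1 : s • HDI.grad y (sub N b) + t • HDI.grad y (sub N b') = 0 := by
    rw [grad_sub, grad_sub, ← Matrix.smul_vecMul, ← Matrix.smul_vecMul, ← Matrix.add_vecMul, hst,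
      Matrix.zero_vecMul]
  have h2 := congrFun h1 2
  have h3 := congrFun h1 3
  simp only [Pi.add_apply, Pi.smul_apply, smul_eq_mul, Pi.zero_apply] at h2 h3
  rw [eval_jzw] at h
  constructor
  · have h4 : s * (HDI.grad y (sub N b) 2 * HDI.grad y (sub N b') 3 -
        HDI.grad y (sub N b) 3 * HDI.grad y (sub N b') 2) = 0 := by
      linear_combination HDI.grad y (sub N b') 3 * h2 - HDI.grad y (sub N b') 2 * h3
    exact (mul_eq_zero.1 h4).resolve_right h
  · have h4 : t * (HDI.grad y (sub N b) 2 * HDI.grad y (sub N b') 3 -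
        HDI.grad y (sub N b) 3 * HDI.grad y (sub N b') 2) = 0 := by
      linear_combination HDI.grad y (sub N b) 2 * h3 - HDI.grad y (sub N b) 3 * h2
    exact (mul_eq_zero.1 h4).resolve_right h

end D4Q
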