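import Mathlib
import Pool.Agent.D4Q.Defs

/-!
# D4Q-Frame: definitions for the framework theorem

Do not edit. `Lev h i p`: `i` is the first index with `h i p = 0`. `PD k A P t`: the polynomials of the levels `0` and `1` of the
partition for the point set `P` with the parameter `t` (`t = D0` in the header of Frame.lean).
-/

namespace D4Q

open MvPolynomial

/-- `i` is the first index with `h i p = 0`. -/
def Lev {q : ℕ} (h : Fin q → MvPolynomial (Fin 4) ℝ) (i : Fin q) (p : Fin 4 → ℝ) : Prop :=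
  eval p (h i) = 0 ∧ ∀ l < i, eval p (h l) ≠ 0

open scoped Classical in
/-- The partition data of the levels `0` and `1` for the point set `P`, with the parameter `t`. -/
structure PD (k A : ℕ) (P : Finset (Fin 4 → ℝ)) (t : ℝ) where
  J : ℕ
  f : Fin J → MvPolynomial (Fin 4) ℝ
  q : ℕ
  h : Fin q → MvPolynomial (Fin 4) ℝ
  J' : Fin q → ℕ
  f' : ∀ i, Fin (J' i) → MvPolynomial (Fin 4) ℝ
  degf : ((∑ j, (f j).totalDegree : ℕ) : ℝ) ≤ A * t
  cellf : ∑ σ : Fin J → Prop, (((P.filter fun p => (∀ j, eval p (f j) ≠ 0) ∧ sgn f p = σ).card : ℝ)) ^ k ≤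
    A * (P.card * ((P.card : ℝ) / t ^ 4) ^ (k - 1))
  irr : ∀ i, Irreducible (h i)
  zero : ∀ p, (∃ j, eval p (f j) = 0) → ∃ i, eval p (h i) = 0
  degh : ((∑ i, (h i).totalDegree : ℕ) : ℝ) ≤ A * t
  ndvd : ∀ i j, ¬ h i ∣ f' i j
  deg1 : ((∑ i, (h i).totalDegree * ∑ j, (f' i j).totalDegree : ℕ) : ℝ) ≤ A * t ^ 2
  deg3 : ((∑ i, (h i).totalDegree * (∑ j, (f' i j).totalDegree) ^ 3 : ℕ) : ℝ) ≤ A * t ^ 4
  cellh : ∑ i, ∑ σ : Fin (J' i) → Prop,
    (((P.filter fun p => Lev h i p ∧ (∀ j, eval p (f' i j) ≠ 0) ∧ sgn (f' i) p = σ).card : ℝ)) ^ k ≤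
    A * (P.card * ((P.card : ℝ) / t ^ 4) ^ (k - 1))

end D4Q
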