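import Mathlib
import Pool.Agent.D4Q.Defs

/-!
# D4Q-FrameA: composition with polynomial maps, signs on connected sets

PROOF. `eval_bind`: `MvPolynomial.eval₂Hom_bind₁` / `aeval_bind₁`. `totalDegree_bind`: monomial by monomial
(`MvPolynomial.as_sum`, `totalDegree_finset_prod`, `totalDegree_pow`). `sgn_comp`: on the preconnected set `connectedComponentIn H p`
the continuous function `t ↦ eval (ev ψ t) (f j)` has no zero, so it has a constant sign (intermediate value theorem, `IsPreconnected.intermediate_value`).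
`p ∈ H` may be assumed (otherwise the component is empty).
-/

namespace D4Q

open MvPolynomial

theorem eval_bind {ι κ : Type*} (ψ : κ → MvPolynomial ι ℝ) (f : MvPolynomial κ ℝ) (t : ι → ℝ) :
    eval t (bind₁ ψ f) = eval (ev ψ t) f := by
  have h : ((eval t).comp (bind₁ ψ).toRingHom) = eval (ev ψ t) := by
    refine MvPolynomial.ringHom_ext (fun r => ?_) (fun i => ?_)
    · simp
    · simp [ev]
  exact congrArg (fun φ : MvPolynomial κ ℝ →+* ℝ => φ f) h

theorem totalDegree_bind {ι κ : Type*} {K : ℕ} (ψ : κ → MvPolynomial ι ℝ) (hψ : ∀ i, (ψ i).totalDegree ≤ K)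
    (f : MvPolynomial κ ℝ) : (bind₁ ψ f).totalDegree ≤ K * f.totalDegree := by
  classical
  have h1 : bind₁ ψ f = ∑ m ∈ f.support, C (f.coeff m) * ∏ i ∈ m.support, ψ i ^ m i := by
    conv_lhs => rw [f.as_sum]
    rw [map_sum]
    refine Finset.sum_congr rfl fun m _ => ?_
    rw [bind₁_monomial]
  rw [h1]
  refine totalDegree_finsetSum_le fun m hm => ?_
  refine (totalDegree_mul _ _).trans ?_
  rw [totalDegree_C, zero_add]
  refine (totalDegree_finsetProd _ _).trans ?_
  calc ∑ i ∈ m.support, (ψ i ^ m i).totalDegree ≤ ∑ i ∈ m.support, K * m i := by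
        refine Finset.sum_le_sum fun i _ => (totalDegree_pow _ _).trans ?_
        rw [mul_comm]
        exact Nat.mul_le_mul_right _ (hψ i)
    _ = K * ∑ i ∈ m.support, m i := by rw [Finset.mul_sum]
    _ ≤ K * f.totalDegree := Nat.mul_le_mul_left _ (le_totalDegree hm)

theorem continuous_ev {ι κ : Type*} (ψ : κ → MvPolynomial ι ℝ) : Continuous (ev ψ) :=
  continuous_pi fun i => MvPolynomial.continuous_eval (ψ i)

theorem sgn_comp {ι : Type*} {J : ℕ} {H : Set (ι → ℝ)} (ψ : Fin 4 → MvPolynomial ι ℝ)
    (f : Fin J → MvPolynomial (Fin 4) ℝ) (hH : ∀ t ∈ H, ∀ j, eval (ev ψ t) (f j) ≠ 0) {p p' : ι → ℝ}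
    (h : p' ∈ connectedComponentIn H p) : sgn f (ev ψ p) = sgn f (ev ψ p') := by
  have hp : p ∈ H := by
    by_contra hp
    rw [connectedComponentIn_eq_empty hp] at h
    exact h
  have hc : IsPreconnected (connectedComponentIn H p) := isPreconnected_connectedComponentIn
  have hpc : p ∈ connectedComponentIn H p := mem_connectedComponentIn hp
  have key : ∀ a ∈ connectedComponentIn H p, ∀ b ∈ connectedComponentIn H p, ∀ j,
      0 < eval (ev ψ a) (f j) → 0 < eval (ev ψ b) (f j) := by
    intro a ha b hb j h0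
    by_contra h1
    have h2 : eval (ev ψ b) (f j) ≤ 0 := not_lt.1 h1
    have hcont : ContinuousOn (fun t => eval (ev ψ t) (f j)) (connectedComponentIn H p) :=
      ((MvPolynomial.continuous_eval (f j)).comp (continuous_ev ψ)).continuousOn
    have h3 := hc.intermediate_value hb ha hcont
    obtain ⟨t, ht, ht0⟩ := h3 ⟨h2, h0.le⟩
    exact hH t (connectedComponentIn_subset H p ht) j ht0
  funext j
  exact propext ⟨key p hpc p' h j, key p' h p hpc j⟩

end D4Q
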