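import Mathlib

/-!
# D4Q-PpN_Alg: interpolation in the plane

If no nonzero polynomial in two variables of degree at most `2 h` vanishes on the set `Z`, there are `(h + 1) ^ 2` points of `Z`
such that interpolation by polynomials of degree at most `2 h` is possible at these points and at all points close enough to them.
-/

namespace D4Q

open MvPolynomial

/-- The monomials `x ^ i y ^ j`. -/
private noncomputable def mo {h : ℕ} (i : Fin (h + 1) × Fin (h + 1)) : MvPolynomial (Fin 2) ℝ :=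
  monomial (Finsupp.single 0 (i.1 : ℕ) + Finsupp.single 1 (i.2 : ℕ)) 1

private theorem mo_deg {h : ℕ} (a : Fin (h + 1) × Fin (h + 1) → ℝ) :
    (∑ i, C (a i) * mo i).totalDegree ≤ 2 * h := by
  refine totalDegree_finsetSum_le fun i _ => ?_
  have h1 : C (a i) * mo i = monomial (Finsupp.single 0 (i.1 : ℕ) + Finsupp.single 1 (i.2 : ℕ)) (a i) := by
    unfold mo
    rw [C_mul_monomial, mul_one]
  rw [h1]
  refine (totalDegree_monomial_le _ _).trans ?_
  have h2 := i.1.isLt
  have h3 := i.2.isLt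
  rw [Finsupp.sum_add_index' (fun _ => rfl) (fun _ _ _ => rfl), Finsupp.sum_single_index rfl,
    Finsupp.sum_single_index rfl]
  simp only [id]
  omega

private theorem mo_inj {h : ℕ} (a : Fin (h + 1) × Fin (h + 1) → ℝ) (ha : ∑ i, C (a i) * mo i = 0) : a = 0 := by
  funext i
  have h1 := congrArg (coeff (Finsupp.single 0 (i.1 : ℕ) + Finsupp.single 1 (i.2 : ℕ))) ha
  rw [coeff_sum, coeff_zero] at h1
  rw [Finset.sum_eq_single i] at h1
  · unfold mo at h1
    rw [coeff_C_mul, coeff_monomial, if_pos rfl, mul_one] at h1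
    exact h1
  · intro j _ hj
    unfold mo
    rw [coeff_C_mul, coeff_monomial, if_neg, mul_zero]
    intro hE
    apply hj
    have h2 := DFunLike.congr_fun hE 0
    have h3 := DFunLike.congr_fun hE 1
    simp at h2 h3
    exact Prod.ext (Fin.ext h2) (Fin.ext h3)
  · intro h2
    exact absurd (Finset.mem_univ i) h2

theorem exists_interp (h : ℕ) (Z : Set (Fin 2 → ℝ))
    (hZ : ∀ u : MvPolynomial (Fin 2) ℝ, u.totalDegree ≤ 2 * h → (∀ z ∈ Z, eval z u = 0) → u = 0) :
    ∃ z : Fin (h + 1) × Fin (h + 1) → (Fin 2 → ℝ), (∀ l, z l ∈ Z) ∧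
      ∃ U : Fin (h + 1) × Fin (h + 1) → Set (Fin 2 → ℝ), (∀ l, U l ∈ nhds (z l)) ∧
        ∀ z' : Fin (h + 1) × Fin (h + 1) → (Fin 2 → ℝ), (∀ l, z' l ∈ U l) →
          ∀ η : Fin (h + 1) × Fin (h + 1) → ℝ, ∃ u : MvPolynomial (Fin 2) ℝ, u.totalDegree ≤ 2 * h ∧
            ∀ l, eval (z' l) u = η l := by
  classical
  -- the vectors of the values of the monomials
  let v : Z → (Fin (h + 1) × Fin (h + 1) → ℝ) := fun z i => eval (z : Fin 2 → ℝ) (mo i)
  have hspan : Submodule.span ℝ (Set.range v) = ⊤ := by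
    by_contra hne
    obtain ⟨f, hf0, hf⟩ := Submodule.exists_le_ker_of_lt_top _ (lt_top_iff_ne_top.2 hne)
    apply hf0
    have h1 : ∀ w : Fin (h + 1) × Fin (h + 1) → ℝ, f w = ∑ i, f (Pi.single i 1) * w i := by
      intro w
      have h2 : w = ∑ i, w i • (Pi.single i (1 : ℝ) : Fin (h + 1) × Fin (h + 1) → ℝ) := by
        funext j
        rw [Finset.sum_apply, Finset.sum_eq_single j]
        · simp
        · intro i _ hij
          rw [Pi.smul_apply, Pi.single_eq_of_ne (Ne.symm hij), smul_zero]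
        · intro h3
          exact absurd (Finset.mem_univ j) h3
      conv_lhs => rw [h2]
      rw [map_sum]
      refine Finset.sum_congr rfl fun i _ => ?_
      rw [map_smul, smul_eq_mul, mul_comm]
    have h3 : (fun i => f (Pi.single i 1)) = 0 := by
      refine mo_inj _ (hZ _ (mo_deg _) fun z hz => ?_)
      have h4 : f (v ⟨z, hz⟩) = 0 := hf (Submodule.subset_span ⟨⟨z, hz⟩, rfl⟩)
      rw [h1] at h4
      rw [map_sum, ← h4]
      refine Finset.sum_congr rfl fun i _ => ?_
      rw [map_mul, eval_C]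
    refine LinearMap.ext fun w => ?_
    rw [h1]
    refine Finset.sum_eq_zero fun i _ => ?_
    have h5 : f (Pi.single i 1) = 0 := congrFun h3 i
    rw [h5, zero_mul]
  obtain ⟨κ, a, ha, hsp, hli⟩ := exists_linearIndependent' ℝ v
  rw [hspan] at hsp
  let b : Module.Basis κ ℝ (Fin (h + 1) × Fin (h + 1) → ℝ) := Module.Basis.mk hli hsp.ge
  let eq : Fin (h + 1) × Fin (h + 1) ≃ κ := (Pi.basisFun ℝ (Fin (h + 1) × Fin (h + 1))).indexEquiv b
  let z : Fin (h + 1) × Fin (h + 1) → (Fin 2 → ℝ) := fun l => (a (eq l) : Fin 2 → ℝ)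
  let D : (Fin (h + 1) × Fin (h + 1) → (Fin 2 → ℝ)) → Matrix (Fin (h + 1) × Fin (h + 1)) (Fin (h + 1) × Fin (h + 1)) ℝ :=
    fun z' => Matrix.of fun i j => eval (z' i) (mo j)
  have hdet : (D z).det ≠ 0 := by
    have h1 : LinearIndependent ℝ (D z).row := hli.comp eq eq.injective
    exact (Matrix.isUnit_iff_isUnit_det _).1 (Matrix.linearIndependent_rows_iff_isUnit.1 h1) |>.ne_zero
  have hcont : Continuous fun z' => (D z').det := by
    refine Continuous.matrix_det ?_
    refine continuous_matrix fun i j => ?_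
    exact (MvPolynomial.continuous_eval (mo j)).comp (continuous_apply i)
  have hev : ∀ᶠ z' in nhds z, (D z').det ≠ 0 := hcont.continuousAt.eventually_ne hdet
  rw [nhds_pi] at hev
  obtain ⟨I, _, t, ht, hsub⟩ := Filter.mem_pi.1 hev
  refine ⟨z, fun l => (a (eq l)).2, t, ht, ?_⟩
  intro z' hz' η
  have hd : (D z').det ≠ 0 := hsub fun i _ => hz' i
  have hinv : (D z').mulVec ((D z')⁻¹.mulVec η) = η := by
    rw [Matrix.mulVec_mulVec, Matrix.mul_nonsing_inv _ (isUnit_iff_ne_zero.2 hd), Matrix.one_mulVec]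
  refine ⟨∑ i, C ((D z')⁻¹.mulVec η i) * mo i, mo_deg _, fun l => ?_⟩
  have h1 := congrFun hinv l
  rw [← h1, map_sum]
  show _ = ∑ i, D z' l i * (D z')⁻¹.mulVec η i
  refine Finset.sum_congr rfl fun i _ => ?_
  rw [map_mul, eval_C, mul_comm]
  rfl

end D4Q
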