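import Mathlib
import Pool.Agent.D4Q.Defs
import Pool.Agent.HDI.FinCrit
import Pool.Agent.HDI.Bord

/-!
# D4Q-PpN_Crit: a polynomial has finitely many critical values on an étale surface

Apply `HDI.finite_crit` to the coordinate `t` on the graph `{e = 0, t - q = 0}`.
-/

namespace D4Q

open MvPolynomial

private theorem crit_none {ι : Type*} (g : MvPolynomial ι ℝ) :
    pderiv (none : Option ι) (rename some g) = 0 := by
  classical
  induction g using MvPolynomial.induction_on with
  | C a => rw [rename_C, pderiv_C]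
  | add p q hp hq => rw [map_add, map_add, hp, hq, add_zero]
  | mul_X p j hp =>
    rw [map_mul, rename_X, pderiv_mul, hp, zero_mul, zero_add, pderiv_X,
      Pi.single_eq_of_ne (by simp), mul_zero]

theorem fin_critS {c K : ℕ} (e : Fin c → MvPolynomial (Fin c ⊕ Fin 2) ℝ)
    (S : Set (Fin c ⊕ Fin 2 → ℝ)) (hS : IsEt K e S) (q : MvPolynomial (Fin c ⊕ Fin 2) ℝ) :
    {θ : ℝ | ∃ s ∈ S, eval s q = θ ∧ ∀ j, eval s (HDI.bord e q j) = 0}.Finite := by
  classical
  let f : Fin (c + 1) → MvPolynomial (Option (Fin c ⊕ Fin 2)) ℝ :=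
    Fin.snoc (α := fun _ => MvPolynomial (Option (Fin c ⊕ Fin 2)) ℝ) (fun a => rename some (e a))
      (X none - rename some q)
  have f1 : ∀ a : Fin c, f a.castSucc = rename some (e a) := fun a => by simp [f]
  have f2 : f (Fin.last c) = X none - rename some q := by simp [f]
  refine (HDI.finite_crit f none).subset ?_
  rintro θ ⟨s, hs, hθ, hb⟩
  let x : Option (Fin c ⊕ Fin 2) → ℝ := fun i => i.elim θ s
  have hx : ∀ g : MvPolynomial (Fin c ⊕ Fin 2) ℝ, eval x (rename some g) = eval s g := by
    intro g
    rw [eval_rename]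
    rfl
  have hreg := hS.reg s (hS.zero s hs)
  rw [HDI.eval_mu] at hreg
  have hb' := (HDI.bord_iff (Matrix.of fun a b : Fin c => eval s (pderiv (Sum.inl b) (e a)))
    (Matrix.of fun (a : Fin c) (j : Fin 2) => eval s (pderiv (Sum.inr j) (e a)))
    (fun b => eval s (pderiv (Sum.inl b) q)) (fun j => eval s (pderiv (Sum.inr j) q)) hreg).1
    (fun j => by
      have h1 := hb j
      rw [HDI.eval_bord] at h1
      exact h1)
  obtain ⟨l, hl1, hl2⟩ := hb'
  have hl : ∀ i, eval s (pderiv i q) = ∑ a, l a * eval s (pderiv i (e a)) := by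
    intro i
    rcases i with b | j
    · exact hl1 b
    · exact hl2 j
  refine ⟨x, ?_, ⟨Fin.snoc (α := fun _ => ℝ) l 1, ?_⟩, rfl⟩
  · intro a
    refine Fin.lastCases ?_ (fun a => ?_) a
    · rw [f2, map_sub, eval_X, hx, hθ]
      exact sub_self _
    · rw [f1, hx]
      exact hS.zero s hs a
  · intro i
    rw [Fin.sum_univ_castSucc]
    simp only [Fin.snoc_castSucc, Fin.snoc_last, f1, f2, one_mul]
    rcases i with _ | i
    · rw [if_pos rfl, map_sub, crit_none, pderiv_X, Pi.single_eq_same, sub_zero, map_one]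
      have h1 : ∀ a, l a * eval x (pderiv none (rename some (e a))) = 0 := by
        intro a
        rw [crit_none, map_zero, mul_zero]
      rw [Finset.sum_congr rfl fun a _ => h1 a, Finset.sum_const_zero, zero_add]
    · have h1 : ∀ g : MvPolynomial (Fin c ⊕ Fin 2) ℝ, eval x (pderiv (some i) (rename some g)) =
          eval s (pderiv i g) := by
        intro g
        rw [pderiv_rename (Option.some_injective _), hx]
      rw [if_neg (by simp), map_sub, map_sub, h1, pderiv_X, Pi.single_eq_of_ne (by simp), map_zero, hl,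
        Finset.sum_congr rfl fun a _ => by rw [h1 (e a)]]
      ring

end D4Q
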