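import Mathlib
import Pool.Agent.D4Q.Defs
import Pool.Agent.D4Q.GcCurve
import Pool.Agent.D4Q.CompS
import Pool.Agent.D4Q.CrvL

/-!
# D4Q-PpN_One: points of a curve which admit interpolation by planar polynomials

If polynomials of degree at most `T` in `x, y` take arbitrary values at the points `p l` of the curve `Crv e S 1 q 1`, the number of
these points is bounded: choose a polynomial `u` whose signs at the points alternate along each component of the curve; then
the points are in different components of `Crv e S 1 q u`.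
-/

namespace D4Q

open MvPolynomial

/-- Signs which alternate along each class in the order of `x`. -/
theorem alt_signs {Λ κ : Type*} [Fintype Λ] (cmp : Λ → κ) (x : Λ → ℝ)
    (hx : ∀ l m, cmp l = cmp m → x l = x m → l = m) :
    ∃ η : Λ → ℝ, (∀ l, η l = 1 ∨ η l = -1) ∧ ∀ l m, cmp l = cmp m → x l < x m →
      ∃ l', cmp l' = cmp l ∧ x l < x l' ∧ x l' ≤ x m ∧ η l' = - η l := by
  classical
  refine ⟨fun l => (-1) ^ (Finset.univ.filter fun l' => cmp l' = cmp l ∧ x l' < x l).card, fun l => ?_, ?_⟩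
  · exact neg_one_pow_eq_or ℝ _
  · intro l m hlm hlt
    obtain ⟨l', hl', hmin⟩ := Finset.exists_min_image (Finset.univ.filter fun l' => cmp l' = cmp l ∧ x l < x l') x
      ⟨m, by simp only [Finset.mem_filter, Finset.mem_univ, true_and]; exact ⟨hlm.symm, hlt⟩⟩
    simp only [Finset.mem_filter, Finset.mem_univ, true_and] at hl' hmin
    refine ⟨l', hl'.1, hl'.2, hmin m ⟨hlm.symm, hlt⟩, ?_⟩
    have h1 : (Finset.univ.filter fun l'' => cmp l'' = cmp l' ∧ x l'' < x l') =
        insert l (Finset.univ.filter fun l'' => cmp l'' = cmp l ∧ x l'' < x l) := by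
      ext k
      simp only [Finset.mem_filter, Finset.mem_univ, true_and, Finset.mem_insert]
      constructor
      · rintro ⟨h2, h3⟩
        rw [hl'.1] at h2
        rcases lt_trichotomy (x k) (x l) with h4 | h4 | h4
        · exact Or.inr ⟨h2, h4⟩
        · exact Or.inl (hx k l h2 h4)
        · exact absurd h3 (not_lt.2 (hmin k ⟨h2, h4⟩))
      · rintro (rfl | ⟨h2, h3⟩)
        · exact ⟨hl'.1.symm, hl'.2⟩
        · exact ⟨h2.trans hl'.1.symm, h3.trans hl'.2⟩
    have h2 : l ∉ (Finset.univ.filter fun l'' => cmp l'' = cmp l ∧ x l'' < x l) := by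
      simp only [Finset.mem_filter, Finset.mem_univ, true_and]
      exact fun h => lt_irrefl _ h
    show (-1 : ℝ) ^ (Finset.univ.filter fun l'' => cmp l'' = cmp l' ∧ x l'' < x l').card = _
    rw [h1, Finset.card_insert_of_notMem h2, pow_succ]
    ring

theorem aux_one (c K : ℕ) : ∃ K1 : ℕ, ∀ (e : Fin c → MvPolynomial (Fin c ⊕ Fin 2) ℝ)
    (S : Set (Fin c ⊕ Fin 2 → ℝ)), IsEt K e S →
    ∀ (q : MvPolynomial (Fin c ⊕ Fin 2) ℝ) (T : ℕ) (ι : Type) [Fintype ι] (p : ι → (Fin c ⊕ Fin 2 → ℝ)),
    (∀ l, p l ∈ Crv e S 1 q 1) →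
    (∀ η : ι → ℝ, ∃ u : MvPolynomial (Fin 2) ℝ, u.totalDegree ≤ T ∧ ∀ l, eval (p l ∘ Sum.inr) u = η l) →
    Fintype.card ι ≤ K1 * (q.totalDegree + 1) * (q.totalDegree + T + 1) := by
  classical
  obtain ⟨K1, hK1⟩ := gcCurve c K
  refine ⟨K1, fun e S hS q T ι _ p hp hI => ?_⟩
  have hpinj : Function.Injective p := by
    intro l m hlm
    by_contra hne
    obtain ⟨u, _, hu⟩ := hI (fun k => if k = l then 1 else 0)
    have h1 := hu l
    have h2 := hu m
    rw [if_pos rfl] at h1
    rw [if_neg (Ne.symm hne), ← hlm, h1] at h2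
    exact one_ne_zero h2
  have hxc : Continuous fun t : Fin c ⊕ Fin 2 → ℝ => t (Sum.inr 0) := continuous_apply _
  have hloc : ∀ v ∈ Crv e S 1 q 1, LocSec (fun t : Fin c ⊕ Fin 2 → ℝ => t (Sum.inr 0)) (Crv e S 1 q 1) v :=
    fun v hv => crv_locSec e S hS q 1 v hv
  -- the components
  have hcomp : ∀ l, ∃ (J : Set ℝ) (κ : ℝ → (Fin c ⊕ Fin 2 → ℝ)), ContinuousOn κ J ∧
      (∀ t ∈ J, κ t (Sum.inr 0) = t) ∧ κ '' J = connectedComponentIn (Crv e S 1 q 1) (p l) := by
    intro l
    obtain ⟨J, κ, _, _, _, h4, h5, _, h7⟩ := comp_section (fun t : Fin c ⊕ Fin 2 → ℝ => t (Sum.inr 0)) hxc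
      (Crv e S 1 q 1) hloc (p l) (hp l)
    exact ⟨J, κ, h4, h5, h7⟩
  have hmemc : ∀ l, p l ∈ connectedComponentIn (Crv e S 1 q 1) (p l) := fun l => mem_connectedComponentIn (hp l)
  have hx : ∀ l m, connectedComponentIn (Crv e S 1 q 1) (p l) = connectedComponentIn (Crv e S 1 q 1) (p m) →
      p l (Sum.inr 0) = p m (Sum.inr 0) → l = m := by
    intro l m h1 h2
    obtain ⟨J, κ, _, h4, h5⟩ := hcomp l
    have h6 : p l ∈ κ '' J := by rw [h5]; exact hmemc l
    have h7 : p m ∈ κ '' J := by rw [h5, h1]; exact hmemc m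
    obtain ⟨t, ht, ht'⟩ := h6
    obtain ⟨t', ht1, ht1'⟩ := h7
    have e1 := h4 t ht
    have e2 := h4 t' ht1
    rw [ht'] at e1
    rw [ht1'] at e2
    apply hpinj
    rw [← ht', ← ht1', ← e1, ← e2, h2]
  obtain ⟨η, hη, halt⟩ := alt_signs (fun l => connectedComponentIn (Crv e S 1 q 1) (p l))
    (fun l => p l (Sum.inr 0)) hx
  obtain ⟨u, hud, hu⟩ := hI η
  have hev : ∀ t : Fin c ⊕ Fin 2 → ℝ, eval t (rename Sum.inr u) = eval (t ∘ Sum.inr) u := fun t => eval_rename _ _ _
  have hη0 : ∀ l, η l ≠ 0 := by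
    intro l
    rcases hη l with h | h
    · rw [h]; norm_num
    · rw [h]; norm_num
  have hmem : ∀ l, p l ∈ Crv e S 1 q (rename Sum.inr u) := by
    intro l
    obtain ⟨h1, h2, h3, _⟩ := hp l
    refine ⟨h1, h2, h3, ?_⟩
    rw [hev, hu]
    exact hη0 l
  have hsub : Crv e S 1 q (rename Sum.inr u) ⊆ Crv e S 1 q 1 := by
    rintro t ⟨h1, h2, h3, _⟩
    refine ⟨h1, h2, h3, ?_⟩
    rw [map_one]
    exact one_ne_zero
  -- the separation
  have key : ∀ l m, p l (Sum.inr 0) < p m (Sum.inr 0) →
      p m ∉ connectedComponentIn (Crv e S 1 q (rename Sum.inr u)) (p l) := by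
    intro l m hlt hin
    have hCpre : IsPreconnected (connectedComponentIn (Crv e S 1 q (rename Sum.inr u)) (p l)) :=
      isPreconnected_connectedComponentIn
    have hCsub : connectedComponentIn (Crv e S 1 q (rename Sum.inr u)) (p l) ⊆ Crv e S 1 q (rename Sum.inr u) :=
      connectedComponentIn_subset _ _
    have hCl : p l ∈ connectedComponentIn (Crv e S 1 q (rename Sum.inr u)) (p l) := mem_connectedComponentIn (hmem l)
    have hCc : connectedComponentIn (Crv e S 1 q (rename Sum.inr u)) (p l) ⊆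
        connectedComponentIn (Crv e S 1 q 1) (p l) :=
      hCpre.subset_connectedComponentIn hCl (hCsub.trans hsub)
    have hcm : connectedComponentIn (Crv e S 1 q 1) (p l) = connectedComponentIn (Crv e S 1 q 1) (p m) :=
      connectedComponentIn_eq (hCc hin)
    obtain ⟨l', h1, h2, h3, h4⟩ := halt l m hcm hlt
    obtain ⟨J, κ, hκ, h5, h6⟩ := hcomp l
    have hsec : ∀ v ∈ connectedComponentIn (Crv e S 1 q 1) (p l), v (Sum.inr 0) ∈ J ∧ κ (v (Sum.inr 0)) = v := by
      intro v hv
      rw [← h6] at hv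
      obtain ⟨t, ht, rfl⟩ := hv
      rw [h5 t ht]
      exact ⟨ht, rfl⟩
    have hint : ∀ t ∈ Set.Icc (p l (Sum.inr 0)) (p l' (Sum.inr 0)), t ∈ J ∧ eval (κ t ∘ Sum.inr) u ≠ 0 := by
      intro t ht
      have h7 := hCpre.intermediate_value hCl hin hxc.continuousOn
      obtain ⟨v, hv, hvt⟩ := h7 ⟨ht.1, ht.2.trans h3⟩
      obtain ⟨h8, h9⟩ := hsec v (hCc hv)
      have hvt' : v (Sum.inr 0) = t := hvt
      rw [hvt'] at h8 h9
      refine ⟨h8, ?_⟩
      rw [h9, ← hev]
      exact (hCsub hv).2.2.2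
    have hle : p l (Sum.inr 0) ≤ p l' (Sum.inr 0) := h2.le
    have hg : ContinuousOn (fun t => eval (κ t ∘ Sum.inr) u)
        (Set.uIcc (p l (Sum.inr 0)) (p l' (Sum.inr 0))) := by
      rw [Set.uIcc_of_le hle]
      refine (MvPolynomial.continuous_eval u).comp_continuousOn ?_
      exact (continuous_pi fun j => continuous_apply (Sum.inr j)).comp_continuousOn
        (hκ.mono fun t ht => (hint t ht).1)
    have hivt := intermediate_value_uIcc hg
    have e1 : κ (p l (Sum.inr 0)) = p l := (hsec (p l) (hmemc l)).2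
    have e2 : κ (p l' (Sum.inr 0)) = p l' := by
      refine (hsec (p l') ?_).2
      have h7 := hmemc l'
      rw [h1] at h7
      exact h7
    rw [e1, e2, hu, hu, h4] at hivt
    have h0 : (0 : ℝ) ∈ Set.uIcc (η l) (-η l) := by
      rw [Set.mem_uIcc]
      rcases hη l with h | h
      · rw [h]
        right
        constructor <;> norm_num
      · rw [h]
        left
        constructor <;> norm_num
    obtain ⟨t, ht, ht0⟩ := hivt h0
    rw [Set.uIcc_of_le hle] at ht
    exact (hint t ht).2 ht0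
  have hsep : ∀ l m, l ≠ m → p m ∉ connectedComponentIn (Crv e S 1 q (rename Sum.inr u)) (p l) := by
    intro l m hne hin
    rcases lt_trichotomy (p l (Sum.inr 0)) (p m (Sum.inr 0)) with h | h | h
    · exact key l m h hin
    · have hCc : connectedComponentIn (Crv e S 1 q (rename Sum.inr u)) (p l) ⊆
          connectedComponentIn (Crv e S 1 q 1) (p l) :=
        isPreconnected_connectedComponentIn.subset_connectedComponentIn (mem_connectedComponentIn (hmem l))
          ((connectedComponentIn_subset _ _).trans hsub)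
      exact hne (hx l m (connectedComponentIn_eq (hCc hin)) h)
    · refine key m l h ?_
      rw [← connectedComponentIn_eq hin]
      exact mem_connectedComponentIn (hmem l)
  have hcard := hK1 e S hS 1 q (rename Sum.inr u) (Finset.univ.image p)
    (by
      intro x hx
      obtain ⟨l, _, rfl⟩ := Finset.mem_image.1 hx
      exact hmem l)
    (by
      intro x hx y hy hxy
      obtain ⟨l, _, rfl⟩ := Finset.mem_image.1 hx
      obtain ⟨m, _, rfl⟩ := Finset.mem_image.1 hy
      exact hsep l m fun h => hxy (by rw [h]))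
  rw [Finset.card_image_of_injective _ hpinj, Finset.card_univ] at hcard
  refine hcard.trans ?_
  have hd : (rename (Sum.inr : Fin 2 → Fin c ⊕ Fin 2) u).totalDegree ≤ T := (totalDegree_rename_le _ _).trans hud
  exact Nat.mul_le_mul_left _ (by omega)

end D4Q
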