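import Mathlib
import Pool.Agent.D4Q.PpN_One
import Pool.Agent.HDI.Bord

/-!
# D4Q-PpN_Swp: exchange of the variables `x` and `y`

The statement of `PpN_One` for curves which are étale over the `y`-axis.
-/

namespace D4Q

open MvPolynomial

/-- exchange of `x` and `y` -/
private def sw (c : ℕ) : Fin c ⊕ Fin 2 ≃ Fin c ⊕ Fin 2 := Equiv.sumCongr (Equiv.refl _) (Equiv.swap 0 1)

private theorem sw_inl {c : ℕ} (b : Fin c) : sw c (Sum.inl b) = Sum.inl b := rfl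

private theorem sw_inr0 {c : ℕ} : sw c (Sum.inr 0) = Sum.inr 1 := by
  simp [sw]

private theorem sw_ev {c : ℕ} (t : Fin c ⊕ Fin 2 → ℝ) (f : MvPolynomial (Fin c ⊕ Fin 2) ℝ) :
    eval t (rename (sw c) f) = eval (t ∘ sw c) f := eval_rename _ _ _

private theorem sw_pd {c : ℕ} (t : Fin c ⊕ Fin 2 → ℝ) (f : MvPolynomial (Fin c ⊕ Fin 2) ℝ) (i : Fin c ⊕ Fin 2) :
    eval t (pderiv (sw c i) (rename (sw c) f)) = eval (t ∘ sw c) (pderiv i f) := by
  rw [pderiv_rename (sw c).injective, sw_ev]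

private theorem sw_mu {c : ℕ} (e : Fin c → MvPolynomial (Fin c ⊕ Fin 2) ℝ) (t : Fin c ⊕ Fin 2 → ℝ) :
    eval t (HDI.mu fun a => rename (sw c) (e a)) = eval (t ∘ sw c) (HDI.mu e) := by
  rw [HDI.eval_mu, HDI.eval_mu]
  congr 1
  ext a b
  show eval t (pderiv (Sum.inl b) (rename (sw c) (e a))) = _
  rw [← sw_inl b, sw_pd]
  rfl

private theorem sw_bord {c : ℕ} (e : Fin c → MvPolynomial (Fin c ⊕ Fin 2) ℝ) (q : MvPolynomial (Fin c ⊕ Fin 2) ℝ)
    (t : Fin c ⊕ Fin 2 → ℝ) :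
    eval t (HDI.bord (fun a => rename (sw c) (e a)) (rename (sw c) q) 1) = eval (t ∘ sw c) (HDI.bord e q 0) := by
  rw [HDI.eval_bord, HDI.eval_bord]
  have h1 : ∀ f : MvPolynomial (Fin c ⊕ Fin 2) ℝ, eval t (pderiv (Sum.inr 1) (rename (sw c) f)) =
      eval (t ∘ sw c) (pderiv (Sum.inr 0) f) := fun f => by rw [← sw_inr0, sw_pd]
  have h2 : ∀ (f : MvPolynomial (Fin c ⊕ Fin 2) ℝ) (b : Fin c), eval t (pderiv (Sum.inl b) (rename (sw c) f)) =
      eval (t ∘ sw c) (pderiv (Sum.inl b) f) := fun f b => by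
    have h3 := sw_pd t f (Sum.inl b)
    rw [sw_inl] at h3
    exact h3
  simp only [h1, h2]

private theorem sw_cont (c : ℕ) : Continuous fun t : Fin c ⊕ Fin 2 → ℝ => t ∘ sw c :=
  continuous_pi fun i => continuous_apply (sw c i)

private theorem sw_et {c K : ℕ} {e : Fin c → MvPolynomial (Fin c ⊕ Fin 2) ℝ} {S : Set (Fin c ⊕ Fin 2 → ℝ)}
    (h : IsEt K e S) : IsEt K (fun a => rename (sw c) (e a)) ((fun t => t ∘ sw c) ⁻¹' S) where
  deg a := (totalDegree_rename_le _ _).trans (h.deg a)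
  zero s hs a := by
    rw [sw_ev]
    exact h.zero _ hs a
  reg s hs := by
    rw [sw_mu]
    refine h.reg _ fun a => ?_
    rw [← sw_ev]
    exact hs a
  closed := h.closed.preimage (sw_cont c)
  clop := by
    have h1 := h.clop.preimage (sw_cont c)
    have h2 : {s : Fin c ⊕ Fin 2 → ℝ | ∀ a, eval s (rename (sw c) (e a)) = 0} \ ((fun t => t ∘ sw c) ⁻¹' S) =
        (fun t => t ∘ sw c) ⁻¹' ({s | ∀ a, eval s (e a) = 0} \ S) := by
      ext t
      simp only [Set.mem_sdiff, Set.mem_preimage, Set.mem_ofPred_eq, sw_ev]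
    rw [h2]
    exact h1

theorem aux_zero (c K : ℕ) : ∃ K1 : ℕ, ∀ (e : Fin c → MvPolynomial (Fin c ⊕ Fin 2) ℝ)
    (S : Set (Fin c ⊕ Fin 2 → ℝ)), IsEt K e S →
    ∀ (q : MvPolynomial (Fin c ⊕ Fin 2) ℝ) (T : ℕ) (ι : Type) [Fintype ι] (p : ι → (Fin c ⊕ Fin 2 → ℝ)),
    (∀ l, p l ∈ Crv e S 0 q 1) →
    (∀ η : ι → ℝ, ∃ u : MvPolynomial (Fin 2) ℝ, u.totalDegree ≤ T ∧ ∀ l, eval (p l ∘ Sum.inr) u = η l) →
    Fintype.card ι ≤ K1 * (q.totalDegree + 1) * (q.totalDegree + T + 1) := by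
  obtain ⟨K1, hK1⟩ := aux_one c K
  refine ⟨K1, fun e S hS q T ι _ p hp hI => ?_⟩
  have hps : ∀ l, (p l ∘ (sw c).symm) ∘ sw c = p l := by
    intro l
    funext i
    simp
  have h1 := hK1 (fun a => rename (sw c) (e a)) ((fun t => t ∘ sw c) ⁻¹' S) (sw_et hS) (rename (sw c) q) T ι
    (fun l => p l ∘ (sw c).symm) (fun l => ?_) (fun η => ?_)
  · have hd : (rename (sw c) q).totalDegree ≤ q.totalDegree := totalDegree_rename_le _ _
    refine h1.trans ?_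
    exact Nat.mul_le_mul (Nat.mul_le_mul_left _ (by omega)) (by omega)
  · obtain ⟨h2, h3, h4, _⟩ := hp l
    refine ⟨?_, ?_, ?_, ?_⟩
    · show (p l ∘ (sw c).symm) ∘ sw c ∈ S
      rw [hps]
      exact h2
    · rw [sw_ev, hps]
      exact h3
    · rw [sw_bord, hps]
      exact h4
    · rw [map_one]
      exact one_ne_zero
  · obtain ⟨u, hu1, hu2⟩ := hI η
    refine ⟨rename (Equiv.swap (0 : Fin 2) 1) u, (totalDegree_rename_le _ _).trans hu1, fun l => ?_⟩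
    rw [eval_rename, ← hu2 l]
    congr 1
    congr 1
    funext j
    show p l ((sw c).symm (Sum.inr (Equiv.swap 0 1 j))) = p l (Sum.inr j)
    congr 1
    rw [Equiv.symm_apply_eq]
    rfl

end D4Q
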