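import Mathlib
import Pool.Agent.D4Q.Defs
import Pool.Agent.D4Q.SurfL

/-!
# D4Q-PpN_Val: small values of a polynomial on an étale surface

Near a zero of `q` on `S` near which `q` does not vanish identically, `q` takes all small positive values or all small negative
values, since `S` is locally connected.
-/

namespace D4Q

open MvPolynomial

theorem near_val {c K : ℕ} (e : Fin c → MvPolynomial (Fin c ⊕ Fin 2) ℝ)
    (S : Set (Fin c ⊕ Fin 2 → ℝ)) (hS : IsEt K e S) (q : MvPolynomial (Fin c ⊕ Fin 2) ℝ)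
    {s : Fin c ⊕ Fin 2 → ℝ} (hs : s ∈ S) (h0 : eval s q = 0)
    (hn : ¬ (∀ᶠ t in nhdsWithin s S, eval t q = 0)) (U : Set (Fin c ⊕ Fin 2 → ℝ)) (hU : U ∈ nhds s) :
    ∃ θ0 : ℝ, 0 < θ0 ∧ ∃ σ : ℝ, (σ = 1 ∨ σ = -1) ∧
      ∀ θ, 0 < θ → θ < θ0 → ∃ t ∈ S, t ∈ U ∧ eval t q = σ * θ := by
  obtain ⟨W, κ, hW, hWo, hκs, hκ, hκS, U', hU', hloc⟩ := surf_local e S hS s hs
  have hκc : ContinuousOn κ W := hκ.continuousOn
  have h1 : κ ⁻¹' U ∩ W ∈ nhds (s ∘ Sum.inr) := by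
    refine Filter.inter_mem ?_ hW
    refine (hκc.continuousAt hW) ?_
    rw [hκs]
    exact hU
  obtain ⟨r, hr, hB⟩ := Metric.mem_nhds_iff.1 h1
  have hfr : ∃ᶠ t in nhdsWithin s S, ¬ eval t q = 0 := Filter.not_eventually.1 hn
  have hπ : Continuous fun t : Fin c ⊕ Fin 2 → ℝ => t ∘ Sum.inr :=
    continuous_pi fun j => continuous_apply (Sum.inr j)
  have h2 : ∀ᶠ t in nhdsWithin s S, t ∈ S ∧ t ∈ U' ∧ t ∘ Sum.inr ∈ Metric.ball (s ∘ Sum.inr) r := by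
    have h3 : ∀ᶠ t in nhds s, t ∈ U' ∧ t ∘ Sum.inr ∈ Metric.ball (s ∘ Sum.inr) r :=
      Filter.Eventually.and hU' (hπ.continuousAt.eventually (Metric.ball_mem_nhds _ hr))
    filter_upwards [self_mem_nhdsWithin, mem_nhdsWithin_of_mem_nhds h3] with t h4 h5
    exact ⟨h4, h5.1, h5.2⟩
  obtain ⟨t, ht, htS, htU, htB⟩ := (hfr.and_eventually h2).exists
  have htκ : t = κ (t ∘ Sum.inr) := (hloc t htU htS).2
  have hg : ContinuousOn (fun w => eval (κ w) q) (Metric.ball (s ∘ Sum.inr) r) := by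
    refine (MvPolynomial.continuous_eval q).comp_continuousOn (hκc.mono fun w hw => (hB hw).2)
  have hpre : IsPreconnected (Metric.ball (s ∘ Sum.inr) r) := (convex_ball _ _).isPreconnected
  have hsB : s ∘ Sum.inr ∈ Metric.ball (s ∘ Sum.inr) r := Metric.mem_ball_self hr
  have g0 : eval (κ (s ∘ Sum.inr)) q = 0 := by rw [hκs, h0]
  have g1 : eval (κ (t ∘ Sum.inr)) q = eval t q := by rw [← htκ]
  rcases lt_or_gt_of_ne ht with hneg | hpos
  · refine ⟨-eval t q, by linarith, -1, Or.inr rfl, fun θ hθ hθ' => ?_⟩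
    have h3 := hpre.intermediate_value htB hsB hg
    have h4 : -1 * θ ∈ Set.Icc (eval (κ (t ∘ Sum.inr)) q) (eval (κ (s ∘ Sum.inr)) q) := by
      rw [g0, g1]
      exact ⟨by linarith, by linarith⟩
    obtain ⟨w, hw, hwe⟩ := h3 h4
    exact ⟨κ w, (hκS w (hB hw).2).2, (hB hw).1, hwe⟩
  · refine ⟨eval t q, hpos, 1, Or.inl rfl, fun θ hθ hθ' => ?_⟩
    have h3 := hpre.intermediate_value hsB htB hg
    have h4 : 1 * θ ∈ Set.Icc (eval (κ (s ∘ Sum.inr)) q) (eval (κ (t ∘ Sum.inr)) q) := by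
      rw [g0, g1]
      exact ⟨by linarith, by linarith⟩
    obtain ⟨w, hw, hwe⟩ := h3 h4
    exact ⟨κ w, (hκS w (hB hw).2).2, (hB hw).1, hwe⟩

end D4Q
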