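import Mathlib
import Pool.Agent.D4Q.GC
import Pool.Agent.D4Q.O1
import Pool.Agent.HDI.FinCrit
import Pool.Agent.D4Q.PpN_Alg
import Pool.Agent.D4Q.PpN_Crit
import Pool.Agent.D4Q.PpN_Val
import Pool.Agent.D4Q.PpN_One
import Pool.Agent.D4Q.PpN_Swp

/-!
# D4Q-PpN: a planar polynomial vanishing on the zeros of a polynomial on an étale surface

Let `N` be the set of zeros of `q` in `S` near which `q` does not vanish identically on `S`. If no nonzero polynomial in `x, y` of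
degree at most `2 h` vanishes on `N`, there are `(h + 1) ^ 2` points of `N` at which interpolation is possible (`PpN_Alg`), and this
remains true for nearby points at which `q` has the values `θ` or `- θ` (`PpN_Val`), `θ` small and not critical (`PpN_Crit`). A
quarter of these points is on one curve, étale over one of the axes, which contradicts `PpN_One`, `PpN_Swp` for large `h`.
-/

namespace D4Q

open MvPolynomial

private theorem ppN_bord {c : ℕ} (e : Fin c → MvPolynomial (Fin c ⊕ Fin 2) ℝ) (q : MvPolynomial (Fin c ⊕ Fin 2) ℝ)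
    (r : ℝ) (j : Fin 2) : HDI.bord e (q - C r) j = HDI.bord e q j := by
  unfold HDI.bord
  simp only [map_sub, pderiv_C, sub_zero]

private theorem ppN_num {L d h : ℕ} (hh : h = (12 * L + 1) * (d + 1)) :
    4 * (L * (d + 1) * (d + 2 * h + 1)) < (h + 1) * (h + 1) := by
  have h1 : d + 1 ≤ h := by
    rw [hh]
    nlinarith [Nat.zero_le (L * (d + 1))]
  have h2 : 12 * L * (d + 1) ≤ h := by
    rw [hh]
    nlinarith [Nat.zero_le (L * (d + 1))]
  have h3 : 4 * (L * (d + 1) * (d + 2 * h + 1)) ≤ 4 * (L * (d + 1) * (3 * h)) :=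
    Nat.mul_le_mul_left _ (Nat.mul_le_mul_left _ (by omega))
  have h4 : 4 * (L * (d + 1) * (3 * h)) = 12 * L * (d + 1) * h := by ring
  have h5 : 12 * L * (d + 1) * h ≤ h * h := Nat.mul_le_mul_right _ h2
  have h6 : (h + 1) * (h + 1) = h * h + (2 * h + 1) := by ring
  omega

private theorem ppN_both (c K : ℕ) : ∃ L : ℕ, ∀ (e : Fin c → MvPolynomial (Fin c ⊕ Fin 2) ℝ)
    (S : Set (Fin c ⊕ Fin 2 → ℝ)), IsEt K e S →
    ∀ (j : Fin 2) (q : MvPolynomial (Fin c ⊕ Fin 2) ℝ) (T : ℕ) (ι : Type) [Fintype ι]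
      (p : ι → (Fin c ⊕ Fin 2 → ℝ)), (∀ l, p l ∈ Crv e S j q 1) →
    (∀ η : ι → ℝ, ∃ u : MvPolynomial (Fin 2) ℝ, u.totalDegree ≤ T ∧ ∀ l, eval (p l ∘ Sum.inr) u = η l) →
    Fintype.card ι ≤ L * (q.totalDegree + 1) * (q.totalDegree + T + 1) := by
  obtain ⟨K1, hK1⟩ := aux_one c K
  obtain ⟨K2, hK2⟩ := aux_zero c K
  refine ⟨max K1 K2, fun e S hS j q T ι _ p hp hI => ?_⟩
  have h01 : j = 0 ∨ j = 1 := by
    clear hp
    revert j
    decide
  rcases h01 with h | h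
  · rw [h] at hp
    exact (hK2 e S hS q T ι p hp hI).trans (Nat.mul_le_mul_right _ (Nat.mul_le_mul_right _ (le_max_right K1 K2)))
  · rw [h] at hp
    exact (hK1 e S hS q T ι p hp hI).trans (Nat.mul_le_mul_right _ (Nat.mul_le_mul_right _ (le_max_left K1 K2)))

theorem ppN (c K : ℕ) : ∃ K0 : ℕ, ∀ (e : Fin c → MvPolynomial (Fin c ⊕ Fin 2) ℝ)
    (S : Set (Fin c ⊕ Fin 2 → ℝ)), IsEt K e S →
    ∀ (q : MvPolynomial (Fin c ⊕ Fin 2) ℝ),
    ∃ u : MvPolynomial (Fin 2) ℝ, u ≠ 0 ∧ u.totalDegree ≤ K0 * (q.totalDegree + 1) ∧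
      ∀ s ∈ S, eval s q = 0 → ¬ (∀ᶠ t in nhdsWithin s S, eval t q = 0) →
        eval (s ∘ Sum.inr) u = 0 := by
  classical
  obtain ⟨L, hL⟩ := ppN_both c K
  refine ⟨2 * (12 * L + 1), fun e S hS q => ?_⟩
  by_contra hno
  obtain ⟨h, hh⟩ : ∃ h : ℕ, h = (12 * L + 1) * (q.totalDegree + 1) := ⟨_, rfl⟩
  have hZ : ∀ u : MvPolynomial (Fin 2) ℝ, u.totalDegree ≤ 2 * h →
      (∀ z ∈ (fun s : Fin c ⊕ Fin 2 → ℝ => s ∘ Sum.inr) '' {s | s ∈ S ∧ eval s q = 0 ∧
        ¬ (∀ᶠ t in nhdsWithin s S, eval t q = 0)}, eval z u = 0) → u = 0 := by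
    intro u hu hz
    by_contra hu0
    refine hno ⟨u, hu0, ?_, fun s h1 h2 h3 => hz _ ⟨s, ⟨h1, h2, h3⟩, rfl⟩⟩
    rw [hh] at hu
    rw [mul_assoc]
    exact hu
  obtain ⟨z, hzZ, U, hU, hint⟩ := exists_interp h _ hZ
  choose s hs hsz using hzZ
  have hπ : Continuous fun t : Fin c ⊕ Fin 2 → ℝ => t ∘ (Sum.inr : Fin 2 → Fin c ⊕ Fin 2) :=
    continuous_pi fun j => continuous_apply (Sum.inr j)
  have hval : ∀ l, ∃ θ0 : ℝ, 0 < θ0 ∧ ∃ σ : ℝ, (σ = 1 ∨ σ = -1) ∧
      ∀ θ, 0 < θ → θ < θ0 → ∃ t ∈ S, t ∘ Sum.inr ∈ U l ∧ eval t q = σ * θ := by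
    intro l
    have h1 : (fun t : Fin c ⊕ Fin 2 → ℝ => t ∘ Sum.inr) ⁻¹' (U l) ∈ nhds (s l) := by
      refine hπ.continuousAt ?_
      have h2 : s l ∘ (Sum.inr : Fin 2 → Fin c ⊕ Fin 2) = z l := hsz l
      show U l ∈ nhds (s l ∘ Sum.inr)
      rw [h2]
      exact hU l
    exact near_val e S hS q (hs l).1 (hs l).2.1 (hs l).2.2 _ h1
  choose θ0 hθ0 σ hσ hval using hval
  -- the choice of the value
  obtain ⟨m, hm, hmin⟩ : ∃ m : ℝ, 0 < m ∧ ∀ l, m ≤ θ0 l := by
    obtain ⟨l0, _, hl0⟩ := Finset.exists_min_image Finset.univ θ0 Finset.univ_nonempty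
    exact ⟨θ0 l0, hθ0 l0, fun l => hl0 l (Finset.mem_univ l)⟩
  have hcrit := fin_critS e S hS q
  obtain ⟨θ, ⟨hθ1, hθ2⟩, hθ3⟩ := ((Set.Ioo_infinite hm).sdiff (hcrit.union (hcrit.image fun x => -x))).nonempty
  have ht : ∀ l, ∃ t ∈ S, t ∘ Sum.inr ∈ U l ∧ eval t q = σ l * θ :=
    fun l => hval l θ hθ1 (lt_of_lt_of_le hθ2 (hmin l))
  choose t htS htU htq using ht
  have hj : ∀ l, ∃ j : Fin 2, eval (t l) (HDI.bord e q j) ≠ 0 := by
    intro l
    by_contra h1
    push Not at h1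
    apply hθ3
    rcases hσ l with h2 | h2
    · left
      exact ⟨t l, htS l, by rw [htq, h2, one_mul], h1⟩
    · right
      exact ⟨-θ, ⟨t l, htS l, by rw [htq, h2]; ring, h1⟩, neg_neg θ⟩
  choose j hj using hj
  have hint' := hint (fun l => t l ∘ Sum.inr) htU
  -- the bound for one colour
  have hcol : ∀ (b : ℝ) (j0 : Fin 2), (Finset.univ.filter fun l => (σ l, j l) = (b, j0)).card ≤
      L * (q.totalDegree + 1) * (q.totalDegree + 2 * h + 1) := by
    intro b j0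
    rw [← Fintype.card_subtype]
    have hd : (q - C (b * θ)).totalDegree ≤ q.totalDegree := totalDegree_sub_C_le _ _
    have hmem : ∀ l : {l // (σ l, j l) = (b, j0)}, t l.1 ∈ Crv e S j0 (q - C (b * θ)) 1 := by
      rintro ⟨l, hl⟩
      have hl1 : σ l = b := congrArg Prod.fst hl
      have hl2 : j l = j0 := congrArg Prod.snd hl
      have h5 := hj l
      rw [hl2] at h5
      refine ⟨htS l, ?_, ?_, ?_⟩
      · show eval (t l) (q - C (b * θ)) = 0
        rw [map_sub, eval_C, htq, hl1, sub_self]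
      · rw [ppN_bord]
        exact h5
      · rw [map_one]
        exact one_ne_zero
    have hI : ∀ η : {l // (σ l, j l) = (b, j0)} → ℝ, ∃ u : MvPolynomial (Fin 2) ℝ, u.totalDegree ≤ 2 * h ∧
        ∀ l, eval (t l.1 ∘ Sum.inr) u = η l := by
      intro η
      obtain ⟨u, hu1, hu2⟩ := hint' fun l => if hl : (σ l, j l) = (b, j0) then η ⟨l, hl⟩ else 0
      refine ⟨u, hu1, fun l => ?_⟩
      rw [hu2 l.1, dif_pos l.2]
    refine (hL e S hS j0 (q - C (b * θ)) (2 * h) _ (fun l => t l.1) hmem hI).trans ?_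
    exact Nat.mul_le_mul (Nat.mul_le_mul_left _ (by omega)) (by omega)
  have hcard := Finset.card_le_mul_card_image (f := fun l => (σ l, j l)) (Finset.univ)
    (L * (q.totalDegree + 1) * (q.totalDegree + 2 * h + 1)) (fun a _ => hcol a.1 a.2)
  have himg : ((Finset.univ : Finset (Fin (h + 1) × Fin (h + 1))).image fun l => (σ l, j l)).card ≤ 4 := by
    have h1 : (Finset.univ : Finset (Fin (h + 1) × Fin (h + 1))).image (fun l => (σ l, j l)) ⊆
        ({1, -1} : Finset ℝ) ×ˢ (Finset.univ : Finset (Fin 2)) := by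
      intro x hx
      obtain ⟨l, _, rfl⟩ := Finset.mem_image.1 hx
      rw [Finset.mem_product]
      refine ⟨?_, Finset.mem_univ _⟩
      show σ l ∈ ({1, -1} : Finset ℝ)
      rw [Finset.mem_insert, Finset.mem_singleton]
      exact hσ l
    refine (Finset.card_le_card h1).trans ?_
    rw [Finset.card_product, Finset.card_univ, Fintype.card_fin]
    have h2 : ({1, -1} : Finset ℝ).card ≤ 2 := Finset.card_le_two
    omega
  have hnum := ppN_num hh
  rw [Finset.card_univ, Fintype.card_prod, Fintype.card_fin] at hcard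
  have h1 : L * (q.totalDegree + 1) * (q.totalDegree + 2 * h + 1) *
      ((Finset.univ : Finset (Fin (h + 1) × Fin (h + 1))).image fun l => (σ l, j l)).card ≤
      L * (q.totalDegree + 1) * (q.totalDegree + 2 * h + 1) * 4 := Nat.mul_le_mul_left _ himg
  omega

end D4Q
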