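import Mathlib
import Pool.Agent.D4Q.Defs

/-!
# D4Q-PlBez: Bezout bound in the plane

`planeBezout`: coprime `u, v ∈ ℝ[x, y]` of degrees `a`, `b` have at most `a b` common zeros:
let `Z` be a finite set of common zeros. For large `T` the evaluation `ℝ[x, y]_T → ℝ^Z` is onto and
its kernel contains `u ℝ[x, y]_{T-a} + v ℝ[x, y]_{T-b}`, of dimension
`D(T-a) + D(T-b) - D(T-a-b)` (the intersection is `u v ℝ[x, y]_{T-a-b}` by coprimality),
`D(t) = (t+1)(t+2)/2`; so `|Z| ≤ D(T) - D(T-a) - D(T-b) + D(T-a-b) = a b`.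
-/

namespace D4Q

open MvPolynomial

private abbrev P2 := MvPolynomial (Fin 2) ℝ

private noncomputable abbrev V2 (t : ℕ) : Submodule ℝ P2 := restrictTotalDegree (Fin 2) ℝ t

private def pairs (t : ℕ) : Finset (Σ _ : ℕ, ℕ × ℕ) :=
  (Finset.range (t + 1)).sigma fun s => Finset.HasAntidiagonal.antidiagonal s

private lemma card_pairs (t : ℕ) : 2 * (pairs t).card = (t + 1) * (t + 2) := by
  unfold pairs
  rw [Finset.card_sigma]
  induction t with
  | zero => simp
  | succ n ih =>
    rw [Finset.sum_range_succ, mul_add, ih, Finset.Nat.card_antidiagonal]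
    ring

private lemma sum2 (n : Fin 2 →₀ ℕ) : (n.sum fun _ e => e) = n 0 + n 1 := by
  rw [Finsupp.sum_fintype _ _ (fun _ => rfl), Fin.sum_univ_two]

private noncomputable def eqv (t : ℕ) : {n : Fin 2 →₀ ℕ | (n.sum fun _ e => e) ≤ t} ≃ pairs t where
  toFun n := ⟨⟨n.1 0 + n.1 1, (n.1 0, n.1 1)⟩, by
    have h := n.2
    rw [Set.mem_setOf_eq, sum2] at h
    simp only [pairs, Finset.mem_sigma, Finset.mem_range, Finset.HasAntidiagonal.mem_antidiagonal, and_true]
    omega⟩
  invFun x := ⟨Finsupp.equivFunOnFinite.symm ![x.1.2.1, x.1.2.2], by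
    have h := x.2
    simp only [pairs, Finset.mem_sigma, Finset.mem_range, Finset.HasAntidiagonal.mem_antidiagonal] at h
    rw [Set.mem_setOf_eq, sum2]
    simp only [Finsupp.equivFunOnFinite_symm_apply_apply, Matrix.cons_val_zero,
      Matrix.cons_val_one]
    omega⟩
  left_inv n := by
    apply Subtype.ext
    ext i
    fin_cases i <;> simp
  right_inv x := by
    obtain ⟨⟨s, p, q⟩, h⟩ := x
    have h' := h
    simp only [pairs, Finset.mem_sigma, Finset.mem_range, Finset.HasAntidiagonal.mem_antidiagonal] at h'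
    apply Subtype.ext
    simp only [Finsupp.equivFunOnFinite_symm_apply_apply, Matrix.cons_val_zero,
      Matrix.cons_val_one]
    rw [h'.2]

private lemma finrank_V2 (t : ℕ) : 2 * Module.finrank ℝ (V2 t) = (t + 1) * (t + 2) := by
  rw [← card_pairs]
  have h1 : Module.finrank ℝ (V2 t) =
      Nat.card {n : Fin 2 →₀ ℕ | (n.sum fun _ e => e) ≤ t} :=
    Module.finrank_eq_nat_card_basis (basisRestrictSupport ℝ _)
  rw [h1, Nat.card_congr (eqv t)]
  simp

private noncomputable def evZ (Z : Finset (Fin 2 → ℝ)) : P2 →ₗ[ℝ] (Z → ℝ) :=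
  LinearMap.pi fun z => (aeval (z : Fin 2 → ℝ) : P2 →ₐ[ℝ] ℝ).toLinearMap

private lemma evZ_apply (Z : Finset (Fin 2 → ℝ)) (p : P2) (z : Z) :
    evZ Z p z = eval (z : Fin 2 → ℝ) p := by
  simp [evZ, MvPolynomial.aeval_eq_eval]

private lemma exists_lag (Z : Finset (Fin 2 → ℝ)) (z : Fin 2 → ℝ) (_hz : z ∈ Z) :
    ∃ p : P2, p.totalDegree ≤ Z.card ∧ eval z p ≠ 0 ∧ ∀ w ∈ Z, w ≠ z → eval w p = 0 := by
  classical
  have h1 : ∀ w : Fin 2 → ℝ, ∃ i : Fin 2, w ≠ z → w i ≠ z i := by
    intro w
    by_cases h : w = z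
    · exact ⟨0, fun h' => absurd h h'⟩
    · obtain ⟨i, hi⟩ := Function.ne_iff.1 h
      exact ⟨i, fun _ => hi⟩
  choose i hi using h1
  refine ⟨∏ w ∈ Z.erase z, (X (i w) - C (w (i w))), ?_, ?_, ?_⟩
  · refine (totalDegree_finset_prod _ _).trans ?_
    refine (Finset.sum_le_card_nsmul _ _ 1 ?_).trans ?_
    · intro w _
      refine (totalDegree_sub_C_le _ _).trans ?_
      rw [totalDegree_X]
    · rw [smul_eq_mul, mul_one]
      exact Finset.card_le_card (Finset.erase_subset _ _)
  · rw [map_prod, Finset.prod_ne_zero_iff]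
    intro w hw
    rw [Finset.mem_erase] at hw
    simp only [map_sub, eval_X, eval_C]
    intro h
    exact hi w hw.1 (by linarith)
  · intro w hw hne
    rw [map_prod]
    refine Finset.prod_eq_zero (Finset.mem_erase.2 ⟨hne, hw⟩) ?_
    simp

private lemma finrank_ker (Z : Finset (Fin 2 → ℝ)) (T : ℕ) (hT : Z.card ≤ T) :
    Module.finrank ℝ (V2 T) =
      Z.card + Module.finrank ℝ (LinearMap.ker ((evZ Z).domRestrict (V2 T))) := by
  classical
  have h1 := LinearMap.finrank_range_add_finrank_ker ((evZ Z).domRestrict (V2 T))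
  have h2 : LinearMap.range ((evZ Z).domRestrict (V2 T)) = ⊤ := by
    rw [eq_top_iff]
    intro f _
    have h3 : f = ∑ z : Z, f z • (Pi.single z (1 : ℝ) : Z → ℝ) := by
      ext w
      simp [Finset.sum_apply, Pi.single_apply]
    rw [h3]
    refine Submodule.sum_mem _ fun z _ => Submodule.smul_mem _ _ ?_
    obtain ⟨p, hp, hz, hw⟩ := exists_lag Z z z.2
    refine ⟨⟨C (eval (z : Fin 2 → ℝ) p)⁻¹ * p, ?_⟩, ?_⟩
    · rw [mem_restrictTotalDegree]
      refine (totalDegree_mul _ _).trans ?_
      rw [totalDegree_C, zero_add]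
      exact hp.trans hT
    · ext w
      rw [LinearMap.domRestrict_apply, evZ_apply]
      simp only [map_mul, eval_C]
      by_cases h : w = z
      · subst h
        rw [Pi.single_eq_same, inv_mul_cancel₀ hz]
      · rw [Pi.single_eq_of_ne h, hw w w.2 (fun h' => h (Subtype.ext h')), mul_zero]
  rw [h2, finrank_top, Module.finrank_fintype_fun_eq_card, Fintype.card_coe] at h1
  exact h1.symm

private lemma main_case (u v : P2) (huv : IsRelPrime u v) (hu : u ≠ 0) (hv : v ≠ 0)
    (Z : Finset (Fin 2 → ℝ)) (hZ : ∀ z ∈ Z, eval z u = 0 ∧ eval z v = 0) (n : ℕ) :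
    Module.finrank ℝ (V2 (v.totalDegree + n)) + Module.finrank ℝ (V2 (u.totalDegree + n)) ≤
      Module.finrank ℝ (LinearMap.ker ((evZ Z).domRestrict
        (V2 (u.totalDegree + v.totalDegree + n)))) + Module.finrank ℝ (V2 n) := by
  set a := u.totalDegree with ha
  set b := v.totalDegree with hb
  let iota : (V2 (b + n) × V2 (a + n)) →ₗ[ℝ] P2 × P2 :=
    LinearMap.prodMap (V2 (b + n)).subtype (V2 (a + n)).subtype
  let F : P2 × P2 →ₗ[ℝ] P2 := (LinearMap.mulRight ℝ u).coprod (LinearMap.mulRight ℝ v)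
  let L := F.comp iota
  let G : P2 →ₗ[ℝ] P2 × P2 := (LinearMap.mulLeft ℝ v).prod (-(LinearMap.mulLeft ℝ u))
  have hiota : Function.Injective iota := by
    rintro ⟨x, y⟩ ⟨z, w⟩ h
    simp only [iota, LinearMap.prodMap_apply, Submodule.subtype_apply, Prod.mk.injEq] at h
    exact Prod.ext (Subtype.ext h.1) (Subtype.ext h.2)
  have hL : ∀ x, L x = (x.1 : P2) * u + (x.2 : P2) * v := by
    intro x
    simp [L, F, iota]
  have hrange : LinearMap.range L ≤ (LinearMap.ker ((evZ Z).domRestrict
      (V2 (a + b + n)))).map (V2 (a + b + n)).subtype := by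
    rintro y ⟨x, rfl⟩
    rw [hL]
    have h1 : (x.1 : P2) * u + (x.2 : P2) * v ∈ V2 (a + b + n) := by
      refine Submodule.add_mem _ ?_ ?_
      · rw [mem_restrictTotalDegree]
        have h2 := x.1.2
        rw [mem_restrictTotalDegree] at h2
        exact (totalDegree_mul _ _).trans (by omega)
      · rw [mem_restrictTotalDegree]
        have h2 := x.2.2
        rw [mem_restrictTotalDegree] at h2
        exact (totalDegree_mul _ _).trans (by omega)
    refine ⟨⟨_, h1⟩, ?_, rfl⟩
    rw [SetLike.mem_coe, LinearMap.mem_ker]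
    ext z
    rw [LinearMap.domRestrict_apply, evZ_apply]
    simp [(hZ z z.2).1, (hZ z z.2).2]
  have hker : (LinearMap.ker L).map iota ≤ (V2 n).map G := by
    rintro y ⟨x, hx, rfl⟩
    have hx0 : (x.1 : P2) * u + (x.2 : P2) * v = 0 := by
      rw [← hL]; exact hx
    have hdvd : v ∣ (x.1 : P2) * u := by
      refine ⟨-(x.2 : P2), ?_⟩
      linear_combination hx0
    obtain ⟨Q, hQ⟩ := huv.symm.dvd_of_dvd_mul_right hdvd
    have hB : (x.2 : P2) = -(u * Q) := by
      have h1 : v * ((x.2 : P2) + u * Q) = 0 := by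
        rw [hQ] at hx0
        linear_combination hx0
      rcases mul_eq_zero.1 h1 with h | h
      · exact absurd h hv
      · linear_combination h
    refine ⟨Q, ?_, ?_⟩
    · rw [SetLike.mem_coe, mem_restrictTotalDegree]
      by_cases hQ0 : Q = 0
      · subst hQ0; simp
      · have hB2 := x.2.2
        rw [mem_restrictTotalDegree, hB, totalDegree_neg,
          totalDegree_mul_of_isDomain hu hQ0] at hB2
        omega
    · simp only [G, iota, LinearMap.prod_apply, Function.prod, LinearMap.mulLeft_apply,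
        LinearMap.neg_apply, LinearMap.prodMap_apply, Submodule.subtype_apply]
      rw [hB, hQ]
  have h1 := LinearMap.finrank_range_add_finrank_ker L
  rw [Module.finrank_prod] at h1
  have h2 := Submodule.finrank_mono hrange
  have h2' : Module.finrank ℝ ((LinearMap.ker ((evZ Z).domRestrict
      (V2 (a + b + n)))).map (V2 (a + b + n)).subtype) ≤ Module.finrank ℝ
      (LinearMap.ker ((evZ Z).domRestrict (V2 (a + b + n)))) := Submodule.finrank_map_le _ _
  have h3 : Module.finrank ℝ (LinearMap.ker L) = Module.finrank ℝ ((LinearMap.ker L).map iota) :=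
    (Submodule.equivMapOfInjective iota hiota (LinearMap.ker L)).finrank_eq
  have h4 := Submodule.finrank_mono hker
  have h5 : Module.finrank ℝ ((V2 n).map G) ≤
      Module.finrank ℝ (V2 n) := Submodule.finrank_map_le _ _
  omega

theorem planeBezout (u v : MvPolynomial (Fin 2) ℝ) (huv : IsRelPrime u v)
    (Z : Finset (Fin 2 → ℝ)) (hZ : ∀ z ∈ Z, eval z u = 0 ∧ eval z v = 0) :
    Z.card ≤ u.totalDegree * v.totalDegree := by
  classical
  have hunit : ∀ w : P2, IsUnit w → (∀ z ∈ Z, eval z w = 0) → Z = ∅ := by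
    intro w hw h
    rw [Finset.eq_empty_iff_forall_notMem]
    intro z hz
    have h1 := hw.map (eval z : P2 →+* ℝ)
    rw [h z hz] at h1
    exact not_isUnit_zero h1
  by_cases hu : u = 0
  · subst hu
    rw [hunit v (huv (dvd_zero v) dvd_rfl) (fun z hz => (hZ z hz).2)]
    simp
  by_cases hv : v = 0
  · subst hv
    rw [hunit u (huv dvd_rfl (dvd_zero u)) (fun z hz => (hZ z hz).1)]
    simp
  have h1 := main_case u v huv hu hv Z hZ Z.card
  have h2 := finrank_ker Z (u.totalDegree + v.totalDegree + Z.card) (by omega)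
  have h3 := finrank_V2 (u.totalDegree + v.totalDegree + Z.card)
  have h4 := finrank_V2 (v.totalDegree + Z.card)
  have h5 := finrank_V2 (u.totalDegree + Z.card)
  have h6 := finrank_V2 Z.card
  nlinarith [h1, h2, h3, h4, h5, h6]

end D4Q
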