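import Mathlib
import Pool.Agent.D4Q.PlBez

/-!
# D4Q-PpS: squarefree part without vertical factors

By induction on the degree: if `u` and `∂u/∂y` have a common irreducible factor `w`, `u = w u'`, then `w` divides `w_y u'`.
If `w` divides `u'`, then `u` and `u'` have the same zeros. Otherwise `w` divides `w_y`, so `w_y = 0` by degrees, `w` is a
polynomial in `x` and its zeros lie over at most `deg w` values of `x`. So one reaches `u` coprime to `∂u/∂y`, and
`planeBezout` bounds the number of the common zeros of both.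
-/

namespace D4Q

open MvPolynomial

/-- the degree of a derivative -/
private theorem PpS_deg {w : MvPolynomial (Fin 2) ℝ} (h : pderiv 1 w ≠ 0) :
    (pderiv 1 w).totalDegree < w.totalDegree := by
  have h1 : ∀ m ∈ (pderiv 1 w).support, (m.sum fun _ e => e) + 1 ≤ w.totalDegree := by
    intro m hm
    rw [mem_support_iff, coeff_pderiv] at hm
    have h2 : m + Finsupp.single 1 1 ∈ w.support := by
      rw [mem_support_iff]
      exact left_ne_zero_of_mul hm
    have h3 := le_totalDegree h2
    rw [Finsupp.sum_add_index' (fun _ => rfl) (fun _ _ _ => rfl), Finsupp.sum_single_index rfl] at h3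
    exact h3
  obtain ⟨m, hm⟩ := Finset.nonempty_iff_ne_empty.2 (fun h0 => h (support_eq_empty.1 h0))
  have h2 : (pderiv 1 w).totalDegree ≤ w.totalDegree - 1 := by
    rw [totalDegree]
    refine Finset.sup_le fun m hm => ?_
    have := h1 m hm
    omega
  have := h1 m hm
  omega

/-- the zeros of a polynomial which does not depend on `y` -/
private theorem PpS_vert {w : MvPolynomial (Fin 2) ℝ} (hw : w ≠ 0) (h : pderiv 1 w = 0) :
    ∃ X : Finset ℝ, X.card ≤ w.totalDegree ∧ ∀ z : Fin 2 → ℝ, eval z w = 0 → z 0 ∈ X := by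
  classical
  have h1 : ∀ m ∈ w.support, m 1 = 0 := by
    intro m hm
    by_contra h0
    have h2 : m - Finsupp.single 1 1 + Finsupp.single 1 1 = m := by
      refine Finsupp.ext fun i => ?_
      rw [Finsupp.add_apply, Finsupp.tsub_apply, Finsupp.single_apply]
      split_ifs with hi
      · rw [← hi]
        omega
      · omega
    have h3 := coeff_pderiv (i := 1) w (m - Finsupp.single 1 1)
    rw [h, coeff_zero, h2] at h3
    rcases mul_eq_zero.1 h3.symm with h4 | h4
    · exact (mem_support_iff.1 hm) h4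
    · have h5 : (0 : ℝ) ≤ (((m - Finsupp.single 1 1 : Fin 2 →₀ ℕ) 1 : ℕ) : ℝ) := Nat.cast_nonneg _
      linarith
  obtain ⟨g, hg⟩ : ∃ g : Fin 2 → Polynomial ℝ, g = fun i => if i = 0 then Polynomial.X else 0 := ⟨_, rfl⟩
  obtain ⟨p, hp⟩ : ∃ p : Polynomial ℝ, p = aeval g w := ⟨_, rfl⟩
  have hev : ∀ z : Fin 2 → ℝ, p.eval (z 0) = eval z w := by
    intro z
    have h2 : p.eval (z 0) = eval (fun i => (g i).eval (z 0)) w := by
      rw [hp, aeval_def, eval₂_eq', eval_eq']
      rw [Polynomial.eval_finsetSum]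
      refine Finset.sum_congr rfl fun m _ => ?_
      rw [Polynomial.eval_mul, Polynomial.eval_prod]
      congr 1
      · exact Polynomial.eval_C
      · refine Finset.prod_congr rfl fun i _ => ?_
        rw [Polynomial.eval_pow]
    rw [h2, eval_eq', eval_eq']
    refine Finset.sum_congr rfl fun m hm => ?_
    congr 1
    rw [Fin.prod_univ_two, Fin.prod_univ_two, h1 m hm, pow_zero, pow_zero, hg]
    simp
  have hp0 : p ≠ 0 := by
    intro h0
    apply hw
    refine MvPolynomial.funext fun z => ?_
    rw [← hev z, h0, Polynomial.eval_zero, map_zero]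
  refine ⟨p.roots.toFinset, ?_, fun z hz => ?_⟩
  · have h2 : p.natDegree ≤ w.totalDegree * 1 := by
      rw [hp]
      refine aeval_natDegree_le w le_rfl g fun i => ?_
      rw [hg]
      dsimp only
      split_ifs
      · exact Polynomial.natDegree_X_le
      · rw [Polynomial.natDegree_zero]
        exact Nat.zero_le 1
    rw [mul_one] at h2
    exact (Multiset.toFinset_card_le _).trans ((Polynomial.card_roots' p).trans h2)
  · rw [Multiset.mem_toFinset, Polynomial.mem_roots hp0, Polynomial.IsRoot, hev z, hz]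

/-- reduction to `u` coprime to `∂u/∂y` -/
private theorem PpS_core : ∀ (N : ℕ) (u : MvPolynomial (Fin 2) ℝ), u ≠ 0 → u.totalDegree ≤ N →
    ∃ (u' : MvPolynomial (Fin 2) ℝ) (X : Finset ℝ), u' ≠ 0 ∧ X.card + u'.totalDegree ≤ u.totalDegree ∧
      (∀ z : Fin 2 → ℝ, eval z u = 0 → z 0 ∈ X ∨ eval z u' = 0) ∧ IsRelPrime u' (pderiv 1 u') := by
  classical
  intro N
  induction N with
  | zero =>
    intro u hu hd
    refine ⟨u, ∅, hu, by simp, fun z hz => Or.inr hz, ?_⟩
    have h1 : IsUnit u := by
      have h2 := totalDegree_eq_zero_iff_eq_C.1 (Nat.le_zero.1 hd)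
      rw [h2] at hu ⊢
      refine (IsUnit.mk0 _ fun h0 => hu ?_).map C
      rw [h0, C_0]
    exact h1.isRelPrime_left
  | succ N ih =>
    intro u hu hd
    by_cases hr : IsRelPrime u (pderiv 1 u)
    · exact ⟨u, ∅, hu, by simp, fun z hz => Or.inr hz, hr⟩
    · rw [IsRelPrime] at hr
      push Not at hr
      obtain ⟨d, hd1, hd2, hd3⟩ := hr
      have hd0 : d ≠ 0 := fun h0 => hu (by rw [h0] at hd1; exact zero_dvd_iff.1 hd1)
      obtain ⟨w, hw, hwd⟩ := WfDvdMonoid.exists_irreducible_factor hd3 hd0
      obtain ⟨u', hu'⟩ := hwd.trans hd1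
      have hw0 : w ≠ 0 := hw.ne_zero
      have hu0 : u' ≠ 0 := by
        intro h0
        rw [h0, mul_zero] at hu'
        exact hu hu'
      have hwt : 0 < w.totalDegree := by
        rcases Nat.eq_zero_or_pos w.totalDegree with h0 | h0
        · exfalso
          apply hw.not_isUnit
          have h2 := totalDegree_eq_zero_iff_eq_C.1 h0
          rw [h2] at hw0 ⊢
          refine (IsUnit.mk0 _ fun h0 => hw0 ?_).map C
          rw [h0, C_0]
        · exact h0
      have hdeg : u.totalDegree = w.totalDegree + u'.totalDegree := by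
        rw [hu', totalDegree_mul_of_isDomain hw0 hu0]
      obtain ⟨u'', X, h1, h2, h3, h4⟩ := ih u' hu0 (by omega)
      have hdv : w ∣ pderiv 1 w * u' := by
        have h5 : w ∣ pderiv 1 u := hwd.trans hd2
        rw [hu', pderiv_mul] at h5
        exact (dvd_add_left (Dvd.intro _ rfl)).1 h5
      rcases hw.prime.dvd_or_dvd hdv with h5 | h5
      · have h6 : pderiv 1 w = 0 := by
          by_contra h6
          have h7 := totalDegree_le_of_dvd_of_isDomain h5 h6
          have h8 := PpS_deg h6
          omega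
        obtain ⟨Xw, hX1, hX2⟩ := PpS_vert hw0 h6
        refine ⟨u'', X ∪ Xw, h1, ?_, fun z hz => ?_, h4⟩
        · have := Finset.card_union_le X Xw
          omega
        · rw [hu', map_mul] at hz
          rcases mul_eq_zero.1 hz with h7 | h7
          · exact Or.inl (Finset.mem_union_right _ (hX2 z h7))
          · rcases h3 z h7 with h8 | h8
            · exact Or.inl (Finset.mem_union_left _ h8)
            · exact Or.inr h8
      · refine ⟨u'', X, h1, by omega, fun z hz => ?_, h4⟩
        refine h3 z ?_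
        rw [hu', map_mul] at hz
        rcases mul_eq_zero.1 hz with h7 | h7
        · obtain ⟨q, hq⟩ := h5
          rw [hq, map_mul, h7, zero_mul]
        · exact h7

theorem ppS (u0 : MvPolynomial (Fin 2) ℝ) (h0 : u0 ≠ 0) :
    ∃ (u : MvPolynomial (Fin 2) ℝ) (X0 : Finset ℝ), u.totalDegree ≤ u0.totalDegree ∧
      X0.card ≤ u0.totalDegree + u0.totalDegree ^ 2 ∧
      ∀ z : Fin 2 → ℝ, eval z u0 = 0 → z 0 ∈ X0 ∨ (eval z u = 0 ∧ eval z (pderiv 1 u) ≠ 0) := by
  classical
  obtain ⟨u, X, hu, hX, hz, hr⟩ := PpS_core u0.totalDegree u0 h0 le_rfl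
  obtain ⟨S, hS⟩ : ∃ S : Set (Fin 2 → ℝ), S = {z | eval z u = 0 ∧ eval z (pderiv 1 u) = 0} := ⟨_, rfl⟩
  have hB : ∀ Z : Finset (Fin 2 → ℝ), (Z : Set (Fin 2 → ℝ)) ⊆ S → Z.card ≤ u0.totalDegree ^ 2 := by
    intro Z hZ
    have h1 := planeBezout u (pderiv 1 u) hr Z fun z hz => by
      have := hZ (Finset.mem_coe.2 hz)
      rw [hS] at this
      exact this
    have h2 : (pderiv 1 u).totalDegree ≤ u.totalDegree := by
      by_cases h3 : pderiv 1 u = 0
      · rw [h3, totalDegree_zero]
        exact Nat.zero_le _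
      · exact (PpS_deg h3).le
    refine h1.trans ?_
    rw [pow_two]
    exact Nat.mul_le_mul (by omega) (by omega)
  have hfin : S.Finite := by
    by_contra hinf
    obtain ⟨Z, hZ1, hZ2⟩ := Set.Infinite.exists_subset_card_eq hinf (u0.totalDegree ^ 2 + 1)
    have := hB Z hZ1
    omega
  refine ⟨u, X ∪ hfin.toFinset.image (fun z => z 0), by omega, ?_, fun z hz0 => ?_⟩
  · have h1 := hB hfin.toFinset (by rw [hfin.coe_toFinset])
    have h2 := Finset.card_union_le X (hfin.toFinset.image (fun z => z 0))
    have h3 : (hfin.toFinset.image (fun z => z 0)).card ≤ hfin.toFinset.card := Finset.card_image_le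
    omega
  · rcases hz z hz0 with h1 | h1
    · exact Or.inl (Finset.mem_union_left _ h1)
    · by_cases h2 : eval z (pderiv 1 u) = 0
      · left
        refine Finset.mem_union_right _ (Finset.mem_image.2 ⟨z, ?_, rfl⟩)
        rw [hfin.mem_toFinset, hS]
        exact ⟨h1, h2⟩
      · exact Or.inr ⟨h1, h2⟩

end D4Q
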