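import Mathlib
import Pool.Agent.D4Q.PpN
import Pool.Agent.D4Q.PpS

/-!
# D4Q-Pp: planar regularisation

Combine `ppN` and `ppS`.
-/

namespace D4Q

open MvPolynomial

theorem pp (c K : ℕ) : ∃ K1 : ℕ, ∀ (e : Fin c → MvPolynomial (Fin c ⊕ Fin 2) ℝ)
    (S : Set (Fin c ⊕ Fin 2 → ℝ)), IsEt K e S →
    ∀ (q : MvPolynomial (Fin c ⊕ Fin 2) ℝ),
    ∃ (u : MvPolynomial (Fin 2) ℝ) (X0 : Finset ℝ), u.totalDegree ≤ K1 * (q.totalDegree + 1) ∧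
      X0.card ≤ K1 * (q.totalDegree + 1) ^ 2 ∧
      ∀ s ∈ S, eval s q = 0 → ¬ (∀ᶠ t in nhdsWithin s S, eval t q = 0) →
        s (Sum.inr 0) ∈ X0 ∨
        (eval (s ∘ Sum.inr) u = 0 ∧ eval (s ∘ Sum.inr) (pderiv 1 u) ≠ 0) := by
  obtain ⟨K0, hK0⟩ := ppN c K
  refine ⟨K0 + K0 ^ 2, fun e S hS q => ?_⟩
  obtain ⟨u0, h0, hd, hz⟩ := hK0 e S hS q
  obtain ⟨u, X0, hu, hX, h1⟩ := ppS u0 h0
  refine ⟨u, X0, ?_, ?_, fun s hs hq hn => h1 (s ∘ Sum.inr) (hz s hs hq hn)⟩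
  · calc u.totalDegree ≤ K0 * (q.totalDegree + 1) := hu.trans hd
      _ ≤ (K0 + K0 ^ 2) * (q.totalDegree + 1) := Nat.mul_le_mul_right _ (Nat.le_add_right _ _)
  · have h2 : u0.totalDegree ^ 2 ≤ (K0 * (q.totalDegree + 1)) ^ 2 := Nat.pow_le_pow_left hd 2
    have h3 : q.totalDegree + 1 ≤ (q.totalDegree + 1) ^ 2 := by nlinarith
    calc X0.card ≤ u0.totalDegree + u0.totalDegree ^ 2 := hX
      _ ≤ K0 * (q.totalDegree + 1) + (K0 * (q.totalDegree + 1)) ^ 2 := Nat.add_le_add hd h2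
      _ ≤ K0 * (q.totalDegree + 1) ^ 2 + (K0 * (q.totalDegree + 1)) ^ 2 :=
        Nat.add_le_add_right (Nat.mul_le_mul_left _ h3) _
      _ = (K0 + K0 ^ 2) * (q.totalDegree + 1) ^ 2 := by ring

end D4Q
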