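import Mathlib
import Pool.Agent.D4Q.Frame_A
import Pool.Agent.D4Q.GC
import Pool.Agent.D4Q.PP

/-!
# D4Q-FrameL: numbers of labels on one surface

PROOF. `lab0`: choose one `s ∈ Z` for each element of the image: a subset `Q` of `Z` on which `s ↦ sgn f (ev ψ s)` is injective, with the same number
of elements as the image (`Finset.exists_subset_image...`, `Finset.exists_subset_injOn_image_eq`, or `Function.invFunOn`). `q = ∏ j, bind₁ ψ (f j)`: degree `≤ K * ∑ deg f_j`. By `sgn_comp`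
different points of `Q` are in different components of `{t | t ∈ S ∧ eval t q ≠ 0}`: `gcSurf`.
`lab1`: `pp` for `q = bind₁ ψ h` gives `u` and `X0` (`deg q + 1 ≤ K deg h + 1 ≤ (K + 1) deg h`). Let `u' = rename Sum.inr u`. As `∂u'/∂(inl b) = 0` and `∂u'/∂(inr 1) = (∂u/∂1)'` the matrix of
`bord e u' 1` is block triangular: `bord e u' 1 = mu e * rename Sum.inr (pderiv 1 u)` (`Matrix.det_fromBlocks_zero₂₁`). On `S` `mu e ≠ 0` (`IsEt.reg`). So all `s ∈ Z` are in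
`Crv e S 1 u' l`, `l = ∏ j, bind₁ ψ (f j)`. Again one point for each label, `sgn_comp` (on `Crv` all `f j` are nonzero), `gcCurve`; `deg u' ≤ K1 (K + 1) deg h`.
-/

namespace D4Q

open MvPolynomial

/-- one point for each label -/
private theorem Frame_L_choose {α β : Type*} [DecidableEq β] (Z : Finset α) (g : α → β) :
    ∃ Q : Finset α, Q ⊆ Z ∧ (∀ p ∈ Q, ∀ p' ∈ Q, g p = g p' → p = p') ∧ (Z.image g).card = Q.card := by
  obtain ⟨Q, hQ, hinj, him⟩ := Finset.exists_subset_injOn_image_eq_of_surjOn (f := g) (Z : Set α) (Z.image g) (by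
    intro y hy
    rw [Finset.coe_image] at hy
    exact hy)
  refine ⟨Q, Finset.coe_subset.1 hQ, fun p hp p' hp' h => hinj hp hp' h, ?_⟩
  rw [← him, Finset.card_image_of_injOn hinj]

private theorem Frame_L_eval {ι κ : Type*} {J : ℕ} (ψ : κ → MvPolynomial ι ℝ) (f : Fin J → MvPolynomial κ ℝ)
    (s : ι → ℝ) : eval s (∏ j, bind₁ ψ (f j)) ≠ 0 ↔ ∀ j, eval (ev ψ s) (f j) ≠ 0 := by
  rw [map_prod, Finset.prod_ne_zero_iff]
  constructor
  · intro h j
    rw [← eval_bind]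
    exact h j (Finset.mem_univ _)
  · intro h j _
    rw [eval_bind]
    exact h j

private theorem Frame_L_deg {ι κ : Type*} {J K : ℕ} (ψ : κ → MvPolynomial ι ℝ) (hψ : ∀ i, (ψ i).totalDegree ≤ K)
    (f : Fin J → MvPolynomial κ ℝ) : (∏ j, bind₁ ψ (f j)).totalDegree ≤ K * ∑ j, (f j).totalDegree := by
  refine (totalDegree_finsetProd _ _).trans ?_
  rw [Finset.mul_sum]
  exact Finset.sum_le_sum fun j _ => totalDegree_bind ψ hψ (f j)

private theorem Frame_L_pd {c : ℕ} (u : MvPolynomial (Fin 2) ℝ) (b : Fin c) :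
    pderiv (Sum.inl b : Fin c ⊕ Fin 2) (rename (Sum.inr : Fin 2 → Fin c ⊕ Fin 2) u) = 0 := by
  classical
  apply pderiv_eq_zero_of_notMem_vars
  intro h
  have h1 := vars_rename (Sum.inr : Fin 2 → Fin c ⊕ Fin 2) u h
  obtain ⟨i, -, hi⟩ := Finset.mem_image.1 h1
  exact absurd hi (by simp)

private theorem Frame_L_bord {c : ℕ} (e : Fin c → MvPolynomial (Fin c ⊕ Fin 2) ℝ) (u : MvPolynomial (Fin 2) ℝ) :
    HDI.bord e (rename (Sum.inr : Fin 2 → Fin c ⊕ Fin 2) u) 1 =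
      HDI.mu e * rename (Sum.inr : Fin 2 → Fin c ⊕ Fin 2) (pderiv 1 u) := by
  unfold HDI.bord HDI.mu
  have h1 : (Matrix.of fun (_ : Unit) (b : Fin c) =>
      pderiv (Sum.inl b : Fin c ⊕ Fin 2) (rename (Sum.inr : Fin 2 → Fin c ⊕ Fin 2) u)) = 0 := by
    ext i b
    rw [Matrix.of_apply, Frame_L_pd]
    rfl
  rw [h1, Matrix.det_fromBlocks_zero₂₁, Matrix.det_unique (A := Matrix.of fun (_ : Unit) (_ : Unit) => _),
    Matrix.of_apply, pderiv_rename Sum.inr_injective]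

open scoped Classical in
theorem lab0 (c K : ℕ) : ∃ A : ℕ, ∀ (e : Fin c → MvPolynomial (Fin c ⊕ Fin 2) ℝ)
    (S : Set (Fin c ⊕ Fin 2 → ℝ)), IsEt K e S → ∀ ψ : Fin 4 → MvPolynomial (Fin c ⊕ Fin 2) ℝ, IsChart K ψ →
    ∀ (J : ℕ) (f : Fin J → MvPolynomial (Fin 4) ℝ) (Z : Finset (Fin c ⊕ Fin 2 → ℝ)),
    (∀ s ∈ Z, s ∈ S ∧ ∀ j, eval (ev ψ s) (f j) ≠ 0) →
    (Z.image fun s => sgn f (ev ψ s)).card ≤ A * ((∑ j, (f j).totalDegree) + 1) ^ 2 := by
  obtain ⟨K1, hK1⟩ := gcSurf c K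
  refine ⟨K1 * (K + 1) ^ 2, fun e S hS ψ hψ J f Z hZ => ?_⟩
  obtain ⟨Q, hQZ, hinj, hcard⟩ := Frame_L_choose Z fun s => sgn f (ev ψ s)
  have h1 := hK1 e S hS (∏ j, bind₁ ψ (f j)) Q (fun p hp => ⟨(hZ p (hQZ hp)).1,
    (Frame_L_eval ψ f p).2 (hZ p (hQZ hp)).2⟩) (by
      intro p hp p' hp' hne hmem
      refine hne (hinj p hp p' hp' (sgn_comp ψ f (fun t ht j => ?_) hmem))
      exact (Frame_L_eval ψ f t).1 ht.2 j)
  have h2 := Frame_L_deg ψ hψ.deg f
  rw [hcard]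
  refine h1.trans ?_
  rw [mul_assoc, ← mul_pow]
  refine Nat.mul_le_mul_left _ (Nat.pow_le_pow_left ?_ 2)
  calc (∏ j, bind₁ ψ (f j)).totalDegree + 1 ≤ K * (∑ j, (f j).totalDegree) + 1 := Nat.add_le_add_right h2 1
    _ ≤ K * (∑ j, (f j).totalDegree) + 1 + (K + ∑ j, (f j).totalDegree) := Nat.le_add_right _ _
    _ = (K + 1) * (∑ j, (f j).totalDegree + 1) := by ring

open scoped Classical in
theorem lab1 (c K : ℕ) : ∃ A : ℕ, ∀ (e : Fin c → MvPolynomial (Fin c ⊕ Fin 2) ℝ)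
    (S : Set (Fin c ⊕ Fin 2 → ℝ)), IsEt K e S → ∀ ψ : Fin 4 → MvPolynomial (Fin c ⊕ Fin 2) ℝ, IsChart K ψ →
    ∀ h : MvPolynomial (Fin 4) ℝ, 1 ≤ h.totalDegree →
    ∃ X0 : Finset ℝ, X0.card ≤ A * h.totalDegree ^ 2 ∧
      ∀ (J : ℕ) (f : Fin J → MvPolynomial (Fin 4) ℝ) (Z : Finset (Fin c ⊕ Fin 2 → ℝ)),
      (∀ s ∈ Z, s ∈ S ∧ (∀ j, eval (ev ψ s) (f j) ≠ 0) ∧ eval (ev ψ s) h = 0 ∧ ¬ VanAt S ψ h s ∧
        s (Sum.inr 0) ∉ X0) →
      (Z.image fun s => sgn f (ev ψ s)).card ≤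
        A * (h.totalDegree * (h.totalDegree + ∑ j, (f j).totalDegree)) := by
  obtain ⟨K1, hK1⟩ := pp c K
  obtain ⟨K2, hK2⟩ := gcCurve c K
  refine ⟨K1 * (K + 1) ^ 2 + K2 * (K1 * (K + 1) + 1) * (K1 * (K + 1) + 1 + K), fun e S hS ψ hψ h hd => ?_⟩
  obtain ⟨u, X0, hu, hX0, hS0⟩ := hK1 e S hS (bind₁ ψ h)
  have hq : (bind₁ ψ h).totalDegree + 1 ≤ (K + 1) * h.totalDegree := by
    have := totalDegree_bind ψ hψ.deg h
    nlinarith
  have hu' : u.totalDegree ≤ K1 * (K + 1) * h.totalDegree := by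
    rw [mul_assoc]
    exact hu.trans (Nat.mul_le_mul_left _ hq)
  refine ⟨X0, ?_, ?_⟩
  · calc X0.card ≤ K1 * ((bind₁ ψ h).totalDegree + 1) ^ 2 := hX0
      _ ≤ K1 * ((K + 1) * h.totalDegree) ^ 2 := Nat.mul_le_mul_left _ (Nat.pow_le_pow_left hq 2)
      _ = K1 * (K + 1) ^ 2 * h.totalDegree ^ 2 := by ring
      _ ≤ _ := Nat.mul_le_mul_right _ (Nat.le_add_right _ _)
  · intro J f Z hZ
    obtain ⟨Q, hQZ, hinj, hcard⟩ := Frame_L_choose Z fun s => sgn f (ev ψ s)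
    have h1 := hK2 e S hS 1 (rename Sum.inr u) (∏ j, bind₁ ψ (f j)) Q (by
        intro p hp
        obtain ⟨a1, a2, a3, a4, a5⟩ := hZ p (hQZ hp)
        obtain ⟨b1, b2⟩ := (hS0 p a1 (by rw [eval_bind]; exact a3) (fun h6 => a4 (by
          unfold VanAt
          filter_upwards [h6] with t ht
          rwa [eval_bind] at ht))).resolve_left a5
        refine ⟨a1, ?_, ?_, ?_⟩
        · rw [eval_rename]
          exact b1
        · rw [Frame_L_bord, map_mul, eval_rename]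
          exact mul_ne_zero (hS.reg p (hS.zero p a1)) b2
        · exact (Frame_L_eval ψ f p).2 a2) (by
        intro p hp p' hp' hne hmem
        refine hne (hinj p hp p' hp' (sgn_comp ψ f (fun t ht j => ?_) hmem))
        exact (Frame_L_eval ψ f t).1 ht.2.2.2 j)
    have h2 := Frame_L_deg ψ hψ.deg f
    rw [hcard]
    refine h1.trans ?_
    have h3 : (rename (Sum.inr : Fin 2 → Fin c ⊕ Fin 2) u).totalDegree ≤ K1 * (K + 1) * h.totalDegree :=
      (totalDegree_rename_le _ _).trans hu'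
    have h4 : (rename (Sum.inr : Fin 2 → Fin c ⊕ Fin 2) u).totalDegree + 1 ≤
        (K1 * (K + 1) + 1) * h.totalDegree := by
      rw [add_mul, one_mul]
      exact add_le_add h3 hd
    have h5 : (rename (Sum.inr : Fin 2 → Fin c ⊕ Fin 2) u).totalDegree + (∏ j, bind₁ ψ (f j)).totalDegree + 1 ≤
        (K1 * (K + 1) + 1 + K) * (h.totalDegree + ∑ j, (f j).totalDegree) := by
      calc (rename (Sum.inr : Fin 2 → Fin c ⊕ Fin 2) u).totalDegree + (∏ j, bind₁ ψ (f j)).totalDegree + 1 =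
          ((rename (Sum.inr : Fin 2 → Fin c ⊕ Fin 2) u).totalDegree + 1) + (∏ j, bind₁ ψ (f j)).totalDegree := by
            ring
        _ ≤ (K1 * (K + 1) + 1) * h.totalDegree + K * ∑ j, (f j).totalDegree := add_le_add h4 h2
        _ ≤ (K1 * (K + 1) + 1 + K) * h.totalDegree + (K1 * (K + 1) + 1 + K) * ∑ j, (f j).totalDegree :=
            add_le_add (Nat.mul_le_mul_right _ (Nat.le_add_right _ _))
              (Nat.mul_le_mul_right _ (Nat.le_add_left _ _))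
        _ = _ := by ring
    calc K2 * ((rename (Sum.inr : Fin 2 → Fin c ⊕ Fin 2) u).totalDegree + 1) *
        ((rename (Sum.inr : Fin 2 → Fin c ⊕ Fin 2) u).totalDegree + (∏ j, bind₁ ψ (f j)).totalDegree + 1)
        ≤ K2 * ((K1 * (K + 1) + 1) * h.totalDegree) *
          ((K1 * (K + 1) + 1 + K) * (h.totalDegree + ∑ j, (f j).totalDegree)) :=
          Nat.mul_le_mul (Nat.mul_le_mul_left _ h4) h5
      _ = K2 * (K1 * (K + 1) + 1) * (K1 * (K + 1) + 1 + K) *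
          (h.totalDegree * (h.totalDegree + ∑ j, (f j).totalDegree)) := by ring
      _ ≤ _ := Nat.mul_le_mul_right _ (Nat.le_add_left _ _)

end D4Q
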