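import Mathlib
import Pool.Agent.D4Q.Defs

/-!
# D4Q-Kstc: Kővári-Sós-Turán in cells

PROOF. For a surface `i` and a label `g` let `r = r(i, g)` be the number of `z ∈ E` with `z.2 = i`, `χ z.1 = g`; the number of pairs with `r > 0` is at most `V`.
`∑_{i,g} (r choose k) ≤ K ∑_g (|cell g| choose k) ≤ K Λ / k!` (count pairs of a `k`-subset `R` of a cell of `Q` and a surface `i` with `(p, i) ∈ E` for `p ∈ R`). And
`(r + 1 - k)^k ≤ k! (r choose k)`. So `|E| = ∑ r ≤ k V + ∑_{r>0} (r + 1 - k)`, and the last sum is at most `V^{1-1/k} (K Λ)^{1/k}` by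
the power mean inequality.
-/

namespace D4Q

open MvPolynomial

open scoped Classical in
private lemma Kstc_choose {P I : Type} [Fintype I] (k K : ℕ) (E : Finset (P × I)) (Q C : Finset P) (hC : C ⊆ Q)
    (hK : ∀ R : Finset P, R ⊆ Q → R.card = k →
      (Finset.univ.filter fun i => ∀ p ∈ R, (p, i) ∈ E).card ≤ K) :
    ∑ i : I, (C.filter fun p => (p, i) ∈ E).card.choose k ≤ K * C.card.choose k := by
  have h1 : ∀ i : I, (C.filter fun p => (p, i) ∈ E).card.choose k =
      (Finset.bipartiteAbove (fun (i : I) (R : Finset P) => ∀ p ∈ R, (p, i) ∈ E)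
        (C.powersetCard k) i).card := by
    intro i
    rw [← Finset.card_powersetCard]
    congr 1
    ext R
    rw [Finset.mem_powersetCard, Finset.mem_bipartiteAbove, Finset.mem_powersetCard]
    constructor
    · rintro ⟨hR, hk⟩
      refine ⟨⟨hR.trans (Finset.filter_subset _ _), hk⟩, ?_⟩
      intro p hp
      exact (Finset.mem_filter.1 (hR hp)).2
    · rintro ⟨⟨hR, hk⟩, h⟩
      refine ⟨?_, hk⟩
      intro p hp
      exact Finset.mem_filter.2 ⟨hR hp, h p hp⟩
  rw [Finset.sum_congr rfl (fun i _ => h1 i),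
    Finset.sum_card_bipartiteAbove_eq_sum_card_bipartiteBelow]
  have h2 : ∀ R ∈ C.powersetCard k, (Finset.bipartiteBelow
      (fun (i : I) (R : Finset P) => ∀ p ∈ R, (p, i) ∈ E) Finset.univ R).card ≤ K := by
    intro R hR
    rw [Finset.mem_powersetCard] at hR
    exact hK R (hR.1.trans hC) hR.2
  refine (Finset.sum_le_card_nsmul _ _ _ h2).trans ?_
  rw [Finset.card_powersetCard, smul_eq_mul, mul_comm]

open scoped Classical in
private lemma Kstc_card {P I Γ : Type} [Fintype I] [Fintype Γ]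
    (E : Finset (P × I)) (Q : Finset P) (χ : P → Γ) (hE : ∀ z ∈ E, z.1 ∈ Q) :
    E.card = ∑ i : I, ∑ g : Γ,
      ((Q.filter fun p => χ p = g).filter fun p => (p, i) ∈ E).card := by
  rw [Finset.card_eq_sum_card_fiberwise (f := fun z : P × I => z.2) (t := Finset.univ)
    (fun _ _ => Finset.mem_coe.2 (Finset.mem_univ _))]
  refine Finset.sum_congr rfl fun i _ => ?_
  rw [Finset.card_eq_sum_card_fiberwise (f := fun z : P × I => χ z.1) (t := Finset.univ)
    (fun _ _ => Finset.mem_coe.2 (Finset.mem_univ _))]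
  refine Finset.sum_congr rfl fun g _ => ?_
  refine Finset.card_bij (fun z _ => z.1) ?_ ?_ ?_
  · intro z hz
    rw [Finset.mem_filter, Finset.mem_filter] at hz
    obtain ⟨⟨hz, hi⟩, hg⟩ := hz
    rw [Finset.mem_filter, Finset.mem_filter]
    refine ⟨⟨hE z hz, hg⟩, ?_⟩
    rw [← hi]
    exact hz
  · intro z hz w hw h
    rw [Finset.mem_filter, Finset.mem_filter] at hz hw
    exact Prod.ext h (hz.1.2.trans hw.1.2.symm)
  · intro p hp
    rw [Finset.mem_filter, Finset.mem_filter] at hp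
    refine ⟨(p, i), ?_, rfl⟩
    rw [Finset.mem_filter, Finset.mem_filter]
    exact ⟨⟨hp.2, rfl⟩, hp.1.2⟩

open scoped Classical in
/-- Kővári–Sós–Turán in cells. -/
theorem kstc (k K : ℕ) (hk : 2 ≤ k) : ∃ A : ℝ, 0 < A ∧ ∀ (P I Γ : Type) [Fintype I] [Fintype Γ]
    (E : Finset (P × I)) (Q : Finset P) (χ : P → Γ), (∀ z ∈ E, z.1 ∈ Q) →
    (∀ R : Finset P, R ⊆ Q → R.card = k → (Finset.univ.filter fun i => ∀ p ∈ R, (p, i) ∈ E).card ≤ K) →
    ∀ V Λ : ℝ, (∑ i, (((E.filter fun z => z.2 = i).image fun z => χ z.1).card : ℝ)) ≤ V →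
    (∑ g, ((Q.filter fun p => χ p = g).card : ℝ) ^ k) ≤ Λ →
    (E.card : ℝ) ≤ A * (V + V ^ (1 - 1 / (k : ℝ)) * Λ ^ (1 / (k : ℝ))) := by
  refine ⟨(k : ℝ) + K + 1, by positivity, ?_⟩
  intro P I Γ _ _ E Q χ hE hK V Λ hV hΛ
  obtain ⟨a, ha⟩ : ∃ a : I × Γ → ℕ, ∀ i g, a (i, g) =
      ((Q.filter fun p => χ p = g).filter fun p => (p, i) ∈ E).card :=
    ⟨fun q => ((Q.filter fun p => χ p = q.2).filter fun p => (p, q.1) ∈ E).card, fun _ _ => rfl⟩
  have hk0 : k ≠ 0 := by omega
  have hkr : (0 : ℝ) < k := by positivity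
  -- the number of incidences
  have hEc : E.card = ∑ q : I × Γ, a q := by
    rw [Kstc_card E Q χ hE, Fintype.sum_prod_type]
    exact Finset.sum_congr rfl fun i _ => Finset.sum_congr rfl fun g _ => (ha i g).symm
  obtain ⟨S, hS⟩ : ∃ S : Finset (I × Γ), S = Finset.univ.filter fun q => a q ≠ 0 := ⟨_, rfl⟩
  have hES : E.card = ∑ q ∈ S, a q := by
    rw [hEc, hS]
    exact (Finset.sum_filter_ne_zero _).symm
  -- the number of pairs with `a > 0`
  have hSV : (S.card : ℝ) ≤ V := by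
    refine le_trans ?_ hV
    have h1 : S.card = ∑ i : I, (S.filter fun q => q.1 = i).card :=
      Finset.card_eq_sum_card_fiberwise (f := fun q : I × Γ => q.1) (t := Finset.univ)
        (fun _ _ => Finset.mem_coe.2 (Finset.mem_univ _))
    rw [h1]
    push_cast
    refine Finset.sum_le_sum fun i _ => ?_
    have h2 : (S.filter fun q => q.1 = i).card ≤
        ((E.filter fun z => z.2 = i).image fun z => χ z.1).card := by
      refine Finset.card_le_card_of_injOn (fun q => q.2) ?_ ?_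
      · intro q hq
        rw [Finset.mem_coe, Finset.mem_filter, hS, Finset.mem_filter] at hq
        obtain ⟨⟨-, hq⟩, hi⟩ := hq
        obtain ⟨j, g⟩ := q
        simp only at hi
        subst hi
        rw [ha] at hq
        obtain ⟨p, hp⟩ := Finset.card_ne_zero.1 hq
        rw [Finset.mem_filter, Finset.mem_filter] at hp
        rw [Finset.mem_coe, Finset.mem_image]
        exact ⟨(p, j), Finset.mem_filter.2 ⟨hp.2, rfl⟩, hp.1.2⟩
      · intro q hq q' hq' h
        rw [Finset.mem_coe, Finset.mem_filter] at hq hq'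
        exact Prod.ext (hq.2.trans hq'.2.symm) h
    exact_mod_cast h2
  have hV0 : 0 ≤ V := le_trans (Nat.cast_nonneg _) hSV
  have hΛ0 : 0 ≤ Λ := le_trans (Finset.sum_nonneg fun g _ => by positivity) hΛ
  -- the power sum
  have hsum : ∑ q ∈ S, ((a q + 1 - k : ℕ) : ℝ) ^ k ≤ K * Λ := by
    have h1 : ∀ q : I × Γ, ((a q + 1 - k : ℕ) : ℝ) ^ k ≤ (k.factorial : ℝ) * ((a q).choose k : ℝ) := by
      intro q
      have h := Nat.pow_le_choose (α := ℝ) k (a q)
      rw [div_le_iff₀ (by positivity)] at h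
      linarith
    have h2 : ∑ q ∈ S, ((a q + 1 - k : ℕ) : ℝ) ^ k ≤
        ∑ q : I × Γ, (k.factorial : ℝ) * ((a q).choose k : ℝ) := by
      refine (Finset.sum_le_sum fun q _ => h1 q).trans ?_
      exact Finset.sum_le_sum_of_subset_of_nonneg (Finset.subset_univ _)
        (fun q _ _ => by positivity)
    refine h2.trans ?_
    rw [Fintype.sum_prod_type, Finset.sum_comm]
    have h3 : ∀ g : Γ, ∑ i : I, (k.factorial : ℝ) * ((a (i, g)).choose k : ℝ) ≤
        K * ((Q.filter fun p => χ p = g).card : ℝ) ^ k := by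
      intro g
      rw [← Finset.mul_sum]
      have h4 := Kstc_choose k K E Q (Q.filter fun p => χ p = g) (Finset.filter_subset _ _) hK
      have h5 : ∑ i : I, ((a (i, g)).choose k : ℝ) ≤
          K * ((Q.filter fun p => χ p = g).card.choose k : ℝ) := by
        have h6 : ∑ i : I, ((a (i, g)).choose k : ℝ) =
            ((∑ i : I, ((Q.filter fun p => χ p = g).filter fun p => (p, i) ∈ E).card.choose k : ℕ) : ℝ) := by
          push_cast
          exact Finset.sum_congr rfl fun i _ => by rw [ha]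
        rw [h6]
        exact_mod_cast h4
      have h7 := Nat.choose_le_pow_div (α := ℝ) k (Q.filter fun p => χ p = g).card
      rw [le_div_iff₀ (by positivity)] at h7
      have hf : (0 : ℝ) < k.factorial := by positivity
      calc (k.factorial : ℝ) * ∑ i : I, ((a (i, g)).choose k : ℝ)
          ≤ (k.factorial : ℝ) * (K * ((Q.filter fun p => χ p = g).card.choose k : ℝ)) :=
            mul_le_mul_of_nonneg_left h5 hf.le
        _ = K * (((Q.filter fun p => χ p = g).card.choose k : ℝ) * (k.factorial : ℝ)) := by ring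
        _ ≤ K * ((Q.filter fun p => χ p = g).card : ℝ) ^ k :=
            mul_le_mul_of_nonneg_left h7 (Nat.cast_nonneg K)
    refine (Finset.sum_le_sum fun g _ => h3 g).trans ?_
    rw [← Finset.mul_sum]
    exact mul_le_mul_of_nonneg_left hΛ (Nat.cast_nonneg K)
  -- power mean
  obtain ⟨s, hs⟩ : ∃ s : ℝ, s = ∑ q ∈ S, ((a q + 1 - k : ℕ) : ℝ) := ⟨_, rfl⟩
  have hs0 : 0 ≤ s := by
    rw [hs]
    exact Finset.sum_nonneg fun q _ => Nat.cast_nonneg _
  obtain ⟨m, hm⟩ : ∃ m : ℕ, k = m + 1 := ⟨k - 1, by omega⟩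
  have hpm : s ^ k ≤ V ^ m * (K * Λ) := by
    have h1 : s ^ (m + 1) ≤ (S.card : ℝ) ^ m * ∑ q ∈ S, ((a q + 1 - k : ℕ) : ℝ) ^ (m + 1) := by
      rw [hs]
      exact pow_sum_le_card_mul_sum_pow (fun q _ => Nat.cast_nonneg _) m
    rw [hm]
    refine h1.trans ?_
    rw [hm] at hsum
    apply mul_le_mul _ _ (Finset.sum_nonneg fun q _ => by positivity) (by positivity)
    · exact pow_le_pow_left₀ (Nat.cast_nonneg _) hSV m
    · rw [hm]
      exact hsum
  obtain ⟨y, hy⟩ : ∃ y : ℝ, y = V ^ (1 - 1 / (k : ℝ)) * Λ ^ (1 / (k : ℝ)) := ⟨_, rfl⟩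
  have hy0 : 0 ≤ y := by
    rw [hy]
    exact mul_nonneg (Real.rpow_nonneg hV0 _) (Real.rpow_nonneg hΛ0 _)
  have hyk : y ^ k = V ^ m * Λ := by
    rw [hy, mul_pow, ← Real.rpow_natCast, ← Real.rpow_natCast, ← Real.rpow_mul hV0,
      ← Real.rpow_mul hΛ0]
    have e1 : (1 - 1 / (k : ℝ)) * (k : ℝ) = (m : ℝ) := by
      have : (k : ℝ) = m + 1 := by exact_mod_cast hm
      field_simp
      linarith
    have e2 : 1 / (k : ℝ) * (k : ℝ) = 1 := by field_simp
    rw [e1, e2, Real.rpow_natCast, Real.rpow_one]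
  have hsy : s ≤ (K + 1) * y := by
    have h1 : s ^ k ≤ ((K + 1) * y) ^ k := by
      rw [mul_pow, hyk]
      refine hpm.trans ?_
      have h2 : (K : ℝ) ≤ ((K : ℝ) + 1) ^ k := by
        have h3 : ((K : ℝ) + 1) ^ 1 ≤ ((K : ℝ) + 1) ^ k :=
          pow_le_pow_right₀ (by linarith [Nat.cast_nonneg (α := ℝ) K]) (by omega)
        rw [pow_one] at h3
        linarith
      have h4 : 0 ≤ V ^ m * Λ := by positivity
      calc V ^ m * (K * Λ) = K * (V ^ m * Λ) := by ring
        _ ≤ ((K : ℝ) + 1) ^ k * (V ^ m * Λ) := mul_le_mul_of_nonneg_right h2 h4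
    exact le_of_pow_le_pow_left₀ hk0 (by positivity) h1
  -- the end
  have hfin : (E.card : ℝ) ≤ k * V + s := by
    rw [hES]
    push_cast
    have h1 : ∑ q ∈ S, (a q : ℝ) ≤ ∑ q ∈ S, ((k : ℝ) + ((a q + 1 - k : ℕ) : ℝ)) := by
      refine Finset.sum_le_sum fun q _ => ?_
      have : a q ≤ k + (a q + 1 - k) := by omega
      exact_mod_cast this
    refine h1.trans ?_
    rw [Finset.sum_add_distrib, ← hs, Finset.sum_const, nsmul_eq_mul]
    nlinarith
  have hK0 : (0 : ℝ) ≤ K := Nat.cast_nonneg K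
  rw [← hy]
  have e3 : ((k : ℝ) + K + 1) * (V + y) = k * V + (K + 1) * y + ((K + 1) * V + k * y) := by ring
  have e4 : 0 ≤ ((K : ℝ) + 1) * V + k * y := by positivity
  rw [e3]
  linarith

end D4Q
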