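import Mathlib
import Pool.Agent.D4Q.Kstc

/-!
# D4Q-FrameR: trivial ranges, and the bound in cells

PROOF. `fr_pairs`: `r_p = #{i | (p, i) ∈ D}`. For `i ≠ j` the map `p ↦ (s (p, i), s (p, j))` is injective from `{p | (p, i) ∈ D ∧ (p, j) ∈ D}` to the set of `Fr.cross`, so there are at most `K` such `p`. So
`∑_p r_p (r_p - 1) ≤ K n ^ 2` and `|D| = ∑_p r_p ≤ ∑_p (1 + r_p (r_p - 1)) ≤ |P| + K n ^ 2`. (Or: the `(p, i) ∈ D` with `i` the only index for `p` are at most `|P|`; ...)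
`fr_kst`: `kstc` with `Γ = Unit`, `E = D`, `Q = P`: `V = n`, `Λ = |P| ^ k`, `V ^ (1 - 1/k) Λ ^ (1/k) ≤ n ^ (1 - 1/k) (2 ^ (2k-1) n) ^ (1/k) ≤ 4 n`.
`fr_cells`: `kstc` with `V = a n t ^ 2`, `Λ = a m (m / t ^ 4) ^ (k-1)`; `a ^ (1 - 1/k) a ^ (1/k) = a`; so `|E| ≤ A (a n t ^ 2 + a n t ^ 2)`.
The decidability instances in `Fr.kdof` and in `kstc` may differ (`convert`, `Finset.filter_congr_decidable`).
-/

namespace D4Q

open MvPolynomial

private theorem FrR_fib {c k K : ℕ} {I : Type} [Fintype I] [DecidableEq I]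
    {e : I → Fin c → MvPolynomial (Fin c ⊕ Fin 2) ℝ} {S : I → Set (Fin c ⊕ Fin 2 → ℝ)}
    {ψ : I → Fin 4 → MvPolynomial (Fin c ⊕ Fin 2) ℝ} {P : Finset (Fin 4 → ℝ)}
    {D : Finset ((Fin 4 → ℝ) × I)} {s : (Fin 4 → ℝ) × I → (Fin c ⊕ Fin 2 → ℝ)}
    (hF : Fr c k K e S ψ P D s) {i j : I} (hij : i ≠ j) (F : Finset (Fin 4 → ℝ))
    (hf : ∀ p ∈ F, (p, i) ∈ D ∧ (p, j) ∈ D) : F.card ≤ K := by
  have h1 := hF.cross i j
  have h2 : ((fun p => (s (p, i), s (p, j))) '' (F : Set (Fin 4 → ℝ))).encard ≤ K := by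
    refine le_trans (Set.encard_le_encard ?_) h1
    rintro _ ⟨p, hp, rfl⟩
    obtain ⟨hi, hj⟩ := hf p hp
    obtain ⟨-, a1, a2⟩ := hF.mem _ hi
    obtain ⟨-, b1, b2⟩ := hF.mem _ hj
    exact ⟨a1, b1, fun h => absurd h hij, a2.trans b2.symm⟩
  rw [Set.InjOn.encard_image, Set.encard_coe_eq_coe_finsetCard] at h2
  · exact_mod_cast h2
  · intro p hp q hq h
    have a2 := (hF.mem _ (hf p hp).1).2.2
    have b2 := (hF.mem _ (hf q hq).1).2.2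
    have h3 : s (p, i) = s (q, i) := congrArg Prod.fst h
    calc p = ev (ψ i) (s (p, i)) := a2.symm
      _ = q := by rw [h3]; exact b2

theorem fr_pairs {c k K : ℕ} {I : Type} [Fintype I] [DecidableEq I]
    {e : I → Fin c → MvPolynomial (Fin c ⊕ Fin 2) ℝ} {S : I → Set (Fin c ⊕ Fin 2 → ℝ)}
    {ψ : I → Fin 4 → MvPolynomial (Fin c ⊕ Fin 2) ℝ} {P : Finset (Fin 4 → ℝ)}
    {D : Finset ((Fin 4 → ℝ) × I)} {s : (Fin 4 → ℝ) × I → (Fin c ⊕ Fin 2 → ℝ)}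
    (hF : Fr c k K e S ψ P D s) : D.card ≤ P.card + K * Fintype.card I ^ 2 := by
  classical
  by_cases hD : ∃ z, z ∈ D
  swap
  · push Not at hD
    rw [Finset.card_eq_zero.2 (Finset.eq_empty_of_forall_notMem hD)]
    exact Nat.zero_le _
  obtain ⟨z₀, hz₀⟩ := hD
  obtain ⟨g, hg⟩ : ∃ g : (Fin 4 → ℝ) → I, ∀ z ∈ D, (z.1, g z.1) ∈ D := by
    refine ⟨fun p => if h : ∃ i, (p, i) ∈ D then h.choose else z₀.2, fun z hz => ?_⟩
    have h : ∃ i, (z.1, i) ∈ D := ⟨z.2, hz⟩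
    simp only [dif_pos h]
    exact h.choose_spec
  have hsub : D ⊆ (P.image fun p => (p, g p)) ∪ (Finset.univ : Finset (I × I)).biUnion fun q =>
      if q.1 = q.2 then ∅ else (P.filter fun p => (p, q.1) ∈ D ∧ (p, q.2) ∈ D).image fun p => (p, q.2) := by
    intro z hz
    have hzP := (hF.mem z hz).1
    rw [Finset.mem_union, Finset.mem_image, Finset.mem_biUnion]
    by_cases h : g z.1 = z.2
    · exact Or.inl ⟨z.1, hzP, Prod.ext rfl h⟩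
    · right
      refine ⟨(g z.1, z.2), Finset.mem_univ _, ?_⟩
      rw [if_neg h, Finset.mem_image]
      exact ⟨z.1, Finset.mem_filter.2 ⟨hzP, hg z hz, hz⟩, rfl⟩
  refine (Finset.card_le_card hsub).trans ((Finset.card_union_le _ _).trans ?_)
  refine Nat.add_le_add Finset.card_image_le ?_
  refine Finset.card_biUnion_le.trans ?_
  have h1 : ∀ q ∈ (Finset.univ : Finset (I × I)), (if q.1 = q.2 then (∅ : Finset ((Fin 4 → ℝ) × I))
      else (P.filter fun p => (p, q.1) ∈ D ∧ (p, q.2) ∈ D).image fun p => (p, q.2)).card ≤ K := by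
    intro q _
    split_ifs with h
    · exact Nat.zero_le _
    · exact Finset.card_image_le.trans (FrR_fib hF h _ fun p hp => (Finset.mem_filter.1 hp).2)
  refine (Finset.sum_le_card_nsmul _ _ _ h1).trans ?_
  rw [Finset.card_univ, Fintype.card_prod, smul_eq_mul, ← pow_two, mul_comm]

private theorem FrR_kdof {c k K : ℕ} {I : Type} [Fintype I] [DecidableEq I]
    {e : I → Fin c → MvPolynomial (Fin c ⊕ Fin 2) ℝ} {S : I → Set (Fin c ⊕ Fin 2 → ℝ)}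
    {ψ : I → Fin 4 → MvPolynomial (Fin c ⊕ Fin 2) ℝ} {P : Finset (Fin 4 → ℝ)}
    {D : Finset ((Fin 4 → ℝ) × I)} {s : (Fin 4 → ℝ) × I → (Fin c ⊕ Fin 2 → ℝ)}
    (hF : Fr c k K e S ψ P D s) (R : Finset (Fin 4 → ℝ)) (hR : R ⊆ P) (hk : R.card = k) (F : Finset I)
    (hf : ∀ i ∈ F, ∀ p ∈ R, (p, i) ∈ D) : F.card ≤ K := by
  refine le_trans (Finset.card_le_card fun i hi => ?_) (hF.kdof R hR hk)
  exact Finset.mem_filter.2 ⟨Finset.mem_univ _, hf i hi⟩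

private theorem FrR_pow {k : ℕ} (hk : 2 ≤ k) {x : ℝ} (hx : 0 ≤ x) :
    x ^ (1 - 1 / (k : ℝ)) * x ^ (1 / (k : ℝ)) = x := by
  have hk' : (1 : ℝ) ≤ k := by exact_mod_cast (by omega : 1 ≤ k)
  have h1 : 1 / (k : ℝ) ≤ 1 := by
    rw [div_le_one (by linarith)]
    exact hk'
  rw [← Real.rpow_add_of_nonneg hx (by linarith) (by positivity), sub_add_cancel, Real.rpow_one]

theorem fr_kst (c k K : ℕ) (hk : 2 ≤ k) : ∃ A : ℝ, 0 < A ∧ ∀ (I : Type) [Fintype I] [DecidableEq I]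
    (e : I → Fin c → MvPolynomial (Fin c ⊕ Fin 2) ℝ) (S : I → Set (Fin c ⊕ Fin 2 → ℝ))
    (ψ : I → Fin 4 → MvPolynomial (Fin c ⊕ Fin 2) ℝ) (P : Finset (Fin 4 → ℝ))
    (D : Finset ((Fin 4 → ℝ) × I)) (s : (Fin 4 → ℝ) × I → (Fin c ⊕ Fin 2 → ℝ)),
    Fr c k K e S ψ P D s → P.card ^ k ≤ 2 ^ (2 * k - 1) * Fintype.card I →
    (D.card : ℝ) ≤ A * Fintype.card I := by
  obtain ⟨A, hA, h⟩ := kstc k K hk
  have hc0 : (0 : ℝ) ≤ ((2 : ℝ) ^ (2 * k - 1)) ^ (1 / (k : ℝ)) := by positivity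
  refine ⟨A * (1 + ((2 : ℝ) ^ (2 * k - 1)) ^ (1 / (k : ℝ))), by positivity, ?_⟩
  intro I _ _ e S ψ P D s hF hP
  have h1 := h (Fin 4 → ℝ) I Unit D P (fun _ => ()) (fun z hz => (hF.mem z hz).1)
    (fun R hR hRk => FrR_kdof hF R hR hRk _ fun i hi => by
      simp only [Finset.mem_filter] at hi
      exact hi.2)
    (Fintype.card I) ((P.card : ℝ) ^ k) (by
      have h2 : ∀ F : Finset Unit, (F.card : ℝ) ≤ 1 := fun F => by
        have h3 := Finset.card_le_univ F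
        rw [Fintype.card_unit] at h3
        exact_mod_cast h3
      refine (Finset.sum_le_sum fun i _ => h2 _).trans ?_
      rw [Finset.sum_const, Finset.card_univ, nsmul_eq_mul, mul_one]) (by
      rw [Fintype.sum_unique]
      refine pow_le_pow_left₀ (Nat.cast_nonneg _) ?_ k
      exact Nat.cast_le.2 (@Finset.card_filter_le _ _ _ (_)))
  have hn : (0 : ℝ) ≤ Fintype.card I := Nat.cast_nonneg _
  have h4 : ((P.card : ℝ) ^ k) ^ (1 / (k : ℝ)) ≤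
      ((2 : ℝ) ^ (2 * k - 1)) ^ (1 / (k : ℝ)) * (Fintype.card I : ℝ) ^ (1 / (k : ℝ)) := by
    rw [← Real.mul_rpow (by positivity) hn]
    refine Real.rpow_le_rpow (by positivity) ?_ (by positivity)
    exact_mod_cast hP
  refine h1.trans ?_
  rw [mul_assoc]
  refine mul_le_mul_of_nonneg_left ?_ hA.le
  have h5 : (Fintype.card I : ℝ) ^ (1 - 1 / (k : ℝ)) * ((P.card : ℝ) ^ k) ^ (1 / (k : ℝ)) ≤
      ((2 : ℝ) ^ (2 * k - 1)) ^ (1 / (k : ℝ)) * Fintype.card I := by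
    refine (mul_le_mul_of_nonneg_left h4 (Real.rpow_nonneg hn _)).trans (le_of_eq ?_)
    rw [mul_left_comm, FrR_pow hk hn]
  linarith

open scoped Classical in
theorem fr_cells (c k K : ℕ) (hk : 2 ≤ k) : ∃ A : ℝ, 0 < A ∧ ∀ (I : Type) [Fintype I] [DecidableEq I]
    (e : I → Fin c → MvPolynomial (Fin c ⊕ Fin 2) ℝ) (S : I → Set (Fin c ⊕ Fin 2 → ℝ))
    (ψ : I → Fin 4 → MvPolynomial (Fin c ⊕ Fin 2) ℝ) (P : Finset (Fin 4 → ℝ))
    (D : Finset ((Fin 4 → ℝ) × I)) (s : (Fin 4 → ℝ) × I → (Fin c ⊕ Fin 2 → ℝ)),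
    Fr c k K e S ψ P D s → ∀ (Γ : Type) [Fintype Γ] (E : Finset ((Fin 4 → ℝ) × I)) (Q : Finset (Fin 4 → ℝ))
    (χ : (Fin 4 → ℝ) → Γ), E ⊆ D → Q ⊆ P → (∀ z ∈ E, z.1 ∈ Q) → ∀ (m t a : ℝ), 0 ≤ m → 0 < t → 0 ≤ a →
    ((Fintype.card I : ℝ) * t ^ 2) ^ (1 - 1 / (k : ℝ)) * (m * (m / t ^ 4) ^ (k - 1)) ^ (1 / (k : ℝ)) =
      Fintype.card I * t ^ 2 →
    (∑ i, (((E.filter fun z => z.2 = i).image fun z => χ z.1).card : ℝ)) ≤ a * (Fintype.card I * t ^ 2) →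
    (∑ g, ((Q.filter fun p => χ p = g).card : ℝ) ^ k) ≤ a * (m * (m / t ^ 4) ^ (k - 1)) →
    (E.card : ℝ) ≤ A * (a * (Fintype.card I * t ^ 2)) := by
  obtain ⟨A, hA, h⟩ := kstc k K hk
  refine ⟨A * 2, by positivity, ?_⟩
  intro I _ _ e S ψ P D s hF Γ _ E Q χ hE hQ hEQ m t a hm ht ha heq hV hΛ
  have h1 := h (Fin 4 → ℝ) I Γ E Q χ hEQ
    (fun R hR hRk => FrR_kdof hF R (hR.trans hQ) hRk _ fun i hi p hp => by
      simp only [Finset.mem_filter] at hi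
      exact hE (hi.2 p hp))
    (a * (Fintype.card I * t ^ 2)) (a * (m * (m / t ^ 4) ^ (k - 1))) (by
      refine le_trans (le_of_eq ?_) hV
      refine Finset.sum_congr rfl fun i _ => ?_
      congr 3
      ext z
      simp only [Finset.mem_filter]) (by
      refine le_trans (le_of_eq ?_) hΛ
      rfl)
  have hn : (0 : ℝ) ≤ Fintype.card I := Nat.cast_nonneg _
  have hx : (0 : ℝ) ≤ Fintype.card I * t ^ 2 := by positivity
  have hy : 0 ≤ m * (m / t ^ 4) ^ (k - 1) := by positivity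
  have h2 : (a * (Fintype.card I * t ^ 2)) ^ (1 - 1 / (k : ℝ)) * (a * (m * (m / t ^ 4) ^ (k - 1))) ^ (1 / (k : ℝ)) =
      a * (Fintype.card I * t ^ 2) := by
    rw [Real.mul_rpow ha hx, Real.mul_rpow ha hy]
    calc a ^ (1 - 1 / (k : ℝ)) * (Fintype.card I * t ^ 2) ^ (1 - 1 / (k : ℝ)) *
        (a ^ (1 / (k : ℝ)) * (m * (m / t ^ 4) ^ (k - 1)) ^ (1 / (k : ℝ))) =
        (a ^ (1 - 1 / (k : ℝ)) * a ^ (1 / (k : ℝ))) * ((Fintype.card I * t ^ 2) ^ (1 - 1 / (k : ℝ)) *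
          (m * (m / t ^ 4) ^ (k - 1)) ^ (1 / (k : ℝ))) := by ring
      _ = a * (Fintype.card I * t ^ 2) := by rw [FrR_pow hk ha, heq]
  rw [h2] at h1
  linarith

end D4Q
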