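import Mathlib
import Pool.Agent.D4Q.Frame_D
import Pool.Agent.D4Q.Frame_L
import Pool.Agent.D4Q.Frame_R

/-!
# D4Q-FrameC0: the incidences of level 0

PROOF. `fr_cells` for `E` = the set of the statement, `Q = P.filter fun p => ∀ j, eval p (X.f j) ≠ 0`, `χ = sgn X.f`, `a` a constant. `Λ`: `X.cellf` (`Finset.filter_filter`).
`V`: for each `i` the image of `{z ∈ E | z.2 = i}` under `z ↦ sgn X.f z.1` is the image of `Z_i = {s z | z ∈ E, z.2 = i}` under `s ↦ sgn X.f (ev (ψ i) s)` (`Fr.mem`: `ev (ψ z.2) (s z) = z.1`), so by `lab0` it has at most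
`A0 ((∑ deg) + 1) ^ 2 ≤ A0 (A t + 1) ^ 2 ≤ A0 (A + 1) ^ 2 t ^ 2` elements (`X.degf`, `1 ≤ t`).
-/

namespace D4Q

open MvPolynomial

private theorem C0_img {α β : Type*} (i1 i2 : DecidableEq β) (f : α → β) (s : Finset α) :
    @Finset.image α β i1 f s = @Finset.image α β i2 f s := by
  rw [Subsingleton.elim i1 i2]

private theorem C0_flt {α : Type*} (p : α → Prop) (i1 i2 : DecidablePred p) (s : Finset α) :
    @Finset.filter α p i1 s = @Finset.filter α p i2 s := by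
  rw [Subsingleton.elim i1 i2]

open scoped Classical in
theorem fr_count0 (c k K A : ℕ) (hk : 2 ≤ k) : ∃ A' : ℝ, 0 < A' ∧ ∀ (I : Type) [Fintype I] [DecidableEq I]
    (e : I → Fin c → MvPolynomial (Fin c ⊕ Fin 2) ℝ) (S : I → Set (Fin c ⊕ Fin 2 → ℝ))
    (ψ : I → Fin 4 → MvPolynomial (Fin c ⊕ Fin 2) ℝ) (P : Finset (Fin 4 → ℝ))
    (D : Finset ((Fin 4 → ℝ) × I)) (s : (Fin 4 → ℝ) × I → (Fin c ⊕ Fin 2 → ℝ)),
    Fr c k K e S ψ P D s → ∀ t : ℝ, 1 ≤ t → ∀ X : PD k A P t,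
    ((Fintype.card I : ℝ) * t ^ 2) ^ (1 - 1 / (k : ℝ)) *
      ((P.card : ℝ) * ((P.card : ℝ) / t ^ 4) ^ (k - 1)) ^ (1 / (k : ℝ)) = Fintype.card I * t ^ 2 →
    ((D.filter fun d => ∀ j, eval d.1 (X.f j) ≠ 0).card : ℝ) ≤ A' * (Fintype.card I * t ^ 2) := by
  obtain ⟨A0, hA0⟩ := lab0 c K
  obtain ⟨B, hB, hcell⟩ := fr_cells c k K hk
  refine ⟨B * (A0 * (A + 1) ^ 2 + A + 1), by positivity, ?_⟩
  intro I _ _ e S ψ P D s hF t ht X hexp
  have ht0 : (0 : ℝ) < t := by linarith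
  have hA : (0 : ℝ) ≤ A := Nat.cast_nonneg _
  have hA0' : (0 : ℝ) ≤ A0 := Nat.cast_nonneg _
  obtain ⟨a, ha⟩ : ∃ a : ℝ, a = A0 * (A + 1) ^ 2 + A + 1 := ⟨_, rfl⟩
  have ha1 : (A : ℝ) ≤ a := by
    have : (0 : ℝ) ≤ A0 * (A + 1) ^ 2 := by positivity
    linarith
  have ha2 : (A0 : ℝ) * (A + 1) ^ 2 ≤ a := by linarith
  have ha0 : 0 ≤ a := hA.trans ha1
  rw [← ha, mul_assoc]
  refine hcell I e S ψ P D s hF (Fin X.J → Prop) (D.filter fun d => ∀ j, eval d.1 (X.f j) ≠ 0)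
    (P.filter fun p => ∀ j, eval p (X.f j) ≠ 0) (sgn X.f) (Finset.filter_subset _ _) (Finset.filter_subset _ _)
    (fun z hz => ?_) P.card t a (Nat.cast_nonneg _) ht0 ha0 hexp ?_ ?_
  · rw [Finset.mem_filter] at hz ⊢
    exact ⟨(hF.mem z hz.1).1, hz.2⟩
  · -- labels on each surface
    have hi : ∀ i : I, (((((D.filter fun d => ∀ j, eval d.1 (X.f j) ≠ 0).filter fun z => z.2 = i).image
        fun z => sgn X.f z.1).card : ℕ) : ℝ) ≤ a * t ^ 2 := by
      intro i
      have h1 := hA0 (e i) (S i) (hF.et i) (ψ i) (hF.ch i) X.J X.f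
        (((D.filter fun d => ∀ j, eval d.1 (X.f j) ≠ 0).filter fun z => z.2 = i).image s) (by
          intro v hv
          obtain ⟨z, hz, rfl⟩ := Finset.mem_image.1 hv
          rw [Finset.mem_filter, Finset.mem_filter] at hz
          obtain ⟨-, h2, h3⟩ := hF.mem z hz.1.1
          rw [hz.2] at h2 h3
          rw [h3]
          exact ⟨h2, hz.1.2⟩)
      have h2 : (((D.filter fun d => ∀ j, eval d.1 (X.f j) ≠ 0).filter fun z => z.2 = i).image
          fun z => sgn X.f z.1) = (((D.filter fun d => ∀ j, eval d.1 (X.f j) ≠ 0).filter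
          fun z => z.2 = i).image s).image fun v => sgn X.f (ev (ψ i) v) := by
        rw [Finset.image_image]
        refine Finset.image_congr fun z hz => ?_
        have hz' := Finset.mem_coe.1 hz
        rw [Finset.mem_filter, Finset.mem_filter] at hz'
        obtain ⟨-, h2, h3⟩ := hF.mem z hz'.1.1
        rw [hz'.2] at h3
        simp only [Function.comp_apply]
        rw [h3]
      rw [h2]
      have h3 : ((((∑ j, (X.f j).totalDegree) + 1 : ℕ) : ℝ)) ≤ (A + 1) * t := by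
        push_cast
        have := X.degf
        push_cast at this
        nlinarith
      calc _ ≤ (((A0 * ((∑ j, (X.f j).totalDegree) + 1) ^ 2 : ℕ)) : ℝ) := by exact_mod_cast h1
        _ = A0 * ((((∑ j, (X.f j).totalDegree) + 1 : ℕ) : ℝ)) ^ 2 := by push_cast; ring
        _ ≤ A0 * ((A + 1) * t) ^ 2 :=
            mul_le_mul_of_nonneg_left (pow_le_pow_left₀ (Nat.cast_nonneg _) h3 2) hA0'
        _ = A0 * (A + 1) ^ 2 * t ^ 2 := by ring
        _ ≤ a * t ^ 2 := mul_le_mul_of_nonneg_right ha2 (by positivity)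
    have hsum := Finset.sum_le_sum fun i (_ : i ∈ (Finset.univ : Finset I)) => hi i
    have hsum2 : ∑ _i : I, a * t ^ 2 = a * (Fintype.card I * t ^ 2) := by
      rw [Finset.sum_const, Finset.card_univ, nsmul_eq_mul]
      ring
    rw [hsum2] at hsum
    refine le_trans (le_of_eq (Finset.sum_congr rfl fun i _ => ?_)) hsum
    exact congrArg (fun x : Finset (Fin X.J → Prop) => ((x.card : ℕ) : ℝ)) (C0_img _ _ _ _)
  · have h1 : ∀ σ : Fin X.J → Prop, ((P.filter fun p => ∀ j, eval p (X.f j) ≠ 0).filter fun p => sgn X.f p = σ) =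
        P.filter fun p => (∀ j, eval p (X.f j) ≠ 0) ∧ sgn X.f p = σ := by
      intro σ
      ext p
      simp only [Finset.mem_filter]
      tauto
    have h2 : (∑ g, (((P.filter fun p => ∀ j, eval p (X.f j) ≠ 0).filter fun p => sgn X.f p = g).card : ℝ) ^ k) ≤
        A * (P.card * ((P.card : ℝ) / t ^ 4) ^ (k - 1)) := by
      refine (le_of_eq (Finset.sum_congr rfl fun σ _ => ?_)).trans X.cellf
      rw [h1 σ]
    have h3 := h2.trans (mul_le_mul_of_nonneg_right ha1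
      (show (0 : ℝ) ≤ P.card * ((P.card : ℝ) / t ^ 4) ^ (k - 1) by positivity))
    refine le_trans (le_of_eq (Finset.sum_congr rfl fun i _ => ?_)) h3
    exact congrArg (fun x : Finset (Fin 4 → ℝ) => ((x.card : ℕ) : ℝ) ^ k) (C0_flt _ _ _ _)

end D4Q
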