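import Mathlib
import Pool.Agent.D4Q.Frame_D
import Pool.Agent.D4Q.Frame_L
import Pool.Agent.D4Q.Frame_R

/-!
# D4Q-FrameC1: the incidences of level 1

PROOF. `δ_a = deg (X.h a) ≥ 1` (irreducible; prove it or copy it from Frame_P.lean, which may be imported), `E_a = ∑ j, deg (X.f' a j)`. Let `E` be the set of the statement; for `d ∈ E` the index `a = a(d)` with `Lev X.h a d.1` is unique. For a surface `i` and an index `a`
`lab1` gives `X0 i a` with at most `A1 δ_a ^ 2` elements. (1) The `d ∈ E` with `s d (inr 0) ∈ X0 d.2 a(d)`: the map `d ↦ (d.2, a(d), d.1 0)` is injective on them (`Fr.xinj`), and `d.1 0 = s d (inr 0)` (`Fr.ch`, `IsChart.x`, `Fr.mem`):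
at most `∑_i ∑_a A1 δ_a ^ 2 ≤ n A1 (∑ δ_a) ^ 2 ≤ A1 A ^ 2 n t ^ 2` (`X.degh`). (2) The others, `E'`: `fr_cells` with `Q = P.filter fun p => ∃ a, Lev X.h a p ∧ ∀ j, eval p (X.f' a j) ≠ 0`, labels `Γ = Option (Σ a, Fin (X.J' a) → Prop)`,
`χ p = some ⟨a, sgn (X.f' a) p⟩` for `p ∈ Q` with its index `a`, `χ p = none` otherwise. `Λ`: `Fintype.sum_option`, `Fintype.sum_sigma`, `X.cellh` (the cell of `none` is empty, `0 ^ k = 0`). `V`: for each `i` the labels `some ⟨a, σ⟩` with fixed `a` are in the image of the set `Z_{i,a}` of the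
points `s d` (`d ∈ E'`, `d.2 = i`, `a(d) = a`) under `s ↦ sgn (X.f' a) (ev (ψ i) s)`: at most `A1 δ_a (δ_a + E_a)` by `lab1`; `∑_a A1 δ_a (δ_a + E_a) ≤ A1 (A ^ 2 + A) t ^ 2` (`X.degh`, `X.deg1`).
-/

namespace D4Q

open MvPolynomial

private theorem C1_img {α β : Type*} (i1 i2 : DecidableEq β) (f : α → β) (s : Finset α) :
    @Finset.image α β i1 f s = @Finset.image α β i2 f s := by
  rw [Subsingleton.elim i1 i2]

private theorem C1_flt {α : Type*} (p : α → Prop) (i1 i2 : DecidablePred p) (s : Finset α) :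
    @Finset.filter α p i1 s = @Finset.filter α p i2 s := by
  rw [Subsingleton.elim i1 i2]

private theorem C1_irr {h : MvPolynomial (Fin 4) ℝ} (hh : Irreducible h) : 1 ≤ h.totalDegree := by
  by_contra hc
  have h0 : h.totalDegree = 0 := by omega
  rw [totalDegree_eq_zero_iff_eq_C] at h0
  have h1 : coeff 0 h ≠ 0 := by
    intro h2
    rw [h2, C_0] at h0
    exact hh.ne_zero h0
  refine hh.not_isUnit ?_
  rw [h0]
  exact (isUnit_iff_ne_zero.mpr h1).map C

private theorem C1_lev {q : ℕ} {h : Fin q → MvPolynomial (Fin 4) ℝ} {i j : Fin q} {p : Fin 4 → ℝ}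
    (hi : Lev h i p) (hj : Lev h j p) : i = j := by
  rcases lt_trichotomy i j with h1 | h1 | h1
  · exact absurd hi.1 (hj.2 i h1)
  · exact h1
  · exact absurd hj.1 (hi.2 j h1)

/-- the label of a point -/
private theorem C1_chi {k A : ℕ} {P : Finset (Fin 4 → ℝ)} {t : ℝ} (X : PD k A P t) :
    ∃ χ : (Fin 4 → ℝ) → Option (Σ a : Fin X.q, (Fin (X.J' a) → Prop)),
      (∀ p a, Lev X.h a p → (∀ j, eval p (X.f' a j) ≠ 0) → χ p = some ⟨a, sgn (X.f' a) p⟩) := by
  classical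
  refine ⟨fun p => if h : ∃ a, Lev X.h a p then some ⟨h.choose, sgn (X.f' h.choose) p⟩ else none, ?_⟩
  intro p a ha _
  have h : ∃ a, Lev X.h a p := ⟨a, ha⟩
  simp only [dif_pos h]
  have h1 : h.choose = a := C1_lev h.choose_spec ha
  rw [h1]

private theorem C1_sq {q : ℕ} (δ : Fin q → ℕ) : ∑ a, δ a ^ 2 ≤ (∑ a, δ a) ^ 2 := by
  rw [pow_two, Finset.sum_mul]
  refine Finset.sum_le_sum fun a ha => ?_
  rw [pow_two]
  exact Nat.mul_le_mul_left _ (Finset.single_le_sum (f := δ) (fun i _ => Nat.zero_le _) ha)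

open scoped Classical in
theorem fr_count1 (c k K A : ℕ) (hk : 2 ≤ k) : ∃ A' : ℝ, 0 < A' ∧ ∀ (I : Type) [Fintype I] [DecidableEq I]
    (e : I → Fin c → MvPolynomial (Fin c ⊕ Fin 2) ℝ) (S : I → Set (Fin c ⊕ Fin 2 → ℝ))
    (ψ : I → Fin 4 → MvPolynomial (Fin c ⊕ Fin 2) ℝ) (P : Finset (Fin 4 → ℝ))
    (D : Finset ((Fin 4 → ℝ) × I)) (s : (Fin 4 → ℝ) × I → (Fin c ⊕ Fin 2 → ℝ)),
    Fr c k K e S ψ P D s → ∀ t : ℝ, 1 ≤ t → ∀ X : PD k A P t,
    ((Fintype.card I : ℝ) * t ^ 2) ^ (1 - 1 / (k : ℝ)) *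
      ((P.card : ℝ) * ((P.card : ℝ) / t ^ 4) ^ (k - 1)) ^ (1 / (k : ℝ)) = Fintype.card I * t ^ 2 →
    ((D.filter fun d => ∃ a, Lev X.h a d.1 ∧ (∀ j, eval d.1 (X.f' a j) ≠ 0) ∧
      ¬ VanAt (S d.2) (ψ d.2) (X.h a) (s d)).card : ℝ) ≤ A' * (Fintype.card I * t ^ 2) := by
  obtain ⟨A1, hA1⟩ := lab1 c K
  obtain ⟨B, hB, hcell⟩ := fr_cells c k K hk
  refine ⟨A1 * A ^ 2 + B * (A1 * (A ^ 2 + A) + A + 1), by positivity, ?_⟩
  intro I _ _ e S ψ P D s hF t ht X hexp
  have ht0 : (0 : ℝ) < t := by linarith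
  have hA : (0 : ℝ) ≤ A := Nat.cast_nonneg _
  have hA1' : (0 : ℝ) ≤ A1 := Nat.cast_nonneg _
  have hn : (0 : ℝ) ≤ Fintype.card I := Nat.cast_nonneg _
  -- the exceptional values of `x`
  have hX : ∀ (i : I) (a : Fin X.q), ∃ X0 : Finset ℝ, X0.card ≤ A1 * (X.h a).totalDegree ^ 2 ∧
      ∀ (J : ℕ) (f : Fin J → MvPolynomial (Fin 4) ℝ) (Z : Finset (Fin c ⊕ Fin 2 → ℝ)),
      (∀ v ∈ Z, v ∈ S i ∧ (∀ j, eval (ev (ψ i) v) (f j) ≠ 0) ∧ eval (ev (ψ i) v) (X.h a) = 0 ∧
        ¬ VanAt (S i) (ψ i) (X.h a) v ∧ v (Sum.inr 0) ∉ X0) →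
      (Z.image fun v => sgn f (ev (ψ i) v)).card ≤
        A1 * ((X.h a).totalDegree * ((X.h a).totalDegree + ∑ j, (f j).totalDegree)) :=
    fun i a => hA1 (e i) (S i) (hF.et i) (ψ i) (hF.ch i) (X.h a) (C1_irr (X.irr a))
  choose X0 hX0 hX1 using hX
  -- the sum of the degrees
  have hdeg : ((∑ a, (X.h a).totalDegree : ℕ) : ℝ) ^ 2 ≤ A ^ 2 * t ^ 2 := by
    rw [← mul_pow]
    exact pow_le_pow_left₀ (Nat.cast_nonneg _) X.degh 2
  have hdeg2 : ((∑ a, (X.h a).totalDegree ^ 2 : ℕ) : ℝ) ≤ A ^ 2 * t ^ 2 := by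
    refine le_trans ?_ hdeg
    exact_mod_cast C1_sq fun a => (X.h a).totalDegree
  obtain ⟨E1, hE1⟩ : ∃ E1 : Finset ((Fin 4 → ℝ) × I), E1 = D.filter fun d => ∃ a, d.1 0 ∈ X0 d.2 a := ⟨_, rfl⟩
  obtain ⟨E2, hE2⟩ : ∃ E2 : Finset ((Fin 4 → ℝ) × I), E2 = D.filter fun d => ∃ a, Lev X.h a d.1 ∧
      (∀ j, eval d.1 (X.f' a j) ≠ 0) ∧ ¬ VanAt (S d.2) (ψ d.2) (X.h a) (s d) ∧ s d (Sum.inr 0) ∉ X0 d.2 a :=
    ⟨_, rfl⟩
  have hsx : ∀ d ∈ D, s d (Sum.inr 0) = d.1 0 := by
    intro d hd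
    obtain ⟨-, -, h3⟩ := hF.mem d hd
    have h4 := congrFun h3 0
    unfold ev at h4
    rw [(hF.ch d.2).x, eval_X] at h4
    exact h4
  have hsub : (D.filter fun d => ∃ a, Lev X.h a d.1 ∧ (∀ j, eval d.1 (X.f' a j) ≠ 0) ∧
      ¬ VanAt (S d.2) (ψ d.2) (X.h a) (s d)) ⊆ E1 ∪ E2 := by
    intro d hd
    obtain ⟨hd1, a, h1, h2, h3⟩ := Finset.mem_filter.1 hd
    rw [Finset.mem_union, hE1, hE2, Finset.mem_filter, Finset.mem_filter]
    by_cases h4 : s d (Sum.inr 0) ∈ X0 d.2 a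
    · left
      refine ⟨hd1, a, ?_⟩
      rw [← hsx d hd1]
      exact h4
    · exact Or.inr ⟨hd1, a, h1, h2, h3, h4⟩
  -- part 1
  have hpart1 : (E1.card : ℝ) ≤ A1 * A ^ 2 * (Fintype.card I * t ^ 2) := by
    have h1 : E1 ⊆ (Finset.univ : Finset I).biUnion fun i => (Finset.univ : Finset (Fin X.q)).biUnion fun a =>
        D.filter fun d => d.2 = i ∧ d.1 0 ∈ X0 i a := by
      intro d hd
      rw [hE1, Finset.mem_filter] at hd
      obtain ⟨hd1, a, ha⟩ := hd
      exact Finset.mem_biUnion.2 ⟨d.2, Finset.mem_univ _, Finset.mem_biUnion.2 ⟨a, Finset.mem_univ _,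
        Finset.mem_filter.2 ⟨hd1, rfl, ha⟩⟩⟩
    have h2 : ∀ (i : I) (a : Fin X.q), (D.filter fun d => d.2 = i ∧ d.1 0 ∈ X0 i a).card ≤
        A1 * (X.h a).totalDegree ^ 2 := by
      intro i a
      refine le_trans (Finset.card_le_card_of_injOn (fun d => d.1 0) (fun d hd => ?_) ?_) (hX0 i a)
      · exact (Finset.mem_filter.1 hd).2.2
      · intro d hd d' hd' hdd
        have g1 := Finset.mem_filter.1 (Finset.mem_coe.1 hd)
        have g2 := Finset.mem_filter.1 (Finset.mem_coe.1 hd')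
        have g3 : d.1 = d'.1 := hF.xinj (Finset.mem_coe.2 (hF.mem d g1.1).1) (Finset.mem_coe.2 (hF.mem d' g2.1).1) hdd
        exact Prod.ext g3 (g1.2.1.trans g2.2.1.symm)
    have h3 : E1.card ≤ Fintype.card I * (A1 * ∑ a, (X.h a).totalDegree ^ 2) := by
      refine (Finset.card_le_card h1).trans (Finset.card_biUnion_le.trans ?_)
      refine (Finset.sum_le_card_nsmul _ _ (A1 * ∑ a, (X.h a).totalDegree ^ 2) fun i _ => ?_).trans
        (le_of_eq (by rw [Finset.card_univ, smul_eq_mul]))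
      refine Finset.card_biUnion_le.trans ?_
      rw [Finset.mul_sum]
      exact Finset.sum_le_sum fun a _ => h2 i a
    calc (E1.card : ℝ) ≤ ((Fintype.card I * (A1 * ∑ a, (X.h a).totalDegree ^ 2) : ℕ) : ℝ) := Nat.cast_le.2 h3
      _ = Fintype.card I * A1 * ((∑ a, (X.h a).totalDegree ^ 2 : ℕ) : ℝ) := by
          rw [Nat.cast_mul, Nat.cast_mul]
          ring
      _ ≤ Fintype.card I * A1 * (A ^ 2 * t ^ 2) := mul_le_mul_of_nonneg_left hdeg2 (by positivity)
      _ = _ := by ring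
  -- part 2
  have hpart2 : (E2.card : ℝ) ≤ B * ((A1 * (A ^ 2 + A) + A + 1) * (Fintype.card I * t ^ 2)) := by
    obtain ⟨χ, hχ⟩ := C1_chi X
    refine hcell I e S ψ P D s hF (Option (Σ a : Fin X.q, (Fin (X.J' a) → Prop))) E2
      (P.filter fun p => ∃ a, Lev X.h a p ∧ ∀ j, eval p (X.f' a j) ≠ 0) χ
      (by rw [hE2]; exact Finset.filter_subset _ _) (Finset.filter_subset _ _)
      (fun z hz => ?_) P.card t _ (Nat.cast_nonneg _) ht0 (by positivity) hexp ?_ ?_
    · rw [hE2, Finset.mem_filter] at hz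
      obtain ⟨h1, a, h2, h3, -, -⟩ := hz
      exact Finset.mem_filter.2 ⟨(hF.mem z h1).1, a, h2, h3⟩
    · -- the labels on each surface
      have hi : ∀ i : I, ((((E2.filter fun z => z.2 = i).image fun z => χ z.1).card : ℕ) : ℝ) ≤
          (A1 * (A ^ 2 + A) + A + 1) * t ^ 2 := by
        intro i
        obtain ⟨Z, hZ⟩ : ∃ Z : Fin X.q → Finset ((Fin 4 → ℝ) × I), ∀ a, Z a = D.filter fun d => d.2 = i ∧
            Lev X.h a d.1 ∧ (∀ j, eval d.1 (X.f' a j) ≠ 0) ∧ ¬ VanAt (S i) (ψ i) (X.h a) (s d) ∧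
            s d (Sum.inr 0) ∉ X0 i a := ⟨_, fun _ => rfl⟩
        have h1 : ((E2.filter fun z => z.2 = i).image fun z => χ z.1) ⊆
            (Finset.univ : Finset (Fin X.q)).biUnion fun a =>
              (((Z a).image s).image fun v => sgn (X.f' a) (ev (ψ i) v)).image
                fun σ => (some ⟨a, σ⟩ : Option (Σ a : Fin X.q, (Fin (X.J' a) → Prop))) := by
          intro g hg
          obtain ⟨z, hz, rfl⟩ := Finset.mem_image.1 hg
          obtain ⟨hz1, hz2⟩ := Finset.mem_filter.1 hz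
          rw [hE2, Finset.mem_filter] at hz1
          obtain ⟨hzD, a, g1, g2, g3, g4⟩ := hz1
          refine Finset.mem_biUnion.2 ⟨a, Finset.mem_univ _, Finset.mem_image.2 ⟨sgn (X.f' a) z.1, ?_, ?_⟩⟩
          · refine Finset.mem_image.2 ⟨s z, Finset.mem_image.2 ⟨z, ?_, rfl⟩, ?_⟩
            · rw [hZ, Finset.mem_filter]
              rw [hz2] at g3 g4
              exact ⟨hzD, hz2, g1, g2, g3, g4⟩
            · obtain ⟨-, -, g5⟩ := hF.mem z hzD
              rw [hz2] at g5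
              rw [g5]
          · exact (hχ z.1 a g1 g2).symm
        have h2 : ((E2.filter fun z => z.2 = i).image fun z => χ z.1).card ≤
            ∑ a, A1 * ((X.h a).totalDegree * ((X.h a).totalDegree + ∑ j, (X.f' a j).totalDegree)) := by
          refine (Finset.card_le_card h1).trans (Finset.card_biUnion_le.trans ?_)
          refine Finset.sum_le_sum fun a _ => Finset.card_image_le.trans ?_
          refine hX1 i a (X.J' a) (X.f' a) ((Z a).image s) ?_
          intro v hv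
          obtain ⟨z, hz, rfl⟩ := Finset.mem_image.1 hv
          rw [hZ, Finset.mem_filter] at hz
          obtain ⟨hzD, hz2, g1, g2, g3, g4⟩ := hz
          obtain ⟨-, g5, g6⟩ := hF.mem z hzD
          rw [hz2] at g5 g6
          rw [g6]
          exact ⟨g5, g2, g1.1, g3, g4⟩
        have h3 : ∑ a, A1 * ((X.h a).totalDegree * ((X.h a).totalDegree + ∑ j, (X.f' a j).totalDegree)) =
            A1 * (∑ a, (X.h a).totalDegree ^ 2 + ∑ a, (X.h a).totalDegree * ∑ j, (X.f' a j).totalDegree) := by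
          rw [← Finset.sum_add_distrib, Finset.mul_sum]
          exact Finset.sum_congr rfl fun a _ => by ring
        rw [h3] at h2
        calc _ ≤ ((A1 * (∑ a, (X.h a).totalDegree ^ 2 +
              ∑ a, (X.h a).totalDegree * ∑ j, (X.f' a j).totalDegree) : ℕ) : ℝ) := Nat.cast_le.2 h2
          _ = A1 * (((∑ a, (X.h a).totalDegree ^ 2 : ℕ) : ℝ) +
              ((∑ a, (X.h a).totalDegree * ∑ j, (X.f' a j).totalDegree : ℕ) : ℝ)) := by
            rw [Nat.cast_mul, Nat.cast_add]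
          _ ≤ A1 * (A ^ 2 * t ^ 2 + A * t ^ 2) :=
            mul_le_mul_of_nonneg_left (add_le_add hdeg2 X.deg1) hA1'
          _ = A1 * (A ^ 2 + A) * t ^ 2 := by ring
          _ ≤ (A1 * (A ^ 2 + A) + A + 1) * t ^ 2 := by
            refine mul_le_mul_of_nonneg_right ?_ (by positivity)
            linarith
      have hsum := Finset.sum_le_sum fun i (_ : i ∈ (Finset.univ : Finset I)) => hi i
      have hsum2 : ∑ _i : I, (A1 * (A ^ 2 + A) + A + 1) * t ^ 2 =
          (A1 * (A ^ 2 + A) + A + 1) * (Fintype.card I * t ^ 2) := by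
        rw [Finset.sum_const, Finset.card_univ, nsmul_eq_mul]
        ring
      rw [hsum2] at hsum
      refine le_trans (le_of_eq (Finset.sum_congr rfl fun i _ => ?_)) hsum
      exact congrArg (fun x : Finset (Option (Σ a : Fin X.q, (Fin (X.J' a) → Prop))) => ((x.card : ℕ) : ℝ))
        (C1_img _ _ _ _)
    · have h1 : ∀ (a : Fin X.q) (σ : Fin (X.J' a) → Prop),
          ((P.filter fun p => ∃ a, Lev X.h a p ∧ ∀ j, eval p (X.f' a j) ≠ 0).filter
            fun p => χ p = some ⟨a, σ⟩) =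
          P.filter fun p => Lev X.h a p ∧ (∀ j, eval p (X.f' a j) ≠ 0) ∧ sgn (X.f' a) p = σ := by
        intro a σ
        ext p
        simp only [Finset.mem_filter]
        constructor
        · rintro ⟨⟨hp, b, g1, g2⟩, g3⟩
          rw [hχ p b g1 g2] at g3
          have g4 := Option.some.inj g3
          obtain rfl : b = a := congrArg Sigma.fst g4
          exact ⟨hp, g1, g2, by simpa using g4⟩
        · rintro ⟨hp, g1, g2, g3⟩
          refine ⟨⟨hp, a, g1, g2⟩, ?_⟩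
          rw [hχ p a g1 g2, g3]
      have h0 : ((P.filter fun p => ∃ a, Lev X.h a p ∧ ∀ j, eval p (X.f' a j) ≠ 0).filter
            fun p => χ p = none) = ∅ := by
        refine Finset.filter_eq_empty_iff.2 ?_
        intro p hp h
        obtain ⟨-, a, g1, g2⟩ := Finset.mem_filter.1 hp
        rw [hχ p a g1 g2] at h
        exact absurd h (by simp)
      have h2 : (∑ g, (((P.filter fun p => ∃ a, Lev X.h a p ∧ ∀ j, eval p (X.f' a j) ≠ 0).filter
            fun p => χ p = g).card : ℝ) ^ k) ≤ A * (P.card * ((P.card : ℝ) / t ^ 4) ^ (k - 1)) := by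
        rw [Fintype.sum_option, h0, Finset.card_empty, Nat.cast_zero, zero_pow (by omega : k ≠ 0), zero_add,
          Fintype.sum_sigma]
        refine (le_of_eq (Finset.sum_congr rfl fun a _ => Finset.sum_congr rfl fun σ _ => ?_)).trans X.cellh
        rw [h1 a σ]
      have h3 : (A : ℝ) * (P.card * ((P.card : ℝ) / t ^ 4) ^ (k - 1)) ≤
          (A1 * (A ^ 2 + A) + A + 1) * (P.card * ((P.card : ℝ) / t ^ 4) ^ (k - 1)) := by
        refine mul_le_mul_of_nonneg_right ?_ (by positivity)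
        have : (0 : ℝ) ≤ A1 * (A ^ 2 + A) := by positivity
        linarith
      refine le_trans (le_of_eq (Finset.sum_congr rfl fun i _ => ?_)) (h2.trans h3)
      exact congrArg (fun x : Finset (Fin 4 → ℝ) => ((x.card : ℕ) : ℝ) ^ k) (C1_flt _ _ _ _)
  calc _ ≤ (((E1 ∪ E2).card : ℕ) : ℝ) := Nat.cast_le.2 (Finset.card_le_card hsub)
    _ ≤ ((E1.card + E2.card : ℕ) : ℝ) := Nat.cast_le.2 (Finset.card_union_le _ _)
    _ = (E1.card : ℝ) + E2.card := Nat.cast_add _ _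
    _ ≤ A1 * A ^ 2 * (Fintype.card I * t ^ 2) + B * ((A1 * (A ^ 2 + A) + A + 1) * (Fintype.card I * t ^ 2)) :=
        add_le_add hpart1 hpart2
    _ = _ := by ring

end D4Q
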