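import Mathlib
import Pool.Agent.D4Q.Defs
import Pool.Agent.D4Q.Kstc

/-!
# D4Q part VP: random sampling (Clarkson-Shor) and the cell bound, purely combinatorial

Points on at least `n / s` surfaces are counted by pairs of surfaces. The other points are, with positive
probability, off a random `s`-subset `R` of the surfaces; for fixed `R` the incidences at the points off `R`
are bounded by Kővári-Sós-Turán in the classes of the relation `rel R`, and the averages over `R` of the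
numbers of visited classes and of visitors are bounded through random `(s + 1)`-subsets.
-/

namespace D4Q

open scoped Classical in
private theorem VP_swap {I : Type} [Fintype I] (s : ℕ) (f : Finset I → I → ℝ) :
    ∑ R ∈ Finset.powersetCard s (Finset.univ : Finset I), ∑ i ∈ Rᶜ, f R i =
      ∑ R ∈ Finset.powersetCard (s + 1) (Finset.univ : Finset I), ∑ i ∈ R, f (R.erase i) i := by
  rw [Finset.sum_sigma', Finset.sum_sigma']
  refine Finset.sum_bij' (fun z _ => ⟨insert z.2 z.1, z.2⟩) (fun z _ => ⟨z.1.erase z.2, z.2⟩) ?_ ?_ ?_ ?_ ?_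
  · rintro ⟨R, i⟩ h
    simp only [Finset.mem_sigma, Finset.mem_powersetCard_univ, Finset.mem_compl] at h ⊢
    exact ⟨by rw [Finset.card_insert_of_notMem h.2, h.1], Finset.mem_insert_self _ _⟩
  · rintro ⟨R, i⟩ h
    simp only [Finset.mem_sigma, Finset.mem_powersetCard_univ, Finset.mem_compl] at h ⊢
    exact ⟨by rw [Finset.card_erase_of_mem h.2, h.1]; rfl, Finset.notMem_erase _ _⟩
  · rintro ⟨R, i⟩ h
    simp only [Finset.mem_sigma, Finset.mem_powersetCard_univ, Finset.mem_compl] at h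
    simp only [Finset.erase_insert h.2]
  · rintro ⟨R, i⟩ h
    simp only [Finset.mem_sigma, Finset.mem_powersetCard_univ] at h
    simp only [Finset.insert_erase h.2]
  · rintro ⟨R, i⟩ h
    simp only [Finset.mem_sigma, Finset.mem_powersetCard_univ, Finset.mem_compl] at h
    simp only [Finset.erase_insert h.2]

open scoped Classical in
private theorem VP_mem {I : Type} [Fintype I] {s : ℕ} (hs : s ≤ Fintype.card I) (j : I) :
    (Fintype.card I : ℝ) *
      (((Finset.powersetCard s (Finset.univ : Finset I)).filter fun R => j ∈ R).card : ℝ) =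
      s * ((Fintype.card I).choose s : ℝ) := by
  have h1 := Finset.card_filter_add_card_filter_not (s := Finset.powersetCard s (Finset.univ : Finset I))
    (fun R => j ∈ R)
  have h2 : ((Finset.powersetCard s (Finset.univ : Finset I)).filter fun R => ¬ j ∈ R) =
      Finset.powersetCard s (Finset.univ.erase j) := by
    ext R
    simp only [Finset.mem_filter, Finset.mem_powersetCard, Finset.subset_erase]
    tauto
  rw [h2, Finset.card_powersetCard, Finset.card_powersetCard, Finset.card_erase_of_mem (Finset.mem_univ j),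
    Finset.card_univ] at h1
  have hpos : 0 < Fintype.card I := Fintype.card_pos_iff.2 ⟨j⟩
  obtain ⟨n, hn⟩ : ∃ n, Fintype.card I = n + 1 := ⟨Fintype.card I - 1, by omega⟩
  have h4 := Nat.choose_mul_succ_eq n s
  rw [hn] at h1 hs ⊢
  rw [Nat.add_sub_cancel] at h1
  have h5 : ((n.choose s : ℕ) : ℝ) * (n + 1) = ((n + 1).choose s : ℝ) * (n + 1 - s) := by
    have h6 : ((n + 1 - s : ℕ) : ℝ) = (n : ℝ) + 1 - s := by
      rw [Nat.cast_sub hs]
      push_cast
      ring
    rw [← h6]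
    exact_mod_cast h4
  have h7 : (((Finset.powersetCard s (Finset.univ : Finset I)).filter fun R => j ∈ R).card : ℝ) +
      (n.choose s : ℝ) = ((n + 1).choose s : ℝ) := by exact_mod_cast h1
  push_cast
  linear_combination ((n : ℝ) + 1) * h7 - h5

private theorem VP_light {n s : ℕ} (hs : 2 ≤ s) (hn : 4 * s ≤ n) (r : ℕ) (hr : 2 * r ≤ n) :
    (n.choose s : ℝ) ≤ Real.exp (4 * s * r / n) * ((n - r).choose s : ℝ) := by
  have hn0 : (0 : ℝ) < n := by
    have : 0 < n := by omega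
    exact_mod_cast this
  induction r with
  | zero => simp
  | succ r ih =>
    have h1 := ih (by omega)
    obtain ⟨N, hN⟩ : ∃ N, n - r = N + 1 := ⟨n - r - 1, by omega⟩
    have h2 : n - (r + 1) = N := by omega
    rw [h2]
    rw [hN] at h1
    have h3 := Nat.choose_mul_succ_eq N s
    have hsN : s ≤ N + 1 := by omega
    have h6 : (N.choose s : ℝ) * (N + 1) = ((N + 1).choose s : ℝ) * (N + 1 - s) := by
      have h4 : ((N + 1 - s : ℕ) : ℝ) = (N : ℝ) + 1 - s := by
        rw [Nat.cast_sub hsN]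
        push_cast
        ring
      rw [← h4]
      exact_mod_cast h3
    have h8 : (n : ℝ) ≤ 4 * ((N : ℝ) + 1 - s) := by
      have h9 : n + 4 * s ≤ 4 * (N + 1) := by omega
      have h10 : (n : ℝ) + 4 * s ≤ 4 * (N + 1) := by exact_mod_cast h9
      linarith
    have h8' : (0 : ℝ) < N + 1 - s := by linarith
    have h7 : ((N : ℝ) + 1) ≤ Real.exp (4 * s / n) * (N + 1 - s) := by
      have h9 := Real.add_one_le_exp (4 * s / n : ℝ)
      have h10 : (s : ℝ) ≤ 4 * s / n * (N + 1 - s) := by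
        rw [div_mul_eq_mul_div, le_div_iff₀ hn0]
        have : (0 : ℝ) ≤ s := Nat.cast_nonneg s
        nlinarith
      nlinarith
    have h5 : ((N + 1).choose s : ℝ) ≤ Real.exp (4 * s / n) * (N.choose s : ℝ) := by
      have h9 : ((N + 1).choose s : ℝ) * (N + 1 - s) ≤ (Real.exp (4 * s / n) * (N.choose s : ℝ)) * (N + 1 - s) := by
        rw [← h6]
        have := mul_le_mul_of_nonneg_left h7 (Nat.cast_nonneg (α := ℝ) (N.choose s))
        linarith
      exact le_of_mul_le_mul_right h9 h8'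
    have h9 : Real.exp (4 * s * ((r + 1 : ℕ) : ℝ) / n) = Real.exp (4 * s * r / n) * Real.exp (4 * s / n) := by
      rw [← Real.exp_add]
      congr 1
      push_cast
      ring
    rw [h9, mul_assoc]
    exact h1.trans (mul_le_mul_of_nonneg_left h5 (Real.exp_pos _).le)


open scoped Classical in
/-- the number of surfaces off `R` which visit the class of `p` -/
private noncomputable def VP_nn {I P : Type} [Fintype I] (inc : P → I → Prop) (σ : Setoid P) (R : Finset I)
    (p : P) : ℕ :=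
  (Rᶜ.filter fun i => ∃ p', inc p' i ∧ (∀ j ∈ R, ¬ inc p' j) ∧ σ.r p p').card

open scoped Classical in
/-- the number of classes visited by the surface `i` -/
private noncomputable def VP_N {I P : Type} [Fintype I] [Fintype P] (inc : P → I → Prop) (σ : Setoid P) (R : Finset I)
    (i : I) : ℕ :=
  ((Finset.univ.filter fun p => inc p i ∧ ∀ j ∈ R, ¬ inc p j).image (Quotient.mk σ)).card

open scoped Classical in
private theorem VP_kst (k K : ℕ) (hk : 2 ≤ k) : ∃ A : ℝ, 0 < A ∧ ∀ (I P : Type) [Fintype I] [Fintype P]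
    (inc des : P → I → Prop) (σ : Setoid P) (R : Finset I), (∀ p i, des p i → inc p i) →
    (∀ Q : Finset P, Q.card = k → (Finset.univ.filter fun i => ∀ p ∈ Q, des p i).card ≤ K) →
    ((Finset.univ.filter fun z : P × I => des z.1 z.2 ∧ ∀ j ∈ R, ¬ inc z.1 j).card : ℝ) ≤
      A * (∑ p ∈ Finset.univ.filter fun p => ∀ j ∈ R, ¬ inc p j,
            (VP_nn inc σ R p : ℝ) ^ (1 - 1 / (k : ℝ)) + ∑ i ∈ Rᶜ, (VP_N inc σ R i : ℝ)) := by
  obtain ⟨A, hA, h⟩ := kstc k K hk
  refine ⟨A, hA, fun I P _ _ inc des σ R hdi hK => ?_⟩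
  obtain ⟨D, hD⟩ : ∃ D : Finset (P × I), D = Finset.univ.filter fun z : P × I => des z.1 z.2 ∧ ∀ j ∈ R, ¬ inc z.1 j :=
    ⟨_, rfl⟩
  obtain ⟨ng, hng⟩ : ∃ ng : Quotient σ → ℕ, ng = fun g =>
    (Rᶜ.filter fun i => ∃ p', inc p' i ∧ (∀ j ∈ R, ¬ inc p' j) ∧ Quotient.mk σ p' = g).card := ⟨_, rfl⟩
  obtain ⟨Qg, hQg⟩ : ∃ Qg : Quotient σ → Finset P, Qg = fun g =>
    Finset.univ.filter fun p => (∀ j ∈ R, ¬ inc p j) ∧ Quotient.mk σ p = g := ⟨_, rfl⟩
  have key : ∀ g, ((D.filter fun z => Quotient.mk σ z.1 = g).card : ℝ) ≤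
      A * ((ng g : ℝ) + (ng g : ℝ) ^ (1 - 1 / (k : ℝ)) * (Qg g).card) := by
    intro g
    have h1 := h P I Unit (D.filter fun z => Quotient.mk σ z.1 = g) (Qg g) (fun _ => ()) ?_ ?_ (ng g)
      (((Qg g).card : ℝ) ^ k) ?_ ?_
    · have h2 : (((Qg g).card : ℝ) ^ k) ^ (1 / (k : ℝ)) = (Qg g).card := by
        rw [one_div, Real.pow_rpow_inv_natCast (Nat.cast_nonneg _) (by omega)]
      rw [h2] at h1
      exact h1
    · rintro z hz
      simp only [hD, Finset.mem_filter, Finset.mem_univ, true_and] at hz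
      simp only [hQg, Finset.mem_filter, Finset.mem_univ, true_and]
      exact ⟨hz.1.2, hz.2⟩
    · intro Q' hQ' hc
      refine le_trans (Finset.card_le_card ?_) (hK Q' hc)
      intro i hi
      simp only [Finset.mem_filter, Finset.mem_univ, true_and, hD] at hi ⊢
      exact fun p hp => (hi p hp).1.1
    · have h4 : (ng g : ℝ) = ∑ i : I, if i ∈ Rᶜ ∧ ∃ p', inc p' i ∧ (∀ j ∈ R, ¬ inc p' j) ∧ Quotient.mk σ p' = g then (1 : ℝ) else 0 := by
        rw [hng, Finset.sum_boole]
        refine congrArg _ (congrArg _ ?_)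
        ext i
        simp only [Finset.mem_filter, Finset.mem_univ, true_and]
      rw [h4]
      refine Finset.sum_le_sum fun i _ => ?_
      split_ifs with h5
      · exact (Nat.cast_le.2 (Finset.card_le_univ _)).trans (by simp)
      · have h6 : ((D.filter fun z => Quotient.mk σ z.1 = g).filter fun z => z.2 = i) = ∅ := by
          rw [Finset.eq_empty_iff_forall_notMem]
          intro z hz
          rw [Finset.mem_filter, Finset.mem_filter, hD, Finset.mem_filter] at hz
          obtain ⟨⟨⟨-, h7, h8⟩, h9⟩, h10⟩ := hz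
          refine h5 ⟨?_, z.1, ?_, h8, h9⟩
          · rw [Finset.mem_compl]
            intro h11
            exact h8 i h11 (h10 ▸ hdi _ _ h7)
          · exact h10 ▸ hdi _ _ h7
        rw [h6]
        simp
    · simp
  have hsum : (D.card : ℝ) = ∑ g : Quotient σ, ((D.filter fun z => Quotient.mk σ z.1 = g).card : ℝ) := by
    rw [← Nat.cast_sum]
    exact congrArg _ (Finset.card_eq_sum_card_fiberwise (f := fun z : P × I => Quotient.mk σ z.1) fun _ _ => Finset.mem_coe.2 (Finset.mem_univ _))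
  have e1 : ∑ g : Quotient σ, (ng g : ℝ) = ∑ i ∈ Rᶜ, (VP_N inc σ R i : ℝ) := by
    have h1 : ∀ g, (ng g : ℝ) = ∑ i ∈ Rᶜ, if ∃ p', inc p' i ∧ (∀ j ∈ R, ¬ inc p' j) ∧ Quotient.mk σ p' = g then (1 : ℝ) else 0 := by
      intro g
      rw [hng, Finset.sum_boole]
    rw [Finset.sum_congr rfl fun g _ => h1 g, Finset.sum_comm]
    refine Finset.sum_congr rfl fun i _ => ?_
    rw [Finset.sum_boole]
    refine congrArg _ (congrArg _ ?_)
    ext g
    simp only [Finset.mem_filter, Finset.mem_univ, true_and, Finset.mem_image]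
    constructor
    · rintro ⟨p', h1, h2, h3⟩
      exact ⟨p', ⟨h1, h2⟩, h3⟩
    · rintro ⟨p', ⟨h1, h2⟩, h3⟩
      exact ⟨p', h1, h2, h3⟩
  have e2 : ∑ g : Quotient σ, (ng g : ℝ) ^ (1 - 1 / (k : ℝ)) * (Qg g).card =
      ∑ p ∈ Finset.univ.filter fun p => ∀ j ∈ R, ¬ inc p j, (VP_nn inc σ R p : ℝ) ^ (1 - 1 / (k : ℝ)) := by
    rw [← Finset.sum_fiberwise (Finset.univ.filter fun p => ∀ j ∈ R, ¬ inc p j) (fun p => Quotient.mk σ p)]
    refine Finset.sum_congr rfl fun g _ => ?_
    have h1 : ((Finset.univ.filter fun p => ∀ j ∈ R, ¬ inc p j).filter fun p => Quotient.mk σ p = g) = Qg g := by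
      rw [hQg, Finset.filter_filter]
    rw [h1, mul_comm, ← nsmul_eq_mul, ← Finset.sum_const]
    refine Finset.sum_congr rfl fun p hp => ?_
    rw [hQg, Finset.mem_filter] at hp
    have h2 : ng g = VP_nn inc σ R p := by
      rw [hng]
      unfold VP_nn
      refine congrArg _ ?_
      ext i
      simp only [Finset.mem_filter, Finset.mem_compl]
      refine and_congr_right fun _ => exists_congr fun p' => and_congr_right fun _ => and_congr_right fun _ => ?_
      rw [← hp.2.2, eq_comm (a := Quotient.mk σ p'), Quotient.eq]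
    rw [h2]
  calc ((Finset.univ.filter fun z : P × I => des z.1 z.2 ∧ ∀ j ∈ R, ¬ inc z.1 j).card : ℝ) = D.card := by rw [hD]
    _ = ∑ g : Quotient σ, ((D.filter fun z => Quotient.mk σ z.1 = g).card : ℝ) := hsum
    _ ≤ ∑ g : Quotient σ, A * ((ng g : ℝ) + (ng g : ℝ) ^ (1 - 1 / (k : ℝ)) * (Qg g).card) :=
        Finset.sum_le_sum fun g _ => key g
    _ = _ := by
        rw [← Finset.mul_sum, Finset.sum_add_distrib, e1, e2, add_comm]

open scoped Classical in
private theorem VP_heavy {I P : Type} [Fintype I] [Fintype P] (inc : P → I → Prop) (x : I → I → ℕ) {s : ℕ}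
    (hx : ∀ i j, i ≠ j → (Finset.univ.filter fun p => inc p i ∧ inc p j).card ≤ x i j) (hs : 2 ≤ s)
    (hn : 4 * s ≤ Fintype.card I) :
    ∑ p ∈ Finset.univ.filter fun p => Fintype.card I < s * (Finset.univ.filter fun i => inc p i).card,
      ((Finset.univ.filter fun i => inc p i).card : ℝ) ≤
    2 * ((s : ℝ) / Fintype.card I) * ∑ i, ∑ j ∈ Finset.univ.erase i, (x i j : ℝ) := by
  have hn0 : (0 : ℝ) < Fintype.card I := by
    have : 0 < Fintype.card I := by omega
    exact_mod_cast this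
  obtain ⟨r, hr⟩ : ∃ r : P → ℕ, r = fun p => (Finset.univ.filter fun i => inc p i).card := ⟨_, rfl⟩
  have hr' : ∀ p, (r p : ℝ) = ∑ i, if inc p i then (1 : ℝ) else 0 := by
    intro p
    rw [hr, Finset.sum_boole]
  have h1 : ∀ p, (r p : ℝ) * ((r p : ℝ) - 1) = ∑ i, ∑ j ∈ Finset.univ.erase i,
      (if inc p i then (1 : ℝ) else 0) * (if inc p j then (1 : ℝ) else 0) := by
    intro p
    have h2 : ∀ i : I, ∑ j ∈ Finset.univ.erase i,
        (if inc p i then (1 : ℝ) else 0) * (if inc p j then (1 : ℝ) else 0) =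
        (if inc p i then (1 : ℝ) else 0) * ((r p : ℝ) - 1) := by
      intro i
      rw [← Finset.mul_sum, Finset.sum_erase_eq_sub (Finset.mem_univ i), ← hr']
      split_ifs <;> ring
    rw [Finset.sum_congr rfl fun i _ => h2 i, ← Finset.sum_mul, ← hr']
  have h2 : ∑ p, (r p : ℝ) * ((r p : ℝ) - 1) ≤ ∑ i, ∑ j ∈ Finset.univ.erase i, (x i j : ℝ) := by
    rw [Finset.sum_congr rfl fun p _ => h1 p, Finset.sum_comm]
    refine Finset.sum_le_sum fun i _ => ?_
    rw [Finset.sum_comm]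
    refine Finset.sum_le_sum fun j hj => ?_
    refine le_trans ?_ (Nat.cast_le.2 (hx i j (Finset.ne_of_mem_erase hj).symm))
    rw [← Finset.sum_boole]
    refine Finset.sum_le_sum fun p _ => ?_
    split_ifs <;> simp_all
  have hnn : ∀ p, 0 ≤ (r p : ℝ) * ((r p : ℝ) - 1) := by
    intro p
    rcases Nat.eq_zero_or_pos (r p) with h | h
    · rw [h]
      simp
    · have : (1 : ℝ) ≤ r p := by exact_mod_cast h
      exact mul_nonneg (Nat.cast_nonneg _) (by linarith)
  calc ∑ p ∈ Finset.univ.filter fun p => Fintype.card I < s * (Finset.univ.filter fun i => inc p i).card,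
      ((Finset.univ.filter fun i => inc p i).card : ℝ)
      = ∑ p ∈ Finset.univ.filter fun p => Fintype.card I < s * r p, (r p : ℝ) := by rw [hr]
    _ ≤ ∑ p ∈ Finset.univ.filter fun p => Fintype.card I < s * r p,
        2 * ((s : ℝ) / Fintype.card I) * ((r p : ℝ) * ((r p : ℝ) - 1)) := by
        refine Finset.sum_le_sum fun p hp => ?_
        rw [Finset.mem_filter] at hp
        have h3 : Fintype.card I + 2 * s ≤ 2 * (s * r p) := by
          have := hp.2
          omega
        have h4 : (Fintype.card I : ℝ) + 2 * s ≤ 2 * (s * r p) := by exact_mod_cast h3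
        have h5 : (r p : ℝ) * 1 ≤ (r p : ℝ) * (2 * ((s : ℝ) / Fintype.card I) * ((r p : ℝ) - 1)) := by
          refine mul_le_mul_of_nonneg_left ?_ (Nat.cast_nonneg _)
          rw [mul_div_assoc', div_mul_eq_mul_div, le_div_iff₀ hn0]
          linarith
        linarith
    _ ≤ ∑ p, 2 * ((s : ℝ) / Fintype.card I) * ((r p : ℝ) * ((r p : ℝ) - 1)) := by
        refine Finset.sum_le_sum_of_subset_of_nonneg (Finset.filter_subset _ _) fun p _ _ => ?_
        have : 0 ≤ (s : ℝ) / Fintype.card I := by positivity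
        exact mul_nonneg (by linarith) (hnn p)
    _ = 2 * ((s : ℝ) / Fintype.card I) * ∑ p, (r p : ℝ) * ((r p : ℝ) - 1) := by rw [Finset.mul_sum]
    _ ≤ _ := by
        refine mul_le_mul_of_nonneg_left h2 ?_
        positivity

open scoped Classical in
private theorem VP_e1 {I : Type} [Fintype I] (x : I → I → ℕ) {s : ℕ} (hxs : ∀ i j, x i j = x j i)
    (hs : 2 ≤ s) (hn : 4 * s ≤ Fintype.card I) :
    ∑ R ∈ Finset.powersetCard s (Finset.univ : Finset I), ∑ i ∈ Rᶜ, ∑ j ∈ R, (x i j : ℝ) ≤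
      ((Fintype.card I).choose s : ℝ) * ((s : ℝ) / Fintype.card I *
        ∑ i, ∑ j ∈ Finset.univ.erase i, (x i j : ℝ)) := by
  have hn0 : (0 : ℝ) < Fintype.card I := by
    have : 0 < Fintype.card I := by omega
    exact_mod_cast this
  have h1 : ∀ R ∈ Finset.powersetCard s (Finset.univ : Finset I), ∑ i ∈ Rᶜ, ∑ j ∈ R, (x i j : ℝ) ≤
      ∑ j : I, if j ∈ R then ∑ i ∈ Finset.univ.erase j, (x i j : ℝ) else 0 := by
    intro R _
    rw [Finset.sum_comm, ← Finset.sum_filter, Finset.filter_mem_eq_inter, Finset.univ_inter]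
    refine Finset.sum_le_sum fun j hj => ?_
    refine Finset.sum_le_sum_of_subset_of_nonneg ?_ fun i _ _ => Nat.cast_nonneg _
    intro i hi
    rw [Finset.mem_erase]
    exact ⟨fun h => (Finset.mem_compl.1 hi) (h ▸ hj), Finset.mem_univ _⟩
  refine (Finset.sum_le_sum h1).trans (le_of_eq ?_)
  rw [Finset.sum_comm, ← mul_assoc, Finset.mul_sum]
  refine Finset.sum_congr rfl fun j _ => ?_
  rw [← Finset.sum_filter, Finset.sum_const, nsmul_eq_mul]
  have h2 := VP_mem (I := I) (s := s) (by omega) j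
  have h3 : ∑ i ∈ Finset.univ.erase j, (x i j : ℝ) = ∑ i ∈ Finset.univ.erase j, (x j i : ℝ) :=
    Finset.sum_congr rfl fun i _ => by rw [hxs]
  rw [h3]
  refine congrArg (· * _) ?_
  rw [mul_div_assoc', eq_div_iff hn0.ne', mul_comm, h2, mul_comm]

private theorem VP_ch (n : ℕ) {s : ℕ} (hs : 2 ≤ s) :
    (n.choose (s + 1) : ℝ) ≤ (n.choose s : ℝ) * ((n : ℝ) / s) := by
  have hs0 : (0 : ℝ) < s := by exact_mod_cast (by omega : 0 < s)
  have h1 := Nat.choose_succ_right_eq n s
  have h2 : (n.choose (s + 1) : ℝ) * (s + 1) = (n.choose s : ℝ) * ((n - s : ℕ) : ℝ) := by exact_mod_cast h1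
  have h3 : ((n - s : ℕ) : ℝ) ≤ n := by exact_mod_cast Nat.sub_le n s
  rw [mul_div_assoc', le_div_iff₀ hs0]
  have h4 : (0 : ℝ) ≤ (n.choose (s + 1) : ℝ) := Nat.cast_nonneg _
  have h5 : (0 : ℝ) ≤ (n.choose s : ℝ) := Nat.cast_nonneg _
  nlinarith

open scoped Classical in
private theorem VP_e2 {I P : Type} [Fintype I] [Fintype P] (inc : P → I → Prop) (rel : Finset I → Setoid P)
    (a : I → ℕ) (x : I → I → ℕ) (w : Finset I → I → ℕ) {q s : ℕ} (hxs : ∀ i j, x i j = x j i)
    (hV : ∀ (R : Finset I) (i : I), i ∉ R → VP_N inc (rel R) R i ≤ a i + ∑ j ∈ R, x i j + w R i)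
    (hw : ∀ R : Finset I, ∑ i ∈ R, w (R.erase i) i ≤
      2 * (2 * ∑ i ∈ R, a i + ∑ i ∈ R, ∑ j ∈ R.erase i, x i j + q))
    (hs : 2 ≤ s) (hn : 4 * s ≤ Fintype.card I) :
    ∑ R ∈ Finset.powersetCard s (Finset.univ : Finset I), ∑ i ∈ Rᶜ, (VP_N inc (rel R) R i : ℝ) ≤
      ((Fintype.card I).choose s : ℝ) * (5 * ∑ i, (a i : ℝ) + 3 * ((s : ℝ) / Fintype.card I *
        ∑ i, ∑ j ∈ Finset.univ.erase i, (x i j : ℝ)) + 2 * ((Fintype.card I : ℝ) / s * q)) := by
  have hA : ∑ R ∈ Finset.powersetCard s (Finset.univ : Finset I), ∑ i ∈ Rᶜ, (a i : ℝ) ≤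
      ((Fintype.card I).choose s : ℝ) * ∑ i, (a i : ℝ) := by
    have h1 : ∀ R ∈ Finset.powersetCard s (Finset.univ : Finset I), ∑ i ∈ Rᶜ, (a i : ℝ) ≤ ∑ i, (a i : ℝ) :=
      fun R _ => Finset.sum_le_sum_of_subset_of_nonneg (Finset.subset_univ _) fun i _ _ => Nat.cast_nonneg _
    refine (Finset.sum_le_sum h1).trans (le_of_eq ?_)
    rw [Finset.sum_const, Finset.card_powersetCard, Finset.card_univ, nsmul_eq_mul]
  have hX := VP_e1 x hxs hs hn
  have hW : ∑ R ∈ Finset.powersetCard s (Finset.univ : Finset I), ∑ i ∈ Rᶜ, (w R i : ℝ) ≤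
      4 * ∑ R ∈ Finset.powersetCard s (Finset.univ : Finset I), ∑ i ∈ Rᶜ, (a i : ℝ) +
      2 * ∑ R ∈ Finset.powersetCard s (Finset.univ : Finset I), ∑ i ∈ Rᶜ, ∑ j ∈ R, (x i j : ℝ) +
      2 * q * ((Fintype.card I).choose (s + 1) : ℝ) := by
    rw [VP_swap s fun R i => (w R i : ℝ), VP_swap s fun _ i => (a i : ℝ),
      VP_swap s fun R i => ∑ j ∈ R, (x i j : ℝ)]
    have h1 : ∀ R ∈ Finset.powersetCard (s + 1) (Finset.univ : Finset I), ∑ i ∈ R, (w (R.erase i) i : ℝ) ≤
        4 * ∑ i ∈ R, (a i : ℝ) + 2 * ∑ i ∈ R, ∑ j ∈ R.erase i, (x i j : ℝ) + 2 * q := by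
      intro R _
      have h2 : ((∑ i ∈ R, w (R.erase i) i : ℕ) : ℝ) ≤
        ((2 * (2 * ∑ i ∈ R, a i + ∑ i ∈ R, ∑ j ∈ R.erase i, x i j + q) : ℕ) : ℝ) := Nat.cast_le.2 (hw R)
      push_cast at h2
      linarith
    refine (Finset.sum_le_sum h1).trans (le_of_eq ?_)
    rw [Finset.sum_add_distrib, Finset.sum_add_distrib, ← Finset.mul_sum, ← Finset.mul_sum, Finset.sum_const,
      Finset.card_powersetCard, Finset.card_univ, nsmul_eq_mul]
    ring
  have hN : ∑ R ∈ Finset.powersetCard s (Finset.univ : Finset I), ∑ i ∈ Rᶜ, (VP_N inc (rel R) R i : ℝ) ≤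
      ∑ R ∈ Finset.powersetCard s (Finset.univ : Finset I), ∑ i ∈ Rᶜ, (a i : ℝ) +
      ∑ R ∈ Finset.powersetCard s (Finset.univ : Finset I), ∑ i ∈ Rᶜ, ∑ j ∈ R, (x i j : ℝ) +
      ∑ R ∈ Finset.powersetCard s (Finset.univ : Finset I), ∑ i ∈ Rᶜ, (w R i : ℝ) := by
    rw [← Finset.sum_add_distrib, ← Finset.sum_add_distrib]
    refine Finset.sum_le_sum fun R _ => ?_
    rw [← Finset.sum_add_distrib, ← Finset.sum_add_distrib]
    refine Finset.sum_le_sum fun i hi => ?_
    exact_mod_cast hV R i (Finset.mem_compl.1 hi)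
  have hc := VP_ch (Fintype.card I) hs
  have hq : (q : ℝ) * ((Fintype.card I).choose (s + 1) : ℝ) ≤
      q * (((Fintype.card I).choose s : ℝ) * ((Fintype.card I : ℝ) / s)) :=
    mul_le_mul_of_nonneg_left hc (Nat.cast_nonneg _)
  have e : ((Fintype.card I).choose s : ℝ) * (5 * ∑ i, (a i : ℝ) + 3 * ((s : ℝ) / Fintype.card I *
        ∑ i, ∑ j ∈ Finset.univ.erase i, (x i j : ℝ)) + 2 * ((Fintype.card I : ℝ) / s * q)) =
      5 * (((Fintype.card I).choose s : ℝ) * ∑ i, (a i : ℝ)) +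
      3 * (((Fintype.card I).choose s : ℝ) * ((s : ℝ) / Fintype.card I *
        ∑ i, ∑ j ∈ Finset.univ.erase i, (x i j : ℝ))) +
      2 * (q * (((Fintype.card I).choose s : ℝ) * ((Fintype.card I : ℝ) / s))) := by ring
  rw [e]
  linarith

open scoped Classical in
private theorem VP_e3 {I P : Type} [Fintype I] [Fintype P] (inc : P → I → Prop) (rel : Finset I → Setoid P)
    (h3 : ∀ (R : Finset I) (p : P), (R.filter fun i => (∀ j ∈ R.erase i, ¬ inc p j) ∧
      ∃ p', inc p' i ∧ (∀ j ∈ R.erase i, ¬ inc p' j) ∧ (rel (R.erase i)).r p p').card ≤ 6) (s : ℕ) :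
    ∑ R ∈ Finset.powersetCard s (Finset.univ : Finset I), ∑ p ∈ Finset.univ.filter fun p => ∀ j ∈ R, ¬ inc p j,
      (VP_nn inc (rel R) R p : ℝ) ≤ 6 * Fintype.card P * ((Fintype.card I).choose (s + 1) : ℝ) := by
  have h4 : ∑ R ∈ Finset.powersetCard s (Finset.univ : Finset I),
      ∑ p ∈ Finset.univ.filter fun p => ∀ j ∈ R, ¬ inc p j, (VP_nn inc (rel R) R p : ℝ) =
      ∑ p : P, ∑ R ∈ Finset.powersetCard s (Finset.univ : Finset I), ∑ i ∈ Rᶜ,
        if (∀ j ∈ R, ¬ inc p j) ∧ ∃ p', inc p' i ∧ (∀ j ∈ R, ¬ inc p' j) ∧ (rel R).r p p' then (1 : ℝ) else 0 := by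
    rw [Finset.sum_comm (s := Finset.univ)]
    refine Finset.sum_congr rfl fun R _ => ?_
    rw [Finset.sum_filter]
    refine Finset.sum_congr rfl fun p _ => ?_
    by_cases h : ∀ j ∈ R, ¬ inc p j
    · rw [if_pos h, Finset.sum_boole]
      unfold VP_nn
      refine congrArg _ (congrArg _ ?_)
      ext i
      simp only [Finset.mem_filter]
      exact and_congr_right fun _ => ⟨fun h5 => ⟨h, h5⟩, fun h5 => h5.2⟩
    · rw [if_neg h]
      symm
      refine Finset.sum_eq_zero fun i _ => if_neg fun h5 => h h5.1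
  rw [h4]
  have h5 : ∀ p : P, ∑ R ∈ Finset.powersetCard s (Finset.univ : Finset I), ∑ i ∈ Rᶜ,
        (if (∀ j ∈ R, ¬ inc p j) ∧ ∃ p', inc p' i ∧ (∀ j ∈ R, ¬ inc p' j) ∧ (rel R).r p p' then (1 : ℝ) else 0) ≤
        6 * ((Fintype.card I).choose (s + 1) : ℝ) := by
    intro p
    rw [VP_swap s fun R i => (if (∀ j ∈ R, ¬ inc p j) ∧ ∃ p', inc p' i ∧ (∀ j ∈ R, ¬ inc p' j) ∧ (rel R).r p p' then (1 : ℝ) else 0)]
    have h6 : ∀ R ∈ Finset.powersetCard (s + 1) (Finset.univ : Finset I), ∑ i ∈ R,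
        (if (∀ j ∈ R.erase i, ¬ inc p j) ∧ ∃ p', inc p' i ∧ (∀ j ∈ R.erase i, ¬ inc p' j) ∧ (rel (R.erase i)).r p p' then (1 : ℝ) else 0) ≤ 6 := by
      intro R _
      rw [Finset.sum_boole]
      exact_mod_cast h3 R p
    refine (Finset.sum_le_sum h6).trans (le_of_eq ?_)
    rw [Finset.sum_const, Finset.card_powersetCard, Finset.card_univ, nsmul_eq_mul]
    ring
  refine (Finset.sum_le_sum fun p _ => h5 p).trans (le_of_eq ?_)
  rw [Finset.sum_const, Finset.card_univ, nsmul_eq_mul]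
  ring

private theorem VP_pow {k : ℕ} (hk : 2 ≤ k) {T v : ℝ} (hT : 0 < T) (hv : 0 ≤ v) :
    v ^ (1 - 1 / (k : ℝ)) ≤ T ^ (1 - 1 / (k : ℝ)) + T ^ (-(1 / (k : ℝ))) * v := by
  have hk0 : (0 : ℝ) < k := by exact_mod_cast (by omega : 0 < k)
  have hb : 0 < 1 / (k : ℝ) := by positivity
  have hb1 : 1 / (k : ℝ) ≤ 1 := by
    rw [div_le_one hk0]
    exact_mod_cast (by omega : 1 ≤ k)
  rcases le_or_gt v T with h | h
  · have h1 := Real.rpow_le_rpow hv h (by linarith : 0 ≤ 1 - 1 / (k : ℝ))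
    have h2 : 0 ≤ T ^ (-(1 / (k : ℝ))) * v := mul_nonneg (Real.rpow_nonneg hT.le _) hv
    linarith
  · have hv0 : 0 < v := hT.trans h
    have h1 : v ^ (1 - 1 / (k : ℝ)) = v ^ (-(1 / (k : ℝ))) * v := by
      rw [sub_eq_neg_add, Real.rpow_add hv0, Real.rpow_one]
    have h2 := Real.rpow_le_rpow_of_nonpos hT h.le (by linarith : -(1 / (k : ℝ)) ≤ 0)
    have h3 := mul_le_mul_of_nonneg_right h2 hv
    have h4 : 0 ≤ T ^ (1 - 1 / (k : ℝ)) := Real.rpow_nonneg hT.le _
    rw [h1]
    linarith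

open scoped Classical in
private theorem VP_fib {I P : Type} [Fintype I] [Fintype P] (des : P → I → Prop) (Q : P → Prop) :
    ((Finset.univ.filter fun z : P × I => des z.1 z.2 ∧ Q z.1).card : ℝ) =
      ∑ p ∈ Finset.univ.filter Q, ((Finset.univ.filter fun i => des p i).card : ℝ) := by
  rw [← Finset.sum_boole, Fintype.sum_prod_type, Finset.sum_filter]
  refine Finset.sum_congr rfl fun p _ => ?_
  by_cases h : Q p
  · rw [if_pos h, ← Finset.sum_boole]
    refine Finset.sum_congr rfl fun i _ => ?_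
    simp only [h, and_true]
  · rw [if_neg h]
    exact Finset.sum_eq_zero fun i _ => if_neg fun h1 => h h1.2

open scoped Classical in
private theorem VP_off {I P : Type} [Fintype I] (inc : P → I → Prop) (s : ℕ) (p : P) :
    ((Finset.powersetCard s (Finset.univ : Finset I)).filter fun R => ∀ j ∈ R, ¬ inc p j).card =
      (Fintype.card I - (Finset.univ.filter fun i => inc p i).card).choose s := by
  have h1 : ((Finset.powersetCard s (Finset.univ : Finset I)).filter fun R => ∀ j ∈ R, ¬ inc p j) =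
      Finset.powersetCard s (Finset.univ.filter fun i => inc p i)ᶜ := by
    ext R
    simp only [Finset.mem_filter, Finset.mem_powersetCard, Finset.subset_univ, true_and]
    constructor
    · rintro ⟨h1, h2⟩
      refine ⟨fun j hj => ?_, h1⟩
      simp only [Finset.mem_compl, Finset.mem_filter, Finset.mem_univ, true_and]
      exact h2 j hj
    · rintro ⟨h1, h2⟩
      refine ⟨h2, fun j hj => ?_⟩
      have h3 := h1 hj
      simp only [Finset.mem_compl, Finset.mem_filter, Finset.mem_univ, true_and] at h3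
      exact h3
  rw [h1, Finset.card_powersetCard, Finset.card_compl]

open scoped Classical in
theorem vp (k K : ℕ) (hk : 2 ≤ k) : ∃ A : ℝ, 0 < A ∧ ∀ (I P : Type) [Fintype I] [Fintype P]
    (inc des : P → I → Prop) (rel : Finset I → Setoid P) (a : I → ℕ) (x : I → I → ℕ)
    (w : Finset I → I → ℕ) (q s : ℕ), (∀ p i, des p i → inc p i) →
    (∀ Q : Finset P, Q.card = k → (Finset.univ.filter fun i => ∀ p ∈ Q, des p i).card ≤ K) →
    (∀ i j, i ≠ j → (Finset.univ.filter fun p => inc p i ∧ inc p j).card ≤ x i j) →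
    (∀ i j, x i j = x j i) →
    (∀ (R : Finset I) (i : I), i ∉ R →
      ((Finset.univ.filter fun p => inc p i ∧ ∀ j ∈ R, ¬ inc p j).image
        (Quotient.mk (rel R))).card ≤ a i + ∑ j ∈ R, x i j + w R i) →
    (∀ R : Finset I, ∑ i ∈ R, w (R.erase i) i ≤
      2 * (2 * ∑ i ∈ R, a i + ∑ i ∈ R, ∑ j ∈ R.erase i, x i j + q)) →
    (∀ (R : Finset I) (p : P), (R.filter fun i => (∀ j ∈ R.erase i, ¬ inc p j) ∧
      ∃ p', inc p' i ∧ (∀ j ∈ R.erase i, ¬ inc p' j) ∧ (rel (R.erase i)).r p p').card ≤ 6) →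
    2 ≤ s → 4 * s ≤ Fintype.card I →
    (((Finset.univ : Finset (P × I)).filter fun z => des z.1 z.2).card : ℝ) ≤
      A * (Fintype.card P * ((Fintype.card I : ℝ) / s) ^ (1 - 1 / (k : ℝ)) + ∑ i, (a i : ℝ) +
        (Fintype.card I : ℝ) / s * q +
        (s : ℝ) / Fintype.card I * ∑ i, ∑ j ∈ Finset.univ.erase i, (x i j : ℝ)) := by
  obtain ⟨A1, hA1, hkst⟩ := VP_kst k K hk
  refine ⟨7 * (Real.exp 4 * A1) + 2, by positivity, ?_⟩
  intro I P _ _ inc des rel a x w q s hdi hK hx hxs hV hw h3 hs hn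
  have hn0 : (0 : ℝ) < Fintype.card I := by
    have : 0 < Fintype.card I := by omega
    exact_mod_cast this
  have hs0 : (0 : ℝ) < s := by exact_mod_cast (by omega : 0 < s)
  obtain ⟨T, hT⟩ : ∃ T : ℝ, T = (Fintype.card I : ℝ) / s := ⟨_, rfl⟩
  have hT0 : 0 < T := by
    rw [hT]
    positivity
  obtain ⟨Cn, hCn⟩ : ∃ Cn : ℝ, Cn = ((Fintype.card I).choose s : ℝ) := ⟨_, rfl⟩
  have hCn0 : 0 < Cn := by
    rw [hCn]
    exact_mod_cast Nat.choose_pos (by omega : s ≤ Fintype.card I)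
  obtain ⟨X, hX⟩ : ∃ X : ℝ, X = (s : ℝ) / Fintype.card I * ∑ i, ∑ j ∈ Finset.univ.erase i, (x i j : ℝ) := ⟨_, rfl⟩
  have hX0 : 0 ≤ X := by
    rw [hX]
    positivity
  obtain ⟨Sa, hSa⟩ : ∃ Sa : ℝ, Sa = ∑ i, (a i : ℝ) := ⟨_, rfl⟩
  have hSa0 : 0 ≤ Sa := by
    rw [hSa]
    positivity
  have hheavy := VP_heavy inc x hx hs hn
  have he2 := VP_e2 inc rel a x w hxs hV hw hs hn
  have he3 := VP_e3 inc rel h3 s
  have hch := VP_ch (Fintype.card I) hs
  rw [mul_assoc, ← hX] at hheavy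
  rw [← hT, ← hX, ← hCn, ← hSa] at he2
  rw [← hT, ← hCn] at hch
  rw [← hT, ← hX, ← hSa]
  -- the sum over the sample of the incidences at points off `R`
  have hD : ∑ R ∈ Finset.powersetCard s (Finset.univ : Finset I),
      ((Finset.univ.filter fun z : P × I => des z.1 z.2 ∧ ∀ j ∈ R, ¬ inc z.1 j).card : ℝ) ≤
      A1 * (7 * (Cn * (Fintype.card P * T ^ (1 - 1 / (k : ℝ)))) + Cn * (5 * Sa + 3 * X + 2 * (T * q))) := by
    have h4 : ∀ R ∈ Finset.powersetCard s (Finset.univ : Finset I),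
        ((Finset.univ.filter fun z : P × I => des z.1 z.2 ∧ ∀ j ∈ R, ¬ inc z.1 j).card : ℝ) ≤
        A1 * ((Fintype.card P * T ^ (1 - 1 / (k : ℝ)) + T ^ (-(1 / (k : ℝ))) *
          ∑ p ∈ Finset.univ.filter fun p => ∀ j ∈ R, ¬ inc p j, (VP_nn inc (rel R) R p : ℝ)) +
          ∑ i ∈ Rᶜ, (VP_N inc (rel R) R i : ℝ)) := by
      intro R _
      refine (hkst I P inc des (rel R) R hdi hK).trans ?_
      refine mul_le_mul_of_nonneg_left (add_le_add_left ?_ _) hA1.le
      have h5 : ∀ p ∈ Finset.univ.filter fun p => ∀ j ∈ R, ¬ inc p j,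
          (VP_nn inc (rel R) R p : ℝ) ^ (1 - 1 / (k : ℝ)) ≤
            T ^ (1 - 1 / (k : ℝ)) + T ^ (-(1 / (k : ℝ))) * (VP_nn inc (rel R) R p : ℝ) :=
        fun p _ => VP_pow hk hT0 (Nat.cast_nonneg _)
      refine (Finset.sum_le_sum h5).trans ?_
      rw [Finset.sum_add_distrib, ← Finset.mul_sum, Finset.sum_const, nsmul_eq_mul]
      refine add_le_add_left ?_ _
      refine mul_le_mul_of_nonneg_right ?_ (Real.rpow_nonneg hT0.le _)
      exact Nat.cast_le.2 (Finset.card_le_univ _)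
    refine (Finset.sum_le_sum h4).trans ?_
    rw [← Finset.mul_sum, Finset.sum_add_distrib, Finset.sum_add_distrib, Finset.sum_const,
      Finset.card_powersetCard, Finset.card_univ, nsmul_eq_mul, ← Finset.mul_sum, ← hCn]
    refine mul_le_mul_of_nonneg_left (add_le_add ?_ he2) hA1.le
    have h5 : T ^ (-(1 / (k : ℝ))) * T = T ^ (1 - 1 / (k : ℝ)) := by
      rw [sub_eq_neg_add, Real.rpow_add hT0, Real.rpow_one]
    have h6 : T ^ (-(1 / (k : ℝ))) * ∑ R ∈ Finset.powersetCard s (Finset.univ : Finset I),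
        ∑ p ∈ Finset.univ.filter fun p => ∀ j ∈ R, ¬ inc p j, (VP_nn inc (rel R) R p : ℝ) ≤
        6 * (Cn * (Fintype.card P * T ^ (1 - 1 / (k : ℝ)))) := by
      have h7 : (0 : ℝ) ≤ 6 * Fintype.card P := by positivity
      calc _ ≤ T ^ (-(1 / (k : ℝ))) * (6 * Fintype.card P * (Cn * T)) :=
            mul_le_mul_of_nonneg_left (he3.trans (mul_le_mul_of_nonneg_left hch h7)) (Real.rpow_nonneg hT0.le _)
        _ = 6 * (Cn * (Fintype.card P * (T ^ (-(1 / (k : ℝ))) * T))) := by ring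
        _ = _ := by rw [h5]
    linarith
  -- light points
  have hlight : Cn * ∑ p ∈ Finset.univ.filter fun p => ¬ Fintype.card I < s * (Finset.univ.filter fun i => inc p i).card,
      ((Finset.univ.filter fun i => des p i).card : ℝ) ≤
      Real.exp 4 * ∑ R ∈ Finset.powersetCard s (Finset.univ : Finset I),
      ((Finset.univ.filter fun z : P × I => des z.1 z.2 ∧ ∀ j ∈ R, ¬ inc z.1 j).card : ℝ) := by
    have h4 : ∑ R ∈ Finset.powersetCard s (Finset.univ : Finset I),
        ((Finset.univ.filter fun z : P × I => des z.1 z.2 ∧ ∀ j ∈ R, ¬ inc z.1 j).card : ℝ) =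
        ∑ p : P, (((Fintype.card I - (Finset.univ.filter fun i => inc p i).card).choose s : ℕ) : ℝ) *
          ((Finset.univ.filter fun i => des p i).card : ℝ) := by
      have h5 : ∀ R ∈ Finset.powersetCard s (Finset.univ : Finset I),
          ((Finset.univ.filter fun z : P × I => des z.1 z.2 ∧ ∀ j ∈ R, ¬ inc z.1 j).card : ℝ) =
          ∑ p : P, if ∀ j ∈ R, ¬ inc p j then ((Finset.univ.filter fun i => des p i).card : ℝ) else 0 := by
        intro R _
        have h6 := VP_fib des fun p => ∀ j ∈ R, ¬ inc p j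
        rw [Finset.sum_filter] at h6
        refine Eq.trans (congrArg _ (congrArg _ ?_)) (h6.trans (Finset.sum_congr rfl fun p _ => ?_))
        · ext z
          simp only [Finset.mem_filter]
        · by_cases h7 : ∀ j ∈ R, ¬ inc p j
          · rw [if_pos h7, if_pos h7]
          · rw [if_neg h7, if_neg h7]
      rw [Finset.sum_congr rfl h5, Finset.sum_comm]
      refine Finset.sum_congr rfl fun p _ => ?_
      rw [← Finset.sum_filter, Finset.sum_const, nsmul_eq_mul, VP_off inc s p]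
    rw [h4, Finset.mul_sum, Finset.mul_sum]
    refine (Finset.sum_le_sum fun p hp => ?_).trans
      (Finset.sum_le_sum_of_subset_of_nonneg (Finset.filter_subset _ _) fun p _ _ => ?_)
    · rw [Finset.mem_filter, not_lt] at hp
      rw [← mul_assoc]
      refine mul_le_mul_of_nonneg_right ?_ (Nat.cast_nonneg _)
      have hr2 : 2 * (Finset.univ.filter fun i => inc p i).card ≤ Fintype.card I :=
        (Nat.mul_le_mul_right _ hs).trans hp.2
      have h5 := VP_light hs hn _ hr2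
      rw [← hCn] at h5
      refine h5.trans (mul_le_mul_of_nonneg_right (Real.exp_le_exp.2 ?_) (Nat.cast_nonneg _))
      rw [div_le_iff₀ hn0, mul_assoc]
      have h6 : (s : ℝ) * ((Finset.univ.filter fun i => inc p i).card : ℝ) ≤ Fintype.card I := by exact_mod_cast hp.2
      linarith
    · positivity
  -- all points
  have hall : (((Finset.univ : Finset (P × I)).filter fun z => des z.1 z.2).card : ℝ) =
      ∑ p ∈ Finset.univ.filter fun p => Fintype.card I < s * (Finset.univ.filter fun i => inc p i).card,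
        ((Finset.univ.filter fun i => des p i).card : ℝ) +
      ∑ p ∈ Finset.univ.filter fun p => ¬ Fintype.card I < s * (Finset.univ.filter fun i => inc p i).card,
        ((Finset.univ.filter fun i => des p i).card : ℝ) := by
    rw [Finset.sum_filter_add_sum_filter_not]
    have h4 := VP_fib des fun _ : P => True
    simp only [and_true, Finset.filter_true] at h4
    exact h4
  have hdr : ∑ p ∈ Finset.univ.filter fun p => Fintype.card I < s * (Finset.univ.filter fun i => inc p i).card,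
        ((Finset.univ.filter fun i => des p i).card : ℝ) ≤
      ∑ p ∈ Finset.univ.filter fun p => Fintype.card I < s * (Finset.univ.filter fun i => inc p i).card,
        ((Finset.univ.filter fun i => inc p i).card : ℝ) := by
    refine Finset.sum_le_sum fun p _ => Nat.cast_le.2 (Finset.card_le_card ?_)
    intro i hi
    rw [Finset.mem_filter] at hi ⊢
    exact ⟨hi.1, hdi _ _ hi.2⟩
  have hE : 0 < Real.exp 4 := Real.exp_pos 4
  obtain ⟨Y, hY⟩ : ∃ Y : ℝ, Y = Fintype.card P * T ^ (1 - 1 / (k : ℝ)) := ⟨_, rfl⟩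
  have hY0 : 0 ≤ Y := by
    rw [hY]
    have := Real.rpow_nonneg hT0.le (1 - 1 / (k : ℝ))
    positivity
  rw [← hY] at hD ⊢
  have hTq : 0 ≤ T * q := by positivity
  have hfin : Cn * (((Finset.univ : Finset (P × I)).filter fun z => des z.1 z.2).card : ℝ) ≤
      Cn * ((7 * (Real.exp 4 * A1) + 2) * (Y + Sa + T * q + X)) := by
    rw [hall, mul_add]
    have h4 := mul_le_mul_of_nonneg_left (hdr.trans hheavy) hCn0.le
    have h5 := mul_le_mul_of_nonneg_left hD hE.le
    have h6 : 0 ≤ Cn * (Real.exp 4 * A1) := by positivity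
    have h7 : Real.exp 4 * (A1 * (7 * (Cn * Y) + Cn * (5 * Sa + 3 * X + 2 * (T * q)))) =
      Cn * (Real.exp 4 * A1) * (7 * Y + 5 * Sa + 3 * X + 2 * (T * q)) := by ring
    have h8 : Cn * (Real.exp 4 * A1) * (7 * Y + 5 * Sa + 3 * X + 2 * (T * q)) ≤
        Cn * (Real.exp 4 * A1) * (7 * (Y + Sa + T * q + X)) :=
      mul_le_mul_of_nonneg_left (by linarith) h6
    have h9 : Cn * (2 * X) ≤ Cn * (2 * (Y + Sa + T * q + X)) :=
      mul_le_mul_of_nonneg_left (by linarith) hCn0.le
    calc _ ≤ Cn * (2 * X) + Real.exp 4 * (A1 * (7 * (Cn * Y) + Cn * (5 * Sa + 3 * X + 2 * (T * q)))) :=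
          add_le_add h4 (hlight.trans h5)
      _ = Cn * (2 * X) + Cn * (Real.exp 4 * A1) * (7 * Y + 5 * Sa + 3 * X + 2 * (T * q)) := by rw [h7]
      _ ≤ Cn * (2 * (Y + Sa + T * q + X)) + Cn * (Real.exp 4 * A1) * (7 * (Y + Sa + T * q + X)) := add_le_add h9 h8
      _ = _ := by ring
  exact le_of_mul_le_mul_left hfin hCn0

end D4Q
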