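import Mathlib
import Pool.Agent.D4Q.Defs

/-!
# D4Q: definitions for the vertical decomposition (part VT)

`X` is a Hausdorff space, `ζ ↦ (x ζ, y ζ)` a local homeomorphism to the plane, `K` compact, `H ⊆ K` closed
(the obstacles) with `K ∖ H` open, `Sp` the special points.
-/

namespace D4Q

open Set

variable {X : Type} [TopologicalSpace X]

/-- The standing assumptions on `K`, `H`, `Sp`. -/
structure VS (x y : X → ℝ) (K H Sp : Set X) : Prop where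
  loc : IsLocalHomeomorph (fun ζ => (x ζ, y ζ))
  cK : IsCompact K
  cH : IsClosed H
  HK : H ⊆ K
  op : IsOpen (K \ H)
  fSp : Sp.Finite
  ls : ∀ v ∈ H, v ∉ Sp → LocSec x H v
  fin : ∀ t : ℝ, {v | v ∈ H ∧ x v = t}.Finite

/-- `v` and `w` are the lower and the upper end of the vertical gap of `H` containing `p`. -/
def GapP (x y : X → ℝ) (K H : Set X) (v p w : X) : Prop :=
  y v < y p ∧ y p < y w ∧ v ∈ H ∧ w ∈ H ∧ ∃ γ : ℝ → X, ContinuousOn γ (Icc (y v) (y w)) ∧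
    (∀ u ∈ Icc (y v) (y w), x (γ u) = x p ∧ y (γ u) = u) ∧
    γ (y v) = v ∧ γ (y p) = p ∧ γ (y w) = w ∧ ∀ u ∈ Ioo (y v) (y w), γ u ∈ K \ H

/-- `v`, `w` are the ends of a gap. -/
def Gap (x y : X → ℝ) (K H : Set X) (v w : X) : Prop := ∃ p, GapP x y K H v p w

/-- A gap with nonspecial ends. -/
def Good (x y : X → ℝ) (K H Sp : Set X) (v w : X) : Prop :=
  Gap x y K H v w ∧ v ∉ Sp ∧ w ∉ Sp

/-- The lower ends of the good gaps. -/
def GS (x y : X → ℝ) (K H Sp : Set X) : Set X := {v | ∃ w, Good x y K H Sp v w}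

/-- The class of a point: the component of `GS` containing the lower end of its gap, if the gap is
good. -/
def cls (x y : X → ℝ) (K H Sp : Set X) (ζ : X) : Set X :=
  {z | ∃ v w, GapP x y K H v ζ w ∧ v ∉ Sp ∧ w ∉ Sp ∧
    z ∈ connectedComponentIn (GS x y K H Sp) v}

/-- `ζ` is in a good gap. -/
def GoodPt (x y : X → ℝ) (K H Sp : Set X) (ζ : X) : Prop :=
  ∃ v w, GapP x y K H v ζ w ∧ v ∉ Sp ∧ w ∉ Sp

/-- A trapezoid over the set `T` of values of `x`, between the lower curve `κ` and the upper curve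
`τ` (both with values in `H`), with section `s`: all gaps over `T' ⊆ T` are good. -/
structure Trap (x y : X → ℝ) (K H Sp : Set X) (T T' : Set ℝ) (κ τ : ℝ → X) (s : ℝ × ℝ → X) :
    Prop where
  cκ : ContinuousOn κ T
  cτ : ContinuousOn τ T
  xκ : ∀ t ∈ T, x (κ t) = t ∧ x (τ t) = t
  le : ∀ t ∈ T, y (κ t) ≤ y (τ t)
  mH : ∀ t ∈ T, κ t ∈ H ∧ τ t ∈ H
  cs : ContinuousOn s {z | z.1 ∈ T ∧ y (κ z.1) ≤ z.2 ∧ z.2 ≤ y (τ z.1)}
  sec : ∀ z : ℝ × ℝ, z.1 ∈ T → y (κ z.1) ≤ z.2 → z.2 ≤ y (τ z.1) → x (s z) = z.1 ∧ y (s z) = z.2 ∧ s z ∈ K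
  sκ : ∀ t ∈ T, s (t, y (κ t)) = κ t ∧ s (t, y (τ t)) = τ t
  good : ∀ t ∈ T', Good x y K H Sp (κ t) (τ t)

/-- `v` is a special point in the limit slice at the right end of the class of `p`. -/
def REv (x y : X → ℝ) (K H Sp : Set X) (p v : X) : Prop :=
  v ∈ Sp ∧ ∃ (t1 : ℝ) (κ τ : ℝ → X) (s : ℝ × ℝ → X), x p < t1 ∧
    Trap x y K H Sp (Icc (x p) t1) (Ico (x p) t1) κ τ s ∧ GapP x y K H (κ (x p)) p (τ (x p)) ∧
    ∃ u ∈ Icc (y (κ t1)) (y (τ t1)), s (t1, u) = v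

/-- `v` is a special point in the limit slice at the left end of the class of `p`. -/
def LEv (x y : X → ℝ) (K H Sp : Set X) (p v : X) : Prop :=
  v ∈ Sp ∧ ∃ (t1 : ℝ) (κ τ : ℝ → X) (s : ℝ × ℝ → X), t1 < x p ∧
    Trap x y K H Sp (Icc t1 (x p)) (Ioc t1 (x p)) κ τ s ∧ GapP x y K H (κ (x p)) p (τ (x p)) ∧
    ∃ u ∈ Icc (y (κ t1)) (y (τ t1)), s (t1, u) = v

/-- The obstacles belonging to a set `R` of surfaces. -/
def HR {I Λ : Type} (B : Set X) (σ : Λ → I) (a b : Λ → ℝ) (α : Λ → ℝ → X) (R : Set I) : Set X :=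
  B ∪ {v | ∃ l, σ l ∈ R ∧ ∃ t ∈ Icc (a l) (b l), α l t = v}

/-- The special points belonging to a set `R` of surfaces. -/
def SpR {I Λ : Type} (crit : Set X) (σ : Λ → I) (a b : Λ → ℝ) (α : Λ → ℝ → X) (R : Set I) : Set X :=
  crit ∪ {v | ∃ l, σ l ∈ R ∧ (v = α l (a l) ∨ v = α l (b l))} ∪
    {v | ∃ l l', l ≠ l' ∧ σ l ∈ R ∧ σ l' ∈ R ∧ ∃ t, t ∈ Icc (a l) (b l) ∧ t ∈ Icc (a l') (b l') ∧
      α l t = v ∧ α l' t = v}

/-- The hypotheses of the vertical decomposition theorem. -/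
structure VDat (x y : X → ℝ) (K B crit : Set X) {I Λ P : Type} (σ : Λ → I) (a b : Λ → ℝ)
    (α : Λ → ℝ → X) (pt : P → X) : Prop where
  loc : IsLocalHomeomorph (fun ζ => (x ζ, y ζ))
  cK : IsCompact K
  cB : IsClosed B
  BK : B ⊆ K
  op : IsOpen (K \ B)
  fcrit : crit.Finite
  critB : crit ⊆ B
  Bloc : ∀ v ∈ B, v ∉ crit → LocSec x B v
  Bfin : ∀ t : ℝ, {v | v ∈ B ∧ x v = t}.Finite
  hab : ∀ l, a l < b l
  cα : ∀ l, ContinuousOn (α l) (Icc (a l) (b l))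
  xα : ∀ l, ∀ t ∈ Icc (a l) (b l), x (α l t) = t
  αK : ∀ l, ∀ t ∈ Icc (a l) (b l), α l t ∈ K \ B
  ptK : ∀ p, pt p ∈ K \ B
  ends : ∀ l, (∃ p, pt p = α l (a l)) ∧ ∃ p, pt p = α l (b l)
  xP : ∀ p p', x (pt p) = x (pt p') → p = p'
  Pc : ∀ p, ∀ v ∈ crit, x v ≠ x (pt p)
  Px : ∀ p l l' t, l ≠ l' → t ∈ Icc (a l) (b l) → t ∈ Icc (a l') (b l') → α l t = α l' t →
    t = x (pt p) → pt p = α l t
  crf : {z : Λ × Λ × ℝ | z.1 ≠ z.2.1 ∧ z.2.2 ∈ Icc (a z.1) (b z.1) ∧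
    z.2.2 ∈ Icc (a z.2.1) (b z.2.1) ∧ α z.1 z.2.2 = α z.2.1 z.2.2}.Finite

end D4Q
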