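import Mathlib
import Pool.Agent.D4Q.VD

/-!
# D4Q-VtUniq: uniqueness of lifts

`sec_unique`: the set where `f = g` is closed in `D` (Hausdorff) and open in `D` (local injectivity of `π`). `ls_unique`: the same for sections of the `x`-axis with
values in a set satisfying `LocSec` at the common values.
-/

namespace D4Q

open Set

theorem sec_unique {X A : Type} [TopologicalSpace X] [T2Space X] [TopologicalSpace A]
    (π : X → ℝ × ℝ) (hπ : IsLocalHomeomorph π) (D : Set A) (hD : IsPreconnected D) (f g : A → X)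
    (hf : ContinuousOn f D) (hg : ContinuousOn g D) (h : ∀ a ∈ D, π (f a) = π (g a)) (a0 : A)
    (ha0 : a0 ∈ D) (h0 : f a0 = g a0) : EqOn f g D :=
  (T2Space.isSeparatedMap π).eqOn_of_comp_eqOn hπ.isLocallyInjective hD hf hg h ha0 h0

private theorem vtuniq_ind {α : Type*} [TopologicalSpace α] {K : Set α} (hK : IsPreconnected K)
    (p : α → Prop) (h1 : ∀ t ∈ K, p t → ∀ᶠ s in nhdsWithin t K, p s)
    (h2 : ∀ t ∈ K, ¬ p t → ∀ᶠ s in nhdsWithin t K, ¬ p s) {t0 : α} (h0 : t0 ∈ K) (hp : p t0)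
    {t : α} (ht : t ∈ K) : p t := by
  have h : (p t0 ↔ p t) := by
    refine hK.induction₂ (fun a b => (p a ↔ p b)) (fun a ha => ?_)
      (fun a b c _ _ _ h3 h4 => h3.trans h4) (fun a b _ _ h3 => h3.symm) h0 ht
    by_cases hpa : p a
    · exact (h1 a ha hpa).mono fun s hs => ⟨fun _ => hs, fun _ => hpa⟩
    · exact (h2 a ha hpa).mono fun s hs => ⟨fun h => absurd h hpa, fun h => absurd h hs⟩
  exact h.1 hp

theorem ls_unique {X : Type} [TopologicalSpace X] [T2Space X] (x : X → ℝ) (Y : Set X)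
    (hY : ∀ v ∈ Y, LocSec x Y v) (D : Set ℝ) (hD : IsPreconnected D) (f g : ℝ → X)
    (hf : ContinuousOn f D) (hg : ContinuousOn g D) (hfx : ∀ t ∈ D, x (f t) = t ∧ f t ∈ Y)
    (hgx : ∀ t ∈ D, x (g t) = t ∧ g t ∈ Y) (t0 : ℝ) (ht0 : t0 ∈ D) (h0 : f t0 = g t0) :
    EqOn f g D := by
  intro t ht
  refine vtuniq_ind hD (fun s => f s = g s) (fun s hs hse => ?_) (fun s hs hse => ?_) ht0 h0 ht
  · obtain ⟨ε, hε, κ, hκ, hκv, hκt, U, hU, hUz⟩ := hY (f s) (hfx s hs).2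
    have hU2 : U ∈ nhds (g s) := by rw [← hse]; exact hU
    have e1 : ∀ᶠ r in nhdsWithin s D, f r ∈ U := hf s hs hU
    have e2 : ∀ᶠ r in nhdsWithin s D, g r ∈ U := hg s hs hU2
    have e3 : ∀ᶠ r in nhdsWithin s D, r ∈ D := self_mem_nhdsWithin
    filter_upwards [e1, e2, e3] with r hr1 hr2 hr3
    have f1 := hUz _ hr1 (hfx r hr3).2
    have f2 := hUz _ hr2 (hgx r hr3).2
    rw [(hfx r hr3).1] at f1
    rw [(hgx r hr3).1] at f2
    rw [f1, f2]
  · obtain ⟨U, V, hU, hV, hsU, hsV, hd⟩ := t2_separation hse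
    have e1 : ∀ᶠ r in nhdsWithin s D, f r ∈ U := hf s hs (hU.mem_nhds hsU)
    have e2 : ∀ᶠ r in nhdsWithin s D, g r ∈ V := hg s hs (hV.mem_nhds hsV)
    filter_upwards [e1, e2] with r hr1 hr2 he'
    rw [← he'] at hr2
    exact Set.disjoint_left.1 hd hr1 hr2

end D4Q
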