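import Mathlib
import Pool.Agent.D4Q.VD
import Pool.Agent.D4Q.VtUniq

/-!
# D4Q-VtGap: existence and uniqueness of gaps

The vertical line through `p ∈ K ∖ H` is lifted upwards as long as the lift stays in `K ∖ H` (`VtGap_ext`). The lift
converges by compactness and the local homeomorphism, its end is in `H` (`VtGap_up`); similarly downwards (replace `y`
by `-y`). The uniqueness statements follow from the uniqueness of lifts: two lifts agree where both are defined, and an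
interior point of a gap is not in `H`.
-/

namespace D4Q

open Set

private theorem VtGap_uniq {X : Type} [TopologicalSpace X] [T2Space X] {x y : X → ℝ}
    (hloc : IsLocalHomeomorph (fun ζ => (x ζ, y ζ))) {D : Set ℝ} (hD : IsPreconnected D) {γ γ' : ℝ → X} {c : ℝ}
    (hγ : ContinuousOn γ D) (hγ' : ContinuousOn γ' D) (h : ∀ u ∈ D, x (γ u) = c ∧ y (γ u) = u)
    (h' : ∀ u ∈ D, x (γ' u) = c ∧ y (γ' u) = u) {u0 : ℝ} (hu0 : u0 ∈ D) (h0 : γ u0 = γ' u0) : EqOn γ γ' D := by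
  refine sec_unique (fun ζ => (x ζ, y ζ)) hloc D hD γ γ' hγ hγ' (fun a ha => ?_) u0 hu0 h0
  show (x (γ a), y (γ a)) = (x (γ' a), y (γ' a))
  rw [(h a ha).1, (h a ha).2, (h' a ha).1, (h' a ha).2]

private theorem VtGap_glue {X : Type} [TopologicalSpace X] {a b c : ℝ} (hab : a ≤ b) (hbc : b ≤ c)
    {f1 f2 : ℝ → X} (h1 : ContinuousOn f1 (Icc a b)) (h2 : ContinuousOn f2 (Icc b c)) (h : f1 b = f2 b) :
    ∃ f : ℝ → X, ContinuousOn f (Icc a c) ∧ EqOn f f1 (Icc a b) ∧ EqOn f f2 (Icc b c) := by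
  classical
  have e1 : EqOn (fun u => if u ≤ b then f1 u else f2 u) f1 (Icc a b) := fun u hu => if_pos hu.2
  have e2 : EqOn (fun u => if u ≤ b then f1 u else f2 u) f2 (Icc b c) := by
    intro u hu
    show (if u ≤ b then f1 u else f2 u) = f2 u
    by_cases hub : u ≤ b
    · rw [if_pos hub, le_antisymm hub hu.1, h]
    · rw [if_neg hub]
  refine ⟨fun u => if u ≤ b then f1 u else f2 u, ?_, e1, e2⟩
  rw [← Icc_union_Icc_eq_Icc hab hbc]
  exact (h1.congr e1).union_of_isClosed (h2.congr e2) isClosed_Icc isClosed_Icc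

/-- `γ` is a lift of the vertical line in `U`, from `p` to the height `u` -/
private def VtGap_L {X : Type} [TopologicalSpace X] (x y : X → ℝ) (U : Set X) (p : X) (u : ℝ) (γ : ℝ → X) : Prop :=
  ContinuousOn γ (Icc (y p) u) ∧ γ (y p) = p ∧ ∀ s ∈ Icc (y p) u, x (γ s) = x p ∧ y (γ s) = s ∧ γ s ∈ U

private theorem VtGap_ext {X : Type} [TopologicalSpace X] {x y : X → ℝ}
    (hloc : IsLocalHomeomorph (fun ζ => (x ζ, y ζ))) {U : Set X} (hU : IsOpen U) {p : X} {u : ℝ} (hu : y p ≤ u)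
    {γ : ℝ → X} (hγ : VtGap_L x y U p u γ) : ∃ u', u < u' ∧ ∃ γ', VtGap_L x y U p u' γ' := by
  obtain ⟨hc, h0, hs⟩ := hγ
  obtain ⟨hx, hy, hq⟩ := hs u ⟨hu, le_rfl⟩
  obtain ⟨e, he, hee⟩ := hloc (γ u)
  have hπ : ∀ ζ, e ζ = (x ζ, y ζ) := fun ζ => (congrFun hee ζ).symm
  have hcu : e (γ u) = (x p, u) := by rw [hπ, hx, hy]
  have hcc : Continuous fun r : ℝ => ((x p, r) : ℝ × ℝ) := continuous_const.prodMk continuous_id
  have hT : ∀ᶠ r in nhds u, ((x p, r) : ℝ × ℝ) ∈ e.target := by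
    refine hcc.continuousAt.eventually (e.open_target.mem_nhds ?_)
    show ((x p, u) : ℝ × ℝ) ∈ e.target
    rw [← hcu]
    exact e.map_source he
  have hsc : ∀ r : ℝ, ((x p, r) : ℝ × ℝ) ∈ e.target → ContinuousAt (fun r : ℝ => e.symm (x p, r)) r := fun r hr =>
    ContinuousAt.comp (f := fun r : ℝ => ((x p, r) : ℝ × ℝ)) (e.continuousAt_symm hr) hcc.continuousAt
  have hsu : e.symm (x p, u) = γ u := by rw [← hcu, e.left_inv he]
  have hUr : ∀ᶠ r in nhds u, e.symm (x p, r) ∈ U := by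
    refine (hsc u hT.self_of_nhds).eventually (hU.mem_nhds ?_)
    show e.symm (x p, u) ∈ U
    rw [hsu]
    exact hq
  obtain ⟨ε, hε, hb⟩ := Metric.eventually_nhds_iff.1 (hT.and hUr)
  have hb' : ∀ r ∈ Icc u (u + ε / 2), ((x p, r) : ℝ × ℝ) ∈ e.target ∧ e.symm (x p, r) ∈ U := by
    intro r hr
    apply hb
    rw [Real.dist_eq, abs_of_nonneg (by linarith [hr.1])]
    linarith [hr.2]
  obtain ⟨f, hf, hf1, hf2⟩ := VtGap_glue (f1 := γ) (f2 := fun r => e.symm (x p, r)) hu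
    (show u ≤ u + ε / 2 by linarith) hc (fun r hr => (hsc r (hb' r hr).1).continuousWithinAt) hsu.symm
  refine ⟨u + ε / 2, by linarith, f, hf, ?_, ?_⟩
  · rw [hf1 ⟨le_rfl, hu⟩, h0]
  · intro s hs'
    rcases le_total s u with hsu' | hsu'
    · rw [hf1 ⟨hs'.1, hsu'⟩]
      exact hs s ⟨hs'.1, hsu'⟩
    · have hm : s ∈ Icc u (u + ε / 2) := ⟨hsu', hs'.2⟩
      rw [hf2 hm]
      have h1 := e.right_inv (hb' s hm).1
      rw [hπ] at h1
      exact ⟨congrArg Prod.fst h1, congrArg Prod.snd h1, (hb' s hm).2⟩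

private theorem VtGap_up {X : Type} [TopologicalSpace X] [T2Space X] {x y : X → ℝ}
    (hloc : IsLocalHomeomorph (fun ζ => (x ζ, y ζ))) {K U : Set X} (hK : IsCompact K) (hU : IsOpen U) (hUK : U ⊆ K)
    {p : X} (hp : p ∈ U) : ∃ (Y : ℝ) (γ : ℝ → X), y p < Y ∧ ContinuousOn γ (Icc (y p) Y) ∧ γ (y p) = p ∧
      (∀ s ∈ Icc (y p) Y, x (γ s) = x p ∧ y (γ s) = s) ∧ (∀ s ∈ Ico (y p) Y, γ s ∈ U) ∧ γ Y ∈ K ∧ γ Y ∉ U := by
  classical
  have hyc : Continuous y := continuous_snd.comp hloc.continuous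
  have hπc : Continuous (fun ζ => ((x ζ, y ζ) : ℝ × ℝ)) := hloc.continuous
  -- the set of heights
  have hL0 : ∃ γ, VtGap_L x y U p (y p) γ := by
    refine ⟨fun _ => p, continuousOn_const, rfl, fun s hs => ⟨rfl, ?_, hp⟩⟩
    exact le_antisymm hs.1 hs.2
  have hmono : ∀ u u', u' ≤ u → (∃ γ, VtGap_L x y U p u γ) → ∃ γ, VtGap_L x y U p u' γ := by
    rintro u u' h2 ⟨γ, h3, h4, h5⟩
    exact ⟨γ, h3.mono (Icc_subset_Icc_right h2), h4, fun s hs => h5 s ⟨hs.1, hs.2.trans h2⟩⟩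
  set S : Set ℝ := {u | y p ≤ u ∧ ∃ γ, VtGap_L x y U p u γ} with hS
  have hne : S.Nonempty := ⟨y p, le_rfl, hL0⟩
  have hbd : BddAbove S := by
    obtain ⟨C, hC⟩ := (hK.image hyc).bddAbove
    refine ⟨C, ?_⟩
    rintro u ⟨hu, γ, h3, h4, h5⟩
    have h6 := h5 u ⟨hu, le_rfl⟩
    rw [← h6.2.1]
    exact hC ⟨γ u, hUK h6.2.2, rfl⟩
  have hY0 : y p ≤ sSup S := le_csSup hbd ⟨le_rfl, hL0⟩
  have hYn : ¬ ∃ γ, VtGap_L x y U p (sSup S) γ := by
    rintro ⟨γ, hγ⟩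
    obtain ⟨u', hu', γ', hγ'⟩ := VtGap_ext hloc hU hY0 hγ
    exact absurd (le_csSup hbd (⟨hY0.trans hu'.le, γ', hγ'⟩ : u' ∈ S)) (not_le.2 hu')
  set Y : ℝ := sSup S with hY
  have hYp : y p < Y := by
    refine lt_of_le_of_ne hY0 fun h => hYn ?_
    rw [← h]
    exact hL0
  have hlt : ∀ u, u < Y → ∃ γ, VtGap_L x y U p u γ := by
    intro u hu
    obtain ⟨u', hu', huu⟩ := exists_lt_of_lt_csSup hne hu
    exact hmono u' u huu.le hu'.2
  have : Nonempty (ℝ → X) := ⟨fun _ => p⟩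
  choose! G hG using hlt
  have hGG : ∀ u u', u ≤ u' → u' < Y → y p ≤ u → G u u = G u' u := by
    intro u u' h1 h2 h3
    have g1 := hG u (lt_of_le_of_lt h1 h2)
    have g2 := hG u' h2
    exact VtGap_uniq hloc (D := Icc (y p) u) isPreconnected_Icc g1.1 (g2.1.mono (Icc_subset_Icc_right h1))
      (fun s hs => ⟨(g1.2.2 s hs).1, (g1.2.2 s hs).2.1⟩)
      (fun s hs => ⟨(g2.2.2 s ⟨hs.1, hs.2.trans h1⟩).1, (g2.2.2 s ⟨hs.1, hs.2.trans h1⟩).2.1⟩)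
      (u0 := y p) ⟨le_rfl, h3⟩ (by rw [g1.2.1, g2.2.1]) ⟨h3, le_rfl⟩
  set Γ : ℝ → X := fun u => G u u with hΓ
  have hΓp : Γ (y p) = p := (hG (y p) hYp).2.1
  have hΓ1 : ∀ u ∈ Ico (y p) Y, x (Γ u) = x p ∧ y (Γ u) = u ∧ Γ u ∈ U := fun u hu =>
    (hG u hu.2).2.2 u ⟨hu.1, le_rfl⟩
  have hΓc : ContinuousOn Γ (Ico (y p) Y) := by
    intro u hu
    obtain ⟨u', h1, h2⟩ := exists_between hu.2
    have hc : ContinuousOn Γ (Icc (y p) u') :=
      (hG u' h2).1.congr fun s hs => hGG s u' hs.2 h2 hs.1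
    refine (hc u ⟨hu.1, h1.le⟩).mono_of_mem_nhdsWithin ?_
    refine mem_nhdsWithin.2 ⟨Iio u', isOpen_Iio, h1, fun s hs => ⟨hs.2.1, ?_⟩⟩
    exact (show s < u' from hs.1).le
  -- the limit
  have hev : ∀ a, a < Y → ∀ᶠ r in nhdsWithin Y (Iio Y), r ∈ Ioo a Y := fun a ha => Ioo_mem_nhdsLT ha
  have hFK : Filter.map Γ (nhdsWithin Y (Iio Y)) ≤ Filter.principal K := by
    rw [Filter.le_principal_iff, Filter.mem_map]
    filter_upwards [hev (y p) hYp] with r hr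
    exact hUK (hΓ1 r ⟨hr.1.le, hr.2⟩).2.2
  obtain ⟨w, hwK, hw⟩ := hK.exists_mapClusterPt hFK
  have hcc : Continuous fun r : ℝ => ((x p, r) : ℝ × ℝ) := continuous_const.prodMk continuous_id
  have hπw : ((x w, y w) : ℝ × ℝ) = (x p, Y) := by
    have h1 : MapClusterPt ((x w, y w) : ℝ × ℝ) (nhdsWithin Y (Iio Y)) ((fun ζ => ((x ζ, y ζ) : ℝ × ℝ)) ∘ Γ) :=
      hw.continuousAt_comp hπc.continuousAt
    have h2 : Filter.Tendsto ((fun ζ => ((x ζ, y ζ) : ℝ × ℝ)) ∘ Γ) (nhdsWithin Y (Iio Y)) (nhds (x p, Y)) := by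
      have h3 : Filter.Tendsto (fun r : ℝ => ((x p, r) : ℝ × ℝ)) (nhdsWithin Y (Iio Y)) (nhds (x p, Y)) :=
        hcc.continuousAt.tendsto.mono_left nhdsWithin_le_nhds
      refine h3.congr' ?_
      filter_upwards [hev (y p) hYp] with r hr
      have h4 := hΓ1 r ⟨hr.1.le, hr.2⟩
      show ((x p, r) : ℝ × ℝ) = (x (Γ r), y (Γ r))
      rw [h4.1, h4.2.1]
    exact eq_of_nhds_neBot (Filter.NeBot.mono h1 (inf_le_inf_left _ h2))
  obtain ⟨e, he, hee⟩ := hloc w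
  have hπ : ∀ ζ, e ζ = (x ζ, y ζ) := fun ζ => (congrFun hee ζ).symm
  have hew : e w = (x p, Y) := by rw [hπ, hπw]
  have hT : ∀ᶠ r in nhds Y, ((x p, r) : ℝ × ℝ) ∈ e.target := by
    refine hcc.continuousAt.eventually (e.open_target.mem_nhds ?_)
    show ((x p, Y) : ℝ × ℝ) ∈ e.target
    rw [← hew]
    exact e.map_source he
  have hsc : ∀ r : ℝ, ((x p, r) : ℝ × ℝ) ∈ e.target → ContinuousAt (fun r : ℝ => e.symm (x p, r)) r := fun r hr =>
    ContinuousAt.comp (f := fun r : ℝ => ((x p, r) : ℝ × ℝ)) (e.continuousAt_symm hr) hcc.continuousAt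
  have hsw : e.symm (x p, Y) = w := by rw [← hew, e.left_inv he]
  obtain ⟨δ, hδ, hb⟩ := Metric.eventually_nhds_iff.1 hT
  set m : ℝ := max (y p) (Y - δ) with hm
  have hmY : m < Y := max_lt hYp (by linarith)
  have hD1 : ∀ r ∈ Ioo m Y, r ∈ Ico (y p) Y := fun r hr => ⟨(le_max_left _ _).trans hr.1.le, hr.2⟩
  have hD2 : ∀ r ∈ Ioo m Y, ((x p, r) : ℝ × ℝ) ∈ e.target := by
    intro r hr
    apply hb
    rw [Real.dist_eq, abs_of_neg (by linarith [hr.2])]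
    have := lt_of_le_of_lt (le_max_right (y p) (Y - δ)) hr.1
    linarith
  obtain ⟨r0, hr0e, hr0⟩ := ((hw.frequently (e.open_source.mem_nhds he)).and_eventually (hev m hmY)).exists
  have hEq : EqOn Γ (fun r : ℝ => e.symm (x p, r)) (Ioo m Y) := by
    refine VtGap_uniq hloc isPreconnected_Ioo (hΓc.mono hD1)
      (fun r hr => (hsc r (hD2 r hr)).continuousWithinAt)
      (fun r hr => ⟨(hΓ1 r (hD1 r hr)).1, (hΓ1 r (hD1 r hr)).2.1⟩) ?_ hr0 ?_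
    · intro r hr
      have h1 := e.right_inv (hD2 r hr)
      rw [hπ] at h1
      exact ⟨congrArg Prod.fst h1, congrArg Prod.snd h1⟩
    · have h1 := hΓ1 r0 (hD1 r0 hr0)
      have h2 : e (Γ r0) = (x p, r0) := by rw [hπ, h1.1, h1.2.1]
      show Γ r0 = e.symm (x p, r0)
      rw [← h2, e.left_inv hr0e]
  have hlim : Filter.Tendsto Γ (nhdsWithin Y (Icc (y p) Y \ {Y})) (nhds w) := by
    rw [Icc_sdiff_right]
    have h1 : Filter.Tendsto (fun r : ℝ => e.symm (x p, r)) (nhdsWithin Y (Ico (y p) Y)) (nhds w) := by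
      have h2 := (hsc Y hT.self_of_nhds).tendsto
      rw [hsw] at h2
      exact h2.mono_left nhdsWithin_le_nhds
    refine h1.congr' ?_
    have h3 : Ioo m Y ∈ nhdsWithin Y (Ico (y p) Y) :=
      mem_nhdsWithin.2 ⟨Ioi m, isOpen_Ioi, hmY, fun s hs => ⟨hs.1, hs.2.2⟩⟩
    filter_upwards [h3] with r hr
    exact (hEq hr).symm
  have hxw : x w = x p := congrArg Prod.fst hπw
  have hyw : y w = Y := congrArg Prod.snd hπw
  have hgc : ContinuousOn (Function.update Γ Y w) (Icc (y p) Y) := by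
    rw [continuousOn_update_iff]
    refine ⟨?_, fun _ => hlim⟩
    rw [Icc_sdiff_right]
    exact hΓc
  have hg0 : Function.update Γ Y w (y p) = p := by
    rw [Function.update_of_ne hYp.ne]
    exact hΓp
  have hg1 : ∀ s ∈ Icc (y p) Y, x (Function.update Γ Y w s) = x p ∧ y (Function.update Γ Y w s) = s := by
    intro s hs
    by_cases hsY : s = Y
    · rw [hsY, Function.update_self]
      exact ⟨hxw, hyw⟩
    · rw [Function.update_of_ne hsY]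
      have h1 := hΓ1 s ⟨hs.1, lt_of_le_of_ne hs.2 hsY⟩
      exact ⟨h1.1, h1.2.1⟩
  have hg2 : ∀ s ∈ Ico (y p) Y, Function.update Γ Y w s ∈ U := by
    intro s hs
    rw [Function.update_of_ne hs.2.ne]
    exact (hΓ1 s hs).2.2
  refine ⟨Y, Function.update Γ Y w, hYp, hgc, hg0, hg1, hg2, ?_, ?_⟩
  · rw [Function.update_self]
    exact hwK
  · rw [Function.update_self]
    intro hwU
    refine hYn ⟨Function.update Γ Y w, hgc, hg0, fun s hs => ⟨(hg1 s hs).1, (hg1 s hs).2, ?_⟩⟩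
    by_cases hsY : s = Y
    · rw [hsY, Function.update_self]
      exact hwU
    · exact hg2 s ⟨hs.1, lt_of_le_of_ne hs.2 hsY⟩

theorem gap_exists {X : Type} [TopologicalSpace X] [T2Space X] (x y : X → ℝ) (K H Sp : Set X)
    (hV : VS x y K H Sp) (p : X) (hp : p ∈ K \ H) : ∃ v w, GapP x y K H v p w := by
  obtain ⟨Y1, γ1, h1, hc1, hp1, hl1, hu1, hK1, hn1⟩ := VtGap_up hV.loc hV.cK hV.op sdiff_subset hp
  have hloc' : IsLocalHomeomorph (fun ζ => ((x ζ, -y ζ) : ℝ × ℝ)) :=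
    ((Homeomorph.refl ℝ).prodCongr (Homeomorph.neg ℝ)).isLocalHomeomorph.comp hV.loc
  obtain ⟨Y2, γ2, h2, hc2, hp2, hl2, hu2, hK2, hn2⟩ :=
    VtGap_up (y := fun ζ => -y ζ) hloc' hV.cK hV.op sdiff_subset hp
  have hH1 : γ1 Y1 ∈ H := by
    by_contra h
    exact hn1 ⟨hK1, h⟩
  have hH2 : γ2 Y2 ∈ H := by
    by_contra h
    exact hn2 ⟨hK2, h⟩
  have hy1 : y (γ1 Y1) = Y1 := (hl1 Y1 ⟨h1.le, le_rfl⟩).2
  have hy2 : y (γ2 Y2) = -Y2 := by
    have h3 : -y (γ2 Y2) = Y2 := (hl2 Y2 ⟨h2.le, le_rfl⟩).2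
    linarith
  have h2' : -Y2 < y p := by
    have h3 : -y p < Y2 := h2
    linarith
  have hneg : ∀ u ∈ Icc (-Y2) (y p), -u ∈ Icc (-y p) Y2 := fun u hu => ⟨by linarith [hu.2], by linarith [hu.1]⟩
  have hc2' : ContinuousOn (fun u => γ2 (-u)) (Icc (-Y2) (y p)) :=
    ContinuousOn.comp hc2 continuous_neg.continuousOn hneg
  have hp2' : γ2 (-y p) = p := hp2
  obtain ⟨γ, hγ, e2, e1⟩ := VtGap_glue (f1 := fun u => γ2 (-u)) (f2 := γ1) h2'.le h1.le hc2' hc1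
    (show γ2 (-y p) = γ1 (y p) by rw [hp2', hp1])
  refine ⟨γ2 Y2, γ1 Y1, ?_, ?_, hH2, hH1, γ, ?_, ?_, ?_, ?_, ?_, ?_⟩
  · rw [hy2]
    exact h2'
  · rw [hy1]
    exact h1
  · rw [hy1, hy2]
    exact hγ
  · intro u hu
    rw [hy1, hy2] at hu
    rcases le_total u (y p) with h3 | h3
    · rw [e2 ⟨hu.1, h3⟩]
      have h4 := hl2 (-u) (hneg u ⟨hu.1, h3⟩)
      have h5 : -y (γ2 (-u)) = -u := h4.2
      exact ⟨h4.1, by linarith⟩
    · rw [e1 ⟨h3, hu.2⟩]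
      exact hl1 u ⟨h3, hu.2⟩
  · rw [hy2, e2 ⟨le_rfl, h2'.le⟩]
    show γ2 (- -Y2) = γ2 Y2
    rw [neg_neg]
  · rw [e1 ⟨le_rfl, h1.le⟩]
    exact hp1
  · rw [hy1, e1 ⟨h1.le, le_rfl⟩]
  · intro u hu
    rw [hy1, hy2] at hu
    rcases le_total u (y p) with h3 | h3
    · rw [e2 ⟨hu.1.le, h3⟩]
      exact hu2 (-u) ⟨(hneg u ⟨hu.1.le, h3⟩).1, by linarith [hu.1]⟩
    · rw [e1 ⟨h3, hu.2.le⟩]
      exact hu1 u ⟨h3, hu.2⟩

/-- two lifts with a common point in the gaps -/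
private theorem VtGap_le {X : Type} [TopologicalSpace X] [T2Space X] {x y : X → ℝ} {K H : Set X}
    (hloc : IsLocalHomeomorph (fun ζ => (x ζ, y ζ))) {v w v' w' p p' : X} {γ γ' : ℝ → X} {u0 : ℝ}
    (hc : ContinuousOn γ (Icc (y v) (y w))) (hc' : ContinuousOn γ' (Icc (y v') (y w')))
    (hl : ∀ u ∈ Icc (y v) (y w), x (γ u) = x p ∧ y (γ u) = u)
    (hl' : ∀ u ∈ Icc (y v') (y w'), x (γ' u) = x p' ∧ y (γ' u) = u)
    (hw : γ (y w) = w) (hwH : w ∈ H) (hi' : ∀ u ∈ Ioo (y v') (y w'), γ' u ∈ K \ H)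
    (hu0 : u0 ∈ Icc (y v) (y w)) (hu0' : u0 ∈ Icc (y v') (y w')) (h0 : γ u0 = γ' u0) (hlt : y v' < y w) :
    y w' ≤ y w := by
  by_contra hn
  have hn' : y w < y w' := not_le.1 hn
  have hxx : x p = x p' := by rw [← (hl u0 hu0).1, ← (hl' u0 hu0').1, h0]
  have s1 : Icc u0 (y w) ⊆ Icc (y v) (y w) := Icc_subset_Icc_left hu0.1
  have s2 : Icc u0 (y w) ⊆ Icc (y v') (y w') := Icc_subset_Icc hu0'.1 hn'.le
  have h1 : EqOn γ γ' (Icc u0 (y w)) := VtGap_uniq hloc (c := x p) isPreconnected_Icc (hc.mono s1) (hc'.mono s2)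
    (fun u hu => hl u (s1 hu)) (fun u hu => ⟨(hl' u (s2 hu)).1.trans hxx.symm, (hl' u (s2 hu)).2⟩)
    (u0 := u0) ⟨le_rfl, hu0.2⟩ h0
  have h2 := h1 ⟨hu0.2, le_rfl⟩
  have h3 := hi' (y w) ⟨hlt, hn'⟩
  rw [← h2, hw] at h3
  exact h3.2 hwH

private theorem VtGap_ge {X : Type} [TopologicalSpace X] [T2Space X] {x y : X → ℝ} {K H : Set X}
    (hloc : IsLocalHomeomorph (fun ζ => (x ζ, y ζ))) {v w v' w' p p' : X} {γ γ' : ℝ → X} {u0 : ℝ}
    (hc : ContinuousOn γ (Icc (y v) (y w))) (hc' : ContinuousOn γ' (Icc (y v') (y w')))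
    (hl : ∀ u ∈ Icc (y v) (y w), x (γ u) = x p ∧ y (γ u) = u)
    (hl' : ∀ u ∈ Icc (y v') (y w'), x (γ' u) = x p' ∧ y (γ' u) = u)
    (hv : γ (y v) = v) (hvH : v ∈ H) (hi' : ∀ u ∈ Ioo (y v') (y w'), γ' u ∈ K \ H)
    (hu0 : u0 ∈ Icc (y v) (y w)) (hu0' : u0 ∈ Icc (y v') (y w')) (h0 : γ u0 = γ' u0) (hlt : y v < y w') :
    y v ≤ y v' := by
  by_contra hn
  have hn' : y v' < y v := not_le.1 hn
  have hxx : x p = x p' := by rw [← (hl u0 hu0).1, ← (hl' u0 hu0').1, h0]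
  have s1 : Icc (y v) u0 ⊆ Icc (y v) (y w) := Icc_subset_Icc_right hu0.2
  have s2 : Icc (y v) u0 ⊆ Icc (y v') (y w') := Icc_subset_Icc hn'.le hu0'.2
  have h1 : EqOn γ γ' (Icc (y v) u0) := VtGap_uniq hloc (c := x p) isPreconnected_Icc (hc.mono s1) (hc'.mono s2)
    (fun u hu => hl u (s1 hu)) (fun u hu => ⟨(hl' u (s2 hu)).1.trans hxx.symm, (hl' u (s2 hu)).2⟩)
    (u0 := u0) ⟨hu0.1, le_rfl⟩ h0
  have h2 := h1 ⟨le_rfl, hu0.1⟩
  have h3 := hi' (y v) ⟨hn', hlt⟩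
  rw [← h2, hv] at h3
  exact h3.2 hvH

theorem gap_unique {X : Type} [TopologicalSpace X] [T2Space X] (x y : X → ℝ) (K H : Set X)
    (hloc : IsLocalHomeomorph (fun ζ => (x ζ, y ζ))) (v w v' w' p : X)
    (h : GapP x y K H v p w) (h' : GapP x y K H v' p w') : v = v' ∧ w = w' := by
  obtain ⟨a1, a2, hvH, hwH, γ, hc, hl, hv, hp, hw, hi⟩ := h
  obtain ⟨b1, b2, hvH', hwH', γ', hc', hl', hv', hp', hw', hi'⟩ := h'
  have m : y p ∈ Icc (y v) (y w) := ⟨a1.le, a2.le⟩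
  have m' : y p ∈ Icc (y v') (y w') := ⟨b1.le, b2.le⟩
  have h0 : γ (y p) = γ' (y p) := by rw [hp, hp']
  have e1 : y w' ≤ y w := VtGap_le hloc hc hc' hl hl' hw hwH hi' m m' h0 (b1.trans a2)
  have e2 : y w ≤ y w' := VtGap_le hloc hc' hc hl' hl hw' hwH' hi m' m h0.symm (a1.trans b2)
  have e3 : y v ≤ y v' := VtGap_ge hloc hc hc' hl hl' hv hvH hi' m m' h0 (a1.trans b2)
  have e4 : y v' ≤ y v := VtGap_ge hloc hc' hc hl' hl hv' hvH' hi m' m h0.symm (b1.trans a2)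
  have ew := le_antisymm e1 e2
  have ev := le_antisymm e3 e4
  have hE : EqOn γ γ' (Icc (y v) (y w)) := by
    refine VtGap_uniq hloc (c := x p) isPreconnected_Icc hc ?_ hl ?_ m h0
    · rw [ev, ← ew]
      exact hc'
    · rw [ev, ← ew]
      exact hl'
  have hvw : y v ≤ y w := (a1.trans a2).le
  constructor
  · rw [← hv, hE ⟨le_rfl, hvw⟩, ev, hv']
  · rw [← hw, hE ⟨hvw, le_rfl⟩, ← ew, hw']

theorem gap_lower {X : Type} [TopologicalSpace X] [T2Space X] (x y : X → ℝ) (K H : Set X)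
    (hloc : IsLocalHomeomorph (fun ζ => (x ζ, y ζ))) (v w w' : X)
    (h : Gap x y K H v w) (h' : Gap x y K H v w') : w = w' := by
  obtain ⟨p, a1, a2, hvH, hwH, γ, hc, hl, hv, hp, hw, hi⟩ := h
  obtain ⟨p', b1, b2, hvH', hwH', γ', hc', hl', hv', hp', hw', hi'⟩ := h'
  have m : y v ∈ Icc (y v) (y w) := ⟨le_rfl, (a1.trans a2).le⟩
  have m' : y v ∈ Icc (y v) (y w') := ⟨le_rfl, (b1.trans b2).le⟩
  have h0 : γ (y v) = γ' (y v) := by rw [hv, hv']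
  have e1 : y w' ≤ y w := VtGap_le hloc hc hc' hl hl' hw hwH hi' m m' h0 (a1.trans a2)
  have e2 : y w ≤ y w' := VtGap_le hloc hc' hc hl' hl hw' hwH' hi m' m h0.symm (b1.trans b2)
  have ew := le_antisymm e1 e2
  have hxx : x p = x p' := by rw [← (hl (y v) m).1, ← (hl' (y v) m').1, h0]
  have hE : EqOn γ γ' (Icc (y v) (y w)) := by
    refine VtGap_uniq hloc (c := x p) isPreconnected_Icc hc ?_ hl ?_ m h0
    · rw [← ew]
      exact hc'
    · rw [← ew, hxx]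
      exact hl'
  rw [← hw, hE ⟨(a1.trans a2).le, le_rfl⟩, ← ew, hw']

theorem gap_upper {X : Type} [TopologicalSpace X] [T2Space X] (x y : X → ℝ) (K H : Set X)
    (hloc : IsLocalHomeomorph (fun ζ => (x ζ, y ζ))) (v v' w : X)
    (h : Gap x y K H v w) (h' : Gap x y K H v' w) : v = v' := by
  obtain ⟨p, a1, a2, hvH, hwH, γ, hc, hl, hv, hp, hw, hi⟩ := h
  obtain ⟨p', b1, b2, hvH', hwH', γ', hc', hl', hv', hp', hw', hi'⟩ := h'
  have m : y w ∈ Icc (y v) (y w) := ⟨(a1.trans a2).le, le_rfl⟩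
  have m' : y w ∈ Icc (y v') (y w) := ⟨(b1.trans b2).le, le_rfl⟩
  have h0 : γ (y w) = γ' (y w) := by rw [hw, hw']
  have e3 : y v ≤ y v' := VtGap_ge hloc hc hc' hl hl' hv hvH hi' m m' h0 (a1.trans a2)
  have e4 : y v' ≤ y v := VtGap_ge hloc hc' hc hl' hl hv' hvH' hi m' m h0.symm (b1.trans b2)
  have ev := le_antisymm e3 e4
  have hxx : x p = x p' := by rw [← (hl (y w) m).1, ← (hl' (y w) m').1, h0]
  have hE : EqOn γ γ' (Icc (y v) (y w)) := by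
    refine VtGap_uniq hloc (c := x p) isPreconnected_Icc hc ?_ hl ?_ m h0
    · rw [ev]
      exact hc'
    · rw [ev, hxx]
      exact hl'
  rw [← hv, hE ⟨le_rfl, (a1.trans a2).le⟩, ev, hv']

end D4Q
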