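import Mathlib
import Pool.Agent.D4Q.VD

/-!
# D4Q-VtOpen: the set of lower ends, from the openness theorem (taken as a hypothesis here)
-/

namespace D4Q

open Set

theorem gs_ls_of {X : Type} [TopologicalSpace X] [T2Space X] (x y : X → ℝ) (K H Sp : Set X)
    (hop : ∀ (v p w : X), GapP x y K H v p w → v ∉ Sp → w ∉ Sp →
      ∃ (ε : ℝ) (κ τ : ℝ → X) (s : ℝ × ℝ → X), 0 < ε ∧
      Trap x y K H Sp (Ioo (x p - ε) (x p + ε)) (Ioo (x p - ε) (x p + ε)) κ τ s ∧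
      κ (x p) = v ∧ τ (x p) = w ∧ s (x p, y p) = p ∧
      (∃ U ∈ nhds p, ∀ q ∈ U, x q ∈ Ioo (x p - ε) (x p + ε) ∧
        GapP x y K H (κ (x q)) q (τ (x q))) ∧
      ∃ U ∈ nhds v, ∀ z ∈ U, z ∈ H → z = κ (x z)) :
    ∀ v ∈ GS x y K H Sp, LocSec x (GS x y K H Sp) v := by
  rintro v ⟨w, ⟨p, hp⟩, hv, hw⟩
  obtain ⟨ε, κ, τ, s, hε, hT, h1, h2, h3, -, U, hU, hUH⟩ := hop v p w hp hv hw
  have hxv : x v = x p := by
    obtain ⟨h4, h5, -, -, γ, -, h6, h7, -⟩ := hp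
    have := (h6 (y v) ⟨le_rfl, (h4.trans h5).le⟩).1
    rwa [h7] at this
  rw [LocSec, hxv]
  refine ⟨ε, hε, κ, hT.cκ, h1, fun t ht => ⟨(hT.xκ t ht).1, τ t, hT.good t ht⟩, U, hU, fun z hz hzG => ?_⟩
  obtain ⟨w', ⟨p', hp'⟩, -, -⟩ := hzG
  exact hUH z hz hp'.2.2.1

end D4Q
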