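import Mathlib
import Pool.Agent.D4Q.VD

/-!
# D4Q-VtTube: sections over compact sets extend

PROOF. `A = s '' C` is compact and `π` is injective on it. The set `E = {(a, b) | π a = π b, a ≠ b}` is closed in `X × X`: `{π a = π b}` is closed, and in it the
diagonal is open (`π` is locally injective). `A × A` is disjoint from `E`, so by `generalized_tube_lemma` there is an open `U ⊇ A` with `U × U` disjoint from `E`: `π` is injective on `U`.
`N = π '' U` is open (local homeomorphisms are open maps), `s'` the inverse of `π` on `U`; it is continuous on `N` as `π` is open. If `N' ⊆ N` is open then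
`s' '' N' = U ∩ π ⁻¹' N'`.
-/

namespace D4Q

open Set

private theorem VtTube_open {X : Type} [TopologicalSpace X] (π : X → ℝ × ℝ) (hπ : IsLocalHomeomorph π) :
    IsOpen {p : X × X | π p.1 = π p.2 → p.1 = p.2} := by
  rw [isOpen_iff_mem_nhds]
  rintro ⟨a, b⟩ hab
  by_cases h : π a = π b
  · have h1 : a = b := hab h
    subst h1
    obtain ⟨φ, ha, hφ⟩ := hπ a
    filter_upwards [prod_mem_nhds (φ.open_source.mem_nhds ha) (φ.open_source.mem_nhds ha)] with p hp h2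
    rw [hφ] at h2
    exact φ.injOn hp.1 hp.2 h2
  · have hc : Continuous π := hπ.continuous
    have h1 : {p : X × X | π p.1 ≠ π p.2} ∈ nhds (a, b) :=
      (isOpen_ne_fun (hc.comp continuous_fst) (hc.comp continuous_snd)).mem_nhds h
    filter_upwards [h1] with p hp h2
    exact absurd h2 hp

theorem tube {X : Type} [TopologicalSpace X] [T2Space X] (π : X → ℝ × ℝ)
    (hπ : IsLocalHomeomorph π) (C : Set (ℝ × ℝ)) (hC : IsCompact C) (s : ℝ × ℝ → X)
    (hs : ContinuousOn s C) (hsec : ∀ c ∈ C, π (s c) = c) :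
    ∃ (N : Set (ℝ × ℝ)) (s' : ℝ × ℝ → X), IsOpen N ∧ C ⊆ N ∧ ContinuousOn s' N ∧
      (∀ c ∈ N, π (s' c) = c) ∧ (∀ c ∈ C, s' c = s c) ∧
      ∀ N' ⊆ N, IsOpen N' → IsOpen (s' '' N') := by
  haveI : Nonempty X := ⟨s (0, 0)⟩
  have hA : IsCompact (s '' C) := hC.image_of_continuousOn hs
  obtain ⟨u, v, hu, hv, hAu, hAv, huv⟩ := generalized_tube_lemma hA hA (VtTube_open π hπ) (by
    rintro ⟨a, b⟩ ⟨⟨c, hc, rfl⟩, ⟨c', hc', rfl⟩⟩ h
    change π (s c) = π (s c') at h
    rw [hsec c hc, hsec c' hc'] at h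
    rw [h])
  have hU : IsOpen (u ∩ v) := hu.inter hv
  have hinj : InjOn π (u ∩ v) := fun a ha b hb h => huv (show (a, b) ∈ u ×ˢ v from ⟨ha.1, hb.2⟩) h
  have hmem : ∀ c ∈ π '' (u ∩ v), Function.invFunOn π (u ∩ v) c ∈ u ∩ v := fun c hc => Function.invFunOn_mem hc
  have heq : ∀ c ∈ π '' (u ∩ v), π (Function.invFunOn π (u ∩ v) c) = c := fun c hc => Function.invFunOn_eq hc
  have hCU : ∀ c ∈ C, s c ∈ u ∩ v := fun c hc => ⟨hAu ⟨c, hc, rfl⟩, hAv ⟨c, hc, rfl⟩⟩
  have hCN : C ⊆ π '' (u ∩ v) := fun c hc => ⟨s c, hCU c hc, hsec c hc⟩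
  refine ⟨π '' (u ∩ v), Function.invFunOn π (u ∩ v), hπ.isOpenMap _ hU, hCN, ?_, heq, ?_, ?_⟩
  · rw [continuousOn_iff']
    intro O hO
    refine ⟨π '' (u ∩ v ∩ O), hπ.isOpenMap _ (hU.inter hO), ?_⟩
    ext c
    constructor
    · rintro ⟨h1, h2⟩
      exact ⟨⟨_, ⟨hmem c h2, h1⟩, heq c h2⟩, h2⟩
    · rintro ⟨⟨a, ⟨ha, haO⟩, rfl⟩, h2⟩
      refine ⟨?_, h2⟩
      have h3 : Function.invFunOn π (u ∩ v) (π a) = a := hinj (hmem _ h2) ha (heq _ h2)
      rw [Set.mem_preimage, h3]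
      exact haO
  · intro c hc
    exact hinj (hmem c (hCN hc)) (hCU c hc) ((heq c (hCN hc)).trans (hsec c hc).symm)
  · intro N' hN' hNo
    have h1 : Function.invFunOn π (u ∩ v) '' N' = u ∩ v ∩ π ⁻¹' N' := by
      ext a
      constructor
      · rintro ⟨c, hc, rfl⟩
        refine ⟨hmem c (hN' hc), ?_⟩
        rw [Set.mem_preimage, heq c (hN' hc)]
        exact hc
      · rintro ⟨ha, haN⟩
        exact ⟨π a, haN, hinj (hmem _ (hN' haN)) ha (heq _ (hN' haN))⟩
    rw [h1]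
    exact hU.inter (hNo.preimage hπ.continuous)

end D4Q
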