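import Mathlib
import Pool.Agent.D4Q.VD
import Pool.Agent.D4Q.VtTube
import Pool.Agent.D4Q.VtOpen_gs

/-!
# D4Q-VtOpen: good gaps are open, the proof
-/

namespace D4Q

open Set

/-- Near `v` the lift of the section is the section. -/
private theorem vob_near {X : Type} [TopologicalSpace X] (x y : X → ℝ)
    (hl : IsLocalHomeomorph (fun ζ => (x ζ, y ζ))) (N : Set (ℝ × ℝ)) (hN : IsOpen N)
    (s' : ℝ × ℝ → X) (hs' : ContinuousOn s' N) (hsec : ∀ c ∈ N, x (s' c) = c.1 ∧ y (s' c) = c.2)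
    (x0 : ℝ) (v : X) (hvN : (x0, y v) ∈ N) (hv : s' (x0, y v) = v) (κ : ℝ → X)
    (hκ : ContinuousAt κ x0) (hκv : κ x0 = v) (hxκ : ∀ᶠ t in nhds x0, x (κ t) = t) :
    ∀ᶠ t in nhds x0, s' (t, y (κ t)) = κ t := by
  have hy : Continuous y := continuous_snd.comp hl.continuous
  obtain ⟨φ, hφv, hφ⟩ := hl v
  have h1 : ContinuousAt (fun t => (t, y (κ t))) x0 :=
    continuousAt_id.prodMk (hy.continuousAt.comp hκ)
  have h1v : (fun t => (t, y (κ t))) x0 = (x0, y v) := by simp only [hκv]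
  have h2 : ContinuousAt s' (x0, y v) := hs'.continuousAt (hN.mem_nhds hvN)
  have h3 : Filter.Tendsto (fun t => s' (t, y (κ t))) (nhds x0) (nhds v) := by
    have := h2.tendsto.comp (by rw [← h1v]; exact h1.tendsto)
    rw [hv] at this
    exact this
  have h4 : Filter.Tendsto κ (nhds x0) (nhds v) := by
    rw [← hκv]; exact hκ
  have h5 : ∀ᶠ t in nhds x0, (t, y (κ t)) ∈ N := by
    have := h1.tendsto
    simp only [hκv] at this
    exact this (hN.mem_nhds hvN)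
  filter_upwards [h3 (φ.open_source.mem_nhds hφv), h4 (φ.open_source.mem_nhds hφv), h5, hxκ]
    with t ht1 ht2 ht3 ht4
  refine φ.injOn ht1 ht2 ?_
  rw [← hφ]
  show (x (s' (t, y (κ t))), y (s' (t, y (κ t)))) = (x (κ t), y (κ t))
  rw [(hsec _ ht3).1, (hsec _ ht3).2, ht4]

/-- A connected set which avoids `H` and meets `K ∖ H` is contained in `K ∖ H`. -/
private theorem vob_conn {X : Type} [TopologicalSpace X] {K H Q : Set X} (hK : IsClosed K)
    (hop : IsOpen (K \ H)) (hQ : IsPreconnected Q) (hav : ∀ z ∈ Q, z ∉ H) (z0 : X) (hz0 : z0 ∈ Q)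
    (h0 : z0 ∈ K \ H) : Q ⊆ K \ H := by
  intro z hz
  by_contra hc
  have hzK : z ∈ Kᶜ := fun h => hc ⟨h, hav z hz⟩
  obtain ⟨q, hq1, hq2, hq3⟩ := hQ (K \ H) Kᶜ hop hK.isOpen_compl
    (fun r hr => by
      by_cases h : r ∈ K
      · exact Or.inl ⟨h, hav r hr⟩
      · exact Or.inr h) ⟨z0, hz0, h0⟩ ⟨z, hz, hzK⟩
  exact hq3 hq2.1

/-- A box around a vertical segment inside an open set. -/
private theorem vob_box (N : Set (ℝ × ℝ)) (hN : IsOpen N) (x0 a b : ℝ)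
    (h : ∀ u ∈ Icc a b, (x0, u) ∈ N) :
    ∃ δ > 0, ∀ t u : ℝ, |t - x0| < δ → a - δ < u → u < b + δ → a ≤ b → (t, u) ∈ N := by
  have hC : IsCompact (({x0} : Set ℝ) ×ˢ Icc a b) := isCompact_singleton.prod isCompact_Icc
  obtain ⟨δ, hδ, hsub⟩ := hC.exists_thickening_subset_open hN (by
    rintro ⟨t, u⟩ ⟨ht, hu⟩
    simp only [mem_singleton_iff] at ht
    subst ht
    exact h u hu)
  refine ⟨δ, hδ, fun t u ht hu1 hu2 hab => hsub ?_⟩
  rw [Metric.mem_thickening_iff]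
  refine ⟨(x0, max a (min u b)), ⟨rfl, ⟨le_max_left _ _, max_le hab (min_le_right _ _)⟩⟩, ?_⟩
  rw [Prod.dist_eq, max_lt_iff]
  refine ⟨by simpa [Real.dist_eq] using ht, ?_⟩
  show dist u (max a (min u b)) < δ
  rw [Real.dist_eq, abs_lt]
  rcases le_total u a with h1 | h1
  · rw [max_eq_left ((min_le_left _ _).trans h1)]
    constructor <;> linarith
  · rcases le_total u b with h2 | h2
    · rw [min_eq_left h2, max_eq_right h1]
      constructor <;> linarith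
    · rw [min_eq_right h2, max_eq_right hab]
      constructor <;> linarith

theorem vopen_b {X : Type} [TopologicalSpace X] [T2Space X] (x y : X → ℝ) (K H Sp : Set X)
    (hV : VS x y K H Sp) (v p w : X) (hg : GapP x y K H v p w) (hv : v ∉ Sp) (hw : w ∉ Sp) :
    ∃ (ε : ℝ) (κ τ : ℝ → X) (s : ℝ × ℝ → X), 0 < ε ∧
      Trap x y K H Sp (Ioo (x p - ε) (x p + ε)) (Ioo (x p - ε) (x p + ε)) κ τ s ∧
      κ (x p) = v ∧ τ (x p) = w ∧ s (x p, y p) = p ∧
      (∃ U ∈ nhds p, ∀ q ∈ U, x q ∈ Ioo (x p - ε) (x p + ε) ∧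
        GapP x y K H (κ (x q)) q (τ (x q))) ∧
      ∃ U ∈ nhds v, ∀ z ∈ U, z ∈ H → z = κ (x z) := by
  obtain ⟨hap, hpb, hvH, hwH, γ, hγ, hγs, hγv, hγp, hγw, hγi⟩ := hg
  set x0 := x p with hx0
  set a := y v with ha
  set b := y w with hb
  have hab : a < b := hap.trans hpb
  have hyc : Continuous y := continuous_snd.comp hV.loc.continuous
  have hKc : IsClosed K := hV.cK.isClosed
  have hC : IsCompact (({x0} : Set ℝ) ×ˢ Icc a b) := isCompact_singleton.prod isCompact_Icc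
  obtain ⟨N, s, hN, hCN, hs, hsec0, hsC, hsop⟩ := tube (fun ζ => (x ζ, y ζ)) hV.loc _ hC
    (fun c => γ c.2) (hγ.comp continuousOn_snd fun c hc => hc.2) (fun c hc => by
      have h1 := hγs c.2 hc.2
      have h2 : c.1 = x0 := hc.1
      show (x (γ c.2), y (γ c.2)) = c
      rw [h1.1, h1.2, ← h2])
  have hsec : ∀ c ∈ N, x (s c) = c.1 ∧ y (s c) = c.2 := fun c hc => by
    have := hsec0 c hc
    exact ⟨congrArg Prod.fst this, congrArg Prod.snd this⟩
  have hCN' : ∀ u ∈ Icc a b, (x0, u) ∈ N := fun u hu => hCN ⟨rfl, hu⟩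
  have hsγ : ∀ u ∈ Icc a b, s (x0, u) = γ u := fun u hu => hsC (x0, u) ⟨rfl, hu⟩
  have ma : a ∈ Icc a b := ⟨le_rfl, hab.le⟩
  have mb : b ∈ Icc a b := ⟨hab.le, le_rfl⟩
  have hxv : x v = x0 := by rw [← hγv]; exact (hγs a ma).1
  have hxw : x w = x0 := by rw [← hγw]; exact (hγs b mb).1
  obtain ⟨ε1, hε1, κ, hκc, hκ0, hκs, U1, hU1, hU1H⟩ := hV.ls v hvH hv
  obtain ⟨ε2, hε2, τ, hτc, hτ0, hτs, U2, hU2, hU2H⟩ := hV.ls w hwH hw
  rw [hxv] at hκc hκ0 hκs
  rw [hxw] at hτc hτ0 hτs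
  have hκa : ContinuousAt κ x0 := hκc.continuousAt (Ioo_mem_nhds (by linarith) (by linarith))
  have hτa : ContinuousAt τ x0 := hτc.continuousAt (Ioo_mem_nhds (by linarith) (by linarith))
  have hSpc : IsClosed Sp := hV.fSp.isClosed
  -- open neighbourhoods of the ends
  have hUv : U1 ∩ Spᶜ ∈ nhds v := Filter.inter_mem hU1 (hSpc.isOpen_compl.mem_nhds hv)
  have hUw : U2 ∩ Spᶜ ∈ nhds w := Filter.inter_mem hU2 (hSpc.isOpen_compl.mem_nhds hw)
  obtain ⟨O1, hO1s, hO1, hvO1⟩ := mem_nhds_iff.1 hUv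
  obtain ⟨O2, hO2s, hO2, hwO2⟩ := mem_nhds_iff.1 hUw
  have hN1 : IsOpen (N ∩ s ⁻¹' O1) := hs.isOpen_inter_preimage hN hO1
  have hN2 : IsOpen (N ∩ s ⁻¹' O2) := hs.isOpen_inter_preimage hN hO2
  have hNK : IsOpen (N ∩ s ⁻¹' (K \ H)) := hs.isOpen_inter_preimage hN hV.op
  obtain ⟨δ0, hδ0, hB0⟩ := vob_box N hN x0 a b hCN'
  obtain ⟨δ1, hδ1, hB1⟩ := vob_box _ hN1 x0 a a (fun u hu => by
    have : u = a := le_antisymm hu.2 hu.1
    rw [this]
    exact ⟨hCN' _ ma, by show s (x0, a) ∈ O1; rw [hsγ _ ma, hγv]; exact hvO1⟩)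
  obtain ⟨δ2, hδ2, hB2⟩ := vob_box _ hN2 x0 b b (fun u hu => by
    have : u = b := le_antisymm hu.2 hu.1
    rw [this]
    exact ⟨hCN' _ mb, by show s (x0, b) ∈ O2; rw [hsγ _ mb, hγw]; exact hwO2⟩)
  set δ : ℝ := min (min δ0 (min δ1 δ2)) (min (y p - a) (b - y p)) with hδ
  have hδpos : 0 < δ := lt_min (lt_min hδ0 (lt_min hδ1 hδ2)) (lt_min (by linarith) (by linarith))
  have dδ0 : δ ≤ δ0 := (min_le_left _ _).trans (min_le_left _ _)
  have dδ1 : δ ≤ δ1 := (min_le_left _ _).trans ((min_le_right _ _).trans (min_le_left _ _))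
  have dδ2 : δ ≤ δ2 := (min_le_left _ _).trans ((min_le_right _ _).trans (min_le_right _ _))
  have dpa : δ ≤ y p - a := (min_le_right _ _).trans (min_le_left _ _)
  have dpb : δ ≤ b - y p := (min_le_right _ _).trans (min_le_right _ _)
  have hmid : a + δ / 2 ≤ b - δ / 2 := by linarith
  obtain ⟨δ3, hδ3, hB3⟩ := vob_box _ hNK x0 (a + δ / 2) (b - δ / 2) (fun u hu => by
    have hu' : u ∈ Icc a b := ⟨by linarith [hu.1], by linarith [hu.2]⟩
    refine ⟨hCN' _ hu', ?_⟩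
    show s (x0, u) ∈ K \ H
    rw [hsγ _ hu']
    exact hγi u ⟨by linarith [hu.1], by linarith [hu.2]⟩)
  -- the eventual properties
  have e1 : ∀ᶠ t in nhds x0, s (t, y (κ t)) = κ t :=
    vob_near x y hV.loc N hN s hs hsec x0 v (hCN' _ ma) (by
      show s (x0, a) = v
      rw [hsγ _ ma, hγv]) κ hκa hκ0 (by
      filter_upwards [Ioo_mem_nhds (show x0 - ε1 < x0 by linarith) (show x0 < x0 + ε1 by linarith)]
        with t ht using (hκs t ht).1)
  have e2 : ∀ᶠ t in nhds x0, s (t, y (τ t)) = τ t :=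
    vob_near x y hV.loc N hN s hs hsec x0 w (hCN' _ mb) (by
      show s (x0, b) = w
      rw [hsγ _ mb, hγw]) τ hτa hτ0 (by
      filter_upwards [Ioo_mem_nhds (show x0 - ε2 < x0 by linarith) (show x0 < x0 + ε2 by linarith)]
        with t ht using (hτs t ht).1)
  have e3 : ∀ᶠ t in nhds x0, |y (κ t) - a| < δ / 2 := by
    have h1 : ContinuousAt (fun t => y (κ t)) x0 := hyc.continuousAt.comp hκa
    have h2 := h1.tendsto
    simp only [hκ0] at h2
    have h3 := h2 (Metric.ball_mem_nhds a (half_pos hδpos))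
    filter_upwards [h3] with t ht
    simpa [Real.dist_eq] using ht
  have e4 : ∀ᶠ t in nhds x0, |y (τ t) - b| < δ / 2 := by
    have h1 : ContinuousAt (fun t => y (τ t)) x0 := hyc.continuousAt.comp hτa
    have h2 := h1.tendsto
    simp only [hτ0] at h2
    have h3 := h2 (Metric.ball_mem_nhds b (half_pos hδpos))
    filter_upwards [h3] with t ht
    simpa [Real.dist_eq] using ht
  have e5 : ∀ᶠ t in nhds x0, κ t ∉ Sp := by
    have h2 := hκa.tendsto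
    rw [hκ0] at h2
    exact h2 (hSpc.isOpen_compl.mem_nhds hv)
  have e6 : ∀ᶠ t in nhds x0, τ t ∉ Sp := by
    have h2 := hτa.tendsto
    rw [hτ0] at h2
    exact h2 (hSpc.isOpen_compl.mem_nhds hw)
  have e7 : ∀ᶠ t in nhds x0, |t - x0| < min (min ε1 ε2) (min δ δ3) := by
    filter_upwards [Metric.ball_mem_nhds x0 (lt_min (lt_min hε1 hε2) (lt_min hδpos hδ3))] with t ht
    simpa [Real.dist_eq] using ht
  obtain ⟨ε, hε, hball⟩ := Metric.eventually_nhds_iff.1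
    (e1.and (e2.and (e3.and (e4.and (e5.and (e6.and e7))))))
  have hT : ∀ t ∈ Ioo (x0 - ε) (x0 + ε), s (t, y (κ t)) = κ t ∧ s (t, y (τ t)) = τ t ∧
      |y (κ t) - a| < δ / 2 ∧ |y (τ t) - b| < δ / 2 ∧ κ t ∉ Sp ∧ τ t ∉ Sp ∧
      |t - x0| < ε1 ∧ |t - x0| < ε2 ∧ |t - x0| < δ ∧ |t - x0| < δ3 := by
    intro t ht
    have h1 : dist t x0 < ε := by
      rw [Real.dist_eq, abs_lt]
      constructor <;> linarith [ht.1, ht.2]
    obtain ⟨h2, h3, h4, h5, h6, h7, h8⟩ := hball h1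
    rw [lt_min_iff, lt_min_iff, lt_min_iff] at h8
    exact ⟨h2, h3, h4, h5, h6, h7, h8.1.1, h8.1.2, h8.2.1, h8.2.2⟩
  have hκT : ∀ t ∈ Ioo (x0 - ε) (x0 + ε), t ∈ Ioo (x0 - ε1) (x0 + ε1) := fun t ht => by
    have := (hT t ht).2.2.2.2.2.2.1
    rw [abs_lt] at this
    constructor <;> linarith [this.1, this.2]
  have hτT : ∀ t ∈ Ioo (x0 - ε) (x0 + ε), t ∈ Ioo (x0 - ε2) (x0 + ε2) := fun t ht => by
    have := (hT t ht).2.2.2.2.2.2.2.1
    rw [abs_lt] at this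
    constructor <;> linarith [this.1, this.2]
  -- the closed gap is in the box
  have hbox : ∀ t ∈ Ioo (x0 - ε) (x0 + ε), ∀ u, y (κ t) ≤ u → u ≤ y (τ t) → (t, u) ∈ N := by
    intro t ht u hu1 hu2
    obtain ⟨-, -, h3, h4, -, -, -, -, h9, -⟩ := hT t ht
    rw [abs_lt] at h3 h4
    exact hB0 t u (h9.trans_le dδ0) (by linarith) (by linarith) hab.le
  -- the open gap avoids `H`
  have hint : ∀ t ∈ Ioo (x0 - ε) (x0 + ε), ∀ u, y (κ t) < u → u < y (τ t) → s (t, u) ∈ K \ H := by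
    intro t ht u hu1 hu2
    obtain ⟨h1, h2, h3, h4, -, -, -, -, h9, h10⟩ := hT t ht
    rw [abs_lt] at h3 h4
    have hmidK : ∀ u' ∈ Icc (a + δ / 2) (b - δ / 2), s (t, u') ∈ K \ H := fun u' hu' =>
      (hB3 t u' h10 (by linarith [hu'.1]) (by linarith [hu'.2]) hmid).2
    rcases le_or_gt u (a + δ / 2) with hu | hu
    · have hseg : ∀ u' ∈ Icc u (a + δ / 2), (t, u') ∈ N ∩ s ⁻¹' O1 := fun u' hu' =>
        hB1 t u' (h9.trans_le dδ1) (by linarith [hu'.1]) (by linarith [hu'.2]) le_rfl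
      have hpre : IsPreconnected ((fun u' => s (t, u')) '' Icc u (a + δ / 2)) := by
        refine isPreconnected_Icc.image _ ?_
        exact hs.comp (by fun_prop) fun u' hu' => (hseg u' hu').1
      refine vob_conn hKc hV.op hpre ?_ (s (t, a + δ / 2)) ⟨a + δ / 2, ⟨hu, le_rfl⟩, rfl⟩
        (hmidK _ ⟨le_rfl, hmid⟩) ⟨u, ⟨le_rfl, hu⟩, rfl⟩
      rintro _ ⟨u', hu', rfl⟩ hH
      have h5 : s (t, u') ∈ U1 := (hO1s (hseg u' hu').2).1
      have h7 := hsec _ (hseg u' hu').1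
      have h6 : s (t, u') = κ t := by
        have h := hU1H _ h5 hH
        rw [h7.1] at h
        exact h
      have h8 : u' = y (κ t) := by rw [← h6]; exact h7.2.symm
      linarith [hu'.1]
    rcases le_or_gt (b - δ / 2) u with hu' | hu'
    · have hseg : ∀ u' ∈ Icc (b - δ / 2) u, (t, u') ∈ N ∩ s ⁻¹' O2 := fun u' hu' =>
        hB2 t u' (h9.trans_le dδ2) (by linarith [hu'.1]) (by linarith [hu'.2]) le_rfl
      have hpre : IsPreconnected ((fun u' => s (t, u')) '' Icc (b - δ / 2) u) := by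
        refine isPreconnected_Icc.image _ ?_
        exact hs.comp (by fun_prop) fun u' hu' => (hseg u' hu').1
      refine vob_conn hKc hV.op hpre ?_ (s (t, b - δ / 2)) ⟨b - δ / 2, ⟨le_rfl, hu'⟩, rfl⟩
        (hmidK _ ⟨hmid, le_rfl⟩) ⟨u, ⟨hu', le_rfl⟩, rfl⟩
      rintro _ ⟨u', hu', rfl⟩ hH
      have h5 : s (t, u') ∈ U2 := (hO2s (hseg u' hu').2).1
      have h7 := hsec _ (hseg u' hu').1
      have h6 : s (t, u') = τ t := by
        have h := hU2H _ h5 hH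
        rw [h7.1] at h
        exact h
      have h8 : u' = y (τ t) := by rw [← h6]; exact h7.2.symm
      linarith [hu'.2]
    · exact hmidK u ⟨hu.le, hu'.le⟩
  have hlt : ∀ t ∈ Ioo (x0 - ε) (x0 + ε), y (κ t) < a + δ / 2 ∧ b - δ / 2 < y (τ t) := fun t ht => by
    obtain ⟨-, -, h3, h4, -⟩ := hT t ht
    rw [abs_lt] at h3 h4
    constructor <;> linarith
  have hgap : ∀ t ∈ Ioo (x0 - ε) (x0 + ε), ∀ u, y (κ t) < u → u < y (τ t) →
      GapP x y K H (κ t) (s (t, u)) (τ t) := by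
    intro t ht u hu1 hu2
    have h7 := hsec _ (hbox t ht u hu1.le hu2.le)
    refine ⟨by rw [h7.2]; exact hu1, by rw [h7.2]; exact hu2, (hκs t (hκT t ht)).2,
      (hτs t (hτT t ht)).2, fun u' => s (t, u'), ?_, ?_, (hT t ht).1, by rw [h7.2],
      (hT t ht).2.1, ?_⟩
    · exact hs.comp (by fun_prop) fun u' hu' => hbox t ht u' hu'.1 hu'.2
    · intro u' hu'
      have h8 := hsec _ (hbox t ht u' hu'.1 hu'.2)
      exact ⟨by rw [h8.1, h7.1], h8.2⟩
    · intro u' hu'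
      exact hint t ht u' hu'.1 hu'.2
  have hx0T : x0 ∈ Ioo (x0 - ε) (x0 + ε) := ⟨by linarith, by linarith⟩
  refine ⟨ε, κ, τ, s, hε, ⟨?_, ?_, ?_, ?_, ?_, ?_, ?_, ?_, ?_⟩, hκ0, hτ0, ?_, ?_, U1, hU1, hU1H⟩
  · exact hκc.mono hκT
  · exact hτc.mono hτT
  · exact fun t ht => ⟨(hκs t (hκT t ht)).1, (hτs t (hτT t ht)).1⟩
  · intro t ht
    have := hlt t ht
    linarith [this.1, this.2]
  · exact fun t ht => ⟨(hκs t (hκT t ht)).2, (hτs t (hτT t ht)).2⟩
  · refine hs.mono ?_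
    rintro ⟨t, u⟩ ⟨h1, h2, h3⟩
    exact hbox t h1 u h2 h3
  · rintro ⟨t, u⟩ h1 h2 h3
    have h7 := hsec _ (hbox t h1 u h2 h3)
    refine ⟨h7.1, h7.2, ?_⟩
    rcases eq_or_lt_of_le h2 with h4 | h4
    · rw [← show y (κ t) = u from h4, (hT t h1).1]
      exact hV.HK (hκs t (hκT t h1)).2
    rcases eq_or_lt_of_le h3 with h5 | h5
    · rw [show u = y (τ t) from h5, (hT t h1).2.1]
      exact hV.HK (hτs t (hτT t h1)).2
    · exact (hint t h1 u h4 h5).1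
  · exact fun t ht => ⟨(hT t ht).1, (hT t ht).2.1⟩
  · intro t ht
    have h1 := hlt t ht
    refine ⟨⟨_, hgap t ht ((a + b) / 2) (by linarith [h1.1]) (by linarith [h1.2])⟩,
      (hT t ht).2.2.2.2.1, (hT t ht).2.2.2.2.2.1⟩
  · rw [hsγ _ ⟨hap.le, hpb.le⟩, hγp]
  · set N2 : Set (ℝ × ℝ) := Ioo (x0 - ε) (x0 + ε) ×ˢ Ioo (a + δ / 2) (b - δ / 2) with hN2d
    have hN2o : IsOpen N2 := isOpen_Ioo.prod isOpen_Ioo
    have hN2N : N2 ⊆ N := by
      rintro ⟨t, u⟩ ⟨h1, h2⟩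
      have h3 := hlt t h1
      exact hbox t h1 u (by linarith [h3.1, h2.1]) (by linarith [h3.2, h2.2])
    have hp : s (x0, y p) = p := by rw [hsγ _ ⟨hap.le, hpb.le⟩, hγp]
    refine ⟨s '' N2, (hsop N2 hN2N hN2o).mem_nhds ⟨(x0, y p), ⟨hx0T, ?_, ?_⟩, hp⟩, ?_⟩
    · show a + δ / 2 < y p
      linarith
    · show y p < b - δ / 2
      linarith
    · rintro _ ⟨⟨t, u⟩, ⟨h1, h2⟩, rfl⟩
      have h7 := hsec _ (hN2N ⟨h1, h2⟩)
      have h3 := hlt t h1
      rw [h7.1]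
      exact ⟨h1, hgap t h1 u (by linarith [h3.1, h2.1]) (by linarith [h3.2, h2.2])⟩

end D4Q
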