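import Mathlib
import Pool.Agent.D4Q.VD
import Pool.Agent.D4Q.VtTube
import Pool.Agent.D4Q.VtGap
import Pool.Agent.D4Q.VtOpen_b

/-!
# D4Q-VtOpen: good gaps are open

PROOF. Let `γ` be the vertical path of the gap. `tube` for `C = {x p} × [y v, y w]` gives a section `s'` over an open `N ⊇ C`, in particular over a box `|t - x p| < ε`, `y v - ε < u < y w + ε`. By `LocSec` at `v` and `w`
`H` is near `v` (near `w`) the image of a section `κ` (`τ`) of the `x`-axis; for small `ε` these are in the open set `s' '' N`, so `κ t = s' (t, y (κ t))`, similarly `τ`. The middle part of `γ` (outside small neighbourhoods of `v`, `w`) is compact and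
disjoint from the closed set `H`, so for small `ε` `s' (t, u) ∉ H` for `|t - x p| < ε` and `u` in the middle interval; near `v` the only points of `H` are the `κ t`. And `s' (t, u) ∈ K`: the open
gap is contained in the open set `K ∖ H`, near the middle all points are in `K ∖ H`; near `v`: the points `s' (t, u)` with `u > y (κ t)` close to `v` form a connected set not meeting `H`
and meeting `K ∖ H`; `K ∖ H` is open and `K` closed, so it is open and closed in the complement of `H`: the connected set is contained in `K ∖ H`. `Sp` is finite and does not contain `v, w`, so near them there are no special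
points. So over `|t - x p| < ε` the gap between `κ t` and `τ t` is good. The last two statements: `s' '' N'` is a neighbourhood of `p`; `LocSec` at `v`.
-/

namespace D4Q

open Set

theorem vopen {X : Type} [TopologicalSpace X] [T2Space X] (x y : X → ℝ) (K H Sp : Set X)
    (hV : VS x y K H Sp) (v p w : X) (hg : GapP x y K H v p w) (hv : v ∉ Sp) (hw : w ∉ Sp) :
    ∃ (ε : ℝ) (κ τ : ℝ → X) (s : ℝ × ℝ → X), 0 < ε ∧
      Trap x y K H Sp (Ioo (x p - ε) (x p + ε)) (Ioo (x p - ε) (x p + ε)) κ τ s ∧
      κ (x p) = v ∧ τ (x p) = w ∧ s (x p, y p) = p ∧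
      (∃ U ∈ nhds p, ∀ q ∈ U, x q ∈ Ioo (x p - ε) (x p + ε) ∧
        GapP x y K H (κ (x q)) q (τ (x q))) ∧
      ∃ U ∈ nhds v, ∀ z ∈ U, z ∈ H → z = κ (x z) :=
  vopen_b x y K H Sp hV v p w hg hv hw

/-- The set of lower ends of good gaps is étale over the `x`-axis. -/
theorem gs_ls {X : Type} [TopologicalSpace X] [T2Space X] (x y : X → ℝ) (K H Sp : Set X)
    (hV : VS x y K H Sp) : ∀ v ∈ GS x y K H Sp, LocSec x (GS x y K H Sp) v :=
  gs_ls_of x y K H Sp fun v p w hg hv hw => vopen x y K H Sp hV v p w hg hv hw

end D4Q
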