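import Mathlib
import Pool.Agent.D4Q.VD
import Pool.Agent.D4Q.VtOpen

/-!
# D4Q-VtTrap: trapezoids over closed intervals

PROOF. `τ t` = the upper end of the gap with lower end `κ t` (`gap_lower`), `s (t, u)` = the point at height `u` of its vertical path. Near each `t ∈ [t0, t1]` the trapezoid of `vopen` for a point of the gap above `κ t` has lower curve equal to `κ`
(last statement of `vopen`, `κ` continuous with values in `H`), so by uniqueness its `τ`, `s` agree with ours over a neighbourhood of `t` in `[t0, t1]`: continuity.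
-/

namespace D4Q

open Set

theorem trap_of_sec {X : Type} [TopologicalSpace X] [T2Space X] (x y : X → ℝ) (K H Sp : Set X)
    (hV : VS x y K H Sp) (T : Set ℝ) (hT : T.OrdConnected) (κ : ℝ → X) (hκ : ContinuousOn κ T)
    (h : ∀ t ∈ T, x (κ t) = t ∧ κ t ∈ GS x y K H Sp) :
    ∃ (τ : ℝ → X) (s : ℝ × ℝ → X), Trap x y K H Sp T T κ τ s := by
  classical
  have hch : ∀ t : ℝ, ∃ (w p : X) (γ : ℝ → X), t ∈ T →
      (Good x y K H Sp (κ t) w ∧ GapP x y K H (κ t) p w ∧ x p = t ∧ x w = t ∧ κ t ∈ H ∧ w ∈ H ∧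
        y (κ t) < y w ∧ ContinuousOn γ (Icc (y (κ t)) (y w)) ∧
        (∀ u ∈ Icc (y (κ t)) (y w), x (γ u) = t ∧ y (γ u) = u) ∧
        γ (y (κ t)) = κ t ∧ γ (y w) = w ∧ ∀ u ∈ Ioo (y (κ t)) (y w), γ u ∈ K \ H) := by
    intro t
    by_cases ht : t ∈ T
    · obtain ⟨hx, w, hgood⟩ := h t ht
      obtain ⟨p, hp⟩ := hgood.1
      obtain ⟨h1, h2, h3, h4, γ, h5, h6, h7, h8, h9, h10⟩ := id hp
      have hlt : y (κ t) < y w := h1.trans h2
      have hxp : x p = t := by
        have := (h6 (y (κ t)) (left_mem_Icc.2 hlt.le)).1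
        rw [h7, hx] at this
        exact this.symm
      have hxw : x w = t := by
        have := (h6 (y w) (right_mem_Icc.2 hlt.le)).1
        rw [h9, hxp] at this
        exact this
      refine ⟨w, p, γ, fun _ => ⟨hgood, hp, hxp, hxw, h3, h4, hlt, h5, fun u hu => ?_, h7, h9,
        h10⟩⟩
      rw [← hxp]
      exact h6 u hu
    · exact ⟨κ t, κ t, fun _ => κ t, fun ht' => absurd ht' ht⟩
  choose τ pp γ hall using hch
  have key : ∀ t0 ∈ T, ∃ (δ : ℝ) (κ' τ' : ℝ → X) (s' : ℝ × ℝ → X), 0 < δ ∧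
      Trap x y K H Sp (Ioo (t0 - δ) (t0 + δ)) (Ioo (t0 - δ) (t0 + δ)) κ' τ' s' ∧
      ∀ t ∈ T, t ∈ Ioo (t0 - δ) (t0 + δ) → κ t = κ' t ∧ τ t = τ' t ∧
        ∀ u ∈ Icc (y (κ t)) (y (τ t)), γ t u = s' (t, u) := by
    intro t0 ht0
    obtain ⟨hgood, hgp, hxp, -⟩ := hall t0 ht0
    obtain ⟨ε, κ', τ', s', hε, htrap, hκ0, hτ0, hs0, -, U, hU, hUH⟩ :=
      vopen x y K H Sp hV (κ t0) (pp t0) (τ t0) hgp hgood.2.1 hgood.2.2
    rw [hxp] at htrap
    have hcont : ∀ᶠ t in nhdsWithin t0 T, κ t ∈ U := (hκ t0 ht0).eventually_mem hU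
    obtain ⟨δ1, hδ1, hδ1'⟩ := Metric.mem_nhdsWithin_iff.1 hcont
    refine ⟨min ε δ1, κ', τ', s', lt_min hε hδ1, ?_, ?_⟩
    · have hsub : Ioo (t0 - min ε δ1) (t0 + min ε δ1) ⊆ Ioo (t0 - ε) (t0 + ε) := by
        intro t ht
        have := min_le_left ε δ1
        exact ⟨by linarith [ht.1], by linarith [ht.2]⟩
      exact {
        cκ := htrap.cκ.mono hsub
        cτ := htrap.cτ.mono hsub
        xκ := fun t ht => htrap.xκ t (hsub ht)
        le := fun t ht => htrap.le t (hsub ht)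
        mH := fun t ht => htrap.mH t (hsub ht)
        cs := htrap.cs.mono fun z hz => ⟨hsub hz.1, hz.2.1, hz.2.2⟩
        sec := fun z hz => htrap.sec z (hsub hz)
        sκ := fun t ht => htrap.sκ t (hsub ht)
        good := fun t ht => htrap.good t (hsub ht) }
    · intro t ht htδ
      have hte : t ∈ Ioo (t0 - ε) (t0 + ε) := by
        have := min_le_left ε δ1
        exact ⟨by linarith [htδ.1], by linarith [htδ.2]⟩
      have htU : κ t ∈ U := by
        refine hδ1' ⟨?_, ht⟩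
        rw [Metric.mem_ball, Real.dist_eq, abs_lt]
        have := min_le_right ε δ1
        exact ⟨by linarith [htδ.1], by linarith [htδ.2]⟩
      obtain ⟨hgood', -, -, hxw, hκH, -, hlt, hγc, hγs, hγκ, hγτ, -⟩ := hall t ht
      have e1 : κ t = κ' t := by
        have := hUH (κ t) htU hκH
        rw [(h t ht).1] at this
        exact this
      have e2 : τ t = τ' t := by
        have hg1 := hgood'.1
        have hg2 := (htrap.good t hte).1
        rw [e1] at hg1
        exact gap_lower x y K H hV.loc (κ' t) (τ t) (τ' t) hg1 hg2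
      refine ⟨e1, e2, ?_⟩
      have hsc : ContinuousOn (fun u => s' (t, u)) (Icc (y (κ t)) (y (τ t))) := by
        refine htrap.cs.comp (f := fun u : ℝ => (t, u))
          (continuous_const.prodMk continuous_id).continuousOn ?_
        intro u hu
        refine ⟨hte, ?_, ?_⟩
        · change y (κ' t) ≤ u
          rw [← e1]
          exact hu.1
        · change u ≤ y (τ' t)
          rw [← e2]
          exact hu.2
      have huq : EqOn (γ t) (fun u => s' (t, u)) (Icc (y (κ t)) (y (τ t))) := by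
        refine sec_unique (fun ζ => (x ζ, y ζ)) hV.loc (Icc (y (κ t)) (y (τ t)))
          isPreconnected_Icc (γ t) (fun u => s' (t, u)) hγc hsc ?_ (y (κ t))
          (left_mem_Icc.2 hlt.le) ?_
        · intro u hu
          have h1 := hγs u hu
          have h2 := htrap.sec (t, u) hte (by change y (κ' t) ≤ u; rw [← e1]; exact hu.1)
            (by change u ≤ y (τ' t); rw [← e2]; exact hu.2)
          exact Prod.ext (h1.1.trans h2.1.symm) (h1.2.trans h2.2.1.symm)
        · have h3 := (htrap.sκ t hte).1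
          rw [← e1] at h3
          rw [hγκ]
          exact h3.symm
      exact fun u hu => huq hu
  refine ⟨τ, fun z => γ z.1 z.2, ?_⟩
  exact {
    cκ := hκ
    cτ := by
      intro t0 ht0
      obtain ⟨δ, κ', τ', s', hδ, htrap, hag⟩ := key t0 ht0
      have ht0' : t0 ∈ Ioo (t0 - δ) (t0 + δ) := ⟨by linarith, by linarith⟩
      have hc : ContinuousWithinAt τ' T t0 :=
        ((htrap.cτ t0 ht0').continuousAt (isOpen_Ioo.mem_nhds ht0')).continuousWithinAt
      refine hc.congr_of_eventuallyEq ?_ (hag t0 ht0 ht0').2.1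
      have hm : Ioo (t0 - δ) (t0 + δ) ∈ nhdsWithin t0 T :=
        mem_nhdsWithin_of_mem_nhds (isOpen_Ioo.mem_nhds ht0')
      filter_upwards [hm, self_mem_nhdsWithin] with t h1 h2
      exact (hag t h2 h1).2.1
    xκ := fun t ht => ⟨(h t ht).1, (hall t ht).2.2.2.1⟩
    le := fun t ht => (hall t ht).2.2.2.2.2.2.1.le
    mH := fun t ht => ⟨(hall t ht).2.2.2.2.1, (hall t ht).2.2.2.2.2.1⟩
    cs := by
      intro z0 hz0
      obtain ⟨t0, u0⟩ := z0
      obtain ⟨ht0, hu1, hu2⟩ := hz0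
      change t0 ∈ T at ht0
      obtain ⟨δ, κ', τ', s', hδ, htrap, hag⟩ := key t0 ht0
      have ht0' : t0 ∈ Ioo (t0 - δ) (t0 + δ) := ⟨by linarith, by linarith⟩
      have e0 := hag t0 ht0 ht0'
      have hmem0 : (t0, u0) ∈ {z : ℝ × ℝ | z.1 ∈ Ioo (t0 - δ) (t0 + δ) ∧ y (κ' z.1) ≤ z.2 ∧
          z.2 ≤ y (τ' z.1)} := by
        refine ⟨ht0', ?_, ?_⟩
        · change y (κ' t0) ≤ u0
          rw [← e0.1]
          exact hu1
        · change u0 ≤ y (τ' t0)
          rw [← e0.2.1]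
          exact hu2
      have hc := htrap.cs (t0, u0) hmem0
      have hopen : IsOpen {z : ℝ × ℝ | z.1 ∈ Ioo (t0 - δ) (t0 + δ)} :=
        isOpen_Ioo.preimage continuous_fst
      have hm : {z : ℝ × ℝ | z.1 ∈ Ioo (t0 - δ) (t0 + δ)} ∈
          nhdsWithin (t0, u0) {z : ℝ × ℝ | z.1 ∈ T ∧ y (κ z.1) ≤ z.2 ∧ z.2 ≤ y (τ z.1)} :=
        mem_nhdsWithin_of_mem_nhds (hopen.mem_nhds ht0')
      have hc2 : ContinuousWithinAt s'
          {z : ℝ × ℝ | z.1 ∈ T ∧ y (κ z.1) ≤ z.2 ∧ z.2 ≤ y (τ z.1)} (t0, u0) := by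
        refine hc.mono_of_mem_nhdsWithin ?_
        filter_upwards [hm, self_mem_nhdsWithin] with z h1 h2
        have e := hag z.1 h2.1 h1
        refine ⟨h1, ?_, ?_⟩
        · rw [← e.1]
          exact h2.2.1
        · rw [← e.2.1]
          exact h2.2.2
      refine hc2.congr_of_eventuallyEq ?_ ?_
      · filter_upwards [hm, self_mem_nhdsWithin] with z h1 h2
        exact (hag z.1 h2.1 h1).2.2 z.2 ⟨h2.2.1, h2.2.2⟩
      · exact e0.2.2 u0 ⟨hu1, hu2⟩
    sec := by
      intro z hz h1 h2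
      obtain ⟨-, -, -, -, hκH, hwH, hlt, -, hγs, hγκ, hγτ, hint⟩ := hall z.1 hz
      have h3 := hγs z.2 ⟨h1, h2⟩
      refine ⟨h3.1, h3.2, ?_⟩
      rcases eq_or_lt_of_le h1 with h4 | h4
      · change γ z.1 z.2 ∈ K
        rw [← h4, hγκ]
        exact hV.HK hκH
      · rcases eq_or_lt_of_le h2 with h5 | h5
        · change γ z.1 z.2 ∈ K
          rw [h5, hγτ]
          exact hV.HK hwH
        · exact (hint z.2 ⟨h4, h5⟩).1
    sκ := fun t ht => ⟨(hall t ht).2.2.2.2.2.2.2.2.2.1, (hall t ht).2.2.2.2.2.2.2.2.2.2.1⟩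
    good := fun t ht => (hall t ht).1 }

end D4Q
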