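import Mathlib
import Pool.Agent.D4Q.VD
import Pool.Agent.D4Q.CompS
import Pool.Agent.D4Q.VtTrap

/-!
# D4Q-VtCls: classes and trapezoids

The class of a good point is the component in `GS` of the lower end of its gap, and such a component is a section over
an open interval (`comp_section`, `gs_ls`).
-/

namespace D4Q

open Set

private theorem vc_x {X : Type} [TopologicalSpace X] {x y : X → ℝ} {K H : Set X} {v p w : X}
    (h : GapP x y K H v p w) : x v = x p := by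
  obtain ⟨a1, a2, -, -, γ, -, e, b, -, -, -⟩ := h
  rw [← (e (y v) ⟨le_rfl, by linarith⟩).1, b]

private theorem vc_cls {X : Type} [TopologicalSpace X] [T2Space X] {x y : X → ℝ} {K H Sp : Set X}
    (hV : VS x y K H Sp) {v p w : X} (h : GapP x y K H v p w) (hv : v ∉ Sp) (hw : w ∉ Sp) :
    cls x y K H Sp p = connectedComponentIn (GS x y K H Sp) v := by
  ext z
  constructor
  · rintro ⟨v', w', h', -, -, hz⟩
    obtain ⟨rfl, -⟩ := gap_unique x y K H hV.loc _ _ _ _ _ h h'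
    exact hz
  · intro hz
    exact ⟨v, w, h, hv, hw, hz⟩

private theorem vc_cc {X : Type} [TopologicalSpace X] {x y : X → ℝ} {K H Sp : Set X} {T : Set ℝ}
    (hT : IsPreconnected T) {κ : ℝ → X} (hc : ContinuousOn κ T) (h : ∀ t ∈ T, κ t ∈ GS x y K H Sp)
    {t t' : ℝ} (ht : t ∈ T) (ht' : t' ∈ T) :
    connectedComponentIn (GS x y K H Sp) (κ t) = connectedComponentIn (GS x y K H Sp) (κ t') := by
  apply connectedComponentIn_eq
  refine (hT.image κ hc).subset_connectedComponentIn (mem_image_of_mem κ ht) ?_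
    (mem_image_of_mem κ ht')
  rintro _ ⟨r, hr, rfl⟩
  exact h r hr

theorem cls_path {X : Type} [TopologicalSpace X] [T2Space X] (x y : X → ℝ) (K H Sp : Set X)
    (hV : VS x y K H Sp) (p q : X) (hp : GoodPt x y K H Sp p) (hq : GoodPt x y K H Sp q)
    (h : cls x y K H Sp p = cls x y K H Sp q) :
    ∃ (κ τ : ℝ → X) (s : ℝ × ℝ → X), Trap x y K H Sp (uIcc (x p) (x q)) (uIcc (x p) (x q)) κ τ s ∧
      GapP x y K H (κ (x p)) p (τ (x p)) ∧ GapP x y K H (κ (x q)) q (τ (x q)) := by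
  obtain ⟨v, w, hg, hv, hw⟩ := hp
  obtain ⟨v', w', hg', hv', hw'⟩ := hq
  have hvG : v ∈ GS x y K H Sp := ⟨w, ⟨p, hg⟩, hv, hw⟩
  have hvG' : v' ∈ GS x y K H Sp := ⟨w', ⟨q, hg'⟩, hv', hw'⟩
  have hm : v ∈ connectedComponentIn (GS x y K H Sp) v' := by
    rw [← vc_cls hV hg' hv' hw', ← h, vc_cls hV hg hv hw]
    exact mem_connectedComponentIn hvG
  have hxc : Continuous x := continuous_fst.comp hV.loc.continuous
  obtain ⟨J, κ, hJo, hJ, hvJ, hκ, hκx, hκv, hκJ⟩ :=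
    comp_section x hxc (GS x y K H Sp) (gs_ls x y K H Sp hV) v' hvG'
  rw [← hκJ] at hm
  obtain ⟨t, ht, htv⟩ := hm
  have e1 : t = x p := by rw [← vc_x hg, ← htv, hκx t ht]
  subst e1
  have e2 : x v' = x q := vc_x hg'
  rw [e2] at hvJ hκv
  have hsub : uIcc (x p) (x q) ⊆ J := hJ.uIcc_subset ht hvJ
  have hGS : ∀ r ∈ J, κ r ∈ GS x y K H Sp := fun r hr =>
    connectedComponentIn_subset _ _ (hκJ ▸ mem_image_of_mem κ hr)
  obtain ⟨τ, s, hT⟩ := trap_of_sec x y K H Sp hV (uIcc (x p) (x q)) ordConnected_uIcc κ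
    (hκ.mono hsub) (fun r hr => ⟨hκx r (hsub hr), hGS r (hsub hr)⟩)
  refine ⟨κ, τ, s, hT, ?_, ?_⟩
  · have h1 := (hT.good (x p) left_mem_uIcc).1
    rw [htv] at h1 ⊢
    rw [← gap_lower x y K H hV.loc v w _ ⟨p, hg⟩ h1]
    exact hg
  · have h1 := (hT.good (x q) right_mem_uIcc).1
    rw [hκv] at h1 ⊢
    rw [← gap_lower x y K H hV.loc v' w' _ ⟨q, hg'⟩ h1]
    exact hg'

theorem cls_of_path {X : Type} [TopologicalSpace X] [T2Space X] (x y : X → ℝ) (K H Sp : Set X)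
    (hV : VS x y K H Sp) (p q : X) (κ τ : ℝ → X) (s : ℝ × ℝ → X)
    (hT : Trap x y K H Sp (uIcc (x p) (x q)) (uIcc (x p) (x q)) κ τ s)
    (h1 : GapP x y K H (κ (x p)) p (τ (x p))) (h2 : GapP x y K H (κ (x q)) q (τ (x q))) :
    cls x y K H Sp p = cls x y K H Sp q := by
  have g1 := hT.good (x p) left_mem_uIcc
  have g2 := hT.good (x q) right_mem_uIcc
  rw [vc_cls hV h1 g1.2.1 g1.2.2, vc_cls hV h2 g2.2.1 g2.2.2]
  exact vc_cc isPreconnected_uIcc hT.cκ (fun t ht => ⟨τ t, hT.good t ht⟩) left_mem_uIcc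
    right_mem_uIcc

theorem cls_eq_near {X : Type} [TopologicalSpace X] [T2Space X] (x y : X → ℝ) (K H Sp : Set X)
    (hV : VS x y K H Sp) (p : X) (hp : GoodPt x y K H Sp p) :
    ∃ U ∈ nhds p, ∀ q ∈ U, GoodPt x y K H Sp q ∧ cls x y K H Sp q = cls x y K H Sp p := by
  obtain ⟨v, w, hg, hv, hw⟩ := hp
  obtain ⟨ε, κ, τ, s, hε, hT, hκ, -, -, ⟨U, hU, hUq⟩, -⟩ := vopen x y K H Sp hV v p w hg hv hw
  refine ⟨U, hU, fun q hq => ?_⟩
  obtain ⟨hx, hgq⟩ := hUq q hq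
  have g1 := hT.good (x q) hx
  refine ⟨⟨κ (x q), τ (x q), hgq, g1.2.1, g1.2.2⟩, ?_⟩
  rw [vc_cls hV hgq g1.2.1 g1.2.2, vc_cls hV hg hv hw, ← hκ]
  exact vc_cc isPreconnected_Ioo hT.cκ (fun t ht => ⟨τ t, hT.good t ht⟩) hx
    ⟨by linarith, by linarith⟩

end D4Q
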