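import Mathlib
import Pool.Agent.D4Q.VD
import Pool.Agent.D4Q.VtGap
import Pool.Agent.D4Q.VtCls
import Pool.Agent.D4Q.VtTube
import Pool.Agent.D4Q.VtUniq

/-!
# D4Q-VtExit: where a curve leaves a class

`exit_left`: the parameters `t` for which the point `c t` is not good or not in the class of `c t0` form a compact set; at its
maximum the curve meets `H` or the gap has a special end. `same_gap_near`: the vertical segment between two points of a gap is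
compact and disjoint from `H`; sections over a neighbourhood of it (`tube`) join the points of the two curves outside `H`.
-/

namespace D4Q

open Set

theorem exit_left {X : Type} [TopologicalSpace X] [T2Space X] (x y : X → ℝ) (K H Sp : Set X)
    (hV : VS x y K H Sp) (c : ℝ → X) (a0 t0 : ℝ) (h0 : a0 ≤ t0) (hc : ContinuousOn c (Icc a0 t0))
    (hx : ∀ t ∈ Icc a0 t0, x (c t) = t ∧ c t ∈ K) (hg : GoodPt x y K H Sp (c t0)) :
    (∀ t ∈ Icc a0 t0, GoodPt x y K H Sp (c t) ∧ cls x y K H Sp (c t) = cls x y K H Sp (c t0)) ∨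
    ∃ t1 ∈ Ico a0 t0, (∀ t ∈ Ioc t1 t0, GoodPt x y K H Sp (c t) ∧
        cls x y K H Sp (c t) = cls x y K H Sp (c t0)) ∧
      (c t1 ∈ H ∨ (c t1 ∉ H ∧ ∃ v w, GapP x y K H v (c t1) w ∧ (v ∈ Sp ∨ w ∈ Sp))) := by
  by_cases hall : ∀ t ∈ Icc a0 t0, GoodPt x y K H Sp (c t) ∧ cls x y K H Sp (c t) = cls x y K H Sp (c t0)
  · exact Or.inl hall
  right
  push Not at hall
  obtain ⟨t', ht', ht'n⟩ := hall
  -- the bad parameters
  have hnear : ∀ t ∈ Icc a0 t0, GoodPt x y K H Sp (c t) → ∀ᶠ r in nhdsWithin t (Icc a0 t0),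
      GoodPt x y K H Sp (c r) ∧ cls x y K H Sp (c r) = cls x y K H Sp (c t) := by
    intro t ht hgt
    obtain ⟨U, hU, hU'⟩ := cls_eq_near x y K H Sp hV (c t) hgt
    filter_upwards [(hc t ht) hU] with r hr
    exact hU' _ hr
  have hB : IsClosed {t | t ∈ Icc a0 t0 ∧ ¬ (GoodPt x y K H Sp (c t) ∧
      cls x y K H Sp (c t) = cls x y K H Sp (c t0))} := by
    refine isClosed_of_closure_subset fun t ht => ?_
    have ht2 : t ∈ Icc a0 t0 := by
      have h1 : closure {t | t ∈ Icc a0 t0 ∧ ¬ (GoodPt x y K H Sp (c t) ∧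
          cls x y K H Sp (c t) = cls x y K H Sp (c t0))} ⊆ Icc a0 t0 :=
        closure_minimal (fun r hr => hr.1) isClosed_Icc
      exact h1 ht
    refine ⟨ht2, fun hP => ?_⟩
    have h1 := hnear t ht2 hP.1
    rw [eventually_nhdsWithin_iff] at h1
    have h2 := mem_closure_iff_frequently.1 ht
    obtain ⟨r, hr1, hr2⟩ := (h2.and_eventually h1).exists
    have h3 := hr2 hr1.1
    exact hr1.2 ⟨h3.1, h3.2.trans hP.2⟩
  have hBc : IsCompact {t | t ∈ Icc a0 t0 ∧ ¬ (GoodPt x y K H Sp (c t) ∧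
      cls x y K H Sp (c t) = cls x y K H Sp (c t0))} :=
    isCompact_Icc.of_isClosed_subset hB fun r hr => hr.1
  obtain ⟨t1, ht1, ht1m⟩ := hBc.exists_isGreatest ⟨t', ht', fun h => ht'n h.1 h.2⟩
  have hlt : t1 < t0 := by
    refine lt_of_le_of_ne ht1.1.2 fun h => ht1.2 ?_
    rw [h]
    exact ⟨hg, rfl⟩
  have hgood : ∀ t ∈ Ioc t1 t0, GoodPt x y K H Sp (c t) ∧
      cls x y K H Sp (c t) = cls x y K H Sp (c t0) := by
    intro t ht
    by_contra hn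
    have h1 := ht1m ⟨⟨ht1.1.1.trans ht.1.le, ht.2⟩, hn⟩
    exact absurd ht.1 (not_lt.2 h1)
  refine ⟨t1, ⟨ht1.1.1, hlt⟩, hgood, ?_⟩
  by_cases hH : c t1 ∈ H
  · exact Or.inl hH
  refine Or.inr ⟨hH, ?_⟩
  obtain ⟨v, w, hvw⟩ := gap_exists x y K H Sp hV (c t1) ⟨(hx t1 ht1.1).2, hH⟩
  refine ⟨v, w, hvw, ?_⟩
  by_contra hn
  push Not at hn
  have hgp : GoodPt x y K H Sp (c t1) := ⟨v, w, hvw, hn.1, hn.2⟩
  have h1 := hnear t1 ht1.1 hgp
  have h2 : ∃ᶠ r in nhdsWithin t1 (Icc a0 t0), r ∈ Ioc t1 t0 := by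
    have h3 : (nhdsWithin t1 (Ioc t1 t0)).NeBot := by
      rw [nhdsWithin_Ioc_eq_nhdsGT hlt]
      infer_instance
    have h4 : ∃ᶠ r in nhdsWithin t1 (Ioc t1 t0), r ∈ Ioc t1 t0 :=
      (eventually_mem_nhdsWithin).frequently
    exact h4.filter_mono (nhdsWithin_mono _ fun r hr => ⟨ht1.1.1.trans hr.1.le, hr.2⟩)
  obtain ⟨r, hr1, hr2⟩ := (h2.and_eventually h1).exists
  exact ht1.2 ⟨hgp, hr2.2.symm.trans (hgood r hr1).2⟩

theorem same_gap_near {X : Type} [TopologicalSpace X] [T2Space X] (x y : X → ℝ) (K H Sp : Set X)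
    (hV : VS x y K H Sp) (v w ζ ζ' : X) (h : GapP x y K H v ζ w) (h' : GapP x y K H v ζ' w)
    (c c' : ℝ → X) (t1 t2 : ℝ) (ht : t1 < t2) (hc : ContinuousOn c (Icc t1 t2))
    (hc' : ContinuousOn c' (Icc t1 t2)) (hx : ∀ t ∈ Icc t1 t2, x (c t) = t ∧ x (c' t) = t)
    (h1 : c t1 = ζ) (h1' : c' t1 = ζ') :
    ∃ δ : ℝ, 0 < δ ∧ ∀ t ∈ Ioo t1 (t1 + δ), t < t2 →
      ∀ v' w', GapP x y K H v' (c t) w' → GapP x y K H v' (c' t) w' := by
  obtain ⟨g1, g2, gv, gw, γ, γc, γx, γv, γp, γw, γK⟩ := h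
  obtain ⟨g1', g2', _, _, γ', γc', γx', γv', γp', γw', γK'⟩ := h'
  have hvw : y v ≤ y w := (g1.trans g2).le
  have xv : x v = x ζ := by
    rw [← γv]
    exact (γx _ (left_mem_Icc.2 hvw)).1
  have xv' : x v = x ζ' := by
    rw [← γv']
    exact (γx' _ (left_mem_Icc.2 hvw)).1
  have hxt : x ζ = t1 := by
    rw [← h1]
    exact (hx t1 (left_mem_Icc.2 ht.le)).1
  -- the two vertical lifts agree
  have hEq : EqOn γ γ' (Icc (y v) (y w)) := by
    refine sec_unique (fun ζ => (x ζ, y ζ)) hV.loc _ isPreconnected_Icc γ γ' γc γc' ?_ (y v)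
      (left_mem_Icc.2 hvw) (γv.trans γv'.symm)
    intro u hu
    show (x (γ u), y (γ u)) = (x (γ' u), y (γ' u))
    rw [(γx u hu).1, (γx u hu).2, (γx' u hu).1, (γx' u hu).2, ← xv, xv']
  have hζ' : γ (y ζ') = ζ' := by
    rw [hEq ⟨g1'.le, g2'.le⟩]
    exact γp'
  have hseg : uIcc (y ζ) (y ζ') ⊆ Ioo (y v) (y w) := by
    intro u hu
    rw [mem_uIcc] at hu
    rcases hu with hu | hu
    · exact ⟨lt_of_lt_of_le g1 hu.1, lt_of_le_of_lt hu.2 g2'⟩
    · exact ⟨lt_of_lt_of_le g1' hu.1, lt_of_le_of_lt hu.2 g2⟩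
  -- the section over a neighbourhood of the segment
  obtain ⟨N, s', hNo, hCN, hs'c, hs'π, hs's, hs'o⟩ := tube (fun ζ => (x ζ, y ζ)) hV.loc
    ({t1} ×ˢ uIcc (y ζ) (y ζ')) (isCompact_singleton.prod isCompact_uIcc) (fun z => γ z.2)
    (γc.comp continuousOn_snd fun z hz => Ioo_subset_Icc_self (hseg hz.2))
    (fun z hz => by
      have h3 := γx z.2 (Ioo_subset_Icc_self (hseg hz.2))
      have h4 : z.1 = t1 := hz.1
      show (x (γ z.2), y (γ z.2)) = z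
      rw [h3.1, h3.2, hxt, ← h4])
  obtain ⟨N1, hN1⟩ : ∃ N1, N1 = N ∩ s' ⁻¹' (K \ H) := ⟨_, rfl⟩
  have hN1o : IsOpen N1 := by
    rw [hN1]
    exact hs'c.isOpen_inter_preimage hNo hV.op
  have hN1N : N1 ⊆ N := by
    rw [hN1]
    exact inter_subset_left
  have hCN1 : ({t1} ×ˢ uIcc (y ζ) (y ζ') : Set (ℝ × ℝ)) ⊆ N1 := by
    intro z hz
    rw [hN1]
    refine ⟨hCN hz, ?_⟩
    show s' z ∈ K \ H
    rw [hs's z hz]
    exact γK _ (hseg hz.2)
  obtain ⟨A, V, hAo, hVo, hA, hVs, hAV⟩ := generalized_tube_lemma isCompact_singleton isCompact_uIcc hN1o hCN1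
  have htA : t1 ∈ A := hA rfl
  -- an interval around the segment
  obtain ⟨ε, hε, hεV⟩ : ∃ ε : ℝ, 0 < ε ∧ Ioo (min (y ζ) (y ζ') - ε) (max (y ζ) (y ζ') + ε) ⊆ V := by
    have hm : min (y ζ) (y ζ') ∈ V := hVs (left_mem_Icc.2 min_le_max)
    have hM : max (y ζ) (y ζ') ∈ V := hVs (right_mem_Icc.2 min_le_max)
    obtain ⟨ε1, hε1, hb1⟩ := Metric.isOpen_iff.1 hVo _ hm
    obtain ⟨ε2, hε2, hb2⟩ := Metric.isOpen_iff.1 hVo _ hM
    refine ⟨min ε1 ε2, lt_min hε1 hε2, fun r hr => ?_⟩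
    have hr1 := hr.1
    have hr2 := hr.2
    have e1 := min_le_left ε1 ε2
    have e2 := min_le_right ε1 ε2
    by_cases hrm : r < min (y ζ) (y ζ')
    · refine hb1 ?_
      rw [Metric.mem_ball, Real.dist_eq, abs_lt]
      constructor <;> linarith
    · by_cases hrM : max (y ζ) (y ζ') < r
      · refine hb2 ?_
        rw [Metric.mem_ball, Real.dist_eq, abs_lt]
        constructor <;> linarith
      · exact hVs ⟨not_lt.1 hrm, not_lt.1 hrM⟩
  have hyc : Continuous y := (continuous_snd.comp hV.loc.continuous)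
  have hO : IsOpen (s' '' N1) := hs'o N1 hN1N hN1o
  have hζO : ζ ∈ s' '' N1 := by
    refine ⟨(t1, y ζ), hCN1 ⟨rfl, left_mem_uIcc⟩, ?_⟩
    rw [hs's (t1, y ζ) ⟨rfl, left_mem_uIcc⟩]
    exact γp
  have hζO' : ζ' ∈ s' '' N1 := by
    refine ⟨(t1, y ζ'), hCN1 ⟨rfl, right_mem_uIcc⟩, ?_⟩
    rw [hs's (t1, y ζ') ⟨rfl, right_mem_uIcc⟩]
    exact hζ'
  -- the curves near `t1`
  have hnear : ∀ (d : ℝ → X) (η : X), ContinuousOn d (Icc t1 t2) → d t1 = η → η ∈ s' '' N1 →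
      (y η = y ζ ∨ y η = y ζ') → ∀ᶠ t in nhdsWithin t1 (Icc t1 t2),
        d t ∈ s' '' N1 ∧ y (d t) ∈ Ioo (min (y ζ) (y ζ') - ε) (max (y ζ) (y ζ') + ε) := by
    intro d η hd hd1 hη hy
    have h3 : s' '' N1 ∩ y ⁻¹' (Ioo (min (y ζ) (y ζ') - ε) (max (y ζ) (y ζ') + ε)) ∈ nhds (d t1) := by
      refine (hO.inter (isOpen_Ioo.preimage hyc)).mem_nhds ?_
      rw [hd1]
      refine ⟨hη, ?_⟩
      show y η ∈ Ioo _ _
      have e1 := min_le_left (y ζ) (y ζ')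
      have e2 := min_le_right (y ζ) (y ζ')
      have e3 := le_max_left (y ζ) (y ζ')
      have e4 := le_max_right (y ζ) (y ζ')
      rcases hy with h4 | h4
      · rw [h4]
        constructor <;> linarith
      · rw [h4]
        constructor <;> linarith
    exact (hd t1 (left_mem_Icc.2 ht.le)) h3
  have hev := ((hnear c ζ hc h1 hζO (Or.inl rfl)).and (hnear c' ζ' hc' h1' hζO' (Or.inr rfl))).and
    (mem_nhdsWithin_of_mem_nhds (hAo.mem_nhds htA))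
  rw [eventually_nhdsWithin_iff, Metric.eventually_nhds_iff] at hev
  obtain ⟨δ, hδ, hδ'⟩ := hev
  refine ⟨δ, hδ, ?_⟩
  intro t htδ htt2 v' w' hgap
  have htI : t ∈ Icc t1 t2 := ⟨htδ.1.le, htt2.le⟩
  have hdist : dist t t1 < δ := by
    rw [Real.dist_eq, abs_lt]
    constructor
    · linarith [htδ.1]
    · linarith [htδ.2]
  obtain ⟨⟨⟨hcO, hcy⟩, ⟨hcO', hcy'⟩⟩, htA'⟩ := hδ' hdist htI
  have hxc := (hx t htI).1
  have hxc' := (hx t htI).2
  have hsc : s' (t, y (c t)) = c t := by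
    obtain ⟨z, hz, hzc⟩ := hcO
    have h3 : (x (s' z), y (s' z)) = z := hs'π z (hN1N hz)
    rw [hzc, hxc] at h3
    rw [h3]
    exact hzc
  have hsc' : s' (t, y (c' t)) = c' t := by
    obtain ⟨z, hz, hzc⟩ := hcO'
    have h3 : (x (s' z), y (s' z)) = z := hs'π z (hN1N hz)
    rw [hzc, hxc'] at h3
    rw [h3]
    exact hzc
  have hsegN : ∀ r ∈ uIcc (y (c t)) (y (c' t)), (t, r) ∈ N1 := by
    intro r hr
    refine hAV ⟨htA', hεV ?_⟩
    rw [mem_uIcc] at hr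
    rcases hr with hr | hr
    · exact ⟨lt_of_lt_of_le hcy.1 hr.1, lt_of_le_of_lt hr.2 hcy'.2⟩
    · exact ⟨lt_of_lt_of_le hcy'.1 hr.1, lt_of_le_of_lt hr.2 hcy.2⟩
  obtain ⟨k1, k2, kv, kw, ξ, ξc, ξx, ξv, ξp, ξw, ξK⟩ := hgap
  have hEq2 : EqOn ξ (fun r => s' (t, r)) (Icc (y v') (y w') ∩ uIcc (y (c t)) (y (c' t))) := by
    refine sec_unique (fun ζ => (x ζ, y ζ)) hV.loc _ ?_ _ _ (ξc.mono inter_subset_left) ?_ ?_ (y (c t))
      ⟨⟨k1.le, k2.le⟩, left_mem_uIcc⟩ ?_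
    · exact (ordConnected_Icc.inter ordConnected_uIcc).isPreconnected
    · refine hs'c.comp (by fun_prop) fun r hr => hN1N (hsegN r hr.2)
    · intro r hr
      have h3 := hs'π (t, r) (hN1N (hsegN r hr.2))
      show (x (ξ r), y (ξ r)) = (x (s' (t, r)), y (s' (t, r)))
      rw [(ξx r hr.1).1, (ξx r hr.1).2, hxc]
      exact h3.symm
    · show ξ (y (c t)) = s' (t, y (c t))
      rw [hsc, ξp]
  have hK : ∀ r ∈ uIcc (y (c t)) (y (c' t)), s' (t, r) ∈ K \ H := by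
    intro r hr
    have h3 := hsegN r hr
    rw [hN1] at h3
    exact h3.2
  have hlow : y v' < y (c' t) := by
    by_contra hcon
    push Not at hcon
    have hr : y v' ∈ uIcc (y (c t)) (y (c' t)) := mem_uIcc.2 (Or.inr ⟨hcon, k1.le⟩)
    have h3 := hEq2 ⟨left_mem_Icc.2 (k1.trans k2).le, hr⟩
    simp only [ξv] at h3
    exact (hK _ hr).2 (h3 ▸ kv)
  have hupp : y (c' t) < y w' := by
    by_contra hcon
    push Not at hcon
    have hr : y w' ∈ uIcc (y (c t)) (y (c' t)) := mem_uIcc.2 (Or.inl ⟨k2.le, hcon⟩)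
    have h3 := hEq2 ⟨right_mem_Icc.2 (k1.trans k2).le, hr⟩
    simp only [ξw] at h3
    exact (hK _ hr).2 (h3 ▸ kw)
  have hξ' : ξ (y (c' t)) = c' t := by
    have h3 := hEq2 ⟨⟨hlow.le, hupp.le⟩, right_mem_uIcc⟩
    simp only [hsc'] at h3
    exact h3
  refine ⟨hlow, hupp, kv, kw, ξ, ξc, fun u hu => ?_, ξv, hξ', ξw, ξK⟩
  rw [hxc', ← hxc]
  exact ξx u hu

end D4Q
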