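import Mathlib
import Pool.Agent.D4Q.VD
import Pool.Agent.D4Q.VtGap

/-!
# D4Q-VtHR: the obstacles of a set of surfaces

`HR` is closed (finite union of compact arcs and `B`), contained in `K`, `K ∖ HR` is open (`K ∖ B` open minus compact sets), fibres finite (each arc has one point over `t`), `Sp` finite (`crf`: the crossings are finitely many).
`LocSec`: `v ∈ HR ∖ SpR`: if `v ∈ B` then `v ∉ crit` and `v` is not on any arc (`αK`), the arcs are closed, so near `v` `HR = B`. Otherwise `v` is on exactly one arc `l` with `σ l ∈ R` (else it is a crossing), at an interior `t`, not in `B`; near `v` the set `HR` is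
the image of `α l` near `t` (the other arcs and the rest of this arc are compact sets not containing `v`; `x (α l t') = t'`).
`off_good`: `pt p ∉ HR` (off `R`) implies `GoodPt`: `gap_exists`; the ends have the same `x` as `pt p`, but no special point has: `crit`: `Pc`; endpoints are points `pt p'`: `xP` gives `p' = p`, but then `pt p` is on an arc of `R`; crossings: `Px`.
-/

namespace D4Q

open Set

private theorem VtHR_arc {X : Type} [TopologicalSpace X] [T2Space X] {x y : X → ℝ} {K B crit : Set X}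
    {I Λ P : Type} {σ : Λ → I} {a b : Λ → ℝ} {α : Λ → ℝ → X} {pt : P → X}
    (hD : VDat x y K B crit σ a b α pt) (l : Λ) : IsClosed (α l '' Icc (a l) (b l)) :=
  (isCompact_Icc.image_of_continuousOn (hD.cα l)).isClosed

private theorem VtHR_union {X : Type} [TopologicalSpace X] [T2Space X] {x y : X → ℝ} {K B crit : Set X}
    {I Λ P : Type} [Finite Λ] {σ : Λ → I} {a b : Λ → ℝ} {α : Λ → ℝ → X} {pt : P → X}
    (hD : VDat x y K B crit σ a b α pt) (S : Set Λ) : IsClosed (⋃ l ∈ S, α l '' Icc (a l) (b l)) :=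
  S.toFinite.isClosed_biUnion fun l _ => VtHR_arc hD l

private theorem VtHR_eq {X I Λ : Type} (B : Set X) (σ : Λ → I) (a b : Λ → ℝ) (α : Λ → ℝ → X) (R : Set I) :
    HR B σ a b α R = B ∪ ⋃ l ∈ {l | σ l ∈ R}, α l '' Icc (a l) (b l) := by
  ext v
  unfold HR
  constructor
  · rintro (h | ⟨l, hl, t, ht, rfl⟩)
    · exact Or.inl h
    · exact Or.inr (mem_biUnion (show l ∈ {l | σ l ∈ R} from hl) ⟨t, ht, rfl⟩)
  · rintro (h | h)
    · exact Or.inl h
    · rw [mem_iUnion₂] at h
      obtain ⟨l, hl, t, ht, rfl⟩ := h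
      exact Or.inr ⟨l, hl, t, ht, rfl⟩

theorem hr_vs {X : Type} [TopologicalSpace X] [T2Space X] (x y : X → ℝ) (K B crit : Set X)
    {I Λ P : Type} [Finite Λ] (σ : Λ → I) (a b : Λ → ℝ) (α : Λ → ℝ → X) (pt : P → X)
    (hD : VDat x y K B crit σ a b α pt) (R : Set I) :
    VS x y K (HR B σ a b α R) (SpR crit σ a b α R) := by
  refine ⟨hD.loc, hD.cK, ?_, ?_, ?_, ?_, ?_, ?_⟩
  · rw [VtHR_eq]
    exact hD.cB.union (VtHR_union hD _)
  · rintro v (h | ⟨l, hl, t, ht, rfl⟩)
    · exact hD.BK h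
    · exact (hD.αK l t ht).1
  · rw [VtHR_eq, ← sdiff_sdiff]
    exact hD.op.sdiff (VtHR_union hD _)
  · refine (hD.fcrit.union ?_).union ?_
    · refine ((finite_range fun l => α l (a l)).union (finite_range fun l => α l (b l))).subset ?_
      rintro v ⟨l, -, h | h⟩
      · exact Or.inl ⟨l, h.symm⟩
      · exact Or.inr ⟨l, h.symm⟩
    · refine (hD.crf.image fun z => α z.1 z.2.2).subset ?_
      rintro v ⟨l, l', hll, -, -, t, ht, ht', h, h'⟩
      exact ⟨(l, l', t), ⟨hll, ht, ht', h.trans h'.symm⟩, h⟩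
  · intro v hv hvS
    by_cases hB : v ∈ B
    · obtain ⟨ε, hε, κ, hκ, hκv, hκx, U, hU, hUB⟩ := hD.Bloc v hB fun h => hvS (Or.inl (Or.inl h))
      refine ⟨ε, hε, κ, hκ, hκv, fun t ht => ⟨(hκx t ht).1, Or.inl (hκx t ht).2⟩, ?_⟩
      refine ⟨U ∩ (⋃ l ∈ {l | σ l ∈ R}, α l '' Icc (a l) (b l))ᶜ, Filter.inter_mem hU ?_, ?_⟩
      · refine (VtHR_union hD _).isOpen_compl.mem_nhds ?_
        intro h
        rw [mem_iUnion₂] at h
        obtain ⟨l, -, t, ht, h⟩ := h
        exact (hD.αK l t ht).2 (h ▸ hB)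
      · rintro z ⟨hz, hz'⟩ hzH
        rw [VtHR_eq] at hzH
        rcases hzH with h | h
        · exact hUB z hz h
        · exact absurd h hz'
    · rcases hv with hv | ⟨l, hl, t0, ht0, hv⟩
      · exact absurd hv hB
      have hxv : x v = t0 := by
        rw [← hv]
        exact hD.xα l t0 ht0
      have hta : a l < t0 := by
        refine lt_of_le_of_ne ht0.1 fun h => hvS (Or.inl (Or.inr ⟨l, hl, Or.inl ?_⟩))
        rw [h, hv]
      have htb : t0 < b l := by
        refine lt_of_le_of_ne ht0.2 fun h => hvS (Or.inl (Or.inr ⟨l, hl, Or.inr ?_⟩))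
        rw [← h, hv]
      have hsub : Ioo (x v - min (t0 - a l) (b l - t0)) (x v + min (t0 - a l) (b l - t0)) ⊆ Icc (a l) (b l) := by
        intro t ht
        have h1 := min_le_left (t0 - a l) (b l - t0)
        have h2 := min_le_right (t0 - a l) (b l - t0)
        rw [hxv] at ht
        exact ⟨by linarith [ht.1], by linarith [ht.2]⟩
      refine ⟨min (t0 - a l) (b l - t0), lt_min (by linarith) (by linarith), α l, (hD.cα l).mono hsub, ?_, ?_, ?_⟩
      · rw [hxv, hv]
      · intro t ht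
        exact ⟨hD.xα l t (hsub ht), Or.inr ⟨l, hl, t, hsub ht, rfl⟩⟩
      · refine ⟨(B ∪ ⋃ l' ∈ {l' | l' ≠ l ∧ σ l' ∈ R}, α l' '' Icc (a l') (b l'))ᶜ, ?_, ?_⟩
        · refine (hD.cB.union (VtHR_union hD _)).isOpen_compl.mem_nhds ?_
          rintro (h | h)
          · exact hB h
          · rw [mem_iUnion₂] at h
            obtain ⟨l', ⟨hll, hl'⟩, t', ht', h⟩ := h
            have hxt : t' = t0 := by
              rw [← hxv, ← h]
              exact (hD.xα l' t' ht').symm
            rw [hxt] at ht' h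
            exact hvS (Or.inr ⟨l', l, hll, hl', hl, t0, ht', ht0, h, hv⟩)
        · intro z hz hzH
          rcases hzH with h | ⟨l', hl', t', ht', h⟩
          · exact absurd (Or.inl h) hz
          · by_cases hll : l' = l
            · subst hll
              rw [← h, hD.xα l' t' ht']
            · exfalso
              apply hz
              right
              exact mem_biUnion (show l' ∈ {l' | l' ≠ l ∧ σ l' ∈ R} from ⟨hll, hl'⟩) ⟨t', ht', h⟩
  · intro t
    refine ((hD.Bfin t).union (finite_range fun l => α l t)).subset ?_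
    rintro v ⟨h | ⟨l, hl, t', ht', h⟩, hx⟩
    · exact Or.inl ⟨h, hx⟩
    · right
      refine ⟨l, ?_⟩
      have hxt : t' = t := by
        rw [← hx, ← h]
        exact (hD.xα l t' ht').symm
      rw [← hxt]
      exact h

theorem off_good {X : Type} [TopologicalSpace X] [T2Space X] (x y : X → ℝ) (K B crit : Set X)
    {I Λ P : Type} [Finite Λ] (σ : Λ → I) (a b : Λ → ℝ) (α : Λ → ℝ → X) (pt : P → X)
    (hD : VDat x y K B crit σ a b α pt) (R : Set I) (p : P) (hp : pt p ∉ HR B σ a b α R) :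
    (∀ v ∈ SpR crit σ a b α R, x v ≠ x (pt p)) ∧
      GoodPt x y K (HR B σ a b α R) (SpR crit σ a b α R) (pt p) := by
  have h1 : ∀ v ∈ SpR crit σ a b α R, x v ≠ x (pt p) := by
    rintro v ((h | ⟨l, hl, h⟩) | ⟨l, l', hll, hl, hl', t, ht, ht', h, h'⟩) hx
    · exact hD.Pc p v h hx
    · rcases h with h | h
      · obtain ⟨p', hp'⟩ := (hD.ends l).1
        have h2 : p' = p := hD.xP p' p (by rw [hp', ← h, hx])
        rw [h2] at hp'
        exact hp (Or.inr ⟨l, hl, a l, ⟨le_rfl, (hD.hab l).le⟩, hp'.symm⟩)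
      · obtain ⟨p', hp'⟩ := (hD.ends l).2
        have h2 : p' = p := hD.xP p' p (by rw [hp', ← h, hx])
        rw [h2] at hp'
        exact hp (Or.inr ⟨l, hl, b l, ⟨(hD.hab l).le, le_rfl⟩, hp'.symm⟩)
    · have h2 : x v = t := by
        rw [← h]
        exact hD.xα l t ht
      have h3 := hD.Px p l l' t hll ht ht' (h.trans h'.symm) (h2.symm.trans hx)
      exact hp (Or.inr ⟨l, hl, t, ht, h3.symm⟩)
  refine ⟨h1, ?_⟩
  have hpK : pt p ∈ K \ HR B σ a b α R := ⟨(hD.ptK p).1, hp⟩
  obtain ⟨v, w, hG⟩ := gap_exists x y K (HR B σ a b α R) (SpR crit σ a b α R)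
    (hr_vs x y K B crit σ a b α pt hD R) (pt p) hpK
  refine ⟨v, w, hG, ?_, ?_⟩
  · obtain ⟨hv, hw, -, -, γ, -, hγ, hγv, -, hγw, -⟩ := hG
    intro h
    refine h1 v h ?_
    have h2 := (hγ (y v) ⟨le_rfl, (hv.trans hw).le⟩).1
    rw [hγv] at h2
    exact h2
  · obtain ⟨hv, hw, -, -, γ, -, hγ, hγv, -, hγw, -⟩ := hG
    intro h
    refine h1 w h ?_
    have h2 := (hγ (y w) ⟨(hv.trans hw).le, le_rfl⟩).1
    rw [hγw] at h2
    exact h2

end D4Q
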