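import Mathlib
import Pool.Agent.D4Q.VD

/-!
# D4Q-VtSp: counting special points

`sp_two`: let `v ∈ SpR R`. If `v ∈ crit` no `i` counts. If three different surfaces of `R` had an arc through `v`, no `i` counts (two remain; they give a crossing). If `v` is an endpoint of arcs of two different surfaces of `R`, no `i` counts. In general
only surfaces of `R` having an arc through `v` count, so if there are at most two such surfaces we are done; and if there are at least three then none counts.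
`sp_card`: `crit`; endpoints: at most two for each arc; crossings: `v ↦ (l, l', t)`.
-/

namespace D4Q

open Set

open scoped Classical in
theorem sp_two {X I Λ : Type} (crit : Set X) (σ : Λ → I) (a b : Λ → ℝ) (x : X → ℝ)
    (α : Λ → ℝ → X) (xα : ∀ l, ∀ t ∈ Icc (a l) (b l), x (α l t) = t) (hab : ∀ l, a l < b l)
    (R : Finset I) (v : X) (hv : v ∈ SpR crit σ a b α (R : Set I)) :
    (R.filter fun i => v ∉ SpR crit σ a b α ((R.erase i : Finset I) : Set I)).card ≤ 2 := by
  have hmem : ∀ i j : I, j ∈ (R : Set I) → j ≠ i → j ∈ ((R.erase i : Finset I) : Set I) :=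
    fun i j hj hne => Finset.mem_coe.2 (Finset.mem_erase.2 ⟨hne, Finset.mem_coe.1 hj⟩)
  rcases hv with (hv | ⟨l, hl, hv⟩) | ⟨l, l', hll, hl, hl', hv⟩
  · rw [Finset.filter_eq_empty_iff.2 fun i _ h => h (Or.inl (Or.inl hv)), Finset.card_empty]
    exact Nat.zero_le _
  · refine (Finset.card_le_card (t := {σ l}) fun i hi => ?_).trans
      ((Finset.card_singleton _).trans_le one_le_two)
    rw [Finset.mem_singleton]
    by_contra hne
    exact (Finset.mem_filter.1 hi).2 (Or.inl (Or.inr ⟨l, hmem _ _ hl (Ne.symm hne), hv⟩))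
  · refine (Finset.card_le_card (t := {σ l, σ l'}) fun i hi => ?_).trans Finset.card_le_two
    rw [Finset.mem_insert, Finset.mem_singleton]
    by_contra hne
    push Not at hne
    exact (Finset.mem_filter.1 hi).2 (Or.inr ⟨l, l', hll, hmem _ _ hl (Ne.symm hne.1),
      hmem _ _ hl' (Ne.symm hne.2), hv⟩)

open scoped Classical in
theorem sp_card {X I Λ : Type} [Fintype I] [Fintype Λ] (crit : Finset X) (σ : Λ → I) (a b : Λ → ℝ)
    (α : Λ → ℝ → X) (cr : I → I → ℕ)
    (hcr : ∀ i j, {z : Λ × Λ × ℝ | σ z.1 = i ∧ σ z.2.1 = j ∧ z.1 ≠ z.2.1 ∧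
      z.2.2 ∈ Icc (a z.1) (b z.1) ∧ z.2.2 ∈ Icc (a z.2.1) (b z.2.1) ∧
      α z.1 z.2.2 = α z.2.1 z.2.2}.encard ≤ cr i j) (R : Finset I) :
    (SpR (crit : Set X) σ a b α (R : Set I)).encard ≤
      ((2 * ∑ i ∈ R, ((Finset.univ.filter fun l => σ l = i).card + cr i i) +
          ∑ i ∈ R, ∑ j ∈ R.erase i, cr i j + crit.card : ℕ) : ℕ∞) := by
  set Z : I → I → Set (Λ × Λ × ℝ) := fun i j => {z : Λ × Λ × ℝ | σ z.1 = i ∧ σ z.2.1 = j ∧ z.1 ≠ z.2.1 ∧
      z.2.2 ∈ Icc (a z.1) (b z.1) ∧ z.2.2 ∈ Icc (a z.2.1) (b z.2.1) ∧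
      α z.1 z.2.2 = α z.2.1 z.2.2} with hZ
  set F : I → Finset Λ := fun i => Finset.univ.filter fun l => σ l = i with hF
  -- the end points
  set En : I → Set X := fun i => ((F i).image (fun l => α l (a l)) ∪ (F i).image (fun l => α l (b l)) : Finset X) with hEn
  have hEc : ∀ i, (En i).encard ≤ ((2 * (F i).card : ℕ) : ℕ∞) := by
    intro i
    rw [hEn, Set.encard_coe_eq_coe_finsetCard, Nat.cast_le]
    refine (Finset.card_union_le _ _).trans ?_
    rw [two_mul]
    exact add_le_add Finset.card_image_le Finset.card_image_le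
  have hsub : SpR (crit : Set X) σ a b α (R : Set I) ⊆ ((crit : Set X) ∪ ⋃ i ∈ R, En i) ∪
      ⋃ i ∈ R, ⋃ j ∈ R, (fun z : Λ × Λ × ℝ => α z.1 z.2.2) '' Z i j := by
    rintro v ((hv | ⟨l, hl, hv⟩) | ⟨l, l', hll, hl, hl', t, ht, ht', hv, hv'⟩)
    · exact Or.inl (Or.inl hv)
    · left
      right
      rw [Set.mem_iUnion₂]
      refine ⟨σ l, hl, ?_⟩
      rw [hEn, Finset.mem_coe, Finset.mem_union, Finset.mem_image, Finset.mem_image]
      have hlF : l ∈ F (σ l) := Finset.mem_filter.2 ⟨Finset.mem_univ _, rfl⟩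
      rcases hv with rfl | rfl
      · exact Or.inl ⟨l, hlF, rfl⟩
      · exact Or.inr ⟨l, hlF, rfl⟩
    · right
      rw [Set.mem_iUnion₂]
      refine ⟨σ l, hl, ?_⟩
      rw [Set.mem_iUnion₂]
      exact ⟨σ l', hl', (l, l', t), ⟨rfl, rfl, hll, ht, ht', hv.trans hv'.symm⟩, hv⟩
  have h1 : (⋃ i ∈ R, En i).encard ≤ ((∑ i ∈ R, 2 * (F i).card : ℕ) : ℕ∞) := by
    refine (R.set_encard_biUnion_le En).trans ?_
    rw [Nat.cast_sum]
    exact Finset.sum_le_sum fun i _ => hEc i
  have h2 : (⋃ i ∈ R, ⋃ j ∈ R, (fun z : Λ × Λ × ℝ => α z.1 z.2.2) '' Z i j).encard ≤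
      ((∑ i ∈ R, ∑ j ∈ R, cr i j : ℕ) : ℕ∞) := by
    refine (R.set_encard_biUnion_le _).trans ?_
    rw [Nat.cast_sum]
    refine Finset.sum_le_sum fun i _ => ?_
    refine (R.set_encard_biUnion_le _).trans ?_
    rw [Nat.cast_sum]
    exact Finset.sum_le_sum fun j _ => (Set.encard_image_le _ _).trans (hcr i j)
  have h3 : ∑ i ∈ R, ∑ j ∈ R, cr i j = ∑ i ∈ R, cr i i + ∑ i ∈ R, ∑ j ∈ R.erase i, cr i j := by
    rw [← Finset.sum_add_distrib]
    refine Finset.sum_congr rfl fun i hi => ?_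
    rw [Finset.add_sum_erase R (fun j => cr i j) hi]
  refine (Set.encard_le_encard hsub).trans ((Set.encard_union_le _ _).trans
    ((add_le_add ((Set.encard_union_le _ _).trans (add_le_add
      (Set.encard_coe_eq_coe_finsetCard crit).le h1)) h2).trans ?_))
  rw [← Nat.cast_add, ← Nat.cast_add, Nat.cast_le, h3, ← Finset.mul_sum, Finset.sum_add_distrib]
  simp only [hF]
  have h4 : 0 ≤ ∑ i ∈ R, cr i i := Nat.zero_le _
  omega

end D4Q
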