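import Mathlib
import Pool.Agent.D4Q.VD
import Pool.Agent.D4Q.VtUniq

/-!
# D4Q-VtVis: at most one surface is seen first

The vertical lifts upwards from `v` in the two gaps agree where both are defined (`sec_unique`). If `y ζ1 ≤ y ζ2` then `ζ1` is in the open part of the second gap, so `ζ1 ∉ H2`, contradicting `ζ1 ∈ A1 ⊆ H2`; otherwise
`ζ2` is in the open part of the first gap. The second statement is the same downwards.
-/

namespace D4Q

open Set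

theorem vis_up {X : Type} [TopologicalSpace X] [T2Space X] (x y : X → ℝ) (K H1 H2 A1 A2 : Set X)
    (hloc : IsLocalHomeomorph (fun ζ => (x ζ, y ζ))) (h21 : A2 ⊆ H1) (h12 : A1 ⊆ H2)
    (v ζ1 w1 ζ2 w2 : X) (h1 : GapP x y K H1 v ζ1 w1) (hA1 : ζ1 ∈ A1)
    (h2 : GapP x y K H2 v ζ2 w2) (hA2 : ζ2 ∈ A2) : False := by
  obtain ⟨a1, a2, -, -, γ1, c1, e1, b1, m1, -, o1⟩ := h1
  obtain ⟨d1, d2, -, -, γ2, c2, e2, b2, m2, -, o2⟩ := h2
  have hx1 : x ζ1 = x v := by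
    rw [← (e1 (y v) ⟨le_rfl, by linarith⟩).1, b1]
  have hx2 : x ζ2 = x v := by
    rw [← (e2 (y v) ⟨le_rfl, by linarith⟩).1, b2]
  have key : EqOn γ1 γ2 (Icc (y v) (min (y w1) (y w2))) := by
    refine sec_unique (fun ζ => (x ζ, y ζ)) hloc _ isPreconnected_Icc γ1 γ2
      (c1.mono (Icc_subset_Icc_right (min_le_left _ _))) (c2.mono (Icc_subset_Icc_right (min_le_right _ _)))
      (fun u hu => ?_) (y v) ⟨le_rfl, le_min (by linarith) (by linarith)⟩ (by rw [b1, b2])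
    have g1 := e1 u ⟨hu.1, hu.2.trans (min_le_left _ _)⟩
    have g2 := e2 u ⟨hu.1, hu.2.trans (min_le_right _ _)⟩
    show (x (γ1 u), y (γ1 u)) = (x (γ2 u), y (γ2 u))
    rw [g1.1, g1.2, g2.1, g2.2, hx1, hx2]
  rcases le_or_gt (y ζ1) (y ζ2) with h | h
  · have h3 := key ⟨a1.le, le_min a2.le (by linarith)⟩
    have h4 := o2 (y ζ1) ⟨a1, by linarith⟩
    rw [← h3, m1] at h4
    exact h4.2 (h12 hA1)
  · have h3 := key ⟨d1.le, le_min (by linarith) d2.le⟩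
    have h4 := o1 (y ζ2) ⟨d1, by linarith⟩
    rw [h3, m2] at h4
    exact h4.2 (h21 hA2)

theorem vis_down {X : Type} [TopologicalSpace X] [T2Space X] (x y : X → ℝ) (K H1 H2 A1 A2 : Set X)
    (hloc : IsLocalHomeomorph (fun ζ => (x ζ, y ζ))) (h21 : A2 ⊆ H1) (h12 : A1 ⊆ H2)
    (v ζ1 w1 ζ2 w2 : X) (h1 : GapP x y K H1 w1 ζ1 v) (hA1 : ζ1 ∈ A1)
    (h2 : GapP x y K H2 w2 ζ2 v) (hA2 : ζ2 ∈ A2) : False := by
  obtain ⟨a1, a2, -, -, γ1, c1, e1, -, m1, b1, o1⟩ := h1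
  obtain ⟨d1, d2, -, -, γ2, c2, e2, -, m2, b2, o2⟩ := h2
  have hx1 : x ζ1 = x v := by
    rw [← (e1 (y v) ⟨by linarith, le_rfl⟩).1, b1]
  have hx2 : x ζ2 = x v := by
    rw [← (e2 (y v) ⟨by linarith, le_rfl⟩).1, b2]
  have key : EqOn γ1 γ2 (Icc (max (y w1) (y w2)) (y v)) := by
    refine sec_unique (fun ζ => (x ζ, y ζ)) hloc _ isPreconnected_Icc γ1 γ2
      (c1.mono (Icc_subset_Icc_left (le_max_left _ _))) (c2.mono (Icc_subset_Icc_left (le_max_right _ _)))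
      (fun u hu => ?_) (y v) ⟨max_le (by linarith) (by linarith), le_rfl⟩ (by rw [b1, b2])
    have g1 := e1 u ⟨(le_max_left _ _).trans hu.1, hu.2⟩
    have g2 := e2 u ⟨(le_max_right _ _).trans hu.1, hu.2⟩
    show (x (γ1 u), y (γ1 u)) = (x (γ2 u), y (γ2 u))
    rw [g1.1, g1.2, g2.1, g2.2, hx1, hx2]
  rcases le_or_gt (y ζ2) (y ζ1) with h | h
  · have h3 := key ⟨max_le a1.le (by linarith), a2.le⟩
    have h4 := o2 (y ζ1) ⟨by linarith, a2⟩
    rw [← h3, m1] at h4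
    exact h4.2 (h12 hA1)
  · have h3 := key ⟨max_le (by linarith) d1.le, d2.le⟩
    have h4 := o1 (y ζ2) ⟨by linarith, d2⟩
    rw [h3, m2] at h4
    exact h4.2 (h21 hA2)

end D4Q
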