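import Mathlib
import Pool.Agent.D4Q.VD
import Pool.Agent.D4Q.VtGap
import Pool.Agent.D4Q.VtVis
import Pool.Agent.D4Q.VtHR
import Pool.Agent.D4Q.VtSp
import Pool.Agent.D4Q.VtExit

/-!
# D4Q-VtV2: the number of classes visited by a surface

Notation: `H = HR R`, `Sp = SpR R`, `i ∉ R`, `wU R i` = set of the `v ∈ Sp` such that the open gap of `H` above `v` meets the arcs of `i` (`∃ ζ w, GapP v ζ w`, `ζ` on an arc of `i`), `wD R i` similarly below.
PROOF of `vt_two`. For a class `Z` (value of `cls` at some `pt p`, `p` off `R`, on an arc of `i`) choose the `p` with smallest `x (pt p)` and an arc `l` of `i` through it, `x (pt p) = t0`; `exit_left` for `c = α l` on `[a l, t0]`. First alternative: the endpoint `α l (a l) = pt p0` is in the class, is off `R`, so `p0 = p` by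
minimality and `xP`; charge `Z` to `l` (then `Z = cls (α l (a l))`: injective). Second alternative with `c t1 ∈ H`: as arcs avoid `B`, `α l t1` is on an arc `l'` of `R`: charge to `(l, l', t1)` for some such `l'`; `Z` is determined by `(l, t1)`: it is the class of `α l t` for all `t > t1` close to `t1`. Otherwise
one of the ends of the gap of `α l t1` is a special point `v`: charge to `(v, up)` if it is the lower end (then `v ∈ wU`), else to `(v, down)`. Injectivity: two classes charged to `(v, up)` via `α l t1`, `α l' t1`: both points are in the same gap (`gap_lower`; both have the lower end `v`), by `same_gap_near` for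
`t > t1` close to `t1` `α l t`, `α l' t` are in the same gap, so the same class. So the number of classes is at most `#arcs of i + ∑_{j ∈ R} cr i j + |wU| + |wD|`. (`t1 < t0 ≤ b l`.)
PROOF of `vt_w`. `v ∈ wU (R.erase i) i` implies `v ∈ SpR R` (monotone). For fixed `v` there is at most one `i ∈ R` with `v ∈ wU (R.erase i) i` (`vis_up` with `A1`, `A2` the arcs of `i`, `j`), the same for `wD`. So the sum is at most `2 |SpR R|`: `sp_card`.
-/

namespace D4Q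

open Set

/-- Special points from which the surface `i` is seen upwards. -/
def wU {X I Λ : Type} [TopologicalSpace X] (x y : X → ℝ) (K B crit : Set X) (σ : Λ → I)
    (a b : Λ → ℝ) (α : Λ → ℝ → X) (R : Set I) (i : I) : Set X :=
  {v | v ∈ SpR crit σ a b α R ∧ ∃ ζ w, GapP x y K (HR B σ a b α R) v ζ w ∧
    ∃ l, σ l = i ∧ ∃ t ∈ Icc (a l) (b l), α l t = ζ}

/-- Special points from which the surface `i` is seen downwards. -/
def wD {X I Λ : Type} [TopologicalSpace X] (x y : X → ℝ) (K B crit : Set X) (σ : Λ → I)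
    (a b : Λ → ℝ) (α : Λ → ℝ → X) (R : Set I) (i : I) : Set X :=
  {v | v ∈ SpR crit σ a b α R ∧ ∃ ζ w, GapP x y K (HR B σ a b α R) w ζ v ∧
    ∃ l, σ l = i ∧ ∃ t ∈ Icc (a l) (b l), α l t = ζ}

/-- the class of a point whose gap is known -/
private theorem VtV2_cls {X : Type} [TopologicalSpace X] [T2Space X] {x y : X → ℝ} {K H Sp : Set X}
    (hloc : IsLocalHomeomorph (fun ζ => (x ζ, y ζ))) {v w ζ : X} (h : GapP x y K H v ζ w)
    (hv : v ∉ Sp) (hw : w ∉ Sp) : cls x y K H Sp ζ = connectedComponentIn (GS x y K H Sp) v := by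
  ext z
  constructor
  · rintro ⟨v', w', h', -, -, hz⟩
    rw [(gap_unique x y K H hloc v w v' w' ζ h h').1]
    exact hz
  · intro hz
    exact ⟨v, w, h, hv, hw, hz⟩

private theorem VtV2_x {X : Type} [TopologicalSpace X] {x y : X → ℝ} {K H : Set X} {v w ζ : X}
    (h : GapP x y K H v ζ w) : x v = x ζ ∧ x w = x ζ := by
  obtain ⟨h1, h2, -, -, γ, -, h3, h4, -, h5, -⟩ := h
  constructor
  · rw [← (h3 (y v) ⟨le_rfl, by linarith⟩).1, h4]
  · rw [← (h3 (y w) ⟨by linarith, le_rfl⟩).1, h5]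

/-- the class of the arc `l` immediately to the right of `t1` is `Z` -/
private def VtV2_rt {X : Type} [TopologicalSpace X] (x y : X → ℝ) (K H Sp : Set X) (c : ℝ → X)
    (t1 t0 : ℝ) (Z : Set X) : Prop :=
  t1 < t0 ∧ ∀ t ∈ Ioc t1 t0, GoodPt x y K H Sp (c t) ∧ cls x y K H Sp (c t) = Z

private theorem VtV2_same {X : Type} [TopologicalSpace X] [T2Space X] {x y : X → ℝ} {K H Sp : Set X}
    (hV : VS x y K H Sp) {v w ζ ζ' : X} (h : GapP x y K H v ζ w) (h' : GapP x y K H v ζ' w)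
    {c c' : ℝ → X} {t1 t0 t0' b0 b0' : ℝ} (hb : t0 ≤ b0) (hb' : t0' ≤ b0')
    (hc : ContinuousOn c (Icc t1 b0)) (hc' : ContinuousOn c' (Icc t1 b0'))
    (hx : ∀ t ∈ Icc t1 b0, x (c t) = t) (hx' : ∀ t ∈ Icc t1 b0', x (c' t) = t)
    (h1 : c t1 = ζ) (h1' : c' t1 = ζ') {Z Z' : Set X} (hZ : VtV2_rt x y K H Sp c t1 t0 Z)
    (hZ' : VtV2_rt x y K H Sp c' t1 t0' Z') : Z = Z' := by
  have ht : t1 < min t0 t0' := lt_min hZ.1 hZ'.1
  have hm : min t0 t0' ≤ b0 := (min_le_left _ _).trans hb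
  have hm' : min t0 t0' ≤ b0' := (min_le_right _ _).trans hb'
  obtain ⟨δ, hδ, hsame⟩ := same_gap_near x y K H Sp hV v w ζ ζ' h h' c c' t1 (min t0 t0') ht
    (hc.mono (Icc_subset_Icc_right hm)) (hc'.mono (Icc_subset_Icc_right hm'))
    (fun t ht => ⟨hx t ⟨ht.1, ht.2.trans hm⟩, hx' t ⟨ht.1, ht.2.trans hm'⟩⟩) h1 h1'
  obtain ⟨t, ht1, ht2⟩ := exists_between (show t1 < min (t1 + δ) (min t0 t0') from lt_min (by linarith) ht)
  have ht3 : t < t1 + δ := lt_of_lt_of_le ht2 (min_le_left _ _)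
  have ht4 : t < min t0 t0' := lt_of_lt_of_le ht2 (min_le_right _ _)
  obtain ⟨⟨v', w', g, gv, gw⟩, e⟩ := hZ.2 t ⟨ht1, (ht4.trans_le (min_le_left _ _)).le⟩
  have g' := hsame t ⟨ht1, ht3⟩ ht4 v' w' g
  have e' := (hZ'.2 t ⟨ht1, (ht4.trans_le (min_le_right _ _)).le⟩).2
  rw [← e, ← e', VtV2_cls hV.loc g gv gw, VtV2_cls hV.loc g' gv gw]

/-- the crossings of the arcs of `i` and `j` -/
private def VtV2_C {X I Λ : Type} (σ : Λ → I) (a b : Λ → ℝ) (α : Λ → ℝ → X) (i j : I) :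
    Set (Λ × Λ × ℝ) :=
  {z | σ z.1 = i ∧ σ z.2.1 = j ∧ z.1 ≠ z.2.1 ∧ z.2.2 ∈ Icc (a z.1) (b z.1) ∧
    z.2.2 ∈ Icc (a z.2.1) (b z.2.1) ∧ α z.1 z.2.2 = α z.2.1 z.2.2}

/-- the charging relation -/
private def VtV2_rel {X : Type} [TopologicalSpace X] (x y : X → ℝ) (K B crit : Set X)
    {I Λ : Type} (σ : Λ → I) (a b : Λ → ℝ) (α : Λ → ℝ → X) (R : Set I) (i : I) (Z : Set X) :
    Λ ⊕ ((Λ × Λ × ℝ) ⊕ (X ⊕ X)) → Prop
  | Sum.inl l => Z = cls x y K (HR B σ a b α R) (SpR crit σ a b α R) (α l (a l))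
  | Sum.inr (Sum.inl z) => ∃ t0, VtV2_rt x y K (HR B σ a b α R) (SpR crit σ a b α R) (α z.1) z.2.2 t0 Z
  | Sum.inr (Sum.inr (Sum.inl v)) => ∃ l t1 t0 w, a l ≤ t1 ∧ t0 ≤ b l ∧
      GapP x y K (HR B σ a b α R) v (α l t1) w ∧
      VtV2_rt x y K (HR B σ a b α R) (SpR crit σ a b α R) (α l) t1 t0 Z
  | Sum.inr (Sum.inr (Sum.inr w)) => ∃ l t1 t0 v, a l ≤ t1 ∧ t0 ≤ b l ∧
      GapP x y K (HR B σ a b α R) v (α l t1) w ∧
      VtV2_rt x y K (HR B σ a b α R) (SpR crit σ a b α R) (α l) t1 t0 Z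

private theorem VtV2_inj {X : Type} [TopologicalSpace X] [T2Space X] {x y : X → ℝ} {K B crit : Set X}
    {I Λ P : Type} [Fintype Λ] {σ : Λ → I} {a b : Λ → ℝ} {α : Λ → ℝ → X} {pt : P → X}
    (hD : VDat x y K B crit σ a b α pt) {R : Set I} {i : I} {Z Z' : Set X}
    {q : Λ ⊕ ((Λ × Λ × ℝ) ⊕ (X ⊕ X))} (h : VtV2_rel x y K B crit σ a b α R i Z q)
    (h' : VtV2_rel x y K B crit σ a b α R i Z' q) : Z = Z' := by
  have hV := hr_vs x y K B crit σ a b α pt hD R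
  rcases q with l | z | v | w
  · exact Eq.trans h (Eq.symm h')
  · obtain ⟨t0, h1, h2⟩ := h
    obtain ⟨t0', h1', h2'⟩ := h'
    obtain ⟨t, ht1, ht2⟩ := exists_between (show z.2.2 < min t0 t0' from lt_min h1 h1')
    rw [← (h2 t ⟨ht1, (ht2.trans_le (min_le_left _ _)).le⟩).2,
      ← (h2' t ⟨ht1, (ht2.trans_le (min_le_right _ _)).le⟩).2]
  · obtain ⟨l, t1, t0, w, ha, hb, hg, hr⟩ := h
    obtain ⟨l', t1', t0', w', ha', hb', hg', hr'⟩ := h'
    have e1 : w = w' := gap_lower x y K _ hV.loc v w w' ⟨_, hg⟩ ⟨_, hg'⟩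
    have x1 : x (α l t1) = t1 := hD.xα l t1 ⟨ha, hr.1.le.trans hb⟩
    have x1' : x (α l' t1') = t1' := hD.xα l' t1' ⟨ha', hr'.1.le.trans hb'⟩
    have e2 : t1 = t1' := by rw [← x1, ← x1', ← (VtV2_x hg).1, ← (VtV2_x hg').1]
    subst e1 e2
    exact VtV2_same hV hg hg' hb hb' ((hD.cα l).mono (Icc_subset_Icc_left ha))
      ((hD.cα l').mono (Icc_subset_Icc_left ha')) (fun t ht => hD.xα l t ⟨ha.trans ht.1, ht.2⟩)
      (fun t ht => hD.xα l' t ⟨ha'.trans ht.1, ht.2⟩) rfl rfl hr hr'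
  · obtain ⟨l, t1, t0, v, ha, hb, hg, hr⟩ := h
    obtain ⟨l', t1', t0', v', ha', hb', hg', hr'⟩ := h'
    have e1 : v = v' := gap_upper x y K _ hV.loc v v' w ⟨_, hg⟩ ⟨_, hg'⟩
    have x1 : x (α l t1) = t1 := hD.xα l t1 ⟨ha, hr.1.le.trans hb⟩
    have x1' : x (α l' t1') = t1' := hD.xα l' t1' ⟨ha', hr'.1.le.trans hb'⟩
    have e2 : t1 = t1' := by rw [← x1, ← x1', ← (VtV2_x hg).2, ← (VtV2_x hg').2]
    subst e1 e2
    exact VtV2_same hV hg hg' hb hb' ((hD.cα l).mono (Icc_subset_Icc_left ha))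
      ((hD.cα l').mono (Icc_subset_Icc_left ha')) (fun t ht => hD.xα l t ⟨ha.trans ht.1, ht.2⟩)
      (fun t ht => hD.xα l' t ⟨ha'.trans ht.1, ht.2⟩) rfl rfl hr hr'

/-- every class is charged -/
private theorem VtV2_ex {X : Type} [TopologicalSpace X] [T2Space X] {x y : X → ℝ} {K B crit : Set X}
    {I Λ P : Type} [Fintype Λ] {σ : Λ → I} {a b : Λ → ℝ} {α : Λ → ℝ → X} {pt : P → X}
    (hD : VDat x y K B crit σ a b α pt) {R : Set I} {i : I} (hi : i ∉ R) {p : P} {l : Λ} {t0 : ℝ}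
    (hl : σ l = i) (ht0 : t0 ∈ Icc (a l) (b l)) (hp : α l t0 = pt p)
    (hoff : ∀ j ∈ R, ¬ ∃ l, σ l = j ∧ ∃ t ∈ Icc (a l) (b l), α l t = pt p) :
    ∃ q : Λ ⊕ ((Λ × Λ × ℝ) ⊕ (X ⊕ X)),
      VtV2_rel x y K B crit σ a b α R i
        (cls x y K (HR B σ a b α R) (SpR crit σ a b α R) (pt p)) q ∧
      ((∃ l, σ l = i ∧ q = Sum.inl l) ∨ (∃ j ∈ R, ∃ z ∈ VtV2_C σ a b α i j, q = Sum.inr (Sum.inl z)) ∨
        (∃ v ∈ wU x y K B crit σ a b α R i, q = Sum.inr (Sum.inr (Sum.inl v))) ∨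
        ∃ v ∈ wD x y K B crit σ a b α R i, q = Sum.inr (Sum.inr (Sum.inr v))) := by
  have hV := hr_vs x y K B crit σ a b α pt hD R
  have hH : pt p ∉ HR B σ a b α R := by
    rintro (h | ⟨l', h1, t, h2, h3⟩)
    · exact (hD.ptK p).2 h
    · exact hoff _ h1 ⟨l', rfl, t, h2, h3⟩
  have hgood := (off_good x y K B crit σ a b α pt hD R p hH).2
  rw [← hp] at hgood
  have hsub : ∀ t ∈ Icc (a l) t0, t ∈ Icc (a l) (b l) := fun t ht => ⟨ht.1, ht.2.trans ht0.2⟩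
  rcases exit_left x y K (HR B σ a b α R) (SpR crit σ a b α R) hV (α l) (a l) t0 ht0.1
    ((hD.cα l).mono hsub) (fun t ht => ⟨hD.xα l t (hsub t ht), (hD.αK l t (hsub t ht)).1⟩) hgood with
    h | ⟨t1, ht1, h2, h3⟩
  · refine ⟨Sum.inl l, ?_, Or.inl ⟨l, hl, rfl⟩⟩
    show cls x y K (HR B σ a b α R) (SpR crit σ a b α R) (pt p) = _
    rw [← hp]
    exact (h (a l) ⟨le_rfl, ht0.1⟩).2.symm
  · have hrt : VtV2_rt x y K (HR B σ a b α R) (SpR crit σ a b α R) (α l) t1 t0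
        (cls x y K (HR B σ a b α R) (SpR crit σ a b α R) (pt p)) := by
      refine ⟨ht1.2, fun t ht => ?_⟩
      rw [← hp]
      exact h2 t ht
    have ht1' : t1 ∈ Icc (a l) (b l) := ⟨ht1.1, ht1.2.le.trans ht0.2⟩
    rcases h3 with h3 | ⟨-, v, w, hg, hv | hw⟩
    · rcases h3 with h3 | ⟨l', h4, t', h5, h6⟩
      · exact absurd h3 (hD.αK l t1 ht1').2
      · have h7 : t' = t1 := by
          rw [← hD.xα l' t' h5, h6, hD.xα l t1 ht1']
        subst h7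
        refine ⟨Sum.inr (Sum.inl (l, l', t')), ⟨t0, hrt⟩, Or.inr (Or.inl ⟨σ l', h4, (l, l', t'), ?_, rfl⟩)⟩
        refine ⟨hl, rfl, ?_, ht1', h5, h6.symm⟩
        intro he
        have he' : l = l' := he
        rw [← he', hl] at h4
        exact hi h4
    · refine ⟨Sum.inr (Sum.inr (Sum.inl v)), ⟨l, t1, t0, w, ht1.1, ht0.2, hg, hrt⟩,
        Or.inr (Or.inr (Or.inl ⟨v, ⟨hv, α l t1, w, hg, l, hl, t1, ht1', rfl⟩, rfl⟩))⟩
    · refine ⟨Sum.inr (Sum.inr (Sum.inr w)), ⟨l, t1, t0, v, ht1.1, ht0.2, hg, hrt⟩,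
        Or.inr (Or.inr (Or.inr ⟨w, ⟨hw, α l t1, v, hg, l, hl, t1, ht1', rfl⟩, rfl⟩))⟩

open scoped Classical in
theorem vt_two {X : Type} [TopologicalSpace X] [T2Space X] (x y : X → ℝ) (K B crit : Set X)
    {I Λ P : Type} [Fintype Λ] [Fintype P] (σ : Λ → I) (a b : Λ → ℝ) (α : Λ → ℝ → X) (pt : P → X)
    (hD : VDat x y K B crit σ a b α pt) (cr : I → I → ℕ)
    (hcr : ∀ i j, {z : Λ × Λ × ℝ | σ z.1 = i ∧ σ z.2.1 = j ∧ z.1 ≠ z.2.1 ∧
      z.2.2 ∈ Icc (a z.1) (b z.1) ∧ z.2.2 ∈ Icc (a z.2.1) (b z.2.1) ∧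
      α z.1 z.2.2 = α z.2.1 z.2.2}.encard ≤ cr i j) (R : Finset I) (i : I) (hi : i ∉ R) :
    ((Finset.univ.filter fun p => (∃ l, σ l = i ∧ ∃ t ∈ Icc (a l) (b l), α l t = pt p) ∧
      ∀ j ∈ R, ¬ ∃ l, σ l = j ∧ ∃ t ∈ Icc (a l) (b l), α l t = pt p).image
        fun p => cls x y K (HR B σ a b α (R : Set I)) (SpR crit σ a b α (R : Set I)) (pt p)).card ≤
      (Finset.univ.filter fun l => σ l = i).card + ∑ j ∈ R, cr i j +
        ((wU x y K B crit σ a b α (R : Set I) i).ncard + (wD x y K B crit σ a b α (R : Set I) i).ncard) := by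
  have hV := hr_vs x y K B crit σ a b α pt hD (R : Set I)
  have fU : (wU x y K B crit σ a b α (R : Set I) i).Finite := hV.fSp.subset fun v hv => hv.1
  have fD : (wD x y K B crit σ a b α (R : Set I) i).Finite := hV.fSp.subset fun v hv => hv.1
  have hC : ∀ j, ∃ F : Finset (Λ × Λ × ℝ), (F : Set (Λ × Λ × ℝ)) = VtV2_C σ a b α i j ∧ F.card ≤ cr i j := by
    intro j
    obtain ⟨h1, h2⟩ := Set.encard_le_coe_iff_finite_ncard_le.1 (hcr i j)
    refine ⟨h1.toFinset, h1.coe_toFinset, ?_⟩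
    rwa [← Set.ncard_eq_toFinset_card _ h1]
  choose F hF1 hF2 using hC
  set A : Finset (Λ ⊕ ((Λ × Λ × ℝ) ⊕ (X ⊕ X))) :=
    (Finset.univ.filter fun l => σ l = i).disjSum ((R.biUnion F).disjSum (fU.toFinset.disjSum fD.toFinset)) with hA
  have hcard : A.card ≤ (Finset.univ.filter fun l => σ l = i).card + ∑ j ∈ R, cr i j +
        ((wU x y K B crit σ a b α (R : Set I) i).ncard + (wD x y K B crit σ a b α (R : Set I) i).ncard) := by
    rw [hA, Finset.card_disjSum, Finset.card_disjSum, Finset.card_disjSum, Set.ncard_eq_toFinset_card _ fU,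
      Set.ncard_eq_toFinset_card _ fD]
    have h1 : (R.biUnion F).card ≤ ∑ j ∈ R, cr i j :=
      Finset.card_biUnion_le.trans (Finset.sum_le_sum fun j _ => hF2 j)
    omega
  refine le_trans ?_ hcard
  refine Finset.card_le_card_of_forall_subsingleton
    (fun Z q => VtV2_rel x y K B crit σ a b α (R : Set I) i Z q) (fun Z hZ => ?_) (fun q _ => ?_)
  · obtain ⟨p, hp, rfl⟩ := Finset.mem_image.1 hZ
    obtain ⟨⟨l, hl, t, ht, hlt⟩, hoff⟩ := (Finset.mem_filter.1 hp).2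
    obtain ⟨q, h1, h2⟩ := VtV2_ex hD (R := (R : Set I)) (by simpa using hi) hl ht hlt
      (fun j hj => hoff j (by simpa using hj))
    refine ⟨q, ?_, h1⟩
    rw [hA]
    rcases h2 with ⟨l, h3, rfl⟩ | ⟨j, hj, z, h3, rfl⟩ | ⟨v, h3, rfl⟩ | ⟨v, h3, rfl⟩
    · rw [Finset.inl_mem_disjSum, Finset.mem_filter]
      exact ⟨Finset.mem_univ _, h3⟩
    · rw [Finset.inr_mem_disjSum, Finset.inl_mem_disjSum, Finset.mem_biUnion]
      refine ⟨j, by simpa using hj, ?_⟩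
      rw [← Finset.mem_coe, hF1]
      exact h3
    · rw [Finset.inr_mem_disjSum, Finset.inr_mem_disjSum, Finset.inl_mem_disjSum, Set.Finite.mem_toFinset]
      exact h3
    · rw [Finset.inr_mem_disjSum, Finset.inr_mem_disjSum, Finset.inr_mem_disjSum, Set.Finite.mem_toFinset]
      exact h3
  · rintro Z ⟨-, hZ⟩ Z' ⟨-, hZ'⟩
    exact VtV2_inj hD hZ hZ'

private theorem VtV2_sub {X I Λ : Type} {crit : Set X} {σ : Λ → I} {a b : Λ → ℝ} {α : Λ → ℝ → X}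
    {R R' : Set I} (h : R ⊆ R') : SpR crit σ a b α R ⊆ SpR crit σ a b α R' := by
  rintro v ((h1 | ⟨l, h2, h3⟩) | ⟨l, l', h4, h5, h6, h7⟩)
  · exact Or.inl (Or.inl h1)
  · exact Or.inl (Or.inr ⟨l, h h2, h3⟩)
  · exact Or.inr ⟨l, l', h4, h h5, h h6, h7⟩

/-- disjoint subsets -/
private theorem VtV2_sum {X I : Type} {R : Finset I} {W : I → Set X} {S : Set X} {N : ℕ}
    (hS : S.encard ≤ N) (hW : ∀ i ∈ R, W i ⊆ S) (hd : ∀ i ∈ R, ∀ j ∈ R, i ≠ j → ∀ v, v ∈ W i → v ∉ W j) :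
    ∑ i ∈ R, (W i).ncard ≤ N := by
  classical
  obtain ⟨fS, hN⟩ := Set.encard_le_coe_iff_finite_ncard_le.1 hS
  have hx : ∀ i, ∃ F : Finset X, i ∈ R → (F : Set X) = W i ∧ F.card = (W i).ncard := by
    intro i
    by_cases hi : i ∈ R
    · have h1 := fS.subset (hW i hi)
      exact ⟨h1.toFinset, fun _ => ⟨h1.coe_toFinset, (Set.ncard_eq_toFinset_card _ h1).symm⟩⟩
    · exact ⟨∅, fun h => absurd h hi⟩
  choose F hF using hx
  have h1 : ∑ i ∈ R, (W i).ncard = (R.biUnion F).card := by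
    rw [Finset.card_biUnion]
    · exact Finset.sum_congr rfl fun i hi => (hF i hi).2.symm
    · intro i hi j hj hij
      rw [Function.onFun, Finset.disjoint_left]
      intro v h1 h2
      have h3 : v ∈ W i := by rw [← (hF i hi).1]; exact h1
      have h4 : v ∈ W j := by rw [← (hF j hj).1]; exact h2
      exact hd i hi j hj hij v h3 h4
  rw [h1]
  refine le_trans ?_ hN
  rw [Set.ncard_eq_toFinset_card _ fS]
  refine Finset.card_le_card fun v hv => ?_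
  obtain ⟨i, hi, h2⟩ := Finset.mem_biUnion.1 hv
  rw [Set.Finite.mem_toFinset]
  refine hW i hi ?_
  rw [← (hF i hi).1]
  exact h2

/-- the arcs of `j` are obstacles -/
private theorem VtV2_arc {X I Λ : Type} [DecidableEq I] {B : Set X} {σ : Λ → I} {a b : Λ → ℝ} {α : Λ → ℝ → X}
    {R : Finset I} {i j : I} (hj : j ∈ R) (hij : j ≠ i) :
    {ζ : X | ∃ l, σ l = j ∧ ∃ t ∈ Icc (a l) (b l), α l t = ζ} ⊆ HR B σ a b α ((R.erase i : Finset I) : Set I) := by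
  rintro ζ ⟨l, h1, h2⟩
  refine Or.inr ⟨l, ?_, h2⟩
  rw [h1, Finset.mem_coe, Finset.mem_erase]
  exact ⟨hij, hj⟩


open scoped Classical in
theorem vt_w {X : Type} [TopologicalSpace X] [T2Space X] (x y : X → ℝ) (K B : Set X)
    (crit : Finset X) {I Λ P : Type} [Fintype I] [Fintype Λ] (σ : Λ → I) (a b : Λ → ℝ)
    (α : Λ → ℝ → X) (pt : P → X) (hD : VDat x y K B (crit : Set X) σ a b α pt) (cr : I → I → ℕ)
    (hcr : ∀ i j, {z : Λ × Λ × ℝ | σ z.1 = i ∧ σ z.2.1 = j ∧ z.1 ≠ z.2.1 ∧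
      z.2.2 ∈ Icc (a z.1) (b z.1) ∧ z.2.2 ∈ Icc (a z.2.1) (b z.2.1) ∧
      α z.1 z.2.2 = α z.2.1 z.2.2}.encard ≤ cr i j) (R : Finset I) :
    ∑ i ∈ R, ((wU x y K B (crit : Set X) σ a b α ((R.erase i : Finset I) : Set I) i).ncard +
        (wD x y K B (crit : Set X) σ a b α ((R.erase i : Finset I) : Set I) i).ncard) ≤
      2 * (2 * ∑ i ∈ R, ((Finset.univ.filter fun l => σ l = i).card + cr i i) +
        ∑ i ∈ R, ∑ j ∈ R.erase i, cr i j + crit.card) := by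
  have hS := sp_card crit σ a b α cr hcr R
  have hm : ∀ i, SpR (crit : Set X) σ a b α ((R.erase i : Finset I) : Set I) ⊆
      SpR (crit : Set X) σ a b α (R : Set I) := fun i =>
    VtV2_sub (by exact_mod_cast Finset.erase_subset i R)
  have h1 : ∑ i ∈ R, (wU x y K B (crit : Set X) σ a b α ((R.erase i : Finset I) : Set I) i).ncard ≤
      2 * ∑ i ∈ R, ((Finset.univ.filter fun l => σ l = i).card + cr i i) +
        ∑ i ∈ R, ∑ j ∈ R.erase i, cr i j + crit.card := by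
    refine VtV2_sum hS (fun i _ v hv => hm i hv.1) ?_
    rintro i hi j hj hij v ⟨-, ζ1, w1, g1, a1⟩ ⟨-, ζ2, w2, g2, a2⟩
    exact vis_up x y K _ _ {ζ | ∃ l, σ l = i ∧ ∃ t ∈ Icc (a l) (b l), α l t = ζ}
      {ζ | ∃ l, σ l = j ∧ ∃ t ∈ Icc (a l) (b l), α l t = ζ} hD.loc (VtV2_arc hj hij.symm)
      (VtV2_arc hi hij) v ζ1 w1 ζ2 w2 g1 a1 g2 a2
  have h2 : ∑ i ∈ R, (wD x y K B (crit : Set X) σ a b α ((R.erase i : Finset I) : Set I) i).ncard ≤
      2 * ∑ i ∈ R, ((Finset.univ.filter fun l => σ l = i).card + cr i i) +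
        ∑ i ∈ R, ∑ j ∈ R.erase i, cr i j + crit.card := by
    refine VtV2_sum hS (fun i _ v hv => hm i hv.1) ?_
    rintro i hi j hj hij v ⟨-, ζ1, w1, g1, a1⟩ ⟨-, ζ2, w2, g2, a2⟩
    exact vis_down x y K _ _ {ζ | ∃ l, σ l = i ∧ ∃ t ∈ Icc (a l) (b l), α l t = ζ}
      {ζ | ∃ l, σ l = j ∧ ∃ t ∈ Icc (a l) (b l), α l t = ζ} hD.loc (VtV2_arc hj hij.symm)
      (VtV2_arc hi hij) v ζ1 w1 ζ2 w2 g1 a1 g2 a2
  rw [Finset.sum_add_distrib, two_mul]
  exact add_le_add h1 h2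

end D4Q
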