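import Mathlib
import Pool.Agent.D4Q.VD
import Pool.Agent.D4Q.VtTube
import Pool.Agent.D4Q.VtUniq
import Pool.Agent.D4Q.VtGap
import Pool.Agent.D4Q.VtOpen

/-!
# D4Q-VtRE: the event at which a new obstacle cuts a class

`H'`, `Sp'` belong to `R+`, `H`, `Sp` to `R = R+ ∖ i`, `A` = arcs of `i`. PROOF (both sides at once, on the interval between `x p` and `t2`, distances to `x p`).
`T` = image under `s` of the compact region over the interval: compact. `x1` = the value of `x` nearest to `x p` on the nonempty compact set `T ∩ A`, `x1 ≠ x p` by `h0`.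
For `t` between `x p` and `x1`, `t ≠ x1`, the closed gap between `κ t` and `τ t` contains no point of `A`, so it is a gap of `H' = H ∪ A`, its ends are not in `Sp' ⊆ Sp ∪ A`: good. Let `v' = s (x1, u) ∈ A`. CLAIM `v' ∈ Sp'`. Otherwise by `hA`
`v' ∉ H`, so `y (κ x1) < u < y (τ x1)`, and `LocSec x A v'` gives points of `A` near `v'` over `t` close to `x1` on the side of `x p`; by local injectivity they are in `T`: contradiction to the minimality. Uniqueness of the limit slice: `ls_unique` for `GS` of `H'`.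
-/

namespace D4Q

open Set Filter Topology

private lemma vert_unique {X : Type} [TopologicalSpace X] [T2Space X] (x y : X → ℝ)
    (hloc : IsLocalHomeomorph (fun ζ => (x ζ, y ζ))) (a b t : ℝ) (f g : ℝ → X)
    (hf : ContinuousOn f (Icc a b)) (hg : ContinuousOn g (Icc a b))
    (hfx : ∀ u ∈ Icc a b, x (f u) = t ∧ y (f u) = u)
    (hgx : ∀ u ∈ Icc a b, x (g u) = t ∧ y (g u) = u) (u0 : ℝ) (hu0 : u0 ∈ Icc a b)
    (h0 : f u0 = g u0) : EqOn f g (Icc a b) := by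
  refine sec_unique (fun ζ => (x ζ, y ζ)) hloc (Icc a b) isPreconnected_Icc f g hf hg ?_ u0 hu0 h0
  intro u hu
  simp only [Prod.mk.injEq]
  rw [(hfx u hu).1, (hfx u hu).2, (hgx u hu).1, (hgx u hu).2]
  exact ⟨rfl, rfl⟩

section

variable {X : Type} [TopologicalSpace X] {x y : X → ℝ} {K H Sp : Set X} {T T' : Set ℝ}
  {κ τ : ℝ → X} {s : ℝ × ℝ → X}

private lemma slice_cont (hT : Trap x y K H Sp T T' κ τ s) {t : ℝ} (ht : t ∈ T) :
    ContinuousOn (fun u => s (t, u)) (Icc (y (κ t)) (y (τ t))) := by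
  refine hT.cs.comp (by fun_prop) ?_
  intro u hu
  exact ⟨ht, hu.1, hu.2⟩

private lemma gap_of_slice (hT : Trap x y K H Sp T T' κ τ s) {t : ℝ} (ht : t ∈ T) {H2 : Set X}
    (hκ : κ t ∈ H2) (hτ : τ t ∈ H2) {q : X} (hq1 : y (κ t) < y q) (hq2 : y q < y (τ t))
    (hxq : x q = t) (hq : s (t, y q) = q)
    (h : ∀ u ∈ Ioo (y (κ t)) (y (τ t)), s (t, u) ∉ H2) : GapP x y K H2 (κ t) q (τ t) := by
  refine ⟨hq1, hq2, hκ, hτ, fun u => s (t, u), slice_cont hT ht, ?_, (hT.sκ t ht).1, hq,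
    (hT.sκ t ht).2, ?_⟩
  · intro u hu
    have h1 := hT.sec (t, u) ht hu.1 hu.2
    exact ⟨h1.1.trans hxq.symm, h1.2.1⟩
  · intro u hu
    exact ⟨(hT.sec (t, u) ht hu.1.le hu.2.le).2.2, h u hu⟩

variable [T2Space X]

private lemma trap_gap (hloc : IsLocalHomeomorph (fun ζ => (x ζ, y ζ)))
    (hT : Trap x y K H Sp T T' κ τ s) {t : ℝ} (ht : t ∈ T) {K2 H2 : Set X} {q : X}
    (hq : GapP x y K2 H2 (κ t) q (τ t)) :
    x q = t ∧ s (t, y q) = q ∧ ∀ u ∈ Ioo (y (κ t)) (y (τ t)), s (t, u) ∈ K2 \ H2 := by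
  obtain ⟨h1, h2, h3, h4, γ, hγ, hγx, g1, g2, g3, g4⟩ := hq
  have hle : y (κ t) ≤ y (τ t) := hT.le t ht
  have hxq : x q = t := by
    have h5 := (hγx (y (κ t)) ⟨le_rfl, hle⟩).1
    rw [g1, (hT.xκ t ht).1] at h5
    exact h5.symm
  have hE : EqOn γ (fun u => s (t, u)) (Icc (y (κ t)) (y (τ t))) := by
    refine vert_unique x y hloc _ _ t _ _ hγ (slice_cont hT ht) ?_ ?_ (y (κ t)) ⟨le_rfl, hle⟩ ?_
    · intro u hu
      rw [← hxq]
      exact hγx u hu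
    · intro u hu
      have h6 := hT.sec (t, u) ht hu.1 hu.2
      exact ⟨h6.1, h6.2.1⟩
    · rw [g1, (hT.sκ t ht).1]
  refine ⟨hxq, ?_, ?_⟩
  · have h7 := hE ⟨h1.le, h2.le⟩
    simp only at h7
    rw [← h7, g2]
  · intro u hu
    have h7 := hE ⟨hu.1.le, hu.2.le⟩
    simp only at h7
    rw [← h7]
    exact g4 u hu

private lemma no_sp (hloc : IsLocalHomeomorph (fun ζ => (x ζ, y ζ)))
    (hT : Trap x y K H Sp T T' κ τ s) (hSH : Sp ⊆ H) {t : ℝ} (ht : t ∈ T)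
    (hg : Good x y K H Sp (κ t) (τ t)) {u : ℝ} (hu : u ∈ Icc (y (κ t)) (y (τ t))) :
    s (t, u) ∉ Sp := by
  obtain ⟨⟨q, hq⟩, h1, h2⟩ := hg
  intro hs
  rcases eq_or_lt_of_le hu.1 with h3 | h3
  · rw [← h3, (hT.sκ t ht).1] at hs
    exact h1 hs
  rcases eq_or_lt_of_le hu.2 with h4 | h4
  · rw [h4, (hT.sκ t ht).2] at hs
    exact h2 hs
  exact ((trap_gap hloc hT ht hq).2.2 u ⟨h3, h4⟩).2 (hSH hs)

end

private lemma uIcc_sub {a b m : ℝ} (h : m ∈ uIcc a b) : uIcc a m \ {m} ⊆ uIcc a b \ {b} := by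
  intro t ht
  rw [mem_diff, mem_singleton_iff, mem_uIcc] at ht ⊢
  rw [mem_uIcc] at h
  refine ⟨?_, ?_⟩
  · rcases h with h | h <;> rcases ht.1 with h1 | h1
    · exact Or.inl ⟨h1.1, h1.2.trans h.2⟩
    · exact Or.inl ⟨by linarith [h.1, h1.1, h1.2, h.2], by linarith [h.1, h1.1, h1.2, h.2]⟩
    · exact Or.inr ⟨by linarith [h.1, h1.1, h1.2, h.2], by linarith [h.1, h1.1, h1.2, h.2]⟩
    · exact Or.inr ⟨h.1.trans h1.1, h1.2⟩
  · rintro rfl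
    apply ht.2
    rcases h with h | h <;> rcases ht.1 with h1 | h1 <;> linarith [h.1, h1.1, h1.2, h.2]

private lemma abs_lt_of {a b t : ℝ} (h : t ∈ uIcc a b \ {b}) : |t - a| < |b - a| := by
  rw [mem_diff, mem_singleton_iff, mem_uIcc] at h
  rcases h.1 with h1 | h1
  · have h2 : t < b := lt_of_le_of_ne h1.2 h.2
    rw [abs_of_nonneg (by linarith), abs_of_nonneg (by linarith)]
    linarith
  · have h2 : b < t := lt_of_le_of_ne h1.1 (Ne.symm h.2)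
    rw [abs_of_nonpos (by linarith), abs_of_nonpos (by linarith)]
    linarith

private lemma uIcc_diff {a m : ℝ} (h : m ≠ a) :
    IsPreconnected (uIcc a m \ {m}) ∧ uIcc a m ⊆ closure (uIcc a m \ {m}) ∧
      a ∈ uIcc a m \ {m} := by
  rcases lt_or_gt_of_ne h with h1 | h1
  · have h2 : uIcc a m \ {m} = Ioc m a := by
      rw [uIcc_of_ge h1.le, Icc_sdiff_left]
    rw [h2]
    refine ⟨isPreconnected_Ioc, ?_, ⟨h1, le_rfl⟩⟩
    rw [closure_Ioc h1.ne, uIcc_of_ge h1.le]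
  · have h2 : uIcc a m \ {m} = Ico a m := by
      rw [uIcc_of_le h1.le, Icc_sdiff_right]
    rw [h2]
    refine ⟨isPreconnected_Ico, ?_, ⟨le_rfl, h1⟩⟩
    rw [closure_Ico h1.ne, uIcc_of_le h1.le]

private lemma region_compact (a b : ℝ) (f g : ℝ → ℝ) (hf : ContinuousOn f (uIcc a b))
    (hg : ContinuousOn g (uIcc a b)) (hfg : ∀ t ∈ uIcc a b, f t ≤ g t) :
    IsCompact {z : ℝ × ℝ | z.1 ∈ uIcc a b ∧ f z.1 ≤ z.2 ∧ z.2 ≤ g z.1} := by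
  have h1 : IsCompact (uIcc a b ×ˢ Icc (0 : ℝ) 1) := isCompact_uIcc.prod isCompact_Icc
  have h2 : ContinuousOn (fun w : ℝ × ℝ => (w.1, f w.1 + w.2 * (g w.1 - f w.1)))
      (uIcc a b ×ˢ Icc (0 : ℝ) 1) := by
    have h3 : ContinuousOn (fun w : ℝ × ℝ => f w.1) (uIcc a b ×ˢ Icc (0 : ℝ) 1) :=
      hf.comp continuousOn_fst (fun w hw => hw.1)
    have h4 : ContinuousOn (fun w : ℝ × ℝ => g w.1) (uIcc a b ×ˢ Icc (0 : ℝ) 1) :=
      hg.comp continuousOn_fst (fun w hw => hw.1)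
    exact continuousOn_fst.prodMk (h3.add (continuousOn_snd.mul (h4.sub h3)))
  have h5 := h1.image_of_continuousOn h2
  have h6 : (fun w : ℝ × ℝ => (w.1, f w.1 + w.2 * (g w.1 - f w.1))) '' (uIcc a b ×ˢ Icc (0 : ℝ) 1) =
      {z : ℝ × ℝ | z.1 ∈ uIcc a b ∧ f z.1 ≤ z.2 ∧ z.2 ≤ g z.1} := by
    ext ⟨t, u⟩
    simp only [mem_image, mem_prod, mem_Icc, Prod.mk.injEq, Prod.exists, mem_setOf_eq]
    constructor
    · rintro ⟨t', l, ⟨h7, h8, h9⟩, rfl, rfl⟩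
      have h10 := hfg t' h7
      refine ⟨h7, ?_, ?_⟩ <;> nlinarith
    · rintro ⟨h7, h8, h9⟩
      by_cases h10 : f t = g t
      · refine ⟨t, 0, ⟨h7, le_rfl, zero_le_one⟩, rfl, ?_⟩
        rw [zero_mul, add_zero]
        linarith
      · have h11 : 0 < g t - f t := by
          have := lt_of_le_of_ne (hfg t h7) h10
          linarith
        refine ⟨t, (u - f t) / (g t - f t), ⟨h7, div_nonneg (by linarith) h11.le, ?_⟩, rfl, ?_⟩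
        · rw [div_le_one h11]
          linarith
        · rw [div_mul_cancel₀ _ h11.ne']
          ring
  rw [← h6]
  exact h5

private lemma ev_gen {X : Type} [TopologicalSpace X] [T2Space X] (x y : X → ℝ)
    (K H Sp H' Sp' A : Set X) (hV : VS x y K H Sp) (hV' : VS x y K H' Sp') (hH : H' = H ∪ A)
    (hAc : IsClosed A) (hSp' : Sp' ⊆ Sp ∪ A) (hSH : Sp ⊆ H) (hSH' : Sp' ⊆ H')
    (hA : ∀ v ∈ A, v ∉ Sp' → v ∉ H ∧ LocSec x A v) (p : X) (t2 : ℝ)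
    (κ τ : ℝ → X) (s : ℝ × ℝ → X) (hT : Trap x y K H Sp (uIcc (x p) t2) (uIcc (x p) t2) κ τ s)
    (hg : GapP x y K H (κ (x p)) p (τ (x p)))
    (h0 : ∀ u ∈ Icc (y (κ (x p))) (y (τ (x p))), s (x p, u) ∉ A)
    (h1 : ∃ t ∈ uIcc (x p) t2, ∃ u ∈ Icc (y (κ t)) (y (τ t)), s (t, u) ∈ A) :
    ∃ x1 ∈ uIcc (x p) t2, x1 ≠ x p ∧ (∃ v, v ∈ Sp' ∧
      Trap x y K H' Sp' (uIcc (x p) x1) (uIcc (x p) x1 \ {x1}) κ τ s ∧
      GapP x y K H' (κ (x p)) p (τ (x p)) ∧ ∃ u ∈ Icc (y (κ x1)) (y (τ x1)), s (x1, u) = v) ∧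
      ∀ (v : X) (t1 : ℝ) (κ1 τ1 : ℝ → X) (s1 : ℝ × ℝ → X) (u1 : ℝ), v ∈ Sp → t1 ≠ x p →
        (t1 ∈ uIcc (x p) x1 ∨ x1 ∈ uIcc (x p) t1) →
        Trap x y K H' Sp' (uIcc (x p) t1) (uIcc (x p) t1 \ {t1}) κ1 τ1 s1 →
        GapP x y K H' (κ1 (x p)) p (τ1 (x p)) → u1 ∈ Icc (y (κ1 t1)) (y (τ1 t1)) →
        s1 (t1, u1) = v → False := by
  have hloc := hV.loc
  have hyc : Continuous y := continuous_snd.comp hloc.continuous
  have hxc : Continuous x := continuous_fst.comp hloc.continuous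
  have hpJ : x p ∈ uIcc (x p) t2 := left_mem_uIcc
  have hyκ : ContinuousOn (fun t => y (κ t)) (uIcc (x p) t2) := hyc.comp_continuousOn hT.cκ
  have hyτ : ContinuousOn (fun t => y (τ t)) (uIcc (x p) t2) := hyc.comp_continuousOn hT.cτ
  have hreg := region_compact (x p) t2 (fun t => y (κ t)) (fun t => y (τ t)) hyκ hyτ hT.le
  have hTc : IsCompact (s '' {z : ℝ × ℝ | z.1 ∈ uIcc (x p) t2 ∧ y (κ z.1) ≤ z.2 ∧
      z.2 ≤ y (τ z.1)}) := hreg.image_of_continuousOn hT.cs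
  have hTA := hTc.inter_right hAc
  have hne : (s '' {z : ℝ × ℝ | z.1 ∈ uIcc (x p) t2 ∧ y (κ z.1) ≤ z.2 ∧
      z.2 ≤ y (τ z.1)} ∩ A).Nonempty := by
    obtain ⟨t, ht, u, hu, hs⟩ := h1
    exact ⟨s (t, u), ⟨(t, u), ⟨ht, hu.1, hu.2⟩, rfl⟩, hs⟩
  obtain ⟨v', ⟨⟨⟨x1, u⟩, ⟨hx1, hu1, hu2⟩, hsv⟩, hv'A⟩, hmin⟩ :=
    hTA.exists_isMinOn (f := fun ζ => |x ζ - x p|) hne (by fun_prop)
  simp only at hx1 hu1 hu2
  have hsec1 := hT.sec (x1, u) hx1 hu1 hu2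
  rw [hsv] at hsec1
  simp only at hsec1
  have hmin' : ∀ t ∈ uIcc (x p) t2, ∀ u ∈ Icc (y (κ t)) (y (τ t)), s (t, u) ∈ A →
      |x1 - x p| ≤ |t - x p| := by
    intro t ht w hw hs
    have h2 := hmin (show s (t, w) ∈ s '' {z : ℝ × ℝ | z.1 ∈ uIcc (x p) t2 ∧ y (κ z.1) ≤ z.2 ∧
      z.2 ≤ y (τ z.1)} ∩ A from ⟨⟨(t, w), ⟨ht, hw.1, hw.2⟩, rfl⟩, hs⟩)
    simp only [mem_setOf_eq] at h2
    rw [hsec1.1, (hT.sec (t, w) ht hw.1 hw.2).1] at h2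
    exact h2
  have hx1p : x1 ≠ x p := by
    rintro rfl
    exact h0 u ⟨hu1, hu2⟩ (by rw [hsv]; exact hv'A)
  have hsub : uIcc (x p) x1 ⊆ uIcc (x p) t2 := uIcc_subset_uIcc hpJ hx1
  have hnA : ∀ t ∈ uIcc (x p) x1 \ {x1}, ∀ u ∈ Icc (y (κ t)) (y (τ t)), s (t, u) ∉ A := by
    intro t ht w hw hs
    exact absurd (hmin' t (hsub ht.1) w hw hs) (not_le.2 (abs_lt_of ht))
  have hgap' : ∀ t ∈ uIcc (x p) x1 \ {x1}, ∀ q, GapP x y K H (κ t) q (τ t) →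
      GapP x y K H' (κ t) q (τ t) := by
    intro t ht q hq
    have h2 := trap_gap hloc hT (hsub ht.1) hq
    refine gap_of_slice hT (hsub ht.1) ?_ ?_ hq.1 hq.2.1 h2.1 h2.2.1 ?_
    · rw [hH]
      exact Or.inl (hT.mH t (hsub ht.1)).1
    · rw [hH]
      exact Or.inl (hT.mH t (hsub ht.1)).2
    · intro w hw hs
      rw [hH] at hs
      rcases hs with hs | hs
      · exact (h2.2.2 w hw).2 hs
      · exact hnA t ht w ⟨hw.1.le, hw.2.le⟩ hs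
  have hgood' : ∀ t ∈ uIcc (x p) x1 \ {x1}, Good x y K H' Sp' (κ t) (τ t) := by
    intro t ht
    obtain ⟨⟨q, hq⟩, h2, h3⟩ := hT.good t (hsub ht.1)
    have hle := hT.le t (hsub ht.1)
    refine ⟨⟨q, hgap' t ht q hq⟩, ?_, ?_⟩
    · intro hs
      rcases hSp' hs with hs | hs
      · exact h2 hs
      · refine hnA t ht _ ⟨le_rfl, hle⟩ ?_
        rw [(hT.sκ t (hsub ht.1)).1]
        exact hs
    · intro hs
      rcases hSp' hs with hs | hs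
      · exact h3 hs
      · refine hnA t ht _ ⟨hle, le_rfl⟩ ?_
        rw [(hT.sκ t (hsub ht.1)).2]
        exact hs
  have hp0 := (uIcc_diff hx1p)
  have hTr : Trap x y K H' Sp' (uIcc (x p) x1) (uIcc (x p) x1 \ {x1}) κ τ s := by
    refine ⟨hT.cκ.mono hsub, hT.cτ.mono hsub, fun t ht => hT.xκ t (hsub ht),
      fun t ht => hT.le t (hsub ht), ?_, ?_, ?_, fun t ht => hT.sκ t (hsub ht), hgood'⟩
    · intro t ht
      rw [hH]
      exact ⟨Or.inl (hT.mH t (hsub ht)).1, Or.inl (hT.mH t (hsub ht)).2⟩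
    · refine hT.cs.mono ?_
      rintro z ⟨hz1, hz2⟩
      exact ⟨hsub hz1, hz2⟩
    · intro z hz1 hz2 hz3
      exact hT.sec z (hsub hz1) hz2 hz3
  have hgp : GapP x y K H' (κ (x p)) p (τ (x p)) := hgap' (x p) hp0.2.2 p hg
  have hv'S : v' ∈ Sp' := by
    by_contra hcon
    obtain ⟨hvH, ε, hε, c, hc, hcv, hcx, -⟩ := hA v' hv'A hcon
    rw [hsec1.1] at hc hcv hcx
    have hu1' : y (κ x1) < u := by
      refine lt_of_le_of_ne hu1 ?_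
      rintro rfl
      rw [(hT.sκ x1 hx1).1] at hsv
      exact hvH (hsv ▸ (hT.mH x1 hx1).1)
    have hu2' : u < y (τ x1) := by
      refine lt_of_le_of_ne hu2 ?_
      rintro rfl
      rw [(hT.sκ x1 hx1).2] at hsv
      exact hvH (hsv ▸ (hT.mH x1 hx1).2)
    have hnb : (𝓝[uIcc (x p) x1 \ {x1}] x1).NeBot :=
      mem_closure_iff_nhdsWithin_neBot.1 (hp0.2.1 right_mem_uIcc)
    have hle1 : 𝓝[uIcc (x p) x1 \ {x1}] x1 ≤ 𝓝 x1 := nhdsWithin_le_nhds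
    have hct : Tendsto c (𝓝[uIcc (x p) x1 \ {x1}] x1) (𝓝 v') := by
      have h2 : ContinuousAt c x1 := hc.continuousAt (Ioo_mem_nhds (by linarith) (by linarith))
      have h3 := h2.tendsto
      rw [hcv] at h3
      exact h3.mono_left hle1
    have hyct : Tendsto (fun t => y (c t)) (𝓝[uIcc (x p) x1 \ {x1}] x1) (𝓝 u) := by
      have h2 := (hyc.tendsto v').comp hct
      rw [hsec1.2.1] at h2
      exact h2
    have hκt : Tendsto (fun t => y (κ t)) (𝓝[uIcc (x p) x1 \ {x1}] x1) (𝓝 (y (κ x1))) :=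
      (hyκ x1 hx1).mono_left (nhdsWithin_mono _ (diff_subset.trans hsub))
    have hτt : Tendsto (fun t => y (τ t)) (𝓝[uIcc (x p) x1 \ {x1}] x1) (𝓝 (y (τ x1))) :=
      (hyτ x1 hx1).mono_left (nhdsWithin_mono _ (diff_subset.trans hsub))
    have e1 := hκt.eventually_lt hyct hu1'
    have e2 := hyct.eventually_lt hτt hu2'
    have e3 : ∀ᶠ t in 𝓝[uIcc (x p) x1 \ {x1}] x1, t ∈ uIcc (x p) x1 \ {x1} :=
      eventually_mem_nhdsWithin
    have e4 : ∀ᶠ t in 𝓝[uIcc (x p) x1 \ {x1}] x1, t ∈ Ioo (x1 - ε) (x1 + ε) :=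
      hle1 (Ioo_mem_nhds (by linarith) (by linarith))
    have hst : Tendsto (fun t => s (t, y (c t))) (𝓝[uIcc (x p) x1 \ {x1}] x1) (𝓝 v') := by
      have h2 : ContinuousWithinAt s {z : ℝ × ℝ | z.1 ∈ uIcc (x p) t2 ∧ y (κ z.1) ≤ z.2 ∧
        z.2 ≤ y (τ z.1)} (x1, u) := hT.cs (x1, u) ⟨hx1, hu1, hu2⟩
      have h3 := h2.tendsto
      rw [hsv] at h3
      refine h3.comp ?_
      rw [tendsto_nhdsWithin_iff]
      refine ⟨(tendsto_id.mono_left hle1).prodMk_nhds hyct, ?_⟩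
      filter_upwards [e1, e2, e3] with t h4 h5 h6
      exact ⟨hsub h6.1, h4.le, h5.le⟩
    obtain ⟨e, hve, he⟩ := hloc v'
    have hnh : e.source ∈ 𝓝 v' := e.open_source.mem_nhds hve
    have hall : ∀ᶠ t in 𝓝[uIcc (x p) x1 \ {x1}] x1, False := by
      filter_upwards [e1, e2, e3, e4, hct.eventually_mem hnh, hst.eventually_mem hnh]
        with t a1 a2 a3 a4 a5 a6
      have b1 := hT.sec (t, y (c t)) (hsub a3.1) a1.le a2.le
      have b2 : e (c t) = e (s (t, y (c t))) := by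
        rw [← he]
        simp only [Prod.mk.injEq]
        rw [b1.1, b1.2.1, (hcx t a4).1]
        exact ⟨rfl, rfl⟩
      have b3 := e.injOn a5 a6 b2
      exact hnA t a3 (y (c t)) ⟨a1.le, a2.le⟩ (b3 ▸ (hcx t a4).2)
    exact (hall.exists).elim fun _ h => h
  refine ⟨x1, hx1, hx1p, ⟨v', hv'S, hTr, hgp, u, ⟨hu1, hu2⟩, hsv⟩, ?_⟩
  intro v t1 κ1 τ1 s1 u1 hvS ht1 hside hT1 hg1 hu1 hs1
  have hkey : ∀ m, m ∈ uIcc (x p) x1 → m ∈ uIcc (x p) t1 → m ≠ x p →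
      κ m = κ1 m ∧ τ m = τ1 m := by
    intro m hm1 hm2 hmp
    have hD := uIcc_diff hmp
    have s1' := uIcc_sub hm1
    have s2' := uIcc_sub hm2
    have c1 : uIcc (x p) m ⊆ uIcc (x p) x1 := uIcc_subset_uIcc left_mem_uIcc hm1
    have c2 : uIcc (x p) m ⊆ uIcc (x p) t1 := uIcc_subset_uIcc left_mem_uIcc hm2
    have hκE : EqOn κ κ1 (uIcc (x p) m \ {m}) := by
      refine ls_unique x (GS x y K H' Sp') (gs_ls x y K H' Sp' hV') _ hD.1 κ κ1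
        (hTr.cκ.mono (s1'.trans diff_subset)) (hT1.cκ.mono (s2'.trans diff_subset)) ?_ ?_
        (x p) hD.2.2 (gap_unique x y K H' hloc _ _ _ _ p hgp hg1).1
      · intro t ht
        exact ⟨(hTr.xκ t (s1' ht).1).1, ⟨τ t, hTr.good t (s1' ht)⟩⟩
      · intro t ht
        exact ⟨(hT1.xκ t (s2' ht).1).1, ⟨τ1 t, hT1.good t (s2' ht)⟩⟩
    have hτE : EqOn τ τ1 (uIcc (x p) m \ {m}) := by
      intro t ht
      have h2 := (hTr.good t (s1' ht)).1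
      have h3 := (hT1.good t (s2' ht)).1
      rw [← hκE ht] at h3
      exact gap_lower x y K H' hloc _ _ _ h2 h3
    exact ⟨hκE.of_subset_closure (hTr.cκ.mono c1) (hT1.cκ.mono c2) diff_subset hD.2.1
        right_mem_uIcc,
      hτE.of_subset_closure (hTr.cτ.mono c1) (hT1.cτ.mono c2) diff_subset hD.2.1
        right_mem_uIcc⟩
  have hslice : ∀ m, m ∈ uIcc (x p) x1 → m ∈ uIcc (x p) t1 → κ m = κ1 m → τ m = τ1 m →
      ∀ w ∈ Icc (y (κ m)) (y (τ m)), s (m, w) = s1 (m, w) := by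
    intro m hm1 hm2 hk ht
    have hle : y (κ m) ≤ y (τ m) := hTr.le m hm1
    have hcs := slice_cont hT1 hm2
    rw [← hk, ← ht] at hcs
    refine vert_unique x y hloc _ _ m _ _ (slice_cont hTr hm1) hcs ?_ ?_ (y (κ m))
      ⟨le_rfl, hle⟩ ?_
    · intro w hw
      have h6 := hTr.sec (m, w) hm1 hw.1 hw.2
      exact ⟨h6.1, h6.2.1⟩
    · intro w hw
      rw [hk, ht] at hw
      have h6 := hT1.sec (m, w) hm2 hw.1 hw.2
      exact ⟨h6.1, h6.2.1⟩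
    · show s (m, y (κ m)) = s1 (m, y (κ m))
      rw [(hTr.sκ m hm1).1, hk, (hT1.sκ m hm2).1]
  by_cases hcase : t1 ∈ uIcc (x p) x1
  · obtain ⟨k1, k2⟩ := hkey t1 hcase right_mem_uIcc ht1
    have h2 := hslice t1 hcase right_mem_uIcc k1 k2
    rw [← k1, ← k2] at hu1
    rw [← h2 u1 hu1] at hs1
    exact no_sp hloc hT hSH (hsub hcase) (hT.good t1 (hsub hcase)) hu1 (hs1 ▸ hvS)
  · have hx1t : x1 ∈ uIcc (x p) t1 := hside.resolve_left hcase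
    have hne1 : x1 ≠ t1 := by
      rintro rfl
      exact hcase right_mem_uIcc
    obtain ⟨k1, k2⟩ := hkey x1 right_mem_uIcc hx1t hx1p
    have h2 := hslice x1 right_mem_uIcc hx1t k1 k2 u ⟨‹_›, hu2⟩
    have h3 : u ∈ Icc (y (κ1 x1)) (y (τ1 x1)) := by
      rw [← k1, ← k2]
      exact ⟨‹_›, hu2⟩
    refine no_sp hloc hT1 hSH' hx1t (hT1.good x1 ⟨hx1t, hne1⟩) h3 ?_
    rw [← h2, hsv]
    exact hv'S

theorem re_event {X : Type} [TopologicalSpace X] [T2Space X] (x y : X → ℝ)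
    (K H Sp H' Sp' A : Set X) (hV : VS x y K H Sp) (hV' : VS x y K H' Sp') (hH : H' = H ∪ A)
    (hAc : IsClosed A) (hSp : Sp ⊆ Sp') (hSp' : Sp' ⊆ Sp ∪ A) (hSH : Sp ⊆ H) (hSH' : Sp' ⊆ H')
    (hA : ∀ v ∈ A, v ∉ Sp' → v ∉ H ∧ LocSec x A v) (p : X) (t2 : ℝ) (ht2 : x p ≤ t2)
    (κ τ : ℝ → X) (s : ℝ × ℝ → X) (hT : Trap x y K H Sp (Icc (x p) t2) (Icc (x p) t2) κ τ s)
    (hg : GapP x y K H (κ (x p)) p (τ (x p)))
    (h0 : ∀ u ∈ Icc (y (κ (x p))) (y (τ (x p))), s (x p, u) ∉ A)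
    (h1 : ∃ t ∈ Icc (x p) t2, ∃ u ∈ Icc (y (κ t)) (y (τ t)), s (t, u) ∈ A) :
    (∃ v, REv x y K H' Sp' p v) ∧ ∀ v, REv x y K H' Sp' p v → v ∉ Sp := by
  rw [← uIcc_of_le ht2] at hT h1
  obtain ⟨x1, hx1, hx1p, ⟨v, hv, hTr, hgp, u, hu, hs⟩, h2⟩ := ev_gen x y K H Sp H' Sp' A hV hV' hH
    hAc hSp' hSH hSH' hA p t2 κ τ s hT hg h0 h1
  rw [uIcc_of_le ht2] at hx1
  have hlt : x p < x1 := lt_of_le_of_ne hx1.1 (Ne.symm hx1p)
  refine ⟨⟨v, hv, x1, κ, τ, s, hlt, ?_, hgp, u, hu, hs⟩, ?_⟩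
  · rw [uIcc_of_le hlt.le, Icc_sdiff_right] at hTr
    exact hTr
  · rintro v2 ⟨_, t1, κ1, τ1, s1, hlt1, hT1, hg1, u1, hu1, hs1⟩ hvS
    rw [← Icc_sdiff_right, ← uIcc_of_le hlt1.le] at hT1
    refine h2 v2 t1 κ1 τ1 s1 u1 hvS hlt1.ne' ?_ hT1 hg1 hu1 hs1
    rw [uIcc_of_le hlt.le, uIcc_of_le hlt1.le]
    rcases le_total t1 x1 with h | h
    · exact Or.inl ⟨hlt1.le, h⟩
    · exact Or.inr ⟨hlt.le, h⟩

theorem le_event {X : Type} [TopologicalSpace X] [T2Space X] (x y : X → ℝ)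
    (K H Sp H' Sp' A : Set X) (hV : VS x y K H Sp) (hV' : VS x y K H' Sp') (hH : H' = H ∪ A)
    (hAc : IsClosed A) (hSp : Sp ⊆ Sp') (hSp' : Sp' ⊆ Sp ∪ A) (hSH : Sp ⊆ H) (hSH' : Sp' ⊆ H')
    (hA : ∀ v ∈ A, v ∉ Sp' → v ∉ H ∧ LocSec x A v) (p : X) (t2 : ℝ) (ht2 : t2 ≤ x p)
    (κ τ : ℝ → X) (s : ℝ × ℝ → X) (hT : Trap x y K H Sp (Icc t2 (x p)) (Icc t2 (x p)) κ τ s)
    (hg : GapP x y K H (κ (x p)) p (τ (x p)))
    (h0 : ∀ u ∈ Icc (y (κ (x p))) (y (τ (x p))), s (x p, u) ∉ A)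
    (h1 : ∃ t ∈ Icc t2 (x p), ∃ u ∈ Icc (y (κ t)) (y (τ t)), s (t, u) ∈ A) :
    (∃ v, LEv x y K H' Sp' p v) ∧ ∀ v, LEv x y K H' Sp' p v → v ∉ Sp := by
  rw [← uIcc_of_ge ht2] at hT h1
  obtain ⟨x1, hx1, hx1p, ⟨v, hv, hTr, hgp, u, hu, hs⟩, h2⟩ := ev_gen x y K H Sp H' Sp' A hV hV' hH
    hAc hSp' hSH hSH' hA p t2 κ τ s hT hg h0 h1
  rw [uIcc_of_ge ht2] at hx1
  have hlt : x1 < x p := lt_of_le_of_ne hx1.2 hx1p
  refine ⟨⟨v, hv, x1, κ, τ, s, hlt, ?_, hgp, u, hu, hs⟩, ?_⟩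
  · rw [uIcc_of_ge hlt.le, Icc_sdiff_left] at hTr
    exact hTr
  · rintro v2 ⟨_, t1, κ1, τ1, s1, hlt1, hT1, hg1, u1, hu1, hs1⟩ hvS
    rw [← Icc_sdiff_left, ← uIcc_of_ge hlt1.le] at hT1
    refine h2 v2 t1 κ1 τ1 s1 u1 hvS hlt1.ne ?_ hT1 hg1 hu1 hs1
    rw [uIcc_of_ge hlt.le, uIcc_of_ge hlt1.le]
    rcases le_total t1 x1 with h | h
    · exact Or.inr ⟨h, hlt.le⟩
    · exact Or.inl ⟨h, hlt1.le⟩

end D4Q
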