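import Mathlib
import Pool.Agent.D4Q.VD
import Pool.Agent.D4Q.VtGap
import Pool.Agent.D4Q.VtCls
import Pool.Agent.D4Q.VtHR
import Pool.Agent.D4Q.VtSp
import Pool.Agent.D4Q.VtRE

/-!
# D4Q-VtV3: at most six surfaces change the class of a point

PROOF. If `pt p` is on an arc of some `i0 ∈ R` then only `i = i0` counts. Otherwise let `H' = HR R`, `Sp' = SpR R`, `(dn, up)` the ends of the `H'`-gap of `pt p` (good, `off_good`); each of `dn`, `up` is on the arcs of at most one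
surface of `R` (otherwise it would be a crossing, in `Sp'`). Choose `vr` with `REv x y K H' Sp' (pt p) vr` if there is one, similarly `vl` with `LEv`. CLAIM: every counted `i` satisfies: `dn` or `up` is on an arc of `i`, or `vr` exists and
`vr ∉ SpR (R.erase i)`, or the same for `vl`; by `sp_two` at most `1 + 1 + 2 + 2 = 6` surfaces count. Proof of the claim: let `H = HR (R.erase i)`, `Sp = SpR (R.erase i)`, `A` = the arcs of `i`; `p'` as in the definition of counted: `pt p'` on an arc of `i`, off `R.erase i`, `cls` of `pt p` and `pt p'` for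
`(H, Sp)` equal; both points are good (`off_good`). `cls_path` gives a trapezoid over `uIcc (x (pt p)) (x (pt p'))` containing `pt p'` (the gap of `pt p'`). If the closed `H`-gap of `pt p` meets `A`, at a point `z` above (below) `pt p` (not `pt p` itself), take the lowest (highest)
such `z` (finite fibre): it is the upper (lower) end of the `H'`-gap of `pt p`: so `up` (`dn`) is on an arc of `i`. Otherwise `re_event` or `le_event` applies, according to the sign of `x (pt p') - x (pt p)` (not zero: then `pt p' ` would be in the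
closed gap of `pt p`). Hypothesis `hA` of `re_event`: `v ∈ A`, `v ∉ Sp'`: `v` is an interior point of exactly one arc of `R` (of `i`) and not in `B`.
-/

namespace D4Q

open Set

/-- the arcs of a surface -/
private def V3A {X I Λ : Type} (σ : Λ → I) (a b : Λ → ℝ) (α : Λ → ℝ → X) (i : I) : Set X :=
  {v | ∃ l, σ l = i ∧ ∃ t ∈ Icc (a l) (b l), α l t = v}

private theorem V3_HR {X I Λ : Type} [DecidableEq I] (B : Set X) (σ : Λ → I) (a b : Λ → ℝ)
    (α : Λ → ℝ → X) (R : Finset I) (i : I) (hi : i ∈ R) :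
    HR B σ a b α (R : Set I) = HR B σ a b α ((R.erase i : Finset I) : Set I) ∪ V3A σ a b α i := by
  ext v
  constructor
  · rintro (hv | ⟨l, hl, hv⟩)
    · exact Or.inl (Or.inl hv)
    · by_cases h : σ l = i
      · exact Or.inr ⟨l, h, hv⟩
      · exact Or.inl (Or.inr ⟨l, Finset.mem_coe.2 (Finset.mem_erase.2 ⟨h, Finset.mem_coe.1 hl⟩), hv⟩)
  · rintro ((hv | ⟨l, hl, hv⟩) | ⟨l, rfl, hv⟩)
    · exact Or.inl hv
    · exact Or.inr ⟨l, Finset.mem_coe.2 (Finset.mem_of_mem_erase (Finset.mem_coe.1 hl)), hv⟩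
    · exact Or.inr ⟨l, Finset.mem_coe.2 hi, hv⟩

private theorem V3_SpH {X I Λ : Type} {B crit : Set X} (hcB : crit ⊆ B) {σ : Λ → I} {a b : Λ → ℝ}
    (hab : ∀ l, a l < b l) {α : Λ → ℝ → X} (R : Set I) : SpR crit σ a b α R ⊆ HR B σ a b α R := by
  rintro v ((hv | ⟨l, hl, hv⟩) | ⟨l, l', hll, hl, hl', t, ht, ht', hv, hv'⟩)
  · exact Or.inl (hcB hv)
  · rcases hv with rfl | rfl
    · exact Or.inr ⟨l, hl, a l, left_mem_Icc.2 (hab l).le, rfl⟩
    · exact Or.inr ⟨l, hl, b l, right_mem_Icc.2 (hab l).le, rfl⟩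
  · exact Or.inr ⟨l, hl, t, ht, hv⟩

private theorem V3_Sp_mono {X I Λ : Type} (crit : Set X) (σ : Λ → I) (a b : Λ → ℝ)
    (α : Λ → ℝ → X) {R R' : Set I} (h : R ⊆ R') : SpR crit σ a b α R ⊆ SpR crit σ a b α R' := by
  rintro v ((hv | ⟨l, hl, hv⟩) | ⟨l, l', hll, hl, hl', hv⟩)
  · exact Or.inl (Or.inl hv)
  · exact Or.inl (Or.inr ⟨l, h hl, hv⟩)
  · exact Or.inr ⟨l, l', hll, h hl, h hl', hv⟩

private theorem V3_Sp {X I Λ : Type} [DecidableEq I] (crit : Set X) (σ : Λ → I) (a b : Λ → ℝ)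
    (hab : ∀ l, a l < b l) (α : Λ → ℝ → X) (R : Finset I) (i : I) :
    SpR crit σ a b α (R : Set I) ⊆
      SpR crit σ a b α ((R.erase i : Finset I) : Set I) ∪ V3A σ a b α i := by
  have hmem : ∀ j : I, j ∈ (R : Set I) → j ≠ i → j ∈ ((R.erase i : Finset I) : Set I) :=
    fun j hj hne => Finset.mem_coe.2 (Finset.mem_erase.2 ⟨hne, Finset.mem_coe.1 hj⟩)
  rintro v ((hv | ⟨l, hl, hv⟩) | ⟨l, l', hll, hl, hl', t, ht, ht', hv, hv'⟩)
  · exact Or.inl (Or.inl (Or.inl hv))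
  · by_cases h : σ l = i
    · right
      rcases hv with rfl | rfl
      · exact ⟨l, h, a l, left_mem_Icc.2 (hab l).le, rfl⟩
      · exact ⟨l, h, b l, right_mem_Icc.2 (hab l).le, rfl⟩
    · exact Or.inl (Or.inl (Or.inr ⟨l, hmem _ hl h, hv⟩))
  · by_cases h : σ l = i
    · exact Or.inr ⟨l, h, t, ht, hv⟩
    · by_cases h' : σ l' = i
      · exact Or.inr ⟨l', h', t, ht', hv'⟩
      · exact Or.inl (Or.inr ⟨l, l', hll, hmem _ hl h, hmem _ hl' h', t, ht, ht', hv, hv'⟩)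

private theorem V3_closed {X : Type} [TopologicalSpace X] [T2Space X] {I Λ : Type} [Finite Λ]
    (σ : Λ → I) (a b : Λ → ℝ) (α : Λ → ℝ → X) (cα : ∀ l, ContinuousOn (α l) (Icc (a l) (b l))) (i : I) :
    IsClosed (V3A σ a b α i) := by
  have h1 : V3A σ a b α i = ⋃ l ∈ {l | σ l = i}, α l '' Icc (a l) (b l) := by
    ext v
    simp only [V3A, mem_setOf_eq, mem_iUnion, mem_image, exists_prop]
  rw [h1]
  exact (Set.toFinite _).isClosed_biUnion fun l _ => (isCompact_Icc.image_of_continuousOn (cα l)).isClosed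

private theorem V3_loc {X : Type} [TopologicalSpace X] {x : X → ℝ} {H A : Set X} {v : X}
    (h : LocSec x (H ∪ A) v) (hH : IsClosed H) (hv : v ∉ H) : LocSec x A v := by
  obtain ⟨ε, hε, κ, hκ, hκv, hκ', U, hU, hU'⟩ := h
  have h1 : κ ⁻¹' Hᶜ ∈ nhds (x v) := by
    have h2 : ContinuousAt κ (x v) := hκ.continuousAt (Ioo_mem_nhds (by linarith) (by linarith))
    exact h2 (by rw [hκv]; exact hH.isOpen_compl.mem_nhds hv)
  obtain ⟨δ, hδ, hδ'⟩ := Metric.mem_nhds_iff.1 h1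
  have hsub : Ioo (x v - min ε δ) (x v + min ε δ) ⊆ Ioo (x v - ε) (x v + ε) := by
    refine Ioo_subset_Ioo ?_ ?_
    · have := min_le_left ε δ
      linarith
    · have := min_le_left ε δ
      linarith
  refine ⟨min ε δ, lt_min hε hδ, κ, hκ.mono hsub, hκv, fun t ht => ⟨(hκ' t (hsub ht)).1, ?_⟩, U, hU,
    fun z hz hzA => hU' z hz (Or.inr hzA)⟩
  refine (hκ' t (hsub ht)).2.resolve_left (hδ' ?_)
  rw [Metric.mem_ball, Real.dist_eq, abs_lt]
  have := min_le_right ε δ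
  constructor <;> linarith [ht.1, ht.2]

/-- the section of a trapezoid agrees with the path of the gap -/
private theorem V3_sec {X : Type} [TopologicalSpace X] [T2Space X] {x y : X → ℝ} {K H : Set X}
    (hloc : IsLocalHomeomorph (fun ζ => (x ζ, y ζ))) {Sp : Set X} {T T' : Set ℝ} {κ τ : ℝ → X}
    {s : ℝ × ℝ → X} (hT : Trap x y K H Sp T T' κ τ s) {q : X} (hq : x q ∈ T) (γ : ℝ → X)
    (hγ : ContinuousOn γ (Icc (y (κ (x q))) (y (τ (x q)))))
    (hγ' : ∀ u ∈ Icc (y (κ (x q))) (y (τ (x q))), x (γ u) = x q ∧ y (γ u) = u)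
    (h0 : γ (y (κ (x q))) = κ (x q)) :
    ∀ u ∈ Icc (y (κ (x q))) (y (τ (x q))), s (x q, u) = γ u := by
  have h1 : ContinuousOn (fun u : ℝ => s (x q, u)) (Icc (y (κ (x q))) (y (τ (x q)))) := by
    refine hT.cs.comp (Continuous.continuousOn (by fun_prop)) fun u hu => ⟨hq, hu.1, hu.2⟩
  have h2 := sec_unique (fun ζ => (x ζ, y ζ)) hloc (Icc (y (κ (x q))) (y (τ (x q))))
    isPreconnected_Icc (fun u : ℝ => s (x q, u)) γ h1 hγ (fun u hu => by
      have h3 := hT.sec (x q, u) hq hu.1 hu.2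
      have h4 := hγ' u hu
      show (x (s (x q, u)), y (s (x q, u))) = (x (γ u), y (γ u))
      rw [h3.1, h3.2.1, h4.1, h4.2]) (y (κ (x q))) (left_mem_Icc.2 (hT.le _ hq)) (by
      show s (x q, y (κ (x q))) = γ (y (κ (x q)))
      rw [(hT.sκ _ hq).1, h0])
  exact fun u hu => h2 hu

open scoped Classical in
theorem vt_three {X : Type} [TopologicalSpace X] [T2Space X] (x y : X → ℝ) (K B crit : Set X)
    {I Λ P : Type} [Finite Λ] (σ : Λ → I) (a b : Λ → ℝ) (α : Λ → ℝ → X) (pt : P → X)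
    (hD : VDat x y K B crit σ a b α pt) (R : Finset I) (p : P) :
    (R.filter fun i =>
        (∀ j ∈ R.erase i, ¬ ∃ l, σ l = j ∧ ∃ t ∈ Icc (a l) (b l), α l t = pt p) ∧
        ∃ p', (∃ l, σ l = i ∧ ∃ t ∈ Icc (a l) (b l), α l t = pt p') ∧
          (∀ j ∈ R.erase i, ¬ ∃ l, σ l = j ∧ ∃ t ∈ Icc (a l) (b l), α l t = pt p') ∧
          cls x y K (HR B σ a b α ((R.erase i : Finset I) : Set I))
              (SpR crit σ a b α ((R.erase i : Finset I) : Set I)) (pt p) =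
            cls x y K (HR B σ a b α ((R.erase i : Finset I) : Set I))
              (SpR crit σ a b α ((R.erase i : Finset I) : Set I)) (pt p')).card ≤ 6 := by
  have hX : ∀ (v : X) (hv : v ∉ SpR crit σ a b α (R : Set I)),
      (R.filter fun i => v ∈ V3A σ a b α i).card ≤ 1 := by
    intro v hv
    rw [Finset.card_le_one]
    intro i hi j hj
    obtain ⟨hiR, l, hl, t, ht, htv⟩ := Finset.mem_filter.1 hi
    obtain ⟨hjR, l', hl', t', ht', htv'⟩ := Finset.mem_filter.1 hj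
    by_contra hne
    have h1 : t = t' := by rw [← hD.xα l t ht, ← hD.xα l' t' ht', htv, htv']
    subst h1
    refine hv (Or.inr ⟨l, l', fun h => hne (by rw [← hl, ← hl', h]), ?_, ?_, t, ht, ht', htv, htv'⟩)
    · rw [hl]; exact Finset.mem_coe.2 hiR
    · rw [hl']; exact Finset.mem_coe.2 hjR
  by_cases hA : ∃ i0 ∈ R, pt p ∈ V3A σ a b α i0
  · obtain ⟨i0, hi0, hp0⟩ := hA
    refine (Finset.card_le_card (t := {i0}) fun i hi => ?_).trans
      ((Finset.card_singleton _).trans_le (by norm_num))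
    rw [Finset.mem_singleton]
    by_contra hne
    exact (Finset.mem_filter.1 hi).2.1 i0 (Finset.mem_erase.2 ⟨Ne.symm hne, hi0⟩) hp0
  push Not at hA
  have hpH' : pt p ∉ HR B σ a b α (R : Set I) := by
    rintro (h | ⟨l, hl, h⟩)
    · exact (hD.ptK p).2 h
    · exact hA _ (Finset.mem_coe.1 hl) ⟨l, rfl, h⟩
  obtain ⟨-, dn, up, hgap, hdn, hup⟩ := off_good x y K B crit σ a b α pt hD (R : Set I) p hpH'
  -- the four sets
  obtain ⟨A3, hA3c, hA3⟩ : ∃ A3 : Finset I, A3.card ≤ 2 ∧ ∀ i ∈ R,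
      (∃ v, REv x y K (HR B σ a b α (R : Set I)) (SpR crit σ a b α (R : Set I)) (pt p) v) →
      (∀ v, REv x y K (HR B σ a b α (R : Set I)) (SpR crit σ a b α (R : Set I)) (pt p) v →
        v ∉ SpR crit σ a b α ((R.erase i : Finset I) : Set I)) → i ∈ A3 := by
    by_cases h : ∃ v, REv x y K (HR B σ a b α (R : Set I)) (SpR crit σ a b α (R : Set I)) (pt p) v
    · obtain ⟨v, hv⟩ := h
      exact ⟨_, sp_two crit σ a b x α hD.xα hD.hab R v hv.1, fun i hi _ h2 =>
        Finset.mem_filter.2 ⟨hi, h2 v hv⟩⟩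
    · exact ⟨∅, by simp, fun i _ h1 _ => absurd h1 h⟩
  obtain ⟨A4, hA4c, hA4⟩ : ∃ A4 : Finset I, A4.card ≤ 2 ∧ ∀ i ∈ R,
      (∃ v, LEv x y K (HR B σ a b α (R : Set I)) (SpR crit σ a b α (R : Set I)) (pt p) v) →
      (∀ v, LEv x y K (HR B σ a b α (R : Set I)) (SpR crit σ a b α (R : Set I)) (pt p) v →
        v ∉ SpR crit σ a b α ((R.erase i : Finset I) : Set I)) → i ∈ A4 := by
    by_cases h : ∃ v, LEv x y K (HR B σ a b α (R : Set I)) (SpR crit σ a b α (R : Set I)) (pt p) v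
    · obtain ⟨v, hv⟩ := h
      exact ⟨_, sp_two crit σ a b x α hD.xα hD.hab R v hv.1, fun i hi _ h2 =>
        Finset.mem_filter.2 ⟨hi, h2 v hv⟩⟩
    · exact ⟨∅, by simp, fun i _ h1 _ => absurd h1 h⟩
  refine (Finset.card_le_card (t := ((R.filter fun i => dn ∈ V3A σ a b α i) ∪
    (R.filter fun i => up ∈ V3A σ a b α i)) ∪ (A3 ∪ A4)) fun i hi => ?_).trans ?_
  swap
  · have h1 := hX dn hdn
    have h2 := hX up hup
    have h3 := Finset.card_union_le ((R.filter fun i => dn ∈ V3A σ a b α i) ∪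
      (R.filter fun i => up ∈ V3A σ a b α i)) (A3 ∪ A4)
    have h4 := Finset.card_union_le (R.filter fun i => dn ∈ V3A σ a b α i)
      (R.filter fun i => up ∈ V3A σ a b α i)
    have h5 := Finset.card_union_le A3 A4
    omega
  obtain ⟨hiR, hoff, p', hp', hoff', hcls⟩ := Finset.mem_filter.1 hi
  by_contra hcon
  simp only [Finset.mem_union, Finset.mem_filter, hiR, true_and, not_or] at hcon
  obtain ⟨⟨hdnA, hupA⟩, hn3, hn4⟩ := hcon
  set A : Set X := V3A σ a b α i with hAdef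
  set H : Set X := HR B σ a b α ((R.erase i : Finset I) : Set I) with hHdef
  set Sp : Set X := SpR crit σ a b α ((R.erase i : Finset I) : Set I) with hSpdef
  set H' : Set X := HR B σ a b α (R : Set I) with hH'def
  set Sp' : Set X := SpR crit σ a b α (R : Set I) with hSp'def
  have hV : VS x y K H Sp := hr_vs x y K B crit σ a b α pt hD _
  have hV' : VS x y K H' Sp' := hr_vs x y K B crit σ a b α pt hD _
  have hH : H' = H ∪ A := V3_HR B σ a b α R i hiR
  have hAc : IsClosed A := V3_closed σ a b α hD.cα i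
  have hSS : Sp ⊆ Sp' := V3_Sp_mono crit σ a b α (Finset.coe_subset.2 (Finset.erase_subset _ _))
  have hSS' : Sp' ⊆ Sp ∪ A := V3_Sp crit σ a b hD.hab α R i
  have hSH : Sp ⊆ H := V3_SpH hD.critB hD.hab _
  have hSH' : Sp' ⊆ H' := V3_SpH hD.critB hD.hab _
  have hAA : ∀ v ∈ A, v ∉ Sp' → v ∉ H ∧ LocSec x A v := by
    intro v hv hvS
    have hvH : v ∉ H := by
      obtain ⟨l, hl, t, ht, rfl⟩ := hv
      rintro (h | ⟨l', hl', t', ht', h⟩)
      · exact (hD.αK l t ht).2 h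
      · have h1 : t' = t := by rw [← hD.xα l t ht, ← hD.xα l' t' ht', h]
        subst h1
        have h2 := Finset.mem_erase.1 (Finset.mem_coe.1 hl')
        exact hvS (Or.inr ⟨l, l', fun h' => h2.1 (by rw [← h', hl]), by rw [hl]; exact hiR,
          h2.2, t', ht, ht', rfl, h⟩)
    exact ⟨hvH, V3_loc (hH ▸ hV'.ls v (hH ▸ Or.inr hv) hvS) hV.cH hvH⟩
  have hpn : pt p ∉ H := fun h => hpH' (hH ▸ Or.inl h)
  have hpn' : pt p' ∉ H := by
    rintro (h | ⟨l, hl, h⟩)
    · exact (hD.ptK p').2 h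
    · exact hoff' _ (Finset.mem_coe.1 hl) ⟨l, rfl, h⟩
  have hgp := (off_good x y K B crit σ a b α pt hD _ p hpn).2
  have hgp' := (off_good x y K B crit σ a b α pt hD _ p' hpn').2
  obtain ⟨κ, τ, s, hT, hg, hg'⟩ := cls_path x y K H Sp hV (pt p) (pt p') hgp hgp' hcls
  -- the gap of `pt p` is the same
  obtain ⟨hg1, hg2, hg3, hg4, γ, hg5, hg6, hg7, hg8, hg9, hg10⟩ := hgap
  have hgap' : GapP x y K H dn (pt p) up := ⟨hg1, hg2, (hH ▸ hg3 : dn ∈ H ∪ A).resolve_right hdnA,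
    (hH ▸ hg4 : up ∈ H ∪ A).resolve_right hupA, γ, hg5, hg6, hg7, hg8, hg9,
    fun u hu => ⟨(hg10 u hu).1, fun h => (hg10 u hu).2 (hH ▸ Or.inl h)⟩⟩
  obtain ⟨e1, e2⟩ := gap_unique x y K H hD.loc _ _ _ _ _ hgap' hg
  subst e1 e2
  have h0 : ∀ u ∈ Icc (y (κ (x (pt p)))) (y (τ (x (pt p)))), s (x (pt p), u) ∉ A := by
    intro u hu
    rw [V3_sec hD.loc hT (left_mem_uIcc) γ hg5 hg6 hg7 u hu]
    rcases hu.1.eq_or_lt with h | h
    · rw [← h, hg7]
      exact hdnA
    · rcases hu.2.eq_or_lt with h' | h'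
      · rw [h', hg9]
        exact hupA
      · exact fun h'' => (hg10 u ⟨h, h'⟩).2 (hH ▸ Or.inr h'')
  have h1 : s (x (pt p'), y (pt p')) = pt p' ∧
      y (pt p') ∈ Icc (y (κ (x (pt p')))) (y (τ (x (pt p')))) := by
    obtain ⟨hk1, hk2, hk3, hk4, γ', hk5, hk6, hk7, hk8, hk9, hk10⟩ := hg'
    have hk11 : y (pt p') ∈ Icc (y (κ (x (pt p')))) (y (τ (x (pt p')))) := ⟨hk1.le, hk2.le⟩
    exact ⟨by rw [V3_sec hD.loc hT (right_mem_uIcc) γ' hk5 hk6 hk7 _ hk11, hk8], hk11⟩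
  rcases le_total (x (pt p)) (x (pt p')) with hle | hle
  · rw [uIcc_of_le hle] at hT
    have key := re_event x y K H Sp H' Sp' A hV hV' hH hAc hSS hSS' hSH hSH' hAA (pt p) (x (pt p')) hle
      κ τ s hT hg h0 ⟨x (pt p'), right_mem_Icc.2 hle, y (pt p'), h1.2, by rw [h1.1]; exact hp'⟩
    exact hn3 (hA3 i hiR key.1 key.2)
  · rw [uIcc_of_ge hle] at hT
    have key := le_event x y K H Sp H' Sp' A hV hV' hH hAc hSS hSS' hSH hSH' hAA (pt p) (x (pt p')) hle
      κ τ s hT hg h0 ⟨x (pt p'), left_mem_Icc.2 hle, y (pt p'), h1.2, by rw [h1.1]; exact hp'⟩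
    exact hn4 (hA4 i hiR key.1 key.2)

end D4Q
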