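import Mathlib
import Pool.Agent.D4Q.O1
import Pool.Agent.D4Q.VtV2
import Pool.Agent.D4Q.VtV3

/-!
# D4Q part VT: vertical decomposition on a surface étale over the plane

`X` Hausdorff, `(x, y) : X → ℝ × ℝ` a local homeomorphism, `K ⊆ X` compact, `B ⊆ K` closed with
`K ∖ B` open; `B` is a curve, étale over the `x`-axis outside the finite set `crit`, and meets every
line `x = t` in finitely many points. Finitely many compact arcs (`l : Λ`), sections over intervals
`[a l, b l]` of the `x`-axis, in `K ∖ B`, the arc `l` belongs to the surface `σ l`. Points `pt p`.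
See the statement `vt` for the hypotheses and the conclusion.

ASSEMBLY (this file): `rel R` = kernel of `p ↦ cls x y K (HR R) (SpR R) (pt p)` (`Setoid.ker`), `w R i` = `(wU ..).ncard + (wD ..).ncard`; `VDat` from the
hypotheses; `vt_two`, `vt_w`, `vt_three`. The text below is the proof of the whole part, done in the files VtXxx.lean.

PAPER PROOF. For `R : Finset I` let `H = H_R` be the union of `B` and of the arcs of the surfaces in
`R` and `Sp = Sp_R` the finite set of: `crit`, endpoints of arcs of `R`, points lying on two different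
arcs of `R`. `H` is closed, meets each line `x = t` in finitely many points, and satisfies
`LocSec x H v` at `v ∈ H ∖ Sp` (such `v` is in the interior of exactly one arc, or in `B ∖ crit`).
GAPS. A gap is a continuous `γ : [y0, y1] → K`, `y0 < y1`, `x (γ u) = t` fixed, `y (γ u) = u`,
`γ y0, γ y1 ∈ H`, `γ u ∉ H` for `y0 < u < y1`. Every `p ∈ K ∖ H` is in exactly one gap (lift the
vertical line from `p` upwards as long as it stays in `K ∖ H`, which is open; by compactness of `K` and
the local homeomorphism the lift converges, its end is in `H`; uniqueness of lifts, `X` Hausdorff).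
Its ends are `dn p` and `up p`. A point `v ∈ H` is the lower end of at most one gap.
TUBES. (T0) A section of `(x, y)` over a compact set `C ⊆ ℝ²` extends to a section over a
neighbourhood of `C` (a local homeomorphism which is injective on a compact set is injective on
a neighbourhood).
GOOD POINTS: `p ∈ K ∖ H` with `dn p, up p ∉ Sp`. `G = {dn p | p good}`. (OPEN) If `p` is good then for `x' `
near `x p` the sections `κ(x')` of `H` through `dn p` and `τ(x')` through `up p` (LocSec) bound a gap
over `x'`, by (T0) and compactness of the middle part; so the good points form an open set, `LocSec x G v`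
holds for `v ∈ G`, and nearby points `p'` have `dn p' = κ (x p')`. By `comp_section` the component
of `G` containing `v` is a section `κ : J → G`, `J` an open interval.
(EXT) If `κ : (t1, t0] → G` is a section (or `[t0, t1)`), then `κ` and the upper ends `τ` converge for
`t → t1` (the limit set is connected in `H ∩ {x = t1}`, finite), the limits `β, ω` are in
`H`, and the closed gaps converge to a section over `{t1} × [y β, y ω]` (T0; possibly
`β = ω`), contained in `K`; if no point of this closed limit slice is in `Sp` then `β ∈ G`, `β ≠ ω` and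
the slice is the gap above `β`. For `κ : [t0, t1] → G` the union of the closed gaps is compact.
THE RELATION. `rel R p p'` : `pt p`, `pt p'` good with `dn` in the same component of `G`, or `p = p'`.
For `p` off `R` (`pt p` not on an arc of `R`) `pt p` is good, because `x (pt p) ≠ x v` for
`v ∈ Sp_R` (hPc, hPx, and endpoints are points `pt p'`, `p' ≠ p`).
(V3) Let `p` be given, `R+ = R`. Case A: `p` is on an arc of some `i0 ∈ R+`: then only `i = i0` counts.
Case B: `p` off `R+`. Let `i` be counted, `R = R+ ∖ i`, `p'` on an arc of `i`, off `R`, in the class of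
`p` for `R`, say `x p ≤ x p'` (the case `≥` is symmetric), `κ : [x p, x p'] → G_R` the section from
`dn_R p` to `dn_R p'`, `T` the compact union of the closed `R`-gaps above `κ`. It contains the
point `pt p'` of an arc of `i`; let `x1` be the minimum of `x` over the intersection of `T` and the
arcs of `i`. If `x1 = x p`: then an arc of `i` meets the closed `R`-gap of `p`, and the lower or upper end of the
`R+`-gap of `p` is on an arc of `i` and of no other surface of `R+`: at most two `i`. If `x1 > x p`: for
`t ∈ [x p, x1)` the `R`-gap above `κ t` is an `R+`-gap with ends not in `Sp_{R+}`. Every point `v'` of an arc of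
`i` in the slice of `T` over `x1` is in `Sp_{R+}`: if it is an end of the slice it is in `H_R`; it is not in `B`, so it is on
two arcs; if it is in the open gap and not an endpoint, the arc of `i` continues to the left of `x1`
inside `T`, contradiction. So the component of `G_{R+}` of `dn p` ends at `x1` (if it went on, the
`R+`-gap above `κ(x1)` would have nonspecial ends but contain or end at a point `v'`). Let `E` be the set
of points of `Sp_{R+}` over `x1` in the closure of the union of the `R+`-gaps above the component of
`G_{R+}` over `[x p, x1)`; `E` depends only on `p`, `R+`; it is nonempty; choose `v ∈ E`. `v ∈ T`, and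
`T` contains no point of `Sp_R` (its points in `H_R` are ends of good gaps). So `v ∈ Sp_{R+} ∖ Sp_{R+ ∖ i}`,
which holds for at most two `i`. The same on the left side: at most `2 + 2 + 2 = 6` surfaces `i`.
(V2) `w R i` := number of pairs `(v, dir)`, `v ∈ Sp_R`, `dir` up or down, such that the arcs of `i` meet the
open gap of `H_R` starting at `v` in direction `dir` (vertical lift from `v` in `K ∖ H_R` up to the
next point of `H_R`). SECOND INEQUALITY: for `v ∈ Sp_{R∖i} ⊆ Sp_R` and `dir` the first point of `H_R` met from `v` in
direction `dir` is on an arc of `i` and on no arc of `R ∖ i`: at most one `i` for each `(v, dir)`. And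
`|Sp_R| ≤ 2 (number of arcs of R) + crossings + crit.card`.
FIRST INEQUALITY: `i ∉ R`. For each class `Z` (points `p` off `R` on arcs of `i`) let `p ∈ Z` be the one
with the smallest `x`, on the arc `l` of `i`, and let `t1` be the infimum of the `t ∈ [a l, x p]` such that the arc is
in good points of the same class (component) over `[t, x p]`. If `t1 = a l` and the arc is still good and in
the class at `t1` then (endpoints are points `pt p'`) `p` is the endpoint: charge `l`. Otherwise `α l t1 ∈ H_R`
(crossing: charge `(l, t1)`; the class is the one just right of `t1` on `l`), or `α l t1 ∉ H_R` and one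
end `v` of its `R`-gap is in `Sp_R` (if both are not, (OPEN) continues the class to the left or includes `t1`): charge `(v, dir)`.
If two classes are charged to the same `(v, dir)` by `α l t1`, `α l' t1`, both in the same open gap of
`H_R`, then over `t` slightly to the right of `t1` the points `α l t`, `α l' t` are in the same gap
(the closed segment between them is compact and outside `H_R`; T0), so the classes are equal.
-/

namespace D4Q

private theorem vt_fi {P : Type*} (p q : P → Prop) (i1 : DecidablePred p) (i2 : DecidablePred q)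
    (s : Finset P) (h : ∀ x ∈ s, p x → q x) :
    (@Finset.filter P p i1 s).card ≤ (@Finset.filter P q i2 s).card := by
  refine Finset.card_le_card fun x hx => ?_
  rw [Finset.mem_filter] at hx ⊢
  exact ⟨hx.1, h x hx.1 hx.2⟩

private theorem vt_im {P γ : Type*} (p q : P → Prop) (i1 : DecidablePred p) (i2 : DecidablePred q)
    (s : Finset P) (g : P → γ) (d1 : DecidableEq (Quotient (Setoid.ker g))) (d2 : DecidableEq γ)
    (h : ∀ x ∈ s, p x → q x) :
    (@Finset.image _ _ d1 (Quotient.mk (Setoid.ker g)) (@Finset.filter P p i1 s)).card ≤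
      (@Finset.image _ _ d2 g (@Finset.filter P q i2 s)).card := by
  refine Finset.card_le_card_of_injOn (Quotient.lift g fun _ _ h => h) ?_ ?_
  · intro q hq
    obtain ⟨x, hx, rfl⟩ := Finset.mem_image.1 hq
    refine Finset.mem_image.2 ⟨x, ?_, rfl⟩
    rw [Finset.mem_filter] at hx ⊢
    exact ⟨hx.1, h x hx.1 hx.2⟩
  · intro q _ q' _
    induction q using Quotient.inductionOn with
    | h p =>
      induction q' using Quotient.inductionOn with
      | h p' =>
        intro h
        exact Quotient.sound h

open scoped Classical in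
theorem vt {X : Type} [TopologicalSpace X] [T2Space X] (x y : X → ℝ)
    (hπ : IsLocalHomeomorph (fun ζ => (x ζ, y ζ))) (K B : Set X) (crit : Finset X)
    (hK : IsCompact K) (hB : IsClosed B) (hBK : B ⊆ K) (hKB : IsOpen (K \ B))
    (hcB : (crit : Set X) ⊆ B) (hBloc : ∀ v ∈ B, v ∉ crit → LocSec x B v)
    (hBfin : ∀ t : ℝ, {v | v ∈ B ∧ x v = t}.Finite)
    {I Λ P : Type} [Fintype I] [Fintype Λ] [Fintype P] (σ : Λ → I) (a b : Λ → ℝ)
    (hab : ∀ l, a l < b l) (α : Λ → ℝ → X)
    (hα : ∀ l, ContinuousOn (α l) (Set.Icc (a l) (b l)))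
    (hαx : ∀ l, ∀ t ∈ Set.Icc (a l) (b l), x (α l t) = t)
    (hαK : ∀ l, ∀ t ∈ Set.Icc (a l) (b l), α l t ∈ K \ B)
    (pt : P → X) (hptK : ∀ p, pt p ∈ K \ B) (hend : ∀ l, (∃ p, pt p = α l (a l)) ∧ ∃ p, pt p = α l (b l))
    (hxP : ∀ p p', x (pt p) = x (pt p') → p = p')
    (hPc : ∀ p, ∀ v ∈ crit, x v ≠ x (pt p))
    (hPx : ∀ p l l' t, l ≠ l' → t ∈ Set.Icc (a l) (b l) → t ∈ Set.Icc (a l') (b l') →
      α l t = α l' t → t = x (pt p) → pt p = α l t)
    (cr : I → I → ℕ)
    (hcr : ∀ i j, {z : Λ × Λ × ℝ | σ z.1 = i ∧ σ z.2.1 = j ∧ z.1 ≠ z.2.1 ∧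
      z.2.2 ∈ Set.Icc (a z.1) (b z.1) ∧ z.2.2 ∈ Set.Icc (a z.2.1) (b z.2.1) ∧
      α z.1 z.2.2 = α z.2.1 z.2.2}.encard ≤ cr i j) :
    ∃ (rel : Finset I → Setoid P) (w : Finset I → I → ℕ),
      (∀ (R : Finset I) (i : I), i ∉ R →
        ((Finset.univ.filter fun p => (∃ l, σ l = i ∧ ∃ t ∈ Set.Icc (a l) (b l), α l t = pt p) ∧
          ∀ j ∈ R, ¬ ∃ l, σ l = j ∧ ∃ t ∈ Set.Icc (a l) (b l), α l t = pt p).image
            (Quotient.mk (rel R))).card ≤
          ((Finset.univ.filter fun l => σ l = i).card + cr i i) + ∑ j ∈ R, cr i j + w R i) ∧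
      (∀ R : Finset I, ∑ i ∈ R, w (R.erase i) i ≤
        2 * (2 * ∑ i ∈ R, ((Finset.univ.filter fun l => σ l = i).card + cr i i) +
          ∑ i ∈ R, ∑ j ∈ R.erase i, cr i j + crit.card)) ∧
      (∀ (R : Finset I) (p : P), (R.filter fun i =>
        (∀ j ∈ R.erase i, ¬ ∃ l, σ l = j ∧ ∃ t ∈ Set.Icc (a l) (b l), α l t = pt p) ∧
        ∃ p', (∃ l, σ l = i ∧ ∃ t ∈ Set.Icc (a l) (b l), α l t = pt p') ∧
          (∀ j ∈ R.erase i, ¬ ∃ l, σ l = j ∧ ∃ t ∈ Set.Icc (a l) (b l), α l t = pt p') ∧
          (rel (R.erase i)).r p p').card ≤ 6) := by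
  have hD : VDat x y K B (crit : Set X) σ a b α pt :=
    { loc := hπ
      cK := hK
      cB := hB
      BK := hBK
      op := hKB
      fcrit := crit.finite_toSet
      critB := hcB
      Bloc := fun v hv hvc => hBloc v hv fun h => hvc h
      Bfin := hBfin
      hab := hab
      cα := hα
      xα := hαx
      αK := hαK
      ptK := hptK
      ends := hend
      xP := hxP
      Pc := fun p v hv => hPc p v hv
      Px := hPx
      crf := by
        have h1 : ∀ ij : I × I, {z : Λ × Λ × ℝ | σ z.1 = ij.1 ∧ σ z.2.1 = ij.2 ∧ z.1 ≠ z.2.1 ∧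
            z.2.2 ∈ Set.Icc (a z.1) (b z.1) ∧ z.2.2 ∈ Set.Icc (a z.2.1) (b z.2.1) ∧
            α z.1 z.2.2 = α z.2.1 z.2.2}.Finite := by
          intro ij
          refine Set.encard_lt_top_iff.1 (lt_of_le_of_lt (hcr ij.1 ij.2) ?_)
          exact ENat.natCast_lt_top _
        refine (Set.finite_iUnion h1).subset ?_
        rintro z ⟨hz1, hz2, hz3, hz4⟩
        exact Set.mem_iUnion.2 ⟨(σ z.1, σ z.2.1), rfl, rfl, hz1, hz2, hz3, hz4⟩ }
  refine ⟨fun R => Setoid.ker (fun p => cls x y K (HR B σ a b α (R : Set I))
      (SpR (crit : Set X) σ a b α (R : Set I)) (pt p)),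
    fun R i => (wU x y K B (crit : Set X) σ a b α (R : Set I) i).ncard +
      (wD x y K B (crit : Set X) σ a b α (R : Set I) i).ncard, ?_, ?_, ?_⟩
  · intro R i hi
    have h := vt_two x y K B (crit : Set X) σ a b α pt hD cr hcr R i hi
    refine le_trans ?_ (h.trans (by beta_reduce; omega))
    exact vt_im _ _ _ _ _ _ _ _ fun _ _ h => h
  · intro R
    exact vt_w x y K B crit σ a b α pt hD cr hcr R
  · intro R p
    exact (vt_fi _ _ _ _ _ fun _ _ h => h).trans
      (vt_three x y K B (crit : Set X) σ a b α pt hD R p)

end D4Q
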