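import Mathlib
import Pool.Agent.D4Q.Defs

/-!
# D4Q-W1: definitions for the codimension two incidence bound

`Tab.Rz`: the points of the region of a class with nonzero last minor; `XT T`: the disjoint union of the
codimension two varieties of the classes; `Tab.pt`: the point of `XT T` given by a class and a point of `Rz`;
`Tab.arcsb b`: the contribution of the base `b` to `Tab.arcs`.
-/

namespace D4Q

open MvPolynomial

/-- The points of the region of the class `γ` where the last minor of the two gradients does not vanish. -/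
def Tab.Rz {B L : Type} (T : Tab B L) (γ : L) : Set (Fin 4 → ℝ) :=
  {p | p ∈ T.Reg γ ∧ eval p (jzw (T.h (T.β γ)) (T.g γ)) ≠ 0}

/-- The disjoint union of the codimension two varieties of the classes. -/
abbrev XT {B L : Type} (T : Tab B L) : Type := Σ γ : L, Wv (T.h (T.β γ)) (T.g γ)

/-- The point of `XT T` over a point of `Rz`. -/
def Tab.pt {B L : Type} (T : Tab B L) (γ : L) (p : Fin 4 → ℝ) (h : p ∈ T.Rz γ) : XT T :=
  ⟨γ, ⟨p, h.1.1, h.1.2.2.2.1, h.2⟩⟩

theorem Tab.pt_congr {B L : Type} (T : Tab B L) {γ γ' : L} {p p' : Fin 4 → ℝ} (h : p ∈ T.Rz γ)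
    (h' : p' ∈ T.Rz γ') (h1 : γ = γ') (h2 : p = p') : T.pt γ p h = T.pt γ' p' h' := by
  subst h1 h2
  rfl

theorem Tab.pt_inj {B L : Type} (T : Tab B L) {γ γ' : L} {p p' : Fin 4 → ℝ} (h : p ∈ T.Rz γ)
    (h' : p' ∈ T.Rz γ') (h1 : T.pt γ p h = T.pt γ' p' h') : γ = γ' ∧ p = p' := by
  have h2 : γ = γ' := congrArg Sigma.fst h1
  subst h2
  refine ⟨rfl, ?_⟩
  have h3 := (Sigma.mk.injEq _ _ _ _).mp h1
  exact congrArg Subtype.val (eq_of_heq h3.2)

/-- If the regions are disjoint, the class of a point is unique. -/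
theorem Tab.cls_unique {B L : Type} (T : Tab B L) (hd : ∀ γ γ', γ ≠ γ' → Disjoint (T.Reg γ) (T.Reg γ'))
    {γ γ' : L} {p : Fin 4 → ℝ} (h : p ∈ T.Rz γ) (h' : p ∈ T.Rz γ') : γ = γ' := by
  by_contra hne
  exact Set.disjoint_left.mp (hd γ γ' hne) h.1 h'.1

open scoped Classical in
/-- The contribution of the base `b` to `Tab.arcs`. -/
noncomputable def Tab.arcsb {B L : Type} [Fintype L] (T : Tab B L) (b : B) : ℕ :=
  ((T.h b).totalDegree + 1) *
    ((T.h b).totalDegree + (T.κ b).totalDegree + (T.G b).totalDegree + 1) +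
  ∑ γ ∈ Finset.univ.filter (fun γ => T.β γ = b), ((T.h b).totalDegree + 1) * ((T.h b).totalDegree +
    (T.g γ).totalDegree + (T.l γ).totalDegree + (T.r γ).totalDegree + 1)

theorem Tab.sum_arcsb {B L : Type} [Fintype B] [Fintype L] (T : Tab B L) : ∑ b, T.arcsb b = T.arcs := by
  classical
  unfold Tab.arcsb Tab.arcs
  rw [Finset.sum_add_distrib]
  congr 1
  rw [← Finset.sum_fiberwise (s := (Finset.univ : Finset L)) (g := T.β) (f := fun γ =>
    ((T.h (T.β γ)).totalDegree + 1) * ((T.h (T.β γ)).totalDegree + (T.g γ).totalDegree +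
    (T.l γ).totalDegree + (T.r γ).totalDegree + 1))]
  refine Finset.sum_congr rfl fun b _ => ?_
  refine Finset.sum_congr ?_ fun γ hγ => ?_
  · ext γ
    simp
  · have h1 : T.β γ = b := by simpa using hγ
    rw [h1]

end D4Q
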