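import Mathlib
import Pool.Agent.D4Q.PP
import Pool.Agent.D4Q.ARC
import Pool.Agent.D4Q.W1_Defs

/-!
# D4Q-W1_A1: the arcs of one surface for one base

PROOF. `q = bind₁ ψ (h b)`, degree `≤ K deg (h b)` (`eval s q = eval (ev ψ s) (h b)`; degree of `bind₁`: every monomial of degree `d` gives a
polynomial of degree `≤ K d`). `pp c K` (constant `K1`) for `q`: `u`, `X0`, `deg u ≤ K1 (K deg (h b) + 1)`, `|X0| ≤ K1 (K deg (h b) + 1)^2`.
For `s ∈ Q` `eval s q = 0` and `q` does not vanish identically near `s` (`VanAt` is this statement), so `s (inr 0) ∈ X0` (at most `|X0|` points, `hinj`) or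
`s ∈ Q'`, `Q'` = the points of `Q` with `u = 0 ≠ u_y`. Let `L' = {γ // T.β γ = b}`. If `L'` is empty then `Q = ∅`: take `Λ = Empty`. Otherwise
`arcs c K` (constant `K2`) for `u`, `J = Fin 3 ⊕ (L' × Fin 4)`, `ell = bind₁ ψ` of `h b, κ b, G b` and (for `γ : L'`) of `g γ, l γ, r γ, jzw (h b) (g γ)`;
`Zc γ = {inl 0, inl 1, inr (γ, 0), inr (γ, 1)}`, `Nc γ = {inl 2, inr (γ, 2), inr (γ, 3)}`; `cl q` = the class of `ev ψ q` (choice; arbitrary
if there is none). Conditions for `γ` at `q` are equivalent to `ev ψ q ∈ T.Rz γ` (use `T.β γ = b`). No other class: `T.cls_unique`.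
The first exceptional set is `{q ∈ Q | q (inr 0) ∈ X0}`, the second one is from `arcs`. Degrees: `deg u + 1 ≤ C (deg h + 1)`,
`deg (ell j) ≤ K deg`, `deg (jzw f g) ≤ deg f + deg g`. `∑_j` over `J` = three terms and the sum over `L'` of four terms, each `≤ C` times the
corresponding term of `T.arcsb b` (`Finset.sum_subtype` or `Finset.sum_coe_sort` to compare the sums over `L'` and over the filter); `(deg u + 1)^2`, `|X0| ≤ C (deg h + 1)^2`.
-/

namespace D4Q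

open MvPolynomial

private theorem W1_A1_eval {ι κ : Type*} (ψ : κ → MvPolynomial ι ℝ) (f : MvPolynomial κ ℝ) (t : ι → ℝ) :
    eval t (bind₁ ψ f) = eval (ev ψ t) f := by
  induction f using MvPolynomial.induction_on with
  | C a => simp
  | add p q hp hq => rw [map_add, map_add, map_add, hp, hq]
  | mul_X p n hp =>
    rw [map_mul, map_mul, map_mul, hp, bind₁_X_right, eval_X]
    rfl

private theorem W1_A1_deg {ι κ : Type*} {K : ℕ} (ψ : κ → MvPolynomial ι ℝ)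
    (hψ : ∀ i, (ψ i).totalDegree ≤ K) (f : MvPolynomial κ ℝ) :
    (bind₁ ψ f).totalDegree ≤ K * f.totalDegree := by
  classical
  have h0 : bind₁ ψ f = ∑ m ∈ f.support, bind₁ ψ (monomial m (coeff m f)) := by
    rw [← map_sum, ← f.as_sum]
  rw [h0]
  refine totalDegree_finsetSum_le fun m hm => ?_
  rw [bind₁_monomial]
  refine (totalDegree_mul _ _).trans ?_
  rw [totalDegree_C, zero_add]
  refine (totalDegree_finsetProd _ _).trans ?_
  calc ∑ i ∈ m.support, (ψ i ^ m i).totalDegree ≤ ∑ i ∈ m.support, m i * K :=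
        Finset.sum_le_sum fun i _ => (totalDegree_pow _ _).trans (Nat.mul_le_mul_left _ (hψ i))
    _ = K * (m.sum fun _ e => e) := by rw [Finsupp.sum, ← Finset.sum_mul, mul_comm]
    _ ≤ K * f.totalDegree := Nat.mul_le_mul_left _ (le_totalDegree hm)

private theorem W1_A1_pd {ι : Type*} (i : ι) (f : MvPolynomial ι ℝ) :
    (pderiv i f).totalDegree ≤ f.totalDegree := by
  classical
  conv_lhs => rw [f.as_sum]
  rw [map_sum]
  refine (totalDegree_finsetSum _ _).trans ?_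
  refine Finset.sup_le fun m hm => ?_
  rw [pderiv_monomial]
  refine (totalDegree_monomial_le _ _).trans ?_
  refine le_trans ?_ (le_totalDegree hm)
  have h1 : m - Finsupp.single i 1 ≤ m := tsub_le_self
  exact Finsupp.degree_mono h1

private theorem W1_A1_jzw (f g : MvPolynomial (Fin 4) ℝ) :
    (jzw f g).totalDegree ≤ f.totalDegree + g.totalDegree := by
  unfold jzw
  refine (totalDegree_sub _ _).trans (max_le ?_ ?_)
  · exact (totalDegree_mul _ _).trans (add_le_add (W1_A1_pd _ _) (W1_A1_pd _ _))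
  · exact (totalDegree_mul _ _).trans (add_le_add (W1_A1_pd _ _) (W1_A1_pd _ _))

/-- The factor of one polynomial. -/
private theorem W1_A1_one {C1 K D m d d' s : ℕ} (hm : m + 1 ≤ C1 * (D + 1)) (hd : d ≤ K * d')
    (hs : d' ≤ D + s) :
    (m + 1) * (m + d + 1) ≤ 2 * (C1 * (C1 + K)) * ((D + 1) * (D + s + 1)) := by
  have h1 : m + d + 1 ≤ (C1 + K) * (2 * (D + s + 1)) := by
    calc m + d + 1 ≤ C1 * (D + 1) + K * d' := by omega
      _ ≤ C1 * (2 * (D + s + 1)) + K * (2 * (D + s + 1)) :=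
        add_le_add (Nat.mul_le_mul_left _ (by omega)) (Nat.mul_le_mul_left _ (by omega))
      _ = (C1 + K) * (2 * (D + s + 1)) := by ring
  calc (m + 1) * (m + d + 1) ≤ (C1 * (D + 1)) * ((C1 + K) * (2 * (D + s + 1))) :=
        Nat.mul_le_mul hm h1
    _ = 2 * (C1 * (C1 + K)) * ((D + 1) * (D + s + 1)) := by ring

section

variable {B L : Type} (T : Tab B L) (b : B)

/-- The polynomials of the classes with base `b`. -/
private noncomputable def W1_A1_f : Fin 3 ⊕ ({γ : L // T.β γ = b} × Fin 4) → MvPolynomial (Fin 4) ℝ :=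
  Sum.elim ![T.h b, T.κ b, T.G b]
    (fun p => ![T.g p.1, T.l p.1, T.r p.1, jzw (T.h b) (T.g p.1)] p.2)

open scoped Classical in
/-- The polynomials vanishing on the class. -/
private noncomputable def W1_A1_Z (γ : {γ : L // T.β γ = b}) :
    Finset (Fin 3 ⊕ ({γ : L // T.β γ = b} × Fin 4)) :=
  {Sum.inl 0, Sum.inl 1, Sum.inr (γ, 0), Sum.inr (γ, 1)}

open scoped Classical in
/-- The polynomials not vanishing on the class. -/
private noncomputable def W1_A1_N (γ : {γ : L // T.β γ = b}) :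
    Finset (Fin 3 ⊕ ({γ : L // T.β γ = b} × Fin 4)) :=
  {Sum.inl 2, Sum.inr (γ, 2), Sum.inr (γ, 3)}

private theorem W1_A1_cond (p : Fin 4 → ℝ) (γ : {γ : L // T.β γ = b}) :
    ((∀ j ∈ W1_A1_Z T b γ, eval p (W1_A1_f T b j) = 0) ∧
      ∀ j ∈ W1_A1_N T b γ, eval p (W1_A1_f T b j) ≠ 0) ↔ p ∈ T.Rz γ := by
  obtain ⟨γ, hγ⟩ := γ
  have hZ : (∀ j ∈ W1_A1_Z T b ⟨γ, hγ⟩, eval p (W1_A1_f T b j) = 0) ↔
      (eval p (T.h b) = 0 ∧ eval p (T.κ b) = 0 ∧ eval p (T.g γ) = 0 ∧ eval p (T.l γ) = 0) := by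
    unfold W1_A1_Z W1_A1_f
    simp only [Finset.mem_insert, Finset.mem_singleton, forall_eq_or_imp, forall_eq]
    rfl
  have hN : (∀ j ∈ W1_A1_N T b ⟨γ, hγ⟩, eval p (W1_A1_f T b j) ≠ 0) ↔
      (eval p (T.G b) ≠ 0 ∧ eval p (T.r γ) ≠ 0 ∧ eval p (jzw (T.h b) (T.g γ)) ≠ 0) := by
    unfold W1_A1_N W1_A1_f
    simp only [Finset.mem_insert, Finset.mem_singleton, forall_eq_or_imp, forall_eq]
    rfl
  rw [hZ, hN]
  show _ ↔ (eval p (T.h (T.β γ)) = 0 ∧ eval p (T.κ (T.β γ)) = 0 ∧ eval p (T.G (T.β γ)) ≠ 0 ∧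
    eval p (T.g γ) = 0 ∧ eval p (T.l γ) = 0 ∧ eval p (T.r γ) ≠ 0) ∧
    eval p (jzw (T.h (T.β γ)) (T.g γ)) ≠ 0
  rw [hγ]
  tauto

open scoped Classical in
private theorem W1_A1_sum [Fintype L] {c K C1 m : ℕ} (ψ : Fin 4 → MvPolynomial (Fin c ⊕ Fin 2) ℝ)
    (hψ : ∀ i, (ψ i).totalDegree ≤ K) (hm : m + 1 ≤ C1 * ((T.h b).totalDegree + 1)) :
    ∑ j, (m + 1) * (m + (bind₁ ψ (W1_A1_f T b j)).totalDegree + 1) ≤
      8 * (C1 * (C1 + K)) * T.arcsb b := by
  have hd := W1_A1_deg ψ hψ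
  rw [Fintype.sum_sum_type, Fin.sum_univ_three, Fintype.sum_prod_type]
  unfold Tab.arcsb
  rw [Nat.mul_add (8 * (C1 * (C1 + K)))]
  refine Nat.add_le_add ?_ ?_
  · have e0 := W1_A1_one (s := (T.κ b).totalDegree + (T.G b).totalDegree) hm (hd (T.h b)) (by omega)
    have e1 := W1_A1_one (s := (T.κ b).totalDegree + (T.G b).totalDegree) hm (hd (T.κ b)) (by omega)
    have e2 := W1_A1_one (s := (T.κ b).totalDegree + (T.G b).totalDegree) hm (hd (T.G b)) (by omega)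
    have e3 := add_le_add (add_le_add e0 e1) e2
    refine le_trans (le_of_eq ?_) (e3.trans (le_trans (le_of_eq ?_) (Nat.mul_le_mul_right
      (((T.h b).totalDegree + 1) *
        ((T.h b).totalDegree + (T.κ b).totalDegree + (T.G b).totalDegree + 1))
      (Nat.mul_le_mul_right (C1 * (C1 + K)) (show 6 ≤ 8 by norm_num)))))
    · rfl
    · ring
  · rw [Finset.mul_sum]
    have e5 : ∑ γ ∈ Finset.univ.filter (fun γ => T.β γ = b), 8 * (C1 * (C1 + K)) *
        (((T.h b).totalDegree + 1) * ((T.h b).totalDegree +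
        (T.g γ).totalDegree + (T.l γ).totalDegree + (T.r γ).totalDegree + 1)) =
        ∑ γ : {γ : L // T.β γ = b}, 8 * (C1 * (C1 + K)) *
        (((T.h b).totalDegree + 1) * ((T.h b).totalDegree +
        (T.g γ).totalDegree + (T.l γ).totalDegree + (T.r γ).totalDegree + 1)) := by
      refine Finset.sum_subtype _ (fun γ => ?_) _
      simp
    rw [e5]
    refine Finset.sum_le_sum fun γ _ => ?_
    rw [Fin.sum_univ_four]
    have e0 := W1_A1_one (s := (T.g γ).totalDegree + (T.l γ).totalDegree + (T.r γ).totalDegree) hm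
      (hd (T.g γ)) (by omega)
    have e1 := W1_A1_one (s := (T.g γ).totalDegree + (T.l γ).totalDegree + (T.r γ).totalDegree) hm
      (hd (T.l γ)) (by omega)
    have e2 := W1_A1_one (s := (T.g γ).totalDegree + (T.l γ).totalDegree + (T.r γ).totalDegree) hm
      (hd (T.r γ)) (by omega)
    have hj := W1_A1_jzw (T.h b) (T.g γ)
    have e3 := W1_A1_one (s := (T.g γ).totalDegree + (T.l γ).totalDegree + (T.r γ).totalDegree) hm
      (hd (jzw (T.h b) (T.g γ))) (by omega)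
    refine le_trans (le_of_eq ?_) ((add_le_add (add_le_add (add_le_add e0 e1) e2) e3).trans (le_of_eq ?_))
    · rfl
    · ring

end

open scoped Classical in
theorem w1_base (c K : ℕ) : ∃ A : ℕ, ∀ (e : Fin c → MvPolynomial (Fin c ⊕ Fin 2) ℝ)
    (S : Set (Fin c ⊕ Fin 2 → ℝ)), IsEt K e S →
    ∀ (ψ : Fin 4 → MvPolynomial (Fin c ⊕ Fin 2) ℝ), IsChart K ψ →
    ∀ (B L : Type) [Fintype L] (T : Tab B L),
    (∀ γ γ', γ ≠ γ' → Disjoint (T.Reg γ) (T.Reg γ')) →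
    ∀ (b : B) (Q : Finset (Fin c ⊕ Fin 2 → ℝ)),
    Set.InjOn (fun q : Fin c ⊕ Fin 2 → ℝ => q (Sum.inr 0)) (Q : Set (Fin c ⊕ Fin 2 → ℝ)) →
    (∀ q ∈ Q, q ∈ S ∧ ∃ γ, T.β γ = b ∧ ev ψ q ∈ T.Rz γ ∧ ¬ VanAt S ψ (T.h b) q) →
    ∃ (Λ : Type) (_ : Fintype Λ) (lab : Λ → L) (a a' : Λ → ℝ)
      (ρ : Λ → ℝ → (Fin c ⊕ Fin 2 → ℝ)),
      Fintype.card Λ ≤ A * T.arcsb b ∧
      (∀ l, T.β (lab l) = b ∧ a l < a' l ∧ ContinuousOn (ρ l) (Set.Icc (a l) (a' l)) ∧
        (∀ t ∈ Set.Icc (a l) (a' l), ρ l t (Sum.inr 0) = t ∧ ρ l t ∈ S ∧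
          ev ψ (ρ l t) ∈ T.Rz (lab l)) ∧
        ρ l (a l) ∈ Q ∧ ρ l (a' l) ∈ Q) ∧
      (∀ l l' t t', t ∈ Set.Icc (a l) (a' l) → t' ∈ Set.Icc (a l') (a' l') → ρ l t = ρ l' t' → l = l') ∧
      (Q.filter fun q => ¬ ∃ l, ∃ t ∈ Set.Icc (a l) (a' l), ρ l t = q).card ≤ A * T.arcsb b := by
  obtain ⟨K1, hK1⟩ := pp c K
  obtain ⟨K2, hK2⟩ := arcs c K
  refine ⟨K2 * (8 * ((K1 * (K + 1) + 1) * ((K1 * (K + 1) + 1) + K))) +
    K2 * (K1 * (K + 1) + 1) ^ 2 + K1 * (K + 1) ^ 2, ?_⟩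
  intro e S hS ψ hψ B L _ T hdis b Q hinj hQ
  set C1 := K1 * (K + 1) + 1 with hC1
  by_cases hL : Nonempty {γ : L // T.β γ = b}
  swap
  · have hQe : Q = ∅ := by
      by_contra hne
      obtain ⟨q, hq⟩ := Finset.nonempty_iff_ne_empty.2 hne
      obtain ⟨_, γ, hγ, _⟩ := hQ q hq
      exact hL ⟨⟨γ, hγ⟩⟩
    subst hQe
    refine ⟨Empty, inferInstance, fun l => l.elim, fun l => l.elim, fun l => l.elim,
      fun l => l.elim, ?_, fun l => l.elim, fun l => l.elim, ?_⟩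
    · simp
    · simp
  obtain ⟨γ0⟩ := hL
  have hdeg := W1_A1_deg ψ hψ.deg
  obtain ⟨u, X0, hu, hX0, hreg⟩ := hK1 e S hS (bind₁ ψ (T.h b))
  have hqd := hdeg (T.h b)
  -- the degree of `u`
  have hu1 : u.totalDegree + 1 ≤ C1 * ((T.h b).totalDegree + 1) := by
    calc u.totalDegree + 1 ≤ K1 * ((bind₁ ψ (T.h b)).totalDegree + 1) + 1 := by omega
      _ ≤ K1 * (K * (T.h b).totalDegree + 1) + 1 := by gcongr
      _ ≤ K1 * ((K + 1) * ((T.h b).totalDegree + 1)) + ((T.h b).totalDegree + 1) := by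
        refine add_le_add (Nat.mul_le_mul_left _ ?_) (by omega)
        nlinarith
      _ = C1 * ((T.h b).totalDegree + 1) := by rw [hC1]; ring
  have hsq : ((T.h b).totalDegree + 1) ^ 2 ≤ T.arcsb b := by
    unfold Tab.arcsb
    refine le_trans ?_ (Nat.le_add_right _ _)
    rw [sq]
    exact Nat.mul_le_mul_left _ (by omega)
  have hu2 : (u.totalDegree + 1) ^ 2 ≤ C1 ^ 2 * T.arcsb b := by
    calc (u.totalDegree + 1) ^ 2 ≤ (C1 * ((T.h b).totalDegree + 1)) ^ 2 := Nat.pow_le_pow_left hu1 2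
      _ = C1 ^ 2 * ((T.h b).totalDegree + 1) ^ 2 := by ring
      _ ≤ C1 ^ 2 * T.arcsb b := Nat.mul_le_mul_left _ hsq
  have hX1 : X0.card ≤ K1 * (K + 1) ^ 2 * T.arcsb b := by
    have h1 : (bind₁ ψ (T.h b)).totalDegree + 1 ≤ (K + 1) * ((T.h b).totalDegree + 1) := by nlinarith
    calc X0.card ≤ K1 * ((bind₁ ψ (T.h b)).totalDegree + 1) ^ 2 := hX0
      _ ≤ K1 * ((K + 1) * ((T.h b).totalDegree + 1)) ^ 2 :=
        Nat.mul_le_mul_left _ (Nat.pow_le_pow_left h1 2)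
      _ = K1 * (K + 1) ^ 2 * ((T.h b).totalDegree + 1) ^ 2 := by ring
      _ ≤ K1 * (K + 1) ^ 2 * T.arcsb b := Nat.mul_le_mul_left _ hsq
  have hsum := W1_A1_sum T b ψ hψ.deg hu1
  -- the conditions of a class
  have hcond : ∀ (t : Fin c ⊕ Fin 2 → ℝ) (γ : {γ : L // T.β γ = b}),
      ((∀ j ∈ W1_A1_Z T b γ, eval t (bind₁ ψ (W1_A1_f T b j)) = 0) ∧
        ∀ j ∈ W1_A1_N T b γ, eval t (bind₁ ψ (W1_A1_f T b j)) ≠ 0) ↔ ev ψ t ∈ T.Rz γ := by
    intro t γ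
    rw [← W1_A1_cond T b (ev ψ t) γ]
    simp only [W1_A1_eval]
  -- the class of a point
  let cl : (Fin c ⊕ Fin 2 → ℝ) → {γ : L // T.β γ = b} := fun q =>
    if h : ∃ γ : {γ : L // T.β γ = b}, ev ψ q ∈ T.Rz γ then h.choose else γ0
  have hcl : ∀ q ∈ Q, ev ψ q ∈ T.Rz (cl q) := by
    intro q hq
    obtain ⟨_, γ, hγ, hR, _⟩ := hQ q hq
    have h : ∃ γ : {γ : L // T.β γ = b}, ev ψ q ∈ T.Rz γ := ⟨⟨γ, hγ⟩, hR⟩
    have h1 : cl q = h.choose := dif_pos h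
    rw [h1]
    exact h.choose_spec
  obtain ⟨Λ, hΛ, lab, a, a', ρ, hcard, harc, hdisj, hexc⟩ := hK2 e S hS u
    (Fin 3 ⊕ ({γ : L // T.β γ = b} × Fin 4)) {γ : L // T.β γ = b}
    (fun j => bind₁ ψ (W1_A1_f T b j)) (W1_A1_Z T b) (W1_A1_N T b)
    (Q.filter fun q => eval (q ∘ Sum.inr) u = 0 ∧ eval (q ∘ Sum.inr) (pderiv 1 u) ≠ 0) cl
    (fun q hq => by
      rw [Finset.mem_filter] at hq
      exact ⟨(hQ q hq.1).1, hq.2⟩)
    (fun q hq => (hcond q (cl q)).2 (hcl q (Finset.mem_filter.1 hq).1))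
    (fun q hq c' hne h => hne (Subtype.ext (T.cls_unique hdis ((hcond q c').1 h)
      (hcl q (Finset.mem_filter.1 hq).1))))
  have htot : K2 * (∑ j, (u.totalDegree + 1) * (u.totalDegree +
      (bind₁ ψ (W1_A1_f T b j)).totalDegree + 1)) + K2 * (u.totalDegree + 1) ^ 2 ≤
      (K2 * (8 * (C1 * (C1 + K))) + K2 * C1 ^ 2) * T.arcsb b := by
    calc _ ≤ K2 * (8 * (C1 * (C1 + K)) * T.arcsb b) + K2 * (C1 ^ 2 * T.arcsb b) :=
        add_le_add (Nat.mul_le_mul_left _ hsum) (Nat.mul_le_mul_left _ hu2)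
      _ = _ := by ring
  refine ⟨Λ, hΛ, fun l => (lab l : L), a, a', ρ, ?_, ?_, hdisj, ?_⟩
  · refine (hcard.trans htot).trans ?_
    rw [add_mul _ (K1 * (K + 1) ^ 2)]
    exact Nat.le_add_right _ _
  · intro l
    obtain ⟨h1, h2, h3, h4, h5⟩ := harc l
    refine ⟨(lab l).2, h1, h2, fun t ht => ?_, (Finset.mem_filter.1 h4).1,
      (Finset.mem_filter.1 h5).1⟩
    obtain ⟨g1, g2, g3, g4⟩ := h3 t ht
    exact ⟨g1, g2, (hcond _ _).1 ⟨g3, g4⟩⟩
  · have hsub : (Q.filter fun q => ¬ ∃ l, ∃ t ∈ Set.Icc (a l) (a' l), ρ l t = q) ⊆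
        (Q.filter fun q => q (Sum.inr 0) ∈ X0) ∪
        ((Q.filter fun q => eval (q ∘ Sum.inr) u = 0 ∧ eval (q ∘ Sum.inr) (pderiv 1 u) ≠ 0).filter
          fun q => ¬ ∃ l, lab l = cl q ∧ ∃ t ∈ Set.Icc (a l) (a' l), ρ l t = q) := by
      intro q hq
      rw [Finset.mem_filter] at hq
      obtain ⟨hqS, γ, hγ, hR, hV⟩ := hQ q hq.1
      rw [Finset.mem_union, Finset.mem_filter, Finset.mem_filter, Finset.mem_filter]
      have h0 : eval q (bind₁ ψ (T.h b)) = 0 := by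
        rw [W1_A1_eval, ← hγ]
        exact hR.1.1
      have hV' : ¬ (∀ᶠ t in nhdsWithin q S, eval t (bind₁ ψ (T.h b)) = 0) := by
        simp only [W1_A1_eval]
        exact hV
      rcases hreg q hqS h0 hV' with h | h
      · exact Or.inl ⟨hq.1, h⟩
      · refine Or.inr ⟨⟨hq.1, h⟩, ?_⟩
        rintro ⟨l, _, t, ht, hte⟩
        exact hq.2 ⟨l, t, ht, hte⟩
    have hX2 : (Q.filter fun q => q (Sum.inr 0) ∈ X0).card ≤ X0.card := by
      refine Finset.card_le_card_of_injOn (fun q => q (Sum.inr 0)) ?_ ?_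
      · intro q hq
        exact (Finset.mem_filter.1 hq).2
      · intro q hq q' hq' h
        exact hinj (Finset.mem_filter.1 hq).1 (Finset.mem_filter.1 hq').1 h
    have hexc2 := le_trans hexc htot
    have hexc3 : ∀ E : Finset (Fin c ⊕ Fin 2 → ℝ), (∀ q ∈ E, (q ∈ Q ∧
        (eval (q ∘ Sum.inr) u = 0 ∧ eval (q ∘ Sum.inr) (pderiv 1 u) ≠ 0)) ∧
        ¬ ∃ l, lab l = cl q ∧ ∃ t ∈ Set.Icc (a l) (a' l), ρ l t = q) →
        E.card ≤ (K2 * (8 * (C1 * (C1 + K))) + K2 * C1 ^ 2) * T.arcsb b := by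
      intro E hE
      refine (Finset.card_le_card fun q hq => ?_).trans hexc2
      exact (@Finset.mem_filter _ _ (_) _ _).2 ⟨(@Finset.mem_filter _ _ (_) _ _).2 (hE q hq).1,
        (hE q hq).2⟩
    have h7 := (Finset.card_le_card hsub).trans (Finset.card_union_le _ _)
    have h8 := hX2.trans hX1
    refine h7.trans ((Nat.add_le_add h8 (hexc3 _ fun q hq => ?_)).trans (le_of_eq ?_))
    · have h9 := (@Finset.mem_filter _ _ (_) _ _).1 hq
      exact ⟨(@Finset.mem_filter _ _ (_) _ _).1 h9.1, h9.2⟩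
    · ring

end D4Q
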