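import Mathlib
import Pool.Agent.D4Q.W1_A1

/-!
# D4Q-W1_A2: the arcs of one surface for all bases

PROOF. Split `Q` into the `Q b` (the base of the class of `ev ψ q`; `cls_unique`), `w1_base` for every `b`, `Λ = Σ b, Λ b`. Bounds: sums over `b`, `sum_arcsb`
(`Fintype.card_sigma`; the exceptions of `Q` are in the union of the exceptions of the `Q b`: `Finset.card_biUnion_le`). Arcs of different bases are
disjoint: at a common point both labels are the class of `ev ψ (ρ l t)` (`cls_unique`), so the bases are equal.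
-/

namespace D4Q

open MvPolynomial

open scoped Classical in
theorem w1_surf (c K : ℕ) : ∃ A : ℕ, ∀ (e : Fin c → MvPolynomial (Fin c ⊕ Fin 2) ℝ)
    (S : Set (Fin c ⊕ Fin 2 → ℝ)), IsEt K e S →
    ∀ (ψ : Fin 4 → MvPolynomial (Fin c ⊕ Fin 2) ℝ), IsChart K ψ →
    ∀ (B L : Type) [Fintype B] [Fintype L] (T : Tab B L),
    (∀ γ γ', γ ≠ γ' → Disjoint (T.Reg γ) (T.Reg γ')) →
    ∀ (Q : Finset (Fin c ⊕ Fin 2 → ℝ)),
    Set.InjOn (fun q : Fin c ⊕ Fin 2 → ℝ => q (Sum.inr 0)) (Q : Set (Fin c ⊕ Fin 2 → ℝ)) →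
    (∀ q ∈ Q, q ∈ S ∧ ∃ γ, ev ψ q ∈ T.Rz γ ∧ ¬ VanAt S ψ (T.h (T.β γ)) q) →
    ∃ (Λ : Type) (_ : Fintype Λ) (lab : Λ → L) (a a' : Λ → ℝ)
      (ρ : Λ → ℝ → (Fin c ⊕ Fin 2 → ℝ)),
      Fintype.card Λ ≤ A * T.arcs ∧
      (∀ l, a l < a' l ∧ ContinuousOn (ρ l) (Set.Icc (a l) (a' l)) ∧
        (∀ t ∈ Set.Icc (a l) (a' l), ρ l t (Sum.inr 0) = t ∧ ρ l t ∈ S ∧
          ev ψ (ρ l t) ∈ T.Rz (lab l)) ∧
        ρ l (a l) ∈ Q ∧ ρ l (a' l) ∈ Q) ∧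
      (∀ l l' t t', t ∈ Set.Icc (a l) (a' l) → t' ∈ Set.Icc (a l') (a' l') → ρ l t = ρ l' t' → l = l') ∧
      (Q.filter fun q => ¬ ∃ l, ∃ t ∈ Set.Icc (a l) (a' l), ρ l t = q).card ≤ A * T.arcs := by
  obtain ⟨A, hA⟩ := w1_base c K
  refine ⟨A, ?_⟩
  intro e S hS ψ hψ B L _ _ T hd Q hinj hQ
  have hb : ∀ b : B, Set.InjOn (fun q : Fin c ⊕ Fin 2 → ℝ => q (Sum.inr 0))
      ((Q.filter fun q => ∃ γ, T.β γ = b ∧ ev ψ q ∈ T.Rz γ : Finset (Fin c ⊕ Fin 2 → ℝ)) :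
        Set (Fin c ⊕ Fin 2 → ℝ)) := by
    intro b
    refine hinj.mono ?_
    intro q hq
    exact Finset.mem_coe.2 (Finset.mem_filter.1 (Finset.mem_coe.1 hq)).1
  have hb2 : ∀ b : B, ∀ q ∈ (Q.filter fun q => ∃ γ, T.β γ = b ∧ ev ψ q ∈ T.Rz γ),
      q ∈ S ∧ ∃ γ, T.β γ = b ∧ ev ψ q ∈ T.Rz γ ∧ ¬ VanAt S ψ (T.h b) q := by
    intro b q hq
    obtain ⟨hq1, γ, hγ, hγ2⟩ := Finset.mem_filter.1 hq
    obtain ⟨hs, γ', hγ3, hγ4⟩ := hQ q hq1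
    have he : γ' = γ := T.cls_unique hd hγ3 hγ2
    subst he
    rw [hγ] at hγ4
    exact ⟨hs, γ', hγ, hγ2, hγ4⟩
  have h := fun b => hA e S hS ψ hψ B L T hd b _ (hb b) (hb2 b)
  choose Λ iΛ lab a a' ρ h1 h2 h3 h4 using h
  refine ⟨Σ b, Λ b, inferInstance, fun l => lab l.1 l.2, fun l => a l.1 l.2, fun l => a' l.1 l.2,
    fun l => ρ l.1 l.2, ?_, ?_, ?_, ?_⟩
  · rw [Fintype.card_sigma, ← T.sum_arcsb, Finset.mul_sum]
    exact Finset.sum_le_sum fun b _ => h1 b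
  · rintro ⟨b, l⟩
    obtain ⟨_, g2, g3, g4, g5, g6⟩ := h2 b l
    exact ⟨g2, g3, g4, (Finset.mem_filter.1 g5).1, (Finset.mem_filter.1 g6).1⟩
  · rintro ⟨b, l⟩ ⟨b', l'⟩ t t' ht ht' heq
    obtain ⟨f1, _, _, f4, _, _⟩ := h2 b l
    obtain ⟨g1, _, _, g4, _, _⟩ := h2 b' l'
    have e1 : ev ψ (ρ b l t) ∈ T.Rz (lab b l) := (f4 t ht).2.2
    have e2 : ev ψ (ρ b' l' t') ∈ T.Rz (lab b' l') := (g4 t' ht').2.2
    have heq' : ρ b l t = ρ b' l' t' := heq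
    rw [heq'] at e1
    have e3 : lab b l = lab b' l' := T.cls_unique hd e1 e2
    have e4 : b = b' := by rw [← f1, ← g1, e3]
    subst e4
    have e5 : l = l' := h3 b l l' t t' ht ht' heq
    rw [e5]
  · rw [← T.sum_arcsb, Finset.mul_sum]
    refine le_trans ?_ (Finset.sum_le_sum fun b _ => h4 b)
    refine le_trans (Finset.card_le_card ?_) Finset.card_biUnion_le
    intro q hq
    obtain ⟨hq1, hq2⟩ := Finset.mem_filter.1 hq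
    obtain ⟨_, γ, hγ, _⟩ := hQ q hq1
    refine Finset.mem_biUnion.2 ⟨T.β γ, Finset.mem_univ _, Finset.mem_filter.2
      ⟨Finset.mem_filter.2 ⟨hq1, γ, rfl, hγ⟩, ?_⟩⟩
    rintro ⟨l, t, ht, hl⟩
    exact hq2 ⟨⟨T.β γ, l⟩, t, ht, hl⟩

end D4Q
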