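import Mathlib
import Pool.Agent.D4Q.BD
import Pool.Agent.D4Q.W1_Defs

/-!
# D4Q-W1_B: the space `XT T` and the compact piece with its boundary

PROOF. `xt_local`: `wv_local` on every summand and `Topology.IsOpenEmbedding.sigmaMk` (`IsLocalHomeomorph.mk`: for `⟨γ, ζ⟩` take the
`OpenPartialHomeomorph` of `wv_local` at `ζ` and compose with the inverse of the open embedding `Sigma.mk γ`).
`w1_bd`: `R > 0` with `∑ i, ζ.2.1 i ^ 2 < R ^ 2` for `ζ ∈ A0` (compact: the continuous function is bounded). For each `γ` apply `bd` with `h = T.h (T.β γ)`, `g = T.g γ`,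
`φ = (T.G (T.β γ) * T.r γ * jzw h g * (C (R ^ 2) - ∑ i, X i ^ 2)) ^ 2`, `ρ = R`, the compact set `Sigma.mk γ ⁻¹' A0` (`Sigma.mk γ` is a closed embedding) and `X0`. The
degree of `φ` is at most `2 (deg G + deg r + (deg h + deg g) + 2)`. In `XT T`: `K = ⋃ γ, Sigma.mk γ '' K γ`, the same for `B`, `crit = Finset.univ.sigma crit`
(`Finset.card_sigma`; the bound `30` instead of `100` is what one gets). `K` compact (finite union of images), `B` closed, `K \ B` open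
(`isOpen_sigma_iff`, `isClosed_sigma_iff`: the preimages under `Sigma.mk γ` are `K γ`, `B γ`, `K γ \ B γ`), `LocSec` goes from the summand to `XT T` (the section is
`Sigma.mk γ ∘ κ`, the neighbourhood `Sigma.mk γ '' U`), fibres: finite union of images of finite sets.
-/

namespace D4Q

open MvPolynomial

private theorem W1_B_pd (i : Fin 4) (f : MvPolynomial (Fin 4) ℝ) :
    (pderiv i f).totalDegree ≤ f.totalDegree := by
  classical
  conv_lhs => rw [f.as_sum]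
  rw [map_sum]
  refine (totalDegree_finsetSum _ _).trans ?_
  refine Finset.sup_le fun m hm => ?_
  rw [pderiv_monomial]
  refine (totalDegree_monomial_le _ _).trans ?_
  refine le_trans ?_ (le_totalDegree hm)
  have h1 : m - Finsupp.single i 1 ≤ m := tsub_le_self
  exact Finsupp.degree_mono h1

private theorem W1_B_jzw (h g : MvPolynomial (Fin 4) ℝ) :
    (jzw h g).totalDegree ≤ h.totalDegree + g.totalDegree := by
  unfold jzw
  refine (totalDegree_sub _ _).trans (max_le ?_ ?_)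
  · exact (totalDegree_mul _ _).trans (Nat.add_le_add (W1_B_pd _ _) (W1_B_pd _ _))
  · exact (totalDegree_mul _ _).trans (Nat.add_le_add (W1_B_pd _ _) (W1_B_pd _ _))

/-- the polynomial `φ` -/
private noncomputable def W1_B_phi (h g G r : MvPolynomial (Fin 4) ℝ) (R : ℝ) :
    MvPolynomial (Fin 4) ℝ :=
  (G * r * jzw h g * (C (R ^ 2) - ∑ i : Fin 4, X i ^ 2)) ^ 2

private theorem W1_B_phi_deg (h g G r : MvPolynomial (Fin 4) ℝ) (R : ℝ) :
    (W1_B_phi h g G r R).totalDegree ≤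
      2 * (G.totalDegree + r.totalDegree + (h.totalDegree + g.totalDegree) + 2) := by
  unfold W1_B_phi
  refine (totalDegree_pow _ _).trans (Nat.mul_le_mul_left 2 ?_)
  refine (totalDegree_mul _ _).trans (Nat.add_le_add ?_ ?_)
  · refine (totalDegree_mul _ _).trans (Nat.add_le_add ?_ (W1_B_jzw h g))
    exact totalDegree_mul _ _
  · refine (totalDegree_sub _ _).trans (max_le ?_ ?_)
    · rw [totalDegree_C]; exact Nat.zero_le _
    · refine (totalDegree_finsetSum _ _).trans (Finset.sup_le fun i _ => ?_)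
      refine (totalDegree_pow _ _).trans ?_
      rw [totalDegree_X]

private theorem W1_B_phi_ev (h g G r : MvPolynomial (Fin 4) ℝ) (R : ℝ) (ζ : Fin 4 → ℝ) :
    eval ζ (W1_B_phi h g G r R) =
      (eval ζ G * eval ζ r * eval ζ (jzw h g) * (R ^ 2 - ∑ i, ζ i ^ 2)) ^ 2 := by
  unfold W1_B_phi
  simp only [map_pow, map_mul, map_sub, map_sum, eval_C, eval_X]

/-- the inclusion of a summand -/
private def W1_B_in {B L : Type} (T : Tab B L) (γ : L) (ζ : Wv (T.h (T.β γ)) (T.g γ)) : XT T :=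
  ⟨γ, ζ⟩

private theorem W1_B_inO {B L : Type} (T : Tab B L) (γ : L) :
    Topology.IsOpenEmbedding (W1_B_in T γ) :=
  Topology.IsOpenEmbedding.sigmaMk (σ := fun γ : L => Wv (T.h (T.β γ)) (T.g γ)) (i := γ)

private theorem W1_B_inC {B L : Type} (T : Tab B L) (γ : L) :
    Topology.IsClosedEmbedding (W1_B_in T γ) :=
  Topology.IsClosedEmbedding.sigmaMk (σ := fun γ : L => Wv (T.h (T.β γ)) (T.g γ)) (i := γ)

theorem xt_local {B L : Type} (T : Tab B L) :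
    IsLocalHomeomorph (fun ζ : XT T => (ζ.2.1 0, ζ.2.1 1)) := by
  rintro ⟨γ, ζ⟩
  have h1 : IsLocalHomeomorphOn ((fun ζ : XT T => (ζ.2.1 0, ζ.2.1 1)) ∘
      (W1_B_in T γ)) Set.univ :=
    (wv_local (T.h (T.β γ)) (T.g γ)).isLocalHomeomorphOn
  have h2 : IsLocalHomeomorphOn (W1_B_in T γ) Set.univ :=
    ((W1_B_inO T γ).isLocalHomeomorph).isLocalHomeomorphOn
  have h3 := h1.of_comp_right h2
  exact h3 ⟨γ, ζ⟩ ⟨ζ, Set.mem_univ _, rfl⟩

private theorem W1_B_cont {h g : MvPolynomial (Fin 4) ℝ} :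
    Continuous fun ζ : Wv h g => ∑ i, ζ.1 i ^ 2 := by
  have h1 : Continuous fun ζ : Wv h g => ζ.1 := continuous_subtype_val
  exact continuous_finsetSum _ fun i _ => ((continuous_apply i).comp h1).pow 2

private theorem W1_B_bound {B L : Type} (T : Tab B L) (A0 : Set (XT T)) (hA : IsCompact A0) :
    ∃ R : ℝ, ∀ ζ ∈ A0, ∑ i, ζ.2.1 i ^ 2 < R ^ 2 := by
  have hc : Continuous fun ζ : XT T => ∑ i, ζ.2.1 i ^ 2 :=
    continuous_sigma fun γ => W1_B_cont
  obtain ⟨M, hM⟩ := (hA.image hc).bddAbove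
  refine ⟨|M| + 1, fun ζ hζ => ?_⟩
  have h1 := hM ⟨ζ, hζ, rfl⟩
  have h2 := le_abs_self M
  have h3 := abs_nonneg M
  simp only at h1
  nlinarith

private theorem W1_B_arith (a b c d f : ℕ) (hf : f ≤ 2 * (c + d + (a + b) + 2)) :
    (a + 1) * (b + 1) * (f + 2) * (a + b + f + 1) ≤
      100 * ((a + 1) * (b + 1) * (a + b + c + d + 1) ^ 2) := by
  have h1 : (f + 2) * (a + b + f + 1) ≤ 100 * (a + b + c + d + 1) ^ 2 := by
    have h2 : f + 2 ≤ 6 * (a + b + c + d + 1) := by omega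
    have h3 : a + b + f + 1 ≤ 5 * (a + b + c + d + 1) := by omega
    calc (f + 2) * (a + b + f + 1)
        ≤ (6 * (a + b + c + d + 1)) * (5 * (a + b + c + d + 1)) := Nat.mul_le_mul h2 h3
      _ = 30 * (a + b + c + d + 1) ^ 2 := by ring
      _ ≤ 100 * (a + b + c + d + 1) ^ 2 := Nat.mul_le_mul_right _ (by norm_num)
  calc (a + 1) * (b + 1) * (f + 2) * (a + b + f + 1)
      = (a + 1) * (b + 1) * ((f + 2) * (a + b + f + 1)) := by ring
    _ ≤ (a + 1) * (b + 1) * (100 * (a + b + c + d + 1) ^ 2) := Nat.mul_le_mul_left _ h1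
    _ = _ := by ring

theorem w1_bd {B L : Type} [Fintype L] (T : Tab B L) (A0 : Set (XT T)) (hA : IsCompact A0)
    (hA0 : ∀ ζ ∈ A0, ζ.2.1 ∈ T.Rz ζ.1) (X0 : Finset ℝ) :
    ∃ (K B' : Set (XT T)) (crit : Finset (XT T)), IsCompact K ∧ IsClosed B' ∧ B' ⊆ K ∧
      IsOpen (K \ B') ∧ (crit : Set (XT T)) ⊆ B' ∧
      (∀ v ∈ B', v ∉ crit → LocSec (fun ζ : XT T => ζ.2.1 0) B' v) ∧
      (∀ t : ℝ, {v : XT T | v ∈ B' ∧ v.2.1 0 = t}.Finite) ∧ A0 ⊆ K \ B' ∧
      (∀ r ∈ X0, ∀ v ∈ crit, v.2.1 0 ≠ r) ∧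
      crit.card ≤ 100 * ∑ γ, ((T.h (T.β γ)).totalDegree + 1) * ((T.g γ).totalDegree + 1) *
        ((T.h (T.β γ)).totalDegree + (T.g γ).totalDegree + (T.G (T.β γ)).totalDegree +
          (T.r γ).totalDegree + 1) ^ 2 := by
  obtain ⟨R, hR⟩ := W1_B_bound T A0 hA
  have key : ∀ γ : L, ∃ (K B1 : Set (Wv (T.h (T.β γ)) (T.g γ)))
      (crit : Finset (Wv (T.h (T.β γ)) (T.g γ))), IsCompact K ∧ IsClosed B1 ∧ B1 ⊆ K ∧
      IsOpen (K \ B1) ∧ (crit : Set (Wv (T.h (T.β γ)) (T.g γ))) ⊆ B1 ∧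
      (∀ v ∈ B1, v ∉ crit → LocSec (fun ζ : Wv (T.h (T.β γ)) (T.g γ) => ζ.1 0) B1 v) ∧
      (∀ t : ℝ, {v | v ∈ B1 ∧ v.1 0 = t}.Finite) ∧ W1_B_in T γ ⁻¹' A0 ⊆ K \ B1 ∧
      (∀ r ∈ X0, ∀ v ∈ crit, v.1 0 ≠ r) ∧
      crit.card ≤ ((T.h (T.β γ)).totalDegree + 1) * ((T.g γ).totalDegree + 1) *
        ((W1_B_phi (T.h (T.β γ)) (T.g γ) (T.G (T.β γ)) (T.r γ) R).totalDegree + 2) *
        ((T.h (T.β γ)).totalDegree + (T.g γ).totalDegree +
          (W1_B_phi (T.h (T.β γ)) (T.g γ) (T.G (T.β γ)) (T.r γ) R).totalDegree + 1) := by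
    intro γ
    refine bd (T.h (T.β γ)) (T.g γ) (W1_B_phi (T.h (T.β γ)) (T.g γ) (T.G (T.β γ)) (T.r γ) R) R
      (fun ζ => ?_) (fun ζ _ _ h0 => ?_) (W1_B_in T γ ⁻¹' A0)
      ((W1_B_inC T γ).isCompact_preimage hA) (fun ζ hζ => ?_) X0
    · rw [W1_B_phi_ev]
      exact sq_nonneg _
    · rw [W1_B_phi_ev]
      rcases h0 with h0 | h0
      · rw [h0]; ring
      · rw [h0]; ring
    · have h1 := hA0 _ hζ
      have h2 := hR _ hζ
      refine ⟨?_, h2⟩
      rw [W1_B_phi_ev]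
      have h3 : R ^ 2 - ∑ i, ζ.1 i ^ 2 ≠ 0 := (sub_pos.2 h2).ne'
      have h4 : eval ζ.1 (T.G (T.β γ)) ≠ 0 := h1.1.2.2.1
      have h5 : eval ζ.1 (T.r γ) ≠ 0 := h1.1.2.2.2.2.2
      have h6 : eval ζ.1 (jzw (T.h (T.β γ)) (T.g γ)) ≠ 0 := h1.2
      positivity
  choose K B1 crit hK hB hBK ho hcr hls hfib hAK hX hcard using key
  classical
  refine ⟨{ζ | ζ.2 ∈ K ζ.1}, {ζ | ζ.2 ∈ B1 ζ.1}, Finset.univ.sigma crit, ?_, ?_, ?_, ?_, ?_, ?_,
    ?_, ?_, ?_, ?_⟩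
  · have h1 : {ζ : XT T | ζ.2 ∈ K ζ.1} = ⋃ γ, W1_B_in T γ '' K γ := by
      ext ⟨γ, ζ⟩
      rw [Set.mem_iUnion]
      constructor
      · intro h
        exact ⟨γ, ζ, h, rfl⟩
      · rintro ⟨γ', ζ', h', h2⟩
        have h3 : γ' = γ := congrArg Sigma.fst h2
        subst h3
        have h4 := (Sigma.mk.injEq _ _ _ _).mp h2
        rw [← eq_of_heq h4.2]
        exact h'
    rw [h1]
    exact isCompact_iUnion fun γ => (hK γ).image (W1_B_inC T γ).continuous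
  · rw [isClosed_sigma_iff]
    exact fun γ => hB γ
  · intro ζ hζ
    exact hBK ζ.1 hζ
  · rw [isOpen_sigma_iff]
    exact fun γ => ho γ
  · intro ζ hζ
    have h1 := Finset.mem_sigma.1 (Finset.mem_coe.1 hζ)
    exact hcr ζ.1 h1.2
  · rintro ⟨γ, v⟩ hv hvc
    have h1 : v ∉ crit γ := fun h => hvc (Finset.mem_sigma.2 ⟨Finset.mem_univ _, h⟩)
    obtain ⟨ε, hε, κ, hκ, hκv, hκt, U, hU, hUz⟩ := hls γ v hv h1
    refine ⟨ε, hε, fun t => ⟨γ, κ t⟩, (W1_B_inC T γ).continuous.comp_continuousOn hκ, ?_, ?_,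
      W1_B_in T γ '' U, (W1_B_inO T γ).isOpenMap.image_mem_nhds hU, ?_⟩
    · exact congrArg (W1_B_in T γ) hκv
    · intro t ht
      exact hκt t ht
    · rintro z ⟨z0, hz0, rfl⟩ hz
      exact congrArg (W1_B_in T γ) (hUz z0 hz0 hz)
  · intro t
    refine (Set.finite_iUnion fun γ => (hfib γ t).image (W1_B_in T γ)).subset ?_
    rintro ⟨γ, v⟩ hv
    exact Set.mem_iUnion.2 ⟨γ, v, hv, rfl⟩
  · rintro ⟨γ, v⟩ hv
    exact hAK γ hv
  · intro r hr v hv
    exact hX v.1 r hr v.2 (Finset.mem_sigma.1 hv).2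
  · rw [Finset.card_sigma, Finset.mul_sum]
    refine Finset.sum_le_sum fun γ _ => (hcard γ).trans ?_
    exact W1_B_arith _ _ _ _ _ (W1_B_phi_deg _ _ _ _ _)

end D4Q
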