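import Mathlib
import Pool.Agent.D4Q.VT
import Pool.Agent.D4Q.VP
import Pool.Agent.D4Q.W1_B

/-!
# D4Q-W1_C: the bound for the incidences on arcs (from `vt`, `vp`, `w1_bd`)

The arcs on the surfaces are mapped to arcs in the space `XT T`; `w1_bd` gives a compact piece containing them with its
boundary curves; `vt` gives the vertical decompositions and `vp` the bound for the designated incidences.
-/

namespace D4Q

open MvPolynomial

theorem W1_C_ev_continuous {ι κ : Type*} (ψ : κ → MvPolynomial ι ℝ) : Continuous (ev ψ) := by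
  refine continuous_pi fun i => ?_
  exact MvPolynomial.continuous_eval (ψ i)

private theorem W1_C_card {α : Type*} {p q : α → Prop} {s : Finset α} (dp : DecidablePred p)
    (dq : DecidablePred q) (h : ∀ x, p x → q x) :
    (@Finset.filter α p dp s).card ≤ (@Finset.filter α q dq s).card := by
  refine Finset.card_le_card fun x hx => ?_
  rw [Finset.mem_filter] at hx ⊢
  exact ⟨hx.1, h x hx.2⟩

private theorem W1_C_card_image {α β : Type*} {p q : α → Prop} {s : Finset α} (f : α → β) (dp : DecidablePred p)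
    (dq : DecidablePred q) (d d' : DecidableEq β) (h : ∀ x, p x → q x) :
    (@Finset.image α β d f (@Finset.filter α p dp s)).card ≤
      (@Finset.image α β d' f (@Finset.filter α q dq s)).card := by
  refine Finset.card_le_card fun x hx => ?_
  obtain ⟨y, hy, h1⟩ := (@Finset.mem_image α β d f _ x).1 hx
  refine (@Finset.mem_image α β d' f _ x).2 ⟨y, ?_, h1⟩
  have h2 := (@Finset.mem_filter α p dp _ _).1 hy
  exact (@Finset.mem_filter α q dq _ _).2 ⟨h2.1, h y h2.2⟩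

section

variable {c : ℕ} {I : Type} {S : I → Set (Fin c ⊕ Fin 2 → ℝ)} {ψ : I → Fin 4 → MvPolynomial (Fin c ⊕ Fin 2) ℝ}
  {B L Λ : Type} {T : Tab B L} {σ : Λ → I} {lab : Λ → L} {a a' : Λ → ℝ} {ρ : Λ → ℝ → (Fin c ⊕ Fin 2 → ℝ)}

/-- the arcs in `XT T` -/
private noncomputable def W1_C_al (hab : ∀ l, a l < a' l)
    (hρ : ∀ l, ∀ t ∈ Set.Icc (a l) (a' l), ev (ψ (σ l)) (ρ l t) ∈ T.Rz (lab l)) (l : Λ) (t : ℝ) : XT T :=
  T.pt (lab l) (ev (ψ (σ l)) (ρ l (Set.projIcc (a l) (a' l) (hab l).le t)))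
    (hρ l _ (Set.projIcc (a l) (a' l) (hab l).le t).2)

private theorem W1_C_al_val (hab : ∀ l, a l < a' l)
    (hρ : ∀ l, ∀ t ∈ Set.Icc (a l) (a' l), ev (ψ (σ l)) (ρ l t) ∈ T.Rz (lab l)) (l : Λ) {t : ℝ}
    (ht : t ∈ Set.Icc (a l) (a' l)) : (W1_C_al hab hρ l t).2.1 = ev (ψ (σ l)) (ρ l t) := by
  show ev (ψ (σ l)) (ρ l (Set.projIcc (a l) (a' l) (hab l).le t)) = _
  rw [Set.projIcc_of_mem (hab l).le ht]

private theorem W1_C_al_eq (hab : ∀ l, a l < a' l)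
    (hρ : ∀ l, ∀ t ∈ Set.Icc (a l) (a' l), ev (ψ (σ l)) (ρ l t) ∈ T.Rz (lab l)) (l : Λ) {t : ℝ}
    (ht : t ∈ Set.Icc (a l) (a' l)) : W1_C_al hab hρ l t = T.pt (lab l) (ev (ψ (σ l)) (ρ l t)) (hρ l t ht) := by
  refine T.pt_congr _ _ rfl ?_
  rw [Set.projIcc_of_mem (hab l).le ht]

private theorem W1_C_al_cont (hab : ∀ l, a l < a' l)
    (hρ : ∀ l, ∀ t ∈ Set.Icc (a l) (a' l), ev (ψ (σ l)) (ρ l t) ∈ T.Rz (lab l))
    (hc : ∀ l, ContinuousOn (ρ l) (Set.Icc (a l) (a' l))) (l : Λ) : Continuous (W1_C_al hab hρ l) := by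
  have h1 : Continuous fun t => ev (ψ (σ l)) (ρ l (Set.projIcc (a l) (a' l) (hab l).le t)) := by
    refine (W1_C_ev_continuous _).comp ?_
    exact (continuousOn_iff_continuous_domRestrict.1 (hc l)).comp continuous_projIcc
  have h2 : Continuous fun t => (⟨ev (ψ (σ l)) (ρ l (Set.projIcc (a l) (a' l) (hab l).le t)),
      (hρ l _ (Set.projIcc (a l) (a' l) (hab l).le t).2).1.1,
      (hρ l _ (Set.projIcc (a l) (a' l) (hab l).le t).2).1.2.2.2.1,
      (hρ l _ (Set.projIcc (a l) (a' l) (hab l).le t).2).2⟩ : Wv (T.h (T.β (lab l))) (T.g (lab l))) :=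
    Continuous.subtype_mk h1 _
  exact (continuous_sigmaMk (σ := fun γ => Wv (T.h (T.β γ)) (T.g γ))).comp h2

end

open scoped Classical in
private theorem W1_C_aux (k K : ℕ) (hk : 2 ≤ k) : ∃ A : ℝ, 0 < A ∧ ∀ (c : ℕ) (I : Type) [Fintype I]
    (S : I → Set (Fin c ⊕ Fin 2 → ℝ))
    (ψ : I → Fin 4 → MvPolynomial (Fin c ⊕ Fin 2) ℝ) (P : Finset (Fin 4 → ℝ))
    (D : Set ((Fin 4 → ℝ) × I)) (s : (Fin 4 → ℝ) × I → (Fin c ⊕ Fin 2 → ℝ)),
    (∀ i t, ev (ψ i) t 0 = t (Sum.inr 0)) →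
    (∀ d ∈ D, ev (ψ d.2) (s d) = d.1) →
    Set.InjOn (fun p : Fin 4 → ℝ => p 0) (P : Set (Fin 4 → ℝ)) →
    (∀ Q : Finset P, Q.card = k → (Finset.univ.filter fun i => ∀ p ∈ Q, ((p : Fin 4 → ℝ), i) ∈ D).card ≤ K) →
    (∀ i j, {q : (Fin c ⊕ Fin 2 → ℝ) × (Fin c ⊕ Fin 2 → ℝ) |
      q.1 ∈ S i ∧ q.2 ∈ S j ∧ (i = j → q.1 ≠ q.2) ∧ ev (ψ i) q.1 = ev (ψ j) q.2}.encard ≤ K) →
    ∀ (B L : Type) [Fintype L] (T : Tab B L),
    (∀ γ γ', γ ≠ γ' → Disjoint (T.Reg γ) (T.Reg γ')) →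
    (∀ p ∈ P, ∃ γ, p ∈ T.Rz γ) →
    (∀ p ∈ P, ∀ i j s' s'', s' ∈ S i → s'' ∈ S j → (i = j → s' ≠ s'') →
      ev (ψ i) s' = ev (ψ j) s'' → ev (ψ i) s' 0 = p 0 → ev (ψ i) s' = p) →
    ∀ (Λ : Type) [Fintype Λ] (σ : Λ → I) (lab : Λ → L) (a a' : Λ → ℝ)
      (ρ : Λ → ℝ → (Fin c ⊕ Fin 2 → ℝ)),
    (∀ l, a l < a' l) → (∀ l, ContinuousOn (ρ l) (Set.Icc (a l) (a' l))) →
    (∀ l, ∀ t ∈ Set.Icc (a l) (a' l), ρ l t (Sum.inr 0) = t ∧ ρ l t ∈ S (σ l)) →
    (∀ l, ∀ t ∈ Set.Icc (a l) (a' l), ev (ψ (σ l)) (ρ l t) ∈ T.Rz (lab l)) →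
    (∀ l, ev (ψ (σ l)) (ρ l (a l)) ∈ P ∧ ev (ψ (σ l)) (ρ l (a' l)) ∈ P) →
    (∀ l l' t t', σ l = σ l' → t ∈ Set.Icc (a l) (a' l) → t' ∈ Set.Icc (a l') (a' l') →
      ρ l t = ρ l' t' → l = l') →
    ∀ N : ℕ, 2 ≤ N → 4 * N ≤ Fintype.card I →
    (((Finset.univ : Finset (P × I)).filter fun z => ((z.1 : Fin 4 → ℝ), z.2) ∈ D ∧
      ∃ l, σ l = z.2 ∧ ∃ t ∈ Set.Icc (a l) (a' l), ρ l t = s ((z.1 : Fin 4 → ℝ), z.2)).card : ℝ) ≤
      A * (P.card * ((Fintype.card I : ℝ) / N) ^ (1 - 1 / (k : ℝ)) +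
        (Fintype.card Λ + Fintype.card I) + (Fintype.card I : ℝ) / N *
        ((∑ γ, ((T.h (T.β γ)).totalDegree + 1) * ((T.g γ).totalDegree + 1) *
          ((T.h (T.β γ)).totalDegree + (T.g γ).totalDegree + (T.G (T.β γ)).totalDegree +
          (T.r γ).totalDegree + 1) ^ 2 : ℕ) : ℝ) +
        (N : ℝ) * Fintype.card I) := by
  obtain ⟨A0, hA0, hvp⟩ := vp k K hk
  refine ⟨A0 * (K + 101), by positivity, ?_⟩
  intro c I _ S ψ P D s hψ hmem hxinj hkdof hcross B L _ T hdis hP hgx Λ _ σ lab a a' ρ hab hρc hρS hρR hend hinj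
    N hN2 hN4
  choose cl hcl using fun p : P => hP p.1 p.2
  set pt : P → XT T := fun p => T.pt (cl p) p.1 (hcl p) with hpt
  set α : Λ → ℝ → XT T := W1_C_al hab hρR with hα
  have hαc : ∀ l, Continuous (α l) := W1_C_al_cont hab hρR hρc
  have hαv : ∀ l, ∀ t ∈ Set.Icc (a l) (a' l), (α l t).2.1 = ev (ψ (σ l)) (ρ l t) := fun l t ht =>
    W1_C_al_val hab hρR l ht
  have hαl : ∀ l t, (α l t).1 = lab l := fun l t => rfl
  -- a point of an arc over a point of `P`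
  have key : ∀ l, ∀ t ∈ Set.Icc (a l) (a' l), ∀ p : P, ev (ψ (σ l)) (ρ l t) = p → α l t = pt p := by
    intro l t ht p hp
    rw [hα, W1_C_al_eq hab hρR l ht]
    refine T.pt_congr _ _ ?_ hp
    refine T.cls_unique hdis (hρR l t ht) ?_
    rw [hp]
    exact hcl p
  have key' : ∀ l, ∀ t ∈ Set.Icc (a l) (a' l), ∀ p : P, α l t = pt p → ev (ψ (σ l)) (ρ l t) = p := by
    intro l t ht p hp
    rw [← hαv l t ht, hp]
    rfl
  -- the compact piece
  obtain ⟨K', B', crit, hK, hB, hBK, hKB, hcB, hBloc, hBfin, hA0K, hcx, hcard⟩ :=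
    w1_bd T ((⋃ l, α l '' Set.Icc (a l) (a' l)) ∪ Set.range pt)
      ((isCompact_iUnion fun l => isCompact_Icc.image (hαc l)).union (Set.finite_range pt).isCompact) (by
        rintro ζ (hζ | ⟨p, rfl⟩)
        · obtain ⟨l, t, ht, rfl⟩ := Set.mem_iUnion.1 hζ
          rw [hαv l t ht, hαl]
          exact hρR l t ht
        · exact hcl p) (P.image fun p => p 0)
  have hcr : ∀ i j : I, {z : Λ × Λ × ℝ | σ z.1 = i ∧ σ z.2.1 = j ∧ z.1 ≠ z.2.1 ∧
      z.2.2 ∈ Set.Icc (a z.1) (a' z.1) ∧ z.2.2 ∈ Set.Icc (a z.2.1) (a' z.2.1) ∧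
      α z.1 z.2.2 = α z.2.1 z.2.2}.encard ≤ (K : ℕ) := by
    intro i j
    refine le_trans ?_ (hcross i j)
    refine Set.encard_le_encard_of_injOn (f := fun z => (ρ z.1 z.2.2, ρ z.2.1 z.2.2)) ?_ ?_
    · rintro ⟨l, l', t⟩ ⟨rfl, rfl, hne, ht, ht', he⟩
      refine ⟨(hρS l t ht).2, (hρS l' t ht').2, ?_, ?_⟩
      · intro hσ hρ
        exact hne (hinj l l' t t hσ ht ht' hρ)
      · show ev (ψ (σ l)) (ρ l t) = ev (ψ (σ l')) (ρ l' t)
        rw [← hαv l t ht, ← hαv l' t ht']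
        exact congrArg (fun ζ : XT T => ζ.2.1) he
    · rintro ⟨l, l', t⟩ ⟨h1, h2, -, ht, ht', -⟩ ⟨m, m', u⟩ ⟨h3, h4, -, hu, hu', -⟩ heq
      have e1 : ρ l t = ρ m u := congrArg Prod.fst heq
      have e2 : ρ l' t = ρ m' u := congrArg Prod.snd heq
      have e3 : l = m := hinj l m t u (h1.trans h3.symm) ht hu e1
      have e4 : l' = m' := hinj l' m' t u (h2.trans h4.symm) ht' hu' e2
      have e5 : t = u := by
        have h5 := (hρS l t ht).1
        have h6 := (hρS m u hu).1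
        rw [e1] at h5
        exact h5.symm.trans h6
      rw [e3, e4, e5]
  obtain ⟨rel, w, h1, h2, h3⟩ := vt (X := XT T) (fun ζ => ζ.2.1 0) (fun ζ => ζ.2.1 1) (xt_local T) K' B' crit
    hK hB hBK hKB hcB hBloc hBfin σ a a' hab α (fun l => (hαc l).continuousOn)
    (fun l t ht => by
      show (α l t).2.1 0 = t
      rw [hαv l t ht, hψ]
      exact (hρS l t ht).1)
    (fun l t ht => hA0K (Or.inl (Set.mem_iUnion.2 ⟨l, t, ht, rfl⟩)))
    pt (fun p => hA0K (Or.inr ⟨p, rfl⟩))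
    (fun l => ⟨⟨⟨_, (hend l).1⟩, (key l _ (Set.left_mem_Icc.2 (hab l).le) ⟨_, (hend l).1⟩ rfl).symm⟩,
      ⟨⟨_, (hend l).2⟩, (key l _ (Set.right_mem_Icc.2 (hab l).le) ⟨_, (hend l).2⟩ rfl).symm⟩⟩)
    (fun p p' h => Subtype.ext (hxinj p.2 p'.2 h))
    (fun p v hv h => hcx (p.1 0) (Finset.mem_image_of_mem _ p.2) v hv h)
    (by
      intro p l l' t hne ht ht' he htp
      have e1 : ev (ψ (σ l)) (ρ l t) = ev (ψ (σ l')) (ρ l' t) := by
        rw [← hαv l t ht, ← hαv l' t ht']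
        exact congrArg (fun ζ : XT T => ζ.2.1) he
      have e2 := hgx p.1 p.2 (σ l) (σ l') (ρ l t) (ρ l' t) (hρS l t ht).2 (hρS l' t ht').2
        (fun hσ hρ => hne (hinj l l' t t hσ ht ht' hρ)) e1 (by
          rw [hψ, (hρS l t ht).1]
          exact htp)
      exact (key l t ht p e2).symm)
    (fun _ _ => K) hcr
  have hmain := hvp I P (fun p i => ∃ l, σ l = i ∧ ∃ t ∈ Set.Icc (a l) (a' l), α l t = pt p)
    (fun p i => ((p : Fin 4 → ℝ), i) ∈ D ∧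
      ∃ l, σ l = i ∧ ∃ t ∈ Set.Icc (a l) (a' l), ρ l t = s ((p : Fin 4 → ℝ), i))
    rel (fun i => (Finset.univ.filter fun l => σ l = i).card + K) (fun _ _ => K) w crit.card N
    (by
      rintro p i ⟨hD, l, rfl, t, ht, hs⟩
      refine ⟨l, rfl, t, ht, key l t ht p ?_⟩
      rw [hs]
      exact hmem _ hD)
    (by
      intro Q hQ
      refine le_trans (W1_C_card _ _ ?_) (hkdof Q hQ)
      exact fun i hi p hp => (hi p hp).1)
    (by
      intro i j hij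
      have hf : ∀ p : P, ∃ q : (Fin c ⊕ Fin 2 → ℝ) × (Fin c ⊕ Fin 2 → ℝ),
          ((∃ l, σ l = i ∧ ∃ t ∈ Set.Icc (a l) (a' l), α l t = pt p) ∧
            ∃ l, σ l = j ∧ ∃ t ∈ Set.Icc (a l) (a' l), α l t = pt p) →
          q ∈ {q : (Fin c ⊕ Fin 2 → ℝ) × (Fin c ⊕ Fin 2 → ℝ) |
            q.1 ∈ S i ∧ q.2 ∈ S j ∧ (i = j → q.1 ≠ q.2) ∧ ev (ψ i) q.1 = ev (ψ j) q.2} ∧
          ev (ψ i) q.1 = p := by
        intro p
        by_cases hp : (∃ l, σ l = i ∧ ∃ t ∈ Set.Icc (a l) (a' l), α l t = pt p) ∧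
            ∃ l, σ l = j ∧ ∃ t ∈ Set.Icc (a l) (a' l), α l t = pt p
        · obtain ⟨⟨l, rfl, t, ht, he⟩, ⟨l', rfl, t', ht', he'⟩⟩ := hp
          refine ⟨(ρ l t, ρ l' t'), fun _ => ⟨⟨(hρS l t ht).2, (hρS l' t' ht').2, fun h => absurd h hij, ?_⟩, ?_⟩⟩
          · show ev (ψ (σ l)) (ρ l t) = ev (ψ (σ l')) (ρ l' t')
            rw [key' l t ht p he, key' l' t' ht' p he']
          · exact key' l t ht p he
        · exact ⟨(fun _ => 0, fun _ => 0), fun h => absurd h hp⟩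
      choose f hf using hf
      have h4 : ((Finset.univ.filter fun p : P => (∃ l, σ l = i ∧ ∃ t ∈ Set.Icc (a l) (a' l), α l t = pt p) ∧
            ∃ l, σ l = j ∧ ∃ t ∈ Set.Icc (a l) (a' l), α l t = pt p : Finset P) : Set P).encard ≤ K := by
        refine le_trans (Set.encard_le_encard_of_injOn (f := f) ?_ ?_) (hcross i j)
        · intro p hp
          exact (hf p (Finset.mem_filter.1 hp).2).1
        · intro p hp p' hp' he
          have e1 := (hf p (Finset.mem_filter.1 hp).2).2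
          have e2 := (hf p' (Finset.mem_filter.1 hp').2).2
          rw [he] at e1
          exact Subtype.ext (e1.symm.trans e2)
      rw [Set.encard_coe_eq_coe_finsetCard] at h4
      exact le_trans (W1_C_card _ _ fun p hp => hp) (Nat.cast_le.1 h4))
    (fun _ _ => rfl)
    (by
      intro R i hi
      exact le_trans (W1_C_card_image _ _ _ _ _ fun p hp => hp) (h1 R i hi))
    (by
      intro R
      exact h2 R)
    (by
      intro R p
      exact le_trans (W1_C_card _ _ fun i hi => hi) (h3 R p))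
    hN2 hN4
  have hn : (0 : ℝ) < Fintype.card I := by
    have h5 : 0 < Fintype.card I := by omega
    exact_mod_cast h5
  have hN0 : (0 : ℝ) < N := by
    have h5 : 0 < N := by omega
    exact_mod_cast h5
  have hsum : ∑ i : I, (((Finset.univ.filter fun l => σ l = i).card + K : ℕ) : ℝ) =
      Fintype.card Λ + Fintype.card I * K := by
    rw [← Nat.cast_sum, Finset.sum_add_distrib]
    have h5 : ∑ i : I, (Finset.univ.filter fun l => σ l = i).card = Fintype.card Λ := by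
      rw [← Finset.card_univ]
      exact (Finset.card_eq_sum_card_fiberwise (fun l _ => Finset.mem_univ (σ l))).symm
    rw [h5, Finset.sum_const, Finset.card_univ, smul_eq_mul]
    push_cast
    ring
  have hsum2 : (N : ℝ) / Fintype.card I * ∑ i : I, ∑ j ∈ Finset.univ.erase i, ((K : ℕ) : ℝ) ≤
      K * (N * Fintype.card I) := by
    have h5 : ∑ i : I, ∑ j ∈ Finset.univ.erase i, ((K : ℕ) : ℝ) ≤ Fintype.card I * (Fintype.card I * K) := by
      calc ∑ i : I, ∑ j ∈ Finset.univ.erase i, ((K : ℕ) : ℝ) ≤ ∑ i : I, ((Fintype.card I : ℝ) * K) := by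
            refine Finset.sum_le_sum fun i _ => ?_
            rw [Finset.sum_const, nsmul_eq_mul]
            refine mul_le_mul_of_nonneg_right ?_ (Nat.cast_nonneg K)
            exact_mod_cast (Finset.card_le_univ _)
        _ = Fintype.card I * (Fintype.card I * K) := by
            rw [Finset.sum_const, Finset.card_univ, nsmul_eq_mul]
    calc (N : ℝ) / Fintype.card I * ∑ i : I, ∑ j ∈ Finset.univ.erase i, ((K : ℕ) : ℝ) ≤
          (N : ℝ) / Fintype.card I * (Fintype.card I * (Fintype.card I * K)) :=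
          mul_le_mul_of_nonneg_left h5 (by positivity)
      _ = K * (N * Fintype.card I) := by field_simp
  have hcrit : (crit.card : ℝ) ≤ 100 * ((∑ γ, ((T.h (T.β γ)).totalDegree + 1) * ((T.g γ).totalDegree + 1) *
          ((T.h (T.β γ)).totalDegree + (T.g γ).totalDegree + (T.G (T.β γ)).totalDegree +
          (T.r γ).totalDegree + 1) ^ 2 : ℕ) : ℝ) := by exact_mod_cast hcard
  set Z : ℝ := ((∑ γ, ((T.h (T.β γ)).totalDegree + 1) * ((T.g γ).totalDegree + 1) *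
          ((T.h (T.β γ)).totalDegree + (T.g γ).totalDegree + (T.G (T.β γ)).totalDegree +
          (T.r γ).totalDegree + 1) ^ 2 : ℕ) : ℝ) with hZ
  have hZ0 : 0 ≤ Z := Nat.cast_nonneg _
  set Y : ℝ := (P.card : ℝ) * ((Fintype.card I : ℝ) / N) ^ (1 - 1 / (k : ℝ)) with hY
  have hY0 : 0 ≤ Y := by positivity
  have hΛ0 : (0 : ℝ) ≤ Fintype.card Λ := Nat.cast_nonneg _
  have hK0 : (0 : ℝ) ≤ K := Nat.cast_nonneg _
  have hq : (Fintype.card I : ℝ) / N * crit.card ≤ 100 * ((Fintype.card I : ℝ) / N * Z) := by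
    calc (Fintype.card I : ℝ) / N * crit.card ≤ (Fintype.card I : ℝ) / N * (100 * Z) :=
          mul_le_mul_of_nonneg_left hcrit (by positivity)
      _ = 100 * ((Fintype.card I : ℝ) / N * Z) := by ring
  refine le_trans (le_trans ?_ hmain) ?_
  · exact_mod_cast W1_C_card _ _ fun z hz => hz
  · rw [Fintype.card_coe, ← hY, hsum, mul_assoc]
    refine mul_le_mul_of_nonneg_left ?_ hA0.le
    have e1 : 0 ≤ (Fintype.card I : ℝ) / N * Z := by positivity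
    have e2 : 0 ≤ (N : ℝ) * Fintype.card I := by positivity
    nlinarith [hsum2, hq, mul_nonneg hK0 hY0, mul_nonneg hK0 hΛ0, mul_nonneg hK0 hn.le, mul_nonneg hK0 e1,
      mul_nonneg hK0 e2]

open scoped Classical in
theorem w1_core (k K : ℕ) (hk : 2 ≤ k) : ∃ A : ℝ, 0 < A ∧ ∀ (c : ℕ) (I : Type) [Fintype I] [DecidableEq I]
    (e : I → Fin c → MvPolynomial (Fin c ⊕ Fin 2) ℝ) (S : I → Set (Fin c ⊕ Fin 2 → ℝ))
    (ψ : I → Fin 4 → MvPolynomial (Fin c ⊕ Fin 2) ℝ) (P : Finset (Fin 4 → ℝ))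
    (D : Finset ((Fin 4 → ℝ) × I)) (s : (Fin 4 → ℝ) × I → (Fin c ⊕ Fin 2 → ℝ)),
    Fr c k K e S ψ P D s → ∀ (B L : Type) [Fintype B] [Fintype L] (T : Tab B L),
    (∀ γ γ', γ ≠ γ' → Disjoint (T.Reg γ) (T.Reg γ')) →
    (∀ p ∈ P, ∃ γ, p ∈ T.Rz γ) →
    (∀ p ∈ P, ∀ i j s' s'', s' ∈ S i → s'' ∈ S j → (i = j → s' ≠ s'') →
      ev (ψ i) s' = ev (ψ j) s'' → ev (ψ i) s' 0 = p 0 → ev (ψ i) s' = p) →
    ∀ (Λ : Type) [Fintype Λ] (σ : Λ → I) (lab : Λ → L) (a a' : Λ → ℝ)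
      (ρ : Λ → ℝ → (Fin c ⊕ Fin 2 → ℝ)),
    (∀ l, a l < a' l) → (∀ l, ContinuousOn (ρ l) (Set.Icc (a l) (a' l))) →
    (∀ l, ∀ t ∈ Set.Icc (a l) (a' l), ρ l t (Sum.inr 0) = t ∧ ρ l t ∈ S (σ l) ∧
      ev (ψ (σ l)) (ρ l t) ∈ T.Rz (lab l)) →
    (∀ l, ev (ψ (σ l)) (ρ l (a l)) ∈ P ∧ ev (ψ (σ l)) (ρ l (a' l)) ∈ P) →
    (∀ l l' t t', σ l = σ l' → t ∈ Set.Icc (a l) (a' l) → t' ∈ Set.Icc (a l') (a' l') →
      ρ l t = ρ l' t' → l = l') →
    ∀ N : ℕ, 2 ≤ N → 4 * N ≤ Fintype.card I →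
    ((D.filter fun d => ∃ l, σ l = d.2 ∧ ∃ t ∈ Set.Icc (a l) (a' l), ρ l t = s d).card : ℝ) ≤
      A * (P.card * ((Fintype.card I : ℝ) / N) ^ (1 - 1 / (k : ℝ)) +
        (Fintype.card Λ + Fintype.card I) + (Fintype.card I : ℝ) / N * T.cost +
        (N : ℝ) * Fintype.card I) := by
  obtain ⟨A, hA, h⟩ := W1_C_aux k K hk
  refine ⟨A, hA, ?_⟩
  intro c I _ _ e S ψ P D s hFr B L _ _ T hdis hP hgx Λ _ σ lab a a' ρ hab hρc hρ hend hinj N hN2 hN4
  have h1 := h c I S ψ P {d | d ∈ D} s (fun i t => by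
      show eval t (ψ i 0) = _
      rw [(hFr.ch i).x, eval_X])
    (fun d hd => (hFr.mem d hd).2.2) hFr.xinj
    (fun Q hQ => by
      have h2 := hFr.kdof (Q.map (Function.Embedding.subtype _)) (by
        intro p hp
        obtain ⟨q, -, rfl⟩ := Finset.mem_map.1 hp
        exact q.2) (by rw [Finset.card_map, hQ])
      refine le_trans (W1_C_card _ _ ?_) h2
      intro i hi p hp
      obtain ⟨q, hq, rfl⟩ := Finset.mem_map.1 hp
      exact hi q hq)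
    hFr.cross B L T hdis hP hgx Λ σ lab a a' ρ hab hρc
    (fun l t ht => ⟨(hρ l t ht).1, (hρ l t ht).2.1⟩) (fun l t ht => (hρ l t ht).2.2) hend hinj N hN2 hN4
  refine le_trans ?_ h1
  have h3 : (D.filter fun d => ∃ l, σ l = d.2 ∧ ∃ t ∈ Set.Icc (a l) (a' l), ρ l t = s d) ⊆
      ((Finset.univ : Finset (P × I)).filter fun z => ((z.1 : Fin 4 → ℝ), z.2) ∈ {d | d ∈ D} ∧
      ∃ l, σ l = z.2 ∧ ∃ t ∈ Set.Icc (a l) (a' l), ρ l t = s ((z.1 : Fin 4 → ℝ), z.2)).image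
        fun z => ((z.1 : Fin 4 → ℝ), z.2) := by
    intro d hd
    rw [Finset.mem_filter] at hd
    refine Finset.mem_image.2 ⟨(⟨d.1, (hFr.mem d hd.1).1⟩, d.2), ?_, rfl⟩
    rw [Finset.mem_filter]
    exact ⟨Finset.mem_univ _, hd.1, hd.2⟩
  have h4 := (Finset.card_le_card h3).trans Finset.card_image_le
  exact Nat.cast_le.2 (h4.trans (W1_C_card _ _ fun z hz => hz))

end D4Q
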