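import Mathlib
import Pool.Agent.D4Q.PP
import Pool.Agent.D4Q.ARC
import Pool.Agent.D4Q.BD
import Pool.Agent.D4Q.VT
import Pool.Agent.D4Q.VP
import Pool.Agent.D4Q.W1_A2
import Pool.Agent.D4Q.W1_C

/-!
# D4Q part W1: incidences in codimension two, in generic coordinates

`w1_surf` gives the arcs of each surface (their number and the number of the counted incidences which are not on arcs are
bounded by a multiple of `T.arcs`), `w1_core` bounds the number of the designated incidences on arcs.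
-/

namespace D4Q

open MvPolynomial

private theorem W1_card {α : Type*} {p q : α → Prop} {s : Finset α} (dp : DecidablePred p)
    (dq : DecidablePred q) (h : ∀ x, p x → q x) :
    (@Finset.filter α p dp s).card ≤ (@Finset.filter α q dq s).card := by
  refine Finset.card_le_card fun x hx => ?_
  rw [Finset.mem_filter] at hx ⊢
  exact ⟨hx.1, h x hx.2⟩

open scoped Classical in
theorem w1 (c k K : ℕ) (hk : 2 ≤ k) : ∃ A : ℝ, 0 < A ∧ ∀ (I : Type) [Fintype I] [DecidableEq I]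
    (e : I → Fin c → MvPolynomial (Fin c ⊕ Fin 2) ℝ) (S : I → Set (Fin c ⊕ Fin 2 → ℝ))
    (ψ : I → Fin 4 → MvPolynomial (Fin c ⊕ Fin 2) ℝ) (P : Finset (Fin 4 → ℝ))
    (D : Finset ((Fin 4 → ℝ) × I)) (s : (Fin 4 → ℝ) × I → (Fin c ⊕ Fin 2 → ℝ)),
    Fr c k K e S ψ P D s → ∀ (B L : Type) [Fintype B] [Fintype L] (T : Tab B L),
    (∀ b, T.h b ≠ 0) → (∀ c c', c ≠ c' → Disjoint (T.Reg c) (T.Reg c')) →
    (∀ p ∈ P, ∃ c, p ∈ T.Reg c ∧ eval p (jzw (T.h (T.β c)) (T.g c)) ≠ 0) →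
    (∀ p ∈ P, ∀ i j s' s'', s' ∈ S i → s'' ∈ S j → (i = j → s' ≠ s'') →
      ev (ψ i) s' = ev (ψ j) s'' → ev (ψ i) s' 0 = p 0 → ev (ψ i) s' = p) →
    ∀ N : ℕ, 2 ≤ N → 4 * N ≤ Fintype.card I →
    ((D.filter fun d => ∀ c, d.1 ∈ T.Reg c → ¬ VanAt (S d.2) (ψ d.2) (T.h (T.β c)) (s d)).card : ℝ) ≤
      A * (P.card * ((Fintype.card I : ℝ) / N) ^ (1 - 1 / (k : ℝ)) +
        Fintype.card I * (T.arcs + 1) + (Fintype.card I : ℝ) / N * T.cost +
        (N : ℝ) * Fintype.card I) := by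
  obtain ⟨A1, h1⟩ := w1_surf c K
  obtain ⟨A2, hA2, h2⟩ := w1_core k K hk
  refine ⟨A2 * (A1 + 1) + A1, by positivity, ?_⟩
  intro I _ _ e S ψ P D s hFr B L _ _ T hh hdis hP hgx N hN2 hN4
  have hψ : ∀ i t, ev (ψ i) t 0 = t (Sum.inr 0) := by
    intro i t
    show eval t (ψ i 0) = _
    rw [(hFr.ch i).x, eval_X]
  set D' := D.filter fun d => ∀ c, d.1 ∈ T.Reg c → ¬ VanAt (S d.2) (ψ d.2) (T.h (T.β c)) (s d) with hD'
  have hD'1 : ∀ d ∈ D', d ∈ D := fun d hd => (Finset.mem_filter.1 hd).1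
  have hP' : ∀ p ∈ P, ∃ γ, p ∈ T.Rz γ := by
    intro p hp
    obtain ⟨γ, h3, h4⟩ := hP p hp
    exact ⟨γ, h3, h4⟩
  -- the points on the surface `i`
  have hsinj : ∀ d ∈ D, ∀ d' ∈ D, d.2 = d'.2 → s d (Sum.inr 0) = s d' (Sum.inr 0) → d = d' := by
    intro d hd d' hd' h3 h4
    obtain ⟨hp, -, he⟩ := hFr.mem d hd
    obtain ⟨hp', -, he'⟩ := hFr.mem d' hd'
    refine Prod.ext ?_ h3
    refine hFr.xinj hp hp' ?_
    show d.1 0 = d'.1 0
    rw [← he, ← he', hψ, hψ, h4]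
  have hQ : ∀ i : I, ∃ (Λ : Type) (_ : Fintype Λ) (lab : Λ → L) (a a' : Λ → ℝ)
      (ρ : Λ → ℝ → (Fin c ⊕ Fin 2 → ℝ)),
      Fintype.card Λ ≤ A1 * T.arcs ∧
      (∀ l, a l < a' l ∧ ContinuousOn (ρ l) (Set.Icc (a l) (a' l)) ∧
        (∀ t ∈ Set.Icc (a l) (a' l), ρ l t (Sum.inr 0) = t ∧ ρ l t ∈ S i ∧
          ev (ψ i) (ρ l t) ∈ T.Rz (lab l)) ∧
        ev (ψ i) (ρ l (a l)) ∈ P ∧ ev (ψ i) (ρ l (a' l)) ∈ P) ∧
      (∀ l l' t t', t ∈ Set.Icc (a l) (a' l) → t' ∈ Set.Icc (a l') (a' l') → ρ l t = ρ l' t' → l = l') ∧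
      (D'.filter fun d => d.2 = i ∧ ¬ ∃ l, ∃ t ∈ Set.Icc (a l) (a' l), ρ l t = s d).card ≤ A1 * T.arcs := by
    intro i
    obtain ⟨Λ, inst, lab, a, a', ρ, h3, h4, h5, h6⟩ := h1 (e i) (S i) (hFr.et i) (ψ i) (hFr.ch i) B L T hdis
      ((D'.filter fun d => d.2 = i).image s) (by
        intro q hq q' hq' h
        obtain ⟨d, hd, rfl⟩ := Finset.mem_image.1 (Finset.mem_coe.1 hq)
        obtain ⟨d', hd', rfl⟩ := Finset.mem_image.1 (Finset.mem_coe.1 hq')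
        rw [Finset.mem_filter] at hd hd'
        rw [hsinj d (hD'1 d hd.1) d' (hD'1 d' hd'.1) (hd.2.trans hd'.2.symm) h]) (by
        intro q hq
        obtain ⟨d, hd, rfl⟩ := Finset.mem_image.1 hq
        rw [Finset.mem_filter] at hd
        obtain ⟨hd1, rfl⟩ := hd
        obtain ⟨hp, hs, he⟩ := hFr.mem d (hD'1 d hd1)
        obtain ⟨γ, hγ⟩ := hP' d.1 hp
        refine ⟨hs, γ, ?_, ?_⟩
        · rw [he]
          exact hγ
        · exact (Finset.mem_filter.1 hd1).2 γ hγ.1)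
    have hPm : ∀ q ∈ (D'.filter fun d => d.2 = i).image s, ev (ψ i) q ∈ P := by
      intro q hq
      obtain ⟨d, hd, rfl⟩ := Finset.mem_image.1 hq
      rw [Finset.mem_filter] at hd
      obtain ⟨hd1, rfl⟩ := hd
      obtain ⟨hp, hs, he⟩ := hFr.mem d (hD'1 d hd1)
      rw [he]
      exact hp
    refine ⟨Λ, inst, lab, a, a', ρ, h3, fun l => ⟨(h4 l).1, (h4 l).2.1, (h4 l).2.2.1, hPm _ (h4 l).2.2.2.1,
      hPm _ (h4 l).2.2.2.2⟩, h5, ?_⟩
    refine le_trans ?_ h6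
    refine Finset.card_le_card_of_injOn s ?_ ?_
    · intro d hd
      rw [Finset.mem_coe, Finset.mem_filter] at hd
      rw [Finset.mem_coe, Finset.mem_filter]
      exact ⟨Finset.mem_image_of_mem s (Finset.mem_filter.2 ⟨hd.1, hd.2.1⟩), hd.2.2⟩
    · intro d hd d' hd' h
      rw [Finset.mem_coe, Finset.mem_filter] at hd hd'
      exact hsinj d (hD'1 d hd.1) d' (hD'1 d' hd'.1) (hd.2.1.trans hd'.2.1.symm) (by rw [h])
  choose Λ inst lab a a' ρ h3 h4 h5 h6 using hQ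
  have hcore := h2 c I e S ψ P D s hFr B L T hdis hP' hgx (Σ i, Λ i) (fun l => l.1) (fun l => lab l.1 l.2)
    (fun l => a l.1 l.2) (fun l => a' l.1 l.2) (fun l => ρ l.1 l.2) (fun l => (h4 l.1 l.2).1)
    (fun l => (h4 l.1 l.2).2.1) (fun l => (h4 l.1 l.2).2.2.1) (fun l => (h4 l.1 l.2).2.2.2)
    (by
      rintro ⟨i, l⟩ ⟨i', l'⟩ t t' h7 ht ht' h8
      obtain rfl : i = i' := h7
      rw [h5 i l l' t t' ht ht' h8])
    N hN2 hN4
  have hΛ : ((Fintype.card (Σ i, Λ i) : ℕ) : ℝ) ≤ Fintype.card I * (A1 * T.arcs) := by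
    rw [Fintype.card_sigma]
    push_cast
    calc ∑ i, ((Fintype.card (Λ i) : ℕ) : ℝ) ≤ ∑ i : I, ((A1 : ℝ) * T.arcs) := by
          refine Finset.sum_le_sum fun i _ => ?_
          exact_mod_cast h3 i
      _ = Fintype.card I * (A1 * T.arcs) := by
          rw [Finset.sum_const, Finset.card_univ, nsmul_eq_mul]
  have hcount : D'.card ≤ (D.filter fun d => ∃ l : Σ i, Λ i, l.1 = d.2 ∧
      ∃ t ∈ Set.Icc (a l.1 l.2) (a' l.1 l.2), ρ l.1 l.2 t = s d).card + Fintype.card I * (A1 * T.arcs) := by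
    have h7 : D' ⊆ (D.filter fun d => ∃ l : Σ i, Λ i, l.1 = d.2 ∧
        ∃ t ∈ Set.Icc (a l.1 l.2) (a' l.1 l.2), ρ l.1 l.2 t = s d) ∪
        Finset.univ.biUnion fun i => D'.filter fun d => d.2 = i ∧
          ¬ ∃ l, ∃ t ∈ Set.Icc (a i l) (a' i l), ρ i l t = s d := by
      intro d hd
      rw [Finset.mem_union]
      by_cases h8 : ∃ l, ∃ t ∈ Set.Icc (a d.2 l) (a' d.2 l), ρ d.2 l t = s d
      · left
        obtain ⟨l, t, ht, he⟩ := h8
        rw [Finset.mem_filter]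
        exact ⟨hD'1 d hd, ⟨d.2, l⟩, rfl, t, ht, he⟩
      · right
        rw [Finset.mem_biUnion]
        exact ⟨d.2, Finset.mem_univ _, Finset.mem_filter.2 ⟨hd, rfl, h8⟩⟩
    refine (Finset.card_le_card h7).trans ((Finset.card_union_le _ _).trans (Nat.add_le_add_left ?_ _))
    refine Finset.card_biUnion_le.trans ?_
    have h8 := Finset.sum_le_sum fun (i : I) (_ : i ∈ (Finset.univ : Finset I)) => h6 i
    rw [Finset.sum_const, Finset.card_univ, smul_eq_mul] at h8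
    exact h8
  have hcount' : (D'.card : ℝ) ≤ ((D.filter fun d => ∃ l : Σ i, Λ i, l.1 = d.2 ∧
      ∃ t ∈ Set.Icc (a l.1 l.2) (a' l.1 l.2), ρ l.1 l.2 t = s d).card : ℝ) +
      Fintype.card I * (A1 * T.arcs) := by exact_mod_cast hcount
  set Y : ℝ := (P.card : ℝ) * ((Fintype.card I : ℝ) / N) ^ (1 - 1 / (k : ℝ)) with hY
  have hY0 : 0 ≤ Y := by positivity
  set q : ℝ := (Fintype.card I : ℝ) / N * T.cost with hq
  have hq0 : 0 ≤ q := by positivity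
  set R : ℝ := (N : ℝ) * Fintype.card I with hR
  have hR0 : 0 ≤ R := by positivity
  have hA10 : (0 : ℝ) ≤ A1 := Nat.cast_nonneg _
  have hn0 : (0 : ℝ) ≤ Fintype.card I := Nat.cast_nonneg _
  have ha0 : (0 : ℝ) ≤ T.arcs := Nat.cast_nonneg _
  have hna : 0 ≤ (Fintype.card I : ℝ) * T.arcs := by positivity
  have hfin : Y + (((Fintype.card (Σ i, Λ i) : ℕ) : ℝ) + Fintype.card I) + q + R ≤
      (A1 + 1) * (Y + Fintype.card I * (T.arcs + 1) + q + R) := by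
    nlinarith [mul_nonneg hA10 hY0, mul_nonneg hA10 hq0, mul_nonneg hA10 hR0, mul_nonneg hA10 hn0]
  have hfin2 : (Fintype.card I : ℝ) * (A1 * T.arcs) ≤ A1 * (Y + Fintype.card I * (T.arcs + 1) + q + R) := by
    nlinarith [mul_nonneg hA10 hY0, mul_nonneg hA10 hq0, mul_nonneg hA10 hR0, mul_nonneg hA10 hn0]
  have hfin3 : A2 * (Y + (((Fintype.card (Σ i, Λ i) : ℕ) : ℝ) + Fintype.card I) + q + R) ≤
      A2 * ((A1 + 1) * (Y + Fintype.card I * (T.arcs + 1) + q + R)) := mul_le_mul_of_nonneg_left hfin hA2.le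
  have hcore' : ((D.filter fun d => ∃ l : Σ i, Λ i, l.1 = d.2 ∧
      ∃ t ∈ Set.Icc (a l.1 l.2) (a' l.1 l.2), ρ l.1 l.2 t = s d).card : ℝ) ≤
      A2 * (Y + (((Fintype.card (Σ i, Λ i) : ℕ) : ℝ) + Fintype.card I) + q + R) :=
    le_trans (Nat.cast_le.2 (W1_card _ _ fun d hd => hd)) hcore
  calc (D'.card : ℝ) ≤ A2 * ((A1 + 1) * (Y + Fintype.card I * (T.arcs + 1) + q + R)) +
        A1 * (Y + Fintype.card I * (T.arcs + 1) + q + R) :=
        hcount'.trans (add_le_add (hcore'.trans hfin3) hfin2)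
    _ = (A2 * (A1 + 1) + A1) * (Y + Fintype.card I * (T.arcs + 1) + q + R) := by ring

end D4Q
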