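import Mathlib
import Pool.Agent.D4Q.Defs

/-!
# D4Q part W: étale surfaces after a linear change of the coordinates of `ℝ ^ 4`

The old variables and a variable `τ` are the new variables `inl`, the new `inr` variables are the first two new coordinates
`ℓ_i ψ`, `ℓ_i` the rows of `M`; equations `e = 0`, `ℓ_i ψ = X (inr i)`, `τ Jac = 1`.
-/

namespace D4Q

namespace Wg

open MvPolynomial

/-- the indices of the new variables -/
noncomputable def ix (c : ℕ) : (Fin c ⊕ Fin 2) ⊕ Unit ≃ Fin (c + 3) :=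
  Fintype.equivFinOfCardEq (by simp [Fintype.card_sum])

/-- an old variable as a new variable -/
noncomputable def wi {c : ℕ} (v : Fin c ⊕ Fin 2) : Fin (c + 3) ⊕ Fin 2 := Sum.inl (ix c (Sum.inl v))

/-- the variable `τ` -/
noncomputable def wt (c : ℕ) : Fin (c + 3) ⊕ Fin 2 := Sum.inl (ix c (Sum.inr ()))

/-- the new coordinates -/
noncomputable def lin {σ : Type*} (M : Matrix (Fin 4) (Fin 4) ℝ) (ψ : Fin 4 → MvPolynomial σ ℝ) (i : Fin 4) :
    MvPolynomial σ ℝ := ∑ b, C (M i b) * ψ b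

/-- `0` or `1` as an element of `Fin 4` -/
def f4 (i : Fin 2) : Fin 4 := Fin.castLE (by norm_num) i

variable {c : ℕ} (M : Matrix (Fin 4) (Fin 4) ℝ) (e : Fin c → MvPolynomial (Fin c ⊕ Fin 2) ℝ)
  (ψ : Fin 4 → MvPolynomial (Fin c ⊕ Fin 2) ℝ)

/-- the polynomials whose Jacobian determinant is `Jac` -/
noncomputable def row : Fin c ⊕ Fin 2 → MvPolynomial (Fin c ⊕ Fin 2) ℝ :=
  Sum.elim e (fun i => lin M ψ (f4 i))

/-- the Jacobian determinant -/
noncomputable def Jac : MvPolynomial (Fin c ⊕ Fin 2) ℝ := (Matrix.of fun r v => pderiv v (row M e ψ r)).det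

/-- the new equations, indexed by a sum -/
noncomputable def eS : (Fin c ⊕ Fin 2) ⊕ Unit → MvPolynomial (Fin (c + 3) ⊕ Fin 2) ℝ :=
  Sum.elim (Sum.elim (fun a => rename wi (e a)) fun i => rename wi (lin M ψ (f4 i)) - X (Sum.inr i))
    (fun _ => X (wt c) * rename wi (Jac M e ψ) - 1)

/-- the new equations -/
noncomputable def eN (a : Fin (c + 3)) : MvPolynomial (Fin (c + 3) ⊕ Fin 2) ℝ := eS M e ψ ((ix c).symm a)

/-- the new map -/
noncomputable def ψN : Fin 4 → MvPolynomial (Fin (c + 3) ⊕ Fin 2) ℝ :=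
  ![X (Sum.inr 0), X (Sum.inr 1), rename wi (lin M ψ 2), rename wi (lin M ψ 3)]

/-- the new surface -/
def SN (S : Set (Fin c ⊕ Fin 2 → ℝ)) : Set (Fin (c + 3) ⊕ Fin 2 → ℝ) :=
  {s | (fun v => s (wi v)) ∈ S ∧ ∀ a, eval s (eN M e ψ a) = 0}

/-- the point over `s` -/
noncomputable def sec (s : Fin c ⊕ Fin 2 → ℝ) : Fin (c + 3) ⊕ Fin 2 → ℝ :=
  Sum.elim (fun a => Sum.elim s (fun _ => (eval s (Jac M e ψ))⁻¹) ((ix c).symm a))
    (fun i => eval s (lin M ψ (f4 i)))

theorem wi_inj : Function.Injective (wi (c := c)) := fun _ _ h =>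
  Sum.inl_injective ((ix c).injective (Sum.inl_injective h))

theorem eval_lin {σ : Type*} (ψ : Fin 4 → MvPolynomial σ ℝ) (i : Fin 4) (s : σ → ℝ) :
    eval s (lin M ψ i) = M.mulVec (ev ψ s) i := by
  unfold lin ev
  rw [map_sum]
  simp only [map_mul, eval_C, Matrix.mulVec, dotProduct]

theorem eval_ren (p : MvPolynomial (Fin c ⊕ Fin 2) ℝ) (s : Fin (c + 3) ⊕ Fin 2 → ℝ) :
    eval s (rename wi p) = eval (fun v => s (wi v)) p := by
  rw [eval_rename]
  rfl

theorem pd_wi (v : Fin c ⊕ Fin 2) (p : MvPolynomial (Fin c ⊕ Fin 2) ℝ) :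
    pderiv (wi v) (rename wi p) = rename wi (pderiv v p) := pderiv_rename wi_inj v p

theorem pd_wt (p : MvPolynomial (Fin c ⊕ Fin 2) ℝ) : pderiv (wt c) (rename wi p) = 0 := by
  classical
  refine pderiv_eq_zero_of_notMem_vars fun h => ?_
  obtain ⟨v, -, hv⟩ := mem_vars_rename wi p h
  have h1 := (ix c).injective (Sum.inl_injective hv)
  exact absurd h1 (by simp)

theorem zero_iff (s : Fin (c + 3) ⊕ Fin 2 → ℝ) : (∀ a, eval s (eN M e ψ a) = 0) ↔
    (∀ a, eval (fun v => s (wi v)) (e a) = 0) ∧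
    (∀ i, eval (fun v => s (wi v)) (lin M ψ (f4 i)) = s (Sum.inr i)) ∧
    s (wt c) * eval (fun v => s (wi v)) (Jac M e ψ) = 1 := by
  have h1 : (∀ a, eval s (eN M e ψ a) = 0) ↔ ∀ r, eval s (eS M e ψ r) = 0 := by
    constructor
    · intro h r
      have := h (ix c r)
      unfold eN at this
      rwa [Equiv.symm_apply_apply] at this
    · exact fun h a => h _
  rw [h1, Sum.forall, Sum.forall]
  unfold eS
  simp only [Sum.elim_inl, Sum.elim_inr, map_sub, map_mul, map_one, eval_X, eval_ren, sub_eq_zero, forall_const]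
  exact ⟨fun h => ⟨h.1.1, h.1.2, h.2⟩, fun h => ⟨⟨h.1, h.2.1⟩, h.2.2⟩⟩

theorem eval_mu (s : Fin (c + 3) ⊕ Fin 2 → ℝ) :
    eval s (HDI.mu (eN M e ψ)) = (eval (fun v => s (wi v)) (Jac M e ψ)) ^ 2 := by
  classical
  unfold HDI.mu
  rw [RingHom.map_det, ← Matrix.det_submatrix_equiv_self (ix c)]
  have h1 : ((eval s).mapMatrix (Matrix.of fun a b : Fin (c + 3) => pderiv (Sum.inl b) (eN M e ψ a))).submatrix
      (ix c) (ix c) = Matrix.fromBlocks
        (Matrix.of fun r v : Fin c ⊕ Fin 2 => eval (fun v => s (wi v)) (pderiv v (row M e ψ r))) 0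
        (Matrix.of fun (_ : Unit) (v : Fin c ⊕ Fin 2) =>
          eval s (pderiv (wi v) (X (wt c) * rename wi (Jac M e ψ) - 1)))
        (Matrix.of fun _ _ : Unit => eval (fun v => s (wi v)) (Jac M e ψ)) := by
    ext r v
    have h2 : ((eval s).mapMatrix (Matrix.of fun a b : Fin (c + 3) =>
        pderiv (Sum.inl b) (eN M e ψ a))).submatrix (ix c) (ix c) r v =
        eval s (pderiv (Sum.inl (ix c v)) (eS M e ψ r)) := by
      show eval s (pderiv (Sum.inl (ix c v)) (eS M e ψ ((ix c).symm (ix c r)))) = _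
      rw [Equiv.symm_apply_apply]
    rw [h2]
    have hX : ∀ (i : Fin 2) (v : (Fin c ⊕ Fin 2) ⊕ Unit),
        pderiv (Sum.inl (ix c v)) (X (Sum.inr i) : MvPolynomial (Fin (c + 3) ⊕ Fin 2) ℝ) = 0 :=
      fun i v => pderiv_X_of_ne (by simp)
    rcases r with (a | i) | ⟨⟩ <;> rcases v with v | ⟨⟩
    · show eval s (pderiv (wi v) (rename wi (e a))) = eval _ (pderiv v (e a))
      rw [pd_wi, eval_ren]
    · show eval s (pderiv (wt c) (rename wi (e a))) = 0
      rw [pd_wt, map_zero]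
    · show eval s (pderiv (wi v) (rename wi (lin M ψ (f4 i)) - X (Sum.inr i))) = eval _ (pderiv v (lin M ψ (f4 i)))
      rw [map_sub, pd_wi]
      have := hX i (Sum.inl v)
      unfold wi at this ⊢
      rw [this, sub_zero]
      exact eval_ren _ _
    · show eval s (pderiv (wt c) (rename wi (lin M ψ (f4 i)) - X (Sum.inr i))) = 0
      rw [map_sub, pd_wt]
      have := hX i (Sum.inr ())
      unfold wt
      rw [this, sub_zero, map_zero]
    · rfl
    · show eval s (pderiv (wt c) (X (wt c) * rename wi (Jac M e ψ) - 1)) = eval _ (Jac M e ψ)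
      rw [map_sub, pderiv_one, sub_zero, pderiv_mul, pd_wt, pderiv_X_self, one_mul, mul_zero, add_zero, eval_ren]
  rw [h1, Matrix.det_fromBlocks_zero₁₂]
  have h3 : (Matrix.of fun r v : Fin c ⊕ Fin 2 => eval (fun v => s (wi v)) (pderiv v (row M e ψ r))).det =
      eval (fun v => s (wi v)) (Jac M e ψ) := by
    unfold Jac
    rw [RingHom.map_det]
    rfl
  have h4 : (Matrix.of fun _ _ : Unit => eval (fun v => s (wi v)) (Jac M e ψ)).det =
      eval (fun v => s (wi v)) (Jac M e ψ) := by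
    rw [Matrix.det_unique]
    rfl
  rw [h3, h4, sq]

theorem ev_ψN {s : Fin (c + 3) ⊕ Fin 2 → ℝ} (hs : ∀ a, eval s (eN M e ψ a) = 0) :
    ev (ψN M ψ) s = M.mulVec (ev ψ fun v => s (wi v)) := by
  have h := ((zero_iff M e ψ s).1 hs).2.1
  funext i
  rw [← eval_lin]
  fin_cases i
  · show eval s (X (Sum.inr 0)) = _
    rw [eval_X, ← h 0]
    rfl
  · show eval s (X (Sum.inr 1)) = _
    rw [eval_X, ← h 1]
    rfl
  · exact eval_ren _ _
  · exact eval_ren _ _

theorem lift_inj {s t : Fin (c + 3) ⊕ Fin 2 → ℝ} (hs : ∀ a, eval s (eN M e ψ a) = 0)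
    (ht : ∀ a, eval t (eN M e ψ a) = 0) (h : (fun v => s (wi v)) = fun v => t (wi v)) : s = t := by
  obtain ⟨-, h1, h2⟩ := (zero_iff M e ψ s).1 hs
  obtain ⟨-, h3, h4⟩ := (zero_iff M e ψ t).1 ht
  rw [h] at h1 h2
  funext v
  rcases v with a | i
  · obtain ⟨r, rfl⟩ := (ix c).surjective a
    rcases r with v | ⟨⟩
    · exact congrFun h v
    · have h5 : eval (fun v => t (wi v)) (Jac M e ψ) ≠ 0 := right_ne_zero_of_mul_eq_one h4
      exact mul_right_cancel₀ h5 (h2.trans h4.symm)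
  · rw [← h1 i, ← h3 i]

theorem sec_wi (s : Fin c ⊕ Fin 2 → ℝ) : (fun v => sec M e ψ s (wi v)) = s := by
  funext v
  show Sum.elim s (fun _ => (eval s (Jac M e ψ))⁻¹) ((ix c).symm (ix c (Sum.inl v))) = s v
  rw [Equiv.symm_apply_apply]
  rfl

theorem sec_wt (s : Fin c ⊕ Fin 2 → ℝ) : sec M e ψ s (wt c) = (eval s (Jac M e ψ))⁻¹ := by
  show Sum.elim s (fun _ => (eval s (Jac M e ψ))⁻¹) ((ix c).symm (ix c (Sum.inr ()))) = _
  rw [Equiv.symm_apply_apply]
  rfl

theorem sec_zero {s : Fin c ⊕ Fin 2 → ℝ} (hs : ∀ a, eval s (e a) = 0) (hJ : eval s (Jac M e ψ) ≠ 0) :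
    ∀ a, eval (sec M e ψ s) (eN M e ψ a) = 0 := by
  rw [zero_iff, sec_wi, sec_wt]
  exact ⟨hs, fun i => rfl, inv_mul_cancel₀ hJ⟩

theorem sec_mem {S : Set (Fin c ⊕ Fin 2 → ℝ)} {s : Fin c ⊕ Fin 2 → ℝ} (hs : s ∈ S)
    (h0 : ∀ a, eval s (e a) = 0) (hJ : eval s (Jac M e ψ) ≠ 0) : sec M e ψ s ∈ SN M e ψ S := by
  refine ⟨?_, sec_zero M e ψ h0 hJ⟩
  rw [sec_wi]
  exact hs

theorem cont_eval {σ : Type*} (p : MvPolynomial σ ℝ) : Continuous fun s : σ → ℝ => eval s p :=
  MvPolynomial.continuous_eval p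

theorem sec_cont {s : Fin c ⊕ Fin 2 → ℝ} (hJ : eval s (Jac M e ψ) ≠ 0) : ContinuousAt (sec M e ψ) s := by
  rw [continuousAt_pi]
  intro v
  rcases v with a | i
  · obtain ⟨r, rfl⟩ := (ix c).surjective a
    rcases r with v | ⟨⟩
    · have h : (fun t => sec M e ψ t (Sum.inl (ix c (Sum.inl v)))) = fun t => t v := by
        funext t
        exact congrFun (sec_wi M e ψ t) v
      rw [h]
      exact (continuous_apply v).continuousAt
    · have h : (fun t => sec M e ψ t (Sum.inl (ix c (Sum.inr ())))) = fun t => (eval t (Jac M e ψ))⁻¹ := by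
        funext t
        exact sec_wt M e ψ t
      rw [h]
      exact (cont_eval _).continuousAt.inv₀ hJ
  · exact (cont_eval (lin M ψ (f4 i))).continuousAt

/-- a polynomial which vanishes on the new surface near the new point vanishes on the old surface -/
theorem vanAt {S : Set (Fin c ⊕ Fin 2 → ℝ)} (hS : ∀ s ∈ S, ∀ a, eval s (e a) = 0) {s : Fin c ⊕ Fin 2 → ℝ}
    (hJ : eval s (Jac M e ψ) ≠ 0) {h h' : MvPolynomial (Fin 4) ℝ}
    (hh : ∀ p, eval (M.mulVec p) h' = eval p h)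
    (hv : VanAt (SN M e ψ S) (ψN M ψ) h' (sec M e ψ s)) : VanAt S ψ h s := by
  have h1 : ∀ᶠ t in nhdsWithin s S, eval t (Jac M e ψ) ≠ 0 :=
    ((cont_eval (Jac M e ψ)).continuousAt.eventually_ne hJ).filter_mono nhdsWithin_le_nhds
  have h2 : Filter.Tendsto (sec M e ψ) (nhdsWithin s S) (nhdsWithin (sec M e ψ s) (SN M e ψ S)) := by
    refine tendsto_nhdsWithin_iff.2 ⟨(sec_cont M e ψ hJ).tendsto.mono_left nhdsWithin_le_nhds, ?_⟩
    filter_upwards [h1, self_mem_nhdsWithin] with t ht htS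
    exact sec_mem M e ψ htS (hS t htS) ht
  have h3 := h2.eventually hv
  unfold VanAt
  filter_upwards [h1, self_mem_nhdsWithin, h3] with t ht htS ht3
  rw [ev_ψN M e ψ (sec_zero M e ψ (hS t htS) ht), hh, sec_wi] at ht3
  exact ht3

end Wg

end D4Q
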