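import Mathlib
import Pool.Agent.D4Q.Defs

/-!
# D4Q part W: generic matrices

`Gen Q`: the property `Q` holds for all matrices outside of the zero set of a nonzero polynomial.
-/

namespace D4Q

namespace Wg

open MvPolynomial

/-- `F` is a polynomial function of the entries of the matrix -/
def PF (F : Matrix (Fin 4) (Fin 4) ℝ → ℝ) : Prop :=
  ∃ p : MvPolynomial (Fin 4 × Fin 4) ℝ, ∀ M, eval (fun q => M q.1 q.2) p = F M

variable {F G : Matrix (Fin 4) (Fin 4) ℝ → ℝ}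

theorem pf_const (c : ℝ) : PF fun _ => c := ⟨C c, fun _ => eval_C _⟩

theorem pf_entry (i j : Fin 4) : PF fun M => M i j := ⟨X (i, j), fun _ => eval_X _⟩

theorem PF.add (hF : PF F) (hG : PF G) : PF fun M => F M + G M := by
  obtain ⟨p, hp⟩ := hF
  obtain ⟨q, hq⟩ := hG
  exact ⟨p + q, fun M => by rw [map_add, hp, hq]⟩

theorem PF.sub (hF : PF F) (hG : PF G) : PF fun M => F M - G M := by
  obtain ⟨p, hp⟩ := hF
  obtain ⟨q, hq⟩ := hG
  exact ⟨p - q, fun M => by rw [map_sub, hp, hq]⟩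

theorem PF.mul (hF : PF F) (hG : PF G) : PF fun M => F M * G M := by
  obtain ⟨p, hp⟩ := hF
  obtain ⟨q, hq⟩ := hG
  exact ⟨p * q, fun M => by rw [map_mul, hp, hq]⟩

theorem PF.sum {ι : Type*} (s : Finset ι) {F : ι → Matrix (Fin 4) (Fin 4) ℝ → ℝ} (h : ∀ i, PF (F i)) :
    PF fun M => ∑ i ∈ s, F i M := by
  choose p hp using h
  exact ⟨∑ i ∈ s, p i, fun M => by rw [map_sum]; exact Finset.sum_congr rfl fun i _ => hp i M⟩

theorem PF.prod {ι : Type*} (s : Finset ι) {F : ι → Matrix (Fin 4) (Fin 4) ℝ → ℝ} (h : ∀ i, PF (F i)) :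
    PF fun M => ∏ i ∈ s, F i M := by
  choose p hp using h
  exact ⟨∏ i ∈ s, p i, fun M => by rw [map_prod]; exact Finset.prod_congr rfl fun i _ => hp i M⟩

theorem PF.det {n : Type*} [Fintype n] [DecidableEq n] {A : Matrix (Fin 4) (Fin 4) ℝ → Matrix n n ℝ}
    (h : ∀ i j, PF fun M => A M i j) : PF fun M => (A M).det := by
  simp only [Matrix.det_apply']
  exact PF.sum _ fun σ => (pf_const _).mul (PF.prod _ fun i => h (σ i) i)

theorem pf_adj (i j : Fin 4) : PF fun M => M.adjugate i j := by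
  simp only [Matrix.adjugate_apply]
  refine PF.det (A := fun M => M.updateRow j (Pi.single i 1)) fun a b => ?_
  by_cases h : a = j
  · subst h
    simp only [Matrix.updateRow_self]
    exact pf_const _
  · simp only [Matrix.updateRow_ne h]
    exact pf_entry a b

theorem pf_det : PF fun M => M.det := PF.det pf_entry

/-- `Q` holds for generic matrices -/
def Gen (Q : Matrix (Fin 4) (Fin 4) ℝ → Prop) : Prop :=
  ∃ p : MvPolynomial (Fin 4 × Fin 4) ℝ, p ≠ 0 ∧ ∀ M : Matrix (Fin 4) (Fin 4) ℝ,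
    eval (fun q => M q.1 q.2) p ≠ 0 → Q M

variable {Q R : Matrix (Fin 4) (Fin 4) ℝ → Prop}

theorem Gen.of (hF : PF F) (h0 : ∃ M, F M ≠ 0) : Gen fun M => F M ≠ 0 := by
  obtain ⟨p, hp⟩ := hF
  obtain ⟨M, hM⟩ := h0
  refine ⟨p, ?_, fun M hM => by rwa [hp] at hM⟩
  rintro rfl
  exact hM (by rw [← hp, map_zero])

theorem Gen.mono (h : Gen Q) (hQ : ∀ M, Q M → R M) : Gen R := by
  obtain ⟨p, hp, h⟩ := h
  exact ⟨p, hp, fun M hM => hQ M (h M hM)⟩

theorem Gen.and (h : Gen Q) (h' : Gen R) : Gen fun M => Q M ∧ R M := by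
  obtain ⟨p, hp, h⟩ := h
  obtain ⟨q, hq, h'⟩ := h'
  refine ⟨p * q, mul_ne_zero hp hq, fun M hM => ?_⟩
  rw [map_mul] at hM
  exact ⟨h M (left_ne_zero_of_mul hM), h' M (right_ne_zero_of_mul hM)⟩

theorem Gen.all {ι : Type*} (s : Finset ι) {Q : ι → Matrix (Fin 4) (Fin 4) ℝ → Prop}
    (h : ∀ i ∈ s, Gen (Q i)) : Gen fun M => ∀ i ∈ s, Q i M := by
  classical
  induction s using Finset.induction_on with
  | empty => exact ⟨1, one_ne_zero, fun M _ i hi => absurd hi (Finset.notMem_empty i)⟩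
  | insert a s ha ih =>
    refine ((h a (Finset.mem_insert_self a s)).and (ih fun i hi => h i (Finset.mem_insert_of_mem hi))).mono ?_
    rintro M ⟨h1, h2⟩ i hi
    rcases Finset.mem_insert.1 hi with rfl | hi
    · exact h1
    · exact h2 i hi

theorem Gen.ex (h : Gen Q) : ∃ M, Q M := by
  obtain ⟨p, hp, h⟩ := h
  by_contra hcon
  push Not at hcon
  refine hp (MvPolynomial.funext fun x => ?_)
  rw [map_zero]
  by_contra hx
  exact hcon (Matrix.of fun i j => x (i, j)) (h (Matrix.of fun i j => x (i, j)) hx)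

theorem gen_det : Gen fun M => M.det ≠ 0 :=
  Gen.of pf_det ⟨1, by rw [Matrix.det_one]; exact one_ne_zero⟩

/-- the first coordinate separates two points -/
theorem gen_sep {p q : Fin 4 → ℝ} (h : p ≠ q) : Gen fun M => M.mulVec p 0 ≠ M.mulVec q 0 := by
  have h1 : PF fun M => ∑ b, M 0 b * (p b - q b) := PF.sum _ fun b => (pf_entry 0 b).mul (pf_const _)
  refine (Gen.of h1 ⟨Matrix.of fun _ b => p b - q b, ?_⟩).mono fun M hM heq => hM ?_
  · obtain ⟨b, hb⟩ := Function.ne_iff.1 h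
    have h2 : 0 < ∑ b, (p b - q b) * (p b - q b) := by
      refine Finset.sum_pos' (fun b _ => mul_self_nonneg _) ⟨b, Finset.mem_univ b, ?_⟩
      exact mul_self_pos.2 (sub_ne_zero.2 hb)
    exact h2.ne'
  · have h3 : ∑ b, M 0 b * (p b - q b) = M.mulVec p 0 - M.mulVec q 0 := by
      simp only [Matrix.mulVec, dotProduct, mul_sub, Finset.sum_sub_distrib]
    rw [h3, heq, sub_self]

/-- the last minor of two covectors with respect to the columns of `W` -/
def mn (u v : Fin 4 → ℝ) (W : Matrix (Fin 4) (Fin 4) ℝ) : ℝ :=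
  (∑ b, u b * W b 2) * (∑ b, v b * W b 3) - (∑ b, u b * W b 3) * (∑ b, v b * W b 2)

theorem mn_smul (u v : Fin 4 → ℝ) (c : ℝ) (W : Matrix (Fin 4) (Fin 4) ℝ) : mn u v (c • W) = c ^ 2 * mn u v W := by
  have h : ∀ (u : Fin 4 → ℝ) (j : Fin 4), ∑ b, u b * (c • W) b j = c * ∑ b, u b * W b j := by
    intro u j
    rw [Finset.mul_sum]
    refine Finset.sum_congr rfl fun b _ => ?_
    rw [Matrix.smul_apply, smul_eq_mul]
    ring
  unfold mn
  rw [h, h, h, h]
  ring

theorem gram {u v : Fin 4 → ℝ} (h : LinearIndependent ℝ ![u, v]) :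
    (∑ b, u b * u b) * (∑ b, v b * v b) - (∑ b, u b * v b) * (∑ b, v b * u b) ≠ 0 := by
  intro h0
  have h1 : ∑ b, v b * u b = ∑ b, u b * v b := Finset.sum_congr rfl fun b _ => mul_comm _ _
  rw [h1] at h0
  have hu : u ≠ 0 := h.ne_zero 0
  have hA : 0 < ∑ b, u b * u b := by
    obtain ⟨b, hb⟩ := Function.ne_iff.1 hu
    exact Finset.sum_pos' (fun b _ => mul_self_nonneg _) ⟨b, Finset.mem_univ b, mul_self_pos.2 hb⟩
  have h2 : ∑ b, ((∑ b, u b * u b) * v b - (∑ b, u b * v b) * u b) ^ 2 = 0 := by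
    have h3 : ∑ b, ((∑ b, u b * u b) * v b - (∑ b, u b * v b) * u b) ^ 2 =
        (∑ b, u b * u b) * ((∑ b, u b * u b) * (∑ b, v b * v b) - (∑ b, u b * v b) * (∑ b, u b * v b)) := by
      simp only [Fin.sum_univ_four]
      ring
    rw [h3, h0, mul_zero]
  have h4 : ∀ b, (∑ b, u b * u b) * v b - (∑ b, u b * v b) * u b = 0 := by
    intro b
    have h5 := (Finset.sum_eq_zero_iff_of_nonneg (fun b _ => sq_nonneg _)).1 h2 b (Finset.mem_univ b)
    exact pow_eq_zero_iff (two_ne_zero) |>.1 h5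
  have h6 := LinearIndependent.pair_iff.1 h (-(∑ b, u b * v b)) (∑ b, u b * u b) (by
    funext b
    have := h4 b
    simp only [Pi.add_apply, Pi.smul_apply, smul_eq_mul, Pi.zero_apply]
    linarith)
  exact hA.ne' h6.2

/-- independent covectors stay independent in the last two coordinates -/
theorem gen_mn {u v : Fin 4 → ℝ} (h : LinearIndependent ℝ ![u, v]) : Gen fun M => mn u v M⁻¹ ≠ 0 := by
  have hpf : ∀ (u : Fin 4 → ℝ) (j : Fin 4), PF fun M => ∑ b, u b * M b j :=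
    fun u j => PF.sum _ fun b => (pf_const _).mul (pf_entry b j)
  have hpa : ∀ (u : Fin 4 → ℝ) (j : Fin 4), PF fun M => ∑ b, u b * M.adjugate b j :=
    fun u j => PF.sum _ fun b => (pf_const _).mul (pf_adj b j)
  have h1 : PF fun M => mn u v M := ((hpf u 2).mul (hpf v 3)).sub ((hpf u 3).mul (hpf v 2))
  have h2 : PF fun M => mn u v M.adjugate := ((hpa u 2).mul (hpa v 3)).sub ((hpa u 3).mul (hpa v 2))
  obtain ⟨W, hW, hW'⟩ := ((Gen.of h1 ⟨Matrix.of fun b j => if j = 2 then u b else v b, by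
    have h3 := gram h
    unfold mn
    simpa using h3⟩).and gen_det).ex
  have hadj : ∀ M : Matrix (Fin 4) (Fin 4) ℝ, M.det ≠ 0 → mn u v M.adjugate = M.det ^ 2 * mn u v M⁻¹ := by
    intro M hM
    have h4 : M.adjugate = M.det • M⁻¹ := by
      rw [Matrix.inv_def, Ring.inverse_eq_inv', smul_smul, mul_inv_cancel₀ hM, one_smul]
    rw [h4, mn_smul]
  refine ((Gen.of h2 ⟨W⁻¹, ?_⟩).and gen_det).mono fun M hM h0 => ?_
  · have h5 : (W⁻¹).det ≠ 0 := by
      rw [Matrix.det_nonsing_inv, Ring.inverse_eq_inv']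
      exact inv_ne_zero hW'
    rw [hadj _ h5, Matrix.nonsing_inv_nonsing_inv _ (Ne.isUnit hW')]
    exact mul_ne_zero (pow_ne_zero 2 h5) hW
  · exact hM.1 (by rw [hadj M hM.2, h0, mul_zero])

end Wg

end D4Q
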