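import Mathlib
import Pool.Agent.D4Q.W_et
import Pool.Agent.D4Q.W_gen
import Pool.Agent.HDI.Bord

/-!
# D4Q part W: degrees; tables after a linear change of coordinates
-/

namespace D4Q

namespace Wg

open MvPolynomial

variable {c : ℕ} (M : Matrix (Fin 4) (Fin 4) ℝ) {e : Fin c → MvPolynomial (Fin c ⊕ Fin 2) ℝ}
  {ψ : Fin 4 → MvPolynomial (Fin c ⊕ Fin 2) ℝ} {S : Set (Fin c ⊕ Fin 2 → ℝ)} {K : ℕ}

theorem deg_lin {σ : Type*} {ψ : Fin 4 → MvPolynomial σ ℝ} {K : ℕ} (h : ∀ i, (ψ i).totalDegree ≤ K)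
    (i : Fin 4) : (lin M ψ i).totalDegree ≤ K := by
  refine totalDegree_finsetSum_le fun b _ => ?_
  refine (totalDegree_mul _ _).trans ?_
  rw [totalDegree_C, zero_add]
  exact h b

theorem deg_row (he : ∀ a, (e a).totalDegree ≤ K) (hψ : ∀ i, (ψ i).totalDegree ≤ K) (r : Fin c ⊕ Fin 2) :
    (row M e ψ r).totalDegree ≤ K := by
  rcases r with a | i
  · exact he a
  · exact deg_lin M hψ _

theorem deg_Jac (he : ∀ a, (e a).totalDegree ≤ K) (hψ : ∀ i, (ψ i).totalDegree ≤ K) :
    (Jac M e ψ).totalDegree ≤ (c + 2) * K := by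
  unfold Jac
  rw [Matrix.det_apply]
  refine totalDegree_finsetSum_le fun σ _ => ?_
  have h1 : ∀ p : MvPolynomial (Fin c ⊕ Fin 2) ℝ, (Equiv.Perm.sign σ • p).totalDegree ≤ p.totalDegree := by
    intro p
    rcases Int.units_eq_one_or (Equiv.Perm.sign σ) with h | h <;> rw [h] <;> simp [totalDegree_neg]
  refine (h1 _).trans ?_
  refine (totalDegree_finsetProd _ _).trans ?_
  refine (Finset.sum_le_card_nsmul _ _ K ?_).trans ?_
  · intro i _
    exact (HDI.totalDegree_pderiv_le' _ _).trans (deg_row M he hψ _)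
  · simp

theorem deg_eN (he : ∀ a, (e a).totalDegree ≤ K) (hψ : ∀ i, (ψ i).totalDegree ≤ K) (a : Fin (c + 3)) :
    (eN M e ψ a).totalDegree ≤ (c + 2) * K + 1 := by
  have hK : K ≤ (c + 2) * K := Nat.le_mul_of_pos_left K (by omega)
  unfold eN
  rcases (ix c).symm a with (b | i) | u
  · exact ((totalDegree_rename_le _ _).trans (he b)).trans (by omega)
  · refine (totalDegree_sub _ _).trans (max_le ?_ ?_)
    · exact ((totalDegree_rename_le _ _).trans (deg_lin M hψ _)).trans (by omega)
    · rw [totalDegree_X]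
      omega
  · refine (totalDegree_sub _ _).trans (max_le ?_ ?_)
    · refine (totalDegree_mul _ _).trans ?_
      rw [totalDegree_X]
      have := (totalDegree_rename_le (wi (c := c)) (Jac M e ψ)).trans (deg_Jac M he hψ)
      omega
    · rw [totalDegree_one]
      omega

theorem isEt (h : IsEt K e S) (hψ : ∀ i, (ψ i).totalDegree ≤ K) :
    IsEt ((c + 2) * K + 1) (eN M e ψ) (SN M e ψ S) where
  deg := deg_eN M h.deg hψ
  zero s hs a := hs.2 a
  reg s hs := by
    rw [eval_mu]
    exact pow_ne_zero 2 (right_ne_zero_of_mul_eq_one ((zero_iff M e ψ s).1 hs).2.2)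
  closed := by
    have h1 : Continuous fun (s : Fin (c + 3) ⊕ Fin 2 → ℝ) v => s (wi (c := c) v) :=
      continuous_pi fun v => continuous_apply _
    have h2 : IsClosed {s : Fin (c + 3) ⊕ Fin 2 → ℝ | ∀ a, eval s (eN M e ψ a) = 0} := by
      simp only [Set.ofPred_forall]
      exact isClosed_iInter fun a => isClosed_eq (cont_eval _) continuous_const
    exact (h.closed.preimage h1).inter h2
  clop := by
    have h1 : Continuous fun (s : Fin (c + 3) ⊕ Fin 2 → ℝ) v => s (wi (c := c) v) :=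
      continuous_pi fun v => continuous_apply _
    have h2 : IsClosed {s : Fin (c + 3) ⊕ Fin 2 → ℝ | ∀ a, eval s (eN M e ψ a) = 0} := by
      simp only [Set.ofPred_forall]
      exact isClosed_iInter fun a => isClosed_eq (cont_eval _) continuous_const
    have h3 : {s | ∀ a, eval s (eN M e ψ a) = 0} \ SN M e ψ S =
        (fun (s : Fin (c + 3) ⊕ Fin 2 → ℝ) v => s (wi (c := c) v)) ⁻¹' ({s | ∀ a, eval s (e a) = 0} \ S) ∩
          {s | ∀ a, eval s (eN M e ψ a) = 0} := by
      ext s
      constructor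
      · rintro ⟨h4, h5⟩
        exact ⟨⟨((zero_iff M e ψ s).1 h4).1, fun h6 => h5 ⟨h6, h4⟩⟩, h4⟩
      · rintro ⟨h4, h5⟩
        exact ⟨h5, fun h6 => h4.2 h6.1⟩
    rw [h3]
    exact (h.clop.preimage h1).inter h2

theorem isChart (hψ : ∀ i, (ψ i).totalDegree ≤ K) : IsChart ((c + 2) * K + 1) (ψN M ψ) where
  x := rfl
  y := rfl
  deg i := by
    have hK : K ≤ (c + 2) * K := Nat.le_mul_of_pos_left K (by omega)
    fin_cases i
    · show (X (Sum.inr 0) : MvPolynomial (Fin (c + 3) ⊕ Fin 2) ℝ).totalDegree ≤ _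
      rw [totalDegree_X]
      omega
    · show (X (Sum.inr 1) : MvPolynomial (Fin (c + 3) ⊕ Fin 2) ℝ).totalDegree ≤ _
      rw [totalDegree_X]
      omega
    · exact ((totalDegree_rename_le (wi (c := c)) _).trans (deg_lin M hψ 2)).trans (by omega)
    · exact ((totalDegree_rename_le (wi (c := c)) _).trans (deg_lin M hψ 3)).trans (by omega)

/-- the Jacobian determinant at a point is generically not zero -/
theorem gen_jac (hψ : IsChart K ψ) {s : Fin c ⊕ Fin 2 → ℝ} (hs : eval s (HDI.mu e) ≠ 0) :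
    Gen fun M => eval s (Jac M e ψ) ≠ 0 := by
  classical
  have h1 : ∀ M, eval s (Jac M e ψ) = (Matrix.of fun r v : Fin c ⊕ Fin 2 => eval s (pderiv v (row M e ψ r))).det := by
    intro M
    unfold Jac
    rw [RingHom.map_det]
    rfl
  have h2 : PF fun M => (Matrix.of fun r v : Fin c ⊕ Fin 2 => eval s (pderiv v (row M e ψ r))).det := by
    refine PF.det fun r v => ?_
    rcases r with a | i
    · exact pf_const (eval s (pderiv v (e a)))
    · have h3 : ∀ M, (Matrix.of fun r v : Fin c ⊕ Fin 2 => eval s (pderiv v (row M e ψ r))) (Sum.inr i) v =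
          ∑ b, M (f4 i) b * eval s (pderiv v (ψ b)) := by
        intro M
        show eval s (pderiv v (lin M ψ (f4 i))) = _
        unfold lin
        rw [map_sum, map_sum]
        refine Finset.sum_congr rfl fun b _ => ?_
        rw [pderiv_C_mul, map_mul, eval_C]
      simp only [h3]
      exact PF.sum _ fun b => (pf_entry _ _).mul (pf_const _)
  simp only [h1]
  refine Gen.of h2 ⟨1, ?_⟩
  have h4 : ∀ i, lin (1 : Matrix (Fin 4) (Fin 4) ℝ) ψ i = ψ i := by
    intro i
    unfold lin
    rw [Finset.sum_eq_single i]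
    · rw [Matrix.one_apply_eq, C_1, one_mul]
    · intro b _ hb
      rw [Matrix.one_apply_ne hb.symm, C_0, zero_mul]
    · exact fun h => absurd (Finset.mem_univ i) h
  have h5 : (Matrix.of fun r v : Fin c ⊕ Fin 2 => eval s (pderiv v (row 1 e ψ r))) =
      Matrix.fromBlocks (Matrix.of fun a b : Fin c => eval s (pderiv (Sum.inl b) (e a)))
        (Matrix.of fun (a : Fin c) (j : Fin 2) => eval s (pderiv (Sum.inr j) (e a))) 0 1 := by
    ext r v
    rcases r with a | i <;> rcases v with b | j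
    · rfl
    · rfl
    · show eval s (pderiv (Sum.inl b) (lin 1 ψ (f4 i))) = 0
      rw [h4]
      fin_cases i
      · show eval s (pderiv (Sum.inl b) (ψ 0)) = 0
        rw [hψ.x, pderiv_X_of_ne (by simp), map_zero]
      · show eval s (pderiv (Sum.inl b) (ψ 1)) = 0
        rw [hψ.y, pderiv_X_of_ne (by simp), map_zero]
    · show eval s (pderiv (Sum.inr j) (lin 1 ψ (f4 i))) = (1 : Matrix (Fin 2) (Fin 2) ℝ) i j
      rw [h4]
      fin_cases i
      · show eval s (pderiv (Sum.inr j) (ψ 0)) = _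
        rw [hψ.x]
        fin_cases j
        · simp
        · rw [pderiv_X_of_ne (by simp), map_zero]
          rfl
      · show eval s (pderiv (Sum.inr j) (ψ 1)) = _
        rw [hψ.y]
        fin_cases j
        · rw [pderiv_X_of_ne (by simp), map_zero]
          rfl
        · simp
  rw [h5, Matrix.det_fromBlocks_zero₂₁, Matrix.det_one, mul_one]
  have h6 : (Matrix.of fun a b : Fin c => eval s (pderiv (Sum.inl b) (e a))).det = eval s (HDI.mu e) := by
    unfold HDI.mu
    rw [RingHom.map_det]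
    rfl
  rw [h6]
  exact hs

/-! ## Composition with a linear map -/

/-- composition with a linear map -/
noncomputable def cmp (W : Matrix (Fin 4) (Fin 4) ℝ) (h : MvPolynomial (Fin 4) ℝ) : MvPolynomial (Fin 4) ℝ :=
  bind₁ (lin W X) h

theorem eval_cmp (W : Matrix (Fin 4) (Fin 4) ℝ) (h : MvPolynomial (Fin 4) ℝ) (p : Fin 4 → ℝ) :
    eval p (cmp W h) = eval (W.mulVec p) h := by
  have h1 : eval p (bind₁ (lin W X) h) = eval (fun v => eval p (lin W X v)) h := eval₂Hom_bind₁ _ _ _ _
  unfold cmp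
  rw [h1]
  have h2 : (fun v => eval p (lin W X v)) = W.mulVec p := by
    funext v
    rw [eval_lin]
    have h3 : ev X p = p := funext fun i => eval_X i
    rw [h3]
  rw [h2]

theorem deg_cmp (W : Matrix (Fin 4) (Fin 4) ℝ) (h : MvPolynomial (Fin 4) ℝ) :
    (cmp W h).totalDegree ≤ h.totalDegree := by
  unfold cmp
  rw [bind₁, aeval_def, eval₂_eq]
  refine totalDegree_finsetSum_le ?_
  intro m hm
  refine (totalDegree_mul _ _).trans ?_
  have h1 : (algebraMap ℝ (MvPolynomial (Fin 4) ℝ) (coeff m h)).totalDegree = 0 := totalDegree_C _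
  rw [h1, zero_add]
  refine (totalDegree_finsetProd _ _).trans ?_
  calc ∑ i ∈ m.support, (lin W X i ^ m i).totalDegree ≤ ∑ i ∈ m.support, m i := by
        refine Finset.sum_le_sum ?_
        intro i _
        refine (totalDegree_pow _ _).trans ?_
        calc m i * (lin W X i).totalDegree ≤ m i * 1 :=
              Nat.mul_le_mul_left _ (deg_lin W (fun i => (totalDegree_X i).le) i)
          _ = m i := mul_one _
    _ ≤ h.totalDegree := le_totalDegree hm

theorem pd_cmp (W : Matrix (Fin 4) (Fin 4) ℝ) (h : MvPolynomial (Fin 4) ℝ) (a : Fin 4) :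
    pderiv a (cmp W h) = ∑ b, cmp W (pderiv b h) * C (W b a) := by
  have hl : ∀ b, pderiv a (lin W X b) = C (W b a) := by
    intro b
    unfold lin
    rw [map_sum, Finset.sum_eq_single a]
    · rw [pderiv_C_mul, pderiv_X_self, mul_one]
    · intro j _ hj
      rw [pderiv_C_mul, pderiv_X_of_ne hj, mul_zero]
    · exact fun h => absurd (Finset.mem_univ a) h
  unfold cmp
  induction h using MvPolynomial.induction_on with
  | C r =>
    rw [bind₁_C_right, pderiv_C]
    simp
  | add p q hp hq =>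
    simp only [map_add, hp, hq, add_mul, Finset.sum_add_distrib]
  | mul_X p i hp =>
    have e1 : ∀ b : Fin 4, bind₁ (lin W X) (pderiv b (p * X i)) * C (W b a) =
        bind₁ (lin W X) (pderiv b p) * C (W b a) * lin W X i +
          bind₁ (lin W X) p * (bind₁ (lin W X) (pderiv b (X i : MvPolynomial (Fin 4) ℝ)) * C (W b a)) := by
      intro b
      rw [pderiv_mul, map_add, map_mul, map_mul, bind₁_X_right]
      ring
    have e2 : ∑ b : Fin 4, bind₁ (lin W X) (pderiv b (X i : MvPolynomial (Fin 4) ℝ)) * C (W b a) = C (W i a) := by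
      rw [Finset.sum_eq_single i]
      · rw [pderiv_X_self, map_one, one_mul]
      · intro j _ hj
        rw [pderiv_X_of_ne (Ne.symm hj), map_zero, zero_mul]
      · intro h
        exact absurd (Finset.mem_univ i) h
    rw [Finset.sum_congr rfl (fun b _ => e1 b), Finset.sum_add_distrib, ← Finset.sum_mul,
      ← Finset.mul_sum, e2, ← hp, map_mul, bind₁_X_right, pderiv_mul, hl]

theorem grad_cmp (W : Matrix (Fin 4) (Fin 4) ℝ) (h : MvPolynomial (Fin 4) ℝ) (p : Fin 4 → ℝ) (a : Fin 4) :
    eval p (pderiv a (cmp W h)) = ∑ b, HDI.grad (W.mulVec p) h b * W b a := by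
  rw [pd_cmp, map_sum]
  refine Finset.sum_congr rfl fun b _ => ?_
  rw [map_mul, eval_C, eval_cmp]
  rfl

theorem jzw_cmp (W : Matrix (Fin 4) (Fin 4) ℝ) (h g : MvPolynomial (Fin 4) ℝ) (p : Fin 4 → ℝ) :
    eval p (jzw (cmp W h) (cmp W g)) = mn (HDI.grad (W.mulVec p) h) (HDI.grad (W.mulVec p) g) W := by
  unfold jzw mn
  rw [map_sub, map_mul, map_mul, grad_cmp, grad_cmp, grad_cmp, grad_cmp]

variable {B L : Type}

/-- the table in the new coordinates -/
noncomputable def TN (W : Matrix (Fin 4) (Fin 4) ℝ) (T : Tab B L) : Tab B L where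
  β := T.β
  h b := cmp W (T.h b)
  κ b := cmp W (T.κ b)
  G b := cmp W (T.G b)
  g c := cmp W (T.g c)
  l c := cmp W (T.l c)
  r c := cmp W (T.r c)

theorem mem_Reg (W : Matrix (Fin 4) (Fin 4) ℝ) (T : Tab B L) (c : L) (p : Fin 4 → ℝ) :
    p ∈ (TN W T).Reg c ↔ W.mulVec p ∈ T.Reg c := by
  unfold Tab.Reg TN
  simp only [Set.mem_ofPred_eq, eval_cmp]

theorem arcs_le [Fintype B] [Fintype L] (W : Matrix (Fin 4) (Fin 4) ℝ) (T : Tab B L) :
    (TN W T).arcs ≤ T.arcs := by
  unfold Tab.arcs TN
  refine add_le_add (Finset.sum_le_sum fun b _ => ?_) (Finset.sum_le_sum fun c _ => ?_)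
  · have h1 := deg_cmp W (T.h b)
    have h2 := deg_cmp W (T.κ b)
    have h3 := deg_cmp W (T.G b)
    exact Nat.mul_le_mul (by simpa using h1) (by simpa using add_le_add (add_le_add h1 h2) h3)
  · have h1 := deg_cmp W (T.h (T.β c))
    have h2 := deg_cmp W (T.g c)
    have h3 := deg_cmp W (T.l c)
    have h4 := deg_cmp W (T.r c)
    exact Nat.mul_le_mul (by simpa using h1) (by simpa using add_le_add (add_le_add (add_le_add h1 h2) h3) h4)

theorem cost_le [Fintype B] [Fintype L] (W : Matrix (Fin 4) (Fin 4) ℝ) (T : Tab B L) :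
    (TN W T).cost ≤ T.cost := by
  unfold Tab.cost TN
  refine Finset.sum_le_sum fun c _ => ?_
  have h1 := deg_cmp W (T.h (T.β c))
  have h2 := deg_cmp W (T.g c)
  have h3 := deg_cmp W (T.G (T.β c))
  have h4 := deg_cmp W (T.r c)
  refine Nat.mul_le_mul (Nat.mul_le_mul (by simpa using h1) (by simpa using h2)) (Nat.pow_le_pow_left ?_ 2)
  simpa using add_le_add (add_le_add (add_le_add h1 h2) h3) h4

end Wg

end D4Q
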