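import Mathlib
import Pool.Agent.D4Q.W1
import Pool.Agent.D4Q.W_tab

/-!
# D4Q part W: incidences in codimension two

Reduction to `w1` by a generic linear change of the coordinates of `ℝ ^ 4` (files W_gen, W_et, W_tab): the matrix `M` is
chosen outside of the zero set of a nonzero polynomial, so that the new surfaces, points and tables satisfy the hypotheses
of `w1`.
-/

namespace D4Q

open MvPolynomial

open scoped Classical in
theorem wthm (c k K : ℕ) (hk : 2 ≤ k) : ∃ A : ℝ, 0 < A ∧ ∀ (I : Type) [Fintype I] [DecidableEq I]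
    (e : I → Fin c → MvPolynomial (Fin c ⊕ Fin 2) ℝ) (S : I → Set (Fin c ⊕ Fin 2 → ℝ))
    (ψ : I → Fin 4 → MvPolynomial (Fin c ⊕ Fin 2) ℝ) (P : Finset (Fin 4 → ℝ))
    (D : Finset ((Fin 4 → ℝ) × I)) (s : (Fin 4 → ℝ) × I → (Fin c ⊕ Fin 2 → ℝ)),
    Fr c k K e S ψ P D s → ∀ (B L : Type) [Fintype B] [Fintype L] (T : Tab B L),
    (∀ b, T.h b ≠ 0) → (∀ c c', c ≠ c' → Disjoint (T.Reg c) (T.Reg c')) →
    (∀ p ∈ P, ∃ c, p ∈ T.Reg c ∧
      LinearIndependent ℝ ![HDI.grad p (T.h (T.β c)), HDI.grad p (T.g c)]) →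
    ∀ N : ℕ, 2 ≤ N → 4 * N ≤ Fintype.card I →
    ((D.filter fun d => ∀ c, d.1 ∈ T.Reg c → ¬ VanAt (S d.2) (ψ d.2) (T.h (T.β c)) (s d)).card : ℝ) ≤
      A * (P.card * ((Fintype.card I : ℝ) / N) ^ (1 - 1 / (k : ℝ)) +
        Fintype.card I * (T.arcs + 1) + (Fintype.card I : ℝ) / N * T.cost +
        (N : ℝ) * Fintype.card I) := by
  obtain ⟨A, hA, hw⟩ := w1 (c + 3) k ((c + 2) * K + 1) hk
  refine ⟨A, hA, ?_⟩
  intro I _ _ e S ψ P D s hF B L _ _ T hh hdis hP N hN hNI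
  have hKK : K ≤ (c + 2) * K + 1 := by
    have := Nat.le_mul_of_pos_left K (show 0 < c + 2 by omega)
    omega
  choose cl hcl using hP
  -- the crossing points
  obtain ⟨Z, hZ⟩ : ∃ Z : Finset (Fin 4 → ℝ), ∀ i j s' s'', s' ∈ S i → s'' ∈ S j → (i = j → s' ≠ s'') →
      ev (ψ i) s' = ev (ψ j) s'' → ev (ψ i) s' ∈ Z := by
    have hfin : (⋃ i, ⋃ j, (fun q : (Fin c ⊕ Fin 2 → ℝ) × (Fin c ⊕ Fin 2 → ℝ) => ev (ψ i) q.1) ''
        {q : (Fin c ⊕ Fin 2 → ℝ) × (Fin c ⊕ Fin 2 → ℝ) |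
          q.1 ∈ S i ∧ q.2 ∈ S j ∧ (i = j → q.1 ≠ q.2) ∧ ev (ψ i) q.1 = ev (ψ j) q.2}).Finite := by
      refine Set.finite_iUnion fun i => Set.finite_iUnion fun j => Set.Finite.image _ ?_
      exact Set.finite_of_encard_le_coe (hF.cross i j)
    refine ⟨hfin.toFinset, fun i j s' s'' h1 h2 h3 h4 => ?_⟩
    rw [Set.Finite.mem_toFinset, Set.mem_iUnion]
    refine ⟨i, Set.mem_iUnion.2 ⟨j, ⟨(s', s''), ⟨h1, h2, h3, h4⟩, rfl⟩⟩⟩
  have g1 : Wg.Gen fun M => ∀ d ∈ D, eval (s d) (Wg.Jac M (e d.2) (ψ d.2)) ≠ 0 :=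
    Wg.Gen.all D fun d hd => Wg.gen_jac (hF.ch d.2)
      ((hF.et d.2).reg (s d) ((hF.et d.2).zero (s d) (hF.mem d hd).2.1))
  have g2 : Wg.Gen fun M => ∀ q ∈ (P ∪ Z).offDiag, M.mulVec q.1 0 ≠ M.mulVec q.2 0 :=
    Wg.Gen.all _ fun q hq => Wg.gen_sep (Finset.mem_offDiag.1 hq).2.2
  have g3 : Wg.Gen fun M => ∀ p ∈ P.attach, Wg.mn (HDI.grad p.1 (T.h (T.β (cl p.1 p.2))))
      (HDI.grad p.1 (T.g (cl p.1 p.2))) M⁻¹ ≠ 0 :=
    Wg.Gen.all _ fun p _ => Wg.gen_mn (hcl p.1 p.2).2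
  obtain ⟨M, h1, h2, h3, h4⟩ := (g1.and (g2.and (g3.and Wg.gen_det))).ex
  have hu : IsUnit M.det := Ne.isUnit h4
  have hl : ∀ p, M⁻¹.mulVec (M.mulVec p) = p := by
    intro p
    rw [Matrix.mulVec_mulVec, Matrix.nonsing_inv_mul _ hu, Matrix.one_mulVec]
  have hr : ∀ p, M.mulVec (M⁻¹.mulVec p) = p := by
    intro p
    rw [Matrix.mulVec_mulVec, Matrix.mul_nonsing_inv _ hu, Matrix.one_mulVec]
  have hinj : Function.Injective M.mulVec := fun p q h => by rw [← hl p, ← hl q, h]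
  have hev : ∀ (h : MvPolynomial (Fin 4) ℝ) p, eval (M.mulVec p) (Wg.cmp M⁻¹ h) = eval p h := by
    intro h p
    rw [Wg.eval_cmp, hl]
  have hsep : ∀ p ∈ P ∪ Z, ∀ q ∈ P ∪ Z, M.mulVec p 0 = M.mulVec q 0 → p = q := by
    intro p hp q hq h
    by_contra hne
    exact h2 (p, q) (Finset.mem_offDiag.2 ⟨hp, hq, hne⟩) h
  -- the new data
  have hsd : ∀ d : (Fin 4 → ℝ) × I, s (M⁻¹.mulVec (M.mulVec d.1), d.2) = s d := fun d => by rw [hl]
  have hF' : Fr (c + 3) k ((c + 2) * K + 1) (fun i => Wg.eN M (e i) (ψ i)) (fun i => Wg.SN M (e i) (ψ i) (S i))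
      (fun i => Wg.ψN M (ψ i)) (P.image M.mulVec) (D.image fun d => (M.mulVec d.1, d.2))
      (fun d => Wg.sec M (e d.2) (ψ d.2) (s (M⁻¹.mulVec d.1, d.2))) := by
    refine ⟨fun i => Wg.isEt M (hF.et i) (hF.ch i).deg, fun i => Wg.isChart M (hF.ch i).deg, ?_, ?_, ?_, ?_⟩
    · intro d' hd'
      obtain ⟨d, hd, rfl⟩ := Finset.mem_image.1 hd'
      obtain ⟨m1, m2, m3⟩ := hF.mem d hd
      have hz := (hF.et d.2).zero (s d) m2
      refine ⟨Finset.mem_image_of_mem _ m1, ?_, ?_⟩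
      · show Wg.sec M (e d.2) (ψ d.2) (s (M⁻¹.mulVec (M.mulVec d.1), d.2)) ∈ _
        rw [hsd]
        exact Wg.sec_mem M _ _ m2 hz (h1 d hd)
      · show ev (Wg.ψN M (ψ d.2)) (Wg.sec M (e d.2) (ψ d.2) (s (M⁻¹.mulVec (M.mulVec d.1), d.2))) = M.mulVec d.1
        rw [hsd, Wg.ev_ψN M (e d.2) (ψ d.2) (Wg.sec_zero M _ _ hz (h1 d hd)), Wg.sec_wi, m3]
    · intro p' hp' q' hq' h
      obtain ⟨p, hp, rfl⟩ := Finset.mem_image.1 (Finset.mem_coe.1 hp')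
      obtain ⟨q, hq, rfl⟩ := Finset.mem_image.1 (Finset.mem_coe.1 hq')
      rw [hsep p (Finset.mem_union_left _ hp) q (Finset.mem_union_left _ hq) h]
    · intro Q' hQ' hc
      have hQP : Q'.image M⁻¹.mulVec ⊆ P := by
        intro p hp
        obtain ⟨p', hp', rfl⟩ := Finset.mem_image.1 hp
        obtain ⟨q, hq, rfl⟩ := Finset.mem_image.1 (hQ' hp')
        rw [hl]
        exact hq
      have hQc : (Q'.image M⁻¹.mulVec).card = k := by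
        rw [Finset.card_image_of_injective _ (fun p q h => by rw [← hr p, ← hr q, h]), hc]
      refine (Finset.card_le_card ?_).trans ((hF.kdof _ hQP hQc).trans hKK)
      intro i hi
      rw [Finset.mem_filter] at hi ⊢
      refine ⟨Finset.mem_univ _, fun p hp => ?_⟩
      obtain ⟨p', hp', rfl⟩ := Finset.mem_image.1 hp
      obtain ⟨d, hd, hd'⟩ := Finset.mem_image.1 (hi.2 p' hp')
      have e1 : M.mulVec d.1 = p' := congrArg Prod.fst hd'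
      have e2 : d.2 = i := congrArg Prod.snd hd'
      rw [← e1, ← e2, hl]
      exact hd
    · intro i j
      have hmap : Set.MapsTo (fun q : (Fin (c + 3) ⊕ Fin 2 → ℝ) × (Fin (c + 3) ⊕ Fin 2 → ℝ) =>
          ((fun v => q.1 (Wg.wi v)), (fun v => q.2 (Wg.wi (c := c) v))))
          {q : (Fin (c + 3) ⊕ Fin 2 → ℝ) × (Fin (c + 3) ⊕ Fin 2 → ℝ) |
            q.1 ∈ Wg.SN M (e i) (ψ i) (S i) ∧ q.2 ∈ Wg.SN M (e j) (ψ j) (S j) ∧ (i = j → q.1 ≠ q.2) ∧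
              ev (Wg.ψN M (ψ i)) q.1 = ev (Wg.ψN M (ψ j)) q.2}
          {q : (Fin c ⊕ Fin 2 → ℝ) × (Fin c ⊕ Fin 2 → ℝ) |
            q.1 ∈ S i ∧ q.2 ∈ S j ∧ (i = j → q.1 ≠ q.2) ∧ ev (ψ i) q.1 = ev (ψ j) q.2} := by
        rintro q ⟨q1, q2, q3, q4⟩
        refine ⟨q1.1, q2.1, fun hij => ?_, ?_⟩
        · subst hij
          exact fun h => q3 rfl (Wg.lift_inj M _ _ q1.2 q2.2 h)
        · rw [Wg.ev_ψN M _ _ q1.2, Wg.ev_ψN M _ _ q2.2] at q4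
          exact hinj q4
      refine (Set.encard_le_encard_of_injOn hmap ?_).trans ((hF.cross i j).trans (by exact_mod_cast hKK))
      rintro q ⟨q1, q2, -, -⟩ q' ⟨q1', q2', -, -⟩ h
      exact Prod.ext (Wg.lift_inj M _ _ q1.2 q1'.2 (congrArg Prod.fst h))
        (Wg.lift_inj M _ _ q2.2 q2'.2 (congrArg Prod.snd h))
  have hb := hw I (fun i => Wg.eN M (e i) (ψ i)) (fun i => Wg.SN M (e i) (ψ i) (S i))
    (fun i => Wg.ψN M (ψ i)) (P.image M.mulVec) (D.image fun d => (M.mulVec d.1, d.2))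
    (fun d => Wg.sec M (e d.2) (ψ d.2) (s (M⁻¹.mulVec d.1, d.2))) hF' B L (Wg.TN M⁻¹ T)
    (fun b hb => hh b (MvPolynomial.funext fun p => by
      rw [← hev, map_zero]
      have hb' : Wg.cmp M⁻¹ (T.h b) = 0 := hb
      rw [hb', map_zero]))
    (fun a a' haa => Set.disjoint_left.2 fun p hp hp' =>
      Set.disjoint_left.1 (hdis a a' haa) ((Wg.mem_Reg _ _ _ _).1 hp) ((Wg.mem_Reg _ _ _ _).1 hp'))
    (fun p' hp' => by
      obtain ⟨p, hp, rfl⟩ := Finset.mem_image.1 hp'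
      refine ⟨cl p hp, ?_, ?_⟩
      · rw [Wg.mem_Reg, hl]
        exact (hcl p hp).1
      · show eval (M.mulVec p) (jzw (Wg.cmp M⁻¹ (T.h (T.β (cl p hp)))) (Wg.cmp M⁻¹ (T.g (cl p hp)))) ≠ 0
        rw [Wg.jzw_cmp, hl]
        exact h3 ⟨p, hp⟩ (Finset.mem_attach _ _))
    (fun p' hp' i j s' s'' hs' hs'' hij heq h0 => by
      obtain ⟨p, hp, rfl⟩ := Finset.mem_image.1 hp'
      have e1 := Wg.ev_ψN M (e i) (ψ i) hs'.2
      have e2 := Wg.ev_ψN M (e j) (ψ j) hs''.2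
      have hz := hZ i j _ _ hs'.1 hs''.1 (fun hij' => by
        subst hij'
        exact fun h => hij rfl (Wg.lift_inj M _ _ hs'.2 hs''.2 h)) (hinj (by rw [← e1, ← e2]; exact heq))
      have e3 := hsep _ (Finset.mem_union_right _ hz) p (Finset.mem_union_left _ hp) (by rw [← e1]; exact h0)
      show ev (Wg.ψN M (ψ i)) s' = M.mulVec p
      rw [e1, e3]) N hN hNI
  have hcard : (D.filter fun d => ∀ c, d.1 ∈ T.Reg c → ¬ VanAt (S d.2) (ψ d.2) (T.h (T.β c)) (s d)).card ≤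
      ((D.image fun d => (M.mulVec d.1, d.2)).filter fun d => ∀ c, d.1 ∈ (Wg.TN M⁻¹ T).Reg c →
        ¬ VanAt (Wg.SN M (e d.2) (ψ d.2) (S d.2)) (Wg.ψN M (ψ d.2)) ((Wg.TN M⁻¹ T).h ((Wg.TN M⁻¹ T).β c))
          (Wg.sec M (e d.2) (ψ d.2) (s (M⁻¹.mulVec d.1, d.2)))).card := by
    refine Finset.card_le_card_of_injOn (fun d => (M.mulVec d.1, d.2)) ?_ ?_
    · intro d hd
      obtain ⟨hd1, hd2⟩ := Finset.mem_filter.1 (Finset.mem_coe.1 hd)
      refine Finset.mem_coe.2 (Finset.mem_filter.2 ⟨Finset.mem_image_of_mem _ hd1, ?_⟩)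
      intro a ha hv
      have ha' : d.1 ∈ T.Reg a := by
        have := (Wg.mem_Reg _ _ _ _).1 ha
        rwa [hl] at this
      refine hd2 a ha' ?_
      have hv' : VanAt (Wg.SN M (e d.2) (ψ d.2) (S d.2)) (Wg.ψN M (ψ d.2)) (Wg.cmp M⁻¹ (T.h (T.β a)))
          (Wg.sec M (e d.2) (ψ d.2) (s (M⁻¹.mulVec (M.mulVec d.1), d.2))) := hv
      rw [hsd] at hv'
      exact Wg.vanAt M (e d.2) (ψ d.2) (hF.et d.2).zero (h1 d hd1) (hev _) hv'
    · intro d _ d' _ h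
      have e1 : M.mulVec d.1 = M.mulVec d'.1 := (Prod.ext_iff.1 h).1
      have e2 : d.2 = d'.2 := (Prod.ext_iff.1 h).2
      exact Prod.ext (hinj e1) e2
  have hPc : ((P.image M.mulVec).card : ℝ) ≤ P.card := by exact_mod_cast Finset.card_image_le
  have harcs : ((Wg.TN M⁻¹ T).arcs : ℝ) ≤ T.arcs := by exact_mod_cast Wg.arcs_le M⁻¹ T
  have hcost : ((Wg.TN M⁻¹ T).cost : ℝ) ≤ T.cost := by exact_mod_cast Wg.cost_le M⁻¹ T
  refine ((Nat.cast_le.2 hcard).trans hb).trans ?_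
  gcongr

end D4Q
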