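import Mathlib
import Pool.Agent.D4Q.Frame_D
import Pool.Agent.D4Q.W

/-!
# D4Q-FrameC2: the incidences of level 2

PROOF. `wthm` for the point set `R ⊆ P`, the designated incidences `D.filter fun d => d.1 ∈ R` (`Fr` is inherited: `kdof` by monotonicity; for `Q ⊆ R` use `Q ⊆ P`), `N = ⌊t ^ 2⌋₊`: `2 ≤ N`, `N ≤ t ^ 2`, `t ^ 2 ≤ 2 N`, `4 N ≤ n`.
`n / N ≤ 2 n / t ^ 2`, `(2 n / t ^ 2) ^ (1 - 1/k) ≤ 2 (n / t ^ 2) ^ (1 - 1/k)`; `|R| ≤ |P|`; `n (arcs + 1) ≤ n (A t ^ 2 + t ^ 2)`; `(n / N) cost ≤ 2 A n t ^ 2`; `N n ≤ n t ^ 2`.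
-/

namespace D4Q

open MvPolynomial

private theorem C2_fr {c k K : ℕ} {I : Type} [Fintype I] [DecidableEq I]
    {e : I → Fin c → MvPolynomial (Fin c ⊕ Fin 2) ℝ} {S : I → Set (Fin c ⊕ Fin 2 → ℝ)}
    {ψ : I → Fin 4 → MvPolynomial (Fin c ⊕ Fin 2) ℝ} {P : Finset (Fin 4 → ℝ)}
    {D : Finset ((Fin 4 → ℝ) × I)} {s : (Fin 4 → ℝ) × I → (Fin c ⊕ Fin 2 → ℝ)}
    (hF : Fr c k K e S ψ P D s) {R : Finset (Fin 4 → ℝ)} (hR : R ⊆ P) {D' : Finset ((Fin 4 → ℝ) × I)}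
    (hD : ∀ d ∈ D', d ∈ D ∧ d.1 ∈ R) : Fr c k K e S ψ R D' s := by
  refine ⟨hF.et, hF.ch, fun d hd => ⟨(hD d hd).2, (hF.mem d (hD d hd).1).2⟩, ?_, ?_, hF.cross⟩
  · exact hF.xinj.mono (by exact_mod_cast hR)
  · intro Q hQ hQk
    refine (Finset.card_le_card ?_).trans (hF.kdof Q (hQ.trans hR) hQk)
    intro i hi
    rw [Finset.mem_filter] at hi ⊢
    exact ⟨hi.1, fun p hp => (hD _ (hi.2 p hp)).1⟩

open scoped Classical in
theorem fr_count2 (c k K A : ℕ) (hk : 2 ≤ k) : ∃ A' : ℝ, 0 < A' ∧ ∀ (I : Type) [Fintype I] [DecidableEq I]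
    (e : I → Fin c → MvPolynomial (Fin c ⊕ Fin 2) ℝ) (S : I → Set (Fin c ⊕ Fin 2 → ℝ))
    (ψ : I → Fin 4 → MvPolynomial (Fin c ⊕ Fin 2) ℝ) (P : Finset (Fin 4 → ℝ))
    (D : Finset ((Fin 4 → ℝ) × I)) (s : (Fin 4 → ℝ) × I → (Fin c ⊕ Fin 2 → ℝ)),
    Fr c k K e S ψ P D s → ∀ t : ℝ, 2 ≤ t ^ 2 → 8 * t ^ 2 ≤ Fintype.card I → 0 < t →
    (P.card : ℝ) * ((Fintype.card I : ℝ) / t ^ 2) ^ (1 - 1 / (k : ℝ)) = Fintype.card I * t ^ 2 →
    ∀ R : Finset (Fin 4 → ℝ), R ⊆ P → ∀ (B L : Type) [Fintype B] [Fintype L] (T : Tab B L),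
    (∀ b, T.h b ≠ 0) → (∀ c c', c ≠ c' → Disjoint (T.Reg c) (T.Reg c')) →
    (∀ p ∈ R, ∃ c, p ∈ T.Reg c ∧
      LinearIndependent ℝ ![HDI.grad p (T.h (T.β c)), HDI.grad p (T.g c)]) →
    (T.arcs : ℝ) ≤ A * t ^ 2 → (T.cost : ℝ) ≤ A * t ^ 4 →
    ((D.filter fun d => d.1 ∈ R ∧ ∀ c, d.1 ∈ T.Reg c →
      ¬ VanAt (S d.2) (ψ d.2) (T.h (T.β c)) (s d)).card : ℝ) ≤ A' * (Fintype.card I * t ^ 2) := by
  obtain ⟨A1, hA1, hw⟩ := wthm c k K hk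
  refine ⟨A1 * (2 + (A + 1) + 2 * A + 1), by positivity, ?_⟩
  intro I _ _ e S ψ P D s hF t ht2 ht8 ht0 hpt R hRP B L _ _ T hT1 hT2 hT3 hT4 hT5
  have hF' : Fr c k K e S ψ R (D.filter fun d => d.1 ∈ R) s :=
    C2_fr hF hRP (fun d hd => Finset.mem_filter.1 hd)
  obtain ⟨N, hNdef⟩ : ∃ N : ℕ, N = ⌊t ^ 2⌋₊ := ⟨_, rfl⟩
  have ht2' : (0 : ℝ) ≤ t ^ 2 := by positivity
  have ht20 : (0 : ℝ) < t ^ 2 := by positivity
  have hN1 : (N : ℝ) ≤ t ^ 2 := by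
    rw [hNdef]
    exact Nat.floor_le ht2'
  have hN2 : 2 ≤ N := by
    rw [hNdef]
    exact Nat.le_floor (by exact_mod_cast ht2)
  have hN3 : t ^ 2 ≤ 2 * N := by
    have h1 : t ^ 2 < N + 1 := by
      rw [hNdef]
      exact Nat.lt_floor_add_one _
    have h2 : (2 : ℝ) ≤ N := by exact_mod_cast hN2
    linarith
  have hn0 : (0 : ℝ) ≤ Fintype.card I := Nat.cast_nonneg _
  have hN4 : 4 * N ≤ Fintype.card I := by
    have h1 : (4 : ℝ) * N ≤ Fintype.card I := by linarith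
    exact_mod_cast h1
  have hN0 : (0 : ℝ) < N := by
    have : 0 < N := by omega
    exact_mod_cast this
  have hA0 : (0 : ℝ) ≤ A := Nat.cast_nonneg _
  have hmain := hw I e S ψ R (D.filter fun d => d.1 ∈ R) s hF' B L T hT1 hT2 hT3 N hN2 hN4
  obtain ⟨w, hwd⟩ : ∃ w : ℝ, w = (Fintype.card I : ℝ) * t ^ 2 := ⟨_, rfl⟩
  have hw0 : 0 ≤ w := by rw [hwd]; positivity
  have hdiv : (Fintype.card I : ℝ) / N ≤ 2 * ((Fintype.card I : ℝ) / t ^ 2) := by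
    rw [div_le_iff₀ hN0]
    have h1 : (Fintype.card I : ℝ) = (Fintype.card I : ℝ) / t ^ 2 * t ^ 2 := by field_simp
    have h2 : (0 : ℝ) ≤ (Fintype.card I : ℝ) / t ^ 2 := by positivity
    calc (Fintype.card I : ℝ) = (Fintype.card I : ℝ) / t ^ 2 * t ^ 2 := h1
      _ ≤ (Fintype.card I : ℝ) / t ^ 2 * (2 * N) := mul_le_mul_of_nonneg_left hN3 h2
      _ = _ := by ring
  have hk2 : (2 : ℝ) ≤ k := by exact_mod_cast hk
  have hk1 : (1 : ℝ) / k ≤ 1 := by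
    rw [div_le_one (by linarith)]
    linarith
  have hk3 : (0 : ℝ) ≤ 1 - 1 / k := by linarith
  have hk4 : (1 : ℝ) - 1 / k ≤ 1 := by
    have : (0 : ℝ) ≤ 1 / k := by positivity
    linarith
  have t1 : (R.card : ℝ) * ((Fintype.card I : ℝ) / N) ^ (1 - 1 / (k : ℝ)) ≤ 2 * w := by
    have h1 : ((Fintype.card I : ℝ) / N) ^ (1 - 1 / (k : ℝ)) ≤
        2 * ((Fintype.card I : ℝ) / t ^ 2) ^ (1 - 1 / (k : ℝ)) := by
      calc ((Fintype.card I : ℝ) / N) ^ (1 - 1 / (k : ℝ)) ≤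
          (2 * ((Fintype.card I : ℝ) / t ^ 2)) ^ (1 - 1 / (k : ℝ)) :=
            Real.rpow_le_rpow (by positivity) hdiv hk3
        _ = (2 : ℝ) ^ (1 - 1 / (k : ℝ)) * ((Fintype.card I : ℝ) / t ^ 2) ^ (1 - 1 / (k : ℝ)) :=
            Real.mul_rpow (by norm_num) (by positivity)
        _ ≤ 2 * ((Fintype.card I : ℝ) / t ^ 2) ^ (1 - 1 / (k : ℝ)) := by
            refine mul_le_mul_of_nonneg_right ?_ (by positivity)
            calc (2 : ℝ) ^ (1 - 1 / (k : ℝ)) ≤ (2 : ℝ) ^ (1 : ℝ) :=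
                  Real.rpow_le_rpow_of_exponent_le (by norm_num) hk4
              _ = 2 := Real.rpow_one 2
    have h2 : (R.card : ℝ) ≤ P.card := by exact_mod_cast Finset.card_le_card hRP
    calc (R.card : ℝ) * ((Fintype.card I : ℝ) / N) ^ (1 - 1 / (k : ℝ)) ≤
        P.card * (2 * ((Fintype.card I : ℝ) / t ^ 2) ^ (1 - 1 / (k : ℝ))) :=
          mul_le_mul h2 h1 (by positivity) (by positivity)
      _ = 2 * (P.card * ((Fintype.card I : ℝ) / t ^ 2) ^ (1 - 1 / (k : ℝ))) := by ring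
      _ = 2 * w := by rw [hpt, hwd]
  have t2 : (Fintype.card I : ℝ) * ((T.arcs : ℝ) + 1) ≤ (A + 1) * w := by
    have h1 : (T.arcs : ℝ) + 1 ≤ (A + 1) * t ^ 2 := by nlinarith
    calc (Fintype.card I : ℝ) * ((T.arcs : ℝ) + 1) ≤ Fintype.card I * ((A + 1) * t ^ 2) :=
          mul_le_mul_of_nonneg_left h1 hn0
      _ = (A + 1) * w := by rw [hwd]; ring
  have t3 : (Fintype.card I : ℝ) / N * T.cost ≤ 2 * A * w := by
    calc (Fintype.card I : ℝ) / N * T.cost ≤ (2 * ((Fintype.card I : ℝ) / t ^ 2)) * (A * t ^ 4) :=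
          mul_le_mul hdiv hT5 (by positivity) (by positivity)
      _ = 2 * A * w := by
          rw [hwd]
          field_simp
  have t4 : (N : ℝ) * Fintype.card I ≤ w := by
    rw [hwd, mul_comm]
    exact mul_le_mul_of_nonneg_left hN1 hn0
  have hsum : (R.card : ℝ) * ((Fintype.card I : ℝ) / N) ^ (1 - 1 / (k : ℝ)) +
      Fintype.card I * (T.arcs + 1) + (Fintype.card I : ℝ) / N * T.cost + (N : ℝ) * Fintype.card I ≤
      (2 + (A + 1) + 2 * A + 1) * w := by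
    calc _ ≤ 2 * w + (A + 1) * w + 2 * A * w + w := add_le_add (add_le_add (add_le_add t1 t2) t3) t4
      _ = _ := by ring
  have hfin := hmain.trans (mul_le_mul_of_nonneg_left hsum hA1.le)
  have hcard : (D.filter fun d => d.1 ∈ R ∧ ∀ c, d.1 ∈ T.Reg c →
      ¬ VanAt (S d.2) (ψ d.2) (T.h (T.β c)) (s d)).card ≤ ((D.filter fun d => d.1 ∈ R).filter fun d =>
      ∀ c, d.1 ∈ T.Reg c → ¬ VanAt (S d.2) (ψ d.2) (T.h (T.β c)) (s d)).card := by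
    refine Finset.card_le_card fun d hd => ?_
    rw [Finset.mem_filter] at hd
    rw [Finset.mem_filter, Finset.mem_filter]
    exact ⟨⟨hd.1, hd.2.1⟩, hd.2.2⟩
  have hcard' : ((D.filter fun d => d.1 ∈ R ∧ ∀ c, d.1 ∈ T.Reg c →
      ¬ VanAt (S d.2) (ψ d.2) (T.h (T.β c)) (s d)).card : ℝ) ≤ (((D.filter fun d => d.1 ∈ R).filter fun d =>
      ∀ c, d.1 ∈ T.Reg c → ¬ VanAt (S d.2) (ψ d.2) (T.h (T.β c)) (s d)).card : ℝ) := by
    exact_mod_cast hcard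
  refine hcard'.trans (hfin.trans (le_of_eq ?_))
  rw [hwd]
  ring

end D4Q
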