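import Mathlib

/-!
# D4Q-FrameN: the exponents

`t = (m ^ k / n) ^ (1 / (2 (2k-1)))`, so `t ^ (2 (2k-1)) = m ^ k / n`.
-/

namespace D4Q

private theorem FN_pw {k : ℕ} (hk : 2 ≤ k) {a b : ℝ} (ha : 0 ≤ a) (hb : 0 ≤ b) :
    (a ^ (1 - 1 / (k : ℝ)) * b ^ (1 / (k : ℝ))) ^ k = a ^ (k - 1) * b := by
  have hk0 : (k : ℝ) ≠ 0 := by
    have : 0 < k := by omega
    exact_mod_cast this.ne'
  rw [mul_pow, ← Real.rpow_natCast, ← Real.rpow_mul ha, ← Real.rpow_natCast (b ^ (1 / (k : ℝ))), ← Real.rpow_mul hb]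
  have e1 : (1 - 1 / (k : ℝ)) * k = ((k - 1 : ℕ) : ℝ) := by
    rw [Nat.cast_sub (by omega)]
    field_simp
    simp
  have e2 : 1 / (k : ℝ) * k = 1 := by field_simp
  rw [e1, e2, Real.rpow_natCast, Real.rpow_one]

theorem fr_num (k : ℕ) (hk : 2 ≤ k) (m n : ℕ) (hm : 0 < m) (hn : 0 < n) (h1 : 64 * m ≤ n ^ 2)
    (h2 : 2 ^ (2 * k - 1) * n ≤ m ^ k) : ∃ t : ℝ, 1 ≤ t ∧ 2 ≤ t ^ 2 ∧ t ^ 4 ≤ m ∧ 8 * t ^ 2 ≤ n ∧
      (n : ℝ) * t ^ 2 = (m : ℝ) ^ ((k : ℝ) / (2 * k - 1)) * (n : ℝ) ^ ((2 * k - 2 : ℝ) / (2 * k - 1)) ∧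
      ((n : ℝ) * t ^ 2) ^ (1 - 1 / (k : ℝ)) * ((m : ℝ) * ((m : ℝ) / t ^ 4) ^ (k - 1)) ^ (1 / (k : ℝ)) =
        n * t ^ 2 ∧
      (m : ℝ) * ((n : ℝ) / t ^ 2) ^ (1 - 1 / (k : ℝ)) = n * t ^ 2 := by
  have hmR : (0 : ℝ) < m := by exact_mod_cast hm
  have hnR : (0 : ℝ) < n := by exact_mod_cast hn
  have hk2 : (2 : ℝ) ≤ k := by exact_mod_cast hk
  have hkR : (0 : ℝ) < 2 * k - 1 := by linarith
  have hN0 : 2 * k - 1 ≠ 0 := by omega
  have hcast : ((2 * k - 1 : ℕ) : ℝ) = 2 * k - 1 := by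
    rw [Nat.cast_sub (by omega)]
    push_cast
    ring
  obtain ⟨x, hx⟩ : ∃ x : ℝ, x = (m : ℝ) ^ k / n := ⟨_, rfl⟩
  have hx0 : 0 < x := by rw [hx]; positivity
  obtain ⟨y, hy⟩ : ∃ y : ℝ, y = x ^ (1 / (2 * k - 1 : ℝ)) := ⟨_, rfl⟩
  have hy0 : 0 < y := by rw [hy]; positivity
  have hyx : y ^ (2 * k - 1) = x := by
    rw [hy, ← Real.rpow_natCast, ← Real.rpow_mul hx0.le, hcast, one_div, inv_mul_cancel₀ hkR.ne', Real.rpow_one]
  have hmk : (m : ℝ) ^ k = n * y ^ (2 * k - 1) := by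
    rw [hyx, hx]
    field_simp
  have h1R : 64 * (m : ℝ) ≤ (n : ℝ) ^ 2 := by exact_mod_cast h1
  have h2R : (2 : ℝ) ^ (2 * k - 1) * n ≤ (m : ℝ) ^ k := by exact_mod_cast h2
  have hy2 : 2 ≤ y := by
    refine le_of_pow_le_pow_left₀ hN0 hy0.le ?_
    rw [hyx, hx, le_div_iff₀ hnR]
    exact h2R
  have hym : y ^ 2 ≤ m := by
    refine le_of_pow_le_pow_left₀ hN0 hmR.le ?_
    have e1 : (y ^ 2) ^ (2 * k - 1) = ((m : ℝ) ^ k / n) ^ 2 := by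
      rw [← pow_mul, mul_comm, pow_mul, hyx, hx]
    rw [e1, div_pow, div_le_iff₀ (by positivity), ← pow_mul]
    have e2 : (m : ℝ) ^ (k * 2) = (m : ℝ) ^ (2 * k - 1) * m := by
      rw [← pow_succ]
      congr 1
      omega
    rw [e2]
    exact mul_le_mul_of_nonneg_left (by linarith) (by positivity)
  have hyn : 8 * y ≤ n := by
    refine le_of_pow_le_pow_left₀ hN0 hnR.le ?_
    rw [mul_pow, hyx, hx, ← mul_div_assoc, div_le_iff₀ hnR, ← pow_succ]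
    have e1 : 2 * k - 1 + 1 = 2 * k := by omega
    rw [e1, pow_mul (n : ℝ)]
    calc (8 : ℝ) ^ (2 * k - 1) * (m : ℝ) ^ k ≤ (8 : ℝ) ^ (2 * k) * (m : ℝ) ^ k :=
          mul_le_mul_of_nonneg_right (pow_le_pow_right₀ (by norm_num) (by omega)) (by positivity)
      _ = (64 * (m : ℝ)) ^ k := by
          rw [pow_mul, ← mul_pow]
          norm_num
      _ ≤ ((n : ℝ) ^ 2) ^ k := pow_le_pow_left₀ (by positivity) h1R k
  have hye : (n : ℝ) * y = (m : ℝ) ^ ((k : ℝ) / (2 * k - 1)) * (n : ℝ) ^ ((2 * k - 2 : ℝ) / (2 * k - 1)) := by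
    rw [hy, hx, Real.div_rpow (by positivity) hnR.le, ← Real.rpow_natCast, ← Real.rpow_mul hmR.le]
    have e1 : (k : ℝ) * (1 / (2 * k - 1)) = k / (2 * k - 1) := by ring
    have e2 : (n : ℝ) ^ ((2 * k - 2 : ℝ) / (2 * k - 1)) * (n : ℝ) ^ (1 / (2 * k - 1 : ℝ)) = n := by
      rw [← Real.rpow_add hnR]
      have : (2 * k - 2 : ℝ) / (2 * k - 1) + 1 / (2 * k - 1) = 1 := by
        field_simp
        ring
      rw [this, Real.rpow_one]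
    rw [e1]
    have hp : (n : ℝ) ^ (1 / (2 * k - 1 : ℝ)) ≠ 0 := (Real.rpow_pos_of_pos hnR _).ne'
    have key : ∀ M P N : ℝ, P ≠ 0 → N * P = n → (n : ℝ) * (M / P) = M * N := by
      intro M P N hP hNP
      rw [← hNP]
      field_simp
    exact key _ _ _ hp e2
  have hk0 : k ≠ 0 := by omega
  have e3 : y ^ (2 * k - 1) = y ^ k * y ^ (k - 1) := by
    rw [← pow_add]
    congr 1
    omega
  have e4 : (n : ℝ) ^ k = n ^ (k - 1) * n := by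
    rw [← pow_succ]
    congr 1
    omega
  have hyf : ((n : ℝ) * y) ^ (1 - 1 / (k : ℝ)) * ((m : ℝ) * ((m : ℝ) / y ^ 2) ^ (k - 1)) ^ (1 / (k : ℝ)) = n * y := by
    refine (pow_left_inj₀ (by positivity) (by positivity) hk0).1 ?_
    rw [FN_pw hk (by positivity) (by positivity), div_pow, mul_pow, mul_pow]
    have e5 : (m : ℝ) * ((m : ℝ) ^ (k - 1) / (y ^ 2) ^ (k - 1)) = n * (y ^ k * y ^ (k - 1)) / (y ^ 2) ^ (k - 1) := by
      rw [← mul_div_assoc, ← pow_succ', Nat.sub_add_cancel (by omega), hmk, e3]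
    rw [e5, e4]
    have e6 : (y ^ 2) ^ (k - 1) = y ^ (k - 1) * y ^ (k - 1) := by
      rw [← pow_mul, two_mul, pow_add]
    rw [e6]
    field_simp
  have hyg : (m : ℝ) * ((n : ℝ) / y) ^ (1 - 1 / (k : ℝ)) = n * y := by
    refine (pow_left_inj₀ (by positivity) (by positivity) hk0).1 ?_
    have e5 := FN_pw hk (a := (n : ℝ) / y) (b := 1) (by positivity) (by norm_num)
    rw [Real.one_rpow, mul_one, mul_one] at e5
    rw [mul_pow, e5, hmk, e3, mul_pow, div_pow, e4]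
    field_simp
  have ht2 : Real.sqrt y ^ 2 = y := Real.sq_sqrt hy0.le
  have ht4 : Real.sqrt y ^ 4 = y ^ 2 := by
    rw [show (4 : ℕ) = 2 * 2 from rfl, pow_mul, ht2]
  refine ⟨Real.sqrt y, Real.one_le_sqrt.2 (by linarith), ?_, ?_, ?_, ?_, ?_, ?_⟩
  · rw [ht2]; exact hy2
  · rw [ht4]; exact hym
  · rw [ht2]; exact hyn
  · rw [ht2]; exact hye
  · rw [ht2, ht4]; exact hyf
  · rw [ht2]; exact hyg

end D4Q
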