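import Mathlib
import Pool.Agent.D4Q.Defs

/-!
# D4Q-MdD: dimensions of spaces of polynomials in four variables

The space of polynomials of degree `≤ t` in four variables has dimension `(t+4 choose 4)`; the multiples of `h ≠ 0` of degree `≤ t` have
dimension `dD (t - deg h)`. First and second differences of `dD`.
-/

namespace D4Q

open MvPolynomial

/-- The dimension of the space of polynomials of degree `≤ t` in four variables, `0` for
negative `t`. -/
def dD (t : ℤ) : ℕ := if t < 0 then 0 else (t.toNat + 4).choose 4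

/-- first difference -/
private def dC (t : ℤ) : ℕ := if t < 0 then 0 else (t.toNat + 3).choose 3

/-- second difference -/
private def dB (t : ℤ) : ℕ := if t < 0 then 0 else (t.toNat + 2).choose 2

private theorem dD_nat (t : ℕ) : dD t = (t + 4).choose 4 := by
  unfold dD
  rw [if_neg (by omega), Int.toNat_natCast]

private theorem dC_nat (t : ℕ) : dC t = (t + 3).choose 3 := by
  unfold dC
  rw [if_neg (by omega), Int.toNat_natCast]

private theorem dB_nat (t : ℕ) : dB t = (t + 2).choose 2 := by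
  unfold dB
  rw [if_neg (by omega), Int.toNat_natCast]

private theorem dD_neg {x : ℤ} (h : x < 0) : dD x = 0 := if_pos h

private theorem dC_neg {x : ℤ} (h : x < 0) : dC x = 0 := if_pos h

private theorem dB_neg {x : ℤ} (h : x < 0) : dB x = 0 := if_pos h

private theorem dD_step (x : ℤ) : dD x = dD (x - 1) + dC x := by
  rcases lt_or_ge x 0 with h | h
  · rw [dD_neg h, dD_neg (by omega), dC_neg h]
  · obtain ⟨n, rfl⟩ := Int.eq_ofNat_of_zero_le h
    rw [dD_nat, dC_nat]
    rcases n with _ | n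
    · rw [dD_neg (by norm_num)]
      decide
    · have e : ((n + 1 : ℕ) : ℤ) - 1 = (n : ℤ) := by push_cast; ring
      rw [e, dD_nat, show n + 1 + 4 = (n + 4) + 1 by ring, Nat.choose_succ_succ,
        show n + 1 + 3 = n + 4 by ring]
      ring

private theorem dC_step (x : ℤ) : dC x = dC (x - 1) + dB x := by
  rcases lt_or_ge x 0 with h | h
  · rw [dC_neg h, dC_neg (by omega), dB_neg h]
  · obtain ⟨n, rfl⟩ := Int.eq_ofNat_of_zero_le h
    rw [dC_nat, dB_nat]
    rcases n with _ | n
    · rw [dC_neg (by norm_num)]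
      decide
    · have e : ((n + 1 : ℕ) : ℤ) - 1 = (n : ℤ) := by push_cast; ring
      rw [e, dC_nat, show n + 1 + 3 = (n + 3) + 1 by ring, Nat.choose_succ_succ,
        show n + 1 + 2 = n + 3 by ring]
      ring

private theorem dC_le {x : ℤ} {T : ℕ} (h : x ≤ T) : dC x ≤ (T + 3).choose 3 := by
  rcases lt_or_ge x 0 with h0 | h0
  · rw [dC_neg h0]
    exact Nat.zero_le _
  · obtain ⟨n, rfl⟩ := Int.eq_ofNat_of_zero_le h0
    rw [dC_nat]
    exact Nat.choose_le_choose 3 (by omega)

private theorem dB_le {x : ℤ} {T : ℕ} (h : x ≤ T) : dB x ≤ (T + 2).choose 2 := by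
  rcases lt_or_ge x 0 with h0 | h0
  · rw [dB_neg h0]
    exact Nat.zero_le _
  · obtain ⟨n, rfl⟩ := Int.eq_ofNat_of_zero_le h0
    rw [dB_nat]
    exact Nat.choose_le_choose 2 (by omega)

private theorem MdD_sum (t : ℕ) : ∑ k ∈ Finset.range (t + 1), (k + 3).choose 3 = (t + 4).choose 4 := by
  induction t with
  | zero => decide
  | succ t ih =>
    have h : (t + 4 + 1).choose 4 = (t + 4).choose 3 + (t + 4).choose 4 := Nat.choose_succ_succ (t + 4) 3
    have e1 : t + 1 + 4 = t + 4 + 1 := by ring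
    have e2 : t + 1 + 3 = t + 4 := by ring
    rw [Finset.sum_range_succ, ih, e1, e2, h]
    ring

private theorem MdD_card (t : ℕ) :
    Nat.card {n : Fin 4 →₀ ℕ | (n.sum fun _ e => e) ≤ t} = (t + 4).choose 4 := by
  classical
  have h1 : {n : Fin 4 →₀ ℕ | (n.sum fun _ e => e) ≤ t} =
      ((Finset.range (t + 1)).biUnion fun k => Finset.finsuppAntidiag (Finset.univ : Finset (Fin 4)) k :
        Finset (Fin 4 →₀ ℕ)) := by
    ext n
    simp only [Set.mem_ofPred_eq, Finset.coe_biUnion, Set.mem_iUnion, Finset.mem_coe,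
      Finset.mem_finsuppAntidiag', Finset.mem_range]
    constructor
    · intro h
      exact ⟨_, Nat.lt_succ_of_le h, rfl, Finset.subset_univ _⟩
    · rintro ⟨k, hk, h, -⟩
      have h' : (n.sum fun _ e => e) = k := h
      rw [h']
      exact Nat.le_of_lt_succ hk
  rw [h1, Nat.card_coe_set_eq, Set.ncard_coe_finset, Finset.card_biUnion]
  · rw [← MdD_sum]
    refine Finset.sum_congr rfl fun k _ => ?_
    rw [Finset.card_finsuppAntidiag_nat_eq_choose, Finset.card_univ, Fintype.card_fin]
    have e : 4 + k - 1 = k + 3 := by omega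
    rw [e]
    exact Nat.choose_symm_add
  · intro i _ j _ hij
    show Disjoint (Finset.finsuppAntidiag (Finset.univ : Finset (Fin 4)) i) (Finset.finsuppAntidiag Finset.univ j)
    rw [Finset.disjoint_left]
    intro n hi hj
    rw [Finset.mem_finsuppAntidiag] at hi hj
    exact hij (hi.1.symm.trans hj.1)

theorem finrank_V (t : ℕ) :
    Module.finrank ℝ (restrictTotalDegree (Fin 4) ℝ t) = dD t := by
  rw [dD_nat, ← MdD_card]
  exact Module.finrank_eq_nat_card_basis (MvPolynomial.basisRestrictSupport ℝ _)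

/-- The multiples of `h` of degree `≤ t`. -/
noncomputable def mulV (h : MvPolynomial (Fin 4) ℝ) (t : ℕ) :
    Submodule ℝ (MvPolynomial (Fin 4) ℝ) :=
  restrictTotalDegree (Fin 4) ℝ t ⊓ (Ideal.span {h}).restrictScalars ℝ

theorem finrank_mulV (h : MvPolynomial (Fin 4) ℝ) (hh : h ≠ 0) (t : ℕ) :
    Module.finrank ℝ (mulV h t) = dD ((t : ℤ) - h.totalDegree) := by
  rcases Nat.lt_or_ge t h.totalDegree with hlt | hge
  · have h1 : mulV h t = ⊥ := by
      rw [eq_bot_iff]
      intro p hp
      obtain ⟨hp1, hp2⟩ := hp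
      have hp1' : p.totalDegree ≤ t := (mem_restrictTotalDegree (Fin 4) t p).1 hp1
      have hp2' : p ∈ Ideal.span {h} := hp2
      rw [Ideal.mem_span_singleton] at hp2'
      obtain ⟨q, rfl⟩ := hp2'
      rw [Submodule.mem_bot]
      by_contra hne
      have hq : q ≠ 0 := fun hq => hne (by rw [hq, mul_zero])
      rw [totalDegree_mul_of_isDomain hh hq] at hp1'
      omega
    rw [h1, finrank_bot, dD_neg (by omega)]
  · obtain ⟨u, hu⟩ := Nat.exists_eq_add_of_le' hge
    have hinj : Function.Injective (LinearMap.mulLeft ℝ h) := by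
      intro a b hab
      exact mul_left_cancel₀ hh hab
    have h1 : mulV h t = (restrictTotalDegree (Fin 4) ℝ u).map (LinearMap.mulLeft ℝ h) := by
      ext p
      rw [Submodule.mem_map]
      constructor
      · rintro ⟨hp1, hp2⟩
        have hp1' : p.totalDegree ≤ t := (mem_restrictTotalDegree (Fin 4) t p).1 hp1
        have hp2' : p ∈ Ideal.span {h} := hp2
        rw [Ideal.mem_span_singleton] at hp2'
        obtain ⟨q, rfl⟩ := hp2'
        refine ⟨q, ?_, rfl⟩
        rw [mem_restrictTotalDegree]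
        by_cases hq : q = 0
        · rw [hq, totalDegree_zero]
          exact Nat.zero_le _
        · rw [totalDegree_mul_of_isDomain hh hq] at hp1'
          omega
      · rintro ⟨q, hq, rfl⟩
        rw [mem_restrictTotalDegree] at hq
        refine ⟨?_, ?_⟩
        · have h2 : (h * q).totalDegree ≤ t := (totalDegree_mul h q).trans (by omega)
          exact (mem_restrictTotalDegree (Fin 4) t (h * q)).2 h2
        · exact Ideal.mul_mem_right q _ (Ideal.mem_span_singleton_self h)
    have h2 : Module.finrank ℝ (restrictTotalDegree (Fin 4) ℝ u) =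
        Module.finrank ℝ ((restrictTotalDegree (Fin 4) ℝ u).map (LinearMap.mulLeft ℝ h)) :=
      (Submodule.equivMapOfInjective _ hinj _).finrank_eq
    have e : (t : ℤ) - h.totalDegree = (u : ℤ) := by omega
    rw [h1, ← h2, finrank_V, e]

private theorem dC_first (T : ℕ) (x : ℤ) (h : x ≤ T) (ε : ℕ) :
    dC x ≤ dC (x - ε) + ε * (T + 2).choose 2 := by
  induction ε with
  | zero => simp
  | succ ε ih =>
    have h1 := dC_step (x - ε)
    have h2 : dB (x - ε) ≤ (T + 2).choose 2 := dB_le (by omega)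
    have e : x - ((ε + 1 : ℕ) : ℤ) = x - ε - 1 := by push_cast; ring
    rw [e, add_mul, one_mul]
    omega

theorem dd_first (T δ : ℕ) : dD T ≤ dD ((T : ℤ) - δ) + δ * (T + 3).choose 3 := by
  induction δ with
  | zero => simp
  | succ δ ih =>
    have h1 := dD_step ((T : ℤ) - δ)
    have h2 : dC ((T : ℤ) - δ) ≤ (T + 3).choose 3 := dC_le (by omega)
    have e : (T : ℤ) - ((δ + 1 : ℕ) : ℤ) = T - δ - 1 := by push_cast; ring
    rw [e, add_mul, one_mul]
    omega

theorem dd_second (T δ ε : ℕ) : dD T + dD ((T : ℤ) - δ - ε) ≤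
    dD ((T : ℤ) - δ) + dD ((T : ℤ) - ε) + δ * ε * (T + 2).choose 2 := by
  induction δ with
  | zero => simp
  | succ δ ih =>
    have h1 := dD_step ((T : ℤ) - δ)
    have h2 := dD_step ((T : ℤ) - δ - ε)
    have h3 := dC_first T ((T : ℤ) - δ) (by omega) ε
    have e : (T : ℤ) - ((δ + 1 : ℕ) : ℤ) = T - δ - 1 := by push_cast; ring
    have e2 : (T : ℤ) - δ - 1 - ε = T - δ - ε - 1 := by ring
    have e3 : (δ + 1) * ε * (T + 2).choose 2 = δ * ε * (T + 2).choose 2 + ε * (T + 2).choose 2 := by ring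
    rw [e, e2, e3]
    omega

private theorem ch4 (t : ℕ) : 24 * (t + 4).choose 4 = (t + 1) * (t + 2) * (t + 3) * (t + 4) := by
  have h := Nat.descFactorial_eq_factorial_mul_choose (t + 4) 4
  have h1 : (t + 4).descFactorial 4 = (t + 1) * (t + 2) * (t + 3) * (t + 4) := by
    simp only [Nat.descFactorial_succ, Nat.descFactorial_zero]
    have e1 : t + 4 - 3 = t + 1 := by omega
    have e2 : t + 4 - 2 = t + 2 := by omega
    have e3 : t + 4 - 1 = t + 3 := by omega
    rw [e1, e2, e3]
    simp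
    ring
  rw [← h1, h]
  rfl

theorem dd_lower : ∃ c0 : ℕ, 0 < c0 ∧ ∀ (t δ : ℕ), 1 ≤ δ →
    min ((t + 1) ^ 4) (δ * (t + 1) ^ 3) + c0 * dD ((t : ℤ) - δ) ≤ c0 * dD t := by
  refine ⟨24, by norm_num, fun t δ hδ => ?_⟩
  rcases Nat.lt_or_ge t δ with h | h
  · rw [dD_neg (by omega), mul_zero, add_zero, dD_nat, ch4]
    refine (min_le_left _ _).trans ?_
    calc (t + 1) ^ 4 = (t + 1) * (t + 1) * (t + 1) * (t + 1) := by ring
      _ ≤ (t + 1) * (t + 2) * (t + 3) * (t + 4) := by gcongr <;> omega
  · obtain ⟨u, rfl⟩ := Nat.exists_eq_add_of_le' h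
    have e : ((u + δ : ℕ) : ℤ) - δ = (u : ℤ) := by push_cast; ring
    rw [e, dD_nat, dD_nat, ch4, ch4]
    refine (Nat.add_le_add_right (min_le_right _ _) _).trans ?_
    calc δ * (u + δ + 1) ^ 3 + (u + 1) * (u + 2) * (u + 3) * (u + 4)
        = δ * ((u + δ + 1) * (u + δ + 1) * (u + δ + 1)) + (u + 1) * ((u + 2) * (u + 3) * (u + 4)) := by ring
      _ ≤ δ * ((u + δ + 2) * (u + δ + 3) * (u + δ + 4)) + (u + 1) * ((u + δ + 2) * (u + δ + 3) * (u + δ + 4)) := by
          gcongr <;> omega
      _ = (u + δ + 1) * (u + δ + 2) * (u + δ + 3) * (u + δ + 4) := by ring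

end D4Q
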