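import Mathlib
import Pool.Agent.D4Q.Defs

/-!
# D4Q-PtV: one partition step, general position

For a choice `r` of one point in each large cell let `F r ≠ 0` be orthogonal to the vectors of these points. The Radon
relation between the vectors of the points of the other cells and of three points of the cell `i` shows that for three
points `α, β, γ` of the cell `i` it is impossible that for each of them (as the point of `r` in the cell `i`) the two
others are on the same side (`PtV_radon`). So for at most two thirds of the triples `(r i, p, q)` of different points the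
points `p, q` are on the same side (`PtV_comb`); average over all `r` (`PtV_dc`).
-/

namespace D4Q

open MvPolynomial

private theorem PtV_off {P : Type} [DecidableEq P] (A : Finset P) :
    A.card.descFactorial 2 = A.offDiag.card := by
  rw [Finset.offDiag_card]
  simp only [Nat.descFactorial, Nat.sub_zero, mul_one]
  rw [Nat.sub_mul, one_mul]

private theorem PtV_pair {P : Type} [DecidableEq P] (C : Finset P) (S T : P → Prop)
    [DecidablePred S] [DecidablePred T] (hST : ∀ p, S p → ¬ T p) :
    (C.filter S).card.descFactorial 2 + (C.filter T).card.descFactorial 2 ≤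
      ∑ p ∈ C, ∑ q ∈ C, if p ≠ q ∧ ((S p ∧ S q) ∨ (T p ∧ T q)) then 1 else 0 := by
  have hd : Disjoint (C.filter S).offDiag (C.filter T).offDiag := by
    rw [Finset.disjoint_left]
    intro x hx hx'
    simp only [Finset.mem_offDiag, Finset.mem_filter] at hx hx'
    exact hST x.1 hx.1.2 hx'.1.2
  rw [PtV_off, PtV_off, ← Finset.card_union_of_disjoint hd,
    ← Finset.sum_product' C C (fun p q => if p ≠ q ∧ ((S p ∧ S q) ∨ (T p ∧ T q)) then 1 else 0),
    ← Finset.card_filter]
  apply Finset.card_le_card
  intro x hx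
  simp only [Finset.mem_union, Finset.mem_offDiag, Finset.mem_filter, Finset.mem_product] at hx ⊢
  tauto

private theorem PtV_triple {P : Type} [DecidableEq P] (C : Finset P) (b : P → P → P → ℕ)
    (hb : ∀ α ∈ C, ∀ β ∈ C, ∀ γ ∈ C, b α β γ + b β γ α + b γ α β ≤
      2 * if α ≠ β ∧ α ≠ γ ∧ β ≠ γ then 1 else 0) :
    3 * ∑ α ∈ C, ∑ p ∈ C, ∑ q ∈ C, b α p q ≤ 2 * (C.card * (C.card - 1).descFactorial 2) := by
  have h1 : ∑ α ∈ C, ∑ p ∈ C, ∑ q ∈ C, b p q α = ∑ α ∈ C, ∑ p ∈ C, ∑ q ∈ C, b α p q := by
    rw [Finset.sum_comm]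
    refine Finset.sum_congr rfl fun p _ => ?_
    rw [Finset.sum_comm]
  have h2 : ∑ α ∈ C, ∑ p ∈ C, ∑ q ∈ C, b q α p = ∑ α ∈ C, ∑ p ∈ C, ∑ q ∈ C, b α p q := by
    have h : ∀ α ∈ C, ∑ p ∈ C, ∑ q ∈ C, b q α p = ∑ q ∈ C, ∑ p ∈ C, b q α p := fun α _ =>
      Finset.sum_comm
    rw [Finset.sum_congr rfl h, Finset.sum_comm]
  have h3 : ∀ α ∈ C, ∑ p ∈ C, ∑ q ∈ C, (if α ≠ p ∧ α ≠ q ∧ p ≠ q then 1 else 0) =
      (C.card - 1).descFactorial 2 := by
    intro α hα
    rw [← Finset.card_erase_of_mem hα, PtV_off,
      ← Finset.sum_product' C C (fun p q => if α ≠ p ∧ α ≠ q ∧ p ≠ q then 1 else 0),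
      ← Finset.card_filter]
    congr 1
    ext x
    simp only [Finset.mem_offDiag, Finset.mem_filter, Finset.mem_product, Finset.mem_erase]
    constructor
    · rintro ⟨⟨h1, h2⟩, h3, h4, h5⟩
      exact ⟨⟨Ne.symm h3, h1⟩, ⟨Ne.symm h4, h2⟩, h5⟩
    · rintro ⟨⟨h1, h2⟩, ⟨h3, h4⟩, h5⟩
      exact ⟨⟨h2, h4⟩, Ne.symm h1, Ne.symm h3, h5⟩
  calc 3 * ∑ α ∈ C, ∑ p ∈ C, ∑ q ∈ C, b α p q
      = ∑ α ∈ C, ∑ p ∈ C, ∑ q ∈ C, (b α p q + b p q α + b q α p) := by
        simp only [Finset.sum_add_distrib]
        rw [h1, h2]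
        ring
    _ ≤ ∑ α ∈ C, ∑ p ∈ C, ∑ q ∈ C, 2 * (if α ≠ p ∧ α ≠ q ∧ p ≠ q then 1 else 0) :=
        Finset.sum_le_sum fun α hα => Finset.sum_le_sum fun p hp => Finset.sum_le_sum fun q hq =>
          hb α hα p hp q hq
    _ = 2 * ∑ α ∈ C, ∑ p ∈ C, ∑ q ∈ C, (if α ≠ p ∧ α ≠ q ∧ p ≠ q then 1 else 0) := by
        simp only [Finset.mul_sum]
    _ = 2 * (C.card * (C.card - 1).descFactorial 2) := by
        rw [Finset.sum_congr rfl h3, Finset.sum_const, smul_eq_mul]

private theorem PtV_comb {P : Type} [DecidableEq P] (k : ℕ) (hk : 2 ≤ k) (C : Finset P)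
    (S T : P → P → Prop) [∀ α, DecidablePred (S α)] [∀ α, DecidablePred (T α)]
    (hS : ∀ α, ¬ S α α) (hT : ∀ α, ¬ T α α) (hST : ∀ α p, S α p → ¬ T α p)
    (h : ∀ α ∈ C, ∀ β ∈ C, ∀ γ ∈ C, α ≠ β → ((S α β ∧ S α γ) ∨ (T α β ∧ T α γ)) →
      ((S β γ ∧ S β α) ∨ (T β γ ∧ T β α)) → ((S γ α ∧ S γ β) ∨ (T γ α ∧ T γ β)) → False) :
    3 * ∑ α ∈ C, ((C.filter (S α)).card.descFactorial k + (C.filter (T α)).card.descFactorial k) ≤
      2 * (C.card * C.card.descFactorial k) := by
  have hdf : ∀ n : ℕ, n.descFactorial k = (n - 2).descFactorial (k - 2) * n.descFactorial 2 :=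
    fun n => (Nat.descFactorial_mul_descFactorial hk).symm
  have hle : ∀ (α : P) (R : P → Prop) [DecidablePred R], α ∈ C → ¬ R α →
      (C.filter R).card.descFactorial k ≤
        (C.card - 1 - 2).descFactorial (k - 2) * (C.filter R).card.descFactorial 2 := by
    intro α R _ hα hR
    rw [hdf]
    apply Nat.mul_le_mul_right
    apply Nat.descFactorial_le
    have h1 : (C.filter R).card ≤ C.card - 1 := by
      rw [← Finset.card_erase_of_mem hα]
      apply Finset.card_le_card
      intro x hx
      rw [Finset.mem_filter] at hx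
      rw [Finset.mem_erase]
      refine ⟨?_, hx.1⟩
      rintro rfl
      exact hR hx.2
    omega
  have h1 : ∀ α ∈ C, (C.filter (S α)).card.descFactorial k + (C.filter (T α)).card.descFactorial k ≤
      (C.card - 1 - 2).descFactorial (k - 2) *
        ∑ p ∈ C, ∑ q ∈ C, if p ≠ q ∧ ((S α p ∧ S α q) ∨ (T α p ∧ T α q)) then 1 else 0 := by
    intro α hα
    calc (C.filter (S α)).card.descFactorial k + (C.filter (T α)).card.descFactorial k
        ≤ (C.card - 1 - 2).descFactorial (k - 2) * (C.filter (S α)).card.descFactorial 2 +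
          (C.card - 1 - 2).descFactorial (k - 2) * (C.filter (T α)).card.descFactorial 2 :=
          Nat.add_le_add (hle α (S α) hα (hS α)) (hle α (T α) hα (hT α))
      _ = (C.card - 1 - 2).descFactorial (k - 2) *
          ((C.filter (S α)).card.descFactorial 2 + (C.filter (T α)).card.descFactorial 2) := by ring
      _ ≤ _ := Nat.mul_le_mul_left _ (PtV_pair C (S α) (T α) (hST α))
  have h2 := PtV_triple C
    (fun α p q => if p ≠ q ∧ ((S α p ∧ S α q) ∨ (T α p ∧ T α q)) then 1 else 0) (by
      intro α hα β hβ γ hγ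
      by_cases hd : α ≠ β ∧ α ≠ γ ∧ β ≠ γ
      · rw [if_pos hd]
        by_cases g1 : β ≠ γ ∧ ((S α β ∧ S α γ) ∨ (T α β ∧ T α γ))
        · by_cases g2 : γ ≠ α ∧ ((S β γ ∧ S β α) ∨ (T β γ ∧ T β α))
          · have g3 : ¬ (α ≠ β ∧ ((S γ α ∧ S γ β) ∨ (T γ α ∧ T γ β))) := fun g3 =>
              h α hα β hβ γ hγ hd.1 g1.2 g2.2 g3.2
            rw [if_neg g3]
            split_ifs
            omega
          · rw [if_neg g2]
            split_ifs <;> omega
        · rw [if_neg g1]
          split_ifs <;> omega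
      · have hS1 := hS α
        have hS2 := hS β
        have hS3 := hS γ
        have hT1 := hT α
        have hT2 := hT β
        have hT3 := hT γ
        have g1 : ¬ (β ≠ γ ∧ ((S α β ∧ S α γ) ∨ (T α β ∧ T α γ))) := by
          rintro ⟨e1, e2⟩
          apply hd
          refine ⟨?_, ?_, e1⟩
          · rintro rfl
            tauto
          · rintro rfl
            tauto
        have g2 : ¬ (γ ≠ α ∧ ((S β γ ∧ S β α) ∨ (T β γ ∧ T β α))) := by
          rintro ⟨e1, e2⟩
          apply hd
          refine ⟨?_, Ne.symm e1, ?_⟩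
          · rintro rfl
            tauto
          · rintro rfl
            tauto
        have g3 : ¬ (α ≠ β ∧ ((S γ α ∧ S γ β) ∨ (T γ α ∧ T γ β))) := by
          rintro ⟨e1, e2⟩
          apply hd
          refine ⟨e1, ?_, ?_⟩
          · rintro rfl
            tauto
          · rintro rfl
            tauto
        rw [if_neg g1, if_neg g2, if_neg g3]
        omega)
  calc 3 * ∑ α ∈ C, ((C.filter (S α)).card.descFactorial k + (C.filter (T α)).card.descFactorial k)
      ≤ 3 * ∑ α ∈ C, (C.card - 1 - 2).descFactorial (k - 2) *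
        ∑ p ∈ C, ∑ q ∈ C, (if p ≠ q ∧ ((S α p ∧ S α q) ∨ (T α p ∧ T α q)) then 1 else 0) :=
        Nat.mul_le_mul_left _ (Finset.sum_le_sum h1)
    _ = (C.card - 1 - 2).descFactorial (k - 2) * (3 * ∑ α ∈ C,
        ∑ p ∈ C, ∑ q ∈ C, (if p ≠ q ∧ ((S α p ∧ S α q) ∨ (T α p ∧ T α q)) then 1 else 0)) := by
        rw [← Finset.mul_sum]
        ring
    _ ≤ (C.card - 1 - 2).descFactorial (k - 2) * (2 * (C.card * (C.card - 1).descFactorial 2)) :=
        Nat.mul_le_mul_left _ h2
    _ = 2 * (C.card * ((C.card - 1 - 2).descFactorial (k - 2) * (C.card - 1).descFactorial 2)) := by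
        ring
    _ = 2 * (C.card * (C.card - 1).descFactorial k) := by rw [← hdf]
    _ ≤ 2 * (C.card * C.card.descFactorial k) :=
        Nat.mul_le_mul_left _ (Nat.mul_le_mul_left _ (Nat.descFactorial_le _ (Nat.sub_le _ _)))

private theorem PtV_ker {M : ℕ} (v : Fin M → Fin (M + 1) → ℝ) :
    ∃ f : Fin (M + 1) → ℝ, f ≠ 0 ∧ ∀ i, ∑ a, f a * v i a = 0 := by
  have h : LinearMap.ker (Matrix.mulVecLin (Matrix.of v)) ≠ ⊥ :=
    LinearMap.ker_ne_bot_of_finrank_lt (by simp)
  obtain ⟨f, hf, hf0⟩ := (Submodule.ne_bot_iff _).1 h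
  refine ⟨f, hf0, fun i => ?_⟩
  have h1 := congrFun (LinearMap.mem_ker.1 hf) i
  have h2 : ∑ a, v i a * f a = 0 := h1
  rw [← h2]
  exact Finset.sum_congr rfl fun a _ => mul_comm _ _

private theorem PtV_sign {x y s t : ℝ} (h : (0 < x ∧ 0 < y) ∨ (x < 0 ∧ y < 0))
    (he : s * x + t * y = 0) : (s = 0 ∧ t = 0) ∨ s * t < 0 := by
  rcases lt_trichotomy s 0 with hs | hs | hs
  · right
    have ht : 0 < t := by
      rcases h with ⟨hx, hy⟩ | ⟨hx, hy⟩
      · by_contra ht
        have h1 := mul_neg_of_neg_of_pos hs hx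
        have h2 := mul_nonpos_of_nonpos_of_nonneg (not_lt.1 ht) hy.le
        linarith
      · by_contra ht
        have h1 := mul_pos_of_neg_of_neg hs hx
        have h2 := mul_nonneg_of_nonpos_of_nonpos (not_lt.1 ht) hy.le
        linarith
    exact mul_neg_of_neg_of_pos hs ht
  · left
    refine ⟨hs, ?_⟩
    rw [hs, zero_mul, zero_add] at he
    rcases mul_eq_zero.1 he with h1 | h1
    · exact h1
    · rcases h with ⟨_, hy⟩ | ⟨_, hy⟩
      · exact absurd h1 hy.ne'
      · exact absurd h1 hy.ne
  · right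
    have ht : t < 0 := by
      rcases h with ⟨hx, hy⟩ | ⟨hx, hy⟩
      · by_contra ht
        have h1 := mul_pos hs hx
        have h2 := mul_nonneg (not_lt.1 ht) hy.le
        linarith
      · by_contra ht
        have h1 := mul_neg_of_pos_of_neg hs hx
        have h2 := mul_nonpos_of_nonneg_of_nonpos (not_lt.1 ht) hy.le
        linarith
    exact mul_neg_of_pos_of_neg hs ht

private theorem PtV_radon {M : ℕ} {P : Type} [DecidableEq P] (c : Fin M → Finset P)
    (hdis : ∀ i j, i ≠ j → Disjoint (c i) (c j)) (u : P → Fin (M + 1) → ℝ)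
    (hgen : ∀ T : Finset P, (∀ p ∈ T, ∃ i, p ∈ c i) → T.card = M + 1 →
      LinearIndependent ℝ (fun p : T => u p))
    (r : Fin M → P) (hr : ∀ j, j ∈ (Finset.univ : Finset (Fin M)) → r j ∈ c j) (i : Fin M) {β γ : P} (hβ : β ∈ c i)
    (h1 : r i ≠ β) (fa fb fg : Fin (M + 1) → ℝ) (ha : ∀ j, ∑ a, fa a * u (r j) a = 0)
    (hb : ∀ j, j ≠ i → ∑ a, fb a * u (r j) a = 0) (hb' : ∑ a, fb a * u β a = 0)
    (hg : ∀ j, j ≠ i → ∑ a, fg a * u (r j) a = 0) (hg' : ∑ a, fg a * u γ a = 0)
    (sa : (0 < ∑ a, fa a * u β a ∧ 0 < ∑ a, fa a * u γ a) ∨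
      (∑ a, fa a * u β a < 0 ∧ ∑ a, fa a * u γ a < 0))
    (sb : (0 < ∑ a, fb a * u γ a ∧ 0 < ∑ a, fb a * u (r i) a) ∨
      (∑ a, fb a * u γ a < 0 ∧ ∑ a, fb a * u (r i) a < 0))
    (sg : (0 < ∑ a, fg a * u (r i) a ∧ 0 < ∑ a, fg a * u β a) ∨
      (∑ a, fg a * u (r i) a < 0 ∧ ∑ a, fg a * u β a < 0)) : False := by
  have hinj : Function.Injective r := by
    intro j j' he
    by_contra hne
    have h2 := hr j (Finset.mem_univ _)
    rw [he] at h2
    exact (Finset.disjoint_left.1 (hdis j j' hne)) h2 (hr j' (Finset.mem_univ _))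
  have hβn : β ∉ Finset.univ.image r := by
    intro h2
    obtain ⟨j, -, hj⟩ := Finset.mem_image.1 h2
    by_cases hji : j = i
    · rw [hji] at hj
      exact h1 hj
    · have h3 := hr j (Finset.mem_univ _)
      rw [hj] at h3
      exact (Finset.disjoint_left.1 (hdis j i hji)) h3 hβ
  have hli : LinearIndependent ℝ (fun j : Fin M => u (r j)) := by
    have h2 := hgen (insert β (Finset.univ.image r)) (by
      intro p hp
      rcases Finset.mem_insert.1 hp with h | h
      · exact ⟨i, h ▸ hβ⟩
      · obtain ⟨j, -, hj⟩ := Finset.mem_image.1 h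
        exact ⟨j, hj ▸ hr j (Finset.mem_univ _)⟩) (by
      rw [Finset.card_insert_of_notMem hβn, Finset.card_image_of_injective _ hinj, Finset.card_univ,
        Fintype.card_fin])
    exact h2.comp (fun j => ⟨r j, Finset.mem_insert_of_mem (Finset.mem_image_of_mem r (Finset.mem_univ j))⟩)
      fun j j' he => hinj (Subtype.ext_iff.1 he)
  -- the relation
  have hdep : ¬ LinearIndependent ℝ (fun o : Option (Option (Fin M)) =>
      o.elim (u β) (fun o' => o'.elim (u γ) (fun j => u (r j)))) := by
    intro h2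
    have h3 := h2.fintype_card_le_finrank
    simp at h3
  obtain ⟨g, hg0, o, ho⟩ := Fintype.not_linearIndependent_iff.1 hdep
  rw [Fintype.sum_option, Fintype.sum_option] at hg0
  have hdot : ∀ f : Fin (M + 1) → ℝ, g none * (∑ a, f a * u β a) + (g (some none) * (∑ a, f a * u γ a) +
      ∑ j, g (some (some j)) * ∑ a, f a * u (r j) a) = 0 := by
    intro f
    have h2 : ∑ a, f a * (g none • u β + (g (some none) • u γ + ∑ j, g (some (some j)) • u (r j))) a = 0 := by
      refine Finset.sum_eq_zero fun a _ => ?_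
      have h3 : (g none • u β + (g (some none) • u γ + ∑ j, g (some (some j)) • u (r j))) a = 0 := congrFun hg0 a
      rw [h3, mul_zero]
    rw [← h2]
    simp only [Pi.add_apply, Pi.smul_apply, smul_eq_mul, Finset.sum_apply, mul_add, Finset.sum_add_distrib,
      Finset.mul_sum]
    rw [Finset.sum_comm]
    congr 1
    · exact Finset.sum_congr rfl fun a _ => by ring
    · congr 1
      · exact Finset.sum_congr rfl fun a _ => by ring
      · exact Finset.sum_congr rfl fun a _ => Finset.sum_congr rfl fun j _ => by ring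
  have e1 : g none * (∑ a, fa a * u β a) + g (some none) * (∑ a, fa a * u γ a) = 0 := by
    have h2 := hdot fa
    have h3 : ∑ j, g (some (some j)) * ∑ a, fa a * u (r j) a = 0 :=
      Finset.sum_eq_zero fun j _ => by rw [ha j, mul_zero]
    rw [h3, add_zero] at h2
    exact h2
  have hs : ∀ f : Fin (M + 1) → ℝ, (∀ j, j ≠ i → ∑ a, f a * u (r j) a = 0) →
      ∑ j, g (some (some j)) * ∑ a, f a * u (r j) a = g (some (some i)) * ∑ a, f a * u (r i) a := by
    intro f hf
    refine Finset.sum_eq_single i (fun j _ hj => ?_) (fun h => absurd (Finset.mem_univ i) h)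
    rw [hf j hj, mul_zero]
  have e2 : g (some none) * (∑ a, fb a * u γ a) + g (some (some i)) * (∑ a, fb a * u (r i) a) = 0 := by
    have h2 := hdot fb
    rw [hs fb hb, hb', mul_zero, zero_add] at h2
    exact h2
  have e3 : g (some (some i)) * (∑ a, fg a * u (r i) a) + g none * (∑ a, fg a * u β a) = 0 := by
    have h2 := hdot fg
    rw [hs fg hg, hg', mul_zero, zero_add] at h2
    linarith
  have z : g none = 0 ∧ g (some none) = 0 ∧ g (some (some i)) = 0 := by
    rcases PtV_sign sa e1 with ⟨k1, k2⟩ | k1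
    · refine ⟨k1, k2, ?_⟩
      rcases PtV_sign sb e2 with ⟨k3, k4⟩ | k3
      · exact k4
      · rw [k2, zero_mul] at k3
        exact absurd k3 (lt_irrefl _)
    · rcases PtV_sign sb e2 with ⟨k3, k4⟩ | k3
      · rw [k3, mul_zero] at k1
        exact absurd k1 (lt_irrefl _)
      · rcases PtV_sign sg e3 with ⟨k5, k6⟩ | k5
        · rw [k6, zero_mul] at k1
          exact absurd k1 (lt_irrefl _)
        · exfalso
          have k6 := mul_pos_of_neg_of_neg k1 k3
          have k7 := mul_neg_of_pos_of_neg k6 k5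
          have k8 := sq_nonneg (g none * g (some none) * g (some (some i)))
          nlinarith
  have hz : ∀ j, g (some (some j)) = 0 := by
    apply Fintype.linearIndependent_iff.1 hli (fun j => g (some (some j)))
    have h2 := hg0
    have h3 : g none • u β + (g (some none) • u γ + ∑ j, g (some (some j)) • u (r j)) = 0 := h2
    rw [z.1, z.2.1, zero_smul, zero_smul, zero_add, zero_add] at h3
    exact h3
  rcases o with _ | _ | j
  · exact ho z.1
  · exact ho z.2.1
  · exact ho (hz j)

private theorem PtV_dc {M : ℕ} {P : Type} [DecidableEq P] (c : Fin M → Finset P) (i : Fin M)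
    (g : (Fin M → P) → ℕ) :
    ∑ r ∈ Fintype.piFinset c, ∑ α ∈ c i, g (Function.update r i α) =
      (c i).card * ∑ r ∈ Fintype.piFinset c, g r := by
  have hm : ∀ x ∈ Fintype.piFinset c ×ˢ c i,
      ((Function.update x.1 i x.2, x.1 i) : (Fin M → P) × P) ∈ Fintype.piFinset c ×ˢ c i := by
    intro x hx
    rw [Finset.mem_product, Fintype.mem_piFinset] at hx ⊢
    refine ⟨fun j => ?_, hx.1 i⟩
    show Function.update x.1 i x.2 j ∈ c j
    by_cases hj : j = i
    · subst hj
      rw [Function.update_self]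
      exact hx.2
    · rw [Function.update_of_ne hj]
      exact hx.1 j
  have hi : ∀ x ∈ Fintype.piFinset c ×ˢ c i,
      ((Function.update (Function.update x.1 i x.2) i (x.1 i), (Function.update x.1 i x.2) i) : (Fin M → P) × P) = x := by
    intro x _
    rw [Function.update_idem, Function.update_eq_self, Function.update_self]
  have h : ∑ x ∈ Fintype.piFinset c ×ˢ c i, g (Function.update x.1 i x.2) =
      ∑ x ∈ Fintype.piFinset c ×ˢ c i, g x.1 :=
    Finset.sum_nbij' (fun x => (Function.update x.1 i x.2, x.1 i))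
      (fun x => (Function.update x.1 i x.2, x.1 i)) hm hm hi hi (fun x _ => rfl)
  rw [← Finset.sum_product' (Fintype.piFinset c) (c i) (fun r α => g (Function.update r i α)), h,
    Finset.sum_product]
  simp only [Finset.sum_const, smul_eq_mul]
  rw [Finset.mul_sum]

theorem ptV (k : ℕ) (hk : 2 ≤ k) (M : ℕ) (P : Type) [DecidableEq P]
    (c : Fin M → Finset P) (hdis : ∀ i j, i ≠ j → Disjoint (c i) (c j)) (h3 : ∀ i, 3 ≤ (c i).card)
    (u : P → Fin (M + 1) → ℝ)
    (hgen : ∀ T : Finset P, (∀ p ∈ T, ∃ i, p ∈ c i) → T.card = M + 1 →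
      LinearIndependent ℝ (fun p : T => u p)) :
    ∃ f : Fin (M + 1) → ℝ, f ≠ 0 ∧
      3 * ∑ i, (((c i).filter fun p => 0 < ∑ a, f a * u p a).card.descFactorial k +
        ((c i).filter fun p => ∑ a, f a * u p a < 0).card.descFactorial k) ≤
      2 * ∑ i, (c i).card.descFactorial k := by
  classical
  choose F hF0 hF using fun r : Fin M → P => PtV_ker (fun i => u (r i))
  have key : ∀ i, 3 * ∑ r ∈ Fintype.piFinset c,
      (((c i).filter fun p => 0 < ∑ a, F r a * u p a).card.descFactorial k +
        ((c i).filter fun p => ∑ a, F r a * u p a < 0).card.descFactorial k) ≤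
      2 * ∑ r ∈ Fintype.piFinset c, (c i).card.descFactorial k := by
    intro i
    have hci : 0 < (c i).card := by
      have := h3 i
      omega
    have h1 := PtV_dc c i (fun r => ((c i).filter fun p => 0 < ∑ a, F r a * u p a).card.descFactorial k +
        ((c i).filter fun p => ∑ a, F r a * u p a < 0).card.descFactorial k)
    have h2 : ∀ r ∈ Fintype.piFinset c, 3 * ∑ α ∈ c i,
        (((c i).filter fun p => 0 < ∑ a, F (Function.update r i α) a * u p a).card.descFactorial k +
        ((c i).filter fun p => ∑ a, F (Function.update r i α) a * u p a < 0).card.descFactorial k) ≤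
        2 * ((c i).card * (c i).card.descFactorial k) := by
      intro r hr
      have hself : ∀ α, ∑ a, F (Function.update r i α) a * u α a = 0 := by
        intro α
        have h4 := hF (Function.update r i α) i
        rw [Function.update_self] at h4
        exact h4
      have hoth : ∀ α j, j ≠ i → ∑ a, F (Function.update r i α) a * u (r j) a = 0 := by
        intro α j hj
        have h4 := hF (Function.update r i α) j
        rw [Function.update_of_ne hj] at h4
        exact h4
      refine PtV_comb k hk (c i) (fun α p => 0 < ∑ a, F (Function.update r i α) a * u p a)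
        (fun α p => ∑ a, F (Function.update r i α) a * u p a < 0) ?_ ?_ ?_ ?_
      · intro α h4
        rw [hself α] at h4
        exact lt_irrefl _ h4
      · intro α h4
        rw [hself α] at h4
        exact lt_irrefl _ h4
      · intro α p h4 h5
        exact lt_asymm h4 h5
      · intro α hα β hβ γ hγ hne sa sb sg
        have hui : Function.update r i α i = α := Function.update_self _ _ _
        refine PtV_radon c hdis u hgen (Function.update r i α) ?_ i (β := β) (γ := γ) hβ
          (by rw [hui]; exact hne) (F (Function.update r i α)) (F (Function.update r i β))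
          (F (Function.update r i γ)) (fun j => hF (Function.update r i α) j) ?_ (hself β) ?_ (hself γ) sa ?_ ?_
        · intro j _
          by_cases hj : j = i
          · subst hj
            rw [Function.update_self]
            exact hα
          · rw [Function.update_of_ne hj]
            exact (Fintype.mem_piFinset.1 hr) j
        · intro j hj
          rw [Function.update_of_ne hj]
          exact hoth β j hj
        · intro j hj
          rw [Function.update_of_ne hj]
          exact hoth γ j hj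
        · rw [hui]
          exact sb
        · rw [hui]
          exact sg
    have h4 : (c i).card * (3 * ∑ r ∈ Fintype.piFinset c,
        (((c i).filter fun p => 0 < ∑ a, F r a * u p a).card.descFactorial k +
        ((c i).filter fun p => ∑ a, F r a * u p a < 0).card.descFactorial k)) ≤
        (c i).card * (2 * ∑ r ∈ Fintype.piFinset c, (c i).card.descFactorial k) := by
      have h5 := Finset.sum_le_sum h2
      rw [← Finset.mul_sum, h1, Finset.sum_const, smul_eq_mul] at h5
      rw [Finset.sum_const, smul_eq_mul]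
      calc _ = 3 * ((c i).card * ∑ r ∈ Fintype.piFinset c,
          (((c i).filter fun p => 0 < ∑ a, F r a * u p a).card.descFactorial k +
          ((c i).filter fun p => ∑ a, F r a * u p a < 0).card.descFactorial k)) := by ring
        _ ≤ _ := h5
        _ = _ := by ring
    exact Nat.le_of_mul_le_mul_left h4 hci
  have hne : (Fintype.piFinset c).Nonempty := Fintype.piFinset_nonempty.2 fun i =>
    Finset.card_pos.1 (by have := h3 i; omega)
  obtain ⟨r, -, hle⟩ := Finset.exists_le_of_sum_le hne
    (f := fun r => 3 * ∑ i, (((c i).filter fun p => 0 < ∑ a, F r a * u p a).card.descFactorial k +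
        ((c i).filter fun p => ∑ a, F r a * u p a < 0).card.descFactorial k))
    (g := fun _ => 2 * ∑ i, (c i).card.descFactorial k) (by
      rw [← Finset.mul_sum, ← Finset.mul_sum, Finset.sum_comm, Finset.mul_sum]
      rw [Finset.sum_comm (s := Fintype.piFinset c), Finset.mul_sum]
      exact Finset.sum_le_sum fun i _ => key i)
  exact ⟨F r, hF0 r, hle⟩

end D4Q
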