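import Mathlib
import Pool.Agent.D4Q.PtV

/-!
# D4Q-PtL: one partition step, arbitrary vectors

(2) ONE STEP, all vectors: the CLAIM holds for all `u : P → ℝ^(M+1)`, points with
`f · u p = 0` being dropped. Perturb: `u p + t g p`, `g p = (1, s_p, ..., s_p^M)` with distinct
`s_p` (Vandermonde: for each `M + 1` points the determinant is a polynomial in `t` with nonzero
leading coefficient), `t → 0` along values where all determinants are nonzero; take
`f_t` of norm one with the property and a convergent subsequence, limit `f`; if `f · u p ≠ 0` then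
`f_t · (u p + t g p)` has the same sign for small `t`.

(Only the finitely many points of `⋃ c i` matter.)
-/

namespace D4Q

open MvPolynomial

private theorem ptL_fin (n : ℕ) (U G : Matrix (Fin n) (Fin n) ℝ) (hG : G.det ≠ 0) :
    {t : ℝ | (U + t • G).det = 0}.Finite := by
  classical
  have hu : IsUnit G.det := isUnit_iff_ne_zero.mpr hG
  have h1 : ∀ t : ℝ, (U + t • G).det = G.det * (Matrix.charpoly (-(G⁻¹ * U))).eval t := by
    intro t
    have h2 : U + t • G = G * (Matrix.scalar (Fin n) t - -(G⁻¹ * U)) := by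
      rw [sub_neg_eq_add, Matrix.mul_add, ← Matrix.mul_assoc, Matrix.mul_nonsing_inv G hu,
        Matrix.one_mul, add_comm]
      congr 1
      rw [Matrix.scalar_apply, ← Matrix.smul_one_eq_diagonal, Matrix.mul_smul, Matrix.mul_one]
    rw [h2, Matrix.det_mul, Matrix.eval_charpoly]
  refine ((Matrix.charpoly (-(G⁻¹ * U))).roots.toFinset.finite_toSet).subset ?_
  intro t ht
  have h3 : G.det * (Matrix.charpoly (-(G⁻¹ * U))).eval t = 0 := by
    rw [← h1 t]
    exact ht
  have h4 := (mul_eq_zero.mp h3).resolve_left hG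
  rw [Finset.mem_coe, Multiset.mem_toFinset,
    Polynomial.mem_roots (Matrix.charpoly_monic _).ne_zero]
  exact h4

theorem ptL (k : ℕ) (hk : 2 ≤ k) (M : ℕ) (P : Type) [DecidableEq P]
    (c : Fin M → Finset P) (hdis : ∀ i j, i ≠ j → Disjoint (c i) (c j)) (h3 : ∀ i, 3 ≤ (c i).card)
    (u : P → Fin (M + 1) → ℝ) :
    ∃ f : Fin (M + 1) → ℝ, f ≠ 0 ∧
      3 * ∑ i, (((c i).filter fun p => 0 < ∑ a, f a * u p a).card.descFactorial k +
        ((c i).filter fun p => ∑ a, f a * u p a < 0).card.descFactorial k) ≤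
      2 * ∑ i, (c i).card.descFactorial k := by
  classical
  let A : Finset P := Finset.univ.biUnion c
  let s : P → ℝ := fun p => if h : p ∈ A then ((A.equivFin ⟨p, h⟩ : ℕ) : ℝ) else 0
  have hs : ∀ p ∈ A, ∀ q ∈ A, s p = s q → p = q := by
    intro p hp q hq h
    have h1 : s p = ((A.equivFin ⟨p, hp⟩ : ℕ) : ℝ) := dif_pos hp
    have h2 : s q = ((A.equivFin ⟨q, hq⟩ : ℕ) : ℝ) := dif_pos hq
    rw [h1, h2, Nat.cast_inj] at h
    have h4 := A.equivFin.injective (Fin.ext h)
    exact congrArg Subtype.val h4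
  let g : P → Fin (M + 1) → ℝ := fun p a => s p ^ (a : ℕ)
  -- good parameters
  let Bad : Set ℝ := ⋃ T ∈ A.powerset.filter fun T => T.card = M + 1,
    {t : ℝ | ¬ LinearIndependent ℝ (fun p : T => fun a => u p a + t * g p a)}
  have hBad : Bad.Finite := by
    refine Set.Finite.biUnion (Finset.finite_toSet _) fun T hT => ?_
    rw [Finset.coe_filter] at hT
    obtain ⟨hTA, hTc⟩ := hT
    rw [Finset.mem_powerset] at hTA
    let e : T ≃ Fin (M + 1) := T.equivFinOfCardEq hTc
    let U : Matrix (Fin (M + 1)) (Fin (M + 1)) ℝ := Matrix.of fun i a => u (e.symm i) a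
    let G : Matrix (Fin (M + 1)) (Fin (M + 1)) ℝ := Matrix.vandermonde fun i => s (e.symm i)
    have hG : G.det ≠ 0 := by
      rw [Matrix.det_vandermonde_ne_zero_iff]
      intro i j hij
      have h1 := hs _ (hTA (e.symm i).2) _ (hTA (e.symm j).2) hij
      exact e.symm.injective (Subtype.ext h1)
    refine (ptL_fin (M + 1) U G hG).subset ?_
    intro t ht
    by_contra hdet
    apply ht
    have h1 := Matrix.linearIndependent_rows_of_det_ne_zero hdet
    have h2 : (fun p : T => fun a => u p a + t * g p a) = (fun i => (U + t • G) i) ∘ e := by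
      funext p a
      show u p a + t * g p a = u (e.symm (e p)) a + t * (s (e.symm (e p))) ^ (a : ℕ)
      rw [e.symm_apply_apply]
    rw [h2]
    exact h1.comp e e.injective
  have hgood : ∀ ε : ℝ, 0 < ε → ∃ t : ℝ, 0 < t ∧ t < ε ∧ t ∉ Bad := by
    intro ε hε
    have h1 : (Set.Ioo 0 ε \ Bad).Infinite := (Set.Ioo_infinite hε).sdiff hBad
    obtain ⟨t, ht⟩ := h1.nonempty
    exact ⟨t, ht.1.1, ht.1.2, ht.2⟩
  choose t ht0 ht1 htB using fun n : ℕ => hgood (1 / ((n : ℝ) + 1)) (by positivity)
  have hV : ∀ n : ℕ, ∃ f : Fin (M + 1) → ℝ, ‖f‖ = 1 ∧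
      3 * ∑ i, (((c i).filter fun p => 0 < ∑ a, f a * (u p a + t n * g p a)).card.descFactorial k +
        ((c i).filter fun p => ∑ a, f a * (u p a + t n * g p a) < 0).card.descFactorial k) ≤
      2 * ∑ i, (c i).card.descFactorial k := by
    intro n
    obtain ⟨f, hf0, hf⟩ := ptV k hk M P c hdis h3 (fun p a => u p a + t n * g p a) (by
      intro T hT hTc
      by_contra hcon
      apply htB n
      refine Set.mem_iUnion₂.mpr ⟨T, ?_, hcon⟩
      rw [Finset.mem_filter, Finset.mem_powerset]
      refine ⟨fun p hp => ?_, hTc⟩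
      obtain ⟨i, hi⟩ := hT p hp
      exact Finset.mem_biUnion.mpr ⟨i, Finset.mem_univ i, hi⟩)
    have hn : 0 < ‖f‖ := norm_pos_iff.mpr hf0
    refine ⟨fun a => ‖f‖⁻¹ * f a, ?_, ?_⟩
    · have h5 : (fun a => ‖f‖⁻¹ * f a) = ‖f‖⁻¹ • f := rfl
      rw [h5, norm_smul, norm_inv, norm_norm]
      exact inv_mul_cancel₀ hn.ne'
    · have h5 : ∀ p, ∑ a, ‖f‖⁻¹ * f a * (u p a + t n * g p a) =
          ‖f‖⁻¹ * ∑ a, f a * (u p a + t n * g p a) := by
        intro p
        rw [Finset.mul_sum]
        exact Finset.sum_congr rfl fun a _ => by ring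
      have h6 : ∀ p, (0 < ∑ a, ‖f‖⁻¹ * f a * (u p a + t n * g p a) ↔
          0 < ∑ a, f a * (u p a + t n * g p a)) := by
        intro p
        rw [h5]
        exact mul_pos_iff_of_pos_left (inv_pos.mpr hn)
      have h7 : ∀ p, (∑ a, ‖f‖⁻¹ * f a * (u p a + t n * g p a) < 0 ↔
          ∑ a, f a * (u p a + t n * g p a) < 0) := by
        intro p
        rw [h5]
        constructor
        · intro h
          by_contra hc
          exact absurd h (not_lt.mpr (mul_nonneg (inv_pos.mpr hn).le (not_lt.mp hc)))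
        · exact fun h => mul_neg_of_pos_of_neg (inv_pos.mpr hn) h
      simp only [h6, h7]
      exact hf
  choose F hF1 hF using hV
  obtain ⟨f, hfs, φ, hφ, hlim⟩ := (isCompact_sphere (0 : Fin (M + 1) → ℝ) 1).tendsto_subseq
    (x := F) fun n => by rw [mem_sphere_zero_iff_norm]; exact hF1 n
  have hf0 : f ≠ 0 := by
    intro h
    rw [mem_sphere_zero_iff_norm, h, norm_zero] at hfs
    exact zero_ne_one hfs
  have htl : Filter.Tendsto t Filter.atTop (nhds 0) := by
    refine squeeze_zero (fun n => (ht0 n).le) (fun n => (ht1 n).le) ?_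
    exact tendsto_one_div_add_atTop_nhds_zero_nat
  have hval : ∀ p, Filter.Tendsto
      (fun n => ∑ a, F (φ n) a * (u p a + t (φ n) * g p a)) Filter.atTop
      (nhds (∑ a, f a * u p a)) := by
    intro p
    have h5 : (∑ a, f a * u p a) = ∑ a, f a * (u p a + 0 * g p a) := by simp
    rw [h5]
    refine tendsto_finsetSum _ fun a _ => ?_
    refine Filter.Tendsto.mul ?_ ?_
    · exact ((continuous_apply a).tendsto f).comp hlim
    · refine Filter.Tendsto.add tendsto_const_nhds ?_
      exact (htl.comp hφ.tendsto_atTop).mul_const _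
  have hev : ∀ᶠ n in Filter.atTop, ∀ p ∈ A,
      (0 < ∑ a, f a * u p a → 0 < ∑ a, F (φ n) a * (u p a + t (φ n) * g p a)) ∧
      (∑ a, f a * u p a < 0 → ∑ a, F (φ n) a * (u p a + t (φ n) * g p a) < 0) := by
    rw [Filter.eventually_all_finset]
    intro p _
    refine Filter.Eventually.and ?_ ?_
    · by_cases hp : 0 < ∑ a, f a * u p a
      · filter_upwards [(hval p).eventually_const_lt hp] with n hn _
        exact hn
      · exact Filter.Eventually.of_forall fun n h => absurd h hp
    · by_cases hp : ∑ a, f a * u p a < 0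
      · filter_upwards [(hval p).eventually_lt_const hp] with n hn _
        exact hn
      · exact Filter.Eventually.of_forall fun n h => absurd h hp
  obtain ⟨n, hn⟩ := hev.exists
  refine ⟨f, hf0, le_trans ?_ (hF (φ n))⟩
  refine Nat.mul_le_mul_left 3 (Finset.sum_le_sum fun i _ => ?_)
  have hiA : ∀ p ∈ c i, p ∈ A := fun p hp => Finset.mem_biUnion.mpr ⟨i, Finset.mem_univ i, hp⟩
  refine Nat.add_le_add (Nat.descFactorial_le k (Finset.card_le_card ?_))
    (Nat.descFactorial_le k (Finset.card_le_card ?_))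
  · intro p hp
    rw [Finset.mem_filter] at hp ⊢
    exact ⟨hp.1, (hn p (hiA p hp.1)).1 hp.2⟩
  · intro p hp
    rw [Finset.mem_filter] at hp ⊢
    exact ⟨hp.1, (hn p (hiA p hp.1)).2 hp.2⟩

end D4Q
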