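import Mathlib
import Pool.Agent.D4Q.PtL

/-!
# D4Q-PtS: one partition step with polynomials

PROOF. `m` bounds the number of points. Large labels `g`: at least `τ = max 3 (m/(N-1))` points of `Q` with `χ p = g`; their number `M` is at most `N - 1`
(if there is one, `M τ ≤ m`). Choose `M + 1 ≤ N` linearly independent elements `w_0, ..., w_M` of `W`, `u p = (w_a p)_a`, and apply `ptL` to the large cells:
`f = ∑ f_a w_a ∈ W`, nonzero. The large cells contribute at most `(2/3) Φ`, the small ones (at most `τ` points each) at most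
`∑ |cell|^k ≤ |Q| τ^(k-1)` (a small cell with `n` points splits into two parts with sum of `descFactorial` at most `n.descFactorial k`, superadditivity, or simply `≤ n^k`
by `a^k + b^k ≤ (a+b)^k`).
-/

namespace D4Q

open MvPolynomial

private theorem ptS_small (k : ℕ) (hk : k ≠ 0) (S : Finset (Fin 4 → ℝ))
    (f : MvPolynomial (Fin 4) ℝ) :
    ((S.filter fun p => 0 < eval p f).card.descFactorial k +
      (S.filter fun p => eval p f < 0).card.descFactorial k) ≤ S.card ^ k := by
  classical
  have hd : Disjoint (S.filter fun p => 0 < eval p f) (S.filter fun p => eval p f < 0) := by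
    rw [Finset.disjoint_left]
    intro p hp hq
    rw [Finset.mem_filter] at hp hq
    exact absurd hp.2 (not_lt.mpr hq.2.le)
  have h1 : (S.filter fun p => 0 < eval p f).card + (S.filter fun p => eval p f < 0).card ≤
      S.card := by
    rw [← Finset.card_union_of_disjoint hd]
    exact Finset.card_le_card (Finset.union_subset (Finset.filter_subset _ _)
      (Finset.filter_subset _ _))
  calc _ ≤ (S.filter fun p => 0 < eval p f).card ^ k +
        (S.filter fun p => eval p f < 0).card ^ k :=
        Nat.add_le_add (Nat.descFactorial_le_pow _ _) (Nat.descFactorial_le_pow _ _)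
    _ ≤ ((S.filter fun p => 0 < eval p f).card + (S.filter fun p => eval p f < 0).card) ^ k :=
        pow_add_pow_le (Nat.zero_le _) (Nat.zero_le _) hk
    _ ≤ S.card ^ k := Nat.pow_le_pow_left h1 k

theorem ptS (k : ℕ) (hk : 2 ≤ k) (N : ℕ) (hN : 2 ≤ N)
    (W : Submodule ℝ (MvPolynomial (Fin 4) ℝ)) (hW : N ≤ Module.finrank ℝ W)
    (Γ : Type) [Fintype Γ] [DecidableEq Γ] (χ : (Fin 4 → ℝ) → Γ) (Q : Finset (Fin 4 → ℝ)) (m : ℕ)
    (hm : Q.card ≤ m) :
    ∃ f ∈ W, f ≠ 0 ∧
      (∑ g, ((((Q.filter fun p => χ p = g).filter fun p => 0 < eval p f).card.descFactorial k : ℕ) +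
        (((Q.filter fun p => χ p = g).filter fun p => eval p f < 0).card.descFactorial k : ℕ) : ℝ)) ≤
      2 / 3 * (∑ g, ((Q.filter fun p => χ p = g).card.descFactorial k : ℝ)) +
        Q.card * ((m : ℝ) / (N - 1) + 3) ^ (k - 1) := by
  classical
  let cell : Γ → Finset (Fin 4 → ℝ) := fun g => Q.filter fun p => χ p = g
  let L : Finset Γ := Finset.univ.filter fun g => 3 ≤ (cell g).card ∧ m ≤ (cell g).card * (N - 1)
  have hsum : ∑ g, (cell g).card = Q.card :=
    (Finset.card_eq_sum_card_fiberwise (f := χ) (t := Finset.univ)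
      fun p _ => Finset.mem_univ _).symm
  -- number of large labels
  have hL : L.card + 1 ≤ N := by
    have h1 : L.card * m ≤ m * (N - 1) := by
      calc L.card * m = ∑ _g ∈ L, m := by rw [Finset.sum_const, smul_eq_mul]
        _ ≤ ∑ g ∈ L, (cell g).card * (N - 1) :=
            Finset.sum_le_sum fun g hg => (Finset.mem_filter.mp hg).2.2
        _ ≤ ∑ g, (cell g).card * (N - 1) :=
            Finset.sum_le_sum_of_subset (Finset.subset_univ L)
        _ = Q.card * (N - 1) := by rw [← Finset.sum_mul, hsum]
        _ ≤ m * (N - 1) := Nat.mul_le_mul_right _ hm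
    rcases Nat.eq_zero_or_pos m with hm0 | hm0
    · have h2 : L = ∅ := by
        rw [Finset.eq_empty_iff_forall_notMem]
        intro g hg
        have h3 := (Finset.mem_filter.mp hg).2.1
        have h4 : (cell g).card ≤ Q.card := Finset.card_le_card (Finset.filter_subset _ _)
        omega
      rw [h2, Finset.card_empty]
      omega
    · have h2 : L.card ≤ N - 1 := by
        rw [mul_comm] at h1
        exact Nat.le_of_mul_le_mul_left h1 hm0
      omega
  -- linearly independent polynomials
  obtain ⟨w, hw⟩ : ∃ w : Fin (L.card + 1) → W, LinearIndependent ℝ w :=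
    exists_linearIndependent_of_le_finrank (hL.trans hW)
  let e : L ≃ Fin L.card := L.equivFin
  obtain ⟨a, ha0, ha⟩ := ptL k hk L.card (Fin 4 → ℝ) (fun i => cell (e.symm i).1)
    (by
      intro i j hij
      rw [Finset.disjoint_left]
      intro p hp hq
      apply hij
      have h1 := (Finset.mem_filter.mp hp).2
      have h2 := (Finset.mem_filter.mp hq).2
      exact e.symm.injective (Subtype.ext (h1.symm.trans h2)))
    (fun i => (Finset.mem_filter.mp (e.symm i).2).2.1)
    (fun p b => eval p (w b : MvPolynomial (Fin 4) ℝ))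
  let f : W := ∑ b, a b • w b
  have hf0 : f ≠ 0 := by
    intro h
    apply ha0
    funext b
    exact Fintype.linearIndependent_iff.mp hw a h b
  have hev : ∀ p, ∑ b, a b * eval p (w b : MvPolynomial (Fin 4) ℝ) =
      eval p (f : MvPolynomial (Fin 4) ℝ) := by
    intro p
    simp only [f, Submodule.coe_sum, Submodule.coe_smul, map_sum, smul_eval]
  simp only [hev] at ha
  refine ⟨f, f.2, fun h => hf0 (Subtype.ext h), ?_⟩
  let F : Γ → ℕ := fun g => ((cell g).filter fun p => 0 < eval p (f : MvPolynomial (Fin 4) ℝ)).card.descFactorial k +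
    ((cell g).filter fun p => eval p (f : MvPolynomial (Fin 4) ℝ) < 0).card.descFactorial k
  have hgoal : (∑ g, (F g : ℝ)) ≤ 2 / 3 * (∑ g, ((cell g).card.descFactorial k : ℝ)) +
        Q.card * ((m : ℝ) / (N - 1) + 3) ^ (k - 1) := by
    have hN1 : (0 : ℝ) < (N : ℝ) - 1 := by
      have : (2 : ℝ) ≤ N := by exact_mod_cast hN
      linarith
    have hlarge : (∑ g ∈ L, (F g : ℝ)) ≤ 2 / 3 * ∑ g, ((cell g).card.descFactorial k : ℝ) := by
      have h1 : 3 * ∑ i : Fin L.card, F (e.symm i).1 ≤
          2 * ∑ i : Fin L.card, (cell (e.symm i).1).card.descFactorial k := ha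
      have h2 : ∑ i : Fin L.card, F (e.symm i).1 = ∑ g ∈ L, F g := by
        rw [Equiv.sum_comp e.symm (fun g : L => F g.1)]
        exact Finset.sum_coe_sort L F
      have h4 : ∑ i : Fin L.card, (cell (e.symm i).1).card.descFactorial k =
          ∑ g ∈ L, (cell g).card.descFactorial k := by
        rw [Equiv.sum_comp e.symm (fun g : L => (cell g.1).card.descFactorial k)]
        exact Finset.sum_coe_sort L fun g => (cell g).card.descFactorial k
      rw [h2, h4] at h1
      have h5 : (3 : ℝ) * ∑ g ∈ L, (F g : ℝ) ≤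
          2 * ∑ g ∈ L, ((cell g).card.descFactorial k : ℝ) := by exact_mod_cast h1
      have h6 : ∑ g ∈ L, ((cell g).card.descFactorial k : ℝ) ≤
          ∑ g, ((cell g).card.descFactorial k : ℝ) :=
        Finset.sum_le_sum_of_subset_of_nonneg (Finset.subset_univ L)
          fun _ _ _ => Nat.cast_nonneg _
      linarith
    have hsmall : (∑ g ∈ Finset.univ \ L, (F g : ℝ)) ≤
        Q.card * ((m : ℝ) / (N - 1) + 3) ^ (k - 1) := by
      have h1 : ∀ g ∈ Finset.univ \ L, (F g : ℝ) ≤
          ((cell g).card : ℝ) * ((m : ℝ) / (N - 1) + 3) ^ (k - 1) := by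
        intro g hg
        have h2 : F g ≤ (cell g).card ^ k := ptS_small k (by omega) (cell g) f
        have h3 : (F g : ℝ) ≤ ((cell g).card : ℝ) ^ k := by exact_mod_cast h2
        have h4 : ((cell g).card : ℝ) ≤ (m : ℝ) / (N - 1) + 3 := by
          have h5 : ¬ (3 ≤ (cell g).card ∧ m ≤ (cell g).card * (N - 1)) := by
            intro h
            have h6 := (Finset.mem_sdiff.mp hg).2
            exact h6 (Finset.mem_filter.mpr ⟨Finset.mem_univ g, h⟩)
          have hnn : (0 : ℝ) ≤ (m : ℝ) / (N - 1) := div_nonneg (Nat.cast_nonneg m) hN1.le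
          by_cases h7 : 3 ≤ (cell g).card
          · have h8 : (cell g).card * (N - 1) < m := by
              by_contra h9
              exact h5 ⟨h7, not_lt.mp h9⟩
            have h9 : ((cell g).card : ℝ) * ((N : ℝ) - 1) < m := by
              have h10 : (((cell g).card * (N - 1) : ℕ) : ℝ) < m := by exact_mod_cast h8
              rw [Nat.cast_mul, Nat.cast_sub (by omega), Nat.cast_one] at h10
              exact h10
            have h10 : ((cell g).card : ℝ) < (m : ℝ) / (N - 1) := by
              rw [lt_div_iff₀ hN1]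
              exact h9
            linarith
          · have h8 : ((cell g).card : ℝ) ≤ 3 := by
              exact_mod_cast (by omega : (cell g).card ≤ 3)
            linarith
        have h5 : ((cell g).card : ℝ) ^ k =
            ((cell g).card : ℝ) * ((cell g).card : ℝ) ^ (k - 1) := by
          rw [← pow_succ']
          congr 1
          omega
        rw [h5] at h3
        refine h3.trans (mul_le_mul_of_nonneg_left ?_ (Nat.cast_nonneg _))
        exact pow_le_pow_left₀ (Nat.cast_nonneg _) h4 _
      calc (∑ g ∈ Finset.univ \ L, (F g : ℝ)) ≤ ∑ g ∈ Finset.univ \ L,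
            ((cell g).card : ℝ) * ((m : ℝ) / (N - 1) + 3) ^ (k - 1) := Finset.sum_le_sum h1
        _ ≤ ∑ g, ((cell g).card : ℝ) * ((m : ℝ) / (N - 1) + 3) ^ (k - 1) := by
            refine Finset.sum_le_sum_of_subset_of_nonneg Finset.sdiff_subset fun g _ _ => ?_
            refine mul_nonneg (Nat.cast_nonneg _) (pow_nonneg ?_ _)
            have := div_nonneg (Nat.cast_nonneg (α := ℝ) m) hN1.le
            linarith
        _ = Q.card * ((m : ℝ) / (N - 1) + 3) ^ (k - 1) := by
            rw [← Finset.sum_mul, ← hsum]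
            push_cast
            rfl
    have hsplit : (∑ g, (F g : ℝ)) = (∑ g ∈ Finset.univ \ L, (F g : ℝ)) + ∑ g ∈ L, (F g : ℝ) :=
      (Finset.sum_sdiff (Finset.subset_univ L)).symm
    linarith
  refine le_trans (le_of_eq ?_) hgoal
  refine Finset.sum_congr rfl fun g _ => ?_
  simp only [F, Nat.cast_add]
  rfl

end D4Q
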