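import Mathlib
import Pool.Agent.D4Q.PtS

/-!
# D4Q-PtI: iteration of the partition step

PROOF. Let `lam > 1` with `lam^(k-1) ≤ 5/4` (e.g. `lam = 1 + 1/(4 k)` or so) and `N0` a large constant. If `N ≤ N0` take `J = 0` (then the sum is at most
`m^k ≤ N0^(k-1) m (m/N0 + 1)^(k-1)`...). Otherwise dimensions `n_0 = N0`, `n_{j+1} = ⌊lam n_j⌋` (strictly increasing if `N0 (lam - 1) ≥ 2`, and
`n_j ≥ lam'^j`-growth, `lam' = (1 + lam)/2`), `J` maximal with `n_{J-1} ≤ N`. Apply `ptS` with `W (n_j)`, the labels being the signs of the previous polynomials and `Q` the points outside of their zero sets.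
Induction: `Φ_j ≤ A m (m / n_j + 1)^(k-1)` for the potential `Φ_j` before step `j`: `Φ_{j+1} ≤ (2/3) Φ_j + m (m/(n_j - 1) + 3)^(k-1) ≤ (2/3 + 4^k... /A) A m (m/n_j + 1)^(k-1)` and
`(m/n_j + 1) ≤ lam (m/n_{j+1} + 1)`; `A` large. Finally `x^k ≤ k^k (x.descFactorial k) + k^k x` for natural `x`.
-/

namespace D4Q

open MvPolynomial

private theorem PtI_desc (k x : ℕ) (hk : 1 ≤ k) : x ^ k ≤ k ^ k * x.descFactorial k + k ^ k * x := by
  rcases lt_or_ge x k with h | h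
  · obtain ⟨l, rfl⟩ : ∃ l, k = l + 1 := ⟨k - 1, by omega⟩
    calc x ^ (l + 1) = x ^ l * x := pow_succ x l
      _ ≤ (l + 1) ^ l * x := Nat.mul_le_mul_right _ (Nat.pow_le_pow_left h.le l)
      _ ≤ (l + 1) ^ (l + 1) * x := Nat.mul_le_mul_right _ (Nat.pow_le_pow_right (by omega) (by omega))
      _ ≤ _ := Nat.le_add_left _ _
  · have h1 : x ≤ k * (x + 1 - k) := by
      obtain ⟨y, rfl⟩ := Nat.exists_eq_add_of_le h
      have h2 : k + y + 1 - k = y + 1 := by omega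
      rw [h2]
      nlinarith
    calc x ^ k ≤ (k * (x + 1 - k)) ^ k := Nat.pow_le_pow_left h1 k
      _ = k ^ k * (x + 1 - k) ^ k := mul_pow _ _ _
      _ ≤ k ^ k * x.descFactorial k := Nat.mul_le_mul_left _ (Nat.pow_sub_le_descFactorial x k)
      _ ≤ _ := Nat.le_add_right _ _

private theorem PtI_sgn {J : ℕ} (f : Fin J → MvPolynomial (Fin 4) ℝ) (g : MvPolynomial (Fin 4) ℝ)
    (p : Fin 4 → ℝ) (σ : Fin J → Prop) (b : Prop) :
    ((∀ j : Fin (J + 1), eval p ((Fin.snoc f g : Fin (J + 1) → MvPolynomial (Fin 4) ℝ) j) ≠ 0) ∧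
      sgn (Fin.snoc f g : Fin (J + 1) → MvPolynomial (Fin 4) ℝ) p = (Fin.snoc σ b : Fin (J + 1) → Prop)) ↔
    (((∀ j, eval p (f j) ≠ 0) ∧ sgn f p = σ) ∧ eval p g ≠ 0 ∧ ((0 < eval p g) = b)) := by
  have h1 : (∀ j : Fin (J + 1), eval p ((Fin.snoc f g : Fin (J + 1) → MvPolynomial (Fin 4) ℝ) j) ≠ 0) ↔
      (∀ j, eval p (f j) ≠ 0) ∧ eval p g ≠ 0 := by
    rw [Fin.forall_fin_succ']
    simp only [Fin.snoc_castSucc, Fin.snoc_last]
  have h2 : (sgn (Fin.snoc f g : Fin (J + 1) → MvPolynomial (Fin 4) ℝ) p =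
      (Fin.snoc σ b : Fin (J + 1) → Prop)) ↔ sgn f p = σ ∧ ((0 < eval p g) = b) := by
    constructor
    · intro h
      constructor
      · funext j
        have h3 := congrFun h j.castSucc
        unfold sgn at h3 ⊢
        simpa only [Fin.snoc_castSucc] using h3
      · have h3 := congrFun h (Fin.last J)
        unfold sgn at h3
        simpa only [Fin.snoc_last] using h3
    · rintro ⟨h3, h4⟩
      funext j
      unfold sgn at h3 ⊢
      refine Fin.lastCases ?_ (fun i => ?_) j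
      · simpa only [Fin.snoc_last] using h4
      · have h5 := congrFun h3 i
        simpa only [Fin.snoc_castSucc] using h5
  rw [h1, h2]
  tauto

open scoped Classical in
private theorem PtI_iter (k : ℕ) (hk : 2 ≤ k) (μ : ℝ) (hμ : 1 < μ) (hμk : μ ^ (k - 1) ≤ 5 / 4)
    (W : ℕ → Submodule ℝ (MvPolynomial (Fin 4) ℝ)) (hW : ∀ n, n ≤ Module.finrank ℝ (W n))
    (P : Finset (Fin 4 → ℝ)) (J : ℕ) :
    ∃ f : Fin J → MvPolynomial (Fin 4) ℝ,
      (∀ j : Fin J, f j ∈ W (⌈μ ^ (j : ℕ)⌉₊ + 1) ∧ f j ≠ 0) ∧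
      ∑ σ : Fin J → Prop, (((P.filter fun p => (∀ j, eval p (f j) ≠ 0) ∧ sgn f p = σ).card.descFactorial k : ℕ) : ℝ)
        ≤ 8 * P.card * ((P.card : ℝ) / μ ^ J + 3) ^ (k - 1) := by
  have hm0 : (0 : ℝ) ≤ P.card := Nat.cast_nonneg _
  have hμ0 : 0 < μ := by linarith
  induction J with
  | zero =>
    refine ⟨Fin.elim0, fun j => j.elim0, ?_⟩
    rw [Fintype.sum_unique]
    have h1 : (P.filter fun p => (∀ j : Fin 0, eval p ((Fin.elim0 : Fin 0 → MvPolynomial (Fin 4) ℝ) j) ≠ 0) ∧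
        sgn (Fin.elim0 : Fin 0 → MvPolynomial (Fin 4) ℝ) p = default).card ≤ P.card := Finset.card_filter_le _ _
    have h2 : (P.filter fun p => (∀ j : Fin 0, eval p ((Fin.elim0 : Fin 0 → MvPolynomial (Fin 4) ℝ) j) ≠ 0) ∧
        sgn (Fin.elim0 : Fin 0 → MvPolynomial (Fin 4) ℝ) p = default).card.descFactorial k ≤ P.card ^ k :=
      (Nat.descFactorial_le_pow _ _).trans (Nat.pow_le_pow_left h1 k)
    have h3 : (((P.filter fun p => (∀ j : Fin 0, eval p ((Fin.elim0 : Fin 0 → MvPolynomial (Fin 4) ℝ) j) ≠ 0) ∧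
        sgn (Fin.elim0 : Fin 0 → MvPolynomial (Fin 4) ℝ) p = default).card.descFactorial k : ℕ) : ℝ) ≤
        (P.card : ℝ) ^ k := by exact_mod_cast h2
    refine h3.trans ?_
    have h4 : (P.card : ℝ) ^ k = P.card * (P.card : ℝ) ^ (k - 1) := by
      rw [← pow_succ']
      congr 1
      omega
    rw [h4, pow_zero, div_one]
    have h5 : (P.card : ℝ) ^ (k - 1) ≤ ((P.card : ℝ) + 3) ^ (k - 1) :=
      pow_le_pow_left₀ hm0 (by linarith) _
    have h6 : (0 : ℝ) ≤ ((P.card : ℝ) + 3) ^ (k - 1) := by positivity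
    nlinarith [mul_le_mul_of_nonneg_left h5 hm0, mul_nonneg hm0 h6]
  | succ J ih =>
    obtain ⟨f, hf, hΦ⟩ := ih
    obtain ⟨g, hg, hg0, hgΦ⟩ := ptS k hk (⌈μ ^ J⌉₊ + 1) (by
        have h1 : 0 < ⌈μ ^ J⌉₊ := Nat.ceil_pos.2 (by positivity)
        omega) (W (⌈μ ^ J⌉₊ + 1)) (hW _) (Fin J → Prop) (sgn f)
      (P.filter fun p => ∀ j, eval p (f j) ≠ 0) P.card (Finset.card_filter_le _ _)
    refine ⟨Fin.snoc f g, ?_, ?_⟩
    · intro j
      refine Fin.lastCases ?_ (fun i => ?_) j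
      · rw [Fin.snoc_last, Fin.val_last]
        exact ⟨hg, hg0⟩
      · rw [Fin.snoc_castSucc, Fin.val_castSucc]
        exact hf i
    · have h1 : ∑ σ : Fin (J + 1) → Prop, (((P.filter fun p =>
          (∀ j : Fin (J + 1), eval p ((Fin.snoc f g : Fin (J + 1) → MvPolynomial (Fin 4) ℝ) j) ≠ 0) ∧
          sgn (Fin.snoc f g : Fin (J + 1) → MvPolynomial (Fin 4) ℝ) p = σ).card.descFactorial k : ℕ) : ℝ) =
          ∑ σ : Fin J → Prop,
            (((((P.filter fun p => ∀ j, eval p (f j) ≠ 0).filter fun p => sgn f p = σ).filter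
              fun p => 0 < eval p g).card.descFactorial k : ℕ) +
            (((((P.filter fun p => ∀ j, eval p (f j) ≠ 0).filter fun p => sgn f p = σ).filter
              fun p => eval p g < 0).card.descFactorial k : ℕ) : ℝ)) := by
        rw [← (Fin.snocEquiv (fun _ : Fin (J + 1) => Prop)).sum_comp, Fintype.sum_prod_type]
        rw [Finset.sum_comm]
        refine Finset.sum_congr rfl fun σ _ => ?_
        rw [Fintype.univ_Prop, Finset.sum_insert (by simp), Finset.sum_singleton]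
        have h2 : ∀ b : Prop, (P.filter fun p =>
            (∀ j : Fin (J + 1), eval p ((Fin.snoc f g : Fin (J + 1) → MvPolynomial (Fin 4) ℝ) j) ≠ 0) ∧
            sgn (Fin.snoc f g : Fin (J + 1) → MvPolynomial (Fin 4) ℝ) p =
              (Fin.snocEquiv (fun _ : Fin (J + 1) => Prop)) (b, σ)) =
            P.filter fun p => ((∀ j, eval p (f j) ≠ 0) ∧ sgn f p = σ) ∧ eval p g ≠ 0 ∧ ((0 < eval p g) = b) := by
          intro b
          refine Finset.filter_congr fun p _ => ?_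
          exact PtI_sgn f g p σ b
        rw [h2 True, h2 False]
        congr 3
        · congr 1
          ext p
          simp only [Finset.mem_filter]
          constructor
          · rintro ⟨h3, ⟨h4, h5⟩, h6, h7⟩
            exact ⟨⟨⟨h3, h4⟩, h5⟩, h7 ▸ trivial⟩
          · rintro ⟨⟨⟨h3, h4⟩, h5⟩, h6⟩
            exact ⟨h3, ⟨h4, h5⟩, h6.ne', eq_true h6⟩
        · congr 1
          ext p
          simp only [Finset.mem_filter]
          constructor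
          · rintro ⟨h3, ⟨h4, h5⟩, h6, h7⟩
            refine ⟨⟨⟨h3, h4⟩, h5⟩, ?_⟩
            have h8 : ¬ 0 < eval p g := fun h9 => h7 ▸ h9
            exact lt_of_le_of_ne (not_lt.1 h8) h6
          · rintro ⟨⟨⟨h3, h4⟩, h5⟩, h6⟩
            exact ⟨h3, ⟨h4, h5⟩, h6.ne, eq_false (not_lt.2 h6.le)⟩
      rw [h1]
      refine hgΦ.trans ?_
      have h2 : ∑ σ : Fin J → Prop, ((((P.filter fun p => ∀ j, eval p (f j) ≠ 0).filter
          fun p => sgn f p = σ).card.descFactorial k : ℕ) : ℝ) ≤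
          8 * P.card * ((P.card : ℝ) / μ ^ J + 3) ^ (k - 1) := by
        refine le_trans (le_of_eq ?_) hΦ
        refine Finset.sum_congr rfl fun σ _ => ?_
        rw [Finset.filter_filter]
      have h3 : ((P.filter fun p => ∀ j, eval p (f j) ≠ 0).card : ℝ) ≤ P.card := by
        exact_mod_cast Finset.card_filter_le _ _
      have ha : (0 : ℝ) < μ ^ J := by positivity
      have h4 : (P.card : ℝ) / (((⌈μ ^ J⌉₊ + 1 : ℕ) : ℝ) - 1) + 3 ≤ (P.card : ℝ) / μ ^ J + 3 := by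
        have h5 : μ ^ J ≤ ((⌈μ ^ J⌉₊ + 1 : ℕ) : ℝ) - 1 := by
          push_cast
          have := Nat.le_ceil (μ ^ J)
          linarith
        have h6 := div_le_div_of_nonneg_left hm0 ha h5
        linarith
      have h5 : (0 : ℝ) ≤ (P.card : ℝ) / (((⌈μ ^ J⌉₊ + 1 : ℕ) : ℝ) - 1) + 3 := by
        have h6 : (0 : ℝ) ≤ ((⌈μ ^ J⌉₊ + 1 : ℕ) : ℝ) - 1 := by
          push_cast
          have : (0 : ℝ) ≤ (⌈μ ^ J⌉₊ : ℝ) := Nat.cast_nonneg _
          linarith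
        positivity
      have h6 : ((P.card : ℝ) / (((⌈μ ^ J⌉₊ + 1 : ℕ) : ℝ) - 1) + 3) ^ (k - 1) ≤
          ((P.card : ℝ) / μ ^ J + 3) ^ (k - 1) := pow_le_pow_left₀ h5 h4 _
      set R := ((P.card : ℝ) / μ ^ J + 3) ^ (k - 1) with hR
      set R' := ((P.card : ℝ) / μ ^ (J + 1) + 3) ^ (k - 1) with hR'
      have hR'0 : 0 ≤ R' := by positivity
      have h7 : R ≤ 5 / 4 * R' := by
        have h8 : (P.card : ℝ) / μ ^ J + 3 ≤ μ * ((P.card : ℝ) / μ ^ (J + 1) + 3) := by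
          have h9 : (P.card : ℝ) / μ ^ J = μ * ((P.card : ℝ) / μ ^ (J + 1)) := by
            rw [pow_succ]
            field_simp
          rw [h9]
          linarith
        have h9 : R ≤ (μ * ((P.card : ℝ) / μ ^ (J + 1) + 3)) ^ (k - 1) :=
          pow_le_pow_left₀ (by positivity) h8 _
        rw [mul_pow] at h9
        exact h9.trans (mul_le_mul_of_nonneg_right hμk hR'0)
      have h8 : ((P.filter fun p => ∀ j, eval p (f j) ≠ 0).card : ℝ) *
          ((P.card : ℝ) / (((⌈μ ^ J⌉₊ + 1 : ℕ) : ℝ) - 1) + 3) ^ (k - 1) ≤ P.card * R :=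
        mul_le_mul h3 h6 (pow_nonneg h5 _) hm0
      have h9 : (P.card : ℝ) * R ≤ P.card * (5 / 4 * R') := mul_le_mul_of_nonneg_left h7 hm0
      have h10 : 0 ≤ (P.card : ℝ) * R' := mul_nonneg hm0 hR'0
      linarith

open scoped Classical in
theorem ptI (k : ℕ) (hk : 2 ≤ k) : ∃ (A : ℕ) (lam : ℝ), 0 < A ∧ 1 < lam ∧
    ∀ (W : ℕ → Submodule ℝ (MvPolynomial (Fin 4) ℝ)), (∀ n, n ≤ Module.finrank ℝ (W n)) →
    ∀ (P : Finset (Fin 4 → ℝ)) (N : ℕ), 1 ≤ N →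
    ∃ (J : ℕ) (n : Fin J → ℕ) (f : Fin J → MvPolynomial (Fin 4) ℝ),
      (∀ j, f j ∈ W (n j) ∧ f j ≠ 0 ∧ 1 ≤ n j) ∧
      (∀ j : Fin J, (n j : ℝ) * lam ^ (J - (j : ℕ)) ≤ A * N) ∧
      ∑ σ : Fin J → Prop, (((P.filter fun p => (∀ j, eval p (f j) ≠ 0) ∧ sgn f p = σ).card : ℝ)) ^ k
        ≤ A * P.card * ((P.card : ℝ) / N + 1) ^ (k - 1) := by
  have hk0 : k ≠ 0 := by omega
  obtain ⟨μ, hμ, hμ2, hμk⟩ : ∃ μ : ℝ, 1 < μ ∧ μ ≤ 2 ∧ μ ^ (k - 1) ≤ 5 / 4 := by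
    have h1 : ((5 / 4 : ℝ) ^ ((k : ℝ)⁻¹)) ^ k = 5 / 4 := Real.rpow_inv_natCast_pow (by norm_num) hk0
    have h2 : 1 < (5 / 4 : ℝ) ^ ((k : ℝ)⁻¹) := Real.one_lt_rpow (by norm_num) (by positivity)
    refine ⟨(5 / 4 : ℝ) ^ ((k : ℝ)⁻¹), h2, ?_, ?_⟩
    · have h3 : (5 / 4 : ℝ) ^ ((k : ℝ)⁻¹) ≤ ((5 / 4 : ℝ) ^ ((k : ℝ)⁻¹)) ^ k := le_self_pow₀ h2.le hk0
      rw [h1] at h3
      linarith
    · have h3 : ((5 / 4 : ℝ) ^ ((k : ℝ)⁻¹)) ^ (k - 1) ≤ ((5 / 4 : ℝ) ^ ((k : ℝ)⁻¹)) ^ k :=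
        pow_le_pow_right₀ h2.le (by omega)
      rwa [h1] at h3
  have hμ0 : 0 < μ := by linarith
  have hkk : 4 ≤ k ^ k := by
    calc 4 = 2 ^ 2 := by norm_num
      _ ≤ k ^ 2 := Nat.pow_le_pow_left hk 2
      _ ≤ k ^ k := Nat.pow_le_pow_right (by omega) hk
  refine ⟨k ^ k * (8 * 3 ^ (k - 1) + 1), μ, by positivity, hμ, ?_⟩
  intro W hW P N hN
  have hN1 : (1 : ℝ) ≤ N := by exact_mod_cast hN
  have hN0 : (0 : ℝ) < N := by linarith
  have hm0 : (0 : ℝ) ≤ P.card := Nat.cast_nonneg _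
  obtain ⟨J, hJ1, hJ2⟩ := exists_nat_pow_near hN1 hμ
  obtain ⟨f, hf, hΦ⟩ := PtI_iter k hk μ hμ hμk W hW P J
  refine ⟨J, fun j => ⌈μ ^ (j : ℕ)⌉₊ + 1, f, fun j => ⟨(hf j).1, (hf j).2, Nat.le_add_left 1 _⟩, ?_, ?_⟩
  · intro j
    have h1 : ((⌈μ ^ (j : ℕ)⌉₊ + 1 : ℕ) : ℝ) ≤ 3 * μ ^ (j : ℕ) := by
      push_cast
      have h2 := Nat.ceil_lt_add_one (show (0 : ℝ) ≤ μ ^ (j : ℕ) by positivity)
      have h3 : (1 : ℝ) ≤ μ ^ (j : ℕ) := one_le_pow₀ hμ.le
      linarith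
    have h2 : ((⌈μ ^ (j : ℕ)⌉₊ + 1 : ℕ) : ℝ) * μ ^ (J - (j : ℕ)) ≤ 3 * μ ^ (j : ℕ) * μ ^ (J - (j : ℕ)) :=
      mul_le_mul_of_nonneg_right h1 (by positivity)
    have h3 : 3 * μ ^ (j : ℕ) * μ ^ (J - (j : ℕ)) = 3 * μ ^ J := by
      rw [mul_assoc, ← pow_add]
      congr 2
      have := j.2
      omega
    have h4 : 3 ≤ k ^ k * (8 * 3 ^ (k - 1) + 1) := by
      calc 3 ≤ k ^ k * 1 := by omega
        _ ≤ k ^ k * (8 * 3 ^ (k - 1) + 1) := Nat.mul_le_mul_left _ (Nat.le_add_left 1 _)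
    have h5 : (3 : ℝ) ≤ ((k ^ k * (8 * 3 ^ (k - 1) + 1) : ℕ) : ℝ) := by exact_mod_cast h4
    calc ((⌈μ ^ (j : ℕ)⌉₊ + 1 : ℕ) : ℝ) * μ ^ (J - (j : ℕ)) ≤ 3 * μ ^ J := by rw [← h3]; exact h2
      _ ≤ 3 * N := by linarith
      _ ≤ ((k ^ k * (8 * 3 ^ (k - 1) + 1) : ℕ) : ℝ) * N := mul_le_mul_of_nonneg_right h5 hN0.le
  · have h1 : ∀ σ : Fin J → Prop,
        (((P.filter fun p => (∀ j, eval p (f j) ≠ 0) ∧ sgn f p = σ).card : ℝ)) ^ k ≤
        (k : ℝ) ^ k * (((P.filter fun p => (∀ j, eval p (f j) ≠ 0) ∧ sgn f p = σ).card.descFactorial k : ℕ) : ℝ) +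
        (k : ℝ) ^ k * ((P.filter fun p => (∀ j, eval p (f j) ≠ 0) ∧ sgn f p = σ).card : ℝ) := by
      intro σ
      exact_mod_cast PtI_desc k _ (by omega)
    have h2 : ∑ σ : Fin J → Prop, ((P.filter fun p => (∀ j, eval p (f j) ≠ 0) ∧ sgn f p = σ).card : ℝ) ≤
        P.card := by
      have h3 : ∑ σ : Fin J → Prop, (P.filter fun p => (∀ j, eval p (f j) ≠ 0) ∧ sgn f p = σ).card ≤
          P.card := by
        have h4 : ∀ σ : Fin J → Prop, (P.filter fun p => (∀ j, eval p (f j) ≠ 0) ∧ sgn f p = σ).card ≤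
            (P.filter fun p => sgn f p = σ).card := by
          intro σ
          refine Finset.card_le_card fun p hp => ?_
          rw [Finset.mem_filter] at hp ⊢
          exact ⟨hp.1, hp.2.2⟩
        refine (Finset.sum_le_sum fun σ _ => h4 σ).trans (le_of_eq ?_)
        exact (Finset.card_eq_sum_card_fiberwise (f := sgn f) (s := P) (t := Finset.univ)
          (fun _ _ => by simp)).symm
      exact_mod_cast h3
    have h3 : ∑ σ : Fin J → Prop, (((P.filter fun p => (∀ j, eval p (f j) ≠ 0) ∧ sgn f p = σ).card : ℝ)) ^ k ≤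
        (k : ℝ) ^ k * (8 * P.card * ((P.card : ℝ) / μ ^ J + 3) ^ (k - 1)) + (k : ℝ) ^ k * P.card := by
      refine (Finset.sum_le_sum fun σ _ => h1 σ).trans ?_
      rw [Finset.sum_add_distrib, ← Finset.mul_sum, ← Finset.mul_sum]
      exact add_le_add (mul_le_mul_of_nonneg_left hΦ (by positivity)) (mul_le_mul_of_nonneg_left h2 (by positivity))
    refine h3.trans ?_
    have h4 : (P.card : ℝ) / μ ^ J + 3 ≤ 3 * ((P.card : ℝ) / N + 1) := by
      have h5 : (N : ℝ) ≤ 2 * μ ^ J := by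
        rw [pow_succ] at hJ2
        have h6 : μ ^ J * μ ≤ μ ^ J * 2 := mul_le_mul_of_nonneg_left hμ2 (by positivity)
        linarith
      have h6 : (P.card : ℝ) / μ ^ J ≤ 2 * ((P.card : ℝ) / N) := by
        rw [div_le_iff₀ (by positivity)]
        have h7 : 2 * ((P.card : ℝ) / N) * μ ^ J = (P.card : ℝ) * (2 * μ ^ J / N) := by
          field_simp
        rw [h7]
        have h8 : 1 ≤ 2 * μ ^ J / N := by
          rw [le_div_iff₀ hN0]
          linarith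
        exact le_mul_of_one_le_right hm0 h8
      have h7 : 0 ≤ (P.card : ℝ) / N := by positivity
      linarith
    have h5 : ((P.card : ℝ) / μ ^ J + 3) ^ (k - 1) ≤ 3 ^ (k - 1) * ((P.card : ℝ) / N + 1) ^ (k - 1) := by
      rw [← mul_pow]
      exact pow_le_pow_left₀ (by positivity) h4 _
    have h6 : (1 : ℝ) ≤ ((P.card : ℝ) / N + 1) ^ (k - 1) := by
      apply one_le_pow₀
      have h7 : 0 ≤ (P.card : ℝ) / N := by positivity
      linarith
    set R := ((P.card : ℝ) / N + 1) ^ (k - 1) with hR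
    have h7 : (k : ℝ) ^ k * (8 * P.card * ((P.card : ℝ) / μ ^ J + 3) ^ (k - 1)) ≤
        (k : ℝ) ^ k * (8 * P.card * (3 ^ (k - 1) * R)) := by
      gcongr
    have h8 : (k : ℝ) ^ k * P.card ≤ (k : ℝ) ^ k * (P.card * R) := by
      have h9 : (P.card : ℝ) ≤ P.card * R := le_mul_of_one_le_right hm0 h6
      gcongr
    refine (add_le_add h7 h8).trans (le_of_eq ?_)
    push_cast
    ring

end D4Q
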