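import Mathlib
import Pool.Agent.D4Q.PtI
import Pool.Agent.D4Q.MdD

/-!
# D4Q-Pt0: polynomial partitioning of space

PROOF. `W n` = polynomials of degree `≤ t_n`, `t_n` minimal with `dD t_n ≥ n` (`finrank_V`), so `t_n ^ 4 ≤ 24 n` or similar
(`(t+4 choose 4) ≥ (t+1)^4/24`). `ptI`, and `∑_j t_{n_j} ≤ ∑_j (24 A N lam^{-(J-j)})^{1/4} ≤ A' N^{1/4}` (geometric series).
-/

namespace D4Q

open MvPolynomial

private theorem pt0_choose (s : ℕ) :
    24 * (s + 4).choose 4 = (s + 4) * ((s + 3) * ((s + 2) * (s + 1))) := by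
  have h := Nat.descFactorial_eq_factorial_mul_choose (s + 4) 4
  have h2 : (s + 4).descFactorial 4 = (s + 4) * ((s + 3) * ((s + 2) * (s + 1))) := by
    simp only [Nat.descFactorial]
    have e1 : s + 4 - 0 = s + 4 := by omega
    have e2 : s + 4 - 1 = s + 3 := by omega
    have e3 : s + 4 - 2 = s + 2 := by omega
    have e4 : s + 4 - 3 = s + 1 := by omega
    rw [e1, e2, e3, e4]
    ring
  have h3 : Nat.factorial 4 = 24 := rfl
  rw [← h2, h, h3]

private theorem pt0_dD (t : ℕ) : dD (t : ℤ) = (t + 4).choose 4 := by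
  have h : ¬ ((t : ℤ) < 0) := by omega
  simp only [dD, if_neg h, Int.toNat_natCast]

private theorem pt0_deg (n : ℕ) : ∃ t : ℕ, n ≤ dD t ∧ t ^ 4 ≤ 24 * n := by
  have hex : ∃ t : ℕ, n ≤ dD t := by
    refine ⟨n, ?_⟩
    rw [pt0_dD]
    have h := pt0_choose n
    have h1 : 24 * (n + 1) ≤ (n + 4) * ((n + 3) * ((n + 2) * (n + 1))) := by
      have h2 : 4 * (3 * (2 * (n + 1))) ≤ (n + 4) * ((n + 3) * ((n + 2) * (n + 1))) :=
        Nat.mul_le_mul (by omega) (Nat.mul_le_mul (by omega)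
          (Nat.mul_le_mul (by omega) (le_refl _)))
      omega
    omega
  classical
  refine ⟨Nat.find hex, Nat.find_spec hex, ?_⟩
  rcases Nat.eq_zero_or_pos (Nat.find hex) with h0 | h0
  · rw [h0]
    simp
  · obtain ⟨s, hs⟩ : ∃ s, Nat.find hex = s + 1 := ⟨Nat.find hex - 1, by omega⟩
    have h1 : ¬ n ≤ dD (s : ℤ) := Nat.find_min hex (m := s) (by omega)
    rw [pt0_dD] at h1
    have h2 := pt0_choose s
    rw [hs]
    have h3 : (s + 1) ^ 4 ≤ (s + 4) * ((s + 3) * ((s + 2) * (s + 1))) := by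
      have h4 : (s + 1) ^ 4 = (s + 1) * ((s + 1) * ((s + 1) * (s + 1))) := by ring
      rw [h4]
      exact Nat.mul_le_mul (by omega) (Nat.mul_le_mul (by omega)
          (Nat.mul_le_mul (by omega) (le_refl _)))
    omega

private theorem pt0_geom (μ : ℝ) (J : ℕ) :
    (∑ j : Fin J, μ ^ (J - (j : ℕ))) * (1 - μ) = μ - μ ^ (J + 1) := by
  induction J with
  | zero => simp
  | succ J ih =>
    rw [Fin.sum_univ_succ, add_mul]
    have h : ∀ i : Fin J, μ ^ (J + 1 - ((Fin.succ i : Fin (J + 1)) : ℕ)) = μ ^ (J - (i : ℕ)) := by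
      intro i
      have e : J + 1 - ((Fin.succ i : Fin (J + 1)) : ℕ) = J - (i : ℕ) := by
        rw [Fin.val_succ]
        omega
      rw [e]
    rw [Finset.sum_congr rfl fun i _ => h i, ih]
    have e0 : J + 1 - ((0 : Fin (J + 1)) : ℕ) = J + 1 := by simp
    rw [e0]
    ring

private theorem pt0_root (x : ℝ) (hx : 0 ≤ x) : 0 ≤ √(√x) ∧ √(√x) ^ 4 = x := by
  refine ⟨Real.sqrt_nonneg _, ?_⟩
  have h1 : √(√x) ^ 4 = (√(√x) ^ 2) ^ 2 := by ring
  rw [h1, Real.sq_sqrt (Real.sqrt_nonneg _), Real.sq_sqrt hx]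

open scoped Classical in
theorem pt0 (k : ℕ) (hk : 2 ≤ k) : ∃ A : ℕ, 0 < A ∧ ∀ (P : Finset (Fin 4 → ℝ)) (N : ℕ), 1 ≤ N →
    ∃ (J : ℕ) (f : Fin J → MvPolynomial (Fin 4) ℝ), (∀ j, f j ≠ 0) ∧
      (∑ j, (f j).totalDegree) ^ 4 ≤ A * N ∧
      ∑ σ : Fin J → Prop, (((P.filter fun p => (∀ j, eval p (f j) ≠ 0) ∧ sgn f p = σ).card : ℝ)) ^ k
        ≤ A * P.card * ((P.card : ℝ) / N + 1) ^ (k - 1) := by
  obtain ⟨A0, lam, hA0, hlam, H⟩ := ptI k hk
  have hlam0 : 0 < lam := by linarith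
  obtain ⟨hμ0, hμ4⟩ := pt0_root (1 / lam) (by positivity)
  set μ : ℝ := √(√(1 / lam)) with hμ
  have hμ1 : μ < 1 := by
    by_contra h
    have h1 : (1 : ℝ) ≤ μ ^ 4 := one_le_pow₀ (not_lt.1 h)
    rw [hμ4, le_div_iff₀ hlam0] at h1
    linarith
  have h1μ : 0 < 1 - μ := by linarith
  choose t ht1 ht2 using pt0_deg
  refine ⟨A0 + ⌈24 * (A0 : ℝ) / (1 - μ) ^ 4⌉₊, by omega, fun P N hN => ?_⟩
  obtain ⟨J, n, f, h1, h2, h3⟩ := H (fun n => restrictTotalDegree (Fin 4) ℝ (t n))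
    (fun n => by rw [finrank_V]; exact ht1 n) P N hN
  refine ⟨J, f, fun j => (h1 j).2.1, ?_, ?_⟩
  · obtain ⟨hc0, hc4⟩ := pt0_root (24 * (A0 * N)) (by positivity)
    set c : ℝ := √(√(24 * (A0 * N))) with hc
    have hd : ∀ j : Fin J, ((f j).totalDegree : ℝ) ≤ c * μ ^ (J - (j : ℕ)) := by
      intro j
      have e1 : (f j).totalDegree ≤ t (n j) := by
        have := (h1 j).1
        rwa [mem_restrictTotalDegree] at this
      have e2 : ((f j).totalDegree) ^ 4 ≤ 24 * n j :=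
        (Nat.pow_le_pow_left e1 4).trans (ht2 (n j))
      have e3 : (((f j).totalDegree : ℝ)) ^ 4 ≤ 24 * n j := by exact_mod_cast e2
      have e4 : (c * μ ^ (J - (j : ℕ))) ^ 4 = 24 * (A0 * N) * (1 / lam ^ (J - (j : ℕ))) := by
        rw [mul_pow, hc4, ← pow_mul, mul_comm (J - (j : ℕ)) 4, pow_mul, hμ4, div_pow, one_pow]
      have e5 : (n j : ℝ) ≤ A0 * N * (1 / lam ^ (J - (j : ℕ))) := by
        rw [mul_one_div, le_div_iff₀ (by positivity)]
        exact h2 j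
      have e6 : (((f j).totalDegree : ℝ)) ^ 4 ≤ (c * μ ^ (J - (j : ℕ))) ^ 4 := by
        rw [e4]
        linarith
      exact (pow_le_pow_iff_left₀ (by positivity) (by positivity) (by norm_num)).1 e6
    have hsum : (∑ j, ((f j).totalDegree : ℝ)) ≤ c * ∑ j : Fin J, μ ^ (J - (j : ℕ)) := by
      rw [Finset.mul_sum]
      exact Finset.sum_le_sum fun j _ => hd j
    have hg := pt0_geom μ J
    have hg1 : (∑ j : Fin J, μ ^ (J - (j : ℕ))) * (1 - μ) ≤ 1 := by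
      rw [hg]
      have : 0 ≤ μ ^ (J + 1) := by positivity
      linarith
    have hs1 : (∑ j, ((f j).totalDegree : ℝ)) * (1 - μ) ≤ c := by
      calc (∑ j, ((f j).totalDegree : ℝ)) * (1 - μ)
          ≤ (c * ∑ j : Fin J, μ ^ (J - (j : ℕ))) * (1 - μ) :=
            mul_le_mul_of_nonneg_right hsum h1μ.le
        _ = c * ((∑ j : Fin J, μ ^ (J - (j : ℕ))) * (1 - μ)) := by ring
        _ ≤ c * 1 := mul_le_mul_of_nonneg_left hg1 hc0
        _ = c := mul_one c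
    have hs0 : 0 ≤ ∑ j, ((f j).totalDegree : ℝ) := Finset.sum_nonneg fun j _ => by positivity
    have hs4 : (∑ j, ((f j).totalDegree : ℝ)) ^ 4 * (1 - μ) ^ 4 ≤ 24 * (A0 * N) := by
      rw [← mul_pow, ← hc4]
      exact pow_le_pow_left₀ (by positivity) hs1 4
    have hs5 : (∑ j, ((f j).totalDegree : ℝ)) ^ 4 ≤ 24 * (A0 : ℝ) / (1 - μ) ^ 4 * N := by
      rw [div_mul_eq_mul_div, le_div_iff₀ (by positivity)]
      linarith
    have hs6 : (∑ j, ((f j).totalDegree : ℝ)) ^ 4 ≤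
        ((A0 : ℝ) + ⌈24 * (A0 : ℝ) / (1 - μ) ^ 4⌉₊) * N := by
      refine hs5.trans (mul_le_mul_of_nonneg_right ?_ (by positivity))
      have := Nat.le_ceil (24 * (A0 : ℝ) / (1 - μ) ^ 4)
      have h7 : (0 : ℝ) ≤ A0 := by positivity
      linarith
    exact_mod_cast hs6
  · refine h3.trans ?_
    refine mul_le_mul_of_nonneg_right ?_ (by positivity)
    refine mul_le_mul_of_nonneg_right ?_ (by positivity)
    push_cast
    have : (0 : ℝ) ≤ (⌈24 * (A0 : ℝ) / (1 - μ) ^ 4⌉₊ : ℝ) := by positivity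
    linarith

end D4Q
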