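import Mathlib
import Pool.Agent.D4Q.PtI
import Pool.Agent.D4Q.MdD

/-!
# D4Q-PtH: polynomial partitioning modulo a hypersurface

The iteration `ptI` is applied to complements `U t` of the spaces of multiples of `h` in the spaces of polynomials of degree at most
`t`; their dimensions are bounded from below by `dd_lower`, and the degrees are summed as a geometric series.
-/

namespace D4Q

open MvPolynomial

private theorem ptH_geom (μ : ℝ) (J : ℕ) :
    (∑ j : Fin J, μ ^ (J - (j : ℕ))) * (1 - μ) = μ - μ ^ (J + 1) := by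
  induction J with
  | zero => simp
  | succ J ih =>
    rw [Fin.sum_univ_succ, add_mul]
    have h : ∀ i : Fin J, μ ^ (J + 1 - ((Fin.succ i : Fin (J + 1)) : ℕ)) = μ ^ (J - (i : ℕ)) := by
      intro i
      have e : J + 1 - ((Fin.succ i : Fin (J + 1)) : ℕ) = J - (i : ℕ) := by
        rw [Fin.val_succ]
        omega
      rw [e]
    rw [Finset.sum_congr rfl fun i _ => h i, ih]
    have e0 : J + 1 - ((0 : Fin (J + 1)) : ℕ) = J + 1 := by simp
    rw [e0]
    ring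

private theorem ptH_deg {h : MvPolynomial (Fin 4) ℝ} (hh : Irreducible h) : 1 ≤ h.totalDegree := by
  by_contra hc
  have h0 : h.totalDegree = 0 := by omega
  rw [totalDegree_eq_zero_iff_eq_C] at h0
  have h1 : coeff 0 h ≠ 0 := by
    intro h2
    rw [h2, C_0] at h0
    exact hh.ne_zero h0
  refine hh.not_isUnit ?_
  rw [h0]
  exact (isUnit_iff_ne_zero.mpr h1).map C

/-- a complement of the multiples of `h` in the space of polynomials of degree at most `t` -/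
private theorem ptH_compl (h : MvPolynomial (Fin 4) ℝ) (hh : h ≠ 0) (t : ℕ) :
    ∃ U : Submodule ℝ (MvPolynomial (Fin 4) ℝ), U ≤ restrictTotalDegree (Fin 4) ℝ t ∧
      (∀ f ∈ U, f ≠ 0 → ¬ h ∣ f) ∧
      Module.finrank ℝ U + dD ((t : ℤ) - h.totalDegree) = dD t := by
  have hfin : Module.Finite ℝ (restrictTotalDegree (Fin 4) ℝ t) := by
    apply Module.finite_of_finrank_pos
    rw [finrank_V]
    unfold dD
    rw [if_neg (by omega)]
    exact Nat.choose_pos (by omega)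
  have hm : mulV h t ≤ restrictTotalDegree (Fin 4) ℝ t := inf_le_left
  obtain ⟨C0, hC0⟩ := Submodule.exists_isCompl
    ((mulV h t).comap (restrictTotalDegree (Fin 4) ℝ t).subtype)
  refine ⟨C0.map (restrictTotalDegree (Fin 4) ℝ t).subtype, Submodule.map_subtype_le _ _, ?_, ?_⟩
  · rintro f ⟨g, hg, rfl⟩ hf hd
    apply hf
    have h1 : g ∈ (mulV h t).comap (restrictTotalDegree (Fin 4) ℝ t).subtype := by
      refine ⟨g.2, ?_⟩
      exact Ideal.mem_span_singleton.mpr hd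
    have h2 := Submodule.disjoint_def.mp hC0.disjoint g h1 hg
    rw [h2]
    exact map_zero _
  · have h1 := Submodule.finrank_add_eq_of_isCompl hC0
    rw [(Submodule.comapSubtypeEquivOfLe hm).finrank_eq, finrank_mulV h hh, finrank_V] at h1
    have h2 : Module.finrank ℝ (C0.map (restrictTotalDegree (Fin 4) ℝ t).subtype) =
        Module.finrank ℝ C0 :=
      (Submodule.equivMapOfInjective _ (Submodule.injective_subtype _) C0).finrank_eq.symm
    rw [h2]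
    omega

open scoped Classical in
theorem ptH (k : ℕ) (hk : 2 ≤ k) : ∃ A : ℕ, 0 < A ∧ ∀ (h : MvPolynomial (Fin 4) ℝ),
    Irreducible h → ∀ (P : Finset (Fin 4 → ℝ)) (N : ℕ), 1 ≤ N →
    ∃ (J : ℕ) (f : Fin J → MvPolynomial (Fin 4) ℝ), (∀ j, ¬ h ∣ f j) ∧
      ((∑ j, (f j).totalDegree) ^ 4 ≤ A * N ∨
        h.totalDegree * (∑ j, (f j).totalDegree) ^ 3 ≤ A * N) ∧
      ∑ σ : Fin J → Prop, (((P.filter fun p => (∀ j, eval p (f j) ≠ 0) ∧ sgn f p = σ).card : ℝ)) ^ k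
        ≤ A * P.card * ((P.card : ℝ) / N + 1) ^ (k - 1) := by
  obtain ⟨A0, lam, hA0, hlam, H⟩ := ptI k hk
  obtain ⟨c0, hc0, hlow⟩ := dd_lower
  have hlam0 : 0 < lam := by linarith
  set μ : ℝ := (lam⁻¹) ^ (((4 : ℕ) : ℝ)⁻¹) with hμ
  have hμ4 : μ ^ 4 = lam⁻¹ := Real.rpow_inv_natCast_pow (by positivity) (by norm_num)
  have hμ0 : 0 ≤ μ := Real.rpow_nonneg (by positivity) _
  have hμ1 : μ < 1 := by
    by_contra h
    have h1 : (1 : ℝ) ≤ μ ^ 4 := one_le_pow₀ (not_lt.1 h)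
    rw [hμ4] at h1
    have h2 := inv_lt_one_of_one_lt₀ hlam
    linarith
  have h1μ : 0 < 1 - μ := by linarith
  refine ⟨A0 + ⌈16 * ((c0 : ℝ) * A0) / (1 - μ) ^ 4⌉₊ + ⌈8 * ((c0 : ℝ) * A0) / (1 - μ) ^ 3⌉₊, by omega,
    fun h hirr P N hN => ?_⟩
  have hδ := ptH_deg hirr
  set δ := h.totalDegree with hδd
  choose U hU1 hU2 hU3 using ptH_compl h hirr.ne_zero
  have hlow' : ∀ t : ℕ, min ((t + 1) ^ 4) (δ * (t + 1) ^ 3) ≤ c0 * Module.finrank ℝ (U t) := by
    intro t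
    have h1 := hlow t δ hδ
    have h2 := hU3 t
    rw [← h2, mul_add, ← hδd] at h1
    omega
  have hex : ∀ n : ℕ, ∃ t : ℕ, n ≤ Module.finrank ℝ (U t) := by
    intro n
    refine ⟨c0 * n, ?_⟩
    have h1 := hlow' (c0 * n)
    have h2 : c0 * n + 1 ≤ min ((c0 * n + 1) ^ 4) (δ * (c0 * n + 1) ^ 3) := by
      refine le_min (Nat.le_self_pow (by norm_num) _) ?_
      calc c0 * n + 1 ≤ (c0 * n + 1) ^ 3 := Nat.le_self_pow (by norm_num) _
        _ = 1 * (c0 * n + 1) ^ 3 := (one_mul _).symm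
        _ ≤ δ * (c0 * n + 1) ^ 3 := Nat.mul_le_mul_right _ hδ
    by_contra hc
    have h3 : c0 * Module.finrank ℝ (U (c0 * n)) ≤ c0 * n := Nat.mul_le_mul_left _ (by omega)
    omega
  have hdeg : ∀ n : ℕ, ∃ t : ℕ, n ≤ Module.finrank ℝ (U t) ∧ (t ^ 4 ≤ c0 * n ∨ δ * t ^ 3 ≤ c0 * n) := by
    intro n
    refine ⟨Nat.find (hex n), Nat.find_spec (hex n), ?_⟩
    rcases Nat.eq_zero_or_pos (Nat.find (hex n)) with h0 | h0
    · left
      rw [h0]
      simp
    · obtain ⟨s, hs⟩ : ∃ s, Nat.find (hex n) = s + 1 := ⟨Nat.find (hex n) - 1, by omega⟩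
      have h1 : ¬ n ≤ Module.finrank ℝ (U s) := Nat.find_min (hex n) (m := s) (by omega)
      have h2 := hlow' s
      have h3 : c0 * Module.finrank ℝ (U s) ≤ c0 * n := Nat.mul_le_mul_left _ (by omega)
      rw [hs]
      rcases min_le_iff.mp (h2.trans h3) with h4 | h4
      · exact Or.inl h4
      · exact Or.inr h4
  choose t ht1 ht2 using hdeg
  obtain ⟨J, n, f, h1, h2, h3⟩ := H (fun n => U (t n)) ht1 P N hN
  refine ⟨J, f, fun j => hU2 _ _ (h1 j).1 (h1 j).2.1, ?_, ?_⟩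
  · have hδ0 : (0 : ℝ) < δ := by exact_mod_cast hδ
    set M : ℝ := (c0 : ℝ) * (A0 * N) with hM
    have hM0 : 0 ≤ M := by positivity
    set x4 : ℝ := M ^ (((4 : ℕ) : ℝ)⁻¹) with hx4
    set x3 : ℝ := (M / δ) ^ (((3 : ℕ) : ℝ)⁻¹) with hx3
    have e4 : x4 ^ 4 = M := Real.rpow_inv_natCast_pow hM0 (by norm_num)
    have e3 : x3 ^ 3 = M / δ := Real.rpow_inv_natCast_pow (by positivity) (by norm_num)
    have p4 : 0 ≤ x4 := Real.rpow_nonneg hM0 _
    have p3 : 0 ≤ x3 := Real.rpow_nonneg (by positivity) _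
    have hd : ∀ j : Fin J, ((f j).totalDegree : ℝ) ≤ max x4 x3 * μ ^ (J - (j : ℕ)) := by
      intro j
      have g1 : (f j).totalDegree ≤ t (n j) :=
        (mem_restrictTotalDegree _ _ _).mp (hU1 _ (h1 j).1)
      have g1' : ((f j).totalDegree : ℝ) ≤ t (n j) := by exact_mod_cast g1
      refine g1'.trans ?_
      have g2 : (c0 : ℝ) * n j ≤ M * (μ ^ (J - (j : ℕ))) ^ 4 := by
        have g3 : (n j : ℝ) ≤ A0 * N * (lam ^ (J - (j : ℕ)))⁻¹ := by
          rw [← div_eq_mul_inv, le_div_iff₀ (by positivity)]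
          exact h2 j
        have g4 : (μ ^ (J - (j : ℕ))) ^ 4 = (lam ^ (J - (j : ℕ)))⁻¹ := by
          rw [← pow_mul, mul_comm (J - (j : ℕ)) 4, pow_mul, hμ4, inv_pow]
        rw [g4, hM, mul_assoc (c0 : ℝ)]
        exact mul_le_mul_of_nonneg_left g3 (by positivity)
      have gμ0 : 0 ≤ μ ^ (J - (j : ℕ)) := by positivity
      have gμ1 : μ ^ (J - (j : ℕ)) ≤ 1 := pow_le_one₀ hμ0 hμ1.le
      rcases ht2 (n j) with g5 | g5
      · have g6 : ((t (n j) : ℝ)) ^ 4 ≤ c0 * n j := by exact_mod_cast g5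
        have g7 : ((t (n j) : ℝ)) ^ 4 ≤ (x4 * μ ^ (J - (j : ℕ))) ^ 4 := by
          rw [mul_pow, e4]
          exact g6.trans g2
        have g8 := (pow_le_pow_iff_left₀ (by positivity) (by positivity) (by norm_num)).1 g7
        exact g8.trans (mul_le_mul_of_nonneg_right (le_max_left _ _) gμ0)
      · have g6 : (δ : ℝ) * ((t (n j) : ℝ)) ^ 3 ≤ c0 * n j := by exact_mod_cast g5
        have g7 : ((t (n j) : ℝ)) ^ 3 ≤ (x3 * μ ^ (J - (j : ℕ))) ^ 3 := by
          rw [mul_pow, e3, div_mul_eq_mul_div, le_div_iff₀ hδ0]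
          have g9 : (μ ^ (J - (j : ℕ))) ^ 4 ≤ (μ ^ (J - (j : ℕ))) ^ 3 :=
            pow_le_pow_of_le_one gμ0 gμ1 (by norm_num)
          have g10 := mul_le_mul_of_nonneg_left g9 hM0
          linarith
        have g8 := (pow_le_pow_iff_left₀ (by positivity) (by positivity) (by norm_num)).1 g7
        exact g8.trans (mul_le_mul_of_nonneg_right (le_max_right _ _) gμ0)
    have hmax : 0 ≤ max x4 x3 := p4.trans (le_max_left _ _)
    have hsum : (∑ j, ((f j).totalDegree : ℝ)) ≤ max x4 x3 * ∑ j : Fin J, μ ^ (J - (j : ℕ)) := by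
      rw [Finset.mul_sum]
      exact Finset.sum_le_sum fun j _ => hd j
    have hg := ptH_geom μ J
    have hg1 : (∑ j : Fin J, μ ^ (J - (j : ℕ))) * (1 - μ) ≤ 1 := by
      rw [hg]
      have : 0 ≤ μ ^ (J + 1) := by positivity
      linarith
    have hs1 : (∑ j, ((f j).totalDegree : ℝ)) * (1 - μ) ≤ max x4 x3 := by
      calc (∑ j, ((f j).totalDegree : ℝ)) * (1 - μ)
          ≤ (max x4 x3 * ∑ j : Fin J, μ ^ (J - (j : ℕ))) * (1 - μ) :=
            mul_le_mul_of_nonneg_right hsum h1μ.le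
        _ = max x4 x3 * ((∑ j : Fin J, μ ^ (J - (j : ℕ))) * (1 - μ)) := by ring
        _ ≤ max x4 x3 * 1 := mul_le_mul_of_nonneg_left hg1 hmax
        _ = max x4 x3 := mul_one _
    have hs0 : 0 ≤ ∑ j, ((f j).totalDegree : ℝ) := Finset.sum_nonneg fun j _ => by positivity
    have k4 := Nat.le_ceil (16 * ((c0 : ℝ) * A0) / (1 - μ) ^ 4)
    have k3 := Nat.le_ceil (8 * ((c0 : ℝ) * A0) / (1 - μ) ^ 3)
    have kA : (0 : ℝ) ≤ A0 := by positivity
    have kc4 : (0 : ℝ) ≤ (⌈16 * ((c0 : ℝ) * A0) / (1 - μ) ^ 4⌉₊ : ℝ) := by positivity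
    have kc3 : (0 : ℝ) ≤ (⌈8 * ((c0 : ℝ) * A0) / (1 - μ) ^ 3⌉₊ : ℝ) := by positivity
    rcases le_total x3 x4 with hx | hx
    · left
      rw [max_eq_left hx] at hs1
      have hs4 : (∑ j, ((f j).totalDegree : ℝ)) ^ 4 * (1 - μ) ^ 4 ≤ M := by
        rw [← mul_pow, ← e4]
        exact pow_le_pow_left₀ (by positivity) hs1 4
      have hs5 : (∑ j, ((f j).totalDegree : ℝ)) ^ 4 ≤ 16 * ((c0 : ℝ) * A0) / (1 - μ) ^ 4 * N := by
        rw [div_mul_eq_mul_div, le_div_iff₀ (by positivity)]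
        have : 0 ≤ (c0 : ℝ) * A0 * N := by positivity
        rw [hM] at hs4
        linarith
      have hs6 : (∑ j, ((f j).totalDegree : ℝ)) ^ 4 ≤
          ((A0 : ℝ) + ⌈16 * ((c0 : ℝ) * A0) / (1 - μ) ^ 4⌉₊ + ⌈8 * ((c0 : ℝ) * A0) / (1 - μ) ^ 3⌉₊) * N := by
        refine hs5.trans (mul_le_mul_of_nonneg_right ?_ (by positivity))
        linarith
      exact_mod_cast hs6
    · right
      rw [max_eq_right hx] at hs1
      have hs4 : (∑ j, ((f j).totalDegree : ℝ)) ^ 3 * (1 - μ) ^ 3 ≤ M / δ := by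
        rw [← mul_pow, ← e3]
        exact pow_le_pow_left₀ (by positivity) hs1 3
      rw [le_div_iff₀ hδ0] at hs4
      have hs5 : (δ : ℝ) * (∑ j, ((f j).totalDegree : ℝ)) ^ 3 ≤ 8 * ((c0 : ℝ) * A0) / (1 - μ) ^ 3 * N := by
        rw [div_mul_eq_mul_div, le_div_iff₀ (by positivity)]
        have : 0 ≤ (c0 : ℝ) * A0 * N := by positivity
        rw [hM] at hs4
        linarith
      have hs6 : (δ : ℝ) * (∑ j, ((f j).totalDegree : ℝ)) ^ 3 ≤
          ((A0 : ℝ) + ⌈16 * ((c0 : ℝ) * A0) / (1 - μ) ^ 4⌉₊ + ⌈8 * ((c0 : ℝ) * A0) / (1 - μ) ^ 3⌉₊) * N := by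
        refine hs5.trans (mul_le_mul_of_nonneg_right ?_ (by positivity))
        linarith
      exact_mod_cast hs6
  · refine h3.trans ?_
    refine mul_le_mul_of_nonneg_right ?_ (by positivity)
    refine mul_le_mul_of_nonneg_right ?_ (by positivity)
    push_cast
    have k4 : (0 : ℝ) ≤ (⌈16 * ((c0 : ℝ) * A0) / (1 - μ) ^ 4⌉₊ : ℝ) := by positivity
    have k3 : (0 : ℝ) ≤ (⌈8 * ((c0 : ℝ) * A0) / (1 - μ) ^ 3⌉₊ : ℝ) := by positivity
    linarith

end D4Q
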