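import Mathlib
import Pool.Agent.D4Q.Frame_D
import Pool.Agent.D4Q.PT

/-!
# D4Q-FrameP: the partition data of the levels 0 and 1

`pt0` for `P` with about `t ^ 4` cells (level 0); the irreducible factors `h i` of the product of its polynomials (`fr_factors`); `ptH`
for each `h i` and the points whose first vanishing factor is `h i`, with a number of cells proportional to the number of these
points (level 1). The bounds on the degrees and on the cells are summed over `i`.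
-/

namespace D4Q

open MvPolynomial

/-- irreducible polynomials are not constant -/
theorem fr_irr {h : MvPolynomial (Fin 4) ℝ} (hh : Irreducible h) : 1 ≤ h.totalDegree := by
  by_contra hc
  have h0 : h.totalDegree = 0 := by omega
  rw [totalDegree_eq_zero_iff_eq_C] at h0
  have h1 : coeff 0 h ≠ 0 := by
    intro h2
    rw [h2, C_0] at h0
    exact hh.ne_zero h0
  refine hh.not_isUnit ?_
  rw [h0]
  exact (isUnit_iff_ne_zero.mpr h1).map C

theorem fr_factors (f : MvPolynomial (Fin 4) ℝ) (hf : f ≠ 0) :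
    ∃ (q : ℕ) (h : Fin q → MvPolynomial (Fin 4) ℝ), (∀ i, Irreducible (h i)) ∧
      ∑ i, (h i).totalDegree ≤ f.totalDegree ∧ ∀ p, eval p f = 0 → ∃ i, eval p (h i) = 0 := by
  induction f using WfDvdMonoid.induction_on_irreducible with
  | zero => exact absurd rfl hf
  | unit u hu =>
    refine ⟨0, Fin.elim0, fun i => i.elim0, by simp, fun p hp => ?_⟩
    have h1 : IsUnit (eval p u) := hu.map (eval p)
    rw [hp] at h1
    exact absurd h1 (by simp)
  | mul a i ha hi ih =>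
    obtain ⟨q, h, h1, h2, h3⟩ := ih ha
    refine ⟨q + 1, Fin.cons i h, fun j => ?_, ?_, fun p hp => ?_⟩
    · refine Fin.cases ?_ (fun j => ?_) j
      · rw [Fin.cons_zero]; exact hi
      · rw [Fin.cons_succ]; exact h1 j
    · rw [Fin.sum_univ_succ, Fin.cons_zero, totalDegree_mul_of_isDomain hi.ne_zero ha]
      refine Nat.add_le_add_left (le_trans (le_of_eq ?_) h2) _
      exact Finset.sum_congr rfl fun j _ => by rw [Fin.cons_succ]
    · rw [map_mul] at hp
      rcases mul_eq_zero.mp hp with hp | hp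
      · exact ⟨0, by rw [Fin.cons_zero]; exact hp⟩
      · obtain ⟨j, hj⟩ := h3 p hp
        exact ⟨j.succ, by rw [Fin.cons_succ]; exact hj⟩

private theorem frP_root {E A N : ℕ} {t : ℝ} (ht : 1 ≤ t) (hA : 0 < A) (hN : (N : ℝ) ≤ 2 * t ^ 4)
    (h : E ^ 4 ≤ A * N) : (E : ℝ) ≤ 2 * A * t := by
  have hA' : (1 : ℝ) ≤ A := by exact_mod_cast hA
  have h1 : (E : ℝ) ^ 4 ≤ A * N := by exact_mod_cast h
  have h2 : (2 * A * t : ℝ) ^ 4 = (2 * A : ℝ) ^ 4 * t ^ 4 := by rw [mul_pow]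
  have h3 : (2 * A : ℝ) ≤ (2 * A : ℝ) ^ 4 := le_self_pow₀ (by linarith) (by norm_num)
  have ht4 : 0 ≤ t ^ 4 := by positivity
  have h4 : (E : ℝ) ^ 4 ≤ (2 * A * t) ^ 4 := by
    rw [h2]
    calc (E : ℝ) ^ 4 ≤ A * N := h1
      _ ≤ A * (2 * t ^ 4) := mul_le_mul_of_nonneg_left hN (by positivity)
      _ = 2 * A * t ^ 4 := by ring
      _ ≤ (2 * A : ℝ) ^ 4 * t ^ 4 := mul_le_mul_of_nonneg_right h3 ht4
  exact (pow_le_pow_iff_left₀ (by positivity) (by positivity) (by norm_num)).1 h4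

private theorem frP_cell {m N T : ℝ} {k A : ℕ} (hm0 : 0 ≤ m) (hT : 0 < T) {M : ℝ} (hM : T ≤ M)
    (h : m / N ≤ M / T) {X : ℝ} (hX : X ≤ A * m * (m / N + 1) ^ (k - 1)) (hN : 0 ≤ m / N) :
    X ≤ A * 2 ^ (k - 1) * (m * (M / T) ^ (k - 1)) := by
  have h1 : 1 ≤ M / T := by rwa [one_le_div hT]
  have h2 : (m / N + 1) ^ (k - 1) ≤ (2 * (M / T)) ^ (k - 1) :=
    pow_le_pow_left₀ (by linarith) (by linarith) _
  calc X ≤ A * m * (m / N + 1) ^ (k - 1) := hX
    _ ≤ A * m * (2 * (M / T)) ^ (k - 1) := mul_le_mul_of_nonneg_left h2 (by positivity)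
    _ = A * 2 ^ (k - 1) * (m * (M / T) ^ (k - 1)) := by rw [mul_pow]; ring

open scoped Classical in
private theorem frP_disj (P : Finset (Fin 4 → ℝ)) {q : ℕ} (h : Fin q → MvPolynomial (Fin 4) ℝ) :
    ∑ i, (P.filter fun p => Lev h i p).card ≤ P.card := by
  rw [← Finset.card_biUnion]
  · exact Finset.card_le_card (Finset.biUnion_subset.mpr fun i _ => Finset.filter_subset _ _)
  · intro i _ j _ hij
    rw [Function.onFun, Finset.disjoint_left]
    intro p hp hp'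
    rw [Finset.mem_filter] at hp hp'
    rcases lt_or_gt_of_ne hij with h1 | h1
    · exact hp'.2.2 i h1 hp.2.1
    · exact hp.2.2 j h1 hp'.2.1

theorem exists_PD (k : ℕ) (hk : 2 ≤ k) : ∃ A : ℕ, ∀ (P : Finset (Fin 4 → ℝ)) (t : ℝ), 1 ≤ t →
    t ^ 4 ≤ P.card → Nonempty (PD k A P t) := by
  classical
  obtain ⟨A0, hA0, H0⟩ := pt0 k hk
  obtain ⟨A1, hA1, H1⟩ := ptH k hk
  set c : ℕ := 8 * A1 ^ 3 + A1 with hc
  refine ⟨2 * A0 + A0 * 2 ^ (k - 1) + A1 * 2 ^ (k - 1) + c * (4 * A0 + 1), fun P t ht hP => ?_⟩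
  have ht0 : 0 < t := by linarith
  have ht4 : 1 ≤ t ^ 4 := one_le_pow₀ ht
  have ht4' : 0 < t ^ 4 := by positivity
  have hm : (1 : ℝ) ≤ P.card := ht4.trans hP
  have hm0 : (0 : ℝ) < P.card := by linarith
  have rA0 : (0 : ℝ) ≤ A0 := by positivity
  have rA1 : (0 : ℝ) ≤ A1 := by positivity
  have rc : (0 : ℝ) ≤ c := by positivity
  have rk : (0 : ℝ) ≤ 2 ^ (k - 1) := by positivity
  have r1 : (0 : ℝ) ≤ (A0 : ℝ) * 2 ^ (k - 1) := by positivity
  have r2 : (0 : ℝ) ≤ (A1 : ℝ) * 2 ^ (k - 1) := by positivity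
  have r3 : (0 : ℝ) ≤ (c : ℝ) * (4 * A0 + 1) := by positivity
  obtain ⟨J, f, f1, f2, f3⟩ := H0 P (⌊t ^ 4⌋₊ + 1) (by omega)
  have hN1 : t ^ 4 ≤ ((⌊t ^ 4⌋₊ + 1 : ℕ) : ℝ) := by
    push_cast
    exact (Nat.lt_floor_add_one _).le
  have hN2 : ((⌊t ^ 4⌋₊ + 1 : ℕ) : ℝ) ≤ 2 * t ^ 4 := by
    push_cast
    have := Nat.floor_le ht4'.le
    linarith
  have hdf : ((∑ j, (f j).totalDegree : ℕ) : ℝ) ≤ 2 * A0 * t := frP_root ht hA0 hN2 f2
  obtain ⟨q, h, h1, h2, h3⟩ := fr_factors (∏ j, f j) (Finset.prod_ne_zero_iff.mpr fun j _ => f1 j)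
  have hdh : ((∑ i, (h i).totalDegree : ℕ) : ℝ) ≤ 2 * A0 * t := by
    have e1 : ∑ i, (h i).totalDegree ≤ ∑ j, (f j).totalDegree :=
      h2.trans (totalDegree_finsetProd _ _)
    have e2 : ((∑ i, (h i).totalDegree : ℕ) : ℝ) ≤ ((∑ j, (f j).totalDegree : ℕ) : ℝ) := by
      exact_mod_cast e1
    exact e2.trans hdf
  have hq : (q : ℝ) ≤ 2 * A0 * t := by
    have e1 : q ≤ ∑ i, (h i).totalDegree := by
      calc q = ∑ _i : Fin q, 1 := by simp
        _ ≤ _ := Finset.sum_le_sum fun i _ => fr_irr (h1 i)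
    have e2 : (q : ℝ) ≤ ((∑ i, (h i).totalDegree : ℕ) : ℝ) := by exact_mod_cast e1
    exact e2.trans hdh
  set Pi : Fin q → Finset (Fin 4 → ℝ) := fun i => P.filter fun p => Lev h i p with hPi
  have hdisj : ∑ i, ((Pi i).card : ℝ) ≤ P.card := by exact_mod_cast frP_disj P h
  have hPile : ∀ i, ((Pi i).card : ℝ) ≤ P.card := fun i => by
    exact_mod_cast Finset.card_le_card (Finset.filter_subset _ _)
  set N : Fin q → ℕ := fun i => ⌊t ^ 4 * (Pi i).card / P.card⌋₊ + 1 with hN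
  have n1 : ∀ i, t ^ 4 * (Pi i).card / P.card ≤ (N i : ℝ) := fun i => by
    rw [hN]
    push_cast
    exact (Nat.lt_floor_add_one _).le
  have n2 : ∀ i, (N i : ℝ) ≤ t ^ 4 * (Pi i).card / P.card + 1 := fun i => by
    rw [hN]
    push_cast
    have := Nat.floor_le (show (0 : ℝ) ≤ t ^ 4 * (Pi i).card / P.card by positivity)
    linarith
  have n3 : ∀ i, (N i : ℝ) ≤ 2 * t ^ 4 := fun i => by
    have e1 : t ^ 4 * (Pi i).card / P.card ≤ t ^ 4 := by
      rw [div_le_iff₀ hm0]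
      exact mul_le_mul_of_nonneg_left (hPile i) ht4'.le
    linarith [n2 i]
  have n0 : ∀ i, (0 : ℝ) < N i := fun i => by
    rw [hN]
    positivity
  have n4 : ∑ i, (N i : ℝ) ≤ (1 + 2 * A0) * t ^ 4 := by
    have e1 : ∑ i, (N i : ℝ) ≤ ∑ i, (t ^ 4 * (Pi i).card / P.card + 1) :=
      Finset.sum_le_sum fun i _ => n2 i
    have e2 : ∑ i, (t ^ 4 * (Pi i).card / P.card + 1) = t ^ 4 * (∑ i, ((Pi i).card : ℝ)) / P.card + q := by
      rw [Finset.sum_add_distrib, ← Finset.sum_div, ← Finset.mul_sum]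
      simp
    have e3 : t ^ 4 * (∑ i, ((Pi i).card : ℝ)) / P.card ≤ t ^ 4 := by
      rw [div_le_iff₀ hm0]
      exact mul_le_mul_of_nonneg_left hdisj ht4'.le
    have e4 : t ≤ t ^ 4 := le_self_pow₀ ht (by norm_num)
    have e5 : 2 * A0 * t ≤ 2 * A0 * t ^ 4 := mul_le_mul_of_nonneg_left e4 (by positivity)
    linarith
  have hH := fun i => H1 (h i) (h1 i) (Pi i) (N i) (Nat.le_add_left 1 _)
  choose J' f' g1 g2 g3 using hH
  have hE3 : ∀ i, ((h i).totalDegree : ℝ) * ((∑ j, (f' i j).totalDegree : ℕ) : ℝ) ^ 3 ≤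
      c * ((h i).totalDegree * t ^ 3 + N i) := by
    intro i
    have hd0 : (0 : ℝ) ≤ (h i).totalDegree := by positivity
    have hcR : (c : ℝ) = 8 * A1 ^ 3 + A1 := by rw [hc]; push_cast; ring
    rcases g2 i with g | g
    · have e1 := frP_root ht hA1 (n3 i) g
      have e2 : ((∑ j, (f' i j).totalDegree : ℕ) : ℝ) ^ 3 ≤ 8 * A1 ^ 3 * t ^ 3 := by
        calc ((∑ j, (f' i j).totalDegree : ℕ) : ℝ) ^ 3 ≤ (2 * A1 * t) ^ 3 :=
              pow_le_pow_left₀ (by positivity) e1 3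
          _ = 8 * A1 ^ 3 * t ^ 3 := by ring
      have e3 := mul_le_mul_of_nonneg_left e2 hd0
      have e4 : (0 : ℝ) ≤ A1 * ((h i).totalDegree * t ^ 3) := by positivity
      have e5 : (0 : ℝ) ≤ (8 * A1 ^ 3 + A1) * N i := by positivity
      rw [hcR]
      linarith
    · have e1 : ((h i).totalDegree : ℝ) * ((∑ j, (f' i j).totalDegree : ℕ) : ℝ) ^ 3 ≤ A1 * N i := by
        exact_mod_cast g
      have e4 : (0 : ℝ) ≤ (8 * A1 ^ 3 + A1) * ((h i).totalDegree * t ^ 3) := by positivity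
      have e5 : (0 : ℝ) ≤ 8 * (A1 : ℝ) ^ 3 * N i := by positivity
      rw [hcR]
      linarith
  have hE3s : ∑ i, ((h i).totalDegree : ℝ) * ((∑ j, (f' i j).totalDegree : ℕ) : ℝ) ^ 3 ≤
      c * (4 * A0 + 1) * t ^ 4 := by
    have e1 := Finset.sum_le_sum fun i (_ : i ∈ Finset.univ) => hE3 i
    refine e1.trans ?_
    rw [← Finset.mul_sum, Finset.sum_add_distrib, ← Finset.sum_mul, mul_assoc]
    refine mul_le_mul_of_nonneg_left ?_ rc
    have e2 : (∑ i, ((h i).totalDegree : ℝ)) * t ^ 3 ≤ 2 * A0 * t * t ^ 3 := by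
      refine mul_le_mul_of_nonneg_right ?_ (by positivity)
      have := hdh
      push_cast at this
      exact this
    have e3 : 2 * A0 * t * t ^ 3 = 2 * A0 * t ^ 4 := by ring
    linarith
  have hE1 : ∀ i, t ^ 2 * (((h i).totalDegree : ℝ) * ((∑ j, (f' i j).totalDegree : ℕ) : ℝ)) ≤
      (h i).totalDegree * t ^ 3 + ((h i).totalDegree : ℝ) * ((∑ j, (f' i j).totalDegree : ℕ) : ℝ) ^ 3 := by
    intro i
    set E : ℝ := ((∑ j, (f' i j).totalDegree : ℕ) : ℝ) with hE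
    have hE0 : 0 ≤ E := by positivity
    have hd0 : (0 : ℝ) ≤ (h i).totalDegree := by positivity
    have e1 : t ^ 2 * E ≤ t ^ 3 + E ^ 3 := by
      rcases le_total E t with e | e
      · have e2 : t ^ 2 * E ≤ t ^ 2 * t := mul_le_mul_of_nonneg_left e (by positivity)
        have e3 : 0 ≤ E ^ 3 := by positivity
        have e4 : t ^ 2 * t = t ^ 3 := by ring
        linarith
      · have e2 : t ^ 2 * E ≤ E ^ 2 * E := mul_le_mul_of_nonneg_right (pow_le_pow_left₀ ht0.le e 2) hE0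
        have e3 : 0 ≤ t ^ 3 := by positivity
        have e4 : E ^ 2 * E = E ^ 3 := by ring
        linarith
    calc t ^ 2 * (((h i).totalDegree : ℝ) * E) = (h i).totalDegree * (t ^ 2 * E) := by ring
      _ ≤ (h i).totalDegree * (t ^ 3 + E ^ 3) := mul_le_mul_of_nonneg_left e1 hd0
      _ = _ := by ring
  have hE1s : t ^ 2 * ∑ i, (((h i).totalDegree : ℝ) * ((∑ j, (f' i j).totalDegree : ℕ) : ℝ)) ≤
      t ^ 2 * ((2 * A0 + c * (4 * A0 + 1)) * t ^ 2) := by
    rw [Finset.mul_sum]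
    have e1 := Finset.sum_le_sum fun i (_ : i ∈ Finset.univ) => hE1 i
    refine e1.trans ?_
    rw [Finset.sum_add_distrib, ← Finset.sum_mul]
    have e2 : (∑ i, ((h i).totalDegree : ℝ)) * t ^ 3 ≤ 2 * A0 * t * t ^ 3 := by
      refine mul_le_mul_of_nonneg_right ?_ (by positivity)
      have := hdh
      push_cast at this
      exact this
    have e3 : 2 * A0 * t * t ^ 3 = 2 * A0 * t ^ 4 := by ring
    have e4 : t ^ 2 * ((2 * A0 + c * (4 * A0 + 1)) * t ^ 2) =
        2 * A0 * t ^ 4 + c * (4 * A0 + 1) * t ^ 4 := by ring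
    rw [e4]
    linarith
  have hE1f := le_of_mul_le_mul_left hE1s (by positivity : (0 : ℝ) < t ^ 2)
  refine ⟨⟨J, f, q, h, J', f', ?_, ?_, h1, ?_, ?_, g1, ?_, ?_, ?_⟩⟩
  · refine hdf.trans ?_
    refine mul_le_mul_of_nonneg_right ?_ ht0.le
    push_cast
    linarith
  · have e1 : (P.card : ℝ) / ((⌊t ^ 4⌋₊ + 1 : ℕ) : ℝ) ≤ P.card / t ^ 4 :=
      div_le_div_of_nonneg_left hm0.le ht4' hN1
    refine (frP_cell hm0.le ht4' hP e1 f3 (by positivity)).trans ?_
    refine mul_le_mul_of_nonneg_right ?_ (by positivity)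
    push_cast
    linarith
  · rintro p ⟨j, hj⟩
    apply h3
    rw [map_prod]
    exact Finset.prod_eq_zero (Finset.mem_univ j) hj
  · refine hdh.trans ?_
    refine mul_le_mul_of_nonneg_right ?_ ht0.le
    push_cast
    linarith
  · push_cast at hE1f ⊢
    refine hE1f.trans ?_
    refine mul_le_mul_of_nonneg_right ?_ (by positivity)
    linarith
  · push_cast at hE3s ⊢
    refine hE3s.trans ?_
    refine mul_le_mul_of_nonneg_right ?_ (by positivity)
    linarith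
  · have key : ∀ i, ∑ σ : Fin (J' i) → Prop,
        (((P.filter fun p => Lev h i p ∧ (∀ j, eval p (f' i j) ≠ 0) ∧ sgn (f' i) p = σ).card : ℝ)) ^ k ≤
        A1 * 2 ^ (k - 1) * ((Pi i).card * ((P.card : ℝ) / t ^ 4) ^ (k - 1)) := by
      intro i
      have e1 : ((Pi i).card : ℝ) / N i ≤ P.card / t ^ 4 := by
        rw [div_le_div_iff₀ (n0 i) ht4']
        have := n1 i
        rw [div_le_iff₀ hm0] at this
        linarith
      have e2 := frP_cell (by positivity) ht4' hP e1 (g3 i) (by positivity)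
      have e3 : ∀ σ : Fin (J' i) → Prop,
          (P.filter fun p => Lev h i p ∧ (∀ j, eval p (f' i j) ≠ 0) ∧ sgn (f' i) p = σ) =
          (Pi i).filter fun p => (∀ j, eval p (f' i j) ≠ 0) ∧ sgn (f' i) p = σ := fun σ => by
        rw [hPi, Finset.filter_filter]
      simp_rw [e3]
      exact e2
    refine (Finset.sum_le_sum fun i _ => key i).trans ?_
    rw [← Finset.mul_sum, ← Finset.sum_mul]
    have e1 : (∑ i, ((Pi i).card : ℝ)) * ((P.card : ℝ) / t ^ 4) ^ (k - 1) ≤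
        P.card * ((P.card : ℝ) / t ^ 4) ^ (k - 1) := mul_le_mul_of_nonneg_right hdisj (by positivity)
    refine (mul_le_mul_of_nonneg_left e1 r2).trans ?_
    refine mul_le_mul_of_nonneg_right ?_ (by positivity)
    push_cast
    linarith

end D4Q
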