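import Mathlib
import Pool.Agent.D4Q.Defs

/-!
# D4Q-MdJ: jets at finitely many points

`jet_dim`: `ℝ[x]/m_p^a` has dimension `(a+3 choose 4)` (translate `p` to `0`: polynomials of degree `< a`).
`jet_dimH`: for `h p = 0` the dimension of `ℝ[x]/(m_p^a + (h))` is at least `(a+2 choose 3)`: it is at least
`(a+3 choose 4)` minus the dimension of the image of `(h)` in `ℝ[x]/m_p^a`, which is the image of `ℝ[x]/m_p^(a-1)` under multiplication by `h`
(as `h m_p^(a-1) ⊆ m_p^a`), so at most `(a+2 choose 4)`; Pascal.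
`jet_rep`: every polynomial is modulo `m_p^a` congruent to one of degree `≤ a - 1`.
-/

namespace D4Q

open MvPolynomial

/-- translation by `p` -/
private noncomputable def MdJ_tr (p : Fin 4 → ℝ) :
    MvPolynomial (Fin 4) ℝ →ₐ[ℝ] MvPolynomial (Fin 4) ℝ := aeval fun i => X i + C (p i)

/-- translation by `-p` -/
private noncomputable def MdJ_rt (p : Fin 4 → ℝ) :
    MvPolynomial (Fin 4) ℝ →ₐ[ℝ] MvPolynomial (Fin 4) ℝ := aeval fun i => X i - C (p i)

private theorem MdJ_tr_X (p : Fin 4 → ℝ) (i : Fin 4) : MdJ_tr p (X i) = X i + C (p i) :=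
  aeval_X _ _

private theorem MdJ_rt_X (p : Fin 4 → ℝ) (i : Fin 4) : MdJ_rt p (X i) = X i - C (p i) :=
  aeval_X _ _

private theorem MdJ_tr_C (p : Fin 4 → ℝ) (c : ℝ) : MdJ_tr p (C c) = C c :=
  (MdJ_tr p).commutes c

private theorem MdJ_rt_C (p : Fin 4 → ℝ) (c : ℝ) : MdJ_rt p (C c) = C c :=
  (MdJ_rt p).commutes c

private theorem MdJ_tr_rt (p : Fin 4 → ℝ) (f : MvPolynomial (Fin 4) ℝ) :
    MdJ_tr p (MdJ_rt p f) = f := by
  have h : (MdJ_tr p).comp (MdJ_rt p) = AlgHom.id ℝ _ := by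
    refine algHom_ext fun i => ?_
    rw [AlgHom.comp_apply, MdJ_rt_X, map_sub, MdJ_tr_X, MdJ_tr_C, AlgHom.id_apply]
    ring
  exact DFunLike.congr_fun h f

private theorem MdJ_rt_tr (p : Fin 4 → ℝ) (f : MvPolynomial (Fin 4) ℝ) :
    MdJ_rt p (MdJ_tr p f) = f := by
  have h : (MdJ_rt p).comp (MdJ_tr p) = AlgHom.id ℝ _ := by
    refine algHom_ext fun i => ?_
    rw [AlgHom.comp_apply, MdJ_tr_X, map_add, MdJ_rt_X, MdJ_rt_C, AlgHom.id_apply]
    ring
  exact DFunLike.congr_fun h f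

private theorem MdJ_map_tr (p : Fin 4 → ℝ) :
    Ideal.map (MdJ_tr p).toRingHom (mI p) = idealOfVars (Fin 4) ℝ := by
  unfold mI
  rw [Ideal.map_span, ← Set.range_comp]
  congr 2
  funext i
  change MdJ_tr p (X i - C (p i)) = X i
  rw [map_sub, MdJ_tr_X, MdJ_tr_C]
  ring

private theorem MdJ_map_rt (p : Fin 4 → ℝ) :
    Ideal.map (MdJ_rt p).toRingHom (idealOfVars (Fin 4) ℝ) = mI p := by
  unfold mI
  rw [idealOfVars, Ideal.map_span, ← Set.range_comp]
  congr 2
  funext i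
  change MdJ_rt p (X i) = _
  rw [MdJ_rt_X]

private theorem MdJ_mem (p : Fin 4 → ℝ) (a : ℕ) (f : MvPolynomial (Fin 4) ℝ) :
    f ∈ mI p ^ a ↔ MdJ_tr p f ∈ idealOfVars (Fin 4) ℝ ^ a := by
  constructor
  · intro h
    have h1 := Ideal.mem_map_of_mem (MdJ_tr p).toRingHom h
    rw [Ideal.map_pow, MdJ_map_tr] at h1
    exact h1
  · intro h
    have h1 := Ideal.mem_map_of_mem (MdJ_rt p).toRingHom h
    rw [Ideal.map_pow, MdJ_map_rt] at h1
    have h2 : (MdJ_rt p).toRingHom (MdJ_tr p f) = f := MdJ_rt_tr p f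
    rw [h2] at h1
    exact h1

/-- the exponents of degree `< a` -/
private def MdJ_S (a : ℕ) : Finset (Fin 4 →₀ ℕ) :=
  (Finset.range a).biUnion fun d => Finset.finsuppAntidiag Finset.univ d

private theorem MdJ_mem_S (a : ℕ) (x : Fin 4 →₀ ℕ) : x ∈ MdJ_S a ↔ x.degree < a := by
  unfold MdJ_S
  rw [Finset.mem_biUnion]
  constructor
  · rintro ⟨d, hd, hx⟩
    rw [Finset.mem_range] at hd
    rw [Finset.mem_finsuppAntidiag] at hx
    rw [Finsupp.degree_eq_sum, hx.1]
    exact hd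
  · intro h
    refine ⟨x.degree, Finset.mem_range.2 h, ?_⟩
    rw [Finset.mem_finsuppAntidiag]
    exact ⟨(Finsupp.degree_eq_sum x).symm, Finset.subset_univ _⟩

private theorem MdJ_card (a : ℕ) : (MdJ_S a).card = (a + 3).choose 4 := by
  have h0 : ∀ d : ℕ, (Finset.finsuppAntidiag (Finset.univ : Finset (Fin 4)) d).card =
      (d + 3).choose 3 := by
    intro d
    rw [Finset.card_finsuppAntidiag_nat_eq_choose, Finset.card_univ, Fintype.card_fin]
    have h1 : 4 + d - 1 = d + 3 := by omega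
    rw [h1]
    exact Nat.choose_symm_add
  have h2 : (MdJ_S a).card = ∑ d ∈ Finset.range a, (d + 3).choose 3 := by
    unfold MdJ_S
    rw [Finset.card_biUnion]
    · exact Finset.sum_congr rfl fun d _ => h0 d
    · intro d _ e _ hde
      rw [Function.onFun, Finset.disjoint_left]
      intro x hx hx'
      rw [Finset.mem_finsuppAntidiag] at hx hx'
      exact hde (hx.1.symm.trans hx'.1)
  rw [h2]
  induction a with
  | zero => rfl
  | succ a ih =>
    rw [Finset.sum_range_succ, ih]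
    · have h3 : a + 1 + 3 = (a + 3) + 1 := by omega
      rw [h3, Nat.choose_succ_succ (a + 3) 3, add_comm]
    · unfold MdJ_S
      rw [Finset.card_biUnion]
      · exact Finset.sum_congr rfl fun d _ => h0 d
      · intro d _ e _ hde
        rw [Function.onFun, Finset.disjoint_left]
        intro x hx hx'
        rw [Finset.mem_finsuppAntidiag] at hx hx'
        exact hde (hx.1.symm.trans hx'.1)

/-- the coefficients of the translated polynomial of degree `< a` -/
private noncomputable def MdJ_ph (p : Fin 4 → ℝ) (a : ℕ) :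
    MvPolynomial (Fin 4) ℝ →ₗ[ℝ] (MdJ_S a → ℝ) where
  toFun f := fun x => coeff x.1 (MdJ_tr p f)
  map_add' f g := by funext x; simp [map_add, coeff_add]
  map_smul' c f := by funext x; simp [map_smul, coeff_smul]

/-- the polynomial with given coefficients -/
private noncomputable def MdJ_ps (p : Fin 4 → ℝ) (a : ℕ) (v : MdJ_S a → ℝ) :
    MvPolynomial (Fin 4) ℝ := MdJ_rt p (∑ x : MdJ_S a, monomial x.1 (v x))

private theorem MdJ_ph_ps (p : Fin 4 → ℝ) (a : ℕ) (v : MdJ_S a → ℝ) :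
    MdJ_ph p a (MdJ_ps p a v) = v := by
  classical
  funext y
  change coeff y.1 (MdJ_tr p (MdJ_rt p _)) = _
  rw [MdJ_tr_rt, coeff_sum]
  simp only [coeff_monomial]
  rw [Finset.sum_eq_single y]
  · rw [if_pos rfl]
  · intro x _ hx
    rw [if_neg fun h => hx (Subtype.ext h)]
  · intro h
    exact (h (Finset.mem_univ _)).elim

private theorem MdJ_ker (p : Fin 4 → ℝ) (a : ℕ) :
    Submodule.restrictScalars ℝ (mI p ^ a) = LinearMap.ker (MdJ_ph p a) := by
  ext f
  rw [Submodule.restrictScalars_mem, MdJ_mem, mem_pow_idealOfVars_iff', LinearMap.mem_ker]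
  constructor
  · intro h
    funext x
    exact h x.1 ((MdJ_mem_S a x.1).1 x.2)
  · intro h x hx
    exact congrFun h ⟨x, (MdJ_mem_S a x).2 hx⟩

private noncomputable def MdJ_eq (p : Fin 4 → ℝ) (a : ℕ) :
    (MvPolynomial (Fin 4) ℝ ⧸ mI p ^ a) ≃ₗ[ℝ] (MdJ_S a → ℝ) :=
  (Submodule.Quotient.restrictScalarsEquiv ℝ (mI p ^ a)).symm.trans
    ((Submodule.quotEquivOfEq _ _ (MdJ_ker p a)).trans
      (LinearMap.quotKerEquivOfSurjective (MdJ_ph p a) fun v => ⟨MdJ_ps p a v, MdJ_ph_ps p a v⟩))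

private theorem MdJ_ps_deg (p : Fin 4 → ℝ) (a : ℕ) (v : MdJ_S a → ℝ) :
    (MdJ_ps p a v).totalDegree ≤ a - 1 := by
  unfold MdJ_ps
  rw [map_sum]
  refine (totalDegree_finsetSum _ _).trans (Finset.sup_le fun x _ => ?_)
  have hx := (MdJ_mem_S a x.1).1 x.2
  unfold MdJ_rt
  rw [aeval_monomial]
  refine (totalDegree_mul _ _).trans ?_
  have h1 : (algebraMap ℝ (MvPolynomial (Fin 4) ℝ) (v x)).totalDegree = 0 := totalDegree_C _
  rw [h1, zero_add]
  have h2 : (x.1.prod fun i k => (X i - C (p i) : MvPolynomial (Fin 4) ℝ) ^ k).totalDegree ≤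
      x.1.degree := by
    unfold Finsupp.prod
    refine (totalDegree_finsetProd _ _).trans ?_
    rw [Finsupp.degree_apply]
    refine Finset.sum_le_sum fun i _ => ?_
    refine (totalDegree_pow _ _).trans ?_
    have h3 : (X i - C (p i) : MvPolynomial (Fin 4) ℝ).totalDegree ≤ 1 := by
      refine (totalDegree_sub _ _).trans ?_
      rw [totalDegree_X, totalDegree_C]
      exact le_of_eq rfl
    calc x.1 i * _ ≤ x.1 i * 1 := Nat.mul_le_mul_left _ h3
      _ = x.1 i := Nat.mul_one _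
  omega

theorem jet_rep (p : Fin 4 → ℝ) (a : ℕ) (ha : 1 ≤ a) (f : MvPolynomial (Fin 4) ℝ) :
    ∃ g : MvPolynomial (Fin 4) ℝ, g.totalDegree ≤ a - 1 ∧ f - g ∈ mI p ^ a := by
  refine ⟨MdJ_ps p a (MdJ_ph p a f), MdJ_ps_deg p a _, ?_⟩
  have h1 : f - MdJ_ps p a (MdJ_ph p a f) ∈ Submodule.restrictScalars ℝ (mI p ^ a) := by
    rw [MdJ_ker, LinearMap.mem_ker, map_sub, MdJ_ph_ps, sub_self]
  exact h1

theorem jet_fin (p : Fin 4 → ℝ) (a : ℕ) :
    Module.Finite ℝ (MvPolynomial (Fin 4) ℝ ⧸ mI p ^ a) :=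
  Module.Finite.equiv (MdJ_eq p a).symm

theorem jet_dim (p : Fin 4 → ℝ) (a : ℕ) :
    Module.finrank ℝ (MvPolynomial (Fin 4) ℝ ⧸ mI p ^ a) = (a + 3).choose 4 := by
  rw [(MdJ_eq p a).finrank_eq, Module.finrank_fintype_fun_eq_card, Fintype.card_coe, MdJ_card]

private theorem MdJ_memI (p : Fin 4 → ℝ) (h : MvPolynomial (Fin 4) ℝ) (hp : eval p h = 0) :
    h ∈ mI p := by
  rw [← pow_one (mI p), MdJ_mem, mem_pow_idealOfVars_iff']
  intro x hx
  have h1 : x = 0 := by
    have h2 : x.degree = 0 := by omega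
    rwa [Finsupp.degree_eq_zero_iff] at h2
  rw [h1]
  have h3 : coeff 0 (MdJ_tr p h) = eval (fun _ => (0 : ℝ)) (MdJ_tr p h) := by
    rw [← constantCoeff_eq, constantCoeff_eq]
    have h4 := MvPolynomial.eval_zero' (R := ℝ) (σ := Fin 4)
    exact (congrFun (congrArg DFunLike.coe h4) (MdJ_tr p h)).symm
  rw [h3]
  have h5 : (eval fun _ => (0 : ℝ)).comp (MdJ_tr p).toRingHom = eval p := by
    refine ringHom_ext (fun c => ?_) fun i => ?_
    · change eval (fun _ => (0 : ℝ)) (MdJ_tr p (C c)) = _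
      rw [MdJ_tr_C, eval_C, eval_C]
    · change eval (fun _ => (0 : ℝ)) (MdJ_tr p (X i)) = _
      rw [MdJ_tr_X, map_add, eval_X, eval_C, eval_X, zero_add]
  have h6 : eval (fun _ => (0 : ℝ)) (MdJ_tr p h) = eval p h := by
    rw [← h5]; rfl
  rw [h6, hp]

theorem jet_dimH (p : Fin 4 → ℝ) (a : ℕ) (h : MvPolynomial (Fin 4) ℝ) (hp : eval p h = 0) :
    (a + 2).choose 3 ≤
      Module.finrank ℝ (MvPolynomial (Fin 4) ℝ ⧸ (mI p ^ a ⊔ Ideal.span {h})) := by
  cases a with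
  | zero => simp
  | succ b =>
    have hm := MdJ_memI p h hp
    have := jet_fin p (b + 1)
    have := jet_fin p b
    have hle : mI p ^ (b + 1) ≤ mI p ^ (b + 1) ⊔ Ideal.span {h} := le_sup_left
    obtain ⟨π, hπ⟩ : ∃ π : (MvPolynomial (Fin 4) ℝ ⧸ mI p ^ (b + 1)) →ₗ[ℝ]
        (MvPolynomial (Fin 4) ℝ ⧸ (mI p ^ (b + 1) ⊔ Ideal.span {h})),
        ∀ f, π (Ideal.Quotient.mk _ f) = Ideal.Quotient.mk _ f :=
      ⟨(Ideal.Quotient.factorₐ ℝ hle).toLinearMap, fun f => rfl⟩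
    have hc : mI p ^ b ≤ Submodule.comap (LinearMap.mulLeft (MvPolynomial (Fin 4) ℝ) h)
        (mI p ^ (b + 1)) := by
      intro f hf
      rw [Submodule.mem_comap, LinearMap.mulLeft_apply, pow_succ']
      exact Ideal.mul_mem_mul hm hf
    obtain ⟨μ, hμ⟩ : ∃ μ : (MvPolynomial (Fin 4) ℝ ⧸ mI p ^ b) →ₗ[ℝ]
        (MvPolynomial (Fin 4) ℝ ⧸ mI p ^ (b + 1)),
        ∀ f, μ (Ideal.Quotient.mk _ f) = Ideal.Quotient.mk _ (h * f) :=
      ⟨(Submodule.mapQ (mI p ^ b) (mI p ^ (b + 1))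
        (LinearMap.mulLeft (MvPolynomial (Fin 4) ℝ) h) hc).restrictScalars ℝ, fun f => rfl⟩
    have hsur : Function.Surjective π := by
      intro y
      obtain ⟨f, rfl⟩ := Ideal.Quotient.mk_surjective y
      exact ⟨Ideal.Quotient.mk _ f, hπ f⟩
    have hk : LinearMap.ker π ≤ LinearMap.range μ := by
      intro y hy
      obtain ⟨f, rfl⟩ := Ideal.Quotient.mk_surjective y
      rw [LinearMap.mem_ker, hπ, Ideal.Quotient.eq_zero_iff_mem, Submodule.mem_sup] at hy
      obtain ⟨u, hu, v, hv, huv⟩ := hy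
      rw [Ideal.mem_span_singleton'] at hv
      obtain ⟨w, hw⟩ := hv
      refine ⟨Ideal.Quotient.mk _ w, ?_⟩
      rw [hμ, Ideal.Quotient.eq]
      have h1 : h * w - f = -u := by rw [← huv, ← hw]; ring
      rw [h1]
      exact neg_mem hu
    have h1 := LinearMap.finrank_range_add_finrank_ker π
    rw [LinearMap.range_eq_top.2 hsur, finrank_top, jet_dim] at h1
    have h2 : Module.finrank ℝ (LinearMap.ker π) ≤ (b + 3).choose 4 := by
      refine (Submodule.finrank_mono hk).trans ?_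
      refine (LinearMap.finrank_range_le μ).trans ?_
      rw [jet_dim]
    have h3 : (b + 1 + 3).choose 4 = (b + 3).choose 3 + (b + 3).choose 4 := by
      have h4 : b + 1 + 3 = (b + 3) + 1 := by omega
      rw [h4]
      exact Nat.choose_succ_succ (b + 3) 3
    have h5 : b + 1 + 2 = b + 3 := by omega
    rw [h5]
    omega

end D4Q
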