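import Mathlib
import Pool.Agent.D4Q.MdD
import Pool.Agent.D4Q.MdJ

/-!
# D4Q-Md0: multiplicity versus degree in space

If no nonzero polynomial of degree less than `ε'` vanishes on `Q` and `h` vanishes to the order `a` at the points of `Q`, then
`a ε'` is at most a constant times the degree of `h`. A subset `Q0` of `Q` is chosen on which the evaluation of the polynomials of degree
less than `ε'` is bijective; the polynomials of degree less than `a ε'` have arbitrary jets of order `a` at the points of `Q0`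
(surjectivity), and the multiples of `h` of this degree are in the kernel.
-/

namespace D4Q

open MvPolynomial

private theorem Md0_sub (p : Fin 4 → ℝ) (f : MvPolynomial (Fin 4) ℝ) : f - C (eval p f) ∈ mI p := by
  induction f using MvPolynomial.induction_on with
  | C r => rw [eval_C, sub_self]; exact (mI p).zero_mem
  | add f g hf hg =>
    have e : f + g - C (eval p (f + g)) = (f - C (eval p f)) + (g - C (eval p g)) := by
      rw [map_add, C_add]; ring
    rw [e]
    exact (mI p).add_mem hf hg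
  | mul_X f i hf =>
    have e : f * X i - C (eval p (f * X i)) = f * (X i - C (p i)) + C (p i) * (f - C (eval p f)) := by
      rw [map_mul, eval_X, C_mul]; ring
    rw [e]
    exact (mI p).add_mem ((mI p).mul_mem_left _ (Ideal.subset_span ⟨i, rfl⟩)) ((mI p).mul_mem_left _ hf)

private theorem Md0_mem {p : Fin 4 → ℝ} {f : MvPolynomial (Fin 4) ℝ} (h : eval p f = 0) : f ∈ mI p := by
  have h1 := Md0_sub p f
  rwa [h, C_0, sub_zero] at h1

private theorem Md0_unit {p : Fin 4 → ℝ} {f : MvPolynomial (Fin 4) ℝ} (h : eval p f = 1) (a : ℕ) :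
    IsUnit (Ideal.Quotient.mk (mI p ^ a) f) := by
  have h1 := Md0_sub p f
  rw [h, C_1] at h1
  have h2 : (Ideal.Quotient.mk (mI p ^ a) (1 - f)) ^ a = 0 := by
    rw [← map_pow, Ideal.Quotient.eq_zero_iff_mem]
    have h3 : 1 - f ∈ mI p := by
      have := (mI p).neg_mem h1
      rwa [neg_sub] at this
    exact Ideal.pow_mem_pow h3 a
  have h4 : IsNilpotent (Ideal.Quotient.mk (mI p ^ a) (1 - f)) := ⟨a, h2⟩
  have h5 := h4.isUnit_one_sub
  rwa [← map_one (Ideal.Quotient.mk (mI p ^ a)), ← map_sub, sub_sub_cancel] at h5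

private theorem Md0_num {a e d : ℕ} (ha : 1 ≤ a) (he : 1 ≤ e)
    (h : (e + 3).choose 4 * (a + 3).choose 4 ≤ d * (a * e - 1 + 3).choose 3) : a * e ≤ 2592 * d := by
  have h1 : e ^ 4 ≤ 24 * (e + 3).choose 4 := by
    have h2 := Nat.pow_sub_le_descFactorial (e + 3) 4
    rw [Nat.descFactorial_eq_factorial_mul_choose] at h2
    have h3 : e + 3 + 1 - 4 = e := by omega
    rw [h3] at h2
    exact h2
  have h2 : a ^ 4 ≤ 24 * (a + 3).choose 4 := by
    have h2 := Nat.pow_sub_le_descFactorial (a + 3) 4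
    rw [Nat.descFactorial_eq_factorial_mul_choose] at h2
    have h3 : a + 3 + 1 - 4 = a := by omega
    rw [h3] at h2
    exact h2
  have hp : 1 ≤ a * e := Nat.mul_pos ha he
  have h3 : 6 * (a * e - 1 + 3).choose 3 ≤ (3 * (a * e)) ^ 3 := by
    have h4 := Nat.descFactorial_le_pow (a * e - 1 + 3) 3
    rw [Nat.descFactorial_eq_factorial_mul_choose] at h4
    have h5 : a * e - 1 + 3 ≤ 3 * (a * e) := by omega
    exact h4.trans (Nat.pow_le_pow_left h5 3)
  have h4 : (a * e) ^ 4 ≤ 576 * ((e + 3).choose 4 * (a + 3).choose 4) := by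
    have h5 := Nat.mul_le_mul h1 h2
    have e1 : e ^ 4 * a ^ 4 = (a * e) ^ 4 := by ring
    have e2 : 24 * (e + 3).choose 4 * (24 * (a + 3).choose 4) =
      576 * ((e + 3).choose 4 * (a + 3).choose 4) := by ring
    rw [e1, e2] at h5
    exact h5
  have h5 : (a * e) ^ 4 ≤ 2592 * d * (a * e) ^ 3 := by
    calc (a * e) ^ 4 ≤ 576 * ((e + 3).choose 4 * (a + 3).choose 4) := h4
      _ ≤ 576 * (d * (a * e - 1 + 3).choose 3) := Nat.mul_le_mul_left _ h
      _ = 96 * d * (6 * (a * e - 1 + 3).choose 3) := by ring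
      _ ≤ 96 * d * (3 * (a * e)) ^ 3 := Nat.mul_le_mul_left _ h3
      _ = 2592 * d * (a * e) ^ 3 := by ring
  have h6 : a * e * (a * e) ^ 3 ≤ 2592 * d * (a * e) ^ 3 := by
    calc a * e * (a * e) ^ 3 = (a * e) ^ 4 := by ring
      _ ≤ _ := h5
  exact Nat.le_of_mul_le_mul_right h6 (Nat.pow_pos hp)

/-- evaluation of the polynomials of degree at most `t` -/
private noncomputable def Md0_E (t : ℕ) (p : Fin 4 → ℝ) :
    Module.Dual ℝ (restrictTotalDegree (Fin 4) ℝ t) :=
  (aeval p : MvPolynomial (Fin 4) ℝ →ₐ[ℝ] ℝ).toLinearMap ∘ₗ (restrictTotalDegree (Fin 4) ℝ t).subtype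

private theorem Md0_E_apply (t : ℕ) (p : Fin 4 → ℝ) (f : restrictTotalDegree (Fin 4) ℝ t) :
    Md0_E t p f = eval p (f : MvPolynomial (Fin 4) ℝ) := by
  show aeval p (f : MvPolynomial (Fin 4) ℝ) = _
  rw [← coe_aeval_eq_eval]
  rfl

private theorem Md0_fin (t : ℕ) : Module.Finite ℝ (restrictTotalDegree (Fin 4) ℝ t) := by
  apply Module.finite_of_finrank_pos
  rw [finrank_V]
  unfold dD
  rw [if_neg (by omega)]
  exact Nat.choose_pos (by omega)

/-- points of `Q` on which the evaluation is bijective -/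
private theorem Md0_points (t : ℕ) (Q : Finset (Fin 4 → ℝ))
    (hQ : ∀ f : MvPolynomial (Fin 4) ℝ, f.totalDegree ≤ t → (∀ p ∈ Q, eval p f = 0) → f = 0) :
    ∃ (ι : Type) (_ : Fintype ι) (_ : DecidableEq ι) (x : ι → Fin 4 → ℝ) (u : ι → MvPolynomial (Fin 4) ℝ),
      Fintype.card ι = (t + 4).choose 4 ∧ (∀ i, x i ∈ Q) ∧ (∀ i, (u i).totalDegree ≤ t) ∧
      (∀ i, eval (x i) (u i) = 1) ∧ ∀ i j, i ≠ j → eval (x j) (u i) = 0 := by
  classical
  have := Md0_fin t
  set V := restrictTotalDegree (Fin 4) ℝ t with hV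
  obtain ⟨b, hb, hspan, hli⟩ := exists_linearIndependent ℝ (Md0_E t '' (Q : Set (Fin 4 → ℝ)))
  have hW : Submodule.span ℝ (Md0_E t '' (Q : Set (Fin 4 → ℝ))) = ⊤ := by
    set W := Submodule.span ℝ (Md0_E t '' (Q : Set (Fin 4 → ℝ))) with hWd
    have h1 : W.dualCoannihilator = ⊥ := by
      rw [Submodule.eq_bot_iff]
      intro f hf
      rw [Submodule.mem_dualCoannihilator] at hf
      have h2 : (f : MvPolynomial (Fin 4) ℝ) = 0 := by
        refine hQ _ ?_ ?_
        · exact (mem_restrictTotalDegree _ _ _).mp f.2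
        · intro p hp
          have := hf (Md0_E t p) (Submodule.subset_span ⟨p, hp, rfl⟩)
          rwa [Md0_E_apply] at this
      exact Subtype.ext h2
    have h3 := Subspace.dualCoannihilator_dualAnnihilator_eq (W := W)
    rw [h1, Submodule.dualAnnihilator_bot] at h3
    exact h3.symm
  rw [hW] at hspan
  let B : Module.Basis b ℝ (Module.Dual ℝ V) := Module.Basis.mk hli (by
    rw [Subtype.range_coe, hspan])
  have : Fintype b := FiniteDimensional.fintypeBasisIndex B
  have hB : ∀ i, B i = (i : Module.Dual ℝ V) := fun i => by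
    simp [B, Module.Basis.mk_apply]
  have hx : ∀ i : b, ∃ p ∈ Q, Md0_E t p = i := by
    intro i
    obtain ⟨p, hp, hp'⟩ := hb i.2
    exact ⟨p, hp, hp'⟩
  choose x hxQ hxE using hx
  have hu : ∀ i j : b, Md0_E t (x j) ((Module.evalEquiv ℝ V).symm (B.dualBasis i)) = if j = i then 1 else 0 := by
    intro i j
    rw [Module.apply_evalEquiv_symm_apply, hxE, ← hB]
    exact B.dualBasis_apply_self i j
  have hcard : Fintype.card b = (t + 4).choose 4 := by
    have h1 := Module.finrank_eq_card_basis B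
    rw [Subspace.dual_finrank_eq, (finrank_V t : Module.finrank ℝ V = dD t)] at h1
    rw [← h1]
    unfold dD
    rw [if_neg (by omega), Int.toNat_natCast]
  let eb := Fintype.equivFin b
  refine ⟨Fin (Fintype.card b), inferInstance, inferInstance, fun i => x (eb.symm i),
    fun i => ((Module.evalEquiv ℝ V).symm (B.dualBasis (eb.symm i)) : V), ?_, fun i => hxQ _, fun i => ?_,
    fun i => ?_, fun i j hij => ?_⟩
  · rw [Fintype.card_fin]; exact hcard
  · exact (mem_restrictTotalDegree _ _ _).mp ((Module.evalEquiv ℝ V).symm (B.dualBasis (eb.symm i))).2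
  · rw [← Md0_E_apply, hu, if_pos rfl]
  · rw [← Md0_E_apply, hu, if_neg]
    intro h
    exact hij (eb.symm.injective h).symm

theorem md0 : ∃ C : ℕ, ∀ (h : MvPolynomial (Fin 4) ℝ), h ≠ 0 → ∀ (a : ℕ), 1 ≤ a →
    ∀ (Q : Finset (Fin 4 → ℝ)), (∀ p ∈ Q, h ∈ mI p ^ a) →
    ∀ ε' : ℕ, (∀ f : MvPolynomial (Fin 4) ℝ, f.totalDegree < ε' → (∀ p ∈ Q, eval p f = 0) → f = 0) →
      a * ε' ≤ C * h.totalDegree := by
  refine ⟨2592, fun h hh a ha Q hQ ε' hε => ?_⟩
  obtain rfl | he := Nat.eq_zero_or_pos ε'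
  · simp
  obtain ⟨ι, hι, hιd, x, u, hcard, hxQ, hud, hu1, hu0⟩ := Md0_points (ε' - 1) Q
    (fun f hf hf' => hε f (by omega) hf')
  apply Md0_num ha he
  set T := a * ε' - 1 with hT
  have := Md0_fin T
  have : ∀ i : ι, Module.Finite ℝ (MvPolynomial (Fin 4) ℝ ⧸ mI (x i) ^ a) := fun i => jet_fin (x i) a
  set W := restrictTotalDegree (Fin 4) ℝ T with hW
  let Φ : W →ₗ[ℝ] (∀ i : ι, MvPolynomial (Fin 4) ℝ ⧸ mI (x i) ^ a) :=
    LinearMap.pi fun i => (Ideal.Quotient.mkₐ ℝ (mI (x i) ^ a)).toLinearMap ∘ₗ W.subtype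
  have hΦ : ∀ (f : W) (i : ι), Φ f i = Ideal.Quotient.mk (mI (x i) ^ a) (f : MvPolynomial (Fin 4) ℝ) :=
    fun f i => rfl
  have hsurj : Function.Surjective Φ := by
    intro c
    have h1 : ∀ i : ι, ∃ w : MvPolynomial (Fin 4) ℝ, w.totalDegree ≤ a - 1 ∧
        Ideal.Quotient.mk (mI (x i) ^ a) (u i ^ a * w) = c i := by
      intro i
      obtain ⟨v, hv⟩ := (Md0_unit (hu1 i) a).pow a
      obtain ⟨g, hg⟩ := Ideal.Quotient.mk_surjective ((↑v⁻¹ : MvPolynomial (Fin 4) ℝ ⧸ mI (x i) ^ a) * c i)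
      obtain ⟨w, hw, hwg⟩ := jet_rep (x i) a ha g
      refine ⟨w, hw, ?_⟩
      have h2 : Ideal.Quotient.mk (mI (x i) ^ a) w = Ideal.Quotient.mk (mI (x i) ^ a) g :=
        (Ideal.Quotient.eq.mpr hwg).symm
      rw [map_mul, map_pow, h2, hg, ← hv, ← mul_assoc, Units.mul_inv, one_mul]
    choose w hwd hwc using h1
    have hdeg : (∑ i, u i ^ a * w i).totalDegree ≤ T := by
      refine (totalDegree_finsetSum _ _).trans (Finset.sup_le fun i _ => ?_)
      refine (totalDegree_mul _ _).trans ?_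
      have h2 : (u i ^ a).totalDegree ≤ a * (ε' - 1) :=
        (totalDegree_pow _ _).trans (Nat.mul_le_mul_left _ (hud i))
      have h3 : a * (ε' - 1) + a = a * ε' := by
        rw [← Nat.mul_succ]
        congr 1
        omega
      have h4 := hwd i
      omega
    refine ⟨⟨∑ i, u i ^ a * w i, by rw [hW, mem_restrictTotalDegree]; exact hdeg⟩, ?_⟩
    funext j
    rw [hΦ]
    show Ideal.Quotient.mk (mI (x j) ^ a) (∑ i, u i ^ a * w i) = c j
    rw [map_sum, Finset.sum_eq_single j]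
    · exact hwc j
    · intro i _ hij
      rw [Ideal.Quotient.eq_zero_iff_mem]
      exact Ideal.mul_mem_right _ _ (Ideal.pow_mem_pow (Md0_mem (hu0 i j hij)) a)
    · intro hj
      exact absurd (Finset.mem_univ j) hj
  have hrank := LinearMap.finrank_range_add_finrank_ker Φ
  rw [LinearMap.range_eq_top.mpr hsurj, finrank_top, Module.finrank_pi_fintype,
    (finrank_V T : Module.finrank ℝ W = dD T)] at hrank
  simp_rw [jet_dim] at hrank
  rw [Finset.sum_const, Finset.card_univ, hcard, smul_eq_mul] at hrank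
  have hmul : mulV h T ≤ W := inf_le_left
  have hker : (mulV h T).comap W.subtype ≤ LinearMap.ker Φ := by
    intro f hf
    rw [LinearMap.mem_ker]
    funext i
    rw [hΦ]
    show Ideal.Quotient.mk (mI (x i) ^ a) (f : MvPolynomial (Fin 4) ℝ) = 0
    rw [Ideal.Quotient.eq_zero_iff_mem]
    have h1 : (f : MvPolynomial (Fin 4) ℝ) ∈ Ideal.span {h} := hf.2
    rw [Ideal.mem_span_singleton'] at h1
    obtain ⟨g, hg⟩ := h1
    rw [← hg]
    exact Ideal.mul_mem_left _ _ (hQ _ (hxQ i))
  have hker2 := Submodule.finrank_mono hker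
  rw [(Submodule.comapSubtypeEquivOfLe hmul).finrank_eq, finrank_mulV h hh] at hker2
  have hd := dd_first T h.totalDegree
  have e1 : ε' - 1 + 4 = ε' + 3 := by omega
  rw [e1] at hrank
  omega

end D4Q
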