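import Mathlib
import Pool.Agent.D4Q.MdD
import Pool.Agent.D4Q.MdJ

/-!
# D4Q-MdH: multiplicity versus degree on a hypersurface

PAPER PROOF (`mdH`, the other one is the same with `h` replaced by `0`). `D t = (t+4 choose 4)` for
`t ≥ 0`, `D t = 0` for `t < 0`, is the dimension of `V_t = ℝ[x]_{≤ t}`; `δ = deg h ≥ 1`,
`ε = deg g`. Assume `ε' ≥ 1`. Let `U` be a complement of `h V_{ε'-1-δ}` in `V_{ε'-1}`,
`N = dim U = D (ε'-1) - D (ε'-1-δ)`. An element of `U` vanishing on `Q` is divisible by `h`,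
so it is in `h V_{ε'-1-δ} ∩ U = 0`. So there is
`Q0 ⊆ Q` with `N` elements such that the evaluation `U → ℝ^Q0` is bijective; let `u_p ∈ U` with
`u_p q = 1` if `q = p`, `0` otherwise (`p, q ∈ Q0`). Let `T = a (ε'-1) + a - 1 = a ε' - 1` and
`Φ : V_T → ∏_{p ∈ Q0} ℝ[x]/(m_p^a + (h))`. `Φ` is surjective: `u_p^a w`, `deg w ≤ a-1`, is
`0` in the components `q ≠ p`, and in the component `p` it is the unit `u_p^a` times an arbitrary
element (each class modulo `m_p^a` has a representative of degree `≤ a - 1`, and multiplication by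
a unit is bijective on the quotient). Dimension of the components:
`dim ℝ[x]/(m_p^a + (h)) ≥ dim ℝ[x]/m_p^a - dim (image of (h)) ≥
(a+3 choose 4) - (a+2 choose 4) = (a+2 choose 3)`, since `h ∈ m_p` (`h p = 0`) the image of `(h)` in
`ℝ[x]/m_p^a` is the image of `ℝ[x]/m_p^(a-1)` under multiplication by `h`.
The kernel of `Φ` contains `h V_{T-δ} + g V_{T-ε}`, of dimension
`D (T-δ) + D (T-ε) - D (T-ε-δ)` (`h` is prime and does not divide `g`: the intersection is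
`g h V_{T-ε-δ}`). Hence
`N (a+2 choose 3) ≤ (D T - D (T-δ)) - (D (T-ε) - D (T-ε-δ)) ≤ δ ε (T+2 choose 2)`, and also
`≤ D T - D (T-ε) ≤ ε (T+3 choose 3)` (not needed). Now `N ≥ c0 min (ε'^4) (δ ε'^3)` and `T ≤ a ε'`.
If `δ ≤ ε'`: `c0 δ ε'^3 a^3 / 6 ≤ δ ε (a ε' + 2)^2 / 2`, so `a ε' ≤ C ε`; otherwise
`c0 ε'^4 a^3 / 6 ≤ δ ε (a ε' + 2)^2 / 2`, so `a ε'^2 ≤ C δ ε`. (`a ε' ≥ 1`; constants generous.)
The hypothesis `h p = 0` for `p ∈ Q`. If `Q` is empty then `ε' = 0` (the polynomial `1`).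
For `md0`: `N = D (ε'-1)`, `N (a+3 choose 4) ≤ D T - D (T-δ) ≤ δ (T+3 choose 3)`, so `a ε' ≤ C δ`.
-/

namespace D4Q

open MvPolynomial

private theorem mdH_rk {X : Type*} [AddCommGroup X] [Module ℝ X]
    (W : Submodule ℝ (MvPolynomial (Fin 4) ℝ)) [FiniteDimensional ℝ W]
    (φ : MvPolynomial (Fin 4) ℝ →ₗ[ℝ] X) :
    Module.finrank ℝ ↥(W ⊓ LinearMap.ker φ) + Module.finrank ℝ ↥(W.map φ) =
      Module.finrank ℝ W := by
  have h1 := LinearMap.finrank_range_add_finrank_ker (φ.domRestrict W)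
  rw [LinearMap.range_domRestrict, LinearMap.ker_domRestrict] at h1
  have h2 : Module.finrank ℝ ↥(Submodule.comap W.subtype (LinearMap.ker φ)) =
      Module.finrank ℝ ↥(W ⊓ LinearMap.ker φ) := by
    rw [← Submodule.map_comap_subtype, Submodule.finrank_map_subtype_eq]
  rw [h2] at h1
  omega

/-- A maximal dual system of points and polynomials. -/
private theorem mdH_dual (Q : Finset (Fin 4 → ℝ)) (V : Submodule ℝ (MvPolynomial (Fin 4) ℝ)) :
    ∃ Q0 ⊆ Q, ∃ u : (Fin 4 → ℝ) → MvPolynomial (Fin 4) ℝ, (∀ p ∈ Q0, u p ∈ V) ∧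
      (∀ p ∈ Q0, eval p (u p) = 1) ∧ (∀ p ∈ Q0, ∀ q ∈ Q0, p ≠ q → eval q (u p) = 0) ∧
      ∀ f ∈ V, (∀ p ∈ Q0, eval p f = 0) → ∀ p ∈ Q, eval p f = 0 := by
  classical
  let P : ℕ → Prop := fun k => ∃ Q0 ⊆ Q, Q0.card = k ∧
    ∃ u : (Fin 4 → ℝ) → MvPolynomial (Fin 4) ℝ, (∀ p ∈ Q0, u p ∈ V) ∧
      (∀ p ∈ Q0, eval p (u p) = 1) ∧ ∀ p ∈ Q0, ∀ q ∈ Q0, p ≠ q → eval q (u p) = 0
  have hP0 : P 0 := ⟨∅, by simp, rfl, fun _ => 0, by simp, by simp, by simp⟩
  have hk : P (Nat.findGreatest P Q.card) := Nat.findGreatest_spec (Nat.zero_le _) hP0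
  have hmax : ∀ j, P j → j ≤ Nat.findGreatest P Q.card := by
    intro j hj
    refine Nat.le_findGreatest ?_ hj
    obtain ⟨Q0, h1, h2, -⟩ := hj
    rw [← h2]
    exact Finset.card_le_card h1
  obtain ⟨Q0, h1, h2, u, h3, h4, h5⟩ := hk
  refine ⟨Q0, h1, u, h3, h4, h5, fun f hf hf0 p hp => ?_⟩
  by_contra hne
  have hpn : p ∉ Q0 := fun h => hne (hf0 p h)
  set f' : MvPolynomial (Fin 4) ℝ := (eval p f)⁻¹ • f with hf'
  have e1 : eval p f' = 1 := by
    rw [hf', smul_eval]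
    exact inv_mul_cancel₀ hne
  have e2 : ∀ q ∈ Q0, eval q f' = 0 := by
    intro q hq
    rw [hf', smul_eval, hf0 q hq, mul_zero]
  have hne' : ∀ q ∈ Q0, q ≠ p := fun q hq h => hpn (h ▸ hq)
  obtain ⟨u', hu1, hu2⟩ : ∃ u' : (Fin 4 → ℝ) → MvPolynomial (Fin 4) ℝ, u' p = f' ∧
      ∀ x ∈ Q0, u' x = u x - (eval p (u x)) • f' :=
    ⟨fun x => if x = p then f' else u x - (eval p (u x)) • f', if_pos rfl,
      fun x hx => if_neg (hne' x hx)⟩
  have h6 : P (Q0.card + 1) := by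
    refine ⟨insert p Q0, Finset.insert_subset hp h1, Finset.card_insert_of_notMem hpn, u',
      fun x hx => ?_, fun x hx => ?_, fun x hx y hy hxy => ?_⟩
    · rcases Finset.mem_insert.1 hx with hx | hx
      · rw [hx, hu1]
        exact V.smul_mem _ hf
      · rw [hu2 x hx]
        exact V.sub_mem (h3 x hx) (V.smul_mem _ (V.smul_mem _ hf))
    · rcases Finset.mem_insert.1 hx with hx | hx
      · rw [hx, hu1, e1]
      · rw [hu2 x hx, map_sub, smul_eval, e2 x hx, mul_zero, sub_zero, h4 x hx]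
    · rcases Finset.mem_insert.1 hx with hx | hx
      · rw [hx, hu1]
        rcases Finset.mem_insert.1 hy with hy | hy
        · exact absurd (hx.trans hy.symm) hxy
        · exact e2 y hy
      · rw [hu2 x hx]
        rcases Finset.mem_insert.1 hy with hy | hy
        · rw [hy, map_sub, smul_eval, e1, mul_one, sub_self]
        · rw [map_sub, smul_eval, e2 y hy, mul_zero, sub_zero, h5 x hx y hy hxy]
  have h7 := hmax _ h6
  omega

private theorem mdH_mem (p : Fin 4 → ℝ) (f : MvPolynomial (Fin 4) ℝ) :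
    f - C (eval p f) ∈ mI p := by
  induction f using MvPolynomial.induction_on with
  | C a => simp
  | add f g hf hg =>
    have e : f + g - C (eval p (f + g)) = (f - C (eval p f)) + (g - C (eval p g)) := by
      rw [map_add, map_add]
      ring
    rw [e]
    exact (mI p).add_mem hf hg
  | mul_X f i hf =>
    have e : f * X i - C (eval p (f * X i)) =
        X i * (f - C (eval p f)) + C (eval p f) * (X i - C (p i)) := by
      rw [map_mul, eval_X, map_mul]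
      ring
    rw [e]
    refine (mI p).add_mem ((mI p).mul_mem_left _ hf) ((mI p).mul_mem_left _ ?_)
    exact Ideal.subset_span ⟨i, rfl⟩

private theorem mdH_mem0 {p : Fin 4 → ℝ} {f : MvPolynomial (Fin 4) ℝ} (h : eval p f = 0) :
    f ∈ mI p := by
  have h1 := mdH_mem p f
  rwa [h, map_zero, sub_zero] at h1

private theorem mdH_unit {p : Fin 4 → ℝ} {u : MvPolynomial (Fin 4) ℝ} (h : eval p u = 1)
    (a : ℕ) : ∃ s : MvPolynomial (Fin 4) ℝ, u ^ a * s - 1 ∈ mI p ^ a := by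
  have h1 : 1 - u ∈ mI p := mdH_mem0 (by rw [map_sub, map_one, h, sub_self])
  set s : MvPolynomial (Fin 4) ℝ := ∑ i ∈ Finset.range a, (1 - u) ^ i with hs
  have h2 : u * s - 1 ∈ mI p ^ a := by
    have h3 := mul_neg_geom_sum (1 - u) a
    rw [sub_sub_cancel] at h3
    rw [hs, h3, sub_right_comm, sub_self, zero_sub]
    exact (mI p ^ a).neg_mem (Ideal.pow_mem_pow h1 a)
  refine ⟨s ^ a, ?_⟩
  rw [← mul_pow]
  obtain ⟨c, hc⟩ := sub_dvd_pow_sub_pow (u * s) 1 a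
  rw [one_pow] at hc
  rw [hc]
  exact (mI p ^ a).mul_mem_right _ h2

private theorem mdH_surj {Q0 : Finset (Fin 4 → ℝ)} {u : (Fin 4 → ℝ) → MvPolynomial (Fin 4) ℝ}
    {m a : ℕ} (ha : 1 ≤ a) (hu : ∀ p ∈ Q0, (u p).totalDegree ≤ m)
    (h1 : ∀ p ∈ Q0, eval p (u p) = 1) (h2 : ∀ p ∈ Q0, ∀ q ∈ Q0, p ≠ q → eval q (u p) = 0)
    (w : (Fin 4 → ℝ) → MvPolynomial (Fin 4) ℝ) :
    ∃ F : MvPolynomial (Fin 4) ℝ, F.totalDegree ≤ a * m + (a - 1) ∧
      ∀ p ∈ Q0, F - w p ∈ mI p ^ a := by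
  classical
  have h3 : ∀ p : Fin 4 → ℝ, ∃ s g : MvPolynomial (Fin 4) ℝ, p ∈ Q0 →
      (u p ^ a * s - 1 ∈ mI p ^ a ∧ g.totalDegree ≤ a - 1 ∧ s * w p - g ∈ mI p ^ a) := by
    intro p
    by_cases hp : p ∈ Q0
    · obtain ⟨s, hs⟩ := mdH_unit (h1 p hp) a
      obtain ⟨g, hg1, hg2⟩ := jet_rep p a ha (s * w p)
      exact ⟨s, g, fun _ => ⟨hs, hg1, hg2⟩⟩
    · exact ⟨0, 0, fun h => absurd h hp⟩
  choose s g hsg using h3
  refine ⟨∑ p ∈ Q0, u p ^ a * g p, ?_, fun q hq => ?_⟩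
  · refine totalDegree_finsetSum_le fun p hp => ?_
    refine (totalDegree_mul _ _).trans (Nat.add_le_add ?_ (hsg p hp).2.1)
    exact (totalDegree_pow _ _).trans (Nat.mul_le_mul_left a (hu p hp))
  · rw [← Finset.add_sum_erase Q0 _ hq]
    have h4 : ∑ p ∈ Q0.erase q, u p ^ a * g p ∈ mI q ^ a := by
      refine Ideal.sum_mem _ fun p hp => ?_
      have hp' := Finset.mem_erase.1 hp
      exact (mI q ^ a).mul_mem_right _
        (Ideal.pow_mem_pow (mdH_mem0 (h2 p hp'.2 q hq hp'.1)) a)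
    obtain ⟨h5, -, h6⟩ := hsg q hq
    have e : u q ^ a * g q + ∑ p ∈ Q0.erase q, u p ^ a * g p - w q =
        (∑ p ∈ Q0.erase q, u p ^ a * g p) - u q ^ a * (s q * w q - g q) +
          (u q ^ a * s q - 1) * w q := by ring
    rw [e]
    exact (mI q ^ a).add_mem ((mI q ^ a).sub_mem h4 ((mI q ^ a).mul_mem_left _ h6))
      ((mI q ^ a).mul_mem_right _ h5)

private theorem mdH_c2 (x : ℕ) : 2 * (x + 1).choose 2 = x * (x + 1) := by
  induction x with
  | zero => rfl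
  | succ x ih =>
    rw [Nat.choose_succ_succ' (x + 1) 1, Nat.choose_one_right, mul_add, ih]
    ring

private theorem mdH_c3 (a : ℕ) : 6 * (a + 2).choose 3 = a * (a + 1) * (a + 2) := by
  induction a with
  | zero => rfl
  | succ a ih =>
    have h := mdH_c2 (a + 1)
    rw [show a + 1 + 2 = (a + 2) + 1 from rfl, Nat.choose_succ_succ' (a + 2) 2, mul_add, ih]
    have e : (a + 1 + 1).choose 2 = (a + 2).choose 2 := rfl
    rw [e] at h
    nlinarith

private theorem mdH_fin (t : ℕ) : FiniteDimensional ℝ (restrictTotalDegree (Fin 4) ℝ t) := by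
  refine Module.finite_of_finrank_pos ?_
  rw [finrank_V]
  unfold dD
  rw [if_neg (by omega)]
  exact Nat.choose_pos (by omega)

private theorem mdH_count {h g : MvPolynomial (Fin 4) ℝ} (hh : Irreducible h) (hg : ¬ h ∣ g)
    {a : ℕ} (ha : 1 ≤ a) {Q : Finset (Fin 4 → ℝ)}
    (hQ : ∀ p ∈ Q, eval p h = 0 ∧ g ∈ mI p ^ a ⊔ Ideal.span {h}) {m : ℕ}
    (hf : ∀ f : MvPolynomial (Fin 4) ℝ, f.totalDegree ≤ m → (∀ p ∈ Q, eval p f = 0) → h ∣ f) :
    ∃ N : ℕ, dD m ≤ dD ((m : ℤ) - h.totalDegree) + N ∧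
      N * (a + 2).choose 3 ≤ h.totalDegree * g.totalDegree * (a * m + (a - 1) + 2).choose 2 := by
  classical
  have hh0 : h ≠ 0 := hh.ne_zero
  have hg0 : g ≠ 0 := fun h0 => hg (h0 ▸ dvd_zero h)
  obtain ⟨Q0, hQ0, u, hu, hu1, hu2, hu3⟩ := mdH_dual Q (restrictTotalDegree (Fin 4) ℝ m)
  set T : ℕ := a * m + (a - 1) with hT
  have := mdH_fin m
  have := mdH_fin T
  refine ⟨Q0.card, ?_, ?_⟩
  · let φ : MvPolynomial (Fin 4) ℝ →ₗ[ℝ] (Q0 → ℝ) := LinearMap.pi fun p => (aeval p.1).toLinearMap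
    have hφ : ∀ f (p : Q0), φ f p = eval p.1 f := fun f p => by
      show aeval p.1 f = eval p.1 f
      rw [aeval_eq_eval]
    have h1 := mdH_rk (restrictTotalDegree (Fin 4) ℝ m) φ
    have h2 : Module.finrank ℝ ↥((restrictTotalDegree (Fin 4) ℝ m).map φ) ≤ Q0.card := by
      refine (Submodule.finrank_le _).trans ?_
      rw [Module.finrank_fintype_fun_eq_card, Fintype.card_coe]
    have h3 : restrictTotalDegree (Fin 4) ℝ m ⊓ LinearMap.ker φ ≤ mulV h m := by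
      rintro f ⟨hf1, hf2⟩
      refine ⟨hf1, ?_⟩
      rw [SetLike.mem_coe, Submodule.restrictScalars_mem, Ideal.mem_span_singleton]
      refine hf f ((mem_restrictTotalDegree _ _ _).1 hf1) (hu3 f hf1 fun p hp => ?_)
      have h4 := congrFun (LinearMap.mem_ker.1 hf2) ⟨p, hp⟩
      rw [hφ] at h4
      exact h4
    have : FiniteDimensional ℝ (mulV h m) :=
      Submodule.finiteDimensional_of_le (inf_le_left : mulV h m ≤ restrictTotalDegree (Fin 4) ℝ m)
    have h4 := Submodule.finrank_mono h3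
    rw [finrank_mulV h hh0] at h4
    rw [finrank_V] at h1
    omega
  · let I : (Fin 4 → ℝ) → Ideal (MvPolynomial (Fin 4) ℝ) := fun p => mI p ^ a ⊔ Ideal.span {h}
    let φ : MvPolynomial (Fin 4) ℝ →ₗ[ℝ] (∀ p : Q0, MvPolynomial (Fin 4) ℝ ⧸ I p.1) :=
      LinearMap.pi fun p => (Ideal.Quotient.mkₐ ℝ (I p.1)).toLinearMap
    have hφ : ∀ f (p : Q0), φ f p = Ideal.Quotient.mk (I p.1) f := fun f p => rfl
    have h1 := mdH_rk (restrictTotalDegree (Fin 4) ℝ T) φ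
    have hdim : ∀ p : Q0, (a + 2).choose 3 ≤ Module.finrank ℝ (MvPolynomial (Fin 4) ℝ ⧸ I p.1) :=
      fun p => jet_dimH p.1 a h (hQ p.1 (hQ0 p.2)).1
    have : ∀ p : Q0, Module.Finite ℝ (MvPolynomial (Fin 4) ℝ ⧸ I p.1) := fun p =>
      Module.finite_of_finrank_pos (lt_of_lt_of_le (Nat.choose_pos (by omega)) (hdim p))
    have h2 : (restrictTotalDegree (Fin 4) ℝ T).map φ = ⊤ := by
      rw [eq_top_iff]
      intro y _
      have hw : ∀ p : Fin 4 → ℝ, ∃ w : MvPolynomial (Fin 4) ℝ, ∀ hp : p ∈ Q0,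
          Ideal.Quotient.mk (I p) w = y ⟨p, hp⟩ := by
        intro p
        by_cases hp : p ∈ Q0
        · obtain ⟨w, hw⟩ := Ideal.Quotient.mk_surjective (y ⟨p, hp⟩)
          exact ⟨w, fun _ => hw⟩
        · exact ⟨0, fun h => absurd h hp⟩
      choose w hw using hw
      obtain ⟨F, hF1, hF2⟩ := mdH_surj ha
        (fun p hp => (mem_restrictTotalDegree _ _ _).1 (hu p hp)) hu1 hu2 w
      refine ⟨F, (mem_restrictTotalDegree _ _ _).2 hF1, ?_⟩
      funext p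
      rw [hφ, ← hw p.1 p.2, Ideal.Quotient.eq]
      exact Ideal.mem_sup_left (hF2 p.1 p.2)
    have h3 : Q0.card * (a + 2).choose 3 ≤
        Module.finrank ℝ ↥((restrictTotalDegree (Fin 4) ℝ T).map φ) := by
      rw [h2, finrank_top, Module.finrank_pi_fintype]
      have h4 : ∑ _p : Q0, (a + 2).choose 3 = Q0.card * (a + 2).choose 3 := by
        rw [Finset.sum_const, Finset.card_univ, Fintype.card_coe, smul_eq_mul]
      rw [← h4]
      exact Finset.sum_le_sum fun p _ => hdim p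
    have h5 : mulV h T ⊔ mulV g T ≤ restrictTotalDegree (Fin 4) ℝ T ⊓ LinearMap.ker φ := by
      refine sup_le ?_ ?_
      · rintro f ⟨hf1, hf2⟩
        refine ⟨hf1, ?_⟩
        rw [SetLike.mem_coe, LinearMap.mem_ker]
        funext p
        rw [hφ]
        exact Ideal.Quotient.eq_zero_iff_mem.2 (Ideal.mem_sup_right hf2)
      · rintro f ⟨hf1, hf2⟩
        refine ⟨hf1, ?_⟩
        rw [SetLike.mem_coe, LinearMap.mem_ker]
        funext p
        rw [hφ]
        refine Ideal.Quotient.eq_zero_iff_mem.2 ?_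
        have h6 : Ideal.span {g} ≤ I p.1 := (Ideal.span_singleton_le_iff_mem _).2 (hQ p.1 (hQ0 p.2)).2
        exact h6 hf2
    have : FiniteDimensional ℝ (mulV h T) :=
      Submodule.finiteDimensional_of_le (inf_le_left : mulV h T ≤ restrictTotalDegree (Fin 4) ℝ T)
    have : FiniteDimensional ℝ (mulV g T) :=
      Submodule.finiteDimensional_of_le (inf_le_left : mulV g T ≤ restrictTotalDegree (Fin 4) ℝ T)
    have : FiniteDimensional ℝ (mulV (g * h) T) :=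
      Submodule.finiteDimensional_of_le
        (inf_le_left : mulV (g * h) T ≤ restrictTotalDegree (Fin 4) ℝ T)
    have : FiniteDimensional ℝ ↥(restrictTotalDegree (Fin 4) ℝ T ⊓ LinearMap.ker φ) :=
      Submodule.finiteDimensional_of_le
        (inf_le_left : restrictTotalDegree (Fin 4) ℝ T ⊓ LinearMap.ker φ ≤
          restrictTotalDegree (Fin 4) ℝ T)
    have h6 := Submodule.finrank_mono h5
    have h7 := Submodule.finrank_sup_add_finrank_inf_eq (mulV h T) (mulV g T)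
    have h8 : mulV h T ⊓ mulV g T ≤ mulV (g * h) T := by
      rintro f ⟨⟨hf1, hf2⟩, ⟨-, hf3⟩⟩
      refine ⟨hf1, ?_⟩
      rw [SetLike.mem_coe, Submodule.restrictScalars_mem, Ideal.mem_span_singleton] at hf2 hf3 ⊢
      obtain ⟨v, rfl⟩ := hf3
      rcases hh.prime.dvd_or_dvd hf2 with h9 | h9
      · exact absurd h9 hg
      · exact mul_dvd_mul_left g h9
    have h9 := Submodule.finrank_mono h8
    rw [finrank_mulV (g * h) (mul_ne_zero hg0 hh0), totalDegree_mul_of_isDomain hg0 hh0] at h9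
    rw [finrank_mulV h hh0, finrank_mulV g hg0] at h7
    rw [finrank_V] at h1
    have h10 := dd_second T h.totalDegree g.totalDegree
    have e : (T : ℤ) - ((g.totalDegree + h.totalDegree : ℕ) : ℤ) =
        (T : ℤ) - h.totalDegree - g.totalDegree := by
      push_cast
      ring
    rw [e] at h9
    omega

theorem mdH : ∃ C : ℕ, ∀ (h g : MvPolynomial (Fin 4) ℝ), Irreducible h → ¬ h ∣ g →
    ∀ (a : ℕ), 1 ≤ a → ∀ (Q : Finset (Fin 4 → ℝ)),
    (∀ p ∈ Q, eval p h = 0 ∧ g ∈ mI p ^ a ⊔ Ideal.span {h}) →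
    ∀ ε' : ℕ, (∀ f : MvPolynomial (Fin 4) ℝ, f.totalDegree < ε' → (∀ p ∈ Q, eval p f = 0) → h ∣ f) →
      a * ε' ≤ C * g.totalDegree ∨ a * ε' ^ 2 ≤ C * g.totalDegree * h.totalDegree := by
  obtain ⟨c0, hc0, hlow⟩ := dd_lower
  refine ⟨6 * c0, fun h g hh hg a ha Q hQ ε' hf => ?_⟩
  rcases Nat.eq_zero_or_pos ε' with h0 | h0
  · left
    rw [h0, mul_zero]
    exact Nat.zero_le _
  obtain ⟨m, rfl⟩ : ∃ m, ε' = m + 1 := ⟨ε' - 1, by omega⟩
  obtain ⟨N, hN1, hN2⟩ := mdH_count hh hg ha hQ (m := m) fun f hf1 hf2 =>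
    hf f (Nat.lt_succ_of_le hf1) hf2
  have hδ : 1 ≤ h.totalDegree := by
    by_contra hlt
    have h1 : h.totalDegree = 0 := by omega
    rw [totalDegree_eq_zero_iff_eq_C] at h1
    have h2 : h.coeff 0 ≠ 0 := fun h3 => hh.ne_zero (by rw [h1, h3, map_zero])
    refine hh.not_isUnit ?_
    rw [h1]
    exact (IsUnit.mk0 _ h2).map C
  have hlow' := hlow m h.totalDegree hδ
  set δ := h.totalDegree with hδdef
  set ε := g.totalDegree with hεdef
  have e1 : a * m + (a - 1) + 2 = a * (m + 1) + 1 := by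
    rw [mul_add]
    omega
  rw [e1] at hN2
  have h3 := mdH_c3 a
  have h2 := mdH_c2 (a * (m + 1))
  have hmin : min ((m + 1) ^ 4) (δ * (m + 1) ^ 3) ≤ c0 * N := by
    have h4 : c0 * dD m ≤ c0 * (dD ((m : ℤ) - δ) + N) := Nat.mul_le_mul_left c0 hN1
    rw [mul_add] at h4
    omega
  have ha3 : a ^ 3 ≤ 6 * (a + 2).choose 3 := by
    rw [h3]
    nlinarith
  have hx : 1 ≤ a * (m + 1) := Nat.mul_pos ha h0
  have hx2 : (a * (m + 1) + 1).choose 2 ≤ (a * (m + 1)) ^ 2 := by nlinarith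
  have key : min ((m + 1) ^ 4) (δ * (m + 1) ^ 3) * a ^ 3 ≤
      6 * c0 * δ * ε * (a * (m + 1)) ^ 2 := by
    calc min ((m + 1) ^ 4) (δ * (m + 1) ^ 3) * a ^ 3 ≤ (c0 * N) * (6 * (a + 2).choose 3) :=
          Nat.mul_le_mul hmin ha3
      _ = 6 * c0 * (N * (a + 2).choose 3) := by ring
      _ ≤ 6 * c0 * (δ * ε * (a * (m + 1) + 1).choose 2) := Nat.mul_le_mul_left _ hN2
      _ ≤ 6 * c0 * (δ * ε * (a * (m + 1)) ^ 2) :=
          Nat.mul_le_mul_left _ (Nat.mul_le_mul_left _ hx2)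
      _ = 6 * c0 * δ * ε * (a * (m + 1)) ^ 2 := by ring
  rcases le_total δ (m + 1) with hle | hle
  · left
    have h5 : min ((m + 1) ^ 4) (δ * (m + 1) ^ 3) = δ * (m + 1) ^ 3 := by
      refine min_eq_right ?_
      calc δ * (m + 1) ^ 3 ≤ (m + 1) * (m + 1) ^ 3 := Nat.mul_le_mul_right _ hle
        _ = (m + 1) ^ 4 := by ring
    rw [h5] at key
    have hpos : 0 < δ * (a * (m + 1)) ^ 2 := Nat.mul_pos hδ (pow_pos hx 2)
    refine Nat.le_of_mul_le_mul_left ?_ hpos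
    calc δ * (a * (m + 1)) ^ 2 * (a * (m + 1)) = δ * (m + 1) ^ 3 * a ^ 3 := by ring
      _ ≤ 6 * c0 * δ * ε * (a * (m + 1)) ^ 2 := key
      _ = δ * (a * (m + 1)) ^ 2 * (6 * c0 * ε) := by ring
  · right
    have h5 : min ((m + 1) ^ 4) (δ * (m + 1) ^ 3) = (m + 1) ^ 4 := by
      refine min_eq_left ?_
      calc (m + 1) ^ 4 = (m + 1) * (m + 1) ^ 3 := by ring
        _ ≤ δ * (m + 1) ^ 3 := Nat.mul_le_mul_right _ hle
    rw [h5] at key
    have hpos : 0 < (a * (m + 1)) ^ 2 := pow_pos hx 2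
    refine Nat.le_of_mul_le_mul_left ?_ hpos
    calc (a * (m + 1)) ^ 2 * (a * (m + 1) ^ 2) = (m + 1) ^ 4 * a ^ 3 := by ring
      _ ≤ 6 * c0 * δ * ε * (a * (m + 1)) ^ 2 := key
      _ = (a * (m + 1)) ^ 2 * (6 * c0 * ε * δ) := by ring

end D4Q
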