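import Mathlib
import Pool.Agent.D4Q.Md0
import Pool.Agent.D4Q.MdH

/-!
# D4Q: multiplicity versus degree (collects files)

Do not edit.
-/

namespace D4Q


end D4Q
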