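import Mathlib
import Pool.Agent.D4Q.Defs

/-!
# D4Q-Ord0: multiplicity by one generic derivation

`dnu ν h = ∑ i, ν i ∂h/∂x_i`.

`ord0`: for finite sets `Q` of points and `H` of polynomials there is `ν` such that for
`p ∈ Q`, `h ∈ H` and every `a`: if `(dnu ν)^i h` vanishes at `p` for all `i < a` then `h ∈ m_p^a`.
PROOF. By a translation `p = 0`. Let `F` be the homogeneous part of degree `i` of `h`; then
`(dnu ν)^i h (0) = i! F(ν)`. Choose `ν` with `F(ν) ≠ 0` for the finitely many `F ≠ 0` belonging to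
the pairs `(p, h)` (a product of nonzero polynomials over the infinite field `ℝ` has a nonzero value).
-/

namespace D4Q

open MvPolynomial

private lemma Ord0_add (ν : Fin 4 → ℝ) (f g : MvPolynomial (Fin 4) ℝ) : dnu ν (f + g) = dnu ν f + dnu ν g := by
  unfold dnu
  rw [← Finset.sum_add_distrib]
  exact Finset.sum_congr rfl fun i _ => by rw [map_add, mul_add]

private lemma Ord0_mul (ν : Fin 4 → ℝ) (f g : MvPolynomial (Fin 4) ℝ) :
    dnu ν (f * g) = dnu ν f * g + f * dnu ν g := by
  unfold dnu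
  rw [Finset.sum_mul, Finset.mul_sum, ← Finset.sum_add_distrib]
  refine Finset.sum_congr rfl fun i _ => ?_
  rw [Derivation.leibniz, smul_eq_mul, smul_eq_mul]
  ring

private lemma Ord0_C (ν : Fin 4 → ℝ) (a : ℝ) : dnu ν (C a) = 0 := by
  unfold dnu
  exact Finset.sum_eq_zero fun i _ => by rw [pderiv_C, mul_zero]

private lemma Ord0_X (ν : Fin 4 → ℝ) (i : Fin 4) : dnu ν (X i) = C (ν i) := by
  unfold dnu
  rw [Finset.sum_eq_single i]
  · rw [pderiv_X_self, mul_one]
  · intro j _ hj
    rw [pderiv_X_of_ne hj.symm, mul_zero]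
  · intro h
    exact absurd (Finset.mem_univ i) h

/-- translation -/
private noncomputable def Ord0_T (p : Fin 4 → ℝ) : MvPolynomial (Fin 4) ℝ →ₐ[ℝ] MvPolynomial (Fin 4) ℝ :=
  aeval fun i => X i + C (p i)

private lemma Ord0_T_C (p : Fin 4 → ℝ) (a : ℝ) : Ord0_T p (C a) = C a := by
  unfold Ord0_T
  rw [aeval_C]
  rfl

private lemma Ord0_T_X (p : Fin 4 → ℝ) (i : Fin 4) : Ord0_T p (X i) = X i + C (p i) := by
  unfold Ord0_T
  rw [aeval_X]

private lemma Ord0_T_dnu (p ν : Fin 4 → ℝ) (f : MvPolynomial (Fin 4) ℝ) :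
    Ord0_T p (dnu ν f) = dnu ν (Ord0_T p f) := by
  induction f using MvPolynomial.induction_on with
  | C a => rw [Ord0_C, map_zero, Ord0_T_C, Ord0_C]
  | add f g hf hg => rw [Ord0_add, map_add, hf, hg, map_add, Ord0_add]
  | mul_X f i hf =>
    rw [Ord0_mul, map_add, map_mul, map_mul, hf, map_mul, Ord0_mul, Ord0_X, Ord0_T_X, Ord0_T_C, Ord0_add,
      Ord0_X, Ord0_C, add_zero]

private lemma Ord0_T_it (p ν : Fin 4 → ℝ) (f : MvPolynomial (Fin 4) ℝ) (i : ℕ) :
    Ord0_T p ((dnu ν)^[i] f) = (dnu ν)^[i] (Ord0_T p f) := by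
  induction i generalizing f with
  | zero => rfl
  | succ i ih => rw [Function.iterate_succ_apply, Function.iterate_succ_apply, ih, Ord0_T_dnu]

private lemma Ord0_T_eval (p : Fin 4 → ℝ) (f : MvPolynomial (Fin 4) ℝ) :
    eval 0 (Ord0_T p f) = eval p f := by
  induction f using MvPolynomial.induction_on with
  | C a => rw [Ord0_T_C, eval_C, eval_C]
  | add f g hf hg => rw [map_add, map_add, hf, hg, map_add]
  | mul_X f i hf => rw [map_mul, map_mul, hf, map_mul, Ord0_T_X, map_add, eval_X, eval_C, eval_X, Pi.zero_apply, zero_add]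

private lemma Ord0_T_inv (p : Fin 4 → ℝ) (f : MvPolynomial (Fin 4) ℝ) :
    Ord0_T (-p) (Ord0_T p f) = f := by
  induction f using MvPolynomial.induction_on with
  | C a => rw [Ord0_T_C, Ord0_T_C]
  | add f g hf hg => rw [map_add, map_add, hf, hg]
  | mul_X f i hf =>
    rw [map_mul, map_mul, hf, Ord0_T_X, map_add, Ord0_T_X, Ord0_T_C, Pi.neg_apply, map_neg, neg_add_cancel_right]

/-- restriction to the line with direction `ν` -/
private noncomputable def Ord0_P (ν : Fin 4 → ℝ) : MvPolynomial (Fin 4) ℝ →ₐ[ℝ] Polynomial ℝ :=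
  aeval fun i => Polynomial.C (ν i) * Polynomial.X

private lemma Ord0_P_C (ν : Fin 4 → ℝ) (a : ℝ) : Ord0_P ν (C a) = Polynomial.C a := by
  unfold Ord0_P
  rw [aeval_C]
  rfl

private lemma Ord0_P_X (ν : Fin 4 → ℝ) (i : Fin 4) : Ord0_P ν (X i) = Polynomial.C (ν i) * Polynomial.X := by
  unfold Ord0_P
  rw [aeval_X]

private lemma Ord0_P_dnu (ν : Fin 4 → ℝ) (f : MvPolynomial (Fin 4) ℝ) :
    Ord0_P ν (dnu ν f) = Polynomial.derivative (Ord0_P ν f) := by
  induction f using MvPolynomial.induction_on with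
  | C a => rw [Ord0_C, map_zero, Ord0_P_C, Polynomial.derivative_C]
  | add f g hf hg => rw [Ord0_add, map_add, hf, hg, map_add, Polynomial.derivative_add]
  | mul_X f i hf =>
    rw [Ord0_mul, map_add, map_mul, map_mul, hf, map_mul, Polynomial.derivative_mul, Ord0_X, Ord0_P_X, Ord0_P_C,
      Polynomial.derivative_C_mul_X]

private lemma Ord0_P_it (ν : Fin 4 → ℝ) (f : MvPolynomial (Fin 4) ℝ) (i : ℕ) :
    Ord0_P ν ((dnu ν)^[i] f) = Polynomial.derivative^[i] (Ord0_P ν f) := by
  induction i generalizing f with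
  | zero => rfl
  | succ i ih => rw [Function.iterate_succ_apply, Function.iterate_succ_apply, ih, Ord0_P_dnu]

private lemma Ord0_P_eval (ν : Fin 4 → ℝ) (f : MvPolynomial (Fin 4) ℝ) :
    (Ord0_P ν f).coeff 0 = eval 0 f := by
  rw [Polynomial.coeff_zero_eq_eval_zero]
  induction f using MvPolynomial.induction_on with
  | C a => rw [Ord0_P_C, Polynomial.eval_C, eval_C]
  | add f g hf hg => rw [map_add, Polynomial.eval_add, hf, hg, map_add]
  | mul_X f i hf =>
    rw [map_mul, Polynomial.eval_mul, hf, Ord0_P_X, Polynomial.eval_mul, Polynomial.eval_X, mul_zero, mul_zero,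
      map_mul, eval_X, Pi.zero_apply, mul_zero]

private lemma Ord0_P_coeff (ν : Fin 4 → ℝ) (f : MvPolynomial (Fin 4) ℝ) (i : ℕ) :
    (Ord0_P ν f).coeff i = eval ν (homogeneousComponent i f) := by
  induction f using MvPolynomial.induction_on' with
  | monomial u a =>
    have h1 : Ord0_P ν (monomial u a) = Polynomial.C (a * u.prod fun i k => ν i ^ k) * Polynomial.X ^ u.degree := by
      unfold Ord0_P
      rw [aeval_monomial]
      have h2 : (u.prod fun i k => (Polynomial.C (ν i) * Polynomial.X) ^ k) =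
          Polynomial.C (u.prod fun i k => ν i ^ k) * Polynomial.X ^ u.degree := by
        rw [Finsupp.prod, Finsupp.prod, Finsupp.degree_apply, ← Finset.prod_pow_eq_pow_sum, map_prod, ← Finset.prod_mul_distrib]
        exact Finset.prod_congr rfl fun i _ => by rw [mul_pow, map_pow]
      rw [h2, map_mul, mul_assoc]
      rfl
    have h3 : (monomial u a).IsHomogeneous u.degree := isHomogeneous_monomial a rfl
    rw [h1, Polynomial.coeff_C_mul_X_pow, homogeneousComponent_of_mem h3]
    by_cases h : i = u.degree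
    · rw [if_pos h, if_pos h, eval_monomial]
    · rw [if_neg h, if_neg h, map_zero]
  | add f g hf hg => rw [map_add, Polynomial.coeff_add, hf, hg, map_add, map_add]

private lemma Ord0_key (ν : Fin 4 → ℝ) (f : MvPolynomial (Fin 4) ℝ) (i : ℕ) :
    eval 0 ((dnu ν)^[i] f) = (i.factorial : ℝ) * eval ν (homogeneousComponent i f) := by
  rw [← Ord0_P_eval ν, Ord0_P_it, Polynomial.coeff_iterate_derivative, zero_add, Nat.descFactorial_self, nsmul_eq_mul,
    Ord0_P_coeff]

theorem ord0 (Q : Finset (Fin 4 → ℝ)) (H : Finset (MvPolynomial (Fin 4) ℝ)) :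
    ∃ ν : Fin 4 → ℝ, ∀ p ∈ Q, ∀ h ∈ H, ∀ a : ℕ, (∀ i < a, eval p ((dnu ν)^[i] h) = 0) →
      h ∈ mI p ^ a := by
  classical
  let F : (Fin 4 → ℝ) → MvPolynomial (Fin 4) ℝ → ℕ → MvPolynomial (Fin 4) ℝ := fun p h i =>
    if homogeneousComponent i (Ord0_T p h) = 0 then 1 else homogeneousComponent i (Ord0_T p h)
  have hF : ∀ p h i, F p h i ≠ 0 := by
    intro p h i
    by_cases h0 : homogeneousComponent i (Ord0_T p h) = 0
    · have : F p h i = 1 := if_pos h0
      rw [this]
      exact one_ne_zero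
    · have : F p h i = homogeneousComponent i (Ord0_T p h) := if_neg h0
      rw [this]
      exact h0
  let P : MvPolynomial (Fin 4) ℝ := ∏ p ∈ Q, ∏ h ∈ H, ∏ i ∈ Finset.range ((Ord0_T p h).totalDegree + 1), F p h i
  have hP : P ≠ 0 := Finset.prod_ne_zero_iff.2 fun p _ => Finset.prod_ne_zero_iff.2 fun h _ =>
    Finset.prod_ne_zero_iff.2 fun i _ => hF p h i
  obtain ⟨ν, hν⟩ : ∃ ν, eval ν P ≠ 0 := by
    by_contra hcon
    push Not at hcon
    exact hP (MvPolynomial.funext fun ν => by rw [hcon ν, map_zero])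
  refine ⟨ν, fun p hp h hh a ha => ?_⟩
  have h1 : ∀ i < a, homogeneousComponent i (Ord0_T p h) = 0 := by
    intro i hi
    by_cases hd : i < (Ord0_T p h).totalDegree + 1
    · by_contra hne
      have h2 : eval ν (homogeneousComponent i (Ord0_T p h)) = 0 := by
        have h3 := Ord0_key ν (Ord0_T p h) i
        rw [← Ord0_T_it, Ord0_T_eval, ha i hi] at h3
        rcases mul_eq_zero.1 h3.symm with h4 | h4
        · exact absurd h4 (by exact_mod_cast i.factorial_ne_zero)
        · exact h4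
      apply hν
      have h3 : F p h i = homogeneousComponent i (Ord0_T p h) := if_neg hne
      show eval ν (∏ p ∈ Q, ∏ h ∈ H, ∏ i ∈ Finset.range ((Ord0_T p h).totalDegree + 1), F p h i) = 0
      rw [map_prod]
      refine Finset.prod_eq_zero hp ?_
      rw [map_prod]
      refine Finset.prod_eq_zero hh ?_
      rw [map_prod]
      refine Finset.prod_eq_zero (Finset.mem_range.2 hd) ?_
      rw [h3, h2]
    · exact homogeneousComponent_eq_zero _ _ (by omega)
  have h2 : Ord0_T p h ∈ idealOfVars (Fin 4) ℝ ^ a := by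
    rw [mem_pow_idealOfVars_iff']
    intro x hx
    have h3 := coeff_homogeneousComponent x.degree (Ord0_T p h) x
    rw [h1 _ hx] at h3
    rw [← h3.trans (if_pos rfl), coeff_zero]
  have h3 := Ideal.mem_map_of_mem (Ord0_T (-p)) h2
  rw [Ord0_T_inv, Ideal.map_pow] at h3
  have h4 : Ideal.map (Ord0_T (-p)) (idealOfVars (Fin 4) ℝ) = mI p := by
    unfold mI
    rw [Ideal.map_span, ← Set.range_comp]
    congr 1
    refine congrArg Set.range (funext fun i => ?_)
    rw [Function.comp_apply, Ord0_T_X, Pi.neg_apply, map_neg, sub_eq_add_neg]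
  rwa [h4] at h3

end D4Q
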