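import Mathlib
import Pool.Agent.D4Q.Defs

/-!
# D4Q-OrdH: order on a hypersurface by one generic derivation

`dX m h g = ∑ i j, m i j (∂h/∂x_i) (∂g/∂x_j)`.

`ordH`: let `h p = 0`, `grad p h ≠ 0` for `p ∈ Q` and `Gs` a finite set of polynomials. There is
an antisymmetric matrix `m` such that for `p ∈ Q`, `g ∈ Gs` and every `a`: if `(dX m h)^i g` vanishes
at `p` for all `i < a` then `g ∈ m_p^a + (h)`.
PROOF. Let `n = grad p h`, `n k ≠ 0`. By induction on `b`, for every `g' ∈ m_p^b` there is a polynomial `G`, not involving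
`X k`, with `g' - G(X - p) ∈ m_p^(b+1) + (h)` and `(dX m h)^b g' (p) = b! G(v)`, `v j = ∑ i, m i j n i`, for all
antisymmetric `m` (`OrdH_K`). If `g ∈ m_p^b + (h)` is not in `m_p^(b+1) + (h)` then `G ≠ 0`, and the vectors `v` fill the
hyperplane orthogonal to `n`, so `(dX m h)^b g (p) ≠ 0` for some `m` (`OrdH_one`); this is a polynomial in the entries of
`m` (`OrdH_gen`), and finitely many nonzero polynomials have a common nonzero.
-/

namespace D4Q

open MvPolynomial

/-- the derivation `dX m h` -/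
private noncomputable def OrdH_D (m : Fin 4 → Fin 4 → ℝ) (h : MvPolynomial (Fin 4) ℝ) :
    Derivation ℝ (MvPolynomial (Fin 4) ℝ) (MvPolynomial (Fin 4) ℝ) :=
  ∑ i, ∑ j, (C (m i j) * pderiv i h) • pderiv j

private theorem OrdH_D_apply (m : Fin 4 → Fin 4 → ℝ) (h g : MvPolynomial (Fin 4) ℝ) :
    OrdH_D m h g = dX m h g := by
  unfold OrdH_D dX
  have h1 : ∀ (s : Finset (Fin 4)) (F : Fin 4 → Derivation ℝ (MvPolynomial (Fin 4) ℝ) (MvPolynomial (Fin 4) ℝ)),
      (∑ i ∈ s, F i) g = ∑ i ∈ s, F i g := by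
    intro s F
    have h2 := map_sum (Derivation.coeFnAddMonoidHom (R := ℝ) (A := MvPolynomial (Fin 4) ℝ)
      (M := MvPolynomial (Fin 4) ℝ)) F s
    have h3 := congrFun h2 g
    rw [Finset.sum_apply] at h3
    exact h3
  rw [h1]
  refine Finset.sum_congr rfl fun i _ => ?_
  rw [h1]
  refine Finset.sum_congr rfl fun j _ => ?_
  rfl

private theorem OrdH_D_coe (m : Fin 4 → Fin 4 → ℝ) (h : MvPolynomial (Fin 4) ℝ) :
    (fun g => OrdH_D m h g) = dX m h := by
  funext g
  exact OrdH_D_apply m h g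

private theorem OrdH_h {m : Fin 4 → Fin 4 → ℝ} (hm : ∀ i j, m i j = - m j i) (h : MvPolynomial (Fin 4) ℝ) :
    dX m h h = 0 := by
  unfold dX
  have h1 : ∑ i, ∑ j, C (m i j) * pderiv i h * pderiv j h =
      - ∑ i, ∑ j, C (m i j) * pderiv i h * pderiv j h := by
    rw [← Finset.sum_neg_distrib]
    rw [Finset.sum_comm]
    refine Finset.sum_congr rfl fun i _ => ?_
    rw [← Finset.sum_neg_distrib]
    refine Finset.sum_congr rfl fun j _ => ?_
    rw [hm j i, C_neg]
    ring
  have h2 : (2 : MvPolynomial (Fin 4) ℝ) * ∑ i, ∑ j, C (m i j) * pderiv i h * pderiv j h = 0 := by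
    linear_combination h1
  exact (mul_eq_zero.1 h2).resolve_left two_ne_zero

private theorem OrdH_ev {p : Fin 4 → ℝ} {f : MvPolynomial (Fin 4) ℝ} (hf : f ∈ mI p) : eval p f = 0 := by
  have h1 : mI p ≤ RingHom.ker (eval p) := by
    unfold mI
    rw [Ideal.span_le]
    rintro _ ⟨i, rfl⟩
    show eval p (X i - C (p i)) = 0
    rw [map_sub, eval_X, eval_C, sub_self]
  exact h1 hf

private theorem OrdH_X (p : Fin 4 → ℝ) (i : Fin 4) : X i - C (p i) ∈ mI p :=
  Ideal.subset_span ⟨i, rfl⟩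

/-- first order Taylor formula -/
private theorem OrdH_taylor (p : Fin 4 → ℝ) (f : MvPolynomial (Fin 4) ℝ) :
    f - C (eval p f) - ∑ i, C (eval p (pderiv i f)) * (X i - C (p i)) ∈ mI p ^ 2 := by
  induction f using MvPolynomial.induction_on with
  | C a => simp
  | add f g hf hg =>
    have h1 := (mI p ^ 2).add_mem hf hg
    refine (congrArg (· ∈ mI p ^ 2) ?_).mp h1
    simp only [map_add, add_mul, Finset.sum_add_distrib]
    ring
  | mul_X f j hf =>
    obtain ⟨T, hT⟩ : ∃ T, T = ∑ i, C (eval p (pderiv i f)) * (X i - C (p i)) := ⟨_, rfl⟩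
    rw [← hT] at hf
    have hTm : T ∈ mI p := by
      rw [hT]
      exact (mI p).sum_mem fun i _ => (mI p).mul_mem_left _ (OrdH_X p i)
    have h1 : T * (X j - C (p j)) ∈ mI p ^ 2 := by
      rw [pow_two]
      exact Ideal.mul_mem_mul hTm (OrdH_X p j)
    have h2 := (mI p ^ 2).add_mem ((mI p ^ 2).mul_mem_right (X j) hf) h1
    refine (congrArg (· ∈ mI p ^ 2) ?_).mp h2
    have h3 : ∑ i, C (eval p (pderiv i (f * X j))) * (X i - C (p i)) = C (p j) * T +
        C (eval p f) * (X j - C (p j)) := by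
      have h4 : ∀ i, C (eval p (pderiv i (f * X j))) * (X i - C (p i)) =
          C (p j) * (C (eval p (pderiv i f)) * (X i - C (p i))) +
          (if i = j then C (eval p f) * (X i - C (p i)) else 0) := by
        intro i
        rw [pderiv_mul, pderiv_X, Pi.single_apply]
        by_cases hij : i = j
        · subst hij
          simp
          ring
        · rw [if_neg hij, if_neg (fun h => hij h.symm)]
          simp
          ring
      rw [Finset.sum_congr rfl fun i _ => h4 i, Finset.sum_add_distrib, ← Finset.mul_sum, ← hT]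
      rw [Finset.sum_ite_eq' Finset.univ j]
      simp
    rw [h3, map_mul, eval_X, C_mul]
    ring

private theorem OrdH_zero (p : Fin 4 → ℝ) (f : MvPolynomial (Fin 4) ℝ) : f - C (eval p f) ∈ mI p := by
  have h1 := Ideal.pow_le_self two_ne_zero (OrdH_taylor p f)
  have h2 : ∑ i, C (eval p (pderiv i f)) * (X i - C (p i)) ∈ mI p :=
    (mI p).sum_mem fun i _ => (mI p).mul_mem_left _ (OrdH_X p i)
  have h3 := (mI p).add_mem h1 h2
  rw [sub_add_cancel] at h3
  exact h3

private theorem OrdH_D1 (D : Derivation ℝ (MvPolynomial (Fin 4) ℝ) (MvPolynomial (Fin 4) ℝ)) (p : Fin 4 → ℝ) :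
    ∀ (a : ℕ), ∀ f ∈ mI p ^ (a + 1), D f ∈ mI p ^ a := by
  intro a
  induction a with
  | zero =>
    intro f _
    rw [pow_zero, Ideal.one_eq_top]
    exact Submodule.mem_top
  | succ a ih =>
    intro f hf
    rw [pow_succ'] at hf
    refine Submodule.mul_induction_on hf ?_ ?_
    · intro l hl u hu
      rw [D.leibniz, smul_eq_mul, smul_eq_mul]
      refine Ideal.add_mem _ ?_ ((mI p ^ (a + 1)).mul_mem_right _ hu)
      rw [pow_succ']
      exact Ideal.mul_mem_mul hl (ih u hu)
    · intro x y hx hy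
      rw [map_add]
      exact Ideal.add_mem _ hx hy

private theorem OrdH_Dn (D : Derivation ℝ (MvPolynomial (Fin 4) ℝ) (MvPolynomial (Fin 4) ℝ)) (p : Fin 4 → ℝ) (a : ℕ) :
    ∀ (b : ℕ), ∀ f ∈ mI p ^ (a + b), D^[b] f ∈ mI p ^ a := by
  intro b
  induction b with
  | zero =>
    intro f hf
    exact hf
  | succ b ih =>
    intro f hf
    rw [Function.iterate_succ_apply]
    exact ih _ (OrdH_D1 D p (a + b) f hf)

private theorem OrdH_N' (D : Derivation ℝ (MvPolynomial (Fin 4) ℝ) (MvPolynomial (Fin 4) ℝ)) (p : Fin 4 → ℝ) :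
    ∀ (a : ℕ) (f : MvPolynomial (Fin 4) ℝ), ∀ u ∈ mI p ^ a, D^[a] (f * u) - f * D^[a] u ∈ mI p := by
  intro a
  induction a with
  | zero =>
    intro f u _
    simp
  | succ a ih =>
    intro f u hu
    rw [Function.iterate_succ_apply, Function.iterate_succ_apply, D.leibniz, smul_eq_mul, smul_eq_mul,
      iterate_map_add]
    have h1 := ih f (D u) (OrdH_D1 D p a u hu)
    have h2 : D^[a] (u * D f) ∈ mI p := by
      have h3 := OrdH_Dn D p 1 a (u * D f) (by rw [add_comm]; exact (mI p ^ (a + 1)).mul_mem_right _ hu)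
      rwa [pow_one] at h3
    have h3 := (mI p).add_mem h1 h2
    refine (congrArg (· ∈ mI p) ?_).mp h3
    ring

private theorem OrdH_N (D : Derivation ℝ (MvPolynomial (Fin 4) ℝ) (MvPolynomial (Fin 4) ℝ)) (p : Fin 4 → ℝ) :
    ∀ (b : ℕ), ∀ l ∈ mI p, ∀ u ∈ mI p ^ b,
      D^[b + 1] (l * u) - ((b : MvPolynomial (Fin 4) ℝ) + 1) * (D l * D^[b] u) ∈ mI p := by
  intro b
  induction b with
  | zero =>
    intro l hl u _
    simp only [zero_add, Function.iterate_one, Function.iterate_zero, id_eq, Nat.cast_zero, one_mul]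
    rw [D.leibniz, smul_eq_mul, smul_eq_mul, mul_comm u, add_sub_cancel_right]
    exact (mI p).mul_mem_right _ hl
  | succ b ih =>
    intro l hl u hu
    have h1 := ih l hl (D u) (OrdH_D1 D p b u hu)
    have h2 := OrdH_N' D p (b + 1) (D l) u hu
    rw [← Function.iterate_succ_apply D b u] at h1
    rw [Function.iterate_succ_apply D (b + 1) (l * u), D.leibniz, smul_eq_mul, smul_eq_mul, iterate_map_add,
      mul_comm u (D l)]
    have h3 := (mI p).add_mem h1 h2
    refine (congrArg (· ∈ mI p) ?_).mp h3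
    push_cast
    ring

/-- the field at the point `p` -/
private noncomputable def OrdH_v (m : Fin 4 → Fin 4 → ℝ) (h : MvPolynomial (Fin 4) ℝ) (p : Fin 4 → ℝ) (j : Fin 4) : ℝ :=
  ∑ i, m i j * eval p (pderiv i h)

private theorem OrdH_Dp (m : Fin 4 → Fin 4 → ℝ) (h : MvPolynomial (Fin 4) ℝ) (p : Fin 4 → ℝ)
    (f : MvPolynomial (Fin 4) ℝ) : eval p (dX m h f) = ∑ j, OrdH_v m h p j * eval p (pderiv j f) := by
  unfold dX OrdH_v
  rw [map_sum]
  simp only [map_sum, map_mul, eval_C, Finset.sum_mul]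
  rw [Finset.sum_comm]

/-- the leading form of an element of `m_p^b` modulo `h` -/
private theorem OrdH_K (h : MvPolynomial (Fin 4) ℝ) (p : Fin 4 → ℝ) (k : Fin 4) (hp : eval p h = 0)
    (hk : eval p (pderiv k h) ≠ 0) : ∀ (b : ℕ), ∀ g' ∈ mI p ^ b, ∃ G : MvPolynomial (Fin 4) ℝ,
      (∀ (w : Fin 4 → ℝ) (c : ℝ), eval (Function.update w k c) G = eval w G) ∧
      g' - aeval (fun i => X i - C (p i)) G ∈ mI p ^ (b + 1) ⊔ Ideal.span {h} ∧
      ∀ m : Fin 4 → Fin 4 → ℝ, (∀ i j, m i j = - m j i) →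
        eval p ((dX m h)^[b] g') = (b.factorial : ℝ) * eval (OrdH_v m h p) G := by
  classical
  intro b
  induction b with
  | zero =>
    intro g' _
    refine ⟨C (eval p g'), fun w c => by rw [eval_C, eval_C], ?_, fun m _ => ?_⟩
    · rw [algHom_C, algebraMap_eq, zero_add, pow_one]
      exact Ideal.mem_sup_left (OrdH_zero p g')
    · simp
  | succ b ih =>
    intro g' hg'
    rw [pow_succ'] at hg'
    refine Submodule.mul_induction_on hg' ?_ ?_
    · intro l hl u hu
      obtain ⟨G, hG1, hG2, hG3⟩ := ih u hu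
      obtain ⟨n, hn⟩ : ∃ n : Fin 4 → ℝ, n = fun i => eval p (pderiv i h) := ⟨_, rfl⟩
      obtain ⟨a, ha⟩ : ∃ a : Fin 4 → ℝ, a = fun i => eval p (pderiv i l) := ⟨_, rfl⟩
      have hnk : n k ≠ 0 := by
        rw [hn]
        exact hk
      obtain ⟨L, hL⟩ : ∃ L : MvPolynomial (Fin 4) ℝ, L = ∑ i, C (a i - a k / n k * n i) * X i := ⟨_, rfl⟩
      have hLe : ∀ w : Fin 4 → ℝ, eval w L = ∑ i, (a i - a k / n k * n i) * w i := by
        intro w
        rw [hL, map_sum]
        simp only [map_mul, eval_C, eval_X]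
      -- the linear form
      have hL1 : ∀ (w : Fin 4 → ℝ) (c : ℝ), eval (Function.update w k c) L = eval w L := by
        intro w c
        rw [hLe, hLe]
        refine Finset.sum_congr rfl fun i _ => ?_
        by_cases hi : i = k
        · subst hi
          rw [div_mul_cancel₀ _ hnk, sub_self, zero_mul, zero_mul]
        · rw [Function.update_of_ne hi]
      have hLa : aeval (fun i => X i - C (p i)) L =
          (∑ i, C (a i) * (X i - C (p i)) : MvPolynomial (Fin 4) ℝ) -
            C (a k / n k) * ∑ i, C (n i) * (X i - C (p i)) := by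
        rw [hL, map_sum, Finset.mul_sum, ← Finset.sum_sub_distrib]
        refine Finset.sum_congr rfl fun i _ => ?_
        rw [map_mul, aeval_X, algHom_C, algebraMap_eq, C_sub, C_mul]
        ring
      have hLm : aeval (fun i => X i - C (p i)) L ∈ mI p := by
        rw [hLa]
        refine Ideal.sub_mem _ ?_ (Ideal.mul_mem_left _ _ ?_)
        · exact (mI p).sum_mem fun i _ => (mI p).mul_mem_left _ (OrdH_X p i)
        · exact (mI p).sum_mem fun i _ => (mI p).mul_mem_left _ (OrdH_X p i)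
      have hL2 : l - aeval (fun i => X i - C (p i)) L ∈ mI p ^ 2 ⊔ Ideal.span {h} := by
        have h1 := OrdH_taylor p l
        have h2 := OrdH_taylor p h
        rw [OrdH_ev hl, C_0, sub_zero] at h1
        rw [hp, C_0, sub_zero] at h2
        have h3 : h ∈ mI p ^ 2 ⊔ Ideal.span {h} := Ideal.mem_sup_right (Ideal.mem_span_singleton_self h)
        have h4 := Ideal.add_mem _ (Ideal.mem_sup_left (T := Ideal.span {h}) h1)
          (Ideal.mul_mem_left _ (C (a k / n k)) (Ideal.sub_mem _ h3 (Ideal.mem_sup_left (T := Ideal.span {h}) h2)))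
        refine (congrArg (· ∈ mI p ^ 2 ⊔ Ideal.span {h}) ?_).mp h4
        rw [hLa, ha, hn]
        ring
      refine ⟨L * G, fun w c => by rw [map_mul, map_mul, hL1, hG1], ?_, fun m hm => ?_⟩
      · rw [map_mul]
        have h1 : (l - aeval (fun i => X i - C (p i)) L) * u ∈ mI p ^ (b + 1 + 1) ⊔ Ideal.span {h} := by
          have h2 := Ideal.mul_mem_mul hL2 hu
          rw [Ideal.sup_mul, ← pow_add] at h2
          have h3 : 2 + b = b + 1 + 1 := by omega
          rw [h3] at h2
          exact (sup_le_sup_left (Ideal.mul_le_left : Ideal.span {h} * mI p ^ b ≤ Ideal.span {h}) _ : _ ≤ _) h2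
        have h2 : aeval (fun i => X i - C (p i)) L * (u - aeval (fun i => X i - C (p i)) G) ∈
            mI p ^ (b + 1 + 1) ⊔ Ideal.span {h} := by
          have h3 := Ideal.mul_mem_mul hLm hG2
          rw [Ideal.mul_sup, ← pow_succ'] at h3
          exact (sup_le_sup_left (Ideal.mul_le_right : mI p * Ideal.span {h} ≤ Ideal.span {h}) _ : _ ≤ _) h3
        have h3 := Ideal.add_mem _ h1 h2
        refine (congrArg (· ∈ mI p ^ (b + 1 + 1) ⊔ Ideal.span {h}) ?_).mp h3
        ring
      · have h1 := OrdH_ev (OrdH_N (OrdH_D m h) p b l hl u hu)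
        have h2 : ∀ (c : ℕ) (f : MvPolynomial (Fin 4) ℝ), (OrdH_D m h)^[c] f = (dX m h)^[c] f := by
          intro c f
          rw [← OrdH_D_coe]
        rw [h2, h2, OrdH_D_apply, map_sub, map_mul, map_mul, hG3 m hm, OrdH_Dp] at h1
        have h3 : eval (OrdH_v m h p) L = ∑ j, OrdH_v m h p j * eval p (pderiv j l) := by
          rw [hLe]
          have h4 : ∑ i, OrdH_v m h p i * n i = 0 := by
            have h5 := OrdH_Dp m h p h
            rw [OrdH_h hm, map_zero] at h5
            rw [hn]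
            exact h5.symm
          have h5 : ∀ i, (a i - a k / n k * n i) * OrdH_v m h p i =
              OrdH_v m h p i * eval p (pderiv i l) - a k / n k * (OrdH_v m h p i * n i) := by
            intro i
            rw [ha]
            ring
          rw [Finset.sum_congr rfl fun i _ => h5 i, Finset.sum_sub_distrib, ← Finset.mul_sum, h4, mul_zero, sub_zero]
        rw [← h3] at h1
        have h4 : eval p ((b : MvPolynomial (Fin 4) ℝ) + 1) = (b : ℝ) + 1 := by
          rw [map_add, map_natCast, map_one]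
        rw [h4] at h1
        rw [map_mul, Nat.factorial_succ]
        push_cast
        linear_combination h1
    · rintro x y ⟨G, hG1, hG2, hG3⟩ ⟨G', hG1', hG2', hG3'⟩
      refine ⟨G + G', fun w c => by rw [map_add, map_add, hG1, hG1'], ?_, fun m hm => ?_⟩
      · rw [map_add]
        have h1 := Ideal.add_mem _ hG2 hG2'
        refine (congrArg (· ∈ mI p ^ (b + 1 + 1) ⊔ Ideal.span {h}) ?_).mp h1
        ring
      · have h2 : (dX m h)^[b + 1] (x + y) = (dX m h)^[b + 1] x + (dX m h)^[b + 1] y := by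
          rw [← OrdH_D_coe]
          exact iterate_map_add (OrdH_D m h) (b + 1) x y
        rw [h2, map_add, map_add, hG3 m hm, hG3' m hm]
        ring

private theorem OrdH_one (h : MvPolynomial (Fin 4) ℝ) (p : Fin 4 → ℝ) (hp : eval p h = 0) (hg : HDI.grad p h ≠ 0)
    (g : MvPolynomial (Fin 4) ℝ) (b : ℕ) (h1 : g ∈ mI p ^ b ⊔ Ideal.span {h})
    (h2 : g ∉ mI p ^ (b + 1) ⊔ Ideal.span {h}) :
    ∃ m : Fin 4 → Fin 4 → ℝ, (∀ i j, m i j = - m j i) ∧ eval p ((dX m h)^[b] g) ≠ 0 := by
  classical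
  obtain ⟨k, hk⟩ : ∃ k, eval p (pderiv k h) ≠ 0 := by
    by_contra hcon
    push Not at hcon
    apply hg
    funext i
    exact hcon i
  obtain ⟨g', hg', y, hy, hgy⟩ := Submodule.mem_sup.1 h1
  obtain ⟨r, hr⟩ := Ideal.mem_span_singleton'.1 hy
  obtain ⟨G, hG1, hG2, hG3⟩ := OrdH_K h p k hp hk b g' hg'
  have hG0 : G ≠ 0 := by
    intro h0
    apply h2
    rw [h0, map_zero, sub_zero] at hG2
    rw [← hgy]
    exact Ideal.add_mem _ hG2 (Ideal.mem_sup_right hy)
  obtain ⟨w, hw⟩ : ∃ w : Fin 4 → ℝ, eval w G ≠ 0 := by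
    by_contra hcon
    push Not at hcon
    apply hG0
    refine MvPolynomial.funext fun w => ?_
    rw [hcon w, map_zero]
  obtain ⟨n, hn⟩ : ∃ n : Fin 4 → ℝ, n = fun i => eval p (pderiv i h) := ⟨_, rfl⟩
  have hnk : n k ≠ 0 := by
    rw [hn]
    exact hk
  -- a vector orthogonal to `n`
  obtain ⟨v, hv⟩ : ∃ v : Fin 4 → ℝ, v = Function.update w k (w k - (∑ i, n i * w i) / n k) := ⟨_, rfl⟩
  have hv1 : eval v G ≠ 0 := by
    rw [hv, hG1]
    exact hw
  have hv2 : ∑ i, n i * v i = 0 := by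
    have h3 : ∀ i, n i * v i = n i * w i - (if i = k then (∑ i, n i * w i) else 0) := by
      intro i
      rw [hv]
      split_ifs with hi
      · subst hi
        rw [Function.update_self]
        field_simp
      · rw [Function.update_of_ne hi, sub_zero]
    rw [Finset.sum_congr rfl fun i _ => h3 i, Finset.sum_sub_distrib, Finset.sum_ite_eq' Finset.univ k]
    simp
  have hN : 0 < ∑ i, n i * n i := by
    refine lt_of_lt_of_le (mul_self_pos.2 hnk) ?_
    exact Finset.single_le_sum (f := fun i => n i * n i) (fun i _ => mul_self_nonneg _) (Finset.mem_univ k)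
  obtain ⟨N, hNN⟩ : ∃ N : ℝ, N = ∑ i, n i * n i := ⟨_, rfl⟩
  rw [← hNN] at hN
  obtain ⟨m, hm⟩ : ∃ m : Fin 4 → Fin 4 → ℝ, m = fun i j => (n i * v j - v i * n j) / N := ⟨_, rfl⟩
  have hma : ∀ i j, m i j = - m j i := by
    intro i j
    rw [hm]
    ring
  refine ⟨m, hma, ?_⟩
  have hmv : OrdH_v m h p = v := by
    funext j
    unfold OrdH_v
    have h3 : ∀ i, m i j * eval p (pderiv i h) = v j / N * (n i * n i) - n j / N * (n i * v i) := by
      intro i
      rw [hm, hn]
      ring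
    rw [Finset.sum_congr rfl fun i _ => h3 i, Finset.sum_sub_distrib, ← Finset.mul_sum, ← Finset.mul_sum, hv2, ← hNN]
    field_simp
    ring
  have h3 : (dX m h)^[b] g = (dX m h)^[b] g' + (dX m h)^[b] y := by
    rw [← hgy, ← OrdH_D_coe]
    exact iterate_map_add (OrdH_D m h) b g' y
  have h4 : ∀ (b : ℕ) (r : MvPolynomial (Fin 4) ℝ), (dX m h)^[b] (r * h) = (dX m h)^[b] r * h := by
    intro b
    induction b with
    | zero =>
      intro r
      rfl
    | succ b ih =>
      intro r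
      rw [Function.iterate_succ_apply, Function.iterate_succ_apply, ← OrdH_D_apply m h (r * h), Derivation.leibniz,
        OrdH_D_apply m h h, OrdH_h hma, smul_zero, zero_add, smul_eq_mul, mul_comm h, ih, OrdH_D_apply]
  rw [h3, ← hr, h4, map_add, map_mul, hp, mul_zero, add_zero, hG3 m hma, hmv]
  exact mul_ne_zero (Nat.cast_ne_zero.2 (Nat.factorial_ne_zero b)) hv1

/-- the value at `p` of the iterated derivative is a polynomial in the matrix -/
private theorem OrdH_gen (h : MvPolynomial (Fin 4) ℝ) (p : Fin 4 → ℝ) (g : MvPolynomial (Fin 4) ℝ) (b : ℕ) :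
    ∃ Φ : MvPolynomial (Fin 4 × Fin 4) ℝ, ∀ t : Fin 4 × Fin 4 → ℝ,
      eval t Φ = eval p ((dX (fun i j => t (i, j) - t (j, i)) h)^[b] g) := by
  have h1 : ∃ G : MvPolynomial (Fin 4) (MvPolynomial (Fin 4 × Fin 4) ℝ), ∀ t : Fin 4 × Fin 4 → ℝ,
      map (eval t) G = (dX (fun i j => t (i, j) - t (j, i)) h)^[b] g := by
    induction b with
    | zero =>
      refine ⟨map C g, fun t => ?_⟩
      rw [map_map]
      have h2 : (eval t).comp (C : ℝ →+* MvPolynomial (Fin 4 × Fin 4) ℝ) = RingHom.id ℝ := by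
        refine RingHom.ext fun x => ?_
        exact eval_C x
      rw [h2, map_id]
      rfl
    | succ b ih =>
      obtain ⟨G, hG⟩ := ih
      refine ⟨∑ i, ∑ j, C (X (i, j) - X (j, i)) * map C (pderiv i h) * pderiv j G, fun t => ?_⟩
      rw [Function.iterate_succ_apply', ← hG t]
      unfold dX
      rw [map_sum]
      refine Finset.sum_congr rfl fun i _ => ?_
      rw [map_sum]
      refine Finset.sum_congr rfl fun j _ => ?_
      rw [map_mul, map_mul, map_C, map_sub, eval_X, eval_X, map_map, pderiv_map]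
      have h2 : (eval t).comp (C : ℝ →+* MvPolynomial (Fin 4 × Fin 4) ℝ) = RingHom.id ℝ := by
        refine RingHom.ext fun x => ?_
        exact eval_C x
      rw [h2, map_id]
  obtain ⟨G, hG⟩ := h1
  refine ⟨eval (fun i => C (p i)) G, fun t => ?_⟩
  rw [← hG t, eval_map]
  have h2 := eval₂_comp_left (eval t) (RingHom.id _) (fun i => C (p i)) G
  rw [RingHom.comp_id] at h2
  have h3 : (eval t ∘ fun i => C (p i)) = p := by
    funext i
    exact eval_C (p i)
  rw [h3] at h2
  exact h2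

theorem ordH (h : MvPolynomial (Fin 4) ℝ) (Q : Finset (Fin 4 → ℝ))
    (hQ : ∀ p ∈ Q, eval p h = 0 ∧ HDI.grad p h ≠ 0) (Gs : Finset (MvPolynomial (Fin 4) ℝ)) :
    ∃ m : Fin 4 → Fin 4 → ℝ, (∀ i j, m i j = - m j i) ∧ ∀ p ∈ Q, ∀ g ∈ Gs, ∀ a : ℕ,
      (∀ i < a, eval p ((dX m h)^[i] g) = 0) → g ∈ mI p ^ a ⊔ Ideal.span {h} := by
  classical
  -- for every pair a nonzero polynomial
  have h1 : ∀ q : (Fin 4 → ℝ) × MvPolynomial (Fin 4) ℝ, q.1 ∈ Q → ∃ Φ : MvPolynomial (Fin 4 × Fin 4) ℝ, Φ ≠ 0 ∧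
      ∀ t : Fin 4 × Fin 4 → ℝ, eval t Φ ≠ 0 → ∀ a : ℕ,
        (∀ i < a, eval q.1 ((dX (fun i j => t (i, j) - t (j, i)) h)^[i] q.2) = 0) →
          q.2 ∈ mI q.1 ^ a ⊔ Ideal.span {h} := by
    rintro ⟨p, g⟩ hp
    dsimp only at hp ⊢
    by_cases hall : ∀ a, g ∈ mI p ^ a ⊔ Ideal.span {h}
    · exact ⟨1, one_ne_zero, fun t _ a _ => hall a⟩
    · push Not at hall
      obtain ⟨hex, hmin⟩ := Nat.find_spec hall, fun m hm => Nat.find_min hall (m := m) hm
      obtain ⟨c, hc⟩ : ∃ c, c = Nat.find hall := ⟨_, rfl⟩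
      rw [← hc] at hex hmin
      have hc0 : c ≠ 0 := by
        intro h0
        rw [h0, pow_zero, Ideal.one_eq_top, top_sup_eq] at hex
        exact hex Submodule.mem_top
      obtain ⟨b, rfl⟩ := Nat.exists_eq_succ_of_ne_zero hc0
      have hb : g ∈ mI p ^ b ⊔ Ideal.span {h} := not_not.1 (hmin b (Nat.lt_succ_self b))
      obtain ⟨m, hm1, hm2⟩ := OrdH_one h p (hQ p hp).1 (hQ p hp).2 g b hb hex
      obtain ⟨Φ, hΦ⟩ := OrdH_gen h p g b
      refine ⟨Φ, ?_, fun t ht a ha => ?_⟩
      · intro h0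
        have h3 := hΦ (fun q => m q.1 q.2 / 2)
        rw [h0, map_zero] at h3
        have h4 : (fun i j => m i j / 2 - m j i / 2) = m := by
          funext i j
          have := hm1 i j
          linarith
        dsimp only at h3
        rw [h4] at h3
        exact hm2 h3.symm
      · by_cases hab : b < a
        · exact absurd ((hΦ t).trans (ha b hab)) ht
        · exact (sup_le_sup_right (Ideal.pow_le_pow_right (not_lt.1 hab)) _ : mI p ^ b ⊔ Ideal.span {h} ≤ mI p ^ a ⊔ Ideal.span {h}) hb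
  choose Φ hΦ0 hΦ using h1
  obtain ⟨P, hP⟩ : ∃ P : MvPolynomial (Fin 4 × Fin 4) ℝ,
      P = ∏ q ∈ (Q ×ˢ Gs).attach, Φ q.1 (Finset.mem_product.1 q.2).1 := ⟨_, rfl⟩
  have hP0 : P ≠ 0 := by
    rw [hP]
    exact Finset.prod_ne_zero_iff.2 fun q _ => hΦ0 _ _
  obtain ⟨t, ht⟩ : ∃ t : Fin 4 × Fin 4 → ℝ, eval t P ≠ 0 := by
    by_contra hcon
    push Not at hcon
    apply hP0
    refine MvPolynomial.funext fun w => ?_
    rw [hcon w, map_zero]
  refine ⟨fun i j => t (i, j) - t (j, i), fun i j => by ring, fun p hp g hg a ha => ?_⟩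
  have hq : ((p, g) : (Fin 4 → ℝ) × MvPolynomial (Fin 4) ℝ) ∈ Q ×ˢ Gs := Finset.mem_product.2 ⟨hp, hg⟩
  refine hΦ (p, g) hp t ?_ a ha
  intro h0
  apply ht
  rw [hP, map_prod]
  exact Finset.prod_eq_zero (Finset.mem_attach _ ⟨(p, g), hq⟩) h0

end D4Q
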