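import Mathlib
import Pool.Agent.D4Q.Defs

/-!
# D4Q part RES: lists of bases with classes (definitions and first lemmas)

A base is a polynomial `h` with conditions `K` (vanishing) and `G` (nonvanishing) and a list of classes `cl`.
-/

namespace D4Q

open MvPolynomial

/-- Polynomials in four variables. -/
abbrev RP := MvPolynomial (Fin 4) ℝ

/-- A class. -/
structure RsC where
  g : RP
  l : RP
  r : RP

/-- A base with its classes. -/
structure RsB where
  h : RP
  K : List RP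
  G : RP
  cl : List RsC

/-- The region of a class. -/
def RsB.Reg (b : RsB) (c : RsC) : Set (Fin 4 → ℝ) :=
  {p | eval p b.h = 0 ∧ (∀ k ∈ b.K, eval p k = 0) ∧ eval p b.G ≠ 0 ∧
    eval p c.g = 0 ∧ eval p c.l = 0 ∧ eval p c.r ≠ 0}

/-- The list of all regions. -/
def rsRegs (T : List RsB) : List (Set (Fin 4 → ℝ)) := T.flatMap fun b => b.cl.map b.Reg

/-- `T` resolves `Q` inside `S`. -/
structure RsOk (S Q : Set (Fin 4 → ℝ)) (T : List RsB) : Prop where
  pos : ∀ b ∈ T, b.h ≠ 0 ∧ 1 ≤ b.h.totalDegree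
  disj : (rsRegs T).Pairwise Disjoint
  sub : ∀ R ∈ rsRegs T, R ⊆ S
  cov : ∀ p ∈ Q, ∃ b ∈ T, ∃ c ∈ b.cl, p ∈ b.Reg c ∧
    LinearIndependent ℝ ![HDI.grad p b.h, HDI.grad p c.g]

/-- The weight of a class of a base `h`. -/
noncomputable def rsCw (h : RP) (c : RsC) : ℕ :=
  h.totalDegree * (h.totalDegree + c.g.totalDegree + c.l.totalDegree + c.r.totalDegree + 1)

/-- The weight of a base. -/
noncomputable def rsBw (b : RsB) : ℕ := (b.cl.map (rsCw b.h)).sum

/-- Bounds for the degrees. -/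
structure RsBd (w d e f q : ℕ) (T : List RsB) : Prop where
  w : (T.map fun b => b.h.totalDegree).sum ≤ w
  K : ∀ b ∈ T, ∀ k ∈ b.K, k.totalDegree ≤ d
  G : ∀ b ∈ T, b.G.totalDegree ≤ e
  c : ∀ b ∈ T, ∀ c ∈ b.cl, c.g.totalDegree ≤ f ∧ c.l.totalDegree ≤ f ∧ c.r.totalDegree ≤ f
  q : (T.map rsBw).sum ≤ q

theorem mem_rsRegs {T : List RsB} {R : Set (Fin 4 → ℝ)} :
    R ∈ rsRegs T ↔ ∃ b ∈ T, ∃ c ∈ b.cl, b.Reg c = R := by
  unfold rsRegs
  rw [List.mem_flatMap]
  refine exists_congr fun b => and_congr_right fun _ => ?_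
  rw [List.mem_map]

theorem rsRegs_append (T T' : List RsB) : rsRegs (T ++ T') = rsRegs T ++ rsRegs T' := by
  unfold rsRegs
  rw [List.flatMap_append]

theorem RsOk.nil (S : Set (Fin 4 → ℝ)) : RsOk S ∅ [] where
  pos b hb := absurd hb List.not_mem_nil
  disj := List.Pairwise.nil
  sub R hR := absurd hR List.not_mem_nil
  cov p hp := absurd hp (Set.notMem_empty p)

theorem RsOk.mono {S S' Q Q' : Set (Fin 4 → ℝ)} {T : List RsB} (h : RsOk S Q T) (hS : S ⊆ S')
    (hQ : Q' ⊆ Q) : RsOk S' Q' T where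
  pos := h.pos
  disj := h.disj
  sub R hR := (h.sub R hR).trans hS
  cov p hp := h.cov p (hQ hp)

theorem RsOk.append {S S' Q Q' : Set (Fin 4 → ℝ)} {T T' : List RsB} (h : RsOk S Q T)
    (h' : RsOk S' Q' T') (hd : Disjoint S S') : RsOk (S ∪ S') (Q ∪ Q') (T ++ T') where
  pos b hb := by
    rcases List.mem_append.1 hb with hb | hb
    · exact h.pos b hb
    · exact h'.pos b hb
  disj := by
    rw [rsRegs_append, List.pairwise_append]
    refine ⟨h.disj, h'.disj, fun R hR R' hR' => ?_⟩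
    exact hd.mono (h.sub R hR) (h'.sub R' hR')
  sub R hR := by
    rw [rsRegs_append, List.mem_append] at hR
    rcases hR with hR | hR
    · exact (h.sub R hR).trans Set.subset_union_left
    · exact (h'.sub R hR).trans Set.subset_union_right
  cov p hp := by
    rcases hp with hp | hp
    · obtain ⟨b, hb, c, hc, h1, h2⟩ := h.cov p hp
      exact ⟨b, List.mem_append_left _ hb, c, hc, h1, h2⟩
    · obtain ⟨b, hb, c, hc, h1, h2⟩ := h'.cov p hp
      exact ⟨b, List.mem_append_right _ hb, c, hc, h1, h2⟩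

/-- More conditions: the polynomials of `ks` vanish, `G0` does not. -/
noncomputable def rsR (ks : List RP) (G0 : RP) (T : List RsB) : List RsB :=
  T.map fun b => ⟨b.h, ks ++ b.K, G0 * b.G, b.cl⟩

theorem rsR_reg (ks : List RP) (G0 : RP) (b : RsB) (c : RsC) :
    RsB.Reg ⟨b.h, ks ++ b.K, G0 * b.G, b.cl⟩ c =
      b.Reg c ∩ {p | (∀ k ∈ ks, eval p k = 0) ∧ eval p G0 ≠ 0} := by
  ext p
  simp only [RsB.Reg, Set.mem_setOf_eq, Set.mem_inter_iff, List.mem_append, map_mul, mul_ne_zero_iff]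
  constructor
  · rintro ⟨h1, h2, ⟨h3, h4⟩, h5⟩
    exact ⟨⟨h1, fun k hk => h2 k (Or.inr hk), h4, h5⟩, fun k hk => h2 k (Or.inl hk), h3⟩
  · rintro ⟨⟨h1, h2, h4, h5⟩, h6, h3⟩
    exact ⟨h1, fun k hk => hk.elim (h6 k) (h2 k), ⟨h3, h4⟩, h5⟩

theorem RsOk.restrict {S Q : Set (Fin 4 → ℝ)} {T : List RsB} (h : RsOk S Q T) (ks : List RP)
    (G0 : RP) : RsOk (S ∩ {p | (∀ k ∈ ks, eval p k = 0) ∧ eval p G0 ≠ 0})
      (Q ∩ {p | (∀ k ∈ ks, eval p k = 0) ∧ eval p G0 ≠ 0}) (rsR ks G0 T) where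
  pos b hb := by
    obtain ⟨b', hb', rfl⟩ := List.mem_map.1 hb
    exact h.pos b' hb'
  disj := by
    have h1 : rsRegs (rsR ks G0 T) = (rsRegs T).map
        fun R => R ∩ {p | (∀ k ∈ ks, eval p k = 0) ∧ eval p G0 ≠ 0} := by
      unfold rsRegs rsR
      rw [List.flatMap_map, List.map_flatMap]
      congr 1
      funext b
      rw [List.map_map]
      refine List.map_congr_left fun c _ => ?_
      exact rsR_reg ks G0 b c
    rw [h1, List.pairwise_map]
    exact h.disj.imp fun hd => hd.mono Set.inter_subset_left Set.inter_subset_left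
  sub R hR := by
    obtain ⟨b, hb, c, hc, rfl⟩ := mem_rsRegs.1 hR
    obtain ⟨b', hb', rfl⟩ := List.mem_map.1 hb
    rw [rsR_reg]
    exact Set.inter_subset_inter_left _ (h.sub _ (mem_rsRegs.2 ⟨b', hb', c, hc, rfl⟩))
  cov p hp := by
    obtain ⟨b, hb, c, hc, h1, h2⟩ := h.cov p hp.1
    refine ⟨⟨b.h, ks ++ b.K, G0 * b.G, b.cl⟩, List.mem_map.2 ⟨b, hb, rfl⟩, c, hc, ?_, h2⟩
    rw [rsR_reg]
    exact ⟨h1, hp.2⟩

theorem RsBd.nil : RsBd 0 0 0 0 0 [] where
  w := le_refl _
  K b hb := absurd hb List.not_mem_nil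
  G b hb := absurd hb List.not_mem_nil
  c b hb := absurd hb List.not_mem_nil
  q := le_refl _

theorem RsBd.mono {w d e f q w' d' e' f' q' : ℕ} {T : List RsB} (h : RsBd w d e f q T)
    (hw : w ≤ w') (hd : d ≤ d') (he : e ≤ e') (hf : f ≤ f') (hq : q ≤ q') :
    RsBd w' d' e' f' q' T where
  w := h.w.trans hw
  K b hb k hk := (h.K b hb k hk).trans hd
  G b hb := (h.G b hb).trans he
  c b hb c hc := ⟨(h.c b hb c hc).1.trans hf, (h.c b hb c hc).2.1.trans hf,
    (h.c b hb c hc).2.2.trans hf⟩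
  q := h.q.trans hq

theorem RsBd.append {w d e f q w' q' : ℕ} {T T' : List RsB} (h : RsBd w d e f q T)
    (h' : RsBd w' d e f q' T') : RsBd (w + w') d e f (q + q') (T ++ T') where
  w := by
    rw [List.map_append, List.sum_append]
    exact add_le_add h.w h'.w
  K b hb := by
    rcases List.mem_append.1 hb with hb | hb
    · exact h.K b hb
    · exact h'.K b hb
  G b hb := by
    rcases List.mem_append.1 hb with hb | hb
    · exact h.G b hb
    · exact h'.G b hb
  c b hb := by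
    rcases List.mem_append.1 hb with hb | hb
    · exact h.c b hb
    · exact h'.c b hb
  q := by
    rw [List.map_append, List.sum_append]
    exact add_le_add h.q h'.q

theorem RsBd.restrict {w d e f q : ℕ} {T : List RsB} (h : RsBd w d e f q T) (ks : List RP)
    (G0 : RP) (hk : ∀ k ∈ ks, k.totalDegree ≤ d) :
    RsBd w d (G0.totalDegree + e) f q (rsR ks G0 T) where
  w := by
    unfold rsR
    rw [List.map_map]
    exact h.w
  K b hb k hk' := by
    obtain ⟨b', hb', rfl⟩ := List.mem_map.1 hb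
    rcases List.mem_append.1 hk' with hk' | hk'
    · exact hk k hk'
    · exact h.K b' hb' k hk'
  G b hb := by
    obtain ⟨b', hb', rfl⟩ := List.mem_map.1 hb
    exact (totalDegree_mul _ _).trans (add_le_add le_rfl (h.G b' hb'))
  c b hb := by
    obtain ⟨b', hb', rfl⟩ := List.mem_map.1 hb
    exact h.c b' hb'
  q := by
    unfold rsR
    rw [List.map_map]
    exact h.q

/-- The induction statement. -/
def RsP (A1 A2 A3 A3' A4 n : ℕ) : Prop := ∀ (u v : RP) (Q : Finset (Fin 4 → ℝ)),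
  u ≠ 0 → IsRelPrime u v → (∀ p ∈ Q, eval p u = 0 ∧ eval p v = 0) → u.totalDegree ≤ n →
  ∃ T : List RsB, RsOk {p | eval p u = 0} (Q : Set (Fin 4 → ℝ)) T ∧
    RsBd (A1 * u.totalDegree) u.totalDegree (A2 * u.totalDegree)
      (A3 * u.totalDegree + A3' * v.totalDegree)
      (A4 * u.totalDegree * (u.totalDegree + v.totalDegree)) T

end D4Q
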