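import Mathlib
import Pool.Agent.D4Q.RES_D

/-!
# D4Q-RES_Cv: from lists to tables

The table of a list `T` of bases: the bases are the positions of `T`, the classes the positions in the lists of classes, and
the conditions `K` of a base are replaced by the sum of their squares.
-/

namespace D4Q

open MvPolynomial

/-- the sum of the squares -/
private noncomputable def RES_Cv_sq (K : List RP) : RP := (K.map fun k => k ^ 2).sum

private theorem RES_Cv_eval (K : List RP) (p : Fin 4 → ℝ) :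
    0 ≤ eval p (RES_Cv_sq K) ∧ (eval p (RES_Cv_sq K) = 0 ↔ ∀ k ∈ K, eval p k = 0) := by
  induction K with
  | nil =>
    unfold RES_Cv_sq
    simp
  | cons k K ih =>
    have e1 : eval p (RES_Cv_sq (k :: K)) = eval p k ^ 2 + eval p (RES_Cv_sq K) := by
      unfold RES_Cv_sq
      rw [List.map_cons, List.sum_cons, map_add, map_pow]
    have h2 := sq_nonneg (eval p k)
    rw [e1]
    refine ⟨add_nonneg h2 ih.1, ?_⟩
    rw [List.forall_mem_cons, ← ih.2]
    constructor
    · intro h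
      have h3 : eval p k ^ 2 = 0 := by linarith [ih.1]
      refine ⟨by simpa using h3, by linarith [ih.1]⟩
    · rintro ⟨h3, h4⟩
      rw [h3, h4]
      norm_num

private theorem RES_Cv_deg (K : List RP) {d : ℕ} (h : ∀ k ∈ K, k.totalDegree ≤ d) :
    (RES_Cv_sq K).totalDegree ≤ 2 * d := by
  induction K with
  | nil =>
    unfold RES_Cv_sq
    simp
  | cons k K ih =>
    have e1 : RES_Cv_sq (k :: K) = k ^ 2 + RES_Cv_sq K := by
      unfold RES_Cv_sq
      rw [List.map_cons, List.sum_cons]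
    rw [e1]
    refine (totalDegree_add _ _).trans (max_le ?_ (ih fun k' hk' => h k' (List.mem_cons_of_mem _ hk')))
    refine (totalDegree_pow _ _).trans ?_
    exact Nat.mul_le_mul_left 2 (h k List.mem_cons_self)

private theorem RES_Cv_sum {α : Type} (f : α → ℕ) (T : List α) :
    ∑ b : Fin T.length, f (T.get b) = (T.map f).sum := by
  induction T with
  | nil => simp
  | cons a T ih =>
    rw [List.map_cons, List.sum_cons, ← ih]
    exact Fin.sum_univ_succ (n := T.length) fun b : Fin (T.length + 1) => f ((a :: T).get b)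

/-- the table of a list -/
private noncomputable def RES_Cv_tab (T : List RsB) :
    Tab (Fin T.length) ((b : Fin T.length) × Fin (T.get b).cl.length) where
  β c := c.1
  h b := (T.get b).h
  κ b := RES_Cv_sq (T.get b).K
  G b := (T.get b).G
  g c := ((T.get c.1).cl.get c.2).g
  l c := ((T.get c.1).cl.get c.2).l
  r c := ((T.get c.1).cl.get c.2).r

private theorem RES_Cv_reg (T : List RsB) (c : (b : Fin T.length) × Fin (T.get b).cl.length) :
    (RES_Cv_tab T).Reg c = (T.get c.1).Reg ((T.get c.1).cl.get c.2) := by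
  ext p
  show (eval p (T.get c.1).h = 0 ∧ eval p (RES_Cv_sq (T.get c.1).K) = 0 ∧ _) ↔
    (eval p (T.get c.1).h = 0 ∧ (∀ k ∈ (T.get c.1).K, eval p k = 0) ∧ _)
  rw [(RES_Cv_eval (T.get c.1).K p).2]
  exact Iff.rfl

private theorem RES_Cv_disj {T : List RsB} (h : (rsRegs T).Pairwise Disjoint)
    {c c' : (b : Fin T.length) × Fin (T.get b).cl.length} (hc : c ≠ c') :
    Disjoint ((RES_Cv_tab T).Reg c) ((RES_Cv_tab T).Reg c') := by
  unfold rsRegs at h
  rw [List.pairwise_flatMap] at h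
  obtain ⟨h1, h2⟩ := h
  have key : ∀ c c' : (b : Fin T.length) × Fin (T.get b).cl.length, c.1 < c'.1 →
      Disjoint ((RES_Cv_tab T).Reg c) ((RES_Cv_tab T).Reg c') := by
    intro c c' hlt
    rw [RES_Cv_reg, RES_Cv_reg]
    have h3 := (List.pairwise_iff_getElem.1 h2) c.1.1 c'.1.1 c.1.2 c'.1.2 hlt
    exact h3 _ (List.mem_map.2 ⟨_, List.get_mem _ _, rfl⟩) _ (List.mem_map.2 ⟨_, List.get_mem _ _, rfl⟩)
  have key2 : ∀ (b : Fin T.length) (i i' : Fin (T.get b).cl.length), i < i' →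
      Disjoint ((RES_Cv_tab T).Reg ⟨b, i⟩) ((RES_Cv_tab T).Reg ⟨b, i'⟩) := by
    intro b i i' hlt
    rw [RES_Cv_reg, RES_Cv_reg]
    have h3 := h1 (T.get b) (List.get_mem _ _)
    rw [List.pairwise_map] at h3
    exact (List.pairwise_iff_getElem.1 h3) i.1 i'.1 i.2 i'.2 hlt
  obtain ⟨b, i⟩ := c
  obtain ⟨b', i'⟩ := c'
  rcases lt_trichotomy b b' with hb | hb | hb
  · exact key _ _ hb
  · subst hb
    rcases lt_trichotomy i i' with hi | hi | hi
    · exact key2 b i i' hi
    · subst hi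
      exact absurd rfl hc
    · exact (key2 b i' i hi).symm
  · exact (key _ _ hb).symm

theorem rs_conv {T : List RsB} {S Q : Set (Fin 4 → ℝ)} (h : RsOk S Q T) {w d e f q : ℕ}
    (hb : RsBd w d e f q T) :
    ∃ (B L : Type) (_ : Fintype B) (_ : Fintype L) (U : Tab B L),
      (∀ b, U.h b ≠ 0 ∧ 1 ≤ (U.h b).totalDegree) ∧
      (∀ c c', c ≠ c' → Disjoint (U.Reg c) (U.Reg c')) ∧
      (∀ c, U.Reg c ⊆ S) ∧
      (∀ p ∈ Q, ∃ c, p ∈ U.Reg c ∧
        LinearIndependent ℝ ![HDI.grad p (U.h (U.β c)), HDI.grad p (U.g c)]) ∧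
      (∑ b, (U.h b).totalDegree ≤ w) ∧
      (∀ b, (U.κ b).totalDegree ≤ 2 * d ∧ (U.G b).totalDegree ≤ e) ∧
      (∀ c, (U.g c).totalDegree ≤ f ∧ (U.l c).totalDegree ≤ f ∧ (U.r c).totalDegree ≤ f) ∧
      ∑ c, (U.h (U.β c)).totalDegree * ((U.h (U.β c)).totalDegree + (U.g c).totalDegree +
        (U.l c).totalDegree + (U.r c).totalDegree + 1) ≤ q := by
  refine ⟨Fin T.length, (b : Fin T.length) × Fin (T.get b).cl.length, inferInstance, inferInstance,
    RES_Cv_tab T, ?_, ?_, ?_, ?_, ?_, ?_, ?_, ?_⟩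
  · exact fun b => h.pos _ (List.get_mem _ _)
  · exact fun c c' hc => RES_Cv_disj h.disj hc
  · intro c
    rw [RES_Cv_reg]
    exact h.sub _ (mem_rsRegs.2 ⟨_, List.get_mem _ _, _, List.get_mem _ _, rfl⟩)
  · intro p hp
    obtain ⟨b, hbT, c, hc, h1, h2⟩ := h.cov p hp
    obtain ⟨i, rfl⟩ := List.mem_iff_get.1 hbT
    obtain ⟨j, rfl⟩ := List.mem_iff_get.1 hc
    refine ⟨⟨i, j⟩, ?_, h2⟩
    rw [RES_Cv_reg]
    exact h1
  · refine le_trans (le_of_eq ?_) hb.w
    exact RES_Cv_sum (fun b => b.h.totalDegree) T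
  · exact fun b => ⟨RES_Cv_deg _ (hb.K _ (List.get_mem _ _)), hb.G _ (List.get_mem _ _)⟩
  · exact fun c => hb.c _ (List.get_mem _ _) _ (List.get_mem _ _)
  · refine le_trans (le_of_eq ?_) hb.q
    rw [Fintype.sum_sigma, ← RES_Cv_sum rsBw T]
    refine Finset.sum_congr rfl fun b _ => ?_
    exact RES_Cv_sum (rsCw (T.get b).h) (T.get b).cl

end D4Q
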