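import Mathlib
import Pool.Agent.D4Q.Defs

/-!
# D4Q-RES_Fc: irreducible factors

Irreducible factors of a polynomial in four variables: a list of them which catches all zeros, gradients of
factors, degrees and divisibility.
-/

namespace D4Q

open MvPolynomial

theorem rs_factor (u : MvPolynomial (Fin 4) ℝ) (hu : u ≠ 0) :
    ∃ us : List (MvPolynomial (Fin 4) ℝ), (∀ f ∈ us, Irreducible f ∧ f ∣ u) ∧
      (us.map fun f => f.totalDegree).sum ≤ u.totalDegree ∧
      ∀ p : Fin 4 → ℝ, eval p u = 0 → ∃ f ∈ us, eval p f = 0 := by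
  induction u using WfDvdMonoid.induction_on_irreducible with
  | zero => exact absurd rfl hu
  | unit u hun =>
    refine ⟨[], fun f hf => absurd hf List.not_mem_nil, by simp, fun p hp => ?_⟩
    exact absurd hp ((hun.map (eval p)).ne_zero)
  | mul a i ha hi ih =>
    obtain ⟨us, h1, h2, h3⟩ := ih ha
    refine ⟨i :: us, ?_, ?_, ?_⟩
    · intro f hf
      rcases List.mem_cons.1 hf with rfl | hf
      · exact ⟨hi, dvd_mul_right _ _⟩
      · exact ⟨(h1 f hf).1, (h1 f hf).2.mul_left _⟩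
    · rw [List.map_cons, List.sum_cons, totalDegree_mul_of_isDomain hi.ne_zero ha]
      omega
    · intro p hp
      rw [map_mul, mul_eq_zero] at hp
      rcases hp with hp | hp
      · exact ⟨i, List.mem_cons_self, hp⟩
      · obtain ⟨f, hf, hf'⟩ := h3 p hp
        exact ⟨f, List.mem_cons_of_mem _ hf, hf'⟩

theorem rs_grad_factor {u f : MvPolynomial (Fin 4) ℝ} (hf : f ∣ u) {p : Fin 4 → ℝ}
    (hp : eval p f = 0) (hg : HDI.grad p u ≠ 0) : HDI.grad p f ≠ 0 := by
  obtain ⟨w, rfl⟩ := hf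
  intro h
  apply hg
  funext i
  have hi : eval p (pderiv i f) = 0 := congrFun h i
  change eval p (pderiv i (f * w)) = 0
  rw [Derivation.leibniz, map_add, smul_eq_mul, smul_eq_mul, map_mul, map_mul, hp, hi]
  ring

theorem rs_irr_deg {h : MvPolynomial (Fin 4) ℝ} (hh : Irreducible h) : 1 ≤ h.totalDegree := by
  by_contra hc
  have h0 : h.totalDegree = 0 := by omega
  rw [totalDegree_eq_zero_iff_eq_C] at h0
  apply hh.not_isUnit
  rw [isUnit_iff_eq_C_of_isReduced]
  refine ⟨_, ?_, h0⟩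
  rw [isUnit_iff_ne_zero]
  intro h1
  rw [h1, C_0] at h0
  exact hh.ne_zero h0

theorem rs_not_dvd {h f : MvPolynomial (Fin 4) ℝ} (hf : f ≠ 0)
    (hd : f.totalDegree < h.totalDegree) : ¬ h ∣ f := fun hdv =>
  absurd (totalDegree_le_of_dvd_of_isDomain hdv hf) (not_le.2 hd)

theorem rs_irr_dvd {h f : MvPolynomial (Fin 4) ℝ} (hh : Irreducible h) (hf : Irreducible f)
    (hd : f.totalDegree < h.totalDegree) : ¬ f ∣ h := fun hdv =>
  rs_not_dvd hf.ne_zero hd ((hf.dvd_comm hh).1 hdv)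

theorem rs_relprime {h f : MvPolynomial (Fin 4) ℝ} (hh : Irreducible h) (hf : ¬ h ∣ f) :
    IsRelPrime f h :=
  (hh.isRelPrime_iff_not_dvd.2 hf).symm

end D4Q
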