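import Mathlib
import Pool.Agent.D4Q.MD

/-!
# D4Q-RES_Sh: polynomials of small degree through the points of high multiplicity

`sharp0`: let `C` be the constant of `md0` and `Z ε` the property: every `f` of degree `< ε` which vanishes on `Q` is `0`. `Z 0` holds. By `md0`
`Z ε` implies `a ε ≤ C deg h`, so `Z ε` fails for large `ε`; let `m + 1` be the least number for which it fails:
there is `f ≠ 0` vanishing on `Q` of degree `≤ m`, and `a deg f ≤ a m ≤ C deg h`. `sharpH`: the same with `mdH` and `h ∣ f` in place of `f = 0`.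
-/

namespace D4Q

open MvPolynomial

theorem sharp0 : ∃ C : ℕ, 1 ≤ C ∧ ∀ (h : MvPolynomial (Fin 4) ℝ), h ≠ 0 → ∀ (a : ℕ), 1 ≤ a →
    ∀ (Q : Finset (Fin 4 → ℝ)), (∀ p ∈ Q, h ∈ mI p ^ a) →
    ∃ f : MvPolynomial (Fin 4) ℝ, f ≠ 0 ∧ (∀ p ∈ Q, eval p f = 0) ∧
      a * f.totalDegree ≤ C * h.totalDegree := by
  classical
  obtain ⟨C0, hC0⟩ := md0
  refine ⟨C0 + 1, by omega, fun h hh a ha Q hQ => ?_⟩
  have hex : ∃ ε : ℕ, ¬ ∀ f : MvPolynomial (Fin 4) ℝ, f.totalDegree < ε → (∀ p ∈ Q, eval p f = 0) → f = 0 := by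
    refine ⟨C0 * h.totalDegree + 1, fun hz => ?_⟩
    have h1 := hC0 h hh a ha Q hQ _ hz
    have h2 := Nat.mul_le_mul_right (C0 * h.totalDegree + 1) ha
    omega
  obtain ⟨m, hm1, hm2⟩ : ∃ m : ℕ, (∀ f : MvPolynomial (Fin 4) ℝ, f.totalDegree < m →
      (∀ p ∈ Q, eval p f = 0) → f = 0) ∧ ¬ ∀ f : MvPolynomial (Fin 4) ℝ, f.totalDegree < m + 1 →
      (∀ p ∈ Q, eval p f = 0) → f = 0 := by
    have h1 := Nat.find_spec hex
    have h2 : Nat.find hex ≠ 0 := by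
      intro h0
      rw [h0] at h1
      exact h1 fun f hf => absurd hf (Nat.not_lt_zero _)
    obtain ⟨m, hm⟩ := Nat.exists_eq_succ_of_ne_zero h2
    refine ⟨m, ?_, by rwa [hm] at h1⟩
    have h3 := Nat.find_min hex (m := m) (by omega)
    exact not_not.1 h3
  push Not at hm2
  obtain ⟨f, hf1, hf2, hf3⟩ := hm2
  refine ⟨f, hf3, hf2, ?_⟩
  have h1 := hC0 h hh a ha Q hQ m hm1
  calc a * f.totalDegree ≤ a * m := Nat.mul_le_mul_left a (by omega)
    _ ≤ C0 * h.totalDegree := h1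
    _ ≤ (C0 + 1) * h.totalDegree := Nat.mul_le_mul_right _ (by omega)

theorem sharpH : ∃ C : ℕ, 1 ≤ C ∧ ∀ (h g : MvPolynomial (Fin 4) ℝ), Irreducible h → ¬ h ∣ g →
    ∀ (a : ℕ), 1 ≤ a → ∀ (Q : Finset (Fin 4 → ℝ)),
    (∀ p ∈ Q, eval p h = 0 ∧ g ∈ mI p ^ a ⊔ Ideal.span {h}) →
    ∃ f : MvPolynomial (Fin 4) ℝ, ¬ h ∣ f ∧ (∀ p ∈ Q, eval p f = 0) ∧
      (a * f.totalDegree ≤ C * g.totalDegree ∨
        a * f.totalDegree ^ 2 ≤ C * g.totalDegree * h.totalDegree) := by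
  classical
  obtain ⟨C0, hC0⟩ := mdH
  refine ⟨C0 + 1, by omega, fun h g hh hg a ha Q hQ => ?_⟩
  have hex : ∃ ε : ℕ, ¬ ∀ f : MvPolynomial (Fin 4) ℝ, f.totalDegree < ε → (∀ p ∈ Q, eval p f = 0) → h ∣ f := by
    refine ⟨C0 * g.totalDegree + C0 * g.totalDegree * h.totalDegree + 1, fun hz => ?_⟩
    rcases hC0 h g hh hg a ha Q hQ _ hz with h1 | h1
    · have h2 := Nat.mul_le_mul_right (C0 * g.totalDegree + C0 * g.totalDegree * h.totalDegree + 1) ha
      have h3 : 0 ≤ C0 * g.totalDegree * h.totalDegree := Nat.zero_le _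
      omega
    · have h2 := Nat.mul_le_mul_right ((C0 * g.totalDegree + C0 * g.totalDegree * h.totalDegree + 1) ^ 2) ha
      have h3 := Nat.le_self_pow (n := 2) (by norm_num) (C0 * g.totalDegree + C0 * g.totalDegree * h.totalDegree + 1)
      have h4 : 0 ≤ C0 * g.totalDegree := Nat.zero_le _
      omega
  obtain ⟨m, hm1, hm2⟩ : ∃ m : ℕ, (∀ f : MvPolynomial (Fin 4) ℝ, f.totalDegree < m →
      (∀ p ∈ Q, eval p f = 0) → h ∣ f) ∧ ¬ ∀ f : MvPolynomial (Fin 4) ℝ, f.totalDegree < m + 1 →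
      (∀ p ∈ Q, eval p f = 0) → h ∣ f := by
    have h1 := Nat.find_spec hex
    have h2 : Nat.find hex ≠ 0 := by
      intro h0
      rw [h0] at h1
      exact h1 fun f hf => absurd hf (Nat.not_lt_zero _)
    obtain ⟨m, hm⟩ := Nat.exists_eq_succ_of_ne_zero h2
    refine ⟨m, ?_, by rwa [hm] at h1⟩
    have h3 := Nat.find_min hex (m := m) (by omega)
    exact not_not.1 h3
  push Not at hm2
  obtain ⟨f, hf1, hf2, hf3⟩ := hm2
  refine ⟨f, hf3, hf2, ?_⟩
  have hle : f.totalDegree ≤ m := by omega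
  rcases hC0 h g hh hg a ha Q hQ m hm1 with h1 | h1
  · left
    calc a * f.totalDegree ≤ a * m := Nat.mul_le_mul_left a hle
      _ ≤ C0 * g.totalDegree := h1
      _ ≤ (C0 + 1) * g.totalDegree := Nat.mul_le_mul_right _ (by omega)
  · right
    calc a * f.totalDegree ^ 2 ≤ a * m ^ 2 := Nat.mul_le_mul_left a (Nat.pow_le_pow_left hle 2)
      _ ≤ C0 * g.totalDegree * h.totalDegree := h1
      _ ≤ (C0 + 1) * g.totalDegree * h.totalDegree :=
        Nat.mul_le_mul_right _ (Nat.mul_le_mul_right _ (by omega))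

end D4Q
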