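import Mathlib
import Pool.Agent.D4Q.RES_Sh
import Pool.Agent.D4Q.RES_Fc

/-!
# D4Q-RES_Ch: the chain of second polynomials

Strong induction on the degree of `g0`: if `N deg g0 < deg h` the chain is `g0` alone. Otherwise `sharpH` for the points at
which `g0` has high multiplicity on `h = 0` gives a polynomial of at most half the degree, and its chain is shifted by one.
-/

namespace D4Q

open MvPolynomial

/-- A chain of second polynomials for the base `h`. -/
structure RsCh (N a2 : ℕ) (h : MvPolynomial (Fin 4) ℝ) (Q : Finset (Fin 4 → ℝ)) (J : ℕ)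
    (g : ℕ → MvPolynomial (Fin 4) ℝ) : Prop where
  nd : ∀ t ≤ J, ¬ h ∣ g t
  half : ∀ t < J, 2 * (g (t + 1)).totalDegree ≤ (g t).totalDegree
  big : ∀ t < J, h.totalDegree ≤ N * (g t).totalDegree
  small : N * (g J).totalDegree < h.totalDegree
  next : ∀ t < J, ∀ p ∈ Q, eval p (g t) = 0 → g t ∈ mI p ^ a2 ⊔ Ideal.span {h} →
    eval p (g (t + 1)) = 0

private theorem RES_Ch_deg {C N d D H : ℕ} (hC : 1 ≤ C) (hH : H ≤ N * D)
    (h : 4 * C * (N + 1) * d ≤ C * D ∨ 4 * C * (N + 1) * d ^ 2 ≤ C * D * H) : 2 * d ≤ D := by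
  rcases h with h | h
  · have h1 : C * (4 * (N + 1) * d) ≤ C * D := by
      calc C * (4 * (N + 1) * d) = 4 * C * (N + 1) * d := by ring
        _ ≤ C * D := h
    have h2 : 4 * (N + 1) * d ≤ D := Nat.le_of_mul_le_mul_left h1 (by omega)
    nlinarith
  · have h1 : C * (4 * (N + 1) * d ^ 2) ≤ C * (D * H) := by
      calc C * (4 * (N + 1) * d ^ 2) = 4 * C * (N + 1) * d ^ 2 := by ring
        _ ≤ C * D * H := h
        _ = C * (D * H) := by ring
    have h2 : 4 * (N + 1) * d ^ 2 ≤ D * H := Nat.le_of_mul_le_mul_left h1 (by omega)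
    have h3 : D * H ≤ D * (N * D) := Nat.mul_le_mul_left _ hH
    have h4 : (N + 1) * (2 * d) ^ 2 ≤ (N + 1) * D ^ 2 := by nlinarith
    have h5 : (2 * d) ^ 2 ≤ D ^ 2 := Nat.le_of_mul_le_mul_left h4 (by omega)
    exact (Nat.pow_le_pow_iff_left (by norm_num)).1 h5

theorem rs_chain (N : ℕ) : ∃ a2 : ℕ, 1 ≤ a2 ∧ ∀ (h : MvPolynomial (Fin 4) ℝ), Irreducible h →
    ∀ (Q : Finset (Fin 4 → ℝ)), (∀ p ∈ Q, eval p h = 0) → ∀ g0 : MvPolynomial (Fin 4) ℝ,
    ¬ h ∣ g0 → ∃ (J : ℕ) (g : ℕ → MvPolynomial (Fin 4) ℝ), g 0 = g0 ∧ RsCh N a2 h Q J g := by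
  classical
  obtain ⟨C, hC, hsharp⟩ := sharpH
  have ha2 : 1 ≤ 4 * C * (N + 1) := by
    have h1 : 1 ≤ C * (N + 1) := Nat.mul_pos hC (Nat.succ_pos N)
    have h2 : 4 * C * (N + 1) = 4 * (C * (N + 1)) := by ring
    omega
  refine ⟨4 * C * (N + 1), ha2, ?_⟩
  intro h hirr Q hQ g0
  generalize hn : g0.totalDegree = n
  induction n using Nat.strong_induction_on generalizing g0 with
  | _ n ih =>
    intro hg0
    by_cases hs : N * g0.totalDegree < h.totalDegree
    · refine ⟨0, fun _ => g0, rfl, ?_⟩
      exact { nd := fun t _ => hg0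
              half := fun t ht => absurd ht (Nat.not_lt_zero t)
              big := fun t ht => absurd ht (Nat.not_lt_zero t)
              small := hs
              next := fun t ht => absurd ht (Nat.not_lt_zero t) }
    · have hs' : h.totalDegree ≤ N * g0.totalDegree := not_lt.1 hs
      obtain ⟨f, hf1, hf2, hf3⟩ := hsharp h g0 hirr hg0 (4 * C * (N + 1)) ha2
        (Q.filter fun p => eval p g0 = 0 ∧ g0 ∈ mI p ^ (4 * C * (N + 1)) ⊔ Ideal.span {h})
        (fun p hp => ⟨hQ p (Finset.mem_filter.1 hp).1, (Finset.mem_filter.1 hp).2.2⟩)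
      have hd : 2 * f.totalDegree ≤ g0.totalDegree := RES_Ch_deg hC hs' hf3
      have hpos : 1 ≤ g0.totalDegree := by
        have h1 := rs_irr_deg hirr
        rcases Nat.eq_zero_or_pos g0.totalDegree with h2 | h2
        · rw [h2, Nat.mul_zero] at hs'
          omega
        · exact h2
      obtain ⟨J, g, hg, hch⟩ := ih f.totalDegree (by omega) f rfl hf1
      refine ⟨J + 1, fun t => Nat.casesOn t g0 g, rfl, ?_⟩
      refine { nd := ?_, half := ?_, big := ?_, small := ?_, next := ?_ }
      · intro t ht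
        cases t with
        | zero => exact hg0
        | succ t => exact hch.nd t (by omega)
      · intro t ht
        cases t with
        | zero =>
          show 2 * (g 0).totalDegree ≤ g0.totalDegree
          rw [hg]
          exact hd
        | succ t => exact hch.half t (by omega)
      · intro t ht
        cases t with
        | zero => exact hs'
        | succ t => exact hch.big t (by omega)
      · exact hch.small
      · intro t ht
        cases t with
        | zero =>
          intro p hp h1 h2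
          show eval p (g 0) = 0
          rw [hg]
          exact hf2 p (Finset.mem_filter.2 ⟨hp, h1, h2⟩)
        | succ t => exact hch.next t (by omega)

end D4Q
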