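import Mathlib
import Pool.Agent.D4Q.Defs

/-!
# D4Q-RES_Dg: degrees and gradients for the derivations

PLAN. `totalDegree_pderiv_le`-type bound: `deg (pderiv i f) ≤ deg f`, and `< deg f` if `deg f ≥ 1` (Mathlib: `MvPolynomial.totalDegree_pderiv_le` or from `support`; see HDI/Deriv or search the pool for
`totalDegree_pderiv`). `deg_dnu_it`: `deg ((dnu ν)^[i] h) ≤ deg h - i` (iterate; `dnu ν` of a constant is `0`, of degree `0`). `deg_dX_it`: `deg (dX m h g) ≤ deg h + deg g`,
induction. `grad_of_dnu`: `eval p (dnu ν f) = ∑ i, ν i * grad p f i`. `li_of_dX`: `eval p (dX m h g) = ∑ i, ∑ j, m i j * grad p h i * grad p g j`; if the gradients are linearly dependent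
(`LinearIndependent.pair_iff`: `s • grad h + t • grad g = 0`, `s` or `t` nonzero), one of them is a multiple of the other, and the sum is `0` by antisymmetry
(`∑ i j, m i j n i n j = 0`: it is equal to its negative).
-/

namespace D4Q

open MvPolynomial

private theorem Dg_pd (i : Fin 4) (P : MvPolynomial (Fin 4) ℝ) :
    (pderiv i P).totalDegree ≤ P.totalDegree - 1 := by
  classical
  rw [MvPolynomial.totalDegree]
  refine Finset.sup_le fun m hm => ?_
  rw [mem_support_iff, coeff_pderiv] at hm
  have h1 : coeff (m + Finsupp.single i 1) P ≠ 0 := left_ne_zero_of_mul hm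
  have h2 := le_totalDegree (mem_support_iff.mpr h1)
  rw [Finsupp.sum_add_index' (fun _ => rfl) (fun _ _ _ => rfl), Finsupp.sum_single_index rfl]
    at h2
  omega

private theorem Dg_dnu (ν : Fin 4 → ℝ) (h : MvPolynomial (Fin 4) ℝ) :
    (dnu ν h).totalDegree ≤ h.totalDegree - 1 := by
  unfold dnu
  refine totalDegree_finsetSum_le fun i _ => (totalDegree_mul _ _).trans ?_
  rw [totalDegree_C, zero_add]
  exact Dg_pd i h

theorem deg_dnu_it (ν : Fin 4 → ℝ) (h : MvPolynomial (Fin 4) ℝ) (i : ℕ) :
    ((dnu ν)^[i] h).totalDegree ≤ h.totalDegree - i := by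
  induction i with
  | zero => exact le_rfl
  | succ n ih =>
    rw [Function.iterate_succ_apply']
    have := Dg_dnu ν ((dnu ν)^[n] h)
    omega

theorem deg_dX_it (m : Fin 4 → Fin 4 → ℝ) (h g : MvPolynomial (Fin 4) ℝ) (i : ℕ) :
    ((dX m h)^[i] g).totalDegree ≤ g.totalDegree + i * h.totalDegree := by
  induction i with
  | zero => simp
  | succ n ih =>
    rw [Function.iterate_succ_apply']
    have h1 : ∀ g' : MvPolynomial (Fin 4) ℝ, (dX m h g').totalDegree ≤ h.totalDegree + g'.totalDegree := by
      intro g'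
      unfold dX
      refine totalDegree_finsetSum_le fun i _ => totalDegree_finsetSum_le fun j _ => ?_
      refine (totalDegree_mul _ _).trans (add_le_add ((totalDegree_mul _ _).trans ?_) ?_)
      · rw [totalDegree_C, zero_add]
        exact (Dg_pd i h).trans (Nat.sub_le _ _)
      · exact (Dg_pd j g').trans (Nat.sub_le _ _)
    refine (h1 _).trans ?_
    rw [Nat.succ_mul]
    omega

theorem grad_of_dnu {ν : Fin 4 → ℝ} {f : MvPolynomial (Fin 4) ℝ} {p : Fin 4 → ℝ}
    (h : eval p (dnu ν f) ≠ 0) : HDI.grad p f ≠ 0 := by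
  intro h0
  refine h ?_
  unfold dnu
  rw [map_sum]
  refine Finset.sum_eq_zero fun i _ => ?_
  have h1 : eval p (pderiv i f) = 0 := congrFun h0 i
  rw [map_mul, h1, mul_zero]

theorem li_of_dX {m : Fin 4 → Fin 4 → ℝ} (hm : ∀ i j, m i j = - m j i)
    {h g : MvPolynomial (Fin 4) ℝ} {p : Fin 4 → ℝ} (hne : eval p (dX m h g) ≠ 0) :
    LinearIndependent ℝ ![HDI.grad p h, HDI.grad p g] := by
  have h1 : eval p (dX m h g) = ∑ i, ∑ j, m i j * HDI.grad p h i * HDI.grad p g j := by
    unfold dX
    simp only [map_sum, map_mul, eval_C]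
    rfl
  have h2 : ∀ n : Fin 4 → ℝ, ∑ i, ∑ j, m i j * n i * n j = 0 := by
    intro n
    have h3 : ∑ i, ∑ j, m i j * n i * n j = -∑ i, ∑ j, m i j * n i * n j := by
      conv_lhs => rw [Finset.sum_comm]
      rw [← Finset.sum_neg_distrib]
      refine Finset.sum_congr rfl fun i _ => ?_
      rw [← Finset.sum_neg_distrib]
      refine Finset.sum_congr rfl fun j _ => ?_
      rw [hm j i]
      ring
    linarith
  rw [LinearIndependent.pair_iff]
  intro s t hst
  by_contra hcon
  refine hne ?_
  rw [h1]
  have hst' : ∀ i, s * HDI.grad p h i + t * HDI.grad p g i = 0 := fun i => by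
    have := congrFun hst i
    simpa using this
  by_cases ht : t = 0
  · have hs : s ≠ 0 := fun hs => hcon ⟨hs, ht⟩
    refine Finset.sum_eq_zero fun i _ => Finset.sum_eq_zero fun j _ => ?_
    have h4 := hst' i
    rw [ht, zero_mul, add_zero] at h4
    rw [(mul_eq_zero.1 h4).resolve_left hs]
    ring
  · have h5 : ∀ j, HDI.grad p g j = -(s / t) * HDI.grad p h j := by
      intro j
      have h4 := hst' j
      field_simp
      linarith
    have h6 : ∑ i, ∑ j, m i j * HDI.grad p h i * HDI.grad p g j =
        -(s / t) * ∑ i, ∑ j, m i j * HDI.grad p h i * HDI.grad p h j := by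
      rw [Finset.mul_sum]
      refine Finset.sum_congr rfl fun i _ => ?_
      rw [Finset.mul_sum]
      refine Finset.sum_congr rfl fun j _ => ?_
      rw [h5 j]
      ring
    rw [h6, h2, mul_zero]

end D4Q
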