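import Mathlib
import Pool.Agent.D4Q.RES_D
import Pool.Agent.D4Q.RES_Ch
import Pool.Agent.D4Q.RES_Dg
import Pool.Agent.D4Q.ORD

/-!
# D4Q-RES_Ca: the classes of a base (regions)

`rsD m h g i = (dX m h)^i g`. The class `(t, j)` of the chain `g 0, ..., g J` (`t < J`, `j + 1 < a2`) has `g = rsD m h (g t) j`, `l` = sum of the squares of
`rsD m h (g t) i`, `i ≤ j`, `r = rsD m h (g t) (j+1) * ∏_{t < s ≤ J} g s`.
The regions are described by `RES_Ca_mem`.
-/

namespace D4Q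

open MvPolynomial

/-- Iterated derivatives along the levels of `h`. -/
noncomputable def rsD (m : Fin 4 → Fin 4 → ℝ) (h g : RP) (i : ℕ) : RP := (dX m h)^[i] g

/-- The class `(t, j)`. -/
noncomputable def rsC (m : Fin 4 → Fin 4 → ℝ) (h : RP) (J : ℕ) (g : ℕ → RP) (t j : ℕ) : RsC where
  g := rsD m h (g t) j
  l := ∑ i ∈ Finset.range (j + 1), rsD m h (g t) i ^ 2
  r := rsD m h (g t) (j + 1) * ∏ s ∈ Finset.Ioc t J, g s

/-- All classes. -/
noncomputable def rsCls (m : Fin 4 → Fin 4 → ℝ) (h : RP) (J : ℕ) (g : ℕ → RP) (a2 : ℕ) :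
    List RsC :=
  (List.range J).flatMap fun t => (List.range (a2 - 1)).map fun j => rsC m h J g t j

private theorem RES_Ca_mem {m : Fin 4 → Fin 4 → ℝ} {h : RP} {J : ℕ} {g : ℕ → RP} {cl : List RsC}
    {t j : ℕ} {p : Fin 4 → ℝ} :
    p ∈ RsB.Reg ⟨h, [], 1, cl⟩ (rsC m h J g t j) ↔
      eval p h = 0 ∧ (∀ i ≤ j, eval p (rsD m h (g t) i) = 0) ∧
        eval p (rsD m h (g t) (j + 1)) ≠ 0 ∧ ∀ s, t < s → s ≤ J → eval p (g s) ≠ 0 := by
  simp only [RsB.Reg, rsC, Set.mem_ofPred_eq, map_mul, map_sum, map_pow, map_one, map_prod,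
    mul_ne_zero_iff, Finset.prod_ne_zero_iff, Finset.mem_Ioc]
  constructor
  · rintro ⟨h1, _, _, _, h5, h6, h7⟩
    refine ⟨h1, fun i hi => ?_, h6, fun s hs hs' => h7 s ⟨hs, hs'⟩⟩
    have h8 := (Finset.sum_eq_zero_iff_of_nonneg fun i _ => sq_nonneg _).1 h5 i
      (Finset.mem_range.2 (by omega))
    exact pow_eq_zero_iff (two_ne_zero) |>.1 h8
  · rintro ⟨h1, h2, h3, h4⟩
    refine ⟨h1, fun k hk => absurd hk List.not_mem_nil, one_ne_zero, h2 j (le_refl j), ?_, h3,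
      fun s hs => h4 s hs.1 hs.2⟩
    refine Finset.sum_eq_zero fun i hi => ?_
    rw [h2 i (by
      have := Finset.mem_range.1 hi
      omega), zero_pow two_ne_zero]

private theorem RES_Ca_last {J : ℕ} {P : ℕ → Prop} (h0 : P 0) (hJ : ¬ P J) :
    ∃ t < J, P t ∧ ∀ s, t < s → s ≤ J → ¬ P s := by
  induction J with
  | zero => exact absurd h0 hJ
  | succ J ih =>
    by_cases h : P J
    · refine ⟨J, Nat.lt_succ_self J, h, fun s hs hs' => ?_⟩
      have h1 : s = J + 1 := by omega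
      rw [h1]
      exact hJ
    · obtain ⟨t, ht, h1, h2⟩ := ih h
      refine ⟨t, by omega, h1, fun s hs hs' => ?_⟩
      rcases Nat.lt_or_ge J s with h3 | h3
      · have h4 : s = J + 1 := by omega
        rw [h4]
        exact hJ
      · exact h2 s hs h3

theorem rs_cls_ok {N a2 : ℕ} {h : RP} (h0 : h ≠ 0) (h1 : 1 ≤ h.totalDegree)
    {Q : Finset (Fin 4 → ℝ)} (hQ : ∀ p ∈ Q, eval p h = 0) {J : ℕ} {g : ℕ → RP}
    (hch : RsCh N a2 h Q J g) {m : Fin 4 → Fin 4 → ℝ} (hm0 : ∀ i j, m i j = - m j i)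
    (hm : ∀ p ∈ Q, ∀ t < J, ∀ a : ℕ, (∀ i < a, eval p (rsD m h (g t) i) = 0) →
      g t ∈ mI p ^ a ⊔ Ideal.span {h}) :
    RsOk {p | eval p h = 0 ∧ eval p (g J) ≠ 0}
      {p | p ∈ Q ∧ eval p (g 0) = 0 ∧ eval p (g J) ≠ 0} [⟨h, [], 1, rsCls m h J g a2⟩] := by
  classical
  have hd0 : ∀ f : RP, rsD m h f 0 = f := fun f => rfl
  have hmem : ∀ c : RsC, c ∈ rsCls m h J g a2 ↔
      ∃ t < J, ∃ j < a2 - 1, rsC m h J g t j = c := by
    intro c
    unfold rsCls
    rw [List.mem_flatMap]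
    constructor
    · rintro ⟨t, ht, hc⟩
      obtain ⟨j, hj, rfl⟩ := List.mem_map.1 hc
      exact ⟨t, List.mem_range.1 ht, j, List.mem_range.1 hj, rfl⟩
    · rintro ⟨t, ht, j, hj, rfl⟩
      exact ⟨t, List.mem_range.2 ht, List.mem_map.2 ⟨j, List.mem_range.2 hj, rfl⟩⟩
  refine ⟨?_, ?_, ?_, ?_⟩
  · intro b hb
    rw [List.mem_singleton] at hb
    rw [hb]
    exact ⟨h0, h1⟩
  · have h2 : rsRegs [⟨h, [], 1, rsCls m h J g a2⟩] =
        (rsCls m h J g a2).map (RsB.Reg ⟨h, [], 1, rsCls m h J g a2⟩) := by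
      unfold rsRegs
      rw [List.flatMap_cons, List.flatMap_nil, List.append_nil]
    rw [h2, List.pairwise_map]
    unfold rsCls
    rw [List.pairwise_flatMap]
    refine ⟨fun t ht => ?_, ?_⟩
    · rw [List.pairwise_map]
      refine List.pairwise_lt_range.imp ?_
      intro j j' hjj
      rw [Set.disjoint_left]
      intro p hp hp'
      exact (RES_Ca_mem.1 hp).2.2.1 ((RES_Ca_mem.1 hp').2.1 (j + 1) (by omega))
    · have h3 : (List.range J).Pairwise fun t t' => t < t' ∧ t' < J := by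
        rw [List.pairwise_iff_forall_sublist]
        intro a b hab
        have h4 := List.pairwise_iff_forall_sublist.1 (List.pairwise_lt_range (n := J)) hab
        have h5 : b ∈ List.range J := hab.subset (by simp)
        exact ⟨h4, List.mem_range.1 h5⟩
      refine h3.imp ?_
      rintro t t' ⟨htt, htJ⟩ x hx y hy
      obtain ⟨j, _, rfl⟩ := List.mem_map.1 hx
      obtain ⟨j', _, rfl⟩ := List.mem_map.1 hy
      rw [Set.disjoint_left]
      intro p hp hp'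
      exact (RES_Ca_mem.1 hp).2.2.2 t' htt (by omega)
        ((RES_Ca_mem.1 hp').2.1 0 (Nat.zero_le _))
  · intro R hR
    obtain ⟨b, hb, c, hc, rfl⟩ := mem_rsRegs.1 hR
    rw [List.mem_singleton] at hb
    subst hb
    obtain ⟨t, ht, j, hj, rfl⟩ := (hmem c).1 hc
    intro p hp
    have h2 := RES_Ca_mem.1 hp
    exact ⟨h2.1, h2.2.2.2 J ht (le_refl J)⟩
  · rintro p ⟨hpQ, hp0, hpJ⟩
    obtain ⟨t, ht, h2, h3⟩ := RES_Ca_last (P := fun s => eval p (g s) = 0) hp0 hpJ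
    have h4 : g t ∉ mI p ^ a2 ⊔ Ideal.span {h} := fun h5 =>
      h3 (t + 1) (Nat.lt_succ_self t) (by omega) (hch.next t ht p hpQ h2 h5)
    have h5 : ∃ i, i < a2 ∧ eval p (rsD m h (g t) i) ≠ 0 := by
      by_contra hcon
      apply h4
      refine hm p hpQ t ht a2 fun i hi => ?_
      by_contra hne
      exact hcon ⟨i, hi, hne⟩
    obtain ⟨h6, h7⟩ := Nat.find_spec h5
    have h8 : ∀ i < Nat.find h5, eval p (rsD m h (g t) i) = 0 := by
      intro i hi
      by_contra hne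
      exact Nat.find_min h5 hi ⟨by omega, hne⟩
    obtain ⟨j, hj⟩ : ∃ j, Nat.find h5 = j + 1 := by
      refine ⟨Nat.find h5 - 1, ?_⟩
      have h9 : Nat.find h5 ≠ 0 := fun h10 => by
        rw [h10] at h7
        exact h7 h2
      omega
    rw [hj] at h6 h7 h8
    refine ⟨_, List.mem_singleton.2 rfl, rsC m h J g t j, (hmem _).2 ⟨t, ht, j, by omega, rfl⟩,
      RES_Ca_mem.2 ⟨hQ p hpQ, fun i hi => h8 i (by omega), h7, h3⟩, ?_⟩
    have h9 : rsD m h (g t) (j + 1) = dX m h (rsD m h (g t) j) := by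
      unfold rsD
      rw [Function.iterate_succ_apply']
    rw [h9] at h7
    exact li_of_dX hm0 h7

end D4Q
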