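import Mathlib
import Pool.Agent.D4Q.RES_Ca

/-!
# D4Q-RES_Cb: the classes of a base (degrees)

The degrees of the polynomials of a class `(t, j)` are at most `2 (deg (g t) + a2 deg h)` (`deg_dX_it`, and the degrees of the chain are
halved in every step), its weight is at most a constant times `deg h * deg (g t)` (as `deg h ≤ N deg (g t)`), and the sum of the degrees
of the chain is at most `2 deg (g 0)`.
-/

namespace D4Q

open MvPolynomial

private theorem RES_Cb_halfA {ε : ℕ → ℕ} {J : ℕ} (h : ∀ t < J, 2 * ε (t + 1) ≤ ε t) :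
    ∑ t ∈ Finset.range J, ε t + 2 * ε J ≤ 2 * ε 0 := by
  induction J with
  | zero => simp
  | succ J ih =>
    have h1 := ih fun t ht => h t (by omega)
    have h2 := h J (by omega)
    rw [Finset.sum_range_succ]
    omega

private theorem RES_Cb_halfB {ε : ℕ → ℕ} {t J : ℕ} (htJ : t ≤ J) (h : ∀ s < J, 2 * ε (s + 1) ≤ ε s) :
    ∑ s ∈ Finset.Ioc t J, ε s + ε J ≤ ε t := by
  induction J, htJ using Nat.le_induction with
  | base => simp
  | succ J hJ ih =>
    have h1 := ih fun s hs => h s (by omega)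
    have h2 := h J (by omega)
    rw [Finset.sum_Ioc_succ_top hJ]
    omega

private theorem RES_Cb_sum {J n : ℕ} {F : ℕ → ℕ → RsC} {w : RsC → ℕ} {B : ℕ → ℕ}
    (hB : ∀ t < J, ∀ j < n, w (F t j) ≤ B t) :
    (((List.range J).flatMap fun t => (List.range n).map fun j => F t j).map w).sum ≤
      n * ∑ t ∈ Finset.range J, B t := by
  induction J with
  | zero => simp
  | succ J ih =>
    have h1 := ih fun t ht => hB t (by omega)
    have h2 : (((List.range n).map fun j => F J j).map w).sum ≤ n * B J := by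
      have h3 := List.sum_le_card_nsmul (((List.range n).map fun j => F J j).map w) (B J) (by
        intro x hx
        rw [List.map_map] at hx
        obtain ⟨j, hj, rfl⟩ := List.mem_map.1 hx
        exact hB J (by omega) j (List.mem_range.1 hj))
      simpa using h3
    rw [List.range_succ, List.flatMap_append, List.map_append, List.sum_append, Finset.sum_range_succ, mul_add]
    refine add_le_add h1 ?_
    rw [List.flatMap_singleton]
    exact h2

private theorem RES_Cb_deg (m : Fin 4 → Fin 4 → ℝ) (h : RP) {J : ℕ} {g : ℕ → RP}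
    (hh : ∀ s < J, 2 * (g (s + 1)).totalDegree ≤ (g s).totalDegree) {t j a2 : ℕ} (ht : t < J) (hj : j + 1 < a2) :
    (rsC m h J g t j).g.totalDegree ≤ (g t).totalDegree + a2 * h.totalDegree ∧
    (rsC m h J g t j).l.totalDegree ≤ 2 * ((g t).totalDegree + a2 * h.totalDegree) ∧
    (rsC m h J g t j).r.totalDegree ≤ 2 * (g t).totalDegree + a2 * h.totalDegree := by
  have hd : ∀ i ≤ a2, (rsD m h (g t) i).totalDegree ≤ (g t).totalDegree + a2 * h.totalDegree := by
    intro i hi
    have h1 := deg_dX_it m h (g t) i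
    have h2 : i * h.totalDegree ≤ a2 * h.totalDegree := Nat.mul_le_mul_right _ hi
    exact h1.trans (by omega)
  refine ⟨hd j (by omega), ?_, ?_⟩
  · show (∑ i ∈ Finset.range (j + 1), rsD m h (g t) i ^ 2).totalDegree ≤ _
    refine totalDegree_finsetSum_le fun i hi => ?_
    refine (totalDegree_pow _ _).trans ?_
    exact Nat.mul_le_mul_left 2 (hd i (by have := Finset.mem_range.1 hi; omega))
  · show (rsD m h (g t) (j + 1) * ∏ s ∈ Finset.Ioc t J, g s).totalDegree ≤ _
    refine (totalDegree_mul _ _).trans ?_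
    have h1 := hd (j + 1) (by omega)
    have h2 : (∏ s ∈ Finset.Ioc t J, g s).totalDegree ≤ ∑ s ∈ Finset.Ioc t J, (g s).totalDegree :=
      totalDegree_finsetProd _ _
    have h3 := RES_Cb_halfB (ε := fun s => (g s).totalDegree) ht.le hh
    have h4 : ∑ s ∈ Finset.Ioc t J, (g s).totalDegree ≤ (g t).totalDegree := by
      have h5 : ∑ s ∈ Finset.Ioc t J, (g s).totalDegree + (g J).totalDegree ≤ (g t).totalDegree := h3
      omega
    omega

theorem rs_cls_bd (N a2 : ℕ) : ∃ A0 : ℕ, ∀ (h : RP), 1 ≤ h.totalDegree →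
    ∀ (Q : Finset (Fin 4 → ℝ)) (J : ℕ) (g : ℕ → RP), RsCh N a2 h Q J g →
    ∀ m : Fin 4 → Fin 4 → ℝ,
    RsBd h.totalDegree 0 0 (A0 * (h.totalDegree + (g 0).totalDegree))
      (A0 * h.totalDegree * (h.totalDegree + (g 0).totalDegree))
      [⟨h, [], 1, rsCls m h J g a2⟩] := by
  refine ⟨2 * a2 * (5 + (4 * a2 + 2) * N) + (2 * a2 + 2), fun h h1 Q J g hch m => ?_⟩
  have hanti : ∀ t ≤ J, (g t).totalDegree ≤ (g 0).totalDegree := by
    intro t ht
    have h2 := RES_Cb_halfB (ε := fun s => (g s).totalDegree) (Nat.zero_le t) fun s hs => hch.half s (by omega)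
    have h3 : ∑ s ∈ Finset.Ioc 0 t, (g s).totalDegree + (g t).totalDegree ≤ (g 0).totalDegree := h2
    omega
  have hmem : ∀ c ∈ rsCls m h J g a2, ∃ t < J, ∃ j < a2 - 1, rsC m h J g t j = c := by
    intro c hc
    unfold rsCls at hc
    obtain ⟨t, ht, hc⟩ := List.mem_flatMap.1 hc
    obtain ⟨j, hj, hc⟩ := List.mem_map.1 hc
    exact ⟨t, List.mem_range.1 ht, j, List.mem_range.1 hj, hc⟩
  refine ⟨?_, ?_, ?_, ?_, ?_⟩
  · simp
  · intro b hb k hk
    rw [List.mem_singleton.1 hb] at hk
    exact absurd hk List.not_mem_nil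
  · intro b hb
    rw [List.mem_singleton.1 hb]
    show (1 : RP).totalDegree ≤ 0
    rw [totalDegree_one]
  · intro b hb c hc
    rw [List.mem_singleton.1 hb] at hc
    obtain ⟨t, ht, j, hj, rfl⟩ := hmem c hc
    obtain ⟨d1, d2, d3⟩ := RES_Cb_deg m h hch.half ht (j := j) (a2 := a2) (by omega)
    have d4 := hanti t ht.le
    have d5 : 2 * ((g 0).totalDegree + a2 * h.totalDegree) ≤
        (2 * a2 * (5 + (4 * a2 + 2) * N) + (2 * a2 + 2)) * (h.totalDegree + (g 0).totalDegree) := by
      have d6 : (2 * a2 + 2) * (h.totalDegree + (g 0).totalDegree) ≤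
          (2 * a2 * (5 + (4 * a2 + 2) * N) + (2 * a2 + 2)) * (h.totalDegree + (g 0).totalDegree) :=
        Nat.mul_le_mul_right _ (Nat.le_add_left _ _)
      refine le_trans ?_ d6
      nlinarith [Nat.zero_le (a2 * (g 0).totalDegree), Nat.zero_le h.totalDegree]
    refine ⟨?_, ?_, ?_⟩
    · omega
    · omega
    · omega
  · show (List.map rsBw [(⟨h, [], 1, rsCls m h J g a2⟩ : RsB)]).sum ≤ _
    rw [List.map_singleton, List.sum_singleton]
    show ((rsCls m h J g a2).map (rsCw h)).sum ≤ _
    have hB : ∀ t < J, ∀ j < a2 - 1, rsCw h (rsC m h J g t j) ≤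
        h.totalDegree * ((5 + (4 * a2 + 2) * N) * (g t).totalDegree) := by
      intro t ht j hj
      obtain ⟨d1, d2, d3⟩ := RES_Cb_deg m h hch.half ht (j := j) (a2 := a2) (by omega)
      have d4 := hch.big t ht
      unfold rsCw
      refine Nat.mul_le_mul_left _ ?_
      have d5 : (4 * a2 + 2) * h.totalDegree ≤ (4 * a2 + 2) * (N * (g t).totalDegree) :=
        Nat.mul_le_mul_left _ d4
      have d6 : h.totalDegree + (rsC m h J g t j).g.totalDegree + (rsC m h J g t j).l.totalDegree +
          (rsC m h J g t j).r.totalDegree + 1 ≤ 5 * (g t).totalDegree + (4 * a2 + 2) * h.totalDegree := by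
        have e1 : (4 * a2 + 2) * h.totalDegree = 4 * (a2 * h.totalDegree) + 2 * h.totalDegree := by ring
        omega
      refine d6.trans ((add_le_add le_rfl d5).trans (le_of_eq ?_))
      ring
    have h2 := RES_Cb_sum (J := J) (n := a2 - 1) (F := fun t j => rsC m h J g t j) (w := rsCw h) hB
    have h3 := RES_Cb_halfA (ε := fun s => (g s).totalDegree) (J := J) hch.half
    have h4 : ∑ t ∈ Finset.range J, (g t).totalDegree ≤ 2 * (g 0).totalDegree := by
      have h5 : ∑ s ∈ Finset.range J, (g s).totalDegree + 2 * (g J).totalDegree ≤ 2 * (g 0).totalDegree := h3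
      omega
    have h6 : ∑ t ∈ Finset.range J, h.totalDegree * ((5 + (4 * a2 + 2) * N) * (g t).totalDegree) =
        h.totalDegree * ((5 + (4 * a2 + 2) * N) * ∑ t ∈ Finset.range J, (g t).totalDegree) := by
      rw [Finset.mul_sum, Finset.mul_sum]
    unfold rsCls
    refine h2.trans ?_
    rw [h6]
    have h7 : (a2 - 1) * (h.totalDegree * ((5 + (4 * a2 + 2) * N) * ∑ t ∈ Finset.range J, (g t).totalDegree)) ≤
        a2 * (h.totalDegree * ((5 + (4 * a2 + 2) * N) * (2 * (g 0).totalDegree))) :=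
      Nat.mul_le_mul (Nat.sub_le _ _) (Nat.mul_le_mul_left _ (Nat.mul_le_mul_left _ h4))
    refine h7.trans ?_
    have h8 : a2 * (h.totalDegree * ((5 + (4 * a2 + 2) * N) * (2 * (g 0).totalDegree))) =
        2 * a2 * (5 + (4 * a2 + 2) * N) * h.totalDegree * (g 0).totalDegree := by ring
    rw [h8]
    have h9 : 2 * a2 * (5 + (4 * a2 + 2) * N) * h.totalDegree ≤
        (2 * a2 * (5 + (4 * a2 + 2) * N) + (2 * a2 + 2)) * h.totalDegree :=
      Nat.mul_le_mul_right _ (Nat.le_add_right _ _)
    exact Nat.mul_le_mul h9 (Nat.le_add_left _ _)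

end D4Q
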