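import Mathlib
import Pool.Agent.D4Q.RES_Cb

/-!
# D4Q-RES_B: one base

PLAN. Let `a2` be from `rs_chain N`, `A0` from `rs_cls_bd N a2`. Given `h`, `g0`, `Q`: the chain `g 0 = g0, ..., g J`; `m` from `ordH h Q _ ((Finset.range J).image g)`. `T1 = [⟨h, [], 1, rsCls m h J g a2⟩]`
(`rs_cls_ok`, `rs_cls_bd`). `Q' ` = points of `Q` with `g J p = 0`; the induction hypothesis `RsP` for `u = g J`, `v = h`, `Q'` (`g J ≠ 0` since `h` does not divide it; `rs_relprime`; `deg (g J) ≤ n` because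
`N deg (g J) < deg h ≤ n + 1`, `N ≥ 1`) gives `T2`; `T = T1 ++ rsR [h] 1 T2` (`RsOk.restrict`, `RsOk.append`: the sets `{h = 0, g J ≠ 0}` and `{g J = 0} ∩ {h = 0}` are disjoint, both are contained in `{h = 0}`).
BOUNDS: `x' = deg (g J) ≤ deg h / N` (`Nat.le_div_iff_mul_le`), monotonicity.
-/

namespace D4Q

open MvPolynomial

theorem rs_B (N : ℕ) (hN : 1 ≤ N) : ∃ A0 : ℕ, 1 ≤ A0 ∧ ∀ (A1 A2 A3 A3' A4 n : ℕ),
    RsP A1 A2 A3 A3' A4 n → ∀ (h : RP), Irreducible h → h.totalDegree ≤ n + 1 → ∀ (g0 : RP),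
    ¬ h ∣ g0 → ∀ (Q : Finset (Fin 4 → ℝ)),
    (∀ p ∈ Q, eval p h = 0 ∧ eval p g0 = 0 ∧ HDI.grad p h ≠ 0) →
    ∃ T : List RsB, RsOk {p | eval p h = 0} (Q : Set (Fin 4 → ℝ)) T ∧
      RsBd (h.totalDegree + A1 * (h.totalDegree / N)) h.totalDegree
        (A2 * (h.totalDegree / N))
        (A0 * (h.totalDegree + g0.totalDegree) + A3 * (h.totalDegree / N) + A3' * h.totalDegree)
        (A0 * h.totalDegree * (h.totalDegree + g0.totalDegree) +
          A4 * (h.totalDegree / N) * (h.totalDegree / N + h.totalDegree)) T := by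
  classical
  obtain ⟨a2, ha2, hchain⟩ := rs_chain N
  obtain ⟨A0, hA0⟩ := rs_cls_bd N a2
  refine ⟨A0 + 1, by omega, ?_⟩
  intro A1 A2 A3 A3' A4 n hP h hh hn g0 hg0 Q hQ
  have h1 := rs_irr_deg hh
  obtain ⟨J, g, hg, hch⟩ := hchain h hh Q (fun p hp => (hQ p hp).1) g0 hg0
  obtain ⟨m, hm0, hm⟩ := ordH h Q (fun p hp => ⟨(hQ p hp).1, (hQ p hp).2.2⟩)
    ((Finset.range J).image g)
  have k1 := rs_cls_ok (m := m) hh.ne_zero h1 (fun p hp => (hQ p hp).1) hch hm0
    (fun p hp t ht a ha => hm p hp (g t)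
      (Finset.mem_image_of_mem g (Finset.mem_range.2 ht)) a ha)
  have k2 := hA0 h h1 Q J g hch m
  rw [hg] at k1 k2
  have hsm := hch.small
  have hgJ0 : g J ≠ 0 := by
    intro h0
    have h2 := hch.nd J le_rfl
    rw [h0] at h2
    exact h2 (dvd_zero h)
  have hx : (g J).totalDegree ≤ h.totalDegree / N := by
    rw [Nat.le_div_iff_mul_le (by omega), mul_comm]
    exact hsm.le
  have hdN : h.totalDegree / N ≤ h.totalDegree := Nat.div_le_self _ _
  have hxlt : (g J).totalDegree < h.totalDegree :=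
    lt_of_le_of_lt (Nat.le_mul_of_pos_left _ (by omega)) hsm
  obtain ⟨T2, c1, c2⟩ := hP (g J) h (Q.filter fun p => eval p (g J) = 0) hgJ0
    (rs_relprime hh (hch.nd J le_rfl))
    (fun p hp => ⟨(Finset.mem_filter.1 hp).2, (hQ p (Finset.mem_filter.1 hp).1).1⟩) (by omega)
  have c1' := c1.restrict [h] 1
  have c2' := (c2.mono le_rfl hxlt.le le_rfl le_rfl le_rfl).restrict [h] 1
    (fun k hk => by rw [List.mem_singleton.1 hk])
  refine ⟨[⟨h, [], 1, rsCls m h J g a2⟩] ++ rsR [h] 1 T2, ?_, ?_⟩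
  · refine (k1.append c1' ?_).mono ?_ ?_
    · rw [Set.disjoint_left]
      rintro p ⟨_, hp⟩ ⟨hp', _⟩
      exact hp hp'
    · rintro p (⟨hp, _⟩ | ⟨_, hp, _⟩)
      · exact hp
      · exact hp h (List.mem_singleton_self _)
    · intro p hp
      have hp' : p ∈ Q := hp
      by_cases hz : eval p (g J) = 0
      · refine Or.inr ⟨Finset.mem_coe.2 (Finset.mem_filter.2 ⟨hp', hz⟩), fun k hk => ?_, ?_⟩
        · rw [List.mem_singleton.1 hk]
          exact (hQ p hp').1
        · rw [map_one]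
          exact one_ne_zero
      · exact Or.inl ⟨hp', (hQ p hp').2.1, hz⟩
  · rw [totalDegree_one, zero_add] at c2'
    have m1 : A2 * (g J).totalDegree ≤ A2 * (h.totalDegree / N) := Nat.mul_le_mul_left _ hx
    have m2 : A3 * (g J).totalDegree ≤ A3 * (h.totalDegree / N) := Nat.mul_le_mul_left _ hx
    have m3 : A0 * (h.totalDegree + g0.totalDegree) ≤ (A0 + 1) * (h.totalDegree + g0.totalDegree) :=
      Nat.mul_le_mul_right _ (Nat.le_succ _)
    have k3 := k2.mono (d' := h.totalDegree) (e' := A2 * (h.totalDegree / N))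
      (f' := (A0 + 1) * (h.totalDegree + g0.totalDegree) + A3 * (h.totalDegree / N) +
        A3' * h.totalDegree) (q' := (A0 + 1) * h.totalDegree * (h.totalDegree + g0.totalDegree))
      le_rfl (Nat.zero_le _) (Nat.zero_le _) (by omega)
      (Nat.mul_le_mul_right _ (Nat.mul_le_mul_right _ (Nat.le_succ _)))
    have c3 := c2'.mono (w' := A1 * (h.totalDegree / N)) (d' := h.totalDegree)
      (e' := A2 * (h.totalDegree / N))
      (f' := (A0 + 1) * (h.totalDegree + g0.totalDegree) + A3 * (h.totalDegree / N) +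
        A3' * h.totalDegree) (q' := A4 * (h.totalDegree / N) * (h.totalDegree / N + h.totalDegree))
      (Nat.mul_le_mul_left _ hx) le_rfl m1 (by omega)
      (Nat.mul_le_mul (Nat.mul_le_mul_left _ hx) (Nat.add_le_add_right hx _))
    exact k3.append c3

end D4Q
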