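import Mathlib
import Pool.Agent.D4Q.RES_D

/-!
# D4Q-RES_Ls: unions of resolutions

PLAN. `rs_list`: induction on `us` (generalizing `Q`). `us = []`: `T = []`. `us = f :: us'`: let `Q1` be the points of `Q` with `f p = 0`
(`Finset.filter`, classical), `T1` from the hypothesis for `f`, `Q1`; `T'` from the induction hypothesis for `us'` and `Q' = ` points of `Q` with `f p ≠ 0`;
`T = T1 ++ rsR [] f T'` (`RsOk.append`, `RsOk.restrict`, `RsBd.append`, `RsBd.restrict`, `mono`). The set `{f = 0}` and the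
set `{f ≠ 0}` are disjoint.
`rs_range`: induction on `n`; `RsOk.append` (the set `⋃ i < n, S i` is disjoint from `S n`).
-/

namespace D4Q

open MvPolynomial

theorem rs_list (us : List RP) (Q : Finset (Fin 4 → ℝ)) (w q : RP → ℕ) (d E f0 : ℕ)
    (hyp : ∀ f ∈ us, ∀ Q' : Finset (Fin 4 → ℝ), (∀ p ∈ Q', p ∈ Q ∧ eval p f = 0) →
      ∃ T : List RsB, RsOk {p | eval p f = 0} (Q' : Set (Fin 4 → ℝ)) T ∧
        RsBd (w f) d E f0 (q f) T) :
    ∃ T : List RsB, RsOk {p | ∃ f ∈ us, eval p f = 0} {p | p ∈ Q ∧ ∃ f ∈ us, eval p f = 0} T ∧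
      RsBd (us.map w).sum d (E + (us.map fun f => f.totalDegree).sum) f0 (us.map q).sum T := by
  classical
  induction us generalizing Q with
  | nil =>
    refine ⟨[], (RsOk.nil _).mono (Set.Subset.refl _) ?_, RsBd.nil.mono ?_ ?_ ?_ ?_ ?_⟩
    · rintro p ⟨-, f, hf, -⟩
      exact absurd hf List.not_mem_nil
    all_goals exact Nat.zero_le _
  | cons f us ih =>
    obtain ⟨T1, h1, h2⟩ := hyp f List.mem_cons_self (Q.filter fun p => eval p f = 0)
      (fun p hp => Finset.mem_filter.1 hp)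
    obtain ⟨T', h3, h4⟩ := ih (Q.filter fun p => eval p f ≠ 0) (fun g hg Q' hQ' =>
      hyp g (List.mem_cons_of_mem _ hg) Q' fun p hp =>
        ⟨(Finset.mem_filter.1 (hQ' p hp).1).1, (hQ' p hp).2⟩)
    have h5 := h3.restrict [] f
    have h6 := h4.restrict [] f (fun k hk => absurd hk List.not_mem_nil)
    have hd : Disjoint {p : Fin 4 → ℝ | eval p f = 0}
        ({p | ∃ g ∈ us, eval p g = 0} ∩ {p | (∀ k ∈ ([] : List RP), eval p k = 0) ∧ eval p f ≠ 0}) := by
      rw [Set.disjoint_left]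
      rintro p hp ⟨-, -, hp'⟩
      exact hp' hp
    refine ⟨T1 ++ rsR [] f T', (h1.append h5 hd).mono ?_ ?_, ?_⟩
    · rintro p (hp | ⟨⟨g, hg, hp⟩, -⟩)
      · exact ⟨f, List.mem_cons_self, hp⟩
      · exact ⟨g, List.mem_cons_of_mem _ hg, hp⟩
    · rintro p ⟨hpQ, g, hg, hp⟩
      by_cases hf : eval p f = 0
      · left
        exact Finset.mem_coe.2 (Finset.mem_filter.2 ⟨hpQ, hf⟩)
      · right
        rcases List.mem_cons.1 hg with rfl | hg
        · exact absurd hp hf
        · exact ⟨⟨Finset.mem_filter.2 ⟨hpQ, hf⟩, g, hg, hp⟩,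
            fun k hk => absurd hk List.not_mem_nil, hf⟩
    · rw [List.map_cons, List.map_cons, List.map_cons, List.sum_cons, List.sum_cons, List.sum_cons]
      exact (h2.mono le_rfl le_rfl (by omega) le_rfl le_rfl).append
        (h6.mono le_rfl le_rfl (by omega) le_rfl le_rfl)

theorem rs_range (n : ℕ) (S Q : ℕ → Set (Fin 4 → ℝ)) (w q : ℕ → ℕ) (d e f0 : ℕ)
    (hd : ∀ i < n, ∀ j < n, i ≠ j → Disjoint (S i) (S j))
    (hyp : ∀ i < n, ∃ T : List RsB, RsOk (S i) (Q i) T ∧ RsBd (w i) d e f0 (q i) T) :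
    ∃ T : List RsB, RsOk {p | ∃ i < n, p ∈ S i} {p | ∃ i < n, p ∈ Q i} T ∧
      RsBd (∑ i ∈ Finset.range n, w i) d e f0 (∑ i ∈ Finset.range n, q i) T := by
  induction n with
  | zero =>
    refine ⟨[], (RsOk.nil _).mono (Set.Subset.refl _) ?_, RsBd.nil.mono ?_ ?_ ?_ ?_ ?_⟩
    · rintro p ⟨i, hi, -⟩
      exact absurd hi (Nat.not_lt_zero i)
    all_goals exact Nat.zero_le _
  | succ n ih =>
    obtain ⟨T1, h1, h2⟩ := ih (fun i hi j hj hij => hd i (by omega) j (by omega) hij)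
      (fun i hi => hyp i (by omega))
    obtain ⟨T2, h3, h4⟩ := hyp n (by omega)
    have hdd : Disjoint {p | ∃ i < n, p ∈ S i} (S n) := by
      rw [Set.disjoint_left]
      rintro p ⟨i, hi, hp⟩ hp'
      exact Set.disjoint_left.1 (hd i (by omega) n (by omega) (by omega)) hp hp'
    refine ⟨T1 ++ T2, (h1.append h3 hdd).mono ?_ ?_, ?_⟩
    · rintro p (⟨i, hi, hp⟩ | hp)
      · exact ⟨i, by omega, hp⟩
      · exact ⟨n, by omega, hp⟩
    · rintro p ⟨i, hi, hp⟩
      rcases Nat.lt_or_ge i n with h | h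
      · left
        exact ⟨i, h, hp⟩
      · right
        have : i = n := by omega
        rw [← this]
        exact hp
    · rw [Finset.sum_range_succ, Finset.sum_range_succ]
      exact h2.append h4

end D4Q
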