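import Mathlib
import Pool.Agent.D4Q.RES_B
import Pool.Agent.D4Q.RES_Ls

/-!
# D4Q-RES_Hj: the points where the derivatives of order at most `j` vanish

Let `h_i = (dnu ν)^i h`. `rs_Hj` treats the points of `Q` (zeros of `h`, `v`) where `h_0, ..., h_j` vanish and `h_(j+1)` does not:
for `j = 0` with the base `h` and the second polynomial `v`, for `j ≥ 1` with the irreducible factors of `h_j` as bases and the second
polynomial `h`.
-/

namespace D4Q

open MvPolynomial

/-- The set treated in step `j`. -/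
def rsS (ν : Fin 4 → ℝ) (h hs : RP) (j : ℕ) : Set (Fin 4 → ℝ) :=
  {p | eval p hs ≠ 0 ∧ (∀ i ≤ j, eval p ((dnu ν)^[i] h) = 0) ∧
    eval p ((dnu ν)^[j + 1] h) ≠ 0}

private theorem RES_Hj_div {N : ℕ} (us : List RP) :
    (us.map fun f => f.totalDegree / N).sum ≤ (us.map fun f => f.totalDegree).sum / N := by
  induction us with
  | nil => simp
  | cons a us ih =>
    rw [List.map_cons, List.sum_cons, List.map_cons, List.sum_cons]
    exact (Nat.add_le_add_left ih _).trans Nat.div_add_div_le_add_div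

private theorem RES_Hj_w {N A1 : ℕ} (us : List RP) :
    (us.map fun f => f.totalDegree + A1 * (f.totalDegree / N)).sum =
      (us.map fun f => f.totalDegree).sum + A1 * (us.map fun f => f.totalDegree / N).sum := by
  induction us with
  | nil => simp
  | cons a us ih =>
    simp only [List.map_cons, List.sum_cons]
    rw [ih]
    ring

private theorem RES_Hj_q {N A0 A4 D : ℕ} (us : List RP) (hD : ∀ f ∈ us, f.totalDegree ≤ D) :
    (us.map fun f => A0 * f.totalDegree * (f.totalDegree + D) +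
      A4 * (f.totalDegree / N) * (f.totalDegree / N + f.totalDegree)).sum ≤
      A0 * (us.map fun f => f.totalDegree).sum * (2 * D) +
        A4 * (us.map fun f => f.totalDegree / N).sum * (2 * D) := by
  induction us with
  | nil => simp
  | cons a us ih =>
    simp only [List.map_cons, List.sum_cons]
    have h1 := ih fun f hf => hD f (List.mem_cons_of_mem _ hf)
    have h2 := hD a List.mem_cons_self
    have h3 : a.totalDegree / N ≤ a.totalDegree := Nat.div_le_self _ _
    have h4 : A0 * a.totalDegree * (a.totalDegree + D) ≤ A0 * a.totalDegree * (2 * D) :=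
      Nat.mul_le_mul_left _ (by omega)
    have h5 : A4 * (a.totalDegree / N) * (a.totalDegree / N + a.totalDegree) ≤
        A4 * (a.totalDegree / N) * (2 * D) := Nat.mul_le_mul_left _ (by omega)
    calc _ ≤ A0 * a.totalDegree * (2 * D) + A4 * (a.totalDegree / N) * (2 * D) +
        (A0 * (us.map fun f => f.totalDegree).sum * (2 * D) +
        A4 * (us.map fun f => f.totalDegree / N).sum * (2 * D)) := add_le_add (add_le_add h4 h5) h1
      _ = _ := by ring

private theorem RES_Hj_mem (us : List RP) {f : RP} (hf : f ∈ us) :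
    f.totalDegree ≤ (us.map fun f => f.totalDegree).sum := by
  induction us with
  | nil => exact absurd hf List.not_mem_nil
  | cons a us ih =>
    simp only [List.map_cons, List.sum_cons]
    rcases List.mem_cons.1 hf with rfl | h
    · omega
    · have := ih h
      omega

private theorem RES_Hj_deg (ν : Fin 4 → ℝ) (h : RP) (i : ℕ) :
    ((dnu ν)^[i] h).totalDegree ≤ h.totalDegree := (deg_dnu_it ν h i).trans (Nat.sub_le _ _)

theorem rs_Hj {N A0 A1 A2 A3 A3' A4 n : ℕ} (hN : 1 ≤ N)
    (hB : ∀ (h : RP), Irreducible h → h.totalDegree ≤ n + 1 → ∀ (g0 : RP),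
      ¬ h ∣ g0 → ∀ (Q : Finset (Fin 4 → ℝ)),
      (∀ p ∈ Q, eval p h = 0 ∧ eval p g0 = 0 ∧ HDI.grad p h ≠ 0) →
      ∃ T : List RsB, RsOk {p | eval p h = 0} (Q : Set (Fin 4 → ℝ)) T ∧
        RsBd (h.totalDegree + A1 * (h.totalDegree / N)) h.totalDegree
          (A2 * (h.totalDegree / N))
          (A0 * (h.totalDegree + g0.totalDegree) + A3 * (h.totalDegree / N) + A3' * h.totalDegree)
          (A0 * h.totalDegree * (h.totalDegree + g0.totalDegree) +
            A4 * (h.totalDegree / N) * (h.totalDegree / N + h.totalDegree)) T)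
    {h v hs : RP} (hh : Irreducible h) (hn : h.totalDegree ≤ n + 1) (hv : ¬ h ∣ v)
    (hhs : hs.totalDegree ≤ h.totalDegree) (ν : Fin 4 → ℝ) (Q : Finset (Fin 4 → ℝ))
    (hQ : ∀ p ∈ Q, eval p h = 0 ∧ eval p v = 0) (j : ℕ) :
    ∃ T : List RsB, RsOk (rsS ν h hs j) {p | p ∈ Q ∧ p ∈ rsS ν h hs j} T ∧
      RsBd (h.totalDegree + A1 * (h.totalDegree / N)) h.totalDegree
        (A2 * (h.totalDegree / N) + 3 * h.totalDegree)
        (A0 * (2 * h.totalDegree + v.totalDegree) + A3 * (h.totalDegree / N) +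
          A3' * h.totalDegree)
        (2 * A0 * h.totalDegree * (h.totalDegree + v.totalDegree) +
          A4 * (h.totalDegree / N) * (2 * h.totalDegree)) T := by
  classical
  set D := h.totalDegree with hDd
  have hDN : D / N ≤ D := Nat.div_le_self _ _
  set Q1 : Finset (Fin 4 → ℝ) := Q.filter fun p => p ∈ rsS ν h hs j with hQ1
  have hmem : ∀ p, p ∈ Q1 ↔ p ∈ Q ∧ p ∈ rsS ν h hs j := fun p => by
    rw [hQ1, Finset.mem_filter]
  set G0 : RP := hs * (dnu ν)^[j + 1] h with hG0
  have hG0d : G0.totalDegree ≤ 2 * D := by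
    refine (totalDegree_mul _ _).trans ?_
    have := RES_Hj_deg ν h (j + 1)
    omega
  have hG0e : ∀ p, eval p G0 ≠ 0 ↔ eval p hs ≠ 0 ∧ eval p ((dnu ν)^[j + 1] h) ≠ 0 := fun p => by
    rw [hG0, map_mul, mul_ne_zero_iff]
  rcases Nat.eq_zero_or_pos j with hj | hj
  · obtain ⟨T, hT1, hT2⟩ := hB h hh hn v hv Q1 (by
      intro p hp
      obtain ⟨hp1, hp2⟩ := (hmem p).1 hp
      refine ⟨(hQ p hp1).1, (hQ p hp1).2, ?_⟩
      have h1 := hp2.2.2
      rw [hj] at h1
      exact grad_of_dnu h1)
    rw [← hDd] at hT2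
    refine ⟨rsR [] G0 T, (hT1.restrict [] G0).mono ?_ ?_, (hT2.restrict [] G0 (by simp)).mono
      le_rfl le_rfl ?_ ?_ ?_⟩
    · rintro p ⟨hp1, -, hp2⟩
      have h1 := (hG0e p).1 hp2
      refine ⟨h1.1, fun i hi => ?_, h1.2⟩
      obtain rfl : i = 0 := by omega
      exact hp1
    · rintro p ⟨hp1, hp2⟩
      exact ⟨(hmem p).2 ⟨hp1, hp2⟩, fun k hk => absurd hk List.not_mem_nil,
        (hG0e p).2 ⟨hp2.1, hp2.2.2⟩⟩
    · omega
    · have h1 : A0 * (D + v.totalDegree) ≤ A0 * (2 * D + v.totalDegree) :=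
        Nat.mul_le_mul_left _ (by omega)
      omega
    · have h1 : A4 * (D / N) * (D / N + D) ≤ A4 * (D / N) * (2 * D) :=
        Nat.mul_le_mul_left _ (by omega)
      have h2 : 2 * A0 * D * (D + v.totalDegree) =
        A0 * D * (D + v.totalDegree) + A0 * D * (D + v.totalDegree) := by ring
      rw [h2]
      omega
  · by_cases hemp : ∃ p, p ∈ Q1
    swap
    · refine ⟨[], (RsOk.nil (rsS ν h hs j)).mono subset_rfl ?_, RsBd.nil.mono (Nat.zero_le _)
        (Nat.zero_le _) (Nat.zero_le _) (Nat.zero_le _) (Nat.zero_le _)⟩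
      intro p hp
      exact absurd ⟨p, (hmem p).2 hp⟩ hemp
    obtain ⟨p0, hp0⟩ := hemp
    set u : RP := (dnu ν)^[j] h with hu
    have hsucc : (dnu ν)^[j + 1] h = dnu ν u := by
      rw [Function.iterate_succ_apply']
    have hu0 : u ≠ 0 := by
      intro h0
      have h1 := ((hmem p0).1 hp0).2.2.2
      rw [hsucc, h0] at h1
      apply h1
      unfold dnu
      simp
    have hD1 : 1 ≤ D := rs_irr_deg hh
    have hud : u.totalDegree ≤ D - j := deg_dnu_it ν h j
    obtain ⟨us, hus1, hus2, hus3⟩ := rs_factor u hu0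
    have hfd : ∀ f ∈ us, f.totalDegree ≤ D - j := fun f hf =>
      (RES_Hj_mem us hf).trans (hus2.trans hud)
    obtain ⟨T, hT1, hT2⟩ := rs_list us Q1 (fun f => f.totalDegree + A1 * (f.totalDegree / N))
      (fun f => A0 * f.totalDegree * (f.totalDegree + D) +
        A4 * (f.totalDegree / N) * (f.totalDegree / N + f.totalDegree)) D (A2 * (D / N))
      (A0 * (2 * D) + A3 * (D / N) + A3' * D) (by
        intro f hf Q' hQ'
        have h1 := hfd f hf
        obtain ⟨T, hT1, hT2⟩ := hB f (hus1 f hf).1 (by omega) h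
          (rs_irr_dvd hh (hus1 f hf).1 (by omega)) Q' (by
            intro p hp
            obtain ⟨hp1, hp2⟩ := hQ' p hp
            obtain ⟨hp3, hp4⟩ := (hmem p).1 hp1
            refine ⟨hp2, (hQ p hp3).1, rs_grad_factor (hus1 f hf).2 hp2 ?_⟩
            have h2 := hp4.2.2
            rw [hsucc] at h2
            exact grad_of_dnu h2)
        rw [← hDd] at hT2
        have h2 : f.totalDegree / N ≤ D / N := Nat.div_le_div_right (by omega)
        refine ⟨T, hT1, hT2.mono le_rfl (by omega) (Nat.mul_le_mul_left _ h2) ?_ le_rfl⟩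
        refine add_le_add (add_le_add (Nat.mul_le_mul_left _ (by omega)) (Nat.mul_le_mul_left _ h2))
          (Nat.mul_le_mul_left _ (by omega)))
    have hsum1 : (us.map fun f => f.totalDegree).sum ≤ D := hus2.trans (hud.trans (Nat.sub_le _ _))
    have hsum2 : (us.map fun f => f.totalDegree / N).sum ≤ D / N :=
      (RES_Hj_div us).trans (Nat.div_le_div_right hsum1)
    set ks : List RP := (List.range (j + 1)).map fun i => (dnu ν)^[i] h with hks
    have hks1 : ∀ p, (∀ k ∈ ks, eval p k = 0) ↔ ∀ i ≤ j, eval p ((dnu ν)^[i] h) = 0 := by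
      intro p
      rw [hks]
      constructor
      · intro hp i hi
        exact hp _ (List.mem_map.2 ⟨i, List.mem_range.2 (by omega), rfl⟩)
      · intro hp k hk
        obtain ⟨i, hi, rfl⟩ := List.mem_map.1 hk
        exact hp i (by have := List.mem_range.1 hi; omega)
    have hks2 : ∀ k ∈ ks, k.totalDegree ≤ D := by
      intro k hk
      obtain ⟨i, -, rfl⟩ := List.mem_map.1 hk
      exact RES_Hj_deg ν h i
    refine ⟨rsR ks G0 T, (hT1.restrict ks G0).mono ?_ ?_, (hT2.restrict ks G0 hks2).mono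
      ?_ le_rfl ?_ ?_ ?_⟩
    · rintro p ⟨-, hp1, hp2⟩
      have h1 := (hG0e p).1 hp2
      exact ⟨h1.1, (hks1 p).1 hp1, h1.2⟩
    · rintro p ⟨hp1, hp2⟩
      refine ⟨⟨(hmem p).2 ⟨hp1, hp2⟩, hus3 p (hp2.2.1 j le_rfl)⟩, (hks1 p).2 hp2.2.1,
        (hG0e p).2 ⟨hp2.1, hp2.2.2⟩⟩
    · rw [RES_Hj_w]
      exact add_le_add hsum1 (Nat.mul_le_mul_left _ hsum2)
    · have h1 : (us.map fun f : RP => f.totalDegree).sum ≤ D := hsum1
      refine (add_le_add hG0d (add_le_add le_rfl h1)).trans ?_
      omega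
    · have h1 : A0 * (2 * D) ≤ A0 * (2 * D + v.totalDegree) := Nat.mul_le_mul_left _ (by omega)
      omega
    · refine (RES_Hj_q us fun f hf => (hfd f hf).trans (Nat.sub_le _ _)).trans ?_
      refine add_le_add ?_ (Nat.mul_le_mul_right _ (Nat.mul_le_mul_left _ hsum2))
      calc A0 * (us.map fun f => f.totalDegree).sum * (2 * D) ≤ A0 * D * (2 * D) :=
            Nat.mul_le_mul_right _ (Nat.mul_le_mul_left _ hsum1)
        _ = 2 * A0 * D * D := by ring
        _ ≤ 2 * A0 * D * (D + v.totalDegree) := Nat.mul_le_mul_left _ (by omega)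

end D4Q
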