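import Mathlib

/-!
# D4Q-RES_Hn: the numbers

Elementary inequalities for natural numbers: with `a1 = b + 1` all of them are linear combinations of products of the hypotheses
`16 x ≤ δ`, `64 (b + 2) s ≤ δ`.
-/

namespace D4Q

theorem rs_num {C a1 N A0 A1 A2 A3 A4 x s δ y : ℕ} (ha1 : a1 = 16 * C) (hC : 1 ≤ C)
    (hN : N = 64 * (a1 + 1)) (hA1 : A1 = 2 * a1) (hA2 : A2 = 8) (hA3 : A3 = 4 * A0)
    (hA4 : A4 = 4 * A0 * (a1 + 1)) (hA0 : 1 ≤ A0) (hx : 16 * x ≤ δ) (hs : N * s ≤ δ) :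
    A1 * x + (a1 - 1) * (δ + A1 * s) ≤ A1 * δ ∧
    A2 * x ≤ 7 * δ ∧ A2 * s + 3 * δ ≤ 7 * δ ∧
    A3 * x + A0 * δ ≤ A3 * δ + A0 * y ∧
    A0 * (2 * δ + y) + A3 * s + A0 * δ ≤ A3 * δ + A0 * y ∧
    A4 * x * (x + δ) + (a1 - 1) * (2 * A0 * δ * (δ + y) + A4 * s * (2 * δ)) ≤
      A4 * δ * (δ + y) := by
  obtain ⟨b, rfl⟩ : ∃ b, a1 = b + 1 := ⟨a1 - 1, by omega⟩
  rw [Nat.add_sub_cancel]
  subst hN hA1 hA2 hA3 hA4
  have hs' : 64 * b * s + 128 * s ≤ δ := by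
    have h : 64 * (b + 1 + 1) * s = 64 * b * s + 128 * s := by ring
    rwa [h] at hs
  have hs8 : 8 * s ≤ δ := by
    have h : 0 ≤ 64 * b * s := Nat.zero_le _
    omega
  refine ⟨?_, ?_, ?_, ?_, ?_, ?_⟩
  · have h1 := Nat.mul_le_mul_left (b + 1) hx
    have h2 := Nat.mul_le_mul_left b hs'
    have h3 : 0 ≤ b * s := Nat.zero_le _
    have h4 : 0 ≤ b * δ := Nat.zero_le _
    nlinarith [h1, h2, h3, h4]
  · omega
  · omega
  · have h1 := Nat.mul_le_mul_left A0 hx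
    have h2 : 0 ≤ A0 * y := Nat.zero_le _
    have h3 : 0 ≤ A0 * δ := Nat.zero_le _
    nlinarith [h1, h2, h3]
  · have h1 := Nat.mul_le_mul_left A0 hs8
    have h3 : 0 ≤ A0 * δ := Nat.zero_le _
    nlinarith [h1, h3]
  · have h1 : 16 * x * (16 * x + 16 * δ) ≤ δ * (17 * δ) := Nat.mul_le_mul hx (by omega)
    have h2 := Nat.mul_le_mul_left (A0 * (b + 2)) h1
    have h3 := Nat.mul_le_mul_left (A0 * b * δ) hs'
    have h4 : 0 ≤ A0 * b * δ * δ := Nat.zero_le _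
    have h5 : 0 ≤ A0 * δ * δ := Nat.zero_le _
    have h6 : 0 ≤ A0 * δ * y := Nat.zero_le _
    have h7 : 0 ≤ A0 * b * δ * y := Nat.zero_le _
    nlinarith [h2, h3, h4, h5, h6, h7]

end D4Q
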