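import Mathlib
import Pool.Agent.D4Q.RES_Hj
import Pool.Agent.D4Q.RES_Hn

/-!
# D4Q-RES_H: one irreducible polynomial

PLAN. Constants: `C` from `sharp0`, `a1 = 16 C`, `N = 64 (a1 + 1)`, `A0` from `rs_B N`, `A1 = 2 a1`, `A2 = 8`, `A3' = A0`, `A3 = 4 A0`, `A4 = 4 A0 (a1 + 1)`.
Given `h` irreducible of degree `δ ≤ n + 1` (`δ ≥ 1`), `v`, `Q`: `ν` from `ord0 Q {h}`. `Qs` = points of `Q` where `(dnu ν)^i h` vanishes for all `i < a1`; `h ∈ mI p ^ a1` there; `sharp0`: `hs ≠ 0` vanishing on `Qs` with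
`16 C deg hs ≤ C δ`, so `16 deg hs ≤ δ`. PART a: `RsP` for `u = hs`, `v = h` (`rs_not_dvd`, `rs_relprime`, `deg hs < δ`, so `deg hs ≤ n`), `Qa` = points of `Q` with `hs p = 0`; `Ta = rsR [h] 1 T`, inside
`{hs = 0} ∩ {h = 0}`. PART j, `j < a1 - 1`: `rs_Hj`, inside `rsS ν h hs j` (pairwise disjoint: for `i < j` `(dnu ν)^(i+1) h` is nonzero on the first and zero on the second); `rs_range (a1 - 1)`. A point `p ∈ Q` with `hs p ≠ 0` is not
in `Qs`, so some `(dnu ν)^i h` with `i < a1` does not vanish at `p`; the least `i` is `≥ 1` (`h p = 0`); `j = i - 1 < a1 - 1`. `T = Ta ++ Tb` (disjoint because of `hs`). All sets are contained in `{h = 0}` (`i = 0`).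
NUMBERS (`x = deg hs`, `16 x ≤ δ`; `s = δ / N`, `N s ≤ δ`; `y = deg v`): `rs_num` (RES_Hn).
-/

namespace D4Q

open MvPolynomial

theorem rs_H : ∃ A1 A3 A3' A4 : ℕ, ∀ n : ℕ, RsP A1 8 A3 A3' A4 n → ∀ (h : RP), Irreducible h →
    h.totalDegree ≤ n + 1 → ∀ (v : RP), ¬ h ∣ v → ∀ (Q : Finset (Fin 4 → ℝ)),
    (∀ p ∈ Q, eval p h = 0 ∧ eval p v = 0) →
    ∃ T : List RsB, RsOk {p | eval p h = 0} (Q : Set (Fin 4 → ℝ)) T ∧
      RsBd (A1 * h.totalDegree) h.totalDegree (7 * h.totalDegree)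
        (A3 * h.totalDegree + A3' * v.totalDegree)
        (A4 * h.totalDegree * (h.totalDegree + v.totalDegree)) T := by
  classical
  obtain ⟨C, hC, hsharp⟩ := sharp0
  obtain ⟨a1, ha1⟩ : ∃ a1, a1 = 16 * C := ⟨_, rfl⟩
  obtain ⟨N, hN⟩ : ∃ N, N = 64 * (a1 + 1) := ⟨_, rfl⟩
  obtain ⟨A0, hA0, hB⟩ := rs_B N (by omega)
  refine ⟨2 * a1, 4 * A0, A0, 4 * A0 * (a1 + 1), fun n hP h hh hn v hv Q hQ => ?_⟩
  have hd1 := rs_irr_deg hh
  obtain ⟨ν, hν⟩ := ord0 Q {h}
  obtain ⟨hs, hs0, hsz, hsd⟩ := hsharp h hh.ne_zero a1 (by omega)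
    (Q.filter fun p => ∀ i < a1, eval p ((dnu ν)^[i] h) = 0) (fun p hp =>
      hν p (Finset.mem_filter.1 hp).1 h (Finset.mem_singleton_self _) a1 (Finset.mem_filter.1 hp).2)
  have hs16 : 16 * hs.totalDegree ≤ h.totalDegree := by
    rw [ha1] at hsd
    have h1 : C * (16 * hs.totalDegree) ≤ C * h.totalDegree := by
      calc C * (16 * hs.totalDegree) = 16 * C * hs.totalDegree := by ring
        _ ≤ _ := hsd
    exact Nat.le_of_mul_le_mul_left h1 (by omega)
  obtain ⟨n1, n2, n3, n4, n5, n6⟩ := rs_num (C := C) (a1 := a1) (N := N) (A0 := A0) (x := hs.totalDegree)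
    (s := h.totalDegree / N) (δ := h.totalDegree) (y := v.totalDegree) ha1 hC hN rfl rfl rfl rfl hA0
    hs16 (Nat.mul_div_le _ _)
  -- part a
  obtain ⟨Ta, ta1, ta2⟩ := hP hs h (Q.filter fun p => eval p hs = 0) hs0
    (rs_relprime hh (rs_not_dvd hs0 (by omega)))
    (fun p hp => ⟨(Finset.mem_filter.1 hp).2, (hQ p (Finset.mem_filter.1 hp).1).1⟩) (by omega)
  have ta1' := ta1.restrict [h] 1
  have ta2' := (ta2.mono (d' := h.totalDegree) le_rfl (by omega) le_rfl le_rfl le_rfl).restrict [h] 1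
    (fun k hk => by rw [List.mem_singleton.1 hk])
  rw [totalDegree_one, zero_add] at ta2'
  -- the other parts
  obtain ⟨Tb, tb1, tb2⟩ := rs_range (a1 - 1) (rsS ν h hs) (fun j => {p | p ∈ Q ∧ p ∈ rsS ν h hs j})
    (fun _ => h.totalDegree + 2 * a1 * (h.totalDegree / N))
    (fun _ => 2 * A0 * h.totalDegree * (h.totalDegree + v.totalDegree) +
      4 * A0 * (a1 + 1) * (h.totalDegree / N) * (2 * h.totalDegree)) h.totalDegree
    (8 * (h.totalDegree / N) + 3 * h.totalDegree)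
    (A0 * (2 * h.totalDegree + v.totalDegree) + 4 * A0 * (h.totalDegree / N) + A0 * h.totalDegree)
    (by
      intro i _ j _ hij
      rw [Set.disjoint_left]
      rintro p ⟨_, hi1, hi2⟩ ⟨_, hj1, hj2⟩
      rcases lt_or_gt_of_ne hij with hlt | hgt
      · exact hi2 (hj1 (i + 1) hlt)
      · exact hj2 (hi1 (j + 1) hgt))
    (fun j _ => rs_Hj (by omega) (hB _ _ _ _ _ _ hP) hh hn hv (by omega) ν Q hQ j)
  refine ⟨rsR [h] 1 Ta ++ Tb, ?_, ?_⟩
  · refine (ta1'.append tb1 ?_).mono ?_ ?_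
    · rw [Set.disjoint_left]
      rintro p ⟨hp, _⟩ ⟨j, _, hj, _⟩
      exact hj hp
    · rintro p (⟨_, hp, _⟩ | ⟨j, _, _, hj, _⟩)
      · exact hp h (List.mem_singleton_self _)
      · exact hj 0 (Nat.zero_le _)
    · intro p hp
      have hp' : p ∈ Q := hp
      by_cases hz : eval p hs = 0
      · refine Or.inl ⟨Finset.mem_coe.2 (Finset.mem_filter.2 ⟨hp', hz⟩), fun k hk => ?_, ?_⟩
        · rw [List.mem_singleton.1 hk]
          exact (hQ p hp').1
        · rw [map_one]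
          exact one_ne_zero
      · right
        have hex : ∃ i, i < a1 ∧ eval p ((dnu ν)^[i] h) ≠ 0 := by
          by_contra hcon
          push Not at hcon
          exact hz (hsz p (Finset.mem_filter.2 ⟨hp', hcon⟩))
        obtain ⟨hi1, hi2⟩ := Nat.find_spec hex
        obtain ⟨i, hi⟩ : ∃ i, i = Nat.find hex := ⟨_, rfl⟩
        rw [← hi] at hi1 hi2
        have hi0 : i ≠ 0 := by
          intro h0
          rw [h0] at hi2
          exact hi2 (hQ p hp').1
        obtain ⟨j, rfl⟩ := Nat.exists_eq_succ_of_ne_zero hi0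
        have hS : p ∈ rsS ν h hs j := by
          refine ⟨hz, fun k hk => ?_, hi2⟩
          by_contra hne
          exact Nat.find_min hex (m := k) (by omega) ⟨by omega, hne⟩
        exact ⟨j, by omega, hp', hS⟩
  · have ca := ta2'.mono (w' := 2 * a1 * hs.totalDegree) (d' := h.totalDegree)
      (e' := 7 * h.totalDegree) (f' := 4 * A0 * h.totalDegree + A0 * v.totalDegree)
      (q' := 4 * A0 * (a1 + 1) * hs.totalDegree * (hs.totalDegree + h.totalDegree))
      le_rfl le_rfl n2 n4 le_rfl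
    have cb := tb2.mono (w' := (a1 - 1) * (h.totalDegree + 2 * a1 * (h.totalDegree / N)))
      (d' := h.totalDegree)
      (e' := 7 * h.totalDegree) (f' := 4 * A0 * h.totalDegree + A0 * v.totalDegree)
      (q' := (a1 - 1) * (2 * A0 * h.totalDegree * (h.totalDegree + v.totalDegree) +
        4 * A0 * (a1 + 1) * (h.totalDegree / N) * (2 * h.totalDegree)))
      (by rw [Finset.sum_const, Finset.card_range, smul_eq_mul]) le_rfl n3 n5
      (by rw [Finset.sum_const, Finset.card_range, smul_eq_mul])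
    exact (ca.append cb).mono n1 le_rfl le_rfl le_rfl n6

end D4Q
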