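import Mathlib
import Pool.Agent.D4Q.RES_H

/-!
# D4Q-RES_U: the induction

`rs_all`: the induction statement `RsP` for all degrees: irreducible factors of `u` (`rs_factor`, `rs_list`) and `rs_H`.
-/

namespace D4Q

open MvPolynomial

private theorem rsU_dvd {f u : RP} (h : f ∣ u) {p : Fin 4 → ℝ} (hp : eval p f = 0) :
    eval p u = 0 := by
  obtain ⟨w, rfl⟩ := h
  rw [map_mul, hp, zero_mul]

private theorem rsU_step {A1 A3 A3' A4 n : ℕ} (hP : RsP A1 8 A3 A3' A4 n)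
    (hH : ∀ (h : RP), Irreducible h →
      h.totalDegree ≤ n + 1 → ∀ (v : RP), ¬ h ∣ v → ∀ (Q : Finset (Fin 4 → ℝ)),
      (∀ p ∈ Q, eval p h = 0 ∧ eval p v = 0) →
      ∃ T : List RsB, RsOk {p | eval p h = 0} (Q : Set (Fin 4 → ℝ)) T ∧
        RsBd (A1 * h.totalDegree) h.totalDegree (7 * h.totalDegree)
          (A3 * h.totalDegree + A3' * v.totalDegree)
          (A4 * h.totalDegree * (h.totalDegree + v.totalDegree)) T) :
    RsP A1 8 A3 A3' A4 (n + 1) := by
  intro u v Q hu huv hQ hd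
  obtain ⟨us, hus, hsum, hzero⟩ := rs_factor u hu
  have hdeg : ∀ f ∈ us, f.totalDegree ≤ u.totalDegree := fun f hf =>
    (List.single_le_sum (fun _ _ => Nat.zero_le _) _
      (List.mem_map.2 ⟨f, hf, rfl⟩)).trans hsum
  obtain ⟨T, h1, h2⟩ := rs_list us Q (fun f => A1 * f.totalDegree)
    (fun f => A4 * f.totalDegree * (u.totalDegree + v.totalDegree)) u.totalDegree
    (7 * u.totalDegree) (A3 * u.totalDegree + A3' * v.totalDegree) (by
      intro f hf Q' hQ'
      obtain ⟨hirr, hdvd⟩ := hus f hf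
      obtain ⟨T, k1, k2⟩ := hH f hirr ((hdeg f hf).trans hd) v
        (fun hfv => hirr.1 (huv hdvd hfv)) Q'
        (fun p hp => ⟨(hQ' p hp).2, (hQ p (hQ' p hp).1).2⟩)
      refine ⟨T, k1, k2.mono le_rfl (hdeg f hf) ?_ ?_ ?_⟩
      · exact Nat.mul_le_mul_left _ (hdeg f hf)
      · exact Nat.add_le_add_right (Nat.mul_le_mul_left _ (hdeg f hf)) _
      · exact Nat.mul_le_mul_left _ (Nat.add_le_add_right (hdeg f hf) _))
  refine ⟨T, h1.mono ?_ ?_, h2.mono ?_ le_rfl ?_ le_rfl ?_⟩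
  · rintro p ⟨f, hf, hp⟩
    exact rsU_dvd (hus f hf).2 hp
  · intro p hp
    exact ⟨hp, hzero p (hQ p hp).1⟩
  · rw [List.sum_map_mul_left]
    exact Nat.mul_le_mul_left _ hsum
  · exact (Nat.add_le_add_left hsum _).trans (le_of_eq (by ring))
  · rw [List.sum_map_mul_right, List.sum_map_mul_left]
    exact Nat.mul_le_mul_right _ (Nat.mul_le_mul_left _ hsum)

theorem rs_all : ∃ A1 A3 A3' A4 : ℕ, ∀ n : ℕ, RsP A1 8 A3 A3' A4 n := by
  obtain ⟨A1, A3, A3', A4, hH⟩ := rs_H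
  refine ⟨A1, A3, A3', A4, fun n => ?_⟩
  induction n with
  | zero =>
    intro u v Q hu _ hQ hd
    have hc : u = C (u.coeff 0) := totalDegree_eq_zero_iff_eq_C.1 (Nat.le_zero.1 hd)
    have hQe : (Q : Set (Fin 4 → ℝ)) = ∅ := by
      rw [Finset.coe_eq_empty, Finset.eq_empty_iff_forall_notMem]
      intro p hp
      have h1 := (hQ p hp).1
      rw [hc, eval_C] at h1
      rw [h1, C_0] at hc
      exact hu hc
    refine ⟨[], ?_, RsBd.nil.mono (Nat.zero_le _) (Nat.zero_le _) (Nat.zero_le _) (Nat.zero_le _)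
      (Nat.zero_le _)⟩
    rw [hQe]
    exact RsOk.nil _
  | succ n ih => exact rsU_step ih (hH n ih)

end D4Q
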