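import Mathlib
import Pool.Agent.D4Q.MD
import Pool.Agent.D4Q.ORD
import Pool.Agent.D4Q.RES_U
import Pool.Agent.D4Q.RES_Cv

/-!
# D4Q part RES: resolution of a codimension two set into classes of rank two

`resolve`: for coprime `u, v ∈ ℝ[x_1..x_4]`, `u ≠ 0`, and a finite set `Q` of common zeros
there are bases and classes (`Tab`) with pairwise disjoint regions contained in `{u = 0}` such
that each point of `Q` is in a region, the gradients of `h (β c)` and `g c` are linearly
independent there, and, with `x = deg u`, `y = deg v`: the bases have total degree `≤ A x`, all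
polynomials have degree `≤ A (x + y)`, and
`∑_c deg h (β c) * (deg h (β c) + deg g c + deg l c + deg r c + 1) ≤ A x (x + y)`.

PAPER PROOF. Let `C` be the constant of `md0`, `mdH`. Fix `a1 = 16 C + 1` (so `h` of multiplicity
`≥ a1` on `Q` gives a nonzero polynomial of degree `≤ deg h / 16` vanishing on `Q`, more precisely
of degree `≤ C deg h / a1`), then `θ = 1 / (64 (a1 + 1))` and `a2 = ` a natural number
`≥ 4 C / θ ^ 2` (say), all absolute constants. We prove by strong induction on `x = deg u` a statement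
`Res (u, v; κ0, G0)` with inherited polynomials: classes for all points of `Q ∩ {κ0 = 0, G0 ≠ 0}`,
regions contained in `{u = 0, κ0 = 0, G0 ≠ 0}`, the `κ b` (`G b`) having degree at most
`max (deg κ0) (A (x+y))` (`deg G0 + A (x+y)`). (Products for `G`, sums of squares for `κ`:
`κ = 0` for `κ = κ0 ^ 2 + h ^ 2` iff both vanish; to keep the degrees bounded, square only once,
e.g. carry a finite list of polynomials of degree `≤ A (x+y)` and add their squares at the end.)

STEP U. `u = ∏ u_l ^ e_l` with irreducible `u_l`, nonassociated, `∑ deg u_l ≤ x`; the point `p`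
goes to the first `l` with `u_l p = 0`; add `u_1 ... u_{l-1}` to `G` (so the regions are disjoint).
Continue with STEP H for `(u_l, v)` (`u_l` does not divide `v`).

STEP H. `h` irreducible of degree `δ ≥ 1`, `h ∤ v`, points `Q ⊆ {h = v = 0}`; `ν` generic (`ord0`) for
`Q`, `h`. `h_i = (dν ν)^i h`. Let `Q♯` = points where `h_0, ..., h_{a1-1}` vanish, so `h ∈ m_p^a1` there;
by `md0` there is `0 ≠ h♯` of degree `≤ δ / 16` vanishing on `Q♯` (minimal degree; `h♯ = 1` if
`Q♯` is empty). Points with `h♯ p = 0`: `Res (h♯, h; κ, h, G)` (recursion; `h ∤ h♯`, coprime as `h` is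
irreducible and of larger degree). All others get `h♯` into `G`; then for a
point `p` with `h♯ p ≠ 0` let `j < a1` be the number with `h_i p = 0` for `i ≤ j`, `h_{j+1} p ≠ 0`: put
`h_0, ..., h_j` into `κ`, `h_{j+1}` into `G` (disjoint for different `j`). In particular
`grad p h_j ≠ 0`. If `j = 0`: STEP B for base `h` and second polynomial `v`. If `j ≥ 1`: exactly one
irreducible factor `h'` of `h_j` vanishes at `p` and it does so with `grad p h' ≠ 0` (`h_j = h' w`,
`w p ≠ 0`, since otherwise `grad p h_j = 0`); for different `h'` the regions (inside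
`{h_j = 0, h_{j+1} ≠ 0}`) are disjoint; STEP B for base `h'` and second polynomial `h`
(`h' ∤ h` since `h` is irreducible of larger degree).

STEP B. Base `h'` irreducible of degree `δ'`, `grad p h' ≠ 0` at the points, second polynomial `g_0`,
`h' ∤ g_0`, of degree `ε_0`. If `ε_0 < θ δ'` go directly to `Res (g_0, h'; κ, h', G)`. Otherwise
CHAIN: given `g_t`, `h' ∤ g_t`, of degree `ε_t ≥ θ δ'` let `Q_t♯` be the set of all points `p ∈ Q` with `g_t p = 0`
and `g_t ∈ m_p^a2 + (h')`. If it is empty put `g_{t+1} = 1`, otherwise let `g_{t+1}` be of minimal degree among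
the polynomials not divisible by `h'` and vanishing on `Q_t♯`; by `mdH`
`ε_{t+1} ≤ C ε_t / a2` or `ε_{t+1}^2 ≤ C ε_t δ' / a2`, in both cases `ε_{t+1} ≤ ε_t / 2` (because
`ε_t ≥ θ δ'` and `a2 ≥ 4 C / θ`). Stop as soon as `ε_{t+1} < θ δ'`; so `ε_0, ..., ε_J ≥ θ δ'`, `ε_{J+1} < θ δ'`. For the whole chain choose `m`
generic (`ordH`) for `h'`, `Q`, `{g_0, ..., g_J}`. Let `p ∈ Q`. If `g_{J+1} p = 0` the point goes to the recursion
`Res (g_{J+1}, h'; κ, h', G)` (coprime: `h'` is irreducible and does not divide `g_{J+1}`; regions in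
`{g_{J+1} = 0, h' = 0}`). Otherwise let `t ≤ J` be the LAST index with `g_t p = 0` (exists: `g_0 p = 0`). Then `g_{t+1} p ≠ 0`,
so `p ∉ Q_t♯`, `g_t ∉ m_p^a2 + (h')`, and by the choice of `m` there is `j`, `j + 1 < a2`, such that `(dX m h')^i g_t`
vanishes at `p` for `i ≤ j` and not for `i = j + 1`. CLASS `(t, j)`: base `h'`, `g = (dX m h')^j g_t`, `l` = sum of the
squares of `(dX m h')^i g_t`, `i ≤ j`, `r = (dX m h')^(j+1) g_t * ∏_{t < t' ≤ J+1} g_{t'}`. Since
`dX m h' g = ∑ m_ij (∂_i h')(∂_j g) ≠ 0` at `p` and `m` is antisymmetric, the gradients of `h'` and `g` are independent at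
`p`. The regions of different `(t, j)` are disjoint: for `t < t'` `g_{t'} ≠ 0` on the first and `= 0` on the second; for the same
`t` look at `(dX m h')^(j+1) g_t`. They are disjoint from `{g_{J+1} = 0}`.

SUMS. Total base degree `t(x)`: STEP H contributes bases of degrees `δ` (`j = 0`) and factors of `h_j`,
`1 ≤ j < a1`, total `≤ a1 δ`; recursive calls: `Res (h♯, h)` with `deg h♯ ≤ δ/16` and for each base
`h'` one call with `deg < θ δ'`: total degree of all calls `≤ δ/16 + θ a1 δ ≤ δ/8`; so `t(x) ≤ 2 a1 x` by strong induction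
(note that the first argument `u` of a call has smaller degree, and that the statement holds trivially for constant `u`). Products: for
each base with second polynomial of degree `ε_0 ≥ θ δ'`: `∑_classes δ' (δ' + deg g + deg l + deg r + 1) ≤ A' δ' ε_0`, because the degrees `ε_t`
decay geometrically, are `≥ θ δ'`, there are at most `a2` classes for each `t`, and `deg (dX m h')^i g_t ≤ ε_t + i δ'`. First
generation: `∑ δ y + ∑ δ' δ ≤ A' x (x + y)`; recursive calls `(x', y')` with `∑ x' ≤ x / 8`, `y' ≤ x`: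
`∑ A x' (x' + y') ≤ A x^2 / 4`. Degrees of `κ b`, `G b`, `g`, `l`, `r`: each call multiplies the inherited `G` by polynomials of total
degree `≤ A' x` and adds to the list of the `κ`'s polynomials of degree `≤ x`; `x` decays geometrically.
-/

namespace D4Q

open MvPolynomial

theorem resolve : ∃ A : ℕ, ∀ (u v : MvPolynomial (Fin 4) ℝ) (Q : Finset (Fin 4 → ℝ)),
    u ≠ 0 → IsRelPrime u v → (∀ p ∈ Q, eval p u = 0 ∧ eval p v = 0) →
    ∃ (B L : Type) (_ : Fintype B) (_ : Fintype L) (T : Tab B L),
      (∀ b, T.h b ≠ 0 ∧ 1 ≤ (T.h b).totalDegree) ∧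
      (∀ c c', c ≠ c' → Disjoint (T.Reg c) (T.Reg c')) ∧
      (∀ c, ∀ p ∈ T.Reg c, eval p u = 0) ∧
      (∀ p ∈ Q, ∃ c, p ∈ T.Reg c ∧
        LinearIndependent ℝ ![HDI.grad p (T.h (T.β c)), HDI.grad p (T.g c)]) ∧
      (∑ b, (T.h b).totalDegree ≤ A * u.totalDegree) ∧
      (∀ b, (T.κ b).totalDegree ≤ A * (u.totalDegree + v.totalDegree) ∧
        (T.G b).totalDegree ≤ A * (u.totalDegree + v.totalDegree)) ∧
      (∀ c, (T.g c).totalDegree ≤ A * (u.totalDegree + v.totalDegree) ∧
        (T.l c).totalDegree ≤ A * (u.totalDegree + v.totalDegree) ∧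
        (T.r c).totalDegree ≤ A * (u.totalDegree + v.totalDegree)) ∧
      ∑ c, (T.h (T.β c)).totalDegree * ((T.h (T.β c)).totalDegree + (T.g c).totalDegree +
        (T.l c).totalDegree + (T.r c).totalDegree + 1) ≤
          A * u.totalDegree * (u.totalDegree + v.totalDegree) := by
  obtain ⟨A1, A3, A3', A4, hP⟩ := rs_all
  refine ⟨A1 + 8 + A3 + A3' + A4, fun u v Q hu huv hQ => ?_⟩
  obtain ⟨T, h1, h2⟩ := hP u.totalDegree u v Q hu huv hQ le_rfl
  obtain ⟨B, L, iB, iL, U, c1, c2, c3, c4, c5, c6, c7, c8⟩ := rs_conv h1 h2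
  refine ⟨B, L, iB, iL, U, c1, c2, fun c p hp => c3 c hp, c4, ?_, ?_, ?_, ?_⟩
  · exact c5.trans (Nat.mul_le_mul_right _ (by omega))
  · intro b
    constructor
    · refine (c6 b).1.trans ?_
      exact Nat.mul_le_mul (by omega) (by omega)
    · refine (c6 b).2.trans ?_
      exact Nat.mul_le_mul (by omega) (by omega)
  · intro c
    have h3 : A3 * u.totalDegree + A3' * v.totalDegree ≤
        (A1 + 8 + A3 + A3' + A4) * (u.totalDegree + v.totalDegree) := by
      rw [Nat.mul_add]
      exact Nat.add_le_add (Nat.mul_le_mul_right _ (by omega)) (Nat.mul_le_mul_right _ (by omega))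
    exact ⟨(c7 c).1.trans h3, (c7 c).2.1.trans h3, (c7 c).2.2.trans h3⟩
  · refine c8.trans ?_
    exact Nat.mul_le_mul_right _ (Nat.mul_le_mul_right _ (by omega))

end D4Q
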