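import Mathlib
import Pool.Agent.D4Q.Frame_D
import Pool.Agent.D4Q.RES

/-!
# D4Q-FrameT: the table of bases and classes for the points of level 2

`resolve` is applied to each `X.h i` and the product of the `X.f' i j` with a nonzero derivative of `X.h i`; the tables are combined, the `G` of
the table `i` being multiplied by the `X.h l`, `l < i`.
-/

namespace D4Q

open MvPolynomial

/-- the degree of a derivative -/
private theorem FT_deg {i : Fin 4} {w : MvPolynomial (Fin 4) ℝ} (h : pderiv i w ≠ 0) :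
    (pderiv i w).totalDegree < w.totalDegree := by
  have h1 : ∀ m ∈ (pderiv i w).support, (m.sum fun _ e => e) + 1 ≤ w.totalDegree := by
    intro m hm
    rw [mem_support_iff, coeff_pderiv] at hm
    have h2 : m + Finsupp.single i 1 ∈ w.support := by
      rw [mem_support_iff]
      exact left_ne_zero_of_mul hm
    have h3 := le_totalDegree h2
    rw [Finsupp.sum_add_index' (fun _ => rfl) (fun _ _ _ => rfl), Finsupp.sum_single_index rfl] at h3
    exact h3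
  obtain ⟨m, hm⟩ := Finset.nonempty_iff_ne_empty.2 (fun h0 => h (support_eq_empty.1 h0))
  have h2 : (pderiv i w).totalDegree ≤ w.totalDegree - 1 := by
    rw [totalDegree]
    refine Finset.sup_le fun m hm => ?_
    have := h1 m hm
    omega
  have := h1 m hm
  omega

private theorem FT_pos {h : MvPolynomial (Fin 4) ℝ} (hh : Irreducible h) : 1 ≤ h.totalDegree := by
  by_contra h0
  have h1 : h.totalDegree = 0 := by omega
  rw [totalDegree_eq_zero_iff_eq_C] at h1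
  have h2 : h.coeff 0 ≠ 0 := by
    intro h3
    rw [h3, C_0] at h1
    exact hh.ne_zero h1
  exact hh.not_isUnit (by rw [h1]; exact (isUnit_iff_ne_zero.2 h2).map C)

/-- a nonconstant polynomial has a nonzero derivative -/
private theorem FT_ex {h : MvPolynomial (Fin 4) ℝ} (hh : Irreducible h) : ∃ a, pderiv a h ≠ 0 := by
  by_contra hc
  push Not at hc
  have h1 : ∀ m ∈ h.support, ∀ i, m i = 0 := by
    intro m hm i
    by_contra h0
    have h2 : m - Finsupp.single i 1 + Finsupp.single i 1 = m := by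
      refine Finsupp.ext fun k => ?_
      rw [Finsupp.add_apply, Finsupp.tsub_apply, Finsupp.single_apply]
      split_ifs with hi
      · rw [← hi]
        omega
      · omega
    have h3 := coeff_pderiv (i := i) h (m - Finsupp.single i 1)
    rw [hc i, coeff_zero, h2] at h3
    rcases mul_eq_zero.1 h3.symm with h4 | h4
    · exact (mem_support_iff.1 hm) h4
    · have h5 : (0 : ℝ) ≤ (((m - Finsupp.single i 1 : Fin 4 →₀ ℕ) i : ℕ) : ℝ) := Nat.cast_nonneg _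
      linarith
  have h2 : h.totalDegree ≤ 0 := by
    rw [totalDegree]
    refine Finset.sup_le fun m hm => ?_
    have h3 : m = 0 := Finsupp.ext fun i => h1 m hm i
    rw [h3, Finsupp.sum_zero_index]
  have := FT_pos hh
  omega

/-- the second polynomial -/
private theorem FT_v {J : ℕ} {h : MvPolynomial (Fin 4) ℝ} (hh : Irreducible h) {f : Fin J → MvPolynomial (Fin 4) ℝ}
    (hf : ∀ j, ¬ h ∣ f j) : ∃ v : MvPolynomial (Fin 4) ℝ, IsRelPrime h v ∧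
      v.totalDegree ≤ h.totalDegree + ∑ j, (f j).totalDegree ∧
      ∀ p, ((∃ j, eval p (f j) = 0) ∨ HDI.grad p h = 0) → eval p v = 0 := by
  obtain ⟨a, ha⟩ := FT_ex hh
  have hp : Prime h := UniqueFactorizationMonoid.irreducible_iff_prime.1 hh
  refine ⟨(∏ j, f j) * pderiv a h, ?_, ?_, ?_⟩
  · rw [hh.isRelPrime_iff_not_dvd]
    intro hd
    rcases hp.dvd_or_dvd hd with h1 | h1
    · obtain ⟨j, -, hj⟩ := hp.exists_mem_finset_dvd h1
      exact hf j hj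
    · obtain ⟨q, hq⟩ := h1
      have hq0 : q ≠ 0 := fun h0 => ha (by rw [hq, h0, mul_zero])
      have h2 := FT_deg ha
      rw [hq, totalDegree_mul_of_isDomain hh.ne_zero hq0] at h2
      omega
  · refine (totalDegree_mul _ _).trans ?_
    have h1 : (∏ j, f j).totalDegree ≤ ∑ j, (f j).totalDegree := totalDegree_finsetProd _ _
    have h2 := FT_deg ha
    omega
  · rintro p (⟨j, hj⟩ | hg)
    · rw [map_mul, map_prod, Finset.prod_eq_zero (Finset.mem_univ j) hj, zero_mul]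
    · have h1 : eval p (pderiv a h) = 0 := congrFun hg a
      rw [map_mul, h1, mul_zero]

/-- the bound for the arcs of one table -/
private theorem FT_arcs {B L : Type} [Fintype B] [Fintype L] (β : L → B) (dh dk dG : B → ℕ) (dg dl dr : L → ℕ)
    {A1 δ E Δ dv : ℕ} (hδ : 1 ≤ δ) (hΔ : δ ≤ Δ) (hv : dv ≤ δ + E) (h1 : ∀ b, 1 ≤ dh b)
    (h5 : ∑ b, dh b ≤ A1 * δ) (h6 : ∀ b, dk b ≤ A1 * (δ + dv) ∧ dG b ≤ A1 * (δ + dv) + Δ)
    (h8 : ∑ c, dh (β c) * (dh (β c) + dg c + dl c + dr c + 1) ≤ A1 * δ * (δ + dv)) :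
    (∑ b, (dh b + 1) * (dh b + dk b + dG b + 1)) +
      ∑ c, (dh (β c) + 1) * (dh (β c) + dg c + dl c + dr c + 1) ≤
        (10 * A1 ^ 2 + 8 * A1) * (δ * (Δ + E)) := by
  have hb : ∀ b, (dh b + 1) * (dh b + dk b + dG b + 1) ≤ dh b * (2 * ((5 * A1 + 2) * (Δ + E))) := by
    intro b
    have e1 : dh b ≤ A1 * δ := (Finset.single_le_sum (fun _ _ => Nat.zero_le _) (Finset.mem_univ b)).trans h5
    have e2 := (h6 b).1
    have e3 := (h6 b).2
    have e4 : A1 * (δ + dv) ≤ A1 * (2 * Δ + E) := Nat.mul_le_mul_left _ (by omega)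
    have e5 : A1 * δ ≤ A1 * Δ := Nat.mul_le_mul_left _ hΔ
    have e6 : dh b + 1 ≤ 2 * dh b := by have := h1 b; omega
    have e7 : dh b + dk b + dG b + 1 ≤ (5 * A1 + 2) * (Δ + E) := by
      have e8 : A1 * Δ + A1 * (2 * Δ + E) + A1 * (2 * Δ + E) + 2 * Δ ≤ (5 * A1 + 2) * (Δ + E) := by
        nlinarith [Nat.zero_le (A1 * E), Nat.zero_le E]
      omega
    calc (dh b + 1) * (dh b + dk b + dG b + 1) ≤ (2 * dh b) * ((5 * A1 + 2) * (Δ + E)) := Nat.mul_le_mul e6 e7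
      _ = _ := by ring
  have hc : ∀ c, (dh (β c) + 1) * (dh (β c) + dg c + dl c + dr c + 1) ≤
      2 * (dh (β c) * (dh (β c) + dg c + dl c + dr c + 1)) := by
    intro c
    have e6 : dh (β c) + 1 ≤ 2 * dh (β c) := by have := h1 (β c); omega
    calc (dh (β c) + 1) * (dh (β c) + dg c + dl c + dr c + 1)
        ≤ (2 * dh (β c)) * (dh (β c) + dg c + dl c + dr c + 1) := Nat.mul_le_mul_right _ e6
      _ = _ := by ring
  have s1 : (∑ b, (dh b + 1) * (dh b + dk b + dG b + 1)) ≤ (A1 * δ) * (2 * ((5 * A1 + 2) * (Δ + E))) := by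
    refine (Finset.sum_le_sum fun b _ => hb b).trans ?_
    rw [← Finset.sum_mul]
    exact Nat.mul_le_mul_right _ h5
  have s2 : (∑ c, (dh (β c) + 1) * (dh (β c) + dg c + dl c + dr c + 1)) ≤ 2 * (A1 * δ * (2 * (Δ + E))) := by
    refine (Finset.sum_le_sum fun c _ => hc c).trans ?_
    rw [← Finset.mul_sum]
    refine Nat.mul_le_mul_left _ (h8.trans (Nat.mul_le_mul_left _ (by omega)))
  calc _ ≤ (A1 * δ) * (2 * ((5 * A1 + 2) * (Δ + E))) + 2 * (A1 * δ * (2 * (Δ + E))) := Nat.add_le_add s1 s2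
    _ = (10 * A1 ^ 2 + 8 * A1) * (δ * (Δ + E)) := by ring

/-- the bound for the cost of one table -/
private theorem FT_cost {B L : Type} [Fintype B] [Fintype L] (β : L → B) (dh dG : B → ℕ) (dg dl dr : L → ℕ)
    {A1 δ E Δ dv : ℕ} (hδ : 1 ≤ δ) (hΔ : δ ≤ Δ) (hv : dv ≤ δ + E) (h1 : ∀ b, 1 ≤ dh b)
    (h5 : ∑ b, dh b ≤ A1 * δ) (h6 : ∀ b, dG b ≤ A1 * (δ + dv) + Δ)
    (h7 : ∀ c, dg c ≤ A1 * (δ + dv) ∧ dr c ≤ A1 * (δ + dv))
    (h8 : ∑ c, dh (β c) * (dh (β c) + dg c + dl c + dr c + 1) ≤ A1 * δ * (δ + dv)) :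
    ∑ c, (dh (β c) + 1) * (dg c + 1) * (dh (β c) + dg c + dG (β c) + dr c + 1) ^ 2 ≤
        (16 * A1 * (7 * A1 + 2) ^ 2) * (δ * (Δ ^ 3 + E ^ 3)) := by
  have hc : ∀ c, (dh (β c) + 1) * (dg c + 1) * (dh (β c) + dg c + dG (β c) + dr c + 1) ^ 2 ≤
      (dh (β c) * (dh (β c) + dg c + dl c + dr c + 1)) * (2 * ((7 * A1 + 2) * (Δ + E)) ^ 2) := by
    intro c
    have e1 : dh (β c) ≤ A1 * δ :=
      (Finset.single_le_sum (fun _ _ => Nat.zero_le _) (Finset.mem_univ (β c))).trans h5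
    have e2 := h6 (β c)
    have e3 := h7 c
    have e4 : A1 * (δ + dv) ≤ A1 * (2 * Δ + E) := Nat.mul_le_mul_left _ (by omega)
    have e5 : A1 * δ ≤ A1 * Δ := Nat.mul_le_mul_left _ hΔ
    have e6 : dh (β c) + 1 ≤ 2 * dh (β c) := by have := h1 (β c); omega
    have e7 : dh (β c) + dg c + dG (β c) + dr c + 1 ≤ (7 * A1 + 2) * (Δ + E) := by
      have e8 : A1 * Δ + 3 * (A1 * (2 * Δ + E)) + 2 * Δ ≤ (7 * A1 + 2) * (Δ + E) := by
        nlinarith [Nat.zero_le (A1 * E), Nat.zero_le E]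
      have e9 := e3.1
      have e10 := e3.2
      omega
    calc (dh (β c) + 1) * (dg c + 1) * (dh (β c) + dg c + dG (β c) + dr c + 1) ^ 2
        ≤ (2 * dh (β c)) * (dh (β c) + dg c + dl c + dr c + 1) * ((7 * A1 + 2) * (Δ + E)) ^ 2 :=
          Nat.mul_le_mul (Nat.mul_le_mul e6 (by omega)) (Nat.pow_le_pow_left e7 2)
      _ = _ := by ring
  have s1 : (∑ c, (dh (β c) + 1) * (dg c + 1) * (dh (β c) + dg c + dG (β c) + dr c + 1) ^ 2) ≤
      (A1 * δ * (2 * (Δ + E))) * (2 * ((7 * A1 + 2) * (Δ + E)) ^ 2) := by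
    refine (Finset.sum_le_sum fun c _ => hc c).trans ?_
    rw [← Finset.sum_mul]
    exact Nat.mul_le_mul_right _ (h8.trans (Nat.mul_le_mul_left _ (by omega)))
  have s2 : (Δ + E) ^ 3 ≤ 4 * (Δ ^ 3 + E ^ 3) := by
    zify
    nlinarith [sq_nonneg ((Δ : ℤ) - E), mul_nonneg (add_nonneg (Int.natCast_nonneg Δ) (Int.natCast_nonneg E))
      (sq_nonneg ((Δ : ℤ) - E))]
  calc _ ≤ (A1 * δ * (2 * (Δ + E))) * (2 * ((7 * A1 + 2) * (Δ + E)) ^ 2) := s1
    _ = (4 * A1 * (7 * A1 + 2) ^ 2 * δ) * (Δ + E) ^ 3 := by ring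
    _ ≤ (4 * A1 * (7 * A1 + 2) ^ 2 * δ) * (4 * (Δ ^ 3 + E ^ 3)) := Nat.mul_le_mul_left _ s2
    _ = _ := by ring

theorem fr_table (k A : ℕ) : ∃ A' : ℕ, ∀ (P : Finset (Fin 4 → ℝ)) (t : ℝ), 1 ≤ t → ∀ (X : PD k A P t)
    (R : Finset (Fin 4 → ℝ)),
    (∀ p ∈ R, ∃ i, Lev X.h i p ∧ ((∃ j, eval p (X.f' i j) = 0) ∨ HDI.grad p (X.h i) = 0)) →
    ∃ (B L : Type) (_ : Fintype B) (_ : Fintype L) (T : Tab B L),
      (∀ b, T.h b ≠ 0) ∧
      (∀ c c', c ≠ c' → Disjoint (T.Reg c) (T.Reg c')) ∧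
      (∀ p ∈ R, ∃ c, p ∈ T.Reg c ∧
        LinearIndependent ℝ ![HDI.grad p (T.h (T.β c)), HDI.grad p (T.g c)]) ∧
      (T.arcs : ℝ) ≤ A' * t ^ 2 ∧ (T.cost : ℝ) ≤ A' * t ^ 4 := by
  classical
  obtain ⟨A1, hres⟩ := resolve
  refine ⟨(10 * A1 ^ 2 + 8 * A1) * (A ^ 2 + A) + (16 * A1 * (7 * A1 + 2) ^ 2) * (A ^ 4 + A), ?_⟩
  intro P t ht X R hR
  choose v hv1 hv2 hv3 using fun i => FT_v (X.irr i) (X.ndvd i)
  have huniq : ∀ {i j : Fin X.q} {p : Fin 4 → ℝ}, Lev X.h i p → Lev X.h j p → i = j := by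
    intro i j p hi hj
    rcases lt_trichotomy i j with h1 | h1 | h1
    · exact absurd hi.1 (hj.2 i h1)
    · exact h1
    · exact absurd hj.1 (hi.2 j h1)
  have hQ : ∀ i, ∀ p ∈ R.filter (Lev X.h i), eval p (X.h i) = 0 ∧ eval p (v i) = 0 := by
    intro i p hp
    rw [Finset.mem_filter] at hp
    obtain ⟨j, hj, hj2⟩ := hR p hp.1
    obtain rfl := huniq hp.2 hj
    exact ⟨hj.1, hv3 i p hj2⟩
  choose B L fB fL T h1 h2 h3 h4 h5 h6 h7 h8 using fun i =>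
    hres (X.h i) (v i) (R.filter (Lev X.h i)) (X.irr i).ne_zero (hv1 i) (hQ i)
  obtain ⟨Δ, hΔ⟩ : ∃ Δ : ℕ, Δ = ∑ i, (X.h i).totalDegree := ⟨_, rfl⟩
  obtain ⟨E, hE⟩ : ∃ E : Fin X.q → ℕ, E = fun i => ∑ j, (X.f' i j).totalDegree := ⟨_, rfl⟩
  have hδΔ : ∀ i, (X.h i).totalDegree ≤ Δ := by
    intro i
    rw [hΔ]
    exact Finset.single_le_sum (f := fun i => (X.h i).totalDegree) (fun _ _ => Nat.zero_le _) (Finset.mem_univ i)
  have hvE : ∀ i, (v i).totalDegree ≤ (X.h i).totalDegree + E i := by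
    intro i
    rw [hE]
    exact hv2 i
  have hpr : ∀ i, (∏ l ∈ Finset.univ.filter (· < i), X.h l).totalDegree ≤ Δ := by
    intro i
    refine (totalDegree_finsetProd _ _).trans ?_
    rw [hΔ]
    exact Finset.sum_le_sum_of_subset (Finset.filter_subset _ _)
  obtain ⟨TT, hTT⟩ : ∃ TT : Tab (Σ i, B i) (Σ i, L i), TT =
      { β := fun c => ⟨c.1, (T c.1).β c.2⟩
        h := fun b => (T b.1).h b.2
        κ := fun b => (T b.1).κ b.2
        G := fun b => (T b.1).G b.2 * ∏ l ∈ Finset.univ.filter (· < b.1), X.h l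
        g := fun c => (T c.1).g c.2
        l := fun c => (T c.1).l c.2
        r := fun c => (T c.1).r c.2 } := ⟨_, rfl⟩
  have hReg : ∀ (i : Fin X.q) (c : L i) (p : Fin 4 → ℝ), p ∈ TT.Reg ⟨i, c⟩ ↔
      p ∈ (T i).Reg c ∧ ∀ l < i, eval p (X.h l) ≠ 0 := by
    intro i c p
    have e1 : p ∈ TT.Reg ⟨i, c⟩ ↔ (eval p ((T i).h ((T i).β c)) = 0 ∧ eval p ((T i).κ ((T i).β c)) = 0 ∧
        eval p ((T i).G ((T i).β c) * ∏ l ∈ Finset.univ.filter (· < i), X.h l) ≠ 0 ∧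
        eval p ((T i).g c) = 0 ∧ eval p ((T i).l c) = 0 ∧ eval p ((T i).r c) ≠ 0) := by
      rw [hTT]
      rfl
    have e2 : p ∈ (T i).Reg c ↔ (eval p ((T i).h ((T i).β c)) = 0 ∧ eval p ((T i).κ ((T i).β c)) = 0 ∧
        eval p ((T i).G ((T i).β c)) ≠ 0 ∧
        eval p ((T i).g c) = 0 ∧ eval p ((T i).l c) = 0 ∧ eval p ((T i).r c) ≠ 0) := Iff.rfl
    have e3 : eval p ((T i).G ((T i).β c) * ∏ l ∈ Finset.univ.filter (· < i), X.h l) ≠ 0 ↔
        eval p ((T i).G ((T i).β c)) ≠ 0 ∧ ∀ l < i, eval p (X.h l) ≠ 0 := by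
      rw [map_mul, map_prod, mul_ne_zero_iff, Finset.prod_ne_zero_iff]
      simp only [Finset.mem_filter, Finset.mem_univ, true_and]
    rw [e1, e2, e3]
    tauto
  let _ := fB
  let _ := fL
  have hΔt : (Δ : ℝ) ≤ A * t := by
    rw [hΔ]
    exact X.degh
  have hΔ0 : (0 : ℝ) ≤ (Δ : ℝ) := Nat.cast_nonneg _
  have harcs : TT.arcs ≤ (10 * A1 ^ 2 + 8 * A1) * (Δ * Δ + ∑ i, (X.h i).totalDegree * E i) := by
    have e1 : TT.arcs ≤ ∑ i, (10 * A1 ^ 2 + 8 * A1) * ((X.h i).totalDegree * (Δ + E i)) := by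
      rw [hTT]
      unfold Tab.arcs
      rw [Fintype.sum_sigma, Fintype.sum_sigma, ← Finset.sum_add_distrib]
      refine Finset.sum_le_sum fun i _ => ?_
      exact FT_arcs (T i).β (fun b => ((T i).h b).totalDegree) (fun b => ((T i).κ b).totalDegree)
        (fun b => ((T i).G b * ∏ l ∈ Finset.univ.filter (· < i), X.h l).totalDegree)
        (fun c => ((T i).g c).totalDegree) (fun c => ((T i).l c).totalDegree)
        (fun c => ((T i).r c).totalDegree) (FT_pos (X.irr i)) (hδΔ i) (hvE i) (fun b => (h1 i b).2) (h5 i)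
        (fun b => ⟨(h6 i b).1, (totalDegree_mul _ _).trans (Nat.add_le_add (h6 i b).2 (hpr i))⟩) (h8 i)
    refine e1.trans_eq ?_
    rw [← Finset.mul_sum]
    simp only [mul_add]
    rw [Finset.sum_add_distrib, ← Finset.sum_mul, ← hΔ]
    ring
  have hcost : TT.cost ≤ (16 * A1 * (7 * A1 + 2) ^ 2) * (Δ * Δ ^ 3 + ∑ i, (X.h i).totalDegree * E i ^ 3) := by
    have e1 : TT.cost ≤ ∑ i, (16 * A1 * (7 * A1 + 2) ^ 2) * ((X.h i).totalDegree * (Δ ^ 3 + E i ^ 3)) := by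
      rw [hTT]
      unfold Tab.cost
      rw [Fintype.sum_sigma]
      refine Finset.sum_le_sum fun i _ => ?_
      exact FT_cost (T i).β (fun b => ((T i).h b).totalDegree)
        (fun b => ((T i).G b * ∏ l ∈ Finset.univ.filter (· < i), X.h l).totalDegree)
        (fun c => ((T i).g c).totalDegree) (fun c => ((T i).l c).totalDegree)
        (fun c => ((T i).r c).totalDegree) (FT_pos (X.irr i)) (hδΔ i) (hvE i) (fun b => (h1 i b).2) (h5 i)
        (fun b => (totalDegree_mul _ _).trans (Nat.add_le_add (h6 i b).2 (hpr i)))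
        (fun c => ⟨(h7 i c).1, (h7 i c).2.2⟩) (h8 i)
    refine e1.trans_eq ?_
    rw [← Finset.mul_sum]
    simp only [mul_add]
    rw [Finset.sum_add_distrib, ← Finset.sum_mul, ← hΔ]
    ring
  refine ⟨Σ i, B i, Σ i, L i, inferInstance, inferInstance, TT, ?_, ?_, ?_, ?_, ?_⟩
  · rintro ⟨i, b⟩
    rw [hTT]
    exact (h1 i b).1
  · rintro ⟨i, c⟩ ⟨i', c'⟩ hne
    rw [Set.disjoint_left]
    intro p hp hp'
    rw [hReg] at hp hp'
    rcases lt_trichotomy i i' with h | h | h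
    · exact hp'.2 i h (h3 i c p hp.1)
    · subst h
      have hcc : c ≠ c' := fun hcc => hne (by rw [hcc])
      exact Set.disjoint_left.1 (h2 i c c' hcc) hp.1 hp'.1
    · exact hp.2 i' h (h3 i' c' p hp'.1)
  · intro p hp
    obtain ⟨i, hi, -⟩ := hR p hp
    obtain ⟨c, hc1, hc2⟩ := h4 i p (Finset.mem_filter.2 ⟨hp, hi⟩)
    refine ⟨⟨i, c⟩, (hReg i c p).2 ⟨hc1, hi.2⟩, ?_⟩
    rw [hTT]
    exact hc2
  · have e1 : (TT.arcs : ℝ) ≤ ((10 * A1 ^ 2 + 8 * A1 : ℕ) : ℝ) *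
        (Δ * Δ + ((∑ i, (X.h i).totalDegree * E i : ℕ) : ℝ)) := by exact_mod_cast harcs
    have e2 : ((∑ i, (X.h i).totalDegree * E i : ℕ) : ℝ) ≤ A * t ^ 2 := by
      rw [hE]
      exact X.deg1
    have e3 : (Δ : ℝ) * Δ ≤ A ^ 2 * t ^ 2 := by
      calc (Δ : ℝ) * Δ ≤ (A * t) * (A * t) := mul_le_mul hΔt hΔt hΔ0 (by positivity)
        _ = _ := by ring
    calc (TT.arcs : ℝ) ≤ ((10 * A1 ^ 2 + 8 * A1 : ℕ) : ℝ) * (A ^ 2 * t ^ 2 + A * t ^ 2) :=
          e1.trans (mul_le_mul_of_nonneg_left (add_le_add e3 e2) (Nat.cast_nonneg _))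
      _ ≤ ((10 * A1 ^ 2 + 8 * A1 : ℕ) : ℝ) * (A ^ 2 * t ^ 2 + A * t ^ 2) +
          (16 * A1 * (7 * A1 + 2) ^ 2) * (A ^ 4 + A) * t ^ 2 := le_add_of_nonneg_right (by positivity)
      _ = _ := by push_cast; ring
  · have e1 : (TT.cost : ℝ) ≤ ((16 * A1 * (7 * A1 + 2) ^ 2 : ℕ) : ℝ) *
        (Δ * Δ ^ 3 + ((∑ i, (X.h i).totalDegree * E i ^ 3 : ℕ) : ℝ)) := by exact_mod_cast hcost
    have e2 : ((∑ i, (X.h i).totalDegree * E i ^ 3 : ℕ) : ℝ) ≤ A * t ^ 4 := by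
      rw [hE]
      exact X.deg3
    have e3 : (Δ : ℝ) * Δ ^ 3 ≤ A ^ 4 * t ^ 4 := by
      calc (Δ : ℝ) * Δ ^ 3 ≤ (A * t) * (A * t) ^ 3 :=
            mul_le_mul hΔt (pow_le_pow_left₀ hΔ0 hΔt 3) (by positivity) (by positivity)
        _ = _ := by ring
    calc (TT.cost : ℝ) ≤ ((16 * A1 * (7 * A1 + 2) ^ 2 : ℕ) : ℝ) * (A ^ 4 * t ^ 4 + A * t ^ 4) :=
          e1.trans (mul_le_mul_of_nonneg_left (add_le_add e3 e2) (Nat.cast_nonneg _))
      _ ≤ ((16 * A1 * (7 * A1 + 2) ^ 2 : ℕ) : ℝ) * (A ^ 4 * t ^ 4 + A * t ^ 4) +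
          (10 * A1 ^ 2 + 8 * A1) * (A ^ 2 + A) * t ^ 4 := le_add_of_nonneg_right (by positivity)
      _ = _ := by push_cast; ring

end D4Q
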