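import Mathlib
import Pool.Agent.D4Q.Frame_P
import Pool.Agent.D4Q.Frame_T
import Pool.Agent.D4Q.Frame_N
import Pool.Agent.D4Q.Frame_C0
import Pool.Agent.D4Q.Frame_C1
import Pool.Agent.D4Q.Frame_C2

/-!
# D4Q-Frame: the framework theorem

`frame`: for the data `Fr` there is an assignment `p ↦ h p` of polynomials such that all but
`A (m^{k/(2k-1)} n^{(2k-2)/(2k-1)} + m + n)` designated incidences `d = (p, i)` satisfy `Left`: `h p` vanishes at `p` with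
nonzero gradient and vanishes identically on `ψ i` near `s d`.

PAPER PROOF. `m = |P|`, `n = |I|`, `M0 = m^{k/(2k-1)} n^{(2k-2)/(2k-1)}`.
RANGES. Pairs: `∑_p r_p (r_p - 1) ≤ K n^2` (`Fr.cross`), so `|D| ≤ m + K n^2`; this is enough if `n^2 ≤ A m`. KST:
`|D| ≤ A (m n^{1-1/k} + n)`... in the form: if `m^k ≤ A n` then `|D| ≤ A n` (`kstc` with one cell: `|D| ≤ A (n + n^{1-1/k} m)`).
Otherwise put `D0 = (m^k / n)^{1/(2(2k-1))} ≥ 1` (real), so `M0 = n D0^2`; with `m ≤ c n^2`, `D0^4 ≤ m` and `D0^2 ≤ n / 8`; also we may assume `D0 ^ 2 ≥ 2`.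
(KST in cells, `kstc`): labels `χ` of the points, `V = ∑_i #{labels of the designated points of i}`,
`Λ ≥ ∑_cells |cell|^k`: `|D| ≤ A (V + V^{1-1/k} Λ^{1/k})`. With `V ≤ A n D0^2`, `Λ ≤ A m^k D0^{-4(k-1)}` this is
`≤ A n D0^2`.
LEVEL 0. `pt0` with `N = ⌈D0^4⌉` gives `f = ∏ f_j`, `deg f ≤ A D0`. Points with `f p ≠ 0`: label = signs.
For a surface `i` different labels of points `s d` mean different components of `{t ∈ S i | (f ∘ ψ i) t ≠ 0}`: `gcSurf`: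
at most `A D0^2` labels. `kstc`.
LEVEL 1. Points with `f p = 0`. Let `h_1, ..., h_q` be the nonassociated irreducible factors of `f`, `δ_i = deg h_i`,
`∑ δ_i ≤ A D0`, `P_i` = points with `h_i p = 0`, `h_l p ≠ 0` for `l < i`, `m_i = |P_i|`, `N_i = ⌈D0^4 m_i / m⌉`. `ptH` for `h_i`, `P_i`,
`N_i`: `f^{(i)}`, degree `E_i` with `E_i^4 ≤ A N_i` or `δ_i E_i^3 ≤ A N_i`, so
`δ_i E_i ≤ A (δ_i N_i^{1/4} + δ_i^{2/3} N_i^{1/3})`, `δ_i E_i^3 ≤ A (δ_i N_i^{3/4} + N_i)`, and with `N_i ≤ D0^4 + 1`,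
`∑ N_i ≤ D0^4 + q ≤ A D0^4`, Hölder: (S1) `∑ δ_i E_i ≤ A D0^2`, (S2) `∑ δ_i E_i^3 ≤ A D0^4`.
`∑_i ∑_cells |cell|^k ≤ A ∑ m_i (m_i/N_i + 1)^{k-1} ≤ A m (m / D0^4)^{k-1}` (`D0^4 ≤ m`).
Points `p ∈ P_i` with `f^{(i)} p ≠ 0`, `∇h_i p ≠ 0`: put `h p = h_i`. Their incidences `d` which are not `Left` have
`h_i ∘ ψ` not identically zero near `s d`. `pp` for `q = h_i ∘ ψ_j` (surface `j`): at most `A δ_i^2` of them have `x ∈ X0`; for the others the
pair (`i`, signs of `f^{(i)}`) determines.. different labels mean different components of `Crv e S 1 u (f^{(i)} ∘ ψ_j)`: at most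
`A δ_i (δ_i + E_i)` labels (`gcCurve`). Sum over `i`: `≤ A D0^2` (all `δ_i ≤ A D0`, `δ_i + 1 ≤ 2 δ_i`). `kstc` with the label (`i`, signs).
LEVEL 2. The remaining points of `P_i`: `R_i`, zeros of `v_i = f^{(i)} ∂_a h_i`, where `∂_a h_i ≠ 0`; `h_i` does not divide `v_i`; `deg v_i ≤ E_i + δ_i`.
`resolve (h_i, v_i, R_i)`: table `T_i`. Combine them (sum types over `i`), multiplying `G b` of `T_i` by `h_1 ... h_{i-1}`: regions
pairwise disjoint. `T.arcs ≤ A ∑_i δ_i (δ_i + E_i + D0) ≤ A D0^2`,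
`T.cost ≤ A ∑ δ_i (δ_i + E_i)(δ_i + E_i + D0)^2 ≤ A ∑ δ_i (E_i + D0)^3 ≤ A D0^4`.
`wthm` for the points `⋃ R_i` with `N = ⌊D0^2⌋`: `2 ≤ N ≤ n/4`: all
terms are `≤ A n D0^2` (`m (n / D0^2)^{1-1/k} = n D0^2`). For `p ∈ R_i` put `h p = h (β c)` for the class `c` of `p`; its gradient at `p` is nonzero (independence).
-/

namespace D4Q

open MvPolynomial

private theorem lev_unique {q : ℕ} {h : Fin q → MvPolynomial (Fin 4) ℝ} {i j : Fin q} {p : Fin 4 → ℝ}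
    (hi : Lev h i p) (hj : Lev h j p) : i = j := by
  rcases lt_trichotomy i j with h1 | h1 | h1
  · exact absurd hi.1 (hj.2 i h1)
  · exact h1
  · exact absurd hj.1 (hi.2 j h1)

private theorem lev_exists {q : ℕ} {h : Fin q → MvPolynomial (Fin 4) ℝ} {p : Fin 4 → ℝ}
    (hz : ∃ i, eval p (h i) = 0) : ∃ i, Lev h i p := by
  classical
  obtain ⟨i, hi⟩ := hz
  obtain ⟨j, hj1, hj2⟩ := WellFounded.has_min (wellFounded_lt (α := Fin q)) {i | eval p (h i) = 0} ⟨i, hi⟩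
  exact ⟨j, hj1, fun l hl h0 => hj2 l h0 hl⟩

open scoped Classical in
theorem frame (c k K : ℕ) (hk : 2 ≤ k) : ∃ A : ℝ, 0 < A ∧ ∀ (I : Type) [Fintype I] [DecidableEq I]
    (e : I → Fin c → MvPolynomial (Fin c ⊕ Fin 2) ℝ) (S : I → Set (Fin c ⊕ Fin 2 → ℝ))
    (ψ : I → Fin 4 → MvPolynomial (Fin c ⊕ Fin 2) ℝ) (P : Finset (Fin 4 → ℝ))
    (D : Finset ((Fin 4 → ℝ) × I)) (s : (Fin 4 → ℝ) × I → (Fin c ⊕ Fin 2 → ℝ)),
    Fr c k K e S ψ P D s → ∃ h : (Fin 4 → ℝ) → MvPolynomial (Fin 4) ℝ,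
    ((D.filter fun d => ¬ Left S ψ s h d).card : ℝ) ≤
      A * ((P.card : ℝ) ^ ((k : ℝ) / (2 * k - 1)) *
        (Fintype.card I : ℝ) ^ ((2 * k - 2 : ℝ) / (2 * k - 1)) + P.card + Fintype.card I) := by
  obtain ⟨A0, hPD⟩ := exists_PD k hk
  obtain ⟨A1, hT⟩ := fr_table k A0
  obtain ⟨B0, hB0, h0⟩ := fr_count0 c k K A0 hk
  obtain ⟨B1, hB1, h1⟩ := fr_count1 c k K A0 hk
  obtain ⟨B2, hB2, h2⟩ := fr_count2 c k K A1 hk
  obtain ⟨B3, hB3, h3⟩ := fr_kst c k K hk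
  refine ⟨B0 + B1 + B2 + B3 + (1 + 64 * K), by positivity, ?_⟩
  intro I _ _ e S ψ P D s hF
  have hmn : (0 : ℝ) ≤ (P.card : ℝ) ^ ((k : ℝ) / (2 * k - 1)) *
      (Fintype.card I : ℝ) ^ ((2 * k - 2 : ℝ) / (2 * k - 1)) := by positivity
  have hsub : ∀ h : (Fin 4 → ℝ) → MvPolynomial (Fin 4) ℝ,
      ((D.filter fun d => ¬ Left S ψ s h d).card : ℝ) ≤ D.card := fun h => by
    exact_mod_cast Finset.card_filter_le _ _
  have hm0 : (0 : ℝ) ≤ P.card := Nat.cast_nonneg _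
  have hn0 : (0 : ℝ) ≤ Fintype.card I := Nat.cast_nonneg _
  have hK0 : (0 : ℝ) ≤ K := Nat.cast_nonneg _
  by_cases hr1 : Fintype.card I ^ 2 < 64 * P.card
  · refine ⟨fun _ => 0, (hsub _).trans ?_⟩
    have e1 : D.card ≤ P.card + K * Fintype.card I ^ 2 := fr_pairs hF
    have e2 : (D.card : ℝ) ≤ P.card + K * (Fintype.card I : ℝ) ^ 2 := by exact_mod_cast e1
    have e3 : ((Fintype.card I : ℝ)) ^ 2 ≤ 64 * P.card := by exact_mod_cast hr1.le
    have e4 : (D.card : ℝ) ≤ (1 + 64 * K) * P.card := by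
      have := mul_le_mul_of_nonneg_left e3 hK0
      linarith
    refine e4.trans (mul_le_mul (by linarith) (by linarith) hm0 (by positivity))
  by_cases hr2 : P.card ^ k ≤ 2 ^ (2 * k - 1) * Fintype.card I
  · refine ⟨fun _ => 0, (hsub _).trans ?_⟩
    refine (h3 I e S ψ P D s hF hr2).trans (mul_le_mul (by nlinarith) (by linarith) hn0 (by positivity))
  push Not at hr1 hr2
  have hm : 0 < P.card := by
    rcases Nat.eq_zero_or_pos P.card with h | h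
    · rw [h, zero_pow (by omega)] at hr2
      omega
    · exact h
  have hn : 0 < Fintype.card I := by
    rcases Nat.eq_zero_or_pos (Fintype.card I) with h | h
    · rw [h] at hr1
      omega
    · exact h
  obtain ⟨t, ht1, ht2, ht3, ht4, ht5, ht6, ht7⟩ := fr_num k hk P.card (Fintype.card I) hm hn hr1 hr2.le
  obtain ⟨X⟩ := hPD P t ht1 ht3
  obtain ⟨R, hR⟩ : ∃ R : Finset (Fin 4 → ℝ), R = P.filter fun p => ∃ i, Lev X.h i p ∧
    ((∃ j, eval p (X.f' i j) = 0) ∨ HDI.grad p (X.h i) = 0) := ⟨_, rfl⟩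
  obtain ⟨B, L, _, _, T, hT1, hT2, hT3, hT4, hT5⟩ := hT P t ht1 X R (fun p hp => by
    rw [hR] at hp
    exact (Finset.mem_filter.1 hp).2)
  have hRP : R ⊆ P := by
    rw [hR]
    exact Finset.filter_subset _ _
  -- the assignment
  have hex : ∀ p, ∃ g : MvPolynomial (Fin 4) ℝ,
      (∀ i, Lev X.h i p → (∀ j, eval p (X.f' i j) ≠ 0) → HDI.grad p (X.h i) ≠ 0 → g = X.h i) ∧
      (∀ i, Lev X.h i p → ((∃ j, eval p (X.f' i j) = 0) ∨ HDI.grad p (X.h i) = 0) →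
        ∀ c, p ∈ T.Reg c → g = T.h (T.β c)) := by
    intro p
    by_cases c1 : ∃ i, Lev X.h i p ∧ (∀ j, eval p (X.f' i j) ≠ 0) ∧ HDI.grad p (X.h i) ≠ 0
    · obtain ⟨i, hi, hi1, hi2⟩ := c1
      refine ⟨X.h i, fun i' hi' _ _ => by rw [lev_unique hi' hi], fun i' hi' h' => ?_⟩
      rw [lev_unique hi' hi] at h'
      rcases h' with ⟨j, hj⟩ | h'
      · exact absurd hj (hi1 j)
      · exact absurd h' hi2
    · by_cases c2 : ∃ c, p ∈ T.Reg c
      · obtain ⟨c, hc⟩ := c2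
        refine ⟨T.h (T.β c), fun i hi h1 h2 => absurd ⟨i, hi, h1, h2⟩ c1, fun i _ _ c' hc' => ?_⟩
        by_cases hcc : c = c'
        · rw [hcc]
        · exact absurd hc' (Set.disjoint_left.1 (hT2 c c' hcc) hc)
      · exact ⟨0, fun i hi h1 h2 => absurd ⟨i, hi, h1, h2⟩ c1, fun i _ _ c hc => absurd ⟨c, hc⟩ c2⟩
  choose g hg1 hg2 using hex
  refine ⟨g, ?_⟩
  have hcov : (D.filter fun d => ¬ Left S ψ s g d) ⊆
      (D.filter fun d => ∀ j, eval d.1 (X.f j) ≠ 0) ∪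
      (D.filter fun d => ∃ a, Lev X.h a d.1 ∧ (∀ j, eval d.1 (X.f' a j) ≠ 0) ∧
        ¬ VanAt (S d.2) (ψ d.2) (X.h a) (s d)) ∪
      (D.filter fun d => d.1 ∈ R ∧ ∀ c, d.1 ∈ T.Reg c →
        ¬ VanAt (S d.2) (ψ d.2) (T.h (T.β c)) (s d)) := by
    intro d hd
    obtain ⟨hdD, hdL⟩ := Finset.mem_filter.1 hd
    obtain ⟨hp, hs, hev⟩ := hF.mem d hdD
    by_cases c0 : ∀ j, eval d.1 (X.f j) ≠ 0
    · exact Finset.mem_union_left _ (Finset.mem_union_left _ (Finset.mem_filter.2 ⟨hdD, c0⟩))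
    push Not at c0
    obtain ⟨i, hi⟩ := lev_exists (X.zero d.1 c0)
    by_cases c1 : (∀ j, eval d.1 (X.f' i j) ≠ 0) ∧ HDI.grad d.1 (X.h i) ≠ 0
    · refine Finset.mem_union_left _ (Finset.mem_union_right _ (Finset.mem_filter.2 ⟨hdD, i, hi, c1.1, ?_⟩))
      intro hv
      refine hdL ?_
      unfold Left
      rw [hg1 d.1 i hi c1.1 c1.2]
      exact ⟨hi.1, c1.2, hv⟩
    · have c2 : (∃ j, eval d.1 (X.f' i j) = 0) ∨ HDI.grad d.1 (X.h i) = 0 := by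
        by_contra h
        push Not at h
        exact c1 h
      have hdR : d.1 ∈ R := by
        rw [hR]
        exact Finset.mem_filter.2 ⟨hp, i, hi, c2⟩
      refine Finset.mem_union_right _ (Finset.mem_filter.2 ⟨hdD, hdR, ?_⟩)
      intro c hc hv
      refine hdL ?_
      unfold Left
      rw [hg2 d.1 i hi c2 c hc]
      obtain ⟨c', hc', hli⟩ := hT3 d.1 hdR
      have hcc : c' = c := by
        by_contra hcc
        exact Set.disjoint_left.1 (hT2 c' c hcc) hc' hc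
      rw [hcc] at hli
      exact ⟨hc.1, hli.ne_zero 0, hv⟩
  have hc1 := Finset.card_le_card hcov
  have hc2 := hc1.trans (Finset.card_union_le _ _)
  have hc3 := hc2.trans (Nat.add_le_add_right (Finset.card_union_le _ _) _)
  have hc4 : ((D.filter fun d => ¬ Left S ψ s g d).card : ℝ) ≤
      ((D.filter fun d => ∀ j, eval d.1 (X.f j) ≠ 0).card : ℝ) +
      ((D.filter fun d => ∃ a, Lev X.h a d.1 ∧ (∀ j, eval d.1 (X.f' a j) ≠ 0) ∧
        ¬ VanAt (S d.2) (ψ d.2) (X.h a) (s d)).card : ℝ) +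
      ((D.filter fun d => d.1 ∈ R ∧ ∀ c, d.1 ∈ T.Reg c →
        ¬ VanAt (S d.2) (ψ d.2) (T.h (T.β c)) (s d)).card : ℝ) := by exact_mod_cast hc3
  have k0 := h0 I e S ψ P D s hF t ht1 X ht6
  have k1 := h1 I e S ψ P D s hF t ht1 X ht6
  have k2 := h2 I e S ψ P D s hF t ht2 ht4 (by linarith) ht7 R hRP B L T hT1 hT2 hT3 hT4 hT5
  have k3 : ((D.filter fun d => ¬ Left S ψ s g d).card : ℝ) ≤
      (B0 + B1 + B2) * (Fintype.card I * t ^ 2) := by
    calc ((D.filter fun d => ¬ Left S ψ s g d).card : ℝ) ≤ _ := hc4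
      _ ≤ B0 * (Fintype.card I * t ^ 2) + B1 * (Fintype.card I * t ^ 2) + B2 * (Fintype.card I * t ^ 2) :=
        add_le_add (add_le_add k0 k1) k2
      _ = _ := by ring
  rw [ht5] at k3
  exact k3.trans (mul_le_mul (by nlinarith) (by linarith) hmn (by positivity))

end D4Q
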