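import Mathlib
import Pool.Agent.D4Q.JD

/-!
# D4Q-Jets: definitions

Words, pairs of surfaces, the combinations of derivatives and the charts used in the induction over jets.
-/

namespace D4Q

open MvPolynomial

/-- Words of length at most `j` in the letters `0`, `1`, and one of the two functions `z`, `w`. -/
def Wd (j : ℕ) : Type := {u : List (Fin 2) // u.length ≤ j} × Fin 2

instance (j : ℕ) : Finite {u : List (Fin 2) // u.length ≤ j} :=
  (List.finite_length_le (Fin 2) j).to_subtype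

instance (j : ℕ) : Finite (Wd j) :=
  inferInstanceAs (Finite ({u : List (Fin 2) // u.length ≤ j} × Fin 2))

noncomputable instance (j : ℕ) : Fintype (Wd j) := Fintype.ofFinite _

/-- The point of the étale surface over the point `p` of `ℝ ^ 4`. -/
noncomputable def sB (b1 b2 : MvPolynomial (Fin 4) ℝ) (p : Fin 4 → ℝ) : Fin 3 ⊕ Fin 2 → ℝ :=
  Sum.elim ![p 2, p 3, (eval p (jzw b1 b2))⁻¹] ![p 0, p 1]

/-- The combination of the derivatives along the words of length at most `j` with coefficients `a`. -/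
noncomputable def cmb (b1 b2 : MvPolynomial (Fin 4) ℝ) {j : ℕ} (a : Wd j → ℝ) :
    MvPolynomial (Fin 3 ⊕ Fin 2) ℝ :=
  ∑ w : Wd j, C (a w) * jt b1 b2 w.1.1 w.2

/-- The map to `ℝ ^ 4` with coordinates `x`, `y` and two combinations of derivatives. -/
noncomputable def chB (b1 b2 : MvPolynomial (Fin 4) ℝ) {j : ℕ} (cc : Fin 2 × Wd j → ℝ) :
    Fin 4 → MvPolynomial (Fin 3 ⊕ Fin 2) ℝ :=
  ![X (Sum.inr 0), X (Sum.inr 1), cmb b1 b2 fun w => cc (0, w), cmb b1 b2 fun w => cc (1, w)]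

/-- The variables of the first surface among those of the pair. -/
def pl : Fin 3 ⊕ Fin 2 → Fin (3 + 3) ⊕ Fin 2 := Sum.map (Fin.castAdd 3) id

/-- The variables of the second surface among those of the pair. -/
def pr : Fin 3 ⊕ Fin 2 → Fin (3 + 3) ⊕ Fin 2 := Sum.map (Fin.natAdd 3) id

/-- The equations of the pair. -/
noncomputable def pairE (e e' : Fin 3 → MvPolynomial (Fin 3 ⊕ Fin 2) ℝ) :
    Fin (3 + 3) → MvPolynomial (Fin (3 + 3) ⊕ Fin 2) ℝ :=
  Fin.append (fun a => rename pl (e a)) fun a => rename pr (e' a)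

/-- The point of the pair given by two points over the same point of the `(x, y)`-plane. -/
def pairP (t t' : Fin 3 ⊕ Fin 2 → ℝ) : Fin (3 + 3) ⊕ Fin 2 → ℝ :=
  Sum.elim (Fin.append (t ∘ Sum.inl) (t' ∘ Sum.inl)) (t ∘ Sum.inr)

/-- The difference of the derivatives. -/
noncomputable def dlt (b1 b2 b1' b2' : MvPolynomial (Fin 4) ℝ) {j : ℕ} (w : Wd j) :
    MvPolynomial (Fin (3 + 3) ⊕ Fin 2) ℝ :=
  rename pl (jt b1 b2 w.1.1 w.2) - rename pr (jt b1' b2' w.1.1 w.2)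

/-- The coefficients are good for the pair: the common values of the combinations at points with
different jets are nondegenerate (the conclusion of `sardE`). -/
def GoodP (b1 b2 b1' b2' : MvPolynomial (Fin 4) ℝ) {j : ℕ} (cc : Fin 2 × Wd j → ℝ) : Prop :=
  ∀ t : Fin (3 + 3) ⊕ Fin 2 → ℝ, (∀ a, eval t (pairE (eB b1 b2) (eB b1' b2') a) = 0) →
    eval t (HDI.mu (pairE (eB b1 b2) (eB b1' b2'))) ≠ 0 →
    (∃ w : Wd j, eval t (dlt b1 b2 b1' b2' w) ≠ 0) →
    (∀ a : Fin 2, ∑ w : Wd j, cc (a, w) * eval t (dlt b1 b2 b1' b2' w) = 0) →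
    (HDI.jac (Sum.elim (pairE (eB b1 b2) (eB b1' b2')) fun a : Fin 2 =>
      ∑ w : Wd j, C (cc (a, w)) * dlt b1 b2 b1' b2' w) t).det ≠ 0

open scoped Classical in
/-- The hypotheses of `jets`. -/
structure JH (k C : ℕ) {I : Type} [Fintype I] [DecidableEq I] (F : I → Set (Fin 4 → ℝ))
    (b1 b2 : I → MvPolynomial (Fin 4) ℝ) (P : Finset (Fin 4 → ℝ))
    (D : Finset ((Fin 4 → ℝ) × I)) : Prop where
  surf : ∀ i, (b1 i).totalDegree ≤ C ∧ (b2 i).totalDegree ≤ C ∧ IsClosed (F i) ∧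
      ∀ x ∈ F i, eval x (b1 i) = 0 ∧ eval x (b2 i) = 0 ∧ (eval x (jzw (b1 i) (b2 i)) ≠ 0 →
        ∃ U ∈ nhds x, ∀ y ∈ U, eval y (b1 i) = 0 → eval y (b2 i) = 0 → y ∈ F i)
  inter : ∀ i j, i ≠ j → (F i ∩ F j).encard ≤ C
  mem : ∀ d ∈ D, d.1 ∈ P ∧ d.1 ∈ F d.2 ∧ eval d.1 (jzw (b1 d.2) (b2 d.2)) ≠ 0
  xinj : Set.InjOn (fun p : Fin 4 → ℝ => p 0) (P : Set (Fin 4 → ℝ))
  kdof : ∀ Q : Finset (Fin 4 → ℝ), Q ⊆ P → Q.card = k →
      (Finset.univ.filter fun i => ∀ p ∈ Q, (p, i) ∈ D).card ≤ C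

/-- Level `j`: the jets of order `j` of all designated surfaces through a point agree. -/
def JLev {I : Type} (b1 b2 : I → MvPolynomial (Fin 4) ℝ) (j : ℕ)
    (D : Finset ((Fin 4 → ℝ) × I)) : Prop :=
  ∀ p i i', (p, i) ∈ D → (p, i') ∈ D → ∀ (u : List (Fin 2)) (q : Fin 2), u.length ≤ j →
    eval (sB (b1 i) (b2 i) p) (jt (b1 i) (b2 i) u q) =
      eval (sB (b1 i') (b2 i') p) (jt (b1 i') (b2 i') u q)

/-- The main term plus `m + n`. -/
noncomputable def Mt (k m n : ℕ) : ℝ :=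
  (m : ℝ) ^ ((k : ℝ) / (2 * k - 1)) * (n : ℝ) ^ ((2 * k - 2 : ℝ) / (2 * k - 1)) + m + n

end D4Q
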