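import Mathlib
import Pool.Agent.HDI.Base
import Pool.Agent.D4Q.Defs

/-!
# D4Q-SardE: parametric Sard theorem on étale surfaces

`sardE`: PROOF. Fix `w0 : W`. Near a point `t0` of `E = {e = 0, mu e ≠ 0}` the map
`t ↦ (e t, t ∘ inr)` is a local homeomorphism with differentiable inverse, so `E` is parametrized by the
`(x, y)`-plane, `t = σ x`. Consider the map `Θ` of `ℝ ^ (Fin 2 × W)` to itself which replaces the coordinates
`(j, w0)`, `j = 0, 1` (interpreted as the point `x` of the plane), by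
`- (∑ w ≠ w0, z (j, w) Δ_w (σ x)) / Δ_{w0} (σ x)`. If the two combinations with coefficients `cc` vanish at
`t = σ x` then `cc = Θ z` with `z = cc` except that `z (j, w0) = x j`; and if the Jacobian matrix at `t` is singular
then so is the derivative of `Θ` at `z`. By Sard's theorem in equal dimensions
(`MeasureTheory.addHaar_image_eq_zero_of_det_fderivWithin_eq_zero`) the bad coefficients form a null set.
Countable cover by such neighbourhoods.
-/

namespace D4Q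

open MvPolynomial

/-- the differential of a polynomial function -/
private noncomputable def sardG {ι : Type} [Fintype ι] (p : MvPolynomial ι ℝ) (x : ι → ℝ) :
    (ι → ℝ) →L[ℝ] ℝ :=
  ∑ i, eval x (pderiv i p) • (ContinuousLinearMap.proj i : (ι → ℝ) →L[ℝ] ℝ)

private theorem sardG_apply {ι : Type} [Fintype ι] (p : MvPolynomial ι ℝ) (x z : ι → ℝ) :
    sardG p x z = ∑ i, eval x (pderiv i p) * z i := by
  unfold sardG
  rw [_root_.sum_apply]
  rfl

private theorem has_sardG {ι : Type} [Fintype ι] (p : MvPolynomial ι ℝ) (x : ι → ℝ) :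
    HasStrictFDerivAt (fun y : ι → ℝ => eval y p) (sardG p x) x :=
  HDI.hasStrictFDerivAt_eval p x

/-- the map `t ↦ (e t, t ∘ inr)` -/
private noncomputable def sardPsi {c : ℕ} (e : Fin c → MvPolynomial (Fin c ⊕ Fin 2) ℝ)
    (t : Fin c ⊕ Fin 2 → ℝ) : Fin c ⊕ Fin 2 → ℝ :=
  fun i => Sum.elim (fun a => eval t (e a)) (fun j => t (Sum.inr j)) i

/-- its differential -/
private noncomputable def sardPsi' {c : ℕ} (e : Fin c → MvPolynomial (Fin c ⊕ Fin 2) ℝ)
    (t : Fin c ⊕ Fin 2 → ℝ) : (Fin c ⊕ Fin 2 → ℝ) →L[ℝ] (Fin c ⊕ Fin 2 → ℝ) :=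
  ContinuousLinearMap.pi fun i => Sum.elim (fun a => sardG (e a) t)
    (fun j => (ContinuousLinearMap.proj (Sum.inr j) : (Fin c ⊕ Fin 2 → ℝ) →L[ℝ] ℝ)) i

private theorem has_sardPsi {c : ℕ} (e : Fin c → MvPolynomial (Fin c ⊕ Fin 2) ℝ)
    (t : Fin c ⊕ Fin 2 → ℝ) : HasStrictFDerivAt (sardPsi e) (sardPsi' e t) t := by
  rw [hasStrictFDerivAt_pi']
  intro i
  cases i with
  | inl a => exact has_sardG (e a) t
  | inr j => exact hasStrictFDerivAt_apply (Sum.inr j) t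

private theorem sardPsi'_inj {c : ℕ} (e : Fin c → MvPolynomial (Fin c ⊕ Fin 2) ℝ)
    (t : Fin c ⊕ Fin 2 → ℝ) (ht : eval t (HDI.mu e) ≠ 0) (v : Fin c ⊕ Fin 2 → ℝ)
    (h1 : ∀ a, sardG (e a) t v = 0) (h2 : ∀ j, v (Sum.inr j) = 0) : v = 0 := by
  classical
  have hm : (Matrix.of fun a b : Fin c => eval t (pderiv (Sum.inl b) (e a))).det ≠ 0 := by
    have h3 : eval t (HDI.mu e) =
        (Matrix.of fun a b : Fin c => eval t (pderiv (Sum.inl b) (e a))).det := by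
      rw [HDI.mu, RingHom.map_det]
      rfl
    rwa [h3] at ht
  have h4 : (fun b : Fin c => v (Sum.inl b)) = 0 := by
    by_contra hne
    apply hm
    refine Matrix.exists_mulVec_eq_zero_iff.mp ⟨_, hne, ?_⟩
    funext a
    have h5 := h1 a
    rw [sardG_apply, Fintype.sum_sum_type] at h5
    simp only [h2, mul_zero, Finset.sum_const_zero, add_zero] at h5
    simpa [Matrix.mulVec, dotProduct] using h5
  funext i
  cases i with
  | inl b => exact congrFun h4 b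
  | inr j => exact h2 j

private theorem sard_local {c : ℕ} (e : Fin c → MvPolynomial (Fin c ⊕ Fin 2) ℝ) (W : Type)
    [Fintype W] (Δ : W → MvPolynomial (Fin c ⊕ Fin 2) ℝ) (w0 : W) (t0 : Fin c ⊕ Fin 2 → ℝ)
    (ht0 : eval t0 (HDI.mu e) ≠ 0) :
    ∃ U ∈ nhds t0, ∀ᵐ cc : Fin 2 × W → ℝ, ∀ t ∈ U, (∀ a, eval t (e a) = 0) →
      eval t (HDI.mu e) ≠ 0 → eval t (Δ w0) ≠ 0 →
      (∀ j : Fin 2, ∑ w, cc (j, w) * eval t (Δ w) = 0) →
      (HDI.jac (Sum.elim e fun j => ∑ w, C (cc (j, w)) * Δ w) t).det ≠ 0 := by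
  classical
  -- the local homeomorphism
  have hequiv : ∀ t, eval t (HDI.mu e) ≠ 0 →
      ∃ A : (Fin c ⊕ Fin 2 → ℝ) ≃L[ℝ] (Fin c ⊕ Fin 2 → ℝ),
        (A : (Fin c ⊕ Fin 2 → ℝ) →L[ℝ] (Fin c ⊕ Fin 2 → ℝ)) = sardPsi' e t := by
    intro t ht
    have hinj : Function.Injective (sardPsi' e t) := by
      rw [injective_iff_map_eq_zero]
      intro v hv
      refine sardPsi'_inj e t ht v (fun a => ?_) fun j => ?_
      · exact congrFun hv (Sum.inl a)
      · exact congrFun hv (Sum.inr j)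
    have hker : LinearMap.ker ((sardPsi' e t : (Fin c ⊕ Fin 2 → ℝ) →L[ℝ] (Fin c ⊕ Fin 2 → ℝ)) :
        (Fin c ⊕ Fin 2 → ℝ) →ₗ[ℝ] (Fin c ⊕ Fin 2 → ℝ)) = ⊥ := LinearMap.ker_eq_bot.mpr hinj
    refine ⟨(LinearEquiv.ofInjectiveEndo _ hinj).toContinuousLinearEquiv, ?_⟩
    ext v i
    rfl
  obtain ⟨A0, hA0⟩ := hequiv t0 ht0
  have hst0 : HasStrictFDerivAt (sardPsi e)
      (A0 : (Fin c ⊕ Fin 2 → ℝ) →L[ℝ] (Fin c ⊕ Fin 2 → ℝ)) t0 := by
    rw [hA0]
    exact has_sardPsi e t0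
  let Φ := hst0.toOpenPartialHomeomorph (sardPsi e)
  have hΦ : ∀ t, Φ t = sardPsi e t := fun t => rfl
  have hmem0 : t0 ∈ Φ.source := hst0.mem_toOpenPartialHomeomorph_source
  refine ⟨Φ.source, Φ.open_source.mem_nhds hmem0, ?_⟩
  -- the map `Θ`
  let P : (Fin 2 × W → ℝ) →L[ℝ] (Fin c ⊕ Fin 2 → ℝ) :=
    ContinuousLinearMap.pi fun i => Sum.elim (fun _ => (0 : (Fin 2 × W → ℝ) →L[ℝ] ℝ))
      (fun j => (ContinuousLinearMap.proj (j, w0) : (Fin 2 × W → ℝ) →L[ℝ] ℝ)) i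
  let σ : (Fin 2 × W → ℝ) → (Fin c ⊕ Fin 2 → ℝ) := fun z => Φ.symm (P z)
  let N : Fin 2 → (Fin 2 × W → ℝ) → ℝ :=
    fun j z => ∑ w ∈ Finset.univ.erase w0, z (j, w) * eval (σ z) (Δ w)
  let Θ : (Fin 2 × W → ℝ) → (Fin 2 × W → ℝ) := fun z i =>
    if i.2 = w0 then - (N i.1 z * (eval (σ z) (Δ w0))⁻¹) else z i
  let U : Set (Fin 2 × W → ℝ) := {z | P z ∈ Φ.target ∧ eval (σ z) (HDI.mu e) ≠ 0 ∧
    eval (σ z) (Δ w0) ≠ 0 ∧ (fderiv ℝ Θ z).det = 0}
  -- differentiability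
  have hσ : ∀ z, P z ∈ Φ.target → eval (σ z) (HDI.mu e) ≠ 0 →
      ∃ B : (Fin c ⊕ Fin 2 → ℝ) →L[ℝ] (Fin c ⊕ Fin 2 → ℝ),
        HasFDerivAt σ (B.comp P) z ∧ ∀ v, B (sardPsi' e (σ z) v) = v := by
    intro z hz hmu
    obtain ⟨A, hA⟩ := hequiv _ hmu
    have h1 : HasFDerivAt Φ.symm (A.symm : (Fin c ⊕ Fin 2 → ℝ) →L[ℝ] (Fin c ⊕ Fin 2 → ℝ))
        (P z) := by
      refine Φ.hasFDerivAt_symm hz ?_
      rw [hA]
      exact (has_sardPsi e _).hasFDerivAt
    refine ⟨_, h1.comp z P.hasFDerivAt, fun v => ?_⟩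
    rw [← hA]
    exact A.symm_apply_apply v
  have hD : ∀ z, P z ∈ Φ.target → eval (σ z) (HDI.mu e) ≠ 0 →
      DifferentiableAt ℝ σ z := by
    intro z hz hmu
    obtain ⟨B, hB, -⟩ := hσ z hz hmu
    exact hB.differentiableAt
  have hDw : ∀ (w : W) z, P z ∈ Φ.target → eval (σ z) (HDI.mu e) ≠ 0 →
      DifferentiableAt ℝ (fun z => eval (σ z) (Δ w)) z := by
    intro w z hz hmu
    exact ((has_sardG (Δ w) (σ z)).hasFDerivAt.comp z (hD z hz hmu).hasFDerivAt).differentiableAt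
  have hcoord : ∀ (i : Fin 2 × W) z, DifferentiableAt ℝ (fun z : Fin 2 × W → ℝ => z i) z :=
    fun i z => (hasFDerivAt_apply i z).differentiableAt
  have hN : ∀ j z, P z ∈ Φ.target → eval (σ z) (HDI.mu e) ≠ 0 → DifferentiableAt ℝ (N j) z := by
    intro j z hz hmu
    refine DifferentiableAt.fun_sum fun w _ => ?_
    exact (hcoord (j, w) z).mul (hDw w z hz hmu)
  have hΘ : ∀ z, P z ∈ Φ.target → eval (σ z) (HDI.mu e) ≠ 0 → eval (σ z) (Δ w0) ≠ 0 →
      DifferentiableAt ℝ Θ z := by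
    intro z hz hmu h0
    rw [differentiableAt_pi]
    intro i
    by_cases hi : i.2 = w0
    · have h1 : (fun z => Θ z i) = fun z => - (N i.1 z * (eval (σ z) (Δ w0))⁻¹) := by
        funext z
        exact if_pos hi
      rw [h1]
      exact ((hN i.1 z hz hmu).mul ((hDw w0 z hz hmu).inv h0)).neg
    · have h1 : (fun z => Θ z i) = fun z => z i := by
        funext z
        exact if_neg hi
      rw [h1]
      exact hcoord i z
  have h0 : MeasureTheory.volume (Θ '' U) = 0 := by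
    refine MeasureTheory.addHaar_image_eq_zero_of_det_fderivWithin_eq_zero _
      (f' := fun z => fderiv ℝ Θ z) ?_ ?_
    · intro z hz
      exact (hΘ z hz.1 hz.2.1 hz.2.2.1).hasFDerivAt.hasFDerivWithinAt
    · intro z hz
      exact hz.2.2.2
  rw [MeasureTheory.ae_iff]
  refine MeasureTheory.measure_mono_null ?_ h0
  intro cc hcc
  simp only [Set.mem_ofPred_eq, not_forall, not_not] at hcc
  obtain ⟨t, htU, hte, htmu, htw0, hcomb, hdet⟩ := hcc
  -- the point `z`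
  let z : Fin 2 × W → ℝ := fun i => if i.2 = w0 then t (Sum.inr i.1) else cc i
  have hPz : P z = sardPsi e t := by
    funext i
    cases i with
    | inl a =>
      show (0 : ℝ) = eval t (e a)
      rw [hte a]
    | inr j =>
      show (if w0 = w0 then t (Sum.inr j) else cc (j, w0)) = t (Sum.inr j)
      rw [if_pos rfl]
  have hσz : σ z = t := by
    show Φ.symm (P z) = t
    rw [hPz, ← hΦ]
    exact Φ.left_inv htU
  have hPzt : P z ∈ Φ.target := by
    rw [hPz, ← hΦ]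
    exact Φ.map_source htU
  have hmuz : eval (σ z) (HDI.mu e) ≠ 0 := by
    rw [hσz]
    exact htmu
  have hw0z : eval (σ z) (Δ w0) ≠ 0 := by
    rw [hσz]
    exact htw0
  have hNz : ∀ j, N j z = - (cc (j, w0) * eval t (Δ w0)) := by
    intro j
    have h1 := hcomb j
    rw [← Finset.add_sum_erase _ _ (Finset.mem_univ w0)] at h1
    have h2 : N j z = ∑ w ∈ Finset.univ.erase w0, cc (j, w) * eval t (Δ w) := by
      refine Finset.sum_congr rfl fun w hw => ?_
      rw [hσz]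
      have h3 : z (j, w) = cc (j, w) := if_neg (Finset.ne_of_mem_erase hw)
      rw [h3]
    rw [h2]
    linarith
  have hΘz : Θ z = cc := by
    funext i
    obtain ⟨j, w⟩ := i
    by_cases hi : w = w0
    · subst hi
      have h1 : Θ z (j, w) = - (N j z * (eval (σ z) (Δ w))⁻¹) := if_pos rfl
      rw [h1, hNz, hσz]
      field_simp
    · have h1 : Θ z (j, w) = z (j, w) := if_neg hi
      rw [h1]
      exact if_neg hi
  refine ⟨z, ⟨hPzt, hmuz, hw0z, ?_⟩, hΘz⟩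
  -- the derivative of `Θ` is singular
  obtain ⟨v, hv, hv0⟩ := Matrix.exists_mulVec_eq_zero_iff.mpr hdet
  have hva : ∀ a, sardG (e a) t v = 0 := by
    intro a
    have h1 := congrFun hv0 (Sum.inl a)
    rw [sardG_apply]
    simpa [HDI.jac, Matrix.mulVec, dotProduct] using h1
  have hvj : ∀ j : Fin 2, ∑ w, cc (j, w) * sardG (Δ w) t v = 0 := by
    intro j
    have h1 := congrFun hv0 (Sum.inr j)
    have h2 : ∑ w, cc (j, w) * sardG (Δ w) t v =
        ∑ i, eval t (pderiv i (∑ w, C (cc (j, w)) * Δ w)) * v i := by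
      simp only [sardG_apply, Finset.mul_sum, map_sum, pderiv_C_mul, map_mul, eval_C,
        Finset.sum_mul]
      rw [Finset.sum_comm]
      refine Finset.sum_congr rfl fun i _ => Finset.sum_congr rfl fun w _ => ?_
      ring
    rw [h2]
    simpa [HDI.jac, Matrix.mulVec, dotProduct] using h1
  let ζ : Fin 2 × W → ℝ := fun i => if i.2 = w0 then v (Sum.inr i.1) else 0
  have hPζ : P ζ = sardPsi' e t v := by
    funext i
    cases i with
    | inl a =>
      show (0 : ℝ) = sardG (e a) t v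
      rw [hva a]
    | inr j =>
      show (if w0 = w0 then v (Sum.inr j) else 0) = v (Sum.inr j)
      rw [if_pos rfl]
  have hζ : ζ ≠ 0 := by
    intro h
    apply hv
    refine sardPsi'_inj e t htmu v hva fun j => ?_
    have h1 := congrFun h (j, w0)
    have h2 : ζ (j, w0) = v (Sum.inr j) := if_pos rfl
    rw [← h2]
    exact h1
  obtain ⟨B, hB, hBv⟩ := hσ z hPzt hmuz
  have hBζ : (B.comp P) ζ = v := by
    show B (P ζ) = v
    rw [hPζ]
    have := hBv v
    rwa [hσz] at this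
  -- derivative of the values
  have hev : ∀ w, HasFDerivAt (fun z => eval (σ z) (Δ w))
      ((sardG (Δ w) (σ z)).comp (B.comp P)) z :=
    fun w => (has_sardG (Δ w) (σ z)).hasFDerivAt.comp z hB
  have hfd := (hΘ z hPzt hmuz hw0z).hasFDerivAt
  have hfdi : ∀ i, HasFDerivAt (fun z => Θ z i)
      ((ContinuousLinearMap.proj i : (Fin 2 × W → ℝ) →L[ℝ] ℝ).comp (fderiv ℝ Θ z)) z :=
    fun i => hasFDerivAt_pi'.mp hfd i
  have hker : fderiv ℝ Θ z ζ = 0 := by
    funext i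
    obtain ⟨j, w⟩ := i
    by_cases hi : w = w0
    · subst hi
      -- differentiate the identity `Θ (j, w0) * Δ_{w0} + N j = 0`
      have hid : (fun z => Θ z (j, w) * eval (σ z) (Δ w) + N j z) =ᶠ[nhds z] fun _ => 0 := by
        have hc : ContinuousAt (fun z => eval (σ z) (Δ w)) z := (hev w).continuousAt
        filter_upwards [hc.eventually_ne hw0z] with z' hz'
        have h1 : Θ z' (j, w) = - (N j z' * (eval (σ z') (Δ w))⁻¹) := if_pos rfl
        rw [h1]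
        field_simp
        ring
      have hNd : HasFDerivAt (N j) (∑ w' ∈ Finset.univ.erase w,
          (z (j, w') • (sardG (Δ w') (σ z)).comp (B.comp P) + eval (σ z) (Δ w') •
            (ContinuousLinearMap.proj (j, w') : (Fin 2 × W → ℝ) →L[ℝ] ℝ))) z := by
        refine HasFDerivAt.fun_sum fun w' _ => ?_
        exact (hasFDerivAt_apply (j, w') z).mul (hev w')
      have h2 := ((hfdi (j, w)).mul (hev w)).add hNd
      have h3 := h2.unique ((hasFDerivAt_const (0 : ℝ) z).congr_of_eventuallyEq hid)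
      have h4 := congrArg (fun L : (Fin 2 × W → ℝ) →L[ℝ] ℝ => L ζ) h3
      simp only [_root_.add_apply, _root_.smul_apply, smul_eq_mul,
        ContinuousLinearMap.comp_apply, ContinuousLinearMap.proj_apply,
        _root_.zero_apply, _root_.sum_apply] at h4
      have h5 : B (P ζ) = v := hBζ
      rw [h5, hσz, hΘz] at h4
      have h6 : ∑ w' ∈ Finset.univ.erase w, (z (j, w') * sardG (Δ w') t v +
          eval t (Δ w') * ζ (j, w')) =
          ∑ w' ∈ Finset.univ.erase w, cc (j, w') * sardG (Δ w') t v := by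
        refine Finset.sum_congr rfl fun w' hw' => ?_
        have h7 : z (j, w') = cc (j, w') := if_neg (Finset.ne_of_mem_erase hw')
        have h8 : ζ (j, w') = 0 := if_neg (Finset.ne_of_mem_erase hw')
        rw [h7, h8, mul_zero, add_zero]
      rw [h6] at h4
      have h9 := hvj j
      rw [← Finset.add_sum_erase _ _ (Finset.mem_univ w)] at h9
      have h10 : eval t (Δ w) * (fderiv ℝ Θ z) ζ (j, w) = 0 := by linarith
      exact (mul_eq_zero.mp h10).resolve_left htw0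
    · have h1 : HasFDerivAt (fun z => Θ z (j, w))
          (ContinuousLinearMap.proj (j, w) : (Fin 2 × W → ℝ) →L[ℝ] ℝ) z := by
        have h2 : (fun z => Θ z (j, w)) = fun z => z (j, w) := by
          funext z
          exact if_neg hi
        rw [h2]
        exact hasFDerivAt_apply (j, w) z
      have h3 := (hfdi (j, w)).unique h1
      have h4 := congrArg (fun L : (Fin 2 × W → ℝ) →L[ℝ] ℝ => L ζ) h3
      have h5 : (fderiv ℝ Θ z) ζ (j, w) = ζ (j, w) := h4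
      rw [h5]
      exact if_neg hi
  by_contra hne
  have hu : IsUnit ((fderiv ℝ Θ z : (Fin 2 × W → ℝ) →L[ℝ] (Fin 2 × W → ℝ)) :
      (Fin 2 × W → ℝ) →ₗ[ℝ] (Fin 2 × W → ℝ)) := by
    rw [LinearMap.isUnit_iff_isUnit_det]
    exact isUnit_iff_ne_zero.mpr hne
  have hinj := ((Module.End.isUnit_iff _).mp hu).1
  apply hζ
  apply hinj
  rw [map_zero]
  exact hker

/-- Parametric Sard theorem on étale surfaces. -/
theorem sardE {c : ℕ} (e : Fin c → MvPolynomial (Fin c ⊕ Fin 2) ℝ) (W : Type) [Fintype W]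
    (Δ : W → MvPolynomial (Fin c ⊕ Fin 2) ℝ) :
    ∀ᵐ cc : Fin 2 × W → ℝ, ∀ t : Fin c ⊕ Fin 2 → ℝ, (∀ a, eval t (e a) = 0) →
      eval t (HDI.mu e) ≠ 0 → (∃ w, eval t (Δ w) ≠ 0) →
      (∀ j : Fin 2, ∑ w, cc (j, w) * eval t (Δ w) = 0) →
      (HDI.jac (Sum.elim e fun j => ∑ w, C (cc (j, w)) * Δ w) t).det ≠ 0 := by
  classical
  have h1 : ∀ w0 : W, ∀ᵐ cc : Fin 2 × W → ℝ, ∀ t : Fin c ⊕ Fin 2 → ℝ,
      (∀ a, eval t (e a) = 0) → eval t (HDI.mu e) ≠ 0 → eval t (Δ w0) ≠ 0 →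
      (∀ j : Fin 2, ∑ w, cc (j, w) * eval t (Δ w) = 0) →
      (HDI.jac (Sum.elim e fun j => ∑ w, C (cc (j, w)) * Δ w) t).det ≠ 0 := by
    intro w0
    let s : Set (Fin c ⊕ Fin 2 → ℝ) := {t | eval t (HDI.mu e) ≠ 0}
    have h2 : ∀ t0 : Fin c ⊕ Fin 2 → ℝ, ∃ U : Set (Fin c ⊕ Fin 2 → ℝ), t0 ∈ s → U ∈ nhds t0 ∧
        ∀ᵐ cc : Fin 2 × W → ℝ, ∀ t ∈ U, (∀ a, eval t (e a) = 0) →
        eval t (HDI.mu e) ≠ 0 → eval t (Δ w0) ≠ 0 →
        (∀ j : Fin 2, ∑ w, cc (j, w) * eval t (Δ w) = 0) →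
        (HDI.jac (Sum.elim e fun j => ∑ w, C (cc (j, w)) * Δ w) t).det ≠ 0 := by
      intro t0
      by_cases ht0 : t0 ∈ s
      · obtain ⟨U, hU, hUa⟩ := sard_local e W Δ w0 t0 ht0
        exact ⟨U, fun _ => ⟨hU, hUa⟩⟩
      · exact ⟨Set.univ, fun h => absurd h ht0⟩
    choose U hU using h2
    obtain ⟨T, hTs, hTc, hTcov⟩ := TopologicalSpace.countable_cover_nhdsWithin
      (f := U) (s := s) fun t0 ht0 => mem_nhdsWithin_of_mem_nhds (hU t0 ht0).1
    have h3 : ∀ᵐ cc : Fin 2 × W → ℝ, ∀ t0 ∈ T, ∀ t ∈ U t0, (∀ a, eval t (e a) = 0) →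
        eval t (HDI.mu e) ≠ 0 → eval t (Δ w0) ≠ 0 →
        (∀ j : Fin 2, ∑ w, cc (j, w) * eval t (Δ w) = 0) →
        (HDI.jac (Sum.elim e fun j => ∑ w, C (cc (j, w)) * Δ w) t).det ≠ 0 := by
      rw [MeasureTheory.ae_ball_iff hTc]
      intro t0 ht0
      exact (hU t0 (hTs ht0)).2
    filter_upwards [h3] with cc hcc t hte htmu htw hcomb
    obtain ⟨t0, ht0, htU⟩ := Set.mem_iUnion₂.mp (hTcov htmu)
    exact hcc t0 ht0 t htU hte htmu htw hcomb
  have h2 : ∀ᵐ cc : Fin 2 × W → ℝ, ∀ w0 : W, ∀ t : Fin c ⊕ Fin 2 → ℝ,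
      (∀ a, eval t (e a) = 0) → eval t (HDI.mu e) ≠ 0 → eval t (Δ w0) ≠ 0 →
      (∀ j : Fin 2, ∑ w, cc (j, w) * eval t (Δ w) = 0) →
      (HDI.jac (Sum.elim e fun j => ∑ w, C (cc (j, w)) * Δ w) t).det ≠ 0 := by
    rw [MeasureTheory.ae_all_iff]
    exact h1
  filter_upwards [h2] with cc hcc t hte htmu htw hcomb
  obtain ⟨w0, hw0⟩ := htw
  exact hcc w0 t hte htmu hw0 hcomb

end D4Q
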