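import Mathlib
import Pool.Agent.D4Q.Jets_def
import Pool.Agent.D4Q.SardE

/-!
# D4Q-Jets_cc: choice of the coefficients

`choose_cc`: for each of the finitely many pairs `(i, i')` almost every `cc` is good (`sardE` with `c = 3 + 3`,
`Δ = dlt ..`), and for each nonzero `v` the set of `cc` with `∑ w, cc (0, w) * v w = 0` is the kernel of a nonzero linear functional, a
proper subspace, hence null.
-/

namespace D4Q

open MvPolynomial MeasureTheory

/-- the linear functional -/
private noncomputable def jetscc_l {j : ℕ} (v : Wd j → ℝ) : (Fin 2 × Wd j → ℝ) →ₗ[ℝ] ℝ where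
  toFun cc := ∑ w, cc (0, w) * v w
  map_add' a b := by
    rw [← Finset.sum_add_distrib]
    exact Finset.sum_congr rfl fun w _ => add_mul _ _ _
  map_smul' c a := by
    rw [RingHom.id_apply, smul_eq_mul, Finset.mul_sum]
    exact Finset.sum_congr rfl fun w _ => mul_assoc _ _ _

private theorem jetscc_ker {j : ℕ} {v : Wd j → ℝ} (hv : v ≠ 0) : LinearMap.ker (jetscc_l v) ≠ ⊤ := by
  classical
  intro h
  obtain ⟨w0, hw0⟩ := Function.ne_iff.1 hv
  have h1 : jetscc_l v (Pi.single (0, w0) 1) = 0 := by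
    have : Pi.single (0, w0) 1 ∈ LinearMap.ker (jetscc_l v) := by rw [h]; trivial
    exact this
  apply hw0
  have h2 : jetscc_l v (Pi.single (0, w0) 1) = v w0 := by
    show ∑ w, (Pi.single (0, w0) 1 : Fin 2 × Wd j → ℝ) (0, w) * v w = v w0
    rw [Finset.sum_eq_single w0]
    · rw [Pi.single_eq_same, one_mul]
    · intro w _ hw
      rw [Pi.single_eq_of_ne, zero_mul]
      intro he
      exact hw (congrArg Prod.snd he)
    · intro hw
      exact absurd (Finset.mem_univ _) hw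
  rw [← h2, h1]
  rfl

theorem choose_cc {I : Type} [Fintype I] (b1 b2 : I → MvPolynomial (Fin 4) ℝ) (j : ℕ)
    (V : Set (Wd j → ℝ)) (hV : V.Finite) : ∃ cc : Fin 2 × Wd j → ℝ,
      (∀ i i', GoodP (b1 i) (b2 i) (b1 i') (b2 i') cc) ∧
        ∀ v ∈ V, v ≠ 0 → ∑ w, cc (0, w) * v w ≠ 0 := by
  have h1 : ∀ᵐ cc : Fin 2 × Wd j → ℝ, ∀ i i', GoodP (b1 i) (b2 i) (b1 i') (b2 i') cc := by
    rw [ae_all_iff]
    intro i
    rw [ae_all_iff]
    intro i'
    exact sardE (pairE (eB (b1 i) (b2 i)) (eB (b1 i') (b2 i'))) (Wd j) (dlt (b1 i) (b2 i) (b1 i') (b2 i'))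
  have h2 : ∀ᵐ cc : Fin 2 × Wd j → ℝ, ∀ v ∈ V, v ≠ 0 → ∑ w, cc (0, w) * v w ≠ 0 := by
    rw [ae_ball_iff hV.countable]
    intro v _
    by_cases h0 : v = 0
    · exact Filter.Eventually.of_forall fun cc h => absurd h0 h
    · rw [ae_iff]
      refine measure_mono_null (fun cc hcc => ?_) (Measure.addHaar_submodule volume _ (jetscc_ker h0))
      rw [Set.mem_ofPred_eq] at hcc
      push Not at hcc
      exact hcc.2
  obtain ⟨cc, h⟩ := (h1.and h2).exists
  exact ⟨cc, h⟩

end D4Q
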