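import Mathlib
import Pool.Agent.D4Q.Jets_def

/-!
# D4Q-Jets: degrees of the derivatives
-/

namespace D4Q

open MvPolynomial

private theorem deg_mkD {σ : Type*} (g : σ → MvPolynomial σ ℝ) (K : ℕ)
    (hg : ∀ i, (g i).totalDegree ≤ K) (f : MvPolynomial σ ℝ) :
    (mkDerivation ℝ g f).totalDegree ≤ f.totalDegree + K := by
  conv_lhs => rw [f.as_sum, map_sum]
  refine totalDegree_finsetSum_le fun s hs => ?_
  rw [mkDerivation_monomial]
  refine (totalDegree_smul_le _ _).trans ?_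
  refine totalDegree_finsetSum_le fun i _ => ?_
  change (monomial (s - Finsupp.single i 1) ((s i : ℕ) : ℝ) * g i).totalDegree ≤ _
  refine (totalDegree_mul _ _).trans (Nat.add_le_add ?_ (hg i))
  refine (totalDegree_monomial_le _ _).trans ?_
  have h1 : (s - Finsupp.single i 1).degree ≤ s.degree := by
    refine Finsupp.degree_mono ?_
    exact tsub_le_self
  refine le_trans ?_ (le_totalDegree hs)
  exact h1

private theorem deg_pd {σ : Type*} (i : σ) (f : MvPolynomial σ ℝ) :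
    (pderiv i f).totalDegree ≤ f.totalDegree := by
  classical
  have h := deg_mkD (Pi.single i (1 : MvPolynomial σ ℝ)) 0 (fun k => by
    rcases eq_or_ne k i with h | h
    · rw [h, Pi.single_eq_same, totalDegree_one]
    · rw [Pi.single_eq_of_ne h, totalDegree_zero]) f
  exact h

private theorem deg_mul2 {σ : Type*} {a b : MvPolynomial σ ℝ} {m n : ℕ} (ha : a.totalDegree ≤ m)
    (hb : b.totalDegree ≤ n) : (a * b).totalDegree ≤ m + n :=
  (totalDegree_mul _ _).trans (Nat.add_le_add ha hb)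

private theorem deg_sub2 {σ : Type*} {a b : MvPolynomial σ ℝ} {m : ℕ} (ha : a.totalDegree ≤ m)
    (hb : b.totalDegree ≤ m) : (a - b).totalDegree ≤ m :=
  (totalDegree_sub _ _).trans (max_le ha hb)

private theorem deg_add2 {σ : Type*} {a b : MvPolynomial σ ℝ} {m : ℕ} (ha : a.totalDegree ≤ m)
    (hb : b.totalDegree ≤ m) : (a + b).totalDegree ≤ m :=
  (totalDegree_add _ _).trans (max_le ha hb)

private theorem deg_X1 {σ : Type*} (i : σ) : (X i : MvPolynomial σ ℝ).totalDegree ≤ 1 :=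
  (totalDegree_X i).le

private theorem deg_ren {σ τ : Type*} (f : σ → τ) {a : MvPolynomial σ ℝ} {m : ℕ}
    (ha : a.totalDegree ≤ m) : (rename f a).totalDegree ≤ m :=
  (totalDegree_rename_le _ _).trans ha

private theorem deg_val {C : ℕ} {b1 b2 : MvPolynomial (Fin 4) ℝ} (h1 : b1.totalDegree ≤ C)
    (h2 : b2.totalDegree ≤ C) (j : Fin 2) (i : Fin 3 ⊕ Fin 2) :
    ((Sum.elim (![dz b1 b2 j, dw b1 b2 j, dt b1 b2 j]) fun i => if i = j then 1 else 0 :
      Fin 3 ⊕ Fin 2 → MvPolynomial (Fin 3 ⊕ Fin 2) ℝ) i).totalDegree ≤ 4 * C + 3 := by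
  have p1 : ∀ a, (pderiv a b1).totalDegree ≤ C := fun a => (deg_pd a b1).trans h1
  have p2 : ∀ a, (pderiv a b2).totalDegree ≤ C := fun a => (deg_pd a b2).trans h2
  have hz : (dz b1 b2 j).totalDegree ≤ 1 + (C + C) :=
    deg_mul2 (deg_X1 _) (deg_ren _ (deg_sub2 (deg_mul2 (p1 _) (p2 _)) (deg_mul2 (p1 _) (p2 _))))
  have hw : (dw b1 b2 j).totalDegree ≤ 1 + (C + C) :=
    deg_mul2 (deg_X1 _) (deg_ren _ (deg_sub2 (deg_mul2 (p2 _) (p1 _)) (deg_mul2 (p2 _) (p1 _))))
  have hj : (jzw b1 b2).totalDegree ≤ C + C :=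
    deg_sub2 (deg_mul2 (p1 _) (p2 _)) (deg_mul2 (p1 _) (p2 _))
  have hjp : ∀ a, (rename sw (pderiv a (jzw b1 b2))).totalDegree ≤ C + C :=
    fun a => deg_ren _ ((deg_pd a _).trans hj)
  have hx : (- X (Sum.inl 2) ^ 2 : MvPolynomial (Fin 3 ⊕ Fin 2) ℝ).totalDegree ≤ 2 := by
    rw [totalDegree_neg, totalDegree_X_pow]
  have ht : (dt b1 b2 j).totalDegree ≤ 2 + ((C + C) + (1 + (C + C))) :=
    deg_mul2 hx (deg_add2 (deg_add2 ((hjp _).trans (by omega)) (deg_mul2 (hjp _) hz))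
      (deg_mul2 (hjp _) hw))
  rcases i with i | i
  · fin_cases i
    · exact hz.trans (by omega)
    · exact hw.trans (by omega)
    · exact ht.trans (by omega)
  · change (if i = j then (1 : MvPolynomial (Fin 3 ⊕ Fin 2) ℝ) else 0).totalDegree ≤ _
    split_ifs
    · rw [totalDegree_one]
      exact Nat.zero_le _
    · rw [totalDegree_zero]
      exact Nat.zero_le _

private theorem deg_wd {C : ℕ} {b1 b2 : MvPolynomial (Fin 4) ℝ} (h1 : b1.totalDegree ≤ C)
    (h2 : b2.totalDegree ≤ C) (F : MvPolynomial (Fin 3 ⊕ Fin 2) ℝ) (u : List (Fin 2)) :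
    (wd b1 b2 u F).totalDegree ≤ F.totalDegree + u.length * (4 * C + 3) := by
  induction u with
  | nil => exact Nat.le_add_right _ _
  | cons j u ih =>
      have h3 : (derB b1 b2 j (wd b1 b2 u F)).totalDegree ≤
          (wd b1 b2 u F).totalDegree + (4 * C + 3) :=
        deg_mkD _ _ (deg_val h1 h2 j) _
      change (derB b1 b2 j (wd b1 b2 u F)).totalDegree ≤ _
      rw [List.length_cons, Nat.succ_mul]
      omega

theorem jt_deg (C j : ℕ) : ∃ K : ℕ, ∀ b1 b2 : MvPolynomial (Fin 4) ℝ, b1.totalDegree ≤ C →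
    b2.totalDegree ≤ C → ∀ (u : List (Fin 2)) (q : Fin 2), u.length ≤ j →
      (jt b1 b2 u q).totalDegree ≤ K := by
  refine ⟨1 + j * (4 * C + 3), fun b1 b2 h1 h2 u q hu => ?_⟩
  refine (deg_wd h1 h2 _ u).trans ?_
  exact Nat.add_le_add (deg_X1 _) (Nat.mul_le_mul_right _ hu)

theorem cmb_deg {b1 b2 : MvPolynomial (Fin 4) ℝ} {j K : ℕ}
    (h : ∀ (u : List (Fin 2)) (q : Fin 2), u.length ≤ j → (jt b1 b2 u q).totalDegree ≤ K)
    (a : Wd j → ℝ) : (cmb b1 b2 a).totalDegree ≤ K := by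
  refine totalDegree_finsetSum_le fun w _ => ?_
  refine (totalDegree_mul _ _).trans ?_
  rw [totalDegree_C, Nat.zero_add]
  exact h _ _ w.1.2

theorem dlt_deg {b1 b2 b1' b2' : MvPolynomial (Fin 4) ℝ} {j K : ℕ}
    (h : ∀ (u : List (Fin 2)) (q : Fin 2), u.length ≤ j → (jt b1 b2 u q).totalDegree ≤ K)
    (h' : ∀ (u : List (Fin 2)) (q : Fin 2), u.length ≤ j → (jt b1' b2' u q).totalDegree ≤ K)
    (a : Wd j → ℝ) : (∑ w : Wd j, C (a w) * dlt b1 b2 b1' b2' w).totalDegree ≤ K := by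
  refine totalDegree_finsetSum_le fun w _ => ?_
  refine (totalDegree_mul _ _).trans ?_
  rw [totalDegree_C, Nat.zero_add]
  exact deg_sub2 (deg_ren _ (h _ _ w.1.2)) (deg_ren _ (h' _ _ w.1.2))

end D4Q
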