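import Mathlib
import Pool.Agent.D4Q.Jets_def

/-!
# D4Q-Jets_pair: pairs of surfaces, points over a point

`pairP_pl`, `pairP_pr`: cases on the variable (`Fin.append_left`, `Fin.append_right`).
`SB_inj`: the points agree in the coordinates `sw`, i.e. in all variables but `τ = inl 2`, and `τ * jzw = 1` (third equation)
determines `τ`. `sB_sw` by cases; `sB_mem`: the equations evaluate to `b1 p = 0`, `b2 p = 0`, `τ μ - 1 = 0` (`eval_rename`).
-/

namespace D4Q

open MvPolynomial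

theorem pairP_pl (t t' : Fin 3 ⊕ Fin 2 → ℝ) : pairP t t' ∘ pl = t := by
  funext v
  cases v with
  | inl a =>
    show Fin.append (t ∘ Sum.inl) (t' ∘ Sum.inl) (Fin.castAdd 3 a) = t (Sum.inl a)
    rw [Fin.append_left]
    rfl
  | inr j => rfl

theorem pairP_pr (t t' : Fin 3 ⊕ Fin 2 → ℝ) (h : t ∘ Sum.inr = t' ∘ Sum.inr) :
    pairP t t' ∘ pr = t' := by
  funext v
  cases v with
  | inl a =>
    show Fin.append (t ∘ Sum.inl) (t' ∘ Sum.inl) (Fin.natAdd 3 a) = t' (Sum.inl a)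
    rw [Fin.append_right]
    rfl
  | inr j => exact congrFun h j

theorem eval_dlt (b1 b2 b1' b2' : MvPolynomial (Fin 4) ℝ) {j : ℕ} (w : Wd j)
    (t t' : Fin 3 ⊕ Fin 2 → ℝ) (h : t ∘ Sum.inr = t' ∘ Sum.inr) :
    eval (pairP t t') (dlt b1 b2 b1' b2' w) =
      eval t (jt b1 b2 w.1.1 w.2) - eval t' (jt b1' b2' w.1.1 w.2) := by
  rw [dlt, map_sub, eval_rename, eval_rename, pairP_pl, pairP_pr t t' h]

theorem pairE_zero (e e' : Fin 3 → MvPolynomial (Fin 3 ⊕ Fin 2) ℝ)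
    (t t' : Fin 3 ⊕ Fin 2 → ℝ) (h : t ∘ Sum.inr = t' ∘ Sum.inr) (h1 : ∀ a, eval t (e a) = 0)
    (h2 : ∀ a, eval t' (e' a) = 0) : ∀ a, eval (pairP t t') (pairE e e' a) = 0 := by
  intro a
  refine Fin.addCases (fun i => ?_) (fun i => ?_) a
  · rw [pairE, Fin.append_left, eval_rename, pairP_pl]
    exact h1 i
  · rw [pairE, Fin.append_right, eval_rename, pairP_pr t t' h]
    exact h2 i

theorem SB_inj (b1 b2 : MvPolynomial (Fin 4) ℝ) {t t' : Fin 3 ⊕ Fin 2 → ℝ}
    (h : ∀ a, eval t (eB b1 b2 a) = 0) (h' : ∀ a, eval t' (eB b1 b2 a) = 0)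
    (hs : t ∘ sw = t' ∘ sw) : t = t' := by
  have h0 : t (Sum.inr 0) = t' (Sum.inr 0) := congrFun hs 0
  have h1 : t (Sum.inr 1) = t' (Sum.inr 1) := congrFun hs 1
  have h2 : t (Sum.inl 0) = t' (Sum.inl 0) := congrFun hs 2
  have h3 : t (Sum.inl 1) = t' (Sum.inl 1) := congrFun hs 3
  have e1 : t (Sum.inl 2) * eval (t ∘ sw) (jzw b1 b2) - 1 = 0 := by
    have := h 2
    simpa [eB, eval_rename] using this
  have e2 : t' (Sum.inl 2) * eval (t' ∘ sw) (jzw b1 b2) - 1 = 0 := by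
    have := h' 2
    simpa [eB, eval_rename] using this
  rw [← hs] at e2
  have h4 : t (Sum.inl 2) = t' (Sum.inl 2) := by
    have h5 : eval (t ∘ sw) (jzw b1 b2) ≠ 0 := by
      intro h6
      rw [h6] at e1
      norm_num at e1
    have h6 : (t (Sum.inl 2) - t' (Sum.inl 2)) * eval (t ∘ sw) (jzw b1 b2) = 0 := by
      linear_combination e1 - e2
    exact sub_eq_zero.mp ((mul_eq_zero.mp h6).resolve_right h5)
  funext v
  cases v with
  | inl a =>
    fin_cases a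
    · exact h2
    · exact h3
    · exact h4
  | inr j =>
    fin_cases j
    · exact h0
    · exact h1

theorem sB_sw (b1 b2 : MvPolynomial (Fin 4) ℝ) (p : Fin 4 → ℝ) : sB b1 b2 p ∘ sw = p := by
  funext i
  fin_cases i <;> rfl

theorem sB_mem (b1 b2 : MvPolynomial (Fin 4) ℝ) (F : Set (Fin 4 → ℝ)) (p : Fin 4 → ℝ)
    (hp : p ∈ F) (h1 : eval p b1 = 0) (h2 : eval p b2 = 0) (h3 : eval p (jzw b1 b2) ≠ 0) :
    sB b1 b2 p ∈ SB b1 b2 F := by
  refine ⟨?_, ?_⟩
  · rw [sB_sw]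
    exact hp
  · intro a
    fin_cases a
    · show eval (sB b1 b2 p) (rename sw b1) = 0
      rw [eval_rename, sB_sw]
      exact h1
    · show eval (sB b1 b2 p) (rename sw b2) = 0
      rw [eval_rename, sB_sw]
      exact h2
    · show eval (sB b1 b2 p) (X (Sum.inl 2) * rename sw (jzw b1 b2) - 1) = 0
      rw [map_sub, map_mul, eval_X, eval_rename, sB_sw, map_one]
      show (eval p (jzw b1 b2))⁻¹ * eval p (jzw b1 b2) - 1 = 0
      rw [inv_mul_cancel₀ h3, sub_self]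

theorem eval_cmb (b1 b2 : MvPolynomial (Fin 4) ℝ) {j : ℕ} (a : Wd j → ℝ)
    (t : Fin 3 ⊕ Fin 2 → ℝ) : eval t (cmb b1 b2 a) = ∑ w : Wd j, a w * eval t (jt b1 b2 w.1.1 w.2) := by
  rw [cmb, map_sum]
  refine Finset.sum_congr rfl fun w _ => ?_
  rw [map_mul, eval_C]

theorem ev_chB_eq {b1 b2 b1' b2' : MvPolynomial (Fin 4) ℝ} {j : ℕ} {cc : Fin 2 × Wd j → ℝ}
    {t t' : Fin 3 ⊕ Fin 2 → ℝ} : ev (chB b1 b2 cc) t = ev (chB b1' b2' cc) t' ↔
      t ∘ Sum.inr = t' ∘ Sum.inr ∧ ∀ a : Fin 2, ∑ w : Wd j, cc (a, w) *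
        (eval t (jt b1 b2 w.1.1 w.2) - eval t' (jt b1' b2' w.1.1 w.2)) = 0 := by
  have hs : ∀ a : Fin 2, ∑ w : Wd j, cc (a, w) *
        (eval t (jt b1 b2 w.1.1 w.2) - eval t' (jt b1' b2' w.1.1 w.2)) =
      eval t (cmb b1 b2 fun w => cc (a, w)) - eval t' (cmb b1' b2' fun w => cc (a, w)) := by
    intro a
    rw [eval_cmb, eval_cmb, ← Finset.sum_sub_distrib]
    exact Finset.sum_congr rfl fun w _ => by ring
  constructor
  · intro h
    have h0 : eval t (X (Sum.inr 0) : MvPolynomial (Fin 3 ⊕ Fin 2) ℝ) = eval t' (X (Sum.inr 0)) :=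
      congrFun h 0
    have h1 : eval t (X (Sum.inr 1) : MvPolynomial (Fin 3 ⊕ Fin 2) ℝ) = eval t' (X (Sum.inr 1)) :=
      congrFun h 1
    have h2 : eval t (cmb b1 b2 fun w => cc (0, w)) = eval t' (cmb b1' b2' fun w => cc (0, w)) :=
      congrFun h 2
    have h3 : eval t (cmb b1 b2 fun w => cc (1, w)) = eval t' (cmb b1' b2' fun w => cc (1, w)) :=
      congrFun h 3
    rw [eval_X, eval_X] at h0 h1
    refine ⟨?_, fun a => ?_⟩
    · funext i
      fin_cases i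
      · exact h0
      · exact h1
    · rw [hs]
      fin_cases a
      · exact sub_eq_zero.mpr h2
      · exact sub_eq_zero.mpr h3
  · rintro ⟨h1, h2⟩
    have h3 : ∀ a : Fin 2, eval t (cmb b1 b2 fun w => cc (a, w)) =
        eval t' (cmb b1' b2' fun w => cc (a, w)) := by
      intro a
      have h4 := h2 a
      rw [hs] at h4
      exact sub_eq_zero.mp h4
    funext i
    fin_cases i
    · show eval t (X (Sum.inr 0)) = eval t' (X (Sum.inr 0))
      rw [eval_X, eval_X]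
      exact congrFun h1 0
    · show eval t (X (Sum.inr 1)) = eval t' (X (Sum.inr 1))
      rw [eval_X, eval_X]
      exact congrFun h1 1
    · exact h3 0
    · exact h3 1

end D4Q
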