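import Mathlib
import Pool.Agent.D4Q.Jets_pair

/-!
# D4Q-Jets_mu: the minor of the pair

`mu_pair`: the matrix of `HDI.mu (pairE e e')` reindexed by
`finSumFinEquiv : Fin 3 ⊕ Fin 3 ≃ Fin (3 + 3)` is the block diagonal matrix of the renamed matrices of `mu e`, `mu e'`
(`pderiv` of a renamed polynomial: `MvPolynomial.pderiv_rename` (`pl`, `pr` are injective), and `pderiv v (rename ..) = 0` for a variable `v` not in the
range: `MvPolynomial.pderiv_eq_zero_of_notMem_vars` or similar); `Matrix.det_fromBlocks_zero₁₂`/`det_fromBlocks_zero₂₁`, `Matrix.det_submatrix_equiv_self`,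
`RingHom.map_det`; evaluate at `pairP t t'` (`pairP_pl`, `pairP_pr`, `eval_rename`).
-/

namespace D4Q

open MvPolynomial

private theorem Jets_mu_pl_inj : Function.Injective pl := by
  intro a b h
  cases a with
  | inl i =>
    cases b with
    | inl j => exact congrArg Sum.inl (Fin.castAdd_injective 3 3 (Sum.inl_injective h))
    | inr j => exact absurd h Sum.inl_ne_inr
  | inr i =>
    cases b with
    | inl j => exact absurd h Sum.inr_ne_inl
    | inr j => exact congrArg Sum.inr (Sum.inr_injective h)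

private theorem Jets_mu_pr_inj : Function.Injective pr := by
  intro a b h
  cases a with
  | inl i =>
    cases b with
    | inl j => exact congrArg Sum.inl (Fin.natAdd_injective 3 3 (Sum.inl_injective h))
    | inr j => exact absurd h Sum.inl_ne_inr
  | inr i =>
    cases b with
    | inl j => exact absurd h Sum.inr_ne_inl
    | inr j => exact congrArg Sum.inr (Sum.inr_injective h)

private theorem Jets_mu_out {ι κ : Type} [DecidableEq κ] (φ : ι → κ) (v : κ)
    (hv : v ∉ Set.range φ) (f : MvPolynomial ι ℝ) : pderiv v (rename φ f) = 0 := by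
  classical
  apply pderiv_eq_zero_of_notMem_vars
  intro h
  have h1 := vars_rename φ f h
  rw [Finset.mem_image] at h1
  obtain ⟨i, -, hi⟩ := h1
  exact hv ⟨i, hi⟩

theorem mu_pair (e e' : Fin 3 → MvPolynomial (Fin 3 ⊕ Fin 2) ℝ)
    (t t' : Fin 3 ⊕ Fin 2 → ℝ) (h : t ∘ Sum.inr = t' ∘ Sum.inr) :
    eval (pairP t t') (HDI.mu (pairE e e')) = eval t (HDI.mu e) * eval t' (HDI.mu e') := by
  classical
  have hdet : ∀ {n m : ℕ} (g : Fin n → MvPolynomial (Fin n ⊕ Fin m) ℝ)
      (s : Fin n ⊕ Fin m → ℝ), eval s (HDI.mu g) =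
      (Matrix.of fun a b : Fin n => eval s (pderiv (Sum.inl b) (g a))).det := by
    intro n m g s
    rw [HDI.mu, RingHom.map_det]
    rfl
  rw [hdet, hdet, hdet]
  have hpl : ∀ (f : MvPolynomial (Fin 3 ⊕ Fin 2) ℝ) (b : Fin 3),
      eval (pairP t t') (pderiv (Sum.inl (Fin.castAdd 3 b)) (rename pl f)) =
        eval t (pderiv (Sum.inl b) f) := by
    intro f b
    have h1 : (Sum.inl (Fin.castAdd 3 b) : Fin (3 + 3) ⊕ Fin 2) = pl (Sum.inl b) := rfl
    rw [h1, pderiv_rename Jets_mu_pl_inj, eval_rename, pairP_pl]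
  have hpr : ∀ (f : MvPolynomial (Fin 3 ⊕ Fin 2) ℝ) (b : Fin 3),
      eval (pairP t t') (pderiv (Sum.inl (Fin.natAdd 3 b)) (rename pr f)) =
        eval t' (pderiv (Sum.inl b) f) := by
    intro f b
    have h1 : (Sum.inl (Fin.natAdd 3 b) : Fin (3 + 3) ⊕ Fin 2) = pr (Sum.inl b) := rfl
    rw [h1, pderiv_rename Jets_mu_pr_inj, eval_rename, pairP_pr t t' h]
  have hplr : ∀ (f : MvPolynomial (Fin 3 ⊕ Fin 2) ℝ) (b : Fin 3),
      pderiv (Sum.inl (Fin.natAdd 3 b)) (rename pl f) = 0 := by
    intro f b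
    refine Jets_mu_out pl _ ?_ f
    rintro ⟨v, hv⟩
    cases v with
    | inl i =>
      have h1 : Fin.castAdd 3 i = Fin.natAdd 3 b := Sum.inl_injective hv
      have h2 := congrArg Fin.val h1
      rw [Fin.val_castAdd, Fin.val_natAdd] at h2
      omega
    | inr j => exact absurd hv Sum.inr_ne_inl
  have hprl : ∀ (f : MvPolynomial (Fin 3 ⊕ Fin 2) ℝ) (b : Fin 3),
      pderiv (Sum.inl (Fin.castAdd 3 b)) (rename pr f) = 0 := by
    intro f b
    refine Jets_mu_out pr _ ?_ f
    rintro ⟨v, hv⟩
    cases v with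
    | inl i =>
      have h1 : Fin.natAdd 3 i = Fin.castAdd 3 b := Sum.inl_injective hv
      have h2 := congrArg Fin.val h1
      rw [Fin.val_castAdd, Fin.val_natAdd] at h2
      omega
    | inr j => exact absurd hv Sum.inr_ne_inl
  rw [← Matrix.det_submatrix_equiv_self (finSumFinEquiv : Fin 3 ⊕ Fin 3 ≃ Fin (3 + 3))]
  have hblock : (Matrix.of fun a b : Fin (3 + 3) =>
      eval (pairP t t') (pderiv (Sum.inl b) (pairE e e' a))).submatrix
      (finSumFinEquiv : Fin 3 ⊕ Fin 3 ≃ Fin (3 + 3)) finSumFinEquiv =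
      Matrix.fromBlocks (Matrix.of fun a b : Fin 3 => eval t (pderiv (Sum.inl b) (e a))) 0 0
        (Matrix.of fun a b : Fin 3 => eval t' (pderiv (Sum.inl b) (e' a))) := by
    ext a b
    cases a with
    | inl a =>
      cases b with
      | inl b =>
        show eval (pairP t t') (pderiv (Sum.inl (Fin.castAdd 3 b))
          (pairE e e' (Fin.castAdd 3 a))) = eval t (pderiv (Sum.inl b) (e a))
        rw [pairE, Fin.append_left, hpl]
      | inr b =>
        show eval (pairP t t') (pderiv (Sum.inl (Fin.natAdd 3 b))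
          (pairE e e' (Fin.castAdd 3 a))) = 0
        rw [pairE, Fin.append_left, hplr, map_zero]
    | inr a =>
      cases b with
      | inl b =>
        show eval (pairP t t') (pderiv (Sum.inl (Fin.castAdd 3 b))
          (pairE e e' (Fin.natAdd 3 a))) = 0
        rw [pairE, Fin.append_right, hprl, map_zero]
      | inr b =>
        show eval (pairP t t') (pderiv (Sum.inl (Fin.natAdd 3 b))
          (pairE e e' (Fin.natAdd 3 a))) = eval t' (pderiv (Sum.inl b) (e' a))
        rw [pairE, Fin.append_right, hpr]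
  rw [hblock, Matrix.det_fromBlocks_zero₂₁]

end D4Q
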