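import Mathlib
import Pool.Agent.HDI.Bezout
import Pool.Agent.D4Q.Jets_deg
import Pool.Agent.D4Q.Jets_mu

/-!
# D4Q-Jets_cross: the number of crossings

The crossings are nondegenerate zeros of a square system of polynomials of bounded degree in the variables of the pair, so
their number is bounded by Bezout's theorem.
-/

namespace D4Q

open MvPolynomial

private theorem Jets_cross_enc {Y : Type} (A : Set Y) (N : ℕ)
    (h : ∀ Q : Finset Y, (∀ q ∈ Q, q ∈ A) → Q.card ≤ N) : A.encard ≤ N := by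
  by_contra hcon
  push Not at hcon
  have h1 : ((N + 1 : ℕ) : ℕ∞) ≤ A.encard := by
    rw [Nat.cast_add, Nat.cast_one]
    exact Order.add_one_le_of_lt hcon
  obtain ⟨t, ht, hc⟩ := Set.exists_subset_encard_eq h1
  have hf : t.Finite := Set.finite_of_encard_eq_coe hc
  have h2 := h hf.toFinset fun q hq => ht (hf.mem_toFinset.1 hq)
  have h3 := hf.encard_eq_coe_toFinset_card
  rw [hc] at h3
  have h4 : N + 1 = hf.toFinset.card := by exact_mod_cast h3
  omega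

private theorem Jets_cross_pd {ι : Type} (i : ι) (f : MvPolynomial ι ℝ) :
    (pderiv i f).totalDegree ≤ f.totalDegree := by
  classical
  conv_lhs => rw [f.as_sum]
  rw [map_sum]
  refine (totalDegree_finsetSum _ _).trans ?_
  refine Finset.sup_le fun m hm => ?_
  rw [pderiv_monomial]
  refine (totalDegree_monomial_le _ _).trans ?_
  refine le_trans ?_ (le_totalDegree hm)
  have h1 : m - Finsupp.single i 1 ≤ m := tsub_le_self
  exact Finsupp.degree_mono h1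

private theorem Jets_cross_jzw {C : ℕ} {b1 b2 : MvPolynomial (Fin 4) ℝ} (h1 : b1.totalDegree ≤ C)
    (h2 : b2.totalDegree ≤ C) : (jzw b1 b2).totalDegree ≤ 2 * C := by
  unfold jzw
  refine (totalDegree_sub _ _).trans (max_le ?_ ?_)
  · refine (totalDegree_mul _ _).trans ?_
    have a1 := Jets_cross_pd 2 b1
    have a2 := Jets_cross_pd 3 b2
    omega
  · refine (totalDegree_mul _ _).trans ?_
    have a1 := Jets_cross_pd 3 b1
    have a2 := Jets_cross_pd 2 b2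
    omega

private theorem Jets_cross_eB {C : ℕ} {b1 b2 : MvPolynomial (Fin 4) ℝ} (h1 : b1.totalDegree ≤ C)
    (h2 : b2.totalDegree ≤ C) (a : Fin 3) : (eB b1 b2 a).totalDegree ≤ 2 * C + 1 := by
  fin_cases a
  · show (rename sw b1).totalDegree ≤ 2 * C + 1
    have := totalDegree_rename_le sw b1
    omega
  · show (rename sw b2).totalDegree ≤ 2 * C + 1
    have := totalDegree_rename_le sw b2
    omega
  · show (X (Sum.inl 2) * rename sw (jzw b1 b2) - 1 : MvPolynomial (Fin 3 ⊕ Fin 2) ℝ).totalDegree ≤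
      2 * C + 1
    refine (totalDegree_sub _ _).trans (max_le ?_ ?_)
    · refine (totalDegree_mul _ _).trans ?_
      have a1 := totalDegree_rename_le sw (jzw b1 b2)
      have a2 := Jets_cross_jzw h1 h2
      have a3 : (X (Sum.inl 2) : MvPolynomial (Fin 3 ⊕ Fin 2) ℝ).totalDegree = 1 := totalDegree_X _
      omega
    · rw [totalDegree_one]
      exact Nat.zero_le _

private theorem Jets_cross_pairE {C : ℕ} {b1 b2 b1' b2' : MvPolynomial (Fin 4) ℝ}
    (h1 : b1.totalDegree ≤ C) (h2 : b2.totalDegree ≤ C) (h1' : b1'.totalDegree ≤ C)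
    (h2' : b2'.totalDegree ≤ C) (a : Fin (3 + 3)) :
    (pairE (eB b1 b2) (eB b1' b2') a).totalDegree ≤ 2 * C + 1 := by
  unfold pairE
  refine Fin.addCases (fun i => ?_) (fun i => ?_) a
  · rw [Fin.append_left]
    exact (totalDegree_rename_le _ _).trans (Jets_cross_eB h1 h2 i)
  · rw [Fin.append_right]
    exact (totalDegree_rename_le _ _).trans (Jets_cross_eB h1' h2' i)

private theorem Jets_cross_w {j : ℕ} {b1 b2 b1' b2' : MvPolynomial (Fin 4) ℝ}
    {t t' : Fin 3 ⊕ Fin 2 → ℝ} (h : t ∘ Sum.inr = t' ∘ Sum.inr) (hne : t ∘ sw ≠ t' ∘ sw) :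
    ∃ w : Wd j, eval (pairP t t') (dlt b1 b2 b1' b2' w) ≠ 0 := by
  have key : ∀ q : Fin 2, t (Sum.inl (Fin.castLE (by omega) q)) ≠
      t' (Sum.inl (Fin.castLE (by omega) q)) →
      ∃ w : Wd j, eval (pairP t t') (dlt b1 b2 b1' b2' w) ≠ 0 := by
    intro q hq
    obtain ⟨w, hw1, hw2⟩ : ∃ w : Wd j, w.1.1 = [] ∧ w.2 = q :=
      ⟨((⟨[], Nat.zero_le j⟩ : {u : List (Fin 2) // u.length ≤ j}), q), rfl, rfl⟩
    refine ⟨w, ?_⟩
    rw [eval_dlt _ _ _ _ _ _ _ h, hw1, hw2]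
    show eval t (X (Sum.inl (Fin.castLE (by omega) q))) -
      eval t' (X (Sum.inl (Fin.castLE (by omega) q))) ≠ 0
    rw [eval_X, eval_X]
    exact sub_ne_zero.2 hq
  by_contra hcon
  apply hne
  have k0 : t (Sum.inl 0) = t' (Sum.inl 0) := by
    by_contra h0
    exact hcon (key 0 h0)
  have k1 : t (Sum.inl 1) = t' (Sum.inl 1) := by
    by_contra h0
    exact hcon (key 1 h0)
  have r0 : t (Sum.inr 0) = t' (Sum.inr 0) := congrFun h 0
  have r1 : t (Sum.inr 1) = t' (Sum.inr 1) := congrFun h 1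
  funext i
  fin_cases i
  · exact r0
  · exact r1
  · exact k0
  · exact k1

theorem cross_ne (C j : ℕ) : ∃ K : ℕ, ∀ (b1 b2 b1' b2' : MvPolynomial (Fin 4) ℝ)
    (F F' : Set (Fin 4 → ℝ)) (cc : Fin 2 × Wd j → ℝ),
    b1.totalDegree ≤ C → b2.totalDegree ≤ C → b1'.totalDegree ≤ C → b2'.totalDegree ≤ C →
    (∀ s, (∀ a, eval s (eB b1 b2 a) = 0) → eval s (HDI.mu (eB b1 b2)) ≠ 0) →
    (∀ s, (∀ a, eval s (eB b1' b2' a) = 0) → eval s (HDI.mu (eB b1' b2')) ≠ 0) →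
    GoodP b1 b2 b1' b2' cc →
    {q : (Fin 3 ⊕ Fin 2 → ℝ) × (Fin 3 ⊕ Fin 2 → ℝ) | q.1 ∈ SB b1 b2 F ∧ q.2 ∈ SB b1' b2' F' ∧
      q.1 ∘ sw ≠ q.2 ∘ sw ∧ ev (chB b1 b2 cc) q.1 = ev (chB b1' b2' cc) q.2}.encard ≤ K := by
  classical
  obtain ⟨K0, hK0⟩ := jt_deg C j
  refine ⟨∏ i : Fin (3 + 3) ⊕ Fin 2, (Sum.elim (fun _ => 2 * C + 1) (fun _ => K0) i + 1),
    fun b1 b2 b1' b2' F F' cc h1 h2 h1' h2' hreg hreg' hG => ?_⟩
  refine Jets_cross_enc _ _ fun Q hQ => ?_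
  have hinj : Set.InjOn (fun q : (Fin 3 ⊕ Fin 2 → ℝ) × (Fin 3 ⊕ Fin 2 → ℝ) => pairP q.1 q.2)
      (Q : Set ((Fin 3 ⊕ Fin 2 → ℝ) × (Fin 3 ⊕ Fin 2 → ℝ))) := by
    intro q hq q' hq' heq
    have a1 := (ev_chB_eq.1 (hQ q hq).2.2.2).1
    have a2 := (ev_chB_eq.1 (hQ q' hq').2.2.2).1
    have heq' : pairP q.1 q.2 = pairP q'.1 q'.2 := heq
    have b1 : q.1 = q'.1 := by rw [← pairP_pl q.1 q.2, heq', pairP_pl]
    have b2 : q.2 = q'.2 := by rw [← pairP_pr q.1 q.2 a1, heq', pairP_pr _ _ a2]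
    exact Prod.ext b1 b2
  rw [← Finset.card_image_of_injOn hinj]
  refine HDI.bezout _ (Sum.elim (pairE (eB b1 b2) (eB b1' b2')) fun a : Fin 2 =>
    ∑ w : Wd j, MvPolynomial.C (cc (a, w)) * dlt b1 b2 b1' b2' w) ?_ _ ?_
  · rintro (i | i)
    · exact Jets_cross_pairE h1 h2 h1' h2' i
    · exact dlt_deg (fun u q hu => hK0 b1 b2 h1 h2 u q hu) (fun u q hu => hK0 b1' b2' h1' h2' u q hu)
        fun w => cc (i, w)
  · intro z hz
    obtain ⟨q, hq, rfl⟩ := Finset.mem_image.1 hz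
    obtain ⟨⟨-, m1⟩, ⟨-, m2⟩, hne, hev⟩ := hQ q hq
    obtain ⟨hxy, hsum⟩ := ev_chB_eq.1 hev
    have hz1 := pairE_zero (eB b1 b2) (eB b1' b2') q.1 q.2 hxy m1 m2
    have hz2 : ∀ a : Fin 2, ∑ w : Wd j, cc (a, w) *
        eval (pairP q.1 q.2) (dlt b1 b2 b1' b2' w) = 0 := by
      intro a
      rw [← hsum a]
      refine Finset.sum_congr rfl fun w _ => ?_
      rw [eval_dlt _ _ _ _ _ _ _ hxy]
    refine ⟨?_, ?_⟩
    · rintro (i | i)
      · exact hz1 i
      · show eval (pairP q.1 q.2) (∑ w : Wd j, MvPolynomial.C (cc (i, w)) * dlt b1 b2 b1' b2' w) = 0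
        rw [map_sum, ← hz2 i]
        refine Finset.sum_congr rfl fun w _ => ?_
        rw [map_mul, eval_C]
    · refine hG _ hz1 ?_ (Jets_cross_w hxy hne) hz2
      rw [mu_pair _ _ _ _ hxy]
      exact mul_ne_zero (hreg _ m1) (hreg' _ m2)

end D4Q
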