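import Mathlib
import Pool.Agent.D4Q.Jets_cross

/-!
# D4Q-Jets_crossa: all crossings

`cross_all`: `K = C + K1` with `K1` from `cross_ne C j`. The set is contained in the union of the set of `cross_ne` and, if `i ≠ i'`, the set of the crossings with
`q.1 ∘ sw = q.2 ∘ sw`, which `q ↦ q.1 ∘ sw` maps injectively (`SB_inj` for both components) into `F i ∩ F i'` (at most `C` elements; `Set.InjOn.encard_image`,
`Set.encard_le_encard`); if `i = i'` there is none with `q.1 ∘ sw = q.2 ∘ sw` (`SB_inj` gives `q.1 = q.2`). `Set.encard_union_le`.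
-/

namespace D4Q

open MvPolynomial

/-- The crossing condition of the framework theorem. -/
theorem cross_all (C j : ℕ) : ∃ K : ℕ, ∀ (I : Type) (F : I → Set (Fin 4 → ℝ))
    (b1 b2 : I → MvPolynomial (Fin 4) ℝ) (cc : Fin 2 × Wd j → ℝ),
    (∀ i, (b1 i).totalDegree ≤ C ∧ (b2 i).totalDegree ≤ C) →
    (∀ i s, (∀ a, eval s (eB (b1 i) (b2 i) a) = 0) → eval s (HDI.mu (eB (b1 i) (b2 i))) ≠ 0) →
    (∀ i j, i ≠ j → (F i ∩ F j).encard ≤ C) →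
    (∀ i i', GoodP (b1 i) (b2 i) (b1 i') (b2 i') cc) →
    ∀ i i', {q : (Fin 3 ⊕ Fin 2 → ℝ) × (Fin 3 ⊕ Fin 2 → ℝ) |
      q.1 ∈ SB (b1 i) (b2 i) (F i) ∧ q.2 ∈ SB (b1 i') (b2 i') (F i') ∧ (i = i' → q.1 ≠ q.2) ∧
      ev (chB (b1 i) (b2 i) cc) q.1 = ev (chB (b1 i') (b2 i') cc) q.2}.encard ≤ K := by
  classical
  obtain ⟨K1, hK1⟩ := cross_ne C j
  refine ⟨C + K1, fun I F b1 b2 cc hdeg hreg hint hgood i i' => ?_⟩
  have hB := hK1 (b1 i) (b2 i) (b1 i') (b2 i') (F i) (F i') cc (hdeg i).1 (hdeg i).2 (hdeg i').1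
    (hdeg i').2 (hreg i) (hreg i') (hgood i i')
  have hA : {q : (Fin 3 ⊕ Fin 2 → ℝ) × (Fin 3 ⊕ Fin 2 → ℝ) |
      q.1 ∈ SB (b1 i) (b2 i) (F i) ∧ q.2 ∈ SB (b1 i') (b2 i') (F i') ∧ (i = i' → q.1 ≠ q.2) ∧
      q.1 ∘ sw = q.2 ∘ sw}.encard ≤ C := by
    by_cases hii : i = i'
    · have h0 : {q : (Fin 3 ⊕ Fin 2 → ℝ) × (Fin 3 ⊕ Fin 2 → ℝ) |
          q.1 ∈ SB (b1 i) (b2 i) (F i) ∧ q.2 ∈ SB (b1 i') (b2 i') (F i') ∧ (i = i' → q.1 ≠ q.2) ∧
          q.1 ∘ sw = q.2 ∘ sw} = ∅ := by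
        rw [Set.eq_empty_iff_forall_notMem]
        rintro q ⟨h1, h2, h3, h4⟩
        refine h3 hii ?_
        subst hii
        exact SB_inj (b1 i) (b2 i) h1.2 h2.2 h4
      rw [h0, Set.encard_empty]
      exact bot_le
    · refine le_trans ?_ (hint i i' hii)
      refine Set.encard_le_encard_of_injOn (f := fun q => q.1 ∘ sw) ?_ ?_
      · rintro q ⟨h1, h2, h3, h4⟩
        refine ⟨h1.1, ?_⟩
        have h5 := h2.1
        rw [← h4] at h5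
        exact h5
      · rintro q ⟨h1, h2, h3, h4⟩ q' ⟨h1', h2', h3', h4'⟩ h
        have e1 : q.1 ∘ sw = q'.1 ∘ sw := h
        have e2 : q.2 ∘ sw = q'.2 ∘ sw := by rw [← h4, ← h4', e1]
        exact Prod.ext (SB_inj (b1 i) (b2 i) h1.2 h1'.2 e1)
          (SB_inj (b1 i') (b2 i') h2.2 h2'.2 e2)
  refine le_trans (Set.encard_le_encard ?_) ((Set.encard_union_le _ _).trans
    ((add_le_add hA hB).trans (le_of_eq (by push_cast; rfl))))
  rintro q ⟨h1, h2, h3, h4⟩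
  by_cases h5 : q.1 ∘ sw = q.2 ∘ sw
  · exact Or.inl ⟨h1, h2, h3, h5⟩
  · exact Or.inr ⟨h1, h2, h5, h4⟩

end D4Q
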