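import Mathlib
import Pool.Agent.D4Q.Jets_crossa
import Pool.Agent.D4Q.Jets_pair
import Pool.Agent.D4Q.Jets_deg
import Pool.Agent.D4Q.EBt

/-!
# D4Q-Jets_fr: the data of the framework theorem

`fr_build`: `g p = ev (chB (b1 i) (b2 i) cc) (sB (b1 i) (b2 i) p)` for some `i` with `(p, i) ∈ D` if there is one (`JLev` shows that it does not depend on `i`:
the coordinates `2, 3` are combinations of values of `jt` at `sB`, `eval_cmb`), `g p = p` otherwise. In both cases `(g p) 0 = p 0`, so `g` is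
injective on `P` and `xinj` holds for `P.image g` (`JH.xinj`). `s' (z, i) = sB (b1 i) (b2 i) (p)` where `p ∈ P`, `g p = z` (`Function.invFunOn g P`; for `(p, i) ∈ D`
it gives back `p`). `et`: `eB_isEt`. `ch`: degrees by `jt_deg`, `cmb_deg` (the first two coordinates have degree `1`). `mem`: `sB_mem`. `kdof`: for `Q ⊆ P.image g` with `k`
elements let `Q0 = P.filter (g p ∈ Q)`: `Q0.image g = Q`, `Q0.card = k` (injectivity), and `(g p, i) ∈ D.image ..` implies `(p, i) ∈ D` (for `p ∈ P`),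
`JH.kdof`. `cross`: `cross_all`. The final `K` is the maximum of the `K`s and `C` and `1`.
-/

namespace D4Q

open MvPolynomial

private theorem Jets_fr_ev0 (b1 b2 : MvPolynomial (Fin 4) ℝ) {j : ℕ} (cc : Fin 2 × Wd j → ℝ) (p : Fin 4 → ℝ) :
    ev (chB b1 b2 cc) (sB b1 b2 p) 0 = p 0 := by
  unfold ev chB
  rw [Matrix.cons_val_zero, eval_X]
  unfold sB
  rw [Sum.elim_inr, Matrix.cons_val_zero]

open scoped Classical in
/-- the new points -/
private noncomputable def Jets_fr_g {I : Type} (b1 b2 : I → MvPolynomial (Fin 4) ℝ) {j : ℕ} (cc : Fin 2 × Wd j → ℝ)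
    (D : Finset ((Fin 4 → ℝ) × I)) (p : Fin 4 → ℝ) : Fin 4 → ℝ :=
  if h : ∃ i, (p, i) ∈ D then ev (chB (b1 h.choose) (b2 h.choose) cc) (sB (b1 h.choose) (b2 h.choose) p) else p

private theorem Jets_fr_g0 {I : Type} (b1 b2 : I → MvPolynomial (Fin 4) ℝ) {j : ℕ} (cc : Fin 2 × Wd j → ℝ)
    (D : Finset ((Fin 4 → ℝ) × I)) (p : Fin 4 → ℝ) : Jets_fr_g b1 b2 cc D p 0 = p 0 := by
  unfold Jets_fr_g
  split_ifs with h
  · exact Jets_fr_ev0 _ _ cc p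
  · rfl

private theorem Jets_fr_geq {I : Type} (b1 b2 : I → MvPolynomial (Fin 4) ℝ) {j : ℕ} (cc : Fin 2 × Wd j → ℝ)
    (D : Finset ((Fin 4 → ℝ) × I)) (hL : JLev b1 b2 j D) (d : (Fin 4 → ℝ) × I) (hd : d ∈ D) :
    ev (chB (b1 d.2) (b2 d.2) cc) (sB (b1 d.2) (b2 d.2) d.1) = Jets_fr_g b1 b2 cc D d.1 := by
  have h : ∃ i, (d.1, i) ∈ D := ⟨d.2, hd⟩
  unfold Jets_fr_g
  rw [dif_pos h]
  rw [ev_chB_eq]
  refine ⟨?_, fun a => ?_⟩
  · unfold sB
    rw [Sum.elim_comp_inr, Sum.elim_comp_inr]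
  refine Finset.sum_eq_zero fun w _ => ?_
  rw [hL d.1 d.2 h.choose hd h.choose_spec w.1.1 w.2 w.1.2, sub_self, mul_zero]

private theorem Jets_fr_deg {C K j : ℕ} {b1 b2 : MvPolynomial (Fin 4) ℝ}
    (h : ∀ (u : List (Fin 2)) (q : Fin 2), u.length ≤ j → (jt b1 b2 u q).totalDegree ≤ K)
    (cc : Fin 2 × Wd j → ℝ) : IsChart (K + C + 1) (chB b1 b2 cc) := by
  refine ⟨rfl, rfl, fun i => ?_⟩
  fin_cases i
  · show (X (Sum.inr 0) : MvPolynomial (Fin 3 ⊕ Fin 2) ℝ).totalDegree ≤ _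
    rw [totalDegree_X]
    omega
  · show (X (Sum.inr 1) : MvPolynomial (Fin 3 ⊕ Fin 2) ℝ).totalDegree ≤ _
    rw [totalDegree_X]
    omega
  · show (cmb b1 b2 fun w => cc (0, w)).totalDegree ≤ _
    exact (cmb_deg h _).trans (by omega)
  · show (cmb b1 b2 fun w => cc (1, w)).totalDegree ≤ _
    exact (cmb_deg h _).trans (by omega)

open scoped Classical in
theorem fr_build (k C j : ℕ) : ∃ K : ℕ, ∀ (I : Type) [Fintype I] [DecidableEq I]
    (F : I → Set (Fin 4 → ℝ)) (b1 b2 : I → MvPolynomial (Fin 4) ℝ) (P : Finset (Fin 4 → ℝ))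
    (D : Finset ((Fin 4 → ℝ) × I)) (cc : Fin 2 × Wd j → ℝ), JH k C F b1 b2 P D →
    JLev b1 b2 j D → (∀ i i', GoodP (b1 i) (b2 i) (b1 i') (b2 i') cc) →
    ∃ (g : (Fin 4 → ℝ) → (Fin 4 → ℝ)) (s' : (Fin 4 → ℝ) × I → (Fin 3 ⊕ Fin 2 → ℝ)),
      Set.InjOn g (P : Set (Fin 4 → ℝ)) ∧
      (∀ d ∈ D, ev (chB (b1 d.2) (b2 d.2) cc) (sB (b1 d.2) (b2 d.2) d.1) = g d.1) ∧
      (∀ d ∈ D, s' (g d.1, d.2) = sB (b1 d.2) (b2 d.2) d.1) ∧
      Fr 3 k K (fun i => eB (b1 i) (b2 i)) (fun i => SB (b1 i) (b2 i) (F i))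
        (fun i => chB (b1 i) (b2 i) cc) (P.image g) (D.image fun d => (g d.1, d.2)) s' := by
  obtain ⟨K1, hK1⟩ := eB_isEt C
  obtain ⟨K2, hK2⟩ := jt_deg C j
  obtain ⟨K3, hK3⟩ := cross_all C j
  refine ⟨K2 + (K1 + K3 + C) + 1, ?_⟩
  intro I _ _ F b1 b2 P D cc hJ hL hG
  obtain ⟨g, hg⟩ : ∃ g, g = Jets_fr_g b1 b2 cc D := ⟨_, rfl⟩
  have hg0 : ∀ p, g p 0 = p 0 := fun p => by rw [hg]; exact Jets_fr_g0 b1 b2 cc D p
  have hinj : Set.InjOn g (P : Set (Fin 4 → ℝ)) := by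
    intro p hp p' hp' h
    refine hJ.xinj hp hp' ?_
    show p 0 = p' 0
    rw [← hg0 p, ← hg0 p', h]
  have hgD : ∀ d ∈ D, ev (chB (b1 d.2) (b2 d.2) cc) (sB (b1 d.2) (b2 d.2) d.1) = g d.1 := fun d hd => by
    rw [hg]
    exact Jets_fr_geq b1 b2 cc D hL d hd
  obtain ⟨s', hs'⟩ : ∃ s' : (Fin 4 → ℝ) × I → (Fin 3 ⊕ Fin 2 → ℝ),
      s' = fun z => sB (b1 z.2) (b2 z.2) (Function.invFunOn g (P : Set (Fin 4 → ℝ)) z.1) := ⟨_, rfl⟩
  have hsD : ∀ d ∈ D, s' (g d.1, d.2) = sB (b1 d.2) (b2 d.2) d.1 := by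
    intro d hd
    rw [hs']
    show sB (b1 d.2) (b2 d.2) (Function.invFunOn g (P : Set (Fin 4 → ℝ)) (g d.1)) = _
    rw [hinj.leftInvOn_invFunOn (Finset.mem_coe.2 (hJ.mem d hd).1)]
  have het : ∀ i, IsEt K1 (eB (b1 i) (b2 i)) (SB (b1 i) (b2 i) (F i)) := fun i =>
    hK1 (b1 i) (b2 i) (F i) (hJ.surf i).1 (hJ.surf i).2.1 (hJ.surf i).2.2.1 (hJ.surf i).2.2.2
  refine ⟨g, s', hinj, hgD, hsD, ?_, ?_, ?_, ?_, ?_, ?_⟩
  · intro i
    exact ⟨fun a => ((het i).deg a).trans (by omega), (het i).zero, (het i).reg, (het i).closed, (het i).clop⟩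
  · intro i
    exact Jets_fr_deg (hK2 (b1 i) (b2 i) (hJ.surf i).1 (hJ.surf i).2.1) cc
  · intro d hd
    obtain ⟨d', hd', rfl⟩ := Finset.mem_image.1 hd
    refine ⟨Finset.mem_image_of_mem g (hJ.mem d' hd').1, ?_, ?_⟩
    · rw [hsD d' hd']
      have h1 := (hJ.surf d'.2).2.2.2 d'.1 (hJ.mem d' hd').2.1
      exact sB_mem _ _ _ _ (hJ.mem d' hd').2.1 h1.1 h1.2.1 (hJ.mem d' hd').2.2
    · rw [hsD d' hd']
      exact hgD d' hd'
  · intro z hz z' hz' h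
    obtain ⟨p, hp, rfl⟩ := Finset.mem_image.1 (Finset.mem_coe.1 hz)
    obtain ⟨p', hp', rfl⟩ := Finset.mem_image.1 (Finset.mem_coe.1 hz')
    have h1 : p = p' := by
      refine hJ.xinj (Finset.mem_coe.2 hp) (Finset.mem_coe.2 hp') ?_
      show p 0 = p' 0
      rw [← hg0 p, ← hg0 p']
      exact h
    rw [h1]
  · intro Q hQ hQk
    obtain ⟨Q0, hQ0⟩ : ∃ Q0, Q0 = P.filter fun p => g p ∈ Q := ⟨_, rfl⟩
    have h1 : Q0.image g = Q := by
      ext z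
      rw [Finset.mem_image]
      constructor
      · rintro ⟨p, hp, rfl⟩
        rw [hQ0] at hp
        exact (Finset.mem_filter.1 hp).2
      · intro hz
        obtain ⟨p, hp, rfl⟩ := Finset.mem_image.1 (hQ hz)
        refine ⟨p, ?_, rfl⟩
        rw [hQ0]
        exact Finset.mem_filter.2 ⟨hp, hz⟩
    have hQP : Q0 ⊆ P := by
      rw [hQ0]
      exact Finset.filter_subset _ _
    have h2 : Q0.card = k := by
      rw [← hQk, ← h1, Finset.card_image_of_injOn]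
      exact hinj.mono (Finset.coe_subset.2 hQP)
    have h3 := hJ.kdof Q0 hQP h2
    refine (Finset.card_le_card ?_).trans (h3.trans (by omega))
    intro i hi
    rw [Finset.mem_filter] at hi ⊢
    refine ⟨Finset.mem_univ i, fun p hp => ?_⟩
    have hpQ : g p ∈ Q := by
      rw [hQ0] at hp
      exact (Finset.mem_filter.1 hp).2
    obtain ⟨d, hd, hdp⟩ := Finset.mem_image.1 (hi.2 (g p) hpQ)
    have h4 : g d.1 = g p := congrArg Prod.fst hdp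
    have h5 : d.2 = i := congrArg Prod.snd hdp
    have h6 : d.1 = p := hinj (Finset.mem_coe.2 (hJ.mem d hd).1) (Finset.mem_coe.2 (hQP hp)) h4
    rw [← h5, ← h6]
    exact hd
  · intro i i'
    refine (hK3 I F b1 b2 cc (fun i => ⟨(hJ.surf i).1, (hJ.surf i).2.1⟩) (fun i => (het i).reg) hJ.inter hG i i').trans ?_
    exact_mod_cast (by omega : K3 ≤ K2 + (K1 + K3 + C) + 1)

end D4Q
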