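import Mathlib
import Pool.Agent.D4Q.Defs
import Pool.Agent.HDI.Base

/-!
# D4Q-Tang: two surfaces in a hypersurface with finitely many common points are tangent

`tangent`: put `d = G - G'` and let `a`, `b` be the derivatives `∂_2 h`, `∂_3 h` at the point; they are not both zero (otherwise
differentiating `h(w, G w) = 0` gives `∇h = 0`). By strict differentiability of `h`, `a d_0 + b d_1 = o(|d|)`, so
`|d| ≤ C |φ|` near `w0` for `φ = a d_1 - b d_0`. If the derivative of `φ` at `w0` is not zero then `φ`, hence `d`, has infinitely many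
zeros near `w0` (intermediate value theorem on segments). So it is zero, `d = O(φ) = o(|w - w0|)`, and the derivative of `d` is zero.
-/

namespace D4Q

open MvPolynomial Filter Topology

private theorem Tang_zeros {φ : (Fin 2 → ℝ) → ℝ} {w0 : Fin 2 → ℝ} {U V : Set (Fin 2 → ℝ)}
    (hU : U ∈ 𝓝 w0) (hV : V ∈ 𝓝 w0) (hc : ContinuousOn φ U) {L : (Fin 2 → ℝ) →L[ℝ] ℝ}
    (hL : HasFDerivAt φ L w0) (h0 : φ w0 = 0) (hne : L ≠ 0) : {w | w ∈ V ∧ φ w = 0}.Infinite := by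
  -- the two directions
  have hLv : ∀ v : Fin 2 → ℝ, L v = v 0 * L (Pi.single 0 1) + v 1 * L (Pi.single 1 1) := by
    intro v
    have hv : v = v 0 • (Pi.single 0 1 : Fin 2 → ℝ) + v 1 • (Pi.single 1 1 : Fin 2 → ℝ) := by
      funext i
      fin_cases i <;> simp
    conv_lhs => rw [hv]
    rw [map_add, map_smul, map_smul, smul_eq_mul, smul_eq_mul]
  set l0 := L (Pi.single 0 1) with hl0
  set l1 := L (Pi.single 1 1) with hl1
  have hq : 0 < l0 ^ 2 + l1 ^ 2 := by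
    by_contra hcon
    have h1 : l0 = 0 := by nlinarith [sq_nonneg l0, sq_nonneg l1]
    have h2 : l1 = 0 := by nlinarith [sq_nonneg l0, sq_nonneg l1]
    refine hne (ContinuousLinearMap.ext fun v => ?_)
    rw [hLv v, h1, h2]
    simp
  obtain ⟨t, ht0, htL⟩ : ∃ t : Fin 2 → ℝ, t ≠ 0 ∧ L t = 0 := by
    refine ⟨![-l1, l0], fun h => ?_, ?_⟩
    · have h1 : -l1 = 0 := congrFun h 0
      have h2 : l0 = 0 := congrFun h 1
      rw [neg_eq_zero] at h1
      rw [h1, h2] at hq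
      norm_num at hq
    · rw [hLv]
      simp only [Matrix.cons_val_zero, Matrix.cons_val_one]
      ring
  obtain ⟨n, hn⟩ : ∃ n : Fin 2 → ℝ, L n = 1 := by
    refine ⟨![l0 / (l0 ^ 2 + l1 ^ 2), l1 / (l0 ^ 2 + l1 ^ 2)], ?_⟩
    rw [hLv]
    simp only [Matrix.cons_val_zero, Matrix.cons_val_one]
    field_simp
  have hK : 0 < ‖t‖ + ‖n‖ := by
    have := norm_pos_iff.2 ht0
    have := norm_nonneg n
    linarith
  set K := ‖t‖ + ‖n‖ with hKdef
  -- the estimate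
  have hlo := hL.isLittleO.def (c := 1 / (2 * K)) (by positivity)
  obtain ⟨δ, hδ, hball⟩ := Metric.mem_nhds_iff.1 (Filter.inter_mem (Filter.inter_mem hU hV) hlo)
  have key : ∀ r ∈ Set.Ioo (0 : ℝ) (δ / K), ∃ z : Fin 2 → ℝ, (z ∈ V ∧ φ z = 0) ∧
      ∃ s : ℝ, z = w0 + r • t + s • n := by
    intro r hr
    have hrK : r * K < δ := by
      have := (lt_div_iff₀ hK).1 hr.2
      exact this
    have hin : ∀ s ∈ Set.Icc (-r) r, ‖r • t + s • n‖ ≤ r * K := by
      intro s hs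
      refine (norm_add_le _ _).trans ?_
      rw [norm_smul, norm_smul, Real.norm_eq_abs, Real.norm_eq_abs, abs_of_pos hr.1, hKdef, mul_add]
      have : |s| ≤ r := abs_le.2 hs
      have := mul_le_mul_of_nonneg_right this (norm_nonneg n)
      linarith
    have hb : ∀ s ∈ Set.Icc (-r) r, w0 + r • t + s • n ∈ Metric.ball w0 δ := by
      intro s hs
      rw [mem_ball_iff_norm]
      have e1 : w0 + r • t + s • n - w0 = r • t + s • n := by abel
      rw [e1]
      exact lt_of_le_of_lt (hin s hs) hrK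
    have hest : ∀ s ∈ Set.Icc (-r) r, |φ (w0 + r • t + s • n) - s| ≤ r / 2 := by
      intro s hs
      have h1 := (hball (hb s hs)).2
      have h2 : ‖φ (w0 + r • t + s • n) - φ w0 - L (w0 + r • t + s • n - w0)‖ ≤
          1 / (2 * K) * ‖w0 + r • t + s • n - w0‖ := h1
      have e1 : w0 + r • t + s • n - w0 = r • t + s • n := by abel
      rw [e1, h0, sub_zero, map_add, map_smul, map_smul, htL, hn, smul_zero, zero_add, smul_eq_mul,
        mul_one, Real.norm_eq_abs] at h2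
      refine h2.trans ?_
      have h3 := mul_le_mul_of_nonneg_left (hin s hs) (show (0 : ℝ) ≤ 1 / (2 * K) by positivity)
      have h4 : 1 / (2 * K) * (r * K) = r / 2 := by
        field_simp
      rw [h4] at h3
      exact h3
    have hcont : ContinuousOn (fun s : ℝ => φ (w0 + r • t + s • n)) (Set.Icc (-r) r) := by
      refine hc.comp (Continuous.continuousOn (by fun_prop)) fun s hs => ?_
      exact (hball (hb s hs)).1.1
    have hneg := hest (-r) ⟨le_rfl, by linarith [hr.1]⟩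
    have hpos := hest r ⟨by linarith [hr.1], le_rfl⟩
    rw [abs_le] at hneg hpos
    obtain ⟨s, hs, hs0⟩ := intermediate_value_Icc (show -r ≤ r by linarith [hr.1]) hcont
      (show (0 : ℝ) ∈ Set.Icc _ _ from ⟨by linarith [hneg.2, hr.1], by linarith [hpos.1, hr.1]⟩)
    exact ⟨w0 + r • t + s • n, ⟨(hball (hb s hs)).1.2, hs0⟩, s, rfl⟩
  choose! z hz hzs using key
  refine Set.infinite_of_injOn_mapsTo (f := z) (s := Set.Ioo (0 : ℝ) (δ / K)) ?_ (fun r hr => hz r hr)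
    (Set.Ioo_infinite (by positivity))
  intro r hr r' hr' he
  obtain ⟨s, hs⟩ := hzs r hr
  obtain ⟨s', hs'⟩ := hzs r' hr'
  have h1 : w0 + r • t + s • n = w0 + r' • t + s' • n := by rw [← hs, ← hs']; exact he
  have h2 := congrArg L h1
  rw [map_add, map_add, map_add, map_add, map_smul, map_smul, map_smul, map_smul, htL, hn] at h2
  simp only [smul_zero, add_zero, smul_eq_mul, mul_one] at h2
  have h3 : s = s' := by linarith
  rw [h3] at h1
  have h4 : (r - r') • t = 0 := by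
    have h5 : r • t = r' • t := by
      have := add_right_cancel h1
      exact add_left_cancel this
    rw [sub_smul, h5, sub_self]
  rcases smul_eq_zero.1 h4 with h | h
  · linarith
  · exact absurd h ht0

/-- the point of the surface -/
private def Tang_Y (G : (Fin 2 → ℝ) → (Fin 2 → ℝ)) (w : Fin 2 → ℝ) : Fin 4 → ℝ :=
  ![w 0, w 1, G w 0, G w 1]

private theorem Tang_deriv {G : (Fin 2 → ℝ) → (Fin 2 → ℝ)} {G1 : (Fin 2 → ℝ) →L[ℝ] (Fin 2 → ℝ)}
    {w0 : Fin 2 → ℝ} (hG : HasFDerivAt G G1 w0) :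
    HasFDerivAt (Tang_Y G) (ContinuousLinearMap.pi ![(ContinuousLinearMap.proj 0 : (Fin 2 → ℝ) →L[ℝ] ℝ),
      (ContinuousLinearMap.proj 1 : (Fin 2 → ℝ) →L[ℝ] ℝ),
      (ContinuousLinearMap.proj 0 : (Fin 2 → ℝ) →L[ℝ] ℝ).comp G1,
      (ContinuousLinearMap.proj 1 : (Fin 2 → ℝ) →L[ℝ] ℝ).comp G1]) w0 := by
  rw [hasFDerivAt_pi']
  intro i
  fin_cases i
  · exact (ContinuousLinearMap.proj 0 : (Fin 2 → ℝ) →L[ℝ] ℝ).hasFDerivAt
  · exact (ContinuousLinearMap.proj 1 : (Fin 2 → ℝ) →L[ℝ] ℝ).hasFDerivAt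
  · exact (ContinuousLinearMap.proj 0 : (Fin 2 → ℝ) →L[ℝ] ℝ).hasFDerivAt.comp w0 hG
  · exact (ContinuousLinearMap.proj 1 : (Fin 2 → ℝ) →L[ℝ] ℝ).hasFDerivAt.comp w0 hG

private theorem Tang_ne {h : MvPolynomial (Fin 4) ℝ} {G : (Fin 2 → ℝ) → (Fin 2 → ℝ)} {w0 : Fin 2 → ℝ}
    {G1 : (Fin 2 → ℝ) →L[ℝ] (Fin 2 → ℝ)} (hG : HasFDerivAt G G1 w0)
    (hz : ∀ᶠ w in 𝓝 w0, eval (Tang_Y G w) h = 0) (hh : HDI.grad (Tang_Y G w0) h ≠ 0) :
    0 < eval (Tang_Y G w0) (pderiv 2 h) ^ 2 + eval (Tang_Y G w0) (pderiv 3 h) ^ 2 := by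
  by_contra hcon
  have ha : eval (Tang_Y G w0) (pderiv 2 h) = 0 := by
    nlinarith [sq_nonneg (eval (Tang_Y G w0) (pderiv 2 h)), sq_nonneg (eval (Tang_Y G w0) (pderiv 3 h))]
  have hb : eval (Tang_Y G w0) (pderiv 3 h) = 0 := by
    nlinarith [sq_nonneg (eval (Tang_Y G w0) (pderiv 2 h)), sq_nonneg (eval (Tang_Y G w0) (pderiv 3 h))]
  have h1 := (HDI.hasStrictFDerivAt_eval h (Tang_Y G w0)).hasFDerivAt.comp w0 (Tang_deriv hG)
  have h2 : HasFDerivAt ((fun y : Fin 4 → ℝ => eval y h) ∘ Tang_Y G) (0 : (Fin 2 → ℝ) →L[ℝ] ℝ) w0 :=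
    (hasFDerivAt_const (0 : ℝ) w0).congr_of_eventuallyEq hz
  have h3 := h1.unique h2
  have h4 : ∀ v : Fin 2 → ℝ, eval (Tang_Y G w0) (pderiv 0 h) * v 0 + eval (Tang_Y G w0) (pderiv 1 h) * v 1 = 0 := by
    intro v
    have h5 := congrArg (fun A : (Fin 2 → ℝ) →L[ℝ] ℝ => A v) h3
    simp only [ContinuousLinearMap.comp_apply, ContinuousLinearMap.sum_apply, ContinuousLinearMap.smul_apply,
      ContinuousLinearMap.proj_apply, ContinuousLinearMap.pi_apply, ContinuousLinearMap.zero_apply,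
      Fin.sum_univ_four, smul_eq_mul] at h5
    rw [ha, hb] at h5
    simpa using h5
  have h5 : eval (Tang_Y G w0) (pderiv 0 h) = 0 := by
    have := h4 (Pi.single 0 1)
    simpa using this
  have h6 : eval (Tang_Y G w0) (pderiv 1 h) = 0 := by
    have := h4 (Pi.single 1 1)
    simpa using this
  refine hh (funext fun i => ?_)
  fin_cases i
  · exact h5
  · exact h6
  · exact ha
  · exact hb

private theorem Tang_est {h : MvPolynomial (Fin 4) ℝ} {G G' : (Fin 2 → ℝ) → (Fin 2 → ℝ)} {w0 : Fin 2 → ℝ}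
    (hG : ContinuousAt G w0) (hG' : ContinuousAt G' w0) (h0 : G w0 = G' w0)
    (hz : ∀ᶠ w in 𝓝 w0, eval (Tang_Y G w) h = 0) (hz' : ∀ᶠ w in 𝓝 w0, eval (Tang_Y G' w) h = 0)
    {ε : ℝ} (hε : 0 < ε) :
    ∀ᶠ w in 𝓝 w0, |eval (Tang_Y G w0) (pderiv 2 h) * (G w 0 - G' w 0) +
      eval (Tang_Y G w0) (pderiv 3 h) * (G w 1 - G' w 1)| ≤ ε * ‖G w - G' w‖ := by
  have hY : ∀ {F : (Fin 2 → ℝ) → (Fin 2 → ℝ)}, ContinuousAt F w0 → ContinuousAt (Tang_Y F) w0 := by
    intro F hF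
    have hF0 : ∀ i, ContinuousAt (fun w => F w i) w0 := fun i => continuousAt_pi.1 hF i
    refine continuousAt_pi.2 fun i => ?_
    fin_cases i
    · exact continuousAt_apply 0 w0
    · exact continuousAt_apply 1 w0
    · exact hF0 0
    · exact hF0 1
  have e0 : Tang_Y G' w0 = Tang_Y G w0 := by
    unfold Tang_Y
    rw [h0]
  have hT : Tendsto (fun w => (Tang_Y G w, Tang_Y G' w)) (𝓝 w0) (𝓝 (Tang_Y G w0, Tang_Y G w0)) := by
    have h2 : Tendsto (Tang_Y G') (𝓝 w0) (𝓝 (Tang_Y G w0)) := by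
      rw [← e0]
      exact hY hG'
    exact Tendsto.prodMk_nhds (hY hG) h2
  have h1 := ((HDI.hasStrictFDerivAt_eval h (Tang_Y G w0)).isLittleO.comp_tendsto hT).def hε
  filter_upwards [h1, hz, hz'] with w h2 h3 h4
  simp only [Function.comp] at h2
  rw [h3, h4, sub_self, zero_sub, norm_neg, ContinuousLinearMap.sum_apply, Fin.sum_univ_four] at h2
  simp only [ContinuousLinearMap.smul_apply, ContinuousLinearMap.proj_apply, smul_eq_mul, Real.norm_eq_abs] at h2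
  have e1 : (Tang_Y G w - Tang_Y G' w) 0 = 0 := sub_self _
  have e2 : (Tang_Y G w - Tang_Y G' w) 1 = 0 := sub_self _
  have e3 : (Tang_Y G w - Tang_Y G' w) 2 = G w 0 - G' w 0 := rfl
  have e4 : (Tang_Y G w - Tang_Y G' w) 3 = G w 1 - G' w 1 := rfl
  rw [e1, e2, e3, e4, mul_zero, mul_zero, zero_add, zero_add] at h2
  refine h2.trans (mul_le_mul_of_nonneg_left ?_ hε.le)
  rw [pi_norm_le_iff_of_nonneg (norm_nonneg _)]
  intro i
  fin_cases i
  · show ‖(Tang_Y G w - Tang_Y G' w) 0‖ ≤ _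
    rw [e1, norm_zero]
    exact norm_nonneg _
  · show ‖(Tang_Y G w - Tang_Y G' w) 1‖ ≤ _
    rw [e2, norm_zero]
    exact norm_nonneg _
  · exact norm_le_pi_norm (G w - G' w) 0
  · exact norm_le_pi_norm (G w - G' w) 1

/-- elementary inequality -/
private theorem Tang_alg {a b : ℝ} (hq : 0 < a ^ 2 + b ^ 2) : ∃ ε : ℝ, 0 < ε ∧ ∃ K : ℝ, 0 ≤ K ∧
    ∀ d : Fin 2 → ℝ, |a * d 0 + b * d 1| ≤ ε * ‖d‖ → ‖d‖ ≤ K * |a * d 1 - b * d 0| := by
  set q := a ^ 2 + b ^ 2 with hqd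
  have hs : 0 ≤ |a| + |b| := by positivity
  refine ⟨q / (2 * (|a| + |b| + 1)), by positivity, 2 * ((|a| + |b|) / q), by positivity, fun d hd => ?_⟩
  set ℓ := a * d 0 + b * d 1 with hl
  set m := a * d 1 - b * d 0 with hm
  have h0 : q * d 0 = a * ℓ - b * m := by rw [hqd, hl, hm]; ring
  have h1 : q * d 1 = b * ℓ + a * m := by rw [hqd, hl, hm]; ring
  have hb : q * ‖d‖ ≤ (|a| + |b|) * (|ℓ| + |m|) := by
    have h2 : ‖d‖ ≤ (|a| + |b|) * (|ℓ| + |m|) / q := by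
      rw [pi_norm_le_iff_of_nonneg (by positivity)]
      intro i
      rw [le_div_iff₀ hq, Real.norm_eq_abs]
      have e : ∀ x : ℝ, |x| * q = |q * x| := fun x => by rw [abs_mul, abs_of_pos hq, mul_comm]
      fin_cases i
      · show |d 0| * q ≤ _
        rw [e, h0]
        refine (abs_sub _ _).trans ?_
        rw [abs_mul, abs_mul]
        nlinarith [abs_nonneg a, abs_nonneg b, abs_nonneg ℓ, abs_nonneg m]
      · show |d 1| * q ≤ _
        rw [e, h1]
        refine (abs_add_le _ _).trans ?_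
        rw [abs_mul, abs_mul]
        nlinarith [abs_nonneg a, abs_nonneg b, abs_nonneg ℓ, abs_nonneg m]
    rw [le_div_iff₀ hq] at h2
    linarith
  have h3 : (|a| + |b|) * |ℓ| ≤ q / 2 * ‖d‖ := by
    have h4 := mul_le_mul_of_nonneg_left hd hs
    have h5 : (|a| + |b|) * (q / (2 * (|a| + |b| + 1)) * ‖d‖) ≤ q / 2 * ‖d‖ := by
      rw [← mul_assoc]
      refine mul_le_mul_of_nonneg_right ?_ (norm_nonneg _)
      rw [← mul_div_assoc, div_le_div_iff₀ (by positivity) (by norm_num)]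
      nlinarith
    exact h4.trans h5
  have h6 : q * ‖d‖ ≤ 2 * ((|a| + |b|) * |m|) := by nlinarith
  have h7 : 2 * ((|a| + |b|) / q) * |m| = 2 * ((|a| + |b|) * |m|) / q := by ring
  rw [h7, le_div_iff₀ hq]
  linarith

theorem tangent (h : MvPolynomial (Fin 4) ℝ) (G G' : (Fin 2 → ℝ) → (Fin 2 → ℝ)) (w0 : Fin 2 → ℝ)
    (U : Set (Fin 2 → ℝ)) (hU : U ∈ nhds w0) (hG : ContDiffOn ℝ 1 G U) (hG' : ContDiffOn ℝ 1 G' U)
    (h0 : G w0 = G' w0) (hz : ∀ w ∈ U, eval (![w 0, w 1, G w 0, G w 1]) h = 0)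
    (hz' : ∀ w ∈ U, eval (![w 0, w 1, G' w 0, G' w 1]) h = 0)
    (hh : HDI.grad (![w0 0, w0 1, G w0 0, G w0 1]) h ≠ 0)
    (hfin : {w | w ∈ U ∧ G w = G' w}.Finite) : fderiv ℝ G w0 = fderiv ℝ G' w0 := by
  have dG : HasFDerivAt G (fderiv ℝ G w0) w0 :=
    ((hG.contDiffAt hU).differentiableAt one_ne_zero).hasFDerivAt
  have dG' : HasFDerivAt G' (fderiv ℝ G' w0) w0 :=
    ((hG'.contDiffAt hU).differentiableAt one_ne_zero).hasFDerivAt
  have hz1 : ∀ᶠ w in 𝓝 w0, eval (Tang_Y G w) h = 0 := by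
    filter_upwards [hU] with w hw using hz w hw
  have hz2 : ∀ᶠ w in 𝓝 w0, eval (Tang_Y G' w) h = 0 := by
    filter_upwards [hU] with w hw using hz' w hw
  have hq := Tang_ne dG hz1 hh
  set a := eval (Tang_Y G w0) (pderiv 2 h) with ha
  set b := eval (Tang_Y G w0) (pderiv 3 h) with hb
  obtain ⟨ε, hε, K, hK, hKd⟩ := Tang_alg hq
  have hest := Tang_est dG.continuousAt dG'.continuousAt h0 hz1 hz2 hε
  have hd : HasFDerivAt (fun w => G w - G' w) (fderiv ℝ G w0 - fderiv ℝ G' w0) w0 := dG.sub dG'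
  set D := fderiv ℝ G w0 - fderiv ℝ G' w0 with hD
  have hφ : HasFDerivAt (fun w => a * (G w - G' w) 1 - b * (G w - G' w) 0)
      (a • (ContinuousLinearMap.proj 1 : (Fin 2 → ℝ) →L[ℝ] ℝ).comp D -
        b • (ContinuousLinearMap.proj 0 : (Fin 2 → ℝ) →L[ℝ] ℝ).comp D) w0 := by
    have h1 := (ContinuousLinearMap.proj 1 : (Fin 2 → ℝ) →L[ℝ] ℝ).hasFDerivAt.comp w0 hd
    have h2 := (ContinuousLinearMap.proj 0 : (Fin 2 → ℝ) →L[ℝ] ℝ).hasFDerivAt.comp w0 hd
    exact (h1.const_mul a).sub (h2.const_mul b)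
  have hφ0 : a * (G w0 - G' w0) 1 - b * (G w0 - G' w0) 0 = 0 := by
    rw [h0, sub_self]
    simp
  have hbd : ∀ᶠ w in 𝓝 w0, ‖G w - G' w‖ ≤ K * |a * (G w - G' w) 1 - b * (G w - G' w) 0| := by
    filter_upwards [hest] with w hw using hKd _ hw
  have hcφ : ContinuousOn (fun w => a * (G w - G' w) 1 - b * (G w - G' w) 0) U := by
    have h1 : ContinuousOn (fun w => G w - G' w) U := hG.continuousOn.sub hG'.continuousOn
    have h2 : ∀ i, ContinuousOn (fun w => (G w - G' w) i) U := fun i => continuousOn_pi.1 h1 i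
    exact (continuousOn_const.mul (h2 1)).sub (continuousOn_const.mul (h2 0))
  have hL : a • (ContinuousLinearMap.proj 1 : (Fin 2 → ℝ) →L[ℝ] ℝ).comp D -
      b • (ContinuousLinearMap.proj 0 : (Fin 2 → ℝ) →L[ℝ] ℝ).comp D = 0 := by
    by_contra hne
    have h1 := Tang_zeros hU (Filter.inter_mem hU hbd) hcφ hφ hφ0 hne
    refine h1 (hfin.subset ?_)
    rintro w ⟨⟨h2, h3⟩, h4⟩
    refine ⟨h2, ?_⟩
    have h5 : ‖G w - G' w‖ ≤ K * |a * (G w - G' w) 1 - b * (G w - G' w) 0| := h3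
    have h6 : a * (G w - G' w) 1 - b * (G w - G' w) 0 = 0 := h4
    rw [h6, abs_zero, mul_zero] at h5
    exact sub_eq_zero.1 (norm_le_zero_iff.1 h5)
  rw [hL] at hφ
  have hO : (fun w => G w - G' w) =O[𝓝 w0] fun w => a * (G w - G' w) 1 - b * (G w - G' w) 0 := by
    refine Asymptotics.IsBigO.of_bound K ?_
    filter_upwards [hbd] with w hw
    rw [Real.norm_eq_abs]
    exact hw
  have hd0 : HasFDerivAt (fun w => G w - G' w) (0 : (Fin 2 → ℝ) →L[ℝ] (Fin 2 → ℝ)) w0 := by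
    have h1 := hφ.isLittleO
    simp only [hφ0, sub_zero, ContinuousLinearMap.zero_apply] at h1
    have h2 := hO.trans_isLittleO h1
    refine HasFDerivAt.of_isLittleO ?_
    simp only [h0, sub_self, sub_zero, ContinuousLinearMap.zero_apply]
    exact h2
  exact sub_eq_zero.1 (hd.unique hd0)

end D4Q
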