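import Mathlib
import Pool.Agent.D4Q.Jets_pair
import Pool.Agent.D4Q.Tang
import Pool.Agent.D4Q.SurfL
import Pool.Agent.D4Q.DerS

/-!
# D4Q-Jets_tan: the step from order `j` to order `j + 1`

`jet_step`: `w0 = t ∘ inr = t' ∘ inr` (`ev_chB_eq`). `surf_local` for the two surfaces gives sections `σ`, `σ'` over open `W`, `W'`; let `U` be an
open neighbourhood of `w0` inside `W ∩ W'` on which `eval (ev (chB ..) (σ w)) h = 0` and the same for `σ'` (`VanAt`: `σ` is continuous at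
`w0`, with values in the surface, so `σ` tends to `t` within the surface; `tendsto_nhdsWithin_iff`). Put `G w = ![eval (σ w) (cmb b1 b2 cc0),
eval (σ w) (cmb b1 b2 cc1)]`, `G'` the same with `σ'`: `C^1` (`der_section` or composition of a polynomial with `σ`); `ev (chB ..) (σ w) = ![w 0, w 1, G w 0, G w 1]`.
`{w ∈ U | G w = G' w}` maps injectively (`w ↦ (σ w, σ' w)`) into the set of `hfin`: finite. `tangent`: `fderiv G w0 = fderiv G' w0`. Take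
component `0`, direction `Pi.single l 1`: by `der_section` with `f = cmb b1 b2 cc0` this is `eval t (derB b1 b2 l (cmb ..))`, `derB (∑ C a * jt u q) = ∑ C a * jt (l :: u) q`
(`map_sum`, `Derivation.leibniz`, `derivation_C`; `jt (l :: u) q = derB b1 b2 l (jt u q)` by `rfl`).
-/

namespace D4Q

open MvPolynomial

/-- two combinations of derivatives along a section -/
private noncomputable def Jt_G (b1 b2 : MvPolynomial (Fin 4) ℝ) {j : ℕ} (cc : Fin 2 × Wd j → ℝ)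
    (σ : (Fin 2 → ℝ) → (Fin 3 ⊕ Fin 2 → ℝ)) (w : Fin 2 → ℝ) : Fin 2 → ℝ :=
  fun a => eval (σ w) (cmb b1 b2 fun v => cc (a, v))

private theorem Jt_ev (b1 b2 : MvPolynomial (Fin 4) ℝ) {j : ℕ} (cc : Fin 2 × Wd j → ℝ)
    (σ : (Fin 2 → ℝ) → (Fin 3 ⊕ Fin 2 → ℝ)) {w : Fin 2 → ℝ} (h : σ w ∘ Sum.inr = w) :
    ev (chB b1 b2 cc) (σ w) = ![w 0, w 1, Jt_G b1 b2 cc σ w 0, Jt_G b1 b2 cc σ w 1] := by
  have h0 : σ w (Sum.inr 0) = w 0 := congrFun h 0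
  have h1 : σ w (Sum.inr 1) = w 1 := congrFun h 1
  funext i
  fin_cases i
  · show eval (σ w) (X (Sum.inr 0)) = w 0
    rw [eval_X, h0]
  · show eval (σ w) (X (Sum.inr 1)) = w 1
    rw [eval_X, h1]
  · rfl
  · rfl

private theorem Jt_C (b1 b2 : MvPolynomial (Fin 4) ℝ) {j : ℕ} (cc : Fin 2 × Wd j → ℝ)
    {σ : (Fin 2 → ℝ) → (Fin 3 ⊕ Fin 2 → ℝ)} {W : Set (Fin 2 → ℝ)} (h : ContDiffOn ℝ 1 σ W) :
    ContDiffOn ℝ 1 (Jt_G b1 b2 cc σ) W := by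
  rw [contDiffOn_pi]
  intro a
  exact ((HDI.contDiff_eval (cmb b1 b2 fun v => cc (a, v))).of_le le_top).comp_contDiffOn h

private theorem Jt_der (b1 b2 : MvPolynomial (Fin 4) ℝ) {j : ℕ} (a : Wd j → ℝ) (l : Fin 2)
    (t : Fin 3 ⊕ Fin 2 → ℝ) : eval t (derB b1 b2 l (cmb b1 b2 a)) =
      ∑ w : Wd j, a w * eval t (jt b1 b2 (l :: w.1.1) w.2) := by
  unfold cmb
  rw [map_sum, map_sum]
  refine Finset.sum_congr rfl fun w _ => ?_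
  rw [Derivation.leibniz, derivation_C, smul_zero, add_zero, smul_eq_mul, map_mul, eval_C]
  rfl

/-- the derivative of the first combination along a section -/
private theorem Jt_fd (b1 b2 : MvPolynomial (Fin 4) ℝ) (F : Set (Fin 4 → ℝ)) {j : ℕ}
    (cc : Fin 2 × Wd j → ℝ) {σ : (Fin 2 → ℝ) → (Fin 3 ⊕ Fin 2 → ℝ)} {W : Set (Fin 2 → ℝ)}
    (hW : IsOpen W) (hC : ContDiffOn ℝ 1 σ W)
    (hσ : ∀ w ∈ W, σ w ∘ Sum.inr = w ∧ σ w ∈ SB b1 b2 F) {w0 : Fin 2 → ℝ} (hw0 : w0 ∈ W)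
    (l : Fin 2) : (fderiv ℝ (Jt_G b1 b2 cc σ) w0 (Pi.single l 1)) 0 =
      ∑ w : Wd j, cc (0, w) * eval (σ w0) (jt b1 b2 (l :: w.1.1) w.2) := by
  have hd : HasFDerivAt (Jt_G b1 b2 cc σ) (fderiv ℝ (Jt_G b1 b2 cc σ) w0) w0 :=
    (((Jt_C b1 b2 cc hC).contDiffAt (hW.mem_nhds hw0)).differentiableAt one_ne_zero).hasFDerivAt
  have h1 := (hasFDerivAt_pi'.1 hd) 0
  have h2 := der_section b1 b2 W hW σ (hC.differentiableOn one_ne_zero)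
    (fun w hw => ⟨(hσ w hw).1, (hσ w hw).2.2⟩) (cmb b1 b2 fun v => cc (0, v)) w0 hw0
  have h3 := congrArg (fun L : (Fin 2 → ℝ) →L[ℝ] ℝ => L (Pi.single l 1)) (h1.unique h2)
  have h4 : (fderiv ℝ (Jt_G b1 b2 cc σ) w0 (Pi.single l 1)) 0 =
      (∑ i, eval (σ w0) (derB b1 b2 i (cmb b1 b2 fun v => cc (0, v))) •
        (ContinuousLinearMap.proj i : (Fin 2 → ℝ) →L[ℝ] ℝ)) (Pi.single l 1) := h3
  rw [h4, _root_.sum_apply, Finset.sum_eq_single l]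
  · have h5 : (eval (σ w0) (derB b1 b2 l (cmb b1 b2 fun v => cc (0, v))) •
        (ContinuousLinearMap.proj l : (Fin 2 → ℝ) →L[ℝ] ℝ)) (Pi.single l 1) =
        eval (σ w0) (derB b1 b2 l (cmb b1 b2 fun v => cc (0, v))) * (Pi.single l 1 : Fin 2 → ℝ) l := rfl
    rw [h5, Pi.single_eq_same, mul_one]
    exact Jt_der b1 b2 (fun v => cc (0, v)) l (σ w0)
  · intro i _ hi
    have h5 : (eval (σ w0) (derB b1 b2 i (cmb b1 b2 fun v => cc (0, v))) •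
        (ContinuousLinearMap.proj i : (Fin 2 → ℝ) →L[ℝ] ℝ)) (Pi.single l 1) =
        eval (σ w0) (derB b1 b2 i (cmb b1 b2 fun v => cc (0, v))) * (Pi.single l 1 : Fin 2 → ℝ) i := rfl
    rw [h5, Pi.single_eq_of_ne hi, mul_zero]
  · intro h
    exact absurd (Finset.mem_univ l) h

private theorem Jt_van {b1 b2 : MvPolynomial (Fin 4) ℝ} {F : Set (Fin 4 → ℝ)} {j : ℕ}
    {cc : Fin 2 × Wd j → ℝ} {σ : (Fin 2 → ℝ) → (Fin 3 ⊕ Fin 2 → ℝ)} {W : Set (Fin 2 → ℝ)}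
    {w0 : Fin 2 → ℝ} (hW : W ∈ nhds w0) (hC : ContDiffOn ℝ 1 σ W)
    (hσ : ∀ w ∈ W, σ w ∘ Sum.inr = w ∧ σ w ∈ SB b1 b2 F) {t : Fin 3 ⊕ Fin 2 → ℝ} (h0 : σ w0 = t)
    {h : MvPolynomial (Fin 4) ℝ} (hv : VanAt (SB b1 b2 F) (chB b1 b2 cc) h t) :
    ∀ᶠ w in nhds w0, w ∈ W ∧
      eval (![w 0, w 1, Jt_G b1 b2 cc σ w 0, Jt_G b1 b2 cc σ w 1]) h = 0 := by
  have h1 : Filter.Tendsto σ (nhds w0) (nhdsWithin t (SB b1 b2 F)) := by
    rw [tendsto_nhdsWithin_iff]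
    refine ⟨?_, ?_⟩
    · have h2 := hC.continuousOn.continuousAt hW
      rw [ContinuousAt, h0] at h2
      exact h2
    · filter_upwards [hW] with w hw using (hσ w hw).2
  filter_upwards [hW, h1.eventually hv] with w hw h2
  refine ⟨hw, ?_⟩
  rw [← Jt_ev b1 b2 cc σ (hσ w hw).1]
  exact h2

theorem jet_step (b1 b2 b1' b2' : MvPolynomial (Fin 4) ℝ) (F F' : Set (Fin 4 → ℝ)) {j : ℕ}
    (cc : Fin 2 × Wd j → ℝ) (hE : ∃ K, IsEt K (eB b1 b2) (SB b1 b2 F))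
    (hE' : ∃ K, IsEt K (eB b1' b2') (SB b1' b2' F')) (t t' : Fin 3 ⊕ Fin 2 → ℝ)
    (ht : t ∈ SB b1 b2 F) (ht' : t' ∈ SB b1' b2' F') (h : MvPolynomial (Fin 4) ℝ)
    (hv : ev (chB b1 b2 cc) t = ev (chB b1' b2' cc) t')
    (hg : HDI.grad (ev (chB b1 b2 cc) t) h ≠ 0)
    (h1 : VanAt (SB b1 b2 F) (chB b1 b2 cc) h t) (h2 : VanAt (SB b1' b2' F') (chB b1' b2' cc) h t')
    (hfin : {q : (Fin 3 ⊕ Fin 2 → ℝ) × (Fin 3 ⊕ Fin 2 → ℝ) | q.1 ∈ SB b1 b2 F ∧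
      q.2 ∈ SB b1' b2' F' ∧ ev (chB b1 b2 cc) q.1 = ev (chB b1' b2' cc) q.2}.Finite)
    (l : Fin 2) : ∑ w : Wd j, cc (0, w) * (eval t (jt b1 b2 (l :: w.1.1) w.2) -
      eval t' (jt b1' b2' (l :: w.1.1) w.2)) = 0 := by
  obtain ⟨K, hK⟩ := hE
  obtain ⟨K', hK'⟩ := hE'
  have hr : t ∘ Sum.inr = t' ∘ Sum.inr := (ev_chB_eq.1 hv).1
  obtain ⟨W, σ, hW, hWo, hσ0, hσC, hσ, -⟩ := surf_local (eB b1 b2) (SB b1 b2 F) hK t ht
  obtain ⟨W', σ', hW', hWo', hσ0', hσC', hσ', -⟩ := surf_local (eB b1' b2') (SB b1' b2' F') hK' t' ht'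
  rw [← hr] at hW' hσ0'
  set w0 : Fin 2 → ℝ := t ∘ Sum.inr with hw0
  have hw0W : w0 ∈ W := mem_of_mem_nhds hW
  have hw0W' : w0 ∈ W' := mem_of_mem_nhds hW'
  have e1 := Jt_van hW hσC hσ hσ0 h1
  have e2 := Jt_van hW' hσC' hσ' hσ0' h2
  have hU := e1.and e2
  have hG0 : ∀ a, Jt_G b1 b2 cc σ w0 a = Jt_G b1' b2' cc σ' w0 a := by
    intro a
    have h3 := (ev_chB_eq.1 hv).2 a
    unfold Jt_G
    rw [hσ0, hσ0', eval_cmb, eval_cmb, ← sub_eq_zero, ← Finset.sum_sub_distrib, ← h3]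
    exact Finset.sum_congr rfl fun w _ => by ring
  have hT := tangent h (Jt_G b1 b2 cc σ) (Jt_G b1' b2' cc σ') w0
    {w | (w ∈ W ∧ eval (![w 0, w 1, Jt_G b1 b2 cc σ w 0, Jt_G b1 b2 cc σ w 1]) h = 0) ∧
      (w ∈ W' ∧ eval (![w 0, w 1, Jt_G b1' b2' cc σ' w 0, Jt_G b1' b2' cc σ' w 1]) h = 0)} hU
    ((Jt_C b1 b2 cc hσC).mono fun w hw => hw.1.1) ((Jt_C b1' b2' cc hσC').mono fun w hw => hw.2.1)
    (funext hG0) (fun w hw => hw.1.2) (fun w hw => hw.2.2)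
    (by
      rw [← Jt_ev b1 b2 cc σ (hσ w0 hw0W).1, hσ0]
      exact hg)
    (by
      refine Set.Finite.of_injOn (f := fun w => (σ w, σ' w)) ?_ ?_ hfin
      · rintro w ⟨⟨⟨hw, -⟩, hw', -⟩, hGw⟩
        refine ⟨(hσ w hw).2, (hσ' w hw').2, ?_⟩
        show ev (chB b1 b2 cc) (σ w) = ev (chB b1' b2' cc) (σ' w)
        rw [Jt_ev b1 b2 cc σ (hσ w hw).1, Jt_ev b1' b2' cc σ' (hσ' w hw').1, hGw]
      · rintro w ⟨⟨⟨hw, -⟩, -, -⟩, -⟩ v ⟨⟨⟨hv', -⟩, -, -⟩, -⟩ he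
        have h3 : σ w = σ v := congrArg Prod.fst he
        rw [← (hσ w hw).1, ← (hσ v hv').1, h3])
  have f1 := Jt_fd b1 b2 F cc hWo hσC hσ hw0W l
  have f2 := Jt_fd b1' b2' F' cc hWo' hσC' hσ' hw0W' l
  rw [hσ0] at f1
  rw [hσ0'] at f2
  rw [hT, f2] at f1
  have h3 : ∑ w : Wd j, cc (0, w) * (eval t (jt b1 b2 (l :: w.1.1) w.2) -
      eval t' (jt b1' b2' (l :: w.1.1) w.2)) =
      ∑ w : Wd j, cc (0, w) * eval t (jt b1 b2 (l :: w.1.1) w.2) -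
      ∑ w : Wd j, cc (0, w) * eval t' (jt b1' b2' (l :: w.1.1) w.2) := by
    rw [← Finset.sum_sub_distrib]
    exact Finset.sum_congr rfl fun w _ => by ring
  rw [h3, ← f1, sub_self]

end D4Q
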