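import Mathlib
import Pool.Agent.D4Q.Jets_fr
import Pool.Agent.D4Q.Jets_cc
import Pool.Agent.D4Q.Jets_tan
import Pool.Agent.D4Q.FR

/-!
# D4Q-Jets_lev: one level

`level_step`: `V` = the vectors `w ↦ eval (sB .. p) (jt (l :: w.1.1) w.2) - eval (sB' .. p) (jt' (l :: w.1.1) w.2)` for `(p, i), (p, i') ∈ D`, `l : Fin 2`: finite.
`choose_cc` gives `cc`, `fr_build` the data, `frame 3 k K` the polynomials `h`. `D' = {d ∈ D | Left at (g d.1, d.2)}`. `D \ D'` maps injectively into the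
filtered set of `frame`. `JLev (j+1)`: `jet_step` and the choice of `cc`.
-/

namespace D4Q

open MvPolynomial

open scoped Classical in
theorem level_step (k C j : ℕ) (hk : 2 ≤ k) : ∃ A : ℝ, 0 < A ∧
    ∀ (I : Type) [Fintype I] [DecidableEq I] (F : I → Set (Fin 4 → ℝ))
    (b1 b2 : I → MvPolynomial (Fin 4) ℝ) (P : Finset (Fin 4 → ℝ))
    (D : Finset ((Fin 4 → ℝ) × I)), JH k C F b1 b2 P D → JLev b1 b2 j D →
    ∃ D' ⊆ D, JLev b1 b2 (j + 1) D' ∧
      ((D \ D').card : ℝ) ≤ A * Mt k P.card (Fintype.card I) := by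
  obtain ⟨K, hK⟩ := fr_build k C j
  obtain ⟨A, hA, hf⟩ := frame 3 k K hk
  refine ⟨A, hA, ?_⟩
  intro I _ _ F b1 b2 P D hJ hL
  let vec : ((Fin 4 → ℝ) × I) × ((Fin 4 → ℝ) × I) × Fin 2 → (Wd j → ℝ) := fun x w =>
    eval (sB (b1 x.1.2) (b2 x.1.2) x.1.1) (jt (b1 x.1.2) (b2 x.1.2) (x.2.2 :: w.1.1) w.2) -
    eval (sB (b1 x.2.1.2) (b2 x.2.1.2) x.2.1.1)
      (jt (b1 x.2.1.2) (b2 x.2.1.2) (x.2.2 :: w.1.1) w.2)
  have hV : (vec '' ((D : Set ((Fin 4 → ℝ) × I)) ×ˢ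
      ((D : Set ((Fin 4 → ℝ) × I)) ×ˢ Set.univ))).Finite :=
    ((D.finite_toSet).prod ((D.finite_toSet).prod Set.finite_univ)).image _
  obtain ⟨cc, hcc, hv⟩ := choose_cc b1 b2 j _ hV
  obtain ⟨g, s', hg, hev, hs', hFr⟩ := hK I F b1 b2 P D cc hJ hL hcc
  obtain ⟨h, hh⟩ := hf I _ _ _ _ _ s' hFr
  refine ⟨D.filter fun d => Left (fun i => SB (b1 i) (b2 i) (F i))
    (fun i => chB (b1 i) (b2 i) cc) s' h (g d.1, d.2), Finset.filter_subset _ _, ?_, ?_⟩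
  · intro p i i' hi hi' u q hu
    obtain ⟨hi, l1, l2, l3⟩ := Finset.mem_filter.1 hi
    obtain ⟨hi', l1', l2', l3'⟩ := Finset.mem_filter.1 hi'
    rcases u with _ | ⟨l, u⟩
    · exact hL p i i' hi hi' [] q (Nat.zero_le _)
    rcases eq_or_ne i i' with rfl | hne
    · rfl
    have hlen : u.length ≤ j := by simpa using hu
    have hm := hFr.mem (g p, i) (Finset.mem_image.2 ⟨(p, i), hi, rfl⟩)
    have hm' := hFr.mem (g p, i') (Finset.mem_image.2 ⟨(p, i'), hi', rfl⟩)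
    have e1 : s' (g p, i) = sB (b1 i) (b2 i) p := hs' (p, i) hi
    have e2 : s' (g p, i') = sB (b1 i') (b2 i') p := hs' (p, i') hi'
    have ev1 : ev (chB (b1 i) (b2 i) cc) (sB (b1 i) (b2 i) p) = g p := hev (p, i) hi
    have ev2 : ev (chB (b1 i') (b2 i') cc) (sB (b1 i') (b2 i') p) = g p := hev (p, i') hi'
    have hfin : {q : (Fin 3 ⊕ Fin 2 → ℝ) × (Fin 3 ⊕ Fin 2 → ℝ) |
        q.1 ∈ SB (b1 i) (b2 i) (F i) ∧ q.2 ∈ SB (b1 i') (b2 i') (F i') ∧
        ev (chB (b1 i) (b2 i) cc) q.1 = ev (chB (b1 i') (b2 i') cc) q.2}.Finite := by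
      refine Set.Finite.subset (Set.finite_of_encard_le_coe (hFr.cross i i')) ?_
      rintro q ⟨h1, h2, h3⟩
      exact ⟨h1, h2, fun h => absurd h hne, h3⟩
    have key := jet_step (b1 i) (b2 i) (b1 i') (b2 i') (F i) (F i') cc ⟨K, hFr.et i⟩
      ⟨K, hFr.et i'⟩ (sB (b1 i) (b2 i) p) (sB (b1 i') (b2 i') p) (e1 ▸ hm.2.1) (e2 ▸ hm'.2.1)
      (h (g p)) (ev1.trans ev2.symm) (by rw [ev1]; exact l2) (e1 ▸ l3) (e2 ▸ l3') hfin l
    have hz : vec ((p, i), (p, i'), l) = 0 := by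
      by_contra hne0
      exact hv _ ⟨((p, i), (p, i'), l), ⟨hi, hi', Set.mem_univ _⟩, rfl⟩ hne0 key
    have := congrFun hz (⟨u, hlen⟩, q)
    exact sub_eq_zero.1 this
  · have hinj : Set.InjOn (fun d : (Fin 4 → ℝ) × I => (g d.1, d.2)) (D : Set _) := by
      intro d hd d' hd' hdd
      simp only [Prod.mk.injEq] at hdd
      exact Prod.ext (hg (hJ.mem d hd).1 (hJ.mem d' hd').1 hdd.1) hdd.2
    have hle : (D \ D.filter fun d => Left (fun i => SB (b1 i) (b2 i) (F i))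
        (fun i => chB (b1 i) (b2 i) cc) s' h (g d.1, d.2)).card ≤
        ((D.image fun d => (g d.1, d.2)).filter fun d => ¬ Left (fun i => SB (b1 i) (b2 i) (F i))
        (fun i => chB (b1 i) (b2 i) cc) s' h d).card := by
      refine Finset.card_le_card_of_injOn (fun d => (g d.1, d.2)) ?_ ?_
      · intro d hd
        have hd := Finset.mem_sdiff.1 (Finset.mem_coe.1 hd)
        refine Finset.mem_coe.2 (Finset.mem_filter.2 ⟨Finset.mem_image.2 ⟨d, hd.1, rfl⟩, ?_⟩)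
        intro hl
        exact hd.2 (Finset.mem_filter.2 ⟨hd.1, hl⟩)
      · exact hinj.mono fun d hd => (Finset.mem_sdiff.1 (Finset.mem_coe.1 hd)).1
    have hh' := hh
    rw [Finset.card_image_of_injOn hg] at hh'
    refine le_trans (by exact_mod_cast hle) (le_trans hh' (le_of_eq ?_))
    rfl

end D4Q
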