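import Mathlib
import Pool.Agent.D4Q.O1
import Pool.Agent.D4Q.DerS

/-!
# D4Q-Term: high contact implies infinitely many common points

`term`: contact of sufficiently high order (depending on the degree only) of two of the surfaces implies
infinitely many common points. The polynomials `jt` are specializations of universal polynomials, whose
coefficients are polynomials in the coefficients of `b1`, `b2`. By the Hilbert basis theorem the ideal
generated by the differences of the universal polynomials for the two surfaces is generated by those for the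
words of length at most `J0` (`Term_alg`). So the differences along two local sections satisfy a linear system
of differential equations with continuous coefficients, and vanish near the point by the Gronwall lemma
(`Term_ode`).
-/

namespace D4Q

open MvPolynomial

/-! ### universal polynomials -/

section Univ

variable {A A' : Type} [CommRing A] [CommRing A']

private noncomputable def Term_jzw (f g : MvPolynomial (Fin 4) A) : MvPolynomial (Fin 4) A :=
  pderiv 2 f * pderiv 3 g - pderiv 3 f * pderiv 2 g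

private noncomputable def Term_dz (b1 b2 : MvPolynomial (Fin 4) A) (j : Fin 2) :
    MvPolynomial (Fin 3 ⊕ Fin 2) A :=
  X (Sum.inl 2) * rename sw (pderiv 3 b1 * pderiv (Fin.castLE (by omega) j) b2 -
    pderiv (Fin.castLE (by omega) j) b1 * pderiv 3 b2)

private noncomputable def Term_dw (b1 b2 : MvPolynomial (Fin 4) A) (j : Fin 2) :
    MvPolynomial (Fin 3 ⊕ Fin 2) A :=
  X (Sum.inl 2) * rename sw (pderiv 2 b2 * pderiv (Fin.castLE (by omega) j) b1 -
    pderiv (Fin.castLE (by omega) j) b2 * pderiv 2 b1)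

private noncomputable def Term_dt (b1 b2 : MvPolynomial (Fin 4) A) (j : Fin 2) :
    MvPolynomial (Fin 3 ⊕ Fin 2) A :=
  - X (Sum.inl 2) ^ 2 * (rename sw (pderiv (Fin.castLE (by omega) j) (Term_jzw b1 b2)) +
    rename sw (pderiv 2 (Term_jzw b1 b2)) * Term_dz b1 b2 j +
    rename sw (pderiv 3 (Term_jzw b1 b2)) * Term_dw b1 b2 j)

private noncomputable def Term_val (b1 b2 : MvPolynomial (Fin 4) A) (j : Fin 2) :
    Fin 3 ⊕ Fin 2 → MvPolynomial (Fin 3 ⊕ Fin 2) A :=
  Sum.elim (![Term_dz b1 b2 j, Term_dw b1 b2 j, Term_dt b1 b2 j]) fun i => if i = j then 1 else 0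

private noncomputable def Term_der (b1 b2 : MvPolynomial (Fin 4) A) (j : Fin 2) :
    Derivation A (MvPolynomial (Fin 3 ⊕ Fin 2) A) (MvPolynomial (Fin 3 ⊕ Fin 2) A) :=
  mkDerivation A (Term_val b1 b2 j)

private noncomputable def Term_wd (b1 b2 : MvPolynomial (Fin 4) A) : List (Fin 2) →
    MvPolynomial (Fin 3 ⊕ Fin 2) A → MvPolynomial (Fin 3 ⊕ Fin 2) A
  | [], F => F
  | j :: u, F => Term_der b1 b2 j (Term_wd b1 b2 u F)

private noncomputable def Term_jt (b1 b2 : MvPolynomial (Fin 4) A) (u : List (Fin 2)) (q : Fin 2) :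
    MvPolynomial (Fin 3 ⊕ Fin 2) A :=
  Term_wd b1 b2 u (X (Sum.inl (Fin.castLE (by omega) q)))

private theorem Term_val_map (φ : A →+* A') (b1 b2 : MvPolynomial (Fin 4) A) (j : Fin 2)
    (i : Fin 3 ⊕ Fin 2) :
    map φ (Term_val b1 b2 j i) = Term_val (map φ b1) (map φ b2) j i := by
  have h1 : map φ (Term_jzw b1 b2) = Term_jzw (map φ b1) (map φ b2) := by
    unfold Term_jzw
    simp only [map_sub, map_mul, pderiv_map]
  have h2 : map φ (Term_dz b1 b2 j) = Term_dz (map φ b1) (map φ b2) j := by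
    unfold Term_dz
    simp only [map_sub, map_mul, pderiv_map, map_X, map_rename]
  have h3 : map φ (Term_dw b1 b2 j) = Term_dw (map φ b1) (map φ b2) j := by
    unfold Term_dw
    simp only [map_sub, map_mul, pderiv_map, map_X, map_rename]
  have h4 : map φ (Term_dt b1 b2 j) = Term_dt (map φ b1) (map φ b2) j := by
    unfold Term_dt
    rw [← h1, ← h2, ← h3]
    simp only [map_add, map_mul, map_neg, map_pow, pderiv_map, map_X, map_rename]
  rcases i with a | i
  · fin_cases a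
    · exact h2
    · exact h3
    · exact h4
  · show map φ (if i = j then 1 else 0) = if i = j then 1 else 0
    split_ifs
    · exact map_one _
    · exact map_zero _

private theorem Term_der_map (φ : A →+* A') (b1 b2 : MvPolynomial (Fin 4) A) (j : Fin 2)
    (f : MvPolynomial (Fin 3 ⊕ Fin 2) A) :
    map φ (Term_der b1 b2 j f) = Term_der (map φ b1) (map φ b2) j (map φ f) := by
  induction f using MvPolynomial.induction_on with
  | C a => rw [derivation_C, map_C, derivation_C, map_zero]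
  | add p q hp hq => rw [map_add, map_add, map_add, map_add, hp, hq]
  | mul_X p i hp =>
    have h1 : Term_der b1 b2 j (X i) = Term_val b1 b2 j i := mkDerivation_X A _ i
    have h2 : Term_der (map φ b1) (map φ b2) j (X i) = Term_val (map φ b1) (map φ b2) j i :=
      mkDerivation_X A' _ i
    have h3 : Term_der b1 b2 j (p * X i) = p * Term_val b1 b2 j i + X i * Term_der b1 b2 j p := by
      rw [Derivation.leibniz, h1]
      rfl
    have h4 : Term_der (map φ b1) (map φ b2) j (map φ (p * X i)) =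
        map φ p * Term_val (map φ b1) (map φ b2) j i +
          X i * Term_der (map φ b1) (map φ b2) j (map φ p) := by
      have h5 : map φ (p * X i) = map φ p * X i := by
        rw [RingHom.map_mul, map_X]
      rw [h5, Derivation.leibniz, h2]
      rfl
    rw [h3, h4, ← Term_val_map, ← hp, RingHom.map_add, RingHom.map_mul, RingHom.map_mul, map_X]

private theorem Term_jt_map (φ : A →+* A') (b1 b2 : MvPolynomial (Fin 4) A) (u : List (Fin 2))
    (q : Fin 2) : map φ (Term_jt b1 b2 u q) = Term_jt (map φ b1) (map φ b2) u q := by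
  induction u with
  | nil => exact map_X _ _
  | cons j u ih =>
    show map φ (Term_der b1 b2 j (Term_jt b1 b2 u q)) =
      Term_der (map φ b1) (map φ b2) j (Term_jt (map φ b1) (map φ b2) u q)
    rw [Term_der_map, ih]

end Univ

private theorem Term_jt_real (b1 b2 : MvPolynomial (Fin 4) ℝ) (u : List (Fin 2)) (q : Fin 2) :
    Term_jt b1 b2 u q = jt b1 b2 u q := by
  induction u with
  | nil => rfl
  | cons j u ih =>
    show Term_der b1 b2 j (Term_jt b1 b2 u q) = derB b1 b2 j (jt b1 b2 u q)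
    rw [ih]
    rfl

private abbrev Term_R (C : ℕ) : Type := MvPolynomial (Fin 4 × (Fin 4 → Fin (C + 1))) ℝ

private noncomputable def Term_mon {C : ℕ} (m : Fin 4 → Fin (C + 1)) : Fin 4 →₀ ℕ :=
  Finsupp.equivFunOnFinite.symm fun k => (m k : ℕ)

private noncomputable def Term_U (C : ℕ) (i : Fin 4) : MvPolynomial (Fin 4) (Term_R C) :=
  ∑ m : Fin 4 → Fin (C + 1), monomial (Term_mon m) (X (i, m))

private noncomputable def Term_sp (C : ℕ) (b : Fin 4 → MvPolynomial (Fin 4) ℝ) : Term_R C →+* ℝ :=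
  eval fun p : Fin 4 × (Fin 4 → Fin (C + 1)) => coeff (Term_mon p.2) (b p.1)

private theorem Term_spec {C : ℕ} (b : Fin 4 → MvPolynomial (Fin 4) ℝ)
    (hb : ∀ i, (b i).totalDegree ≤ C) (i : Fin 4) : map (Term_sp C b) (Term_U C i) = b i := by
  unfold Term_U
  rw [map_sum]
  ext d
  rw [coeff_sum]
  have h1 : ∀ m : Fin 4 → Fin (C + 1), coeff d (map (Term_sp C b) (monomial (Term_mon m) (X (i, m)))) =
      if Term_mon m = d then coeff d (b i) else 0 := by
    intro m
    rw [map_monomial, coeff_monomial]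
    split_ifs with h
    · rw [← h]
      unfold Term_sp
      rw [eval_X]
    · rfl
  rw [Finset.sum_congr rfl fun m _ => h1 m]
  by_cases hd : ∀ k, d k ≤ C
  · rw [Finset.sum_eq_single fun k => (⟨d k, Nat.lt_succ_of_le (hd k)⟩ : Fin (C + 1))]
    · rw [if_pos]
      ext k
      rfl
    · intro m _ hm
      rw [if_neg]
      intro h
      apply hm
      funext k
      apply Fin.ext
      show (m k : ℕ) = d k
      rw [← h]
      rfl
    · intro h
      exact absurd (Finset.mem_univ _) h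
  · obtain ⟨k, hk⟩ := not_forall.1 hd
    have h2 : coeff d (b i) = 0 := by
      apply coeff_eq_zero_of_totalDegree_lt
      have h3 : d k ≤ ∑ a ∈ d.support, d a := by
        refine Finset.single_le_sum (f := fun a => d a) (fun _ _ => Nat.zero_le _) ?_
        rw [Finsupp.mem_support_iff]
        omega
      have h4 := hb i
      omega
    rw [h2]
    simp

/-! ### the Hilbert basis theorem -/

private abbrev Term_P (J : ℕ) : Type := {u : List (Fin 2) // u.length ≤ J} × Fin 2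

private theorem Term_P_fin (J : ℕ) : Finite (Term_P J) := by
  have h : Finite {u : List (Fin 2) // u.length ≤ J} := (List.finite_length_le (Fin 2) J).to_subtype
  infer_instance

private noncomputable local instance Term_ft (J : ℕ) : Fintype (Term_P J) :=
  @Fintype.ofFinite _ (Term_P_fin J)

private noncomputable def Term_g (C : ℕ) (u : List (Fin 2)) (q : Fin 2) :
    MvPolynomial ((Fin 3 ⊕ Fin 2) ⊕ (Fin 3 ⊕ Fin 2)) (Term_R C) :=
  rename Sum.inl (Term_jt (Term_U C 0) (Term_U C 1) u q) -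
    rename Sum.inr (Term_jt (Term_U C 2) (Term_U C 3) u q)

private theorem Term_alg (C : ℕ) : ∃ J0 : ℕ, ∀ b1 b2 b1' b2' : MvPolynomial (Fin 4) ℝ,
    b1.totalDegree ≤ C → b2.totalDegree ≤ C → b1'.totalDegree ≤ C → b2'.totalDegree ≤ C →
    ∃ c : Fin 2 → Term_P J0 → Term_P J0 → MvPolynomial ((Fin 3 ⊕ Fin 2) ⊕ (Fin 3 ⊕ Fin 2)) ℝ,
      ∀ j p t t', eval t (jt b1 b2 (j :: p.1.1) p.2) - eval t' (jt b1' b2' (j :: p.1.1) p.2) =
        ∑ p', eval (Sum.elim t t') (c j p p') *
          (eval t (jt b1 b2 p'.1.1 p'.2) - eval t' (jt b1' b2' p'.1.1 p'.2)) := by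
  let I : ℕ →o Ideal (MvPolynomial ((Fin 3 ⊕ Fin 2) ⊕ (Fin 3 ⊕ Fin 2)) (Term_R C)) :=
    ⟨fun J => Ideal.span (Set.range fun p : Term_P J => Term_g C p.1.1 p.2), by
      intro J J' hJ
      refine Ideal.span_mono ?_
      rintro _ ⟨p, rfl⟩
      exact ⟨(⟨p.1.1, p.1.2.trans hJ⟩, p.2), rfl⟩⟩
  obtain ⟨J0, hJ0⟩ := monotone_stabilizes_iff_noetherian.mpr
    (inferInstance : IsNoetherianRing (MvPolynomial ((Fin 3 ⊕ Fin 2) ⊕ (Fin 3 ⊕ Fin 2)) (Term_R C))) I
  have hmem : ∀ (j : Fin 2) (p : Term_P J0), Term_g C (j :: p.1.1) p.2 ∈ I J0 := by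
    intro j p
    rw [hJ0 (J0 + 1) (Nat.le_succ J0)]
    refine Ideal.subset_span ⟨(⟨j :: p.1.1, ?_⟩, p.2), rfl⟩
    rw [List.length_cons]
    exact Nat.succ_le_succ p.1.2
  have hex : ∀ (j : Fin 2) (p : Term_P J0), ∃ c : Term_P J0 →
      MvPolynomial ((Fin 3 ⊕ Fin 2) ⊕ (Fin 3 ⊕ Fin 2)) (Term_R C),
      ∑ p', c p' * Term_g C p'.1.1 p'.2 = Term_g C (j :: p.1.1) p.2 := fun j p =>
    Ideal.mem_span_range_iff_exists_fun.1 (hmem j p)
  choose c hc using hex
  refine ⟨J0, fun b1 b2 b1' b2' h1 h2 h3 h4 => ?_⟩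
  obtain ⟨b, hb⟩ : ∃ b : Fin 4 → MvPolynomial (Fin 4) ℝ, b = ![b1, b2, b1', b2'] := ⟨_, rfl⟩
  have hbd : ∀ i, (b i).totalDegree ≤ C := by
    intro i
    rw [hb]
    fin_cases i
    · exact h1
    · exact h2
    · exact h3
    · exact h4
  have e0 : map (Term_sp C b) (Term_U C 0) = b1 := by
    rw [Term_spec b hbd, hb]
    rfl
  have e1 : map (Term_sp C b) (Term_U C 1) = b2 := by
    rw [Term_spec b hbd, hb]
    rfl
  have e2 : map (Term_sp C b) (Term_U C 2) = b1' := by
    rw [Term_spec b hbd, hb]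
    rfl
  have e3 : map (Term_sp C b) (Term_U C 3) = b2' := by
    rw [Term_spec b hbd, hb]
    rfl
  refine ⟨fun j p p' => map (Term_sp C b) (c j p p'), fun j p t t' => ?_⟩
  have hg : ∀ u q, eval (Sum.elim t t') (map (Term_sp C b) (Term_g C u q)) =
      eval t (jt b1 b2 u q) - eval t' (jt b1' b2' u q) := by
    intro u q
    unfold Term_g
    rw [map_sub, map_rename, map_rename, Term_jt_map, Term_jt_map, e0, e1, e2, e3, Term_jt_real,
      Term_jt_real, map_sub, eval_rename, eval_rename]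
    rfl
  rw [← hg, ← hc j p, map_sum, map_sum]
  refine Finset.sum_congr rfl fun p' _ => ?_
  rw [map_mul, map_mul, hg]

/-! ### the Gronwall lemma -/

private theorem Term_ode {P : Type} [Fintype P] {W : Set (Fin 2 → ℝ)} (hW : IsOpen W) {w₀ : Fin 2 → ℝ}
    (hw₀ : w₀ ∈ W) (Y : P → (Fin 2 → ℝ) → ℝ) (c : Fin 2 → P → P → (Fin 2 → ℝ) → ℝ)
    (hc : ∀ j p p', ContinuousOn (c j p p') W)
    (hY : ∀ p, ∀ w ∈ W, HasFDerivAt (Y p)
      (∑ j, (∑ p', c j p p' w * Y p' w) • (ContinuousLinearMap.proj j : (Fin 2 → ℝ) →L[ℝ] ℝ)) w)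
    (h0 : ∀ p, Y p w₀ = 0) : ∃ r : ℝ, 0 < r ∧ Metric.ball w₀ r ⊆ W ∧
      ∀ w ∈ Metric.ball w₀ r, ∀ p, Y p w = 0 := by
  obtain ⟨r, hr, hrW⟩ := Metric.nhds_basis_closedBall.mem_iff.1 (hW.mem_nhds hw₀)
  have hbd : ∀ j p p', ∃ M : ℝ, ∀ w ∈ Metric.closedBall w₀ r, |c j p p' w| ≤ M := fun j p p' =>
    (isCompact_closedBall w₀ r).exists_bound_of_continuousOn ((hc j p p').mono hrW)
  choose M hM using hbd
  obtain ⟨N, hN⟩ : ∃ N : ℝ, N = ∑ j, ∑ p, ∑ p', |M j p p'| := ⟨_, rfl⟩
  have hMN : ∀ j p p', |M j p p'| ≤ N := by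
    intro j p p'
    rw [hN]
    have h1 : |M j p p'| ≤ ∑ p', |M j p p'| :=
      Finset.single_le_sum (f := fun p' => |M j p p'|) (fun _ _ => abs_nonneg _) (Finset.mem_univ p')
    have h2 : ∑ p', |M j p p'| ≤ ∑ p, ∑ p', |M j p p'| :=
      Finset.single_le_sum (f := fun p => ∑ p', |M j p p'|)
        (fun _ _ => Finset.sum_nonneg fun _ _ => abs_nonneg _) (Finset.mem_univ p)
    have h3 : ∑ p, ∑ p', |M j p p'| ≤ ∑ j, ∑ p, ∑ p', |M j p p'| :=
      Finset.single_le_sum (f := fun j => ∑ p, ∑ p', |M j p p'|)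
        (fun _ _ => Finset.sum_nonneg fun _ _ => Finset.sum_nonneg fun _ _ => abs_nonneg _)
        (Finset.mem_univ j)
    exact h1.trans (h2.trans h3)
  have hN0 : 0 ≤ N := by
    rw [hN]
    exact Finset.sum_nonneg fun _ _ => Finset.sum_nonneg fun _ _ => Finset.sum_nonneg fun _ _ => abs_nonneg _
  refine ⟨r, hr, Metric.ball_subset_closedBall.trans hrW, fun w hw p₀ => ?_⟩
  have hwr : ‖w - w₀‖ ≤ r := by
    rw [← dist_eq_norm]
    exact (Metric.mem_ball.1 hw).le
  have hseg : ∀ s ∈ Set.Icc (0 : ℝ) 1, w₀ + s • (w - w₀) ∈ Metric.closedBall w₀ r := by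
    intro s hs
    rw [Metric.mem_closedBall, dist_eq_norm, add_sub_cancel_left, norm_smul, Real.norm_eq_abs,
      abs_of_nonneg hs.1]
    calc s * ‖w - w₀‖ ≤ 1 * ‖w - w₀‖ := mul_le_mul_of_nonneg_right hs.2 (norm_nonneg _)
      _ ≤ r := by rw [one_mul]; exact hwr
  have hder : ∀ s ∈ Set.Icc (0 : ℝ) 1, HasDerivAt (fun s : ℝ => fun p => Y p (w₀ + s • (w - w₀)))
      (fun p => ∑ j, (∑ p', c j p p' (w₀ + s • (w - w₀)) * Y p' (w₀ + s • (w - w₀))) * (w - w₀) j) s := by
    intro s hs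
    rw [hasDerivAt_pi]
    intro p
    have h1 : HasDerivAt (fun s : ℝ => w₀ + s • (w - w₀)) (w - w₀) s := by
      have h2 := ((hasDerivAt_id s).smul_const (w - w₀)).const_add w₀
      simpa using h2
    have h3 := (hY p _ (hrW (hseg s hs))).comp_hasDerivAt s h1
    have h4 : (∑ j, (∑ p', c j p p' (w₀ + s • (w - w₀)) * Y p' (w₀ + s • (w - w₀))) •
        (ContinuousLinearMap.proj j : (Fin 2 → ℝ) →L[ℝ] ℝ)) (w - w₀) =
        ∑ j, (∑ p', c j p p' (w₀ + s • (w - w₀)) * Y p' (w₀ + s • (w - w₀))) * (w - w₀) j := by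
      rw [_root_.sum_apply]
      rfl
    rw [h4] at h3
    exact h3
  have key := eq_zero_of_abs_deriv_le_mul_abs_self_of_eq_zero_right
    (f := fun s : ℝ => fun p => Y p (w₀ + s • (w - w₀)))
    (f' := fun s => fun p => ∑ j, (∑ p', c j p p' (w₀ + s • (w - w₀)) * Y p' (w₀ + s • (w - w₀))) * (w - w₀) j)
    (K := ∑ _j : Fin 2, (∑ _p : P, N) * r) (a := 0) (b := 1)
    (fun s hs => (hder s hs).continuousAt.continuousWithinAt)
    (fun s hs => (hder s ⟨hs.1, hs.2.le⟩).hasDerivWithinAt)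
    (by
      funext p
      show Y p (w₀ + (0 : ℝ) • (w - w₀)) = 0
      rw [zero_smul, add_zero]
      exact h0 p)
    (by
      intro s hs
      have hs' : s ∈ Set.Icc (0 : ℝ) 1 := ⟨hs.1, hs.2.le⟩
      obtain ⟨F, hF⟩ : ∃ F : P → ℝ, F = fun p => Y p (w₀ + s • (w - w₀)) := ⟨_, rfl⟩
      rw [← hF]
      refine (pi_norm_le_iff_of_nonneg ?_).2 fun p => ?_
      · exact mul_nonneg (Finset.sum_nonneg fun _ _ => mul_nonneg (Finset.sum_nonneg fun _ _ => hN0) hr.le)
          (norm_nonneg _)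
      · rw [Finset.sum_mul]
        refine (norm_sum_le _ _).trans (Finset.sum_le_sum fun j _ => ?_)
        rw [norm_mul, mul_right_comm, Finset.sum_mul]
        refine mul_le_mul ?_ ((norm_le_pi_norm (w - w₀) j).trans hwr) (norm_nonneg _)
          (Finset.sum_nonneg fun _ _ => mul_nonneg hN0 (norm_nonneg _))
        refine (norm_sum_le _ _).trans (Finset.sum_le_sum fun p' _ => ?_)
        rw [norm_mul]
        refine mul_le_mul ?_ ?_ (norm_nonneg _) hN0
        · exact ((hM j p p' _ (hseg s hs')).trans (le_abs_self _)).trans (hMN j p p')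
        · rw [hF]
          exact norm_le_pi_norm (fun p => Y p (w₀ + s • (w - w₀))) p')
  have h1 := congrFun (key 1 ⟨zero_le_one, le_rfl⟩) p₀
  have h2 : Y p₀ (w₀ + (1 : ℝ) • (w - w₀)) = 0 := h1
  rw [one_smul, add_sub_cancel] at h2
  exact h2

private theorem Term_cont {W : Set (Fin 2 → ℝ)} {σ σ' : (Fin 2 → ℝ) → (Fin 3 ⊕ Fin 2 → ℝ)}
    (hσ : ContinuousOn σ W) (hσ' : ContinuousOn σ' W)
    (c : MvPolynomial ((Fin 3 ⊕ Fin 2) ⊕ (Fin 3 ⊕ Fin 2)) ℝ) :
    ContinuousOn (fun w => eval (Sum.elim (σ w) (σ' w)) c) W := by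
  have h1 : ContinuousOn (fun w => Sum.elim (σ w) (σ' w)) W := by
    rw [continuousOn_pi]
    rintro (i | i)
    · exact (continuousOn_pi.1 hσ) i
    · exact (continuousOn_pi.1 hσ') i
  exact (MvPolynomial.continuous_eval c).comp_continuousOn h1

theorem term (C : ℕ) : ∃ J0 : ℕ, ∀ (b1 b2 b1' b2' : MvPolynomial (Fin 4) ℝ)
    (F F' : Set (Fin 4 → ℝ)),
    b1.totalDegree ≤ C → b2.totalDegree ≤ C → b1'.totalDegree ≤ C → b2'.totalDegree ≤ C →
    (∃ K, IsEt K (eB b1 b2) (SB b1 b2 F)) → (∃ K, IsEt K (eB b1' b2') (SB b1' b2' F')) →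
    ∀ t ∈ SB b1 b2 F, ∀ t' ∈ SB b1' b2' F', t ∘ Sum.inr = t' ∘ Sum.inr →
    (∀ (u : List (Fin 2)) (q : Fin 2), u.length ≤ J0 →
      eval t (jt b1 b2 u q) = eval t' (jt b1' b2' u q)) → (F ∩ F').Infinite := by
  obtain ⟨J0, hJ0⟩ := Term_alg C
  refine ⟨J0, fun b1 b2 b1' b2' F F' h1 h2 h3 h4 hE hE' t ht t' ht' hin hjet => ?_⟩
  obtain ⟨c, hc⟩ := hJ0 b1 b2 b1' b2' h1 h2 h3 h4
  obtain ⟨K, hE⟩ := hE
  obtain ⟨K', hE'⟩ := hE'
  obtain ⟨W, σ, hWn, hWo, hσt, hσd, hσW, -⟩ := surf_local _ _ hE t ht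
  obtain ⟨W', σ', hWn', hWo', hσt', hσd', hσW', -⟩ := surf_local _ _ hE' t' ht'
  have hw₀ : t ∘ Sum.inr ∈ W ∩ W' := by
    refine ⟨mem_of_mem_nhds hWn, ?_⟩
    rw [hin]
    exact mem_of_mem_nhds hWn'
  have hσc : DifferentiableOn ℝ σ (W ∩ W') := (hσd.differentiableOn (by norm_num)).mono Set.inter_subset_left
  have hσc' : DifferentiableOn ℝ σ' (W ∩ W') :=
    (hσd'.differentiableOn (by norm_num)).mono Set.inter_subset_right
  have hWW := hWo.inter hWo'
  obtain ⟨r, hr, hrW, hY⟩ := Term_ode hWW hw₀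
    (fun (p : Term_P J0) w => eval (σ w) (jt b1 b2 p.1.1 p.2) - eval (σ' w) (jt b1' b2' p.1.1 p.2))
    (fun j p p' w => eval (Sum.elim (σ w) (σ' w)) (c j p p'))
    (fun j p p' => Term_cont hσc.continuousOn hσc'.continuousOn (c j p p'))
    (by
      intro p w hw
      have d1 := der_section b1 b2 (W ∩ W') hWW σ hσc
        (fun w hw => ⟨(hσW w hw.1).1, (hσW w hw.1).2.2⟩) (jt b1 b2 p.1.1 p.2) w hw
      have d2 := der_section b1' b2' (W ∩ W') hWW σ' hσc'
        (fun w hw => ⟨(hσW' w hw.2).1, (hσW' w hw.2).2.2⟩) (jt b1' b2' p.1.1 p.2) w hw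
      have d3 := d1.sub d2
      rw [← Finset.sum_sub_distrib] at d3
      have e : ∀ j ∈ Finset.univ, (eval (σ w) (derB b1 b2 j (jt b1 b2 p.1.1 p.2))) •
          (ContinuousLinearMap.proj j : (Fin 2 → ℝ) →L[ℝ] ℝ) -
          (eval (σ' w) (derB b1' b2' j (jt b1' b2' p.1.1 p.2))) •
          (ContinuousLinearMap.proj j : (Fin 2 → ℝ) →L[ℝ] ℝ) =
          (∑ p', eval (Sum.elim (σ w) (σ' w)) (c j p p') * (eval (σ w) (jt b1 b2 p'.1.1 p'.2) -
            eval (σ' w) (jt b1' b2' p'.1.1 p'.2))) • (ContinuousLinearMap.proj j : (Fin 2 → ℝ) →L[ℝ] ℝ) := by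
        intro j _
        rw [← hc j p (σ w) (σ' w)]
        refine ContinuousLinearMap.ext fun v => ?_
        exact (sub_mul (eval (σ w) (derB b1 b2 j (jt b1 b2 p.1.1 p.2)))
          (eval (σ' w) (derB b1' b2' j (jt b1' b2' p.1.1 p.2))) (v j)).symm
      rw [Finset.sum_congr rfl e] at d3
      exact d3)
    (by
      intro p
      show eval (σ (t ∘ Sum.inr)) (jt b1 b2 p.1.1 p.2) - eval (σ' (t ∘ Sum.inr)) (jt b1' b2' p.1.1 p.2) = 0
      rw [hσt]
      have e := hjet p.1.1 p.2 p.1.2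
      rw [hin, hσt', e, sub_self])
  refine Set.infinite_of_injOn_mapsTo (f := fun w => σ w ∘ sw) (s := Metric.ball (t ∘ Sum.inr) r) ?_ ?_
    (infinite_of_mem_nhds (t ∘ Sum.inr) (Metric.ball_mem_nhds _ hr))
  · intro w hw w' hw' h
    have e1 := (hσW w (hrW hw).1).1
    have e2 := (hσW w' (hrW hw').1).1
    have e3 : ∀ i : Fin 4, σ w (sw i) = σ w' (sw i) := fun i => congrFun h i
    rw [← e1, ← e2]
    funext j
    fin_cases j
    · exact e3 0
    · exact e3 1
  · intro w hw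
    have m1 := (hσW w (hrW hw).1).2
    have m2 := (hσW' w (hrW hw).2).2
    have q0 := hY w hw (⟨[], Nat.zero_le _⟩, 0)
    have q1 := hY w hw (⟨[], Nat.zero_le _⟩, 1)
    have r0 : σ w (Sum.inl 0) - σ' w (Sum.inl 0) = 0 := by
      have h5 : eval (σ w) (X (Sum.inl 0)) - eval (σ' w) (X (Sum.inl 0)) = 0 := q0
      rwa [eval_X, eval_X] at h5
    have r1 : σ w (Sum.inl 1) - σ' w (Sum.inl 1) = 0 := by
      have h5 : eval (σ w) (X (Sum.inl 1)) - eval (σ' w) (X (Sum.inl 1)) = 0 := q1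
      rwa [eval_X, eval_X] at h5
    have e1 := (hσW w (hrW hw).1).1
    have e2 := (hσW' w (hrW hw).2).1
    have e3 : σ w ∘ sw = σ' w ∘ sw := by
      funext i
      fin_cases i
      · exact (congrFun e1 0).trans (congrFun e2 0).symm
      · exact (congrFun e1 1).trans (congrFun e2 1).symm
      · exact sub_eq_zero.1 r0
      · exact sub_eq_zero.1 r1
    refine ⟨m1.1, ?_⟩
    show σ w ∘ sw ∈ F'
    rw [e3]
    exact m2.1

end D4Q
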