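import Mathlib
import Pool.Agent.HDI.Bezout
import Pool.Agent.D4Q.EBt
import Pool.Agent.D4Q.Term
import Pool.Agent.D4Q.SardE
import Pool.Agent.D4Q.Tang
import Pool.Agent.D4Q.FR
import Pool.Agent.D4Q.Jets_lev

/-!
# D4Q-Jets: from the framework theorem to surfaces

`jets`: PROOF. Étale surfaces `S i = SB (b1 i) (b2 i) (F i)` (`mu (eB b1 b2) = μ^2 ≠ 0`), `s d` the point of `S i` over `p`. Let
`J0` be as in `term`. LEVEL `j` (`0 ≤ j < J0`): a set `D_j ⊆ D` such that for `(p, i), (p, i') ∈ D_j` the values of `jt u q` at `s (p, i)`, `s (p, i')`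
agree for all words `|u| ≤ j`. `D_0 = D`. Let `W` = words of length `≤ j` times `Fin 2`, and choose `c1, c2 : W → ℝ` such that
(i) for all `i, i'` `sardE` holds for the pair surface (six equations in `z, w, τ, z', w', τ', x, y`) and
`Δ_{(u,q)} = jt u q - jt' u q`; (ii) `∑ c1_w v_w ≠ 0`, `∑ c2_w v_w ≠ 0` for the finitely many nonzero vectors `v` of the form
`v_{(u,q)} = (D_l jt u q)(s (p,i)) - (D_l jt u q)(s (p, i'))`, `l = 0, 1` (almost every choice is good).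
`ψ i = (x, y, ∑ c1 jt, ∑ c2 jt)`, degrees bounded in terms of `C, j`. Crossings of `S i`, `S i'`: pairs `(t, t')` with the same `(x, y)`, and
`∑ c1 Δ = ∑ c2 Δ = 0`; those with `Δ = 0` have the same point of `ℝ^4`: at most `C` if `i ≠ i'`, none if
`i = i'`; the others are nondegenerate zeros of a square system in 8 variables of bounded degrees: `HDI.bezout`.
The points: `z_p = (x_p, y_p, value, value)`, the same for all `(p, i) ∈ D_j`. So `Fr` holds and `frame` gives all but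
`A (M0 + m + n)` elements of `D_j` in `Left`; `D_{j+1}` = these. If `(p, i), (p, i') ∈ D_{j+1}`, `i ≠ i'`: `tangent` for the sections
composed with `ψ` (common points near are finitely many: crossings of `S i`, `S i'` are finite) shows that the first derivatives
of `∑ c1 Δ`, `∑ c2 Δ` vanish, so by (ii) `jt (l :: u) q` agree for `|u| ≤ j`: the property for `j + 1`.
END: for `(p, i), (p, i') ∈ D_{J0}`, `i ≠ i'`: `term` contradicts `(F i ∩ F i').encard ≤ C`; so `|D_{J0}| ≤ m`.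
-/

namespace D4Q

open MvPolynomial

private theorem jh_mono {k C : ℕ} {I : Type} [Fintype I] [DecidableEq I]
    {F : I → Set (Fin 4 → ℝ)} {b1 b2 : I → MvPolynomial (Fin 4) ℝ} {P : Finset (Fin 4 → ℝ)}
    {D D' : Finset ((Fin 4 → ℝ) × I)} (h : JH k C F b1 b2 P D) (hD : D' ⊆ D) :
    JH k C F b1 b2 P D' where
  surf := h.surf
  inter := h.inter
  mem d hd := h.mem d (hD hd)
  xinj := h.xinj
  kdof Q hQ hc := by
    refine le_trans (Finset.card_le_card ?_) (h.kdof Q hQ hc)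
    intro i hi
    rw [Finset.mem_filter] at hi ⊢
    exact ⟨hi.1, fun p hp => hD (hi.2 p hp)⟩

private theorem mt_nonneg (k m n : ℕ) : 0 ≤ Mt k m n := by
  unfold Mt
  positivity

private theorem m_le_mt (k m n : ℕ) : (m : ℝ) ≤ Mt k m n := by
  unfold Mt
  have h1 : (0 : ℝ) ≤ (m : ℝ) ^ ((k : ℝ) / (2 * k - 1)) *
    (n : ℝ) ^ ((2 * k - 2 : ℝ) / (2 * k - 1)) := by positivity
  have h2 : (0 : ℝ) ≤ n := by positivity
  linarith

private theorem sB_inr (b1 b2 : MvPolynomial (Fin 4) ℝ) (p : Fin 4 → ℝ) :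
    sB b1 b2 p ∘ Sum.inr = ![p 0, p 1] := by
  unfold sB
  exact Sum.elim_comp_inr _ _

private theorem eval_nil (b1 b2 : MvPolynomial (Fin 4) ℝ) (p : Fin 4 → ℝ) (q : Fin 2) :
    eval (sB b1 b2 p) (jt b1 b2 [] q) = ![p 2, p 3] q := by
  simp only [jt, wd, eval_X, sB, Sum.elim_inl]
  fin_cases q
  · rfl
  · rfl

private theorem lev_zero {I : Type} (b1 b2 : I → MvPolynomial (Fin 4) ℝ)
    (D : Finset ((Fin 4 → ℝ) × I)) : JLev b1 b2 0 D := by
  intro p i i' _ _ u q hu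
  have hu0 : u = [] := by
    rcases u with _ | ⟨l, u⟩
    · rfl
    · simp at hu
  subst hu0
  rw [eval_nil, eval_nil]

open scoped Classical in
private theorem levels (k C : ℕ) (hk : 2 ≤ k) (j : ℕ) : ∃ A : ℝ, 0 < A ∧
    ∀ (I : Type) [Fintype I] [DecidableEq I] (F : I → Set (Fin 4 → ℝ))
    (b1 b2 : I → MvPolynomial (Fin 4) ℝ) (P : Finset (Fin 4 → ℝ))
    (D : Finset ((Fin 4 → ℝ) × I)), JH k C F b1 b2 P D →
    ∃ D' ⊆ D, JLev b1 b2 j D' ∧
      ((D \ D').card : ℝ) ≤ A * Mt k P.card (Fintype.card I) := by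
  induction j with
  | zero =>
    refine ⟨1, one_pos, ?_⟩
    intro I _ _ F b1 b2 P D _
    refine ⟨D, Finset.Subset.refl _, lev_zero b1 b2 D, ?_⟩
    rw [Finset.sdiff_self, Finset.card_empty, Nat.cast_zero, one_mul]
    exact mt_nonneg _ _ _
  | succ j ih =>
    obtain ⟨A, hA, ih⟩ := ih
    obtain ⟨B, hB, hs⟩ := level_step k C j hk
    refine ⟨A + B, by positivity, ?_⟩
    intro I _ _ F b1 b2 P D hJ
    obtain ⟨D1, h1, hL1, hc1⟩ := ih I F b1 b2 P D hJ
    obtain ⟨D2, h2, hL2, hc2⟩ := hs I F b1 b2 P D1 (jh_mono hJ h1) hL1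
    refine ⟨D2, h2.trans h1, hL2, ?_⟩
    have hle : (D \ D2).card ≤ (D \ D1).card + (D1 \ D2).card := by
      refine le_trans (Finset.card_le_card ?_) (Finset.card_union_le _ _)
      intro d hd
      rw [Finset.mem_sdiff] at hd
      rw [Finset.mem_union, Finset.mem_sdiff, Finset.mem_sdiff]
      by_cases h : d ∈ D1
      · exact Or.inr ⟨h, hd.2⟩
      · exact Or.inl ⟨hd.1, h⟩
    have : ((D \ D2).card : ℝ) ≤ (D \ D1).card + (D1 \ D2).card := by exact_mod_cast hle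
    rw [add_mul]
    linarith

open scoped Classical in
theorem jets (k C : ℕ) (hk : 2 ≤ k) : ∃ A : ℝ, 0 < A ∧ ∀ (I : Type) [Fintype I] [DecidableEq I]
    (F : I → Set (Fin 4 → ℝ)) (b1 b2 : I → MvPolynomial (Fin 4) ℝ) (P : Finset (Fin 4 → ℝ))
    (D : Finset ((Fin 4 → ℝ) × I)),
    (∀ i, (b1 i).totalDegree ≤ C ∧ (b2 i).totalDegree ≤ C ∧ IsClosed (F i) ∧
      ∀ x ∈ F i, eval x (b1 i) = 0 ∧ eval x (b2 i) = 0 ∧ (eval x (jzw (b1 i) (b2 i)) ≠ 0 →
        ∃ U ∈ nhds x, ∀ y ∈ U, eval y (b1 i) = 0 → eval y (b2 i) = 0 → y ∈ F i)) →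
    (∀ i j, i ≠ j → (F i ∩ F j).encard ≤ C) →
    (∀ d ∈ D, d.1 ∈ P ∧ d.1 ∈ F d.2 ∧ eval d.1 (jzw (b1 d.2) (b2 d.2)) ≠ 0) →
    Set.InjOn (fun p : Fin 4 → ℝ => p 0) (P : Set (Fin 4 → ℝ)) →
    (∀ Q : Finset (Fin 4 → ℝ), Q ⊆ P → Q.card = k →
      (Finset.univ.filter fun i => ∀ p ∈ Q, (p, i) ∈ D).card ≤ C) →
    (D.card : ℝ) ≤ A * ((P.card : ℝ) ^ ((k : ℝ) / (2 * k - 1)) *
        (Fintype.card I : ℝ) ^ ((2 * k - 2 : ℝ) / (2 * k - 1)) + P.card + Fintype.card I) := by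
  obtain ⟨J0, hJ0⟩ := term C
  obtain ⟨K, hK⟩ := eB_isEt C
  obtain ⟨A, hA, hl⟩ := levels k C hk J0
  refine ⟨A + 1, by positivity, ?_⟩
  intro I _ _ F b1 b2 P D h1 h2 h3 h4 h5
  have hJ : JH k C F b1 b2 P D := ⟨h1, h2, h3, h4, h5⟩
  obtain ⟨D', hD', hL, hc⟩ := hl I F b1 b2 P D hJ
  have hmem : ∀ p i, (p, i) ∈ D' → sB (b1 i) (b2 i) p ∈ SB (b1 i) (b2 i) (F i) := by
    intro p i hi
    obtain ⟨a1, a2, a3⟩ := h3 _ (hD' hi)
    obtain ⟨c1, c2, -⟩ := (h1 i).2.2.2 p a2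
    exact sB_mem _ _ _ p a2 c1 c2 a3
  have hm : D'.card ≤ P.card := by
    refine Finset.card_le_card_of_injOn Prod.fst ?_ ?_
    · intro d hd
      exact (h3 d (hD' hd)).1
    · rintro ⟨p, i⟩ hi ⟨p', i'⟩ hi' hpp
      simp only at hpp
      subst hpp
      by_contra hne
      have hii : i ≠ i' := by
        rintro rfl
        exact hne rfl
      have hinf := hJ0 (b1 i) (b2 i) (b1 i') (b2 i') (F i) (F i') (h1 i).1 (h1 i).2.1
        (h1 i').1 (h1 i').2.1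
        ⟨K, hK _ _ _ (h1 i).1 (h1 i).2.1 (h1 i).2.2.1 (h1 i).2.2.2⟩
        ⟨K, hK _ _ _ (h1 i').1 (h1 i').2.1 (h1 i').2.2.1 (h1 i').2.2.2⟩
        _ (hmem p i hi) _ (hmem p i' hi') ((sB_inr _ _ _).trans (sB_inr _ _ _).symm)
        fun u q hu => hL p i i' hi hi' u q hu
      exact hinf (Set.finite_of_encard_le_coe (h2 i i' hii))
  have hle : D.card ≤ (D \ D').card + D'.card := by
    rw [Finset.card_sdiff_add_card_eq_card hD']
  have hle' : (D.card : ℝ) ≤ (D \ D').card + D'.card := by exact_mod_cast hle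
  have hm' : (D'.card : ℝ) ≤ P.card := by exact_mod_cast hm
  have := m_le_mt k P.card (Fintype.card I)
  have hfin : (D.card : ℝ) ≤ (A + 1) * Mt k P.card (Fintype.card I) := by
    rw [add_mul, one_mul]
    linarith
  exact hfin

end D4Q
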