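import Mathlib
import Pool.Agent.HDI.Ren
import Pool.Agent.D4Q.JT
import Pool.Agent.D4Q.FIN_gen
import Pool.Agent.D4Q.FIN_loc
import Pool.Agent.D4Q.FIN_sub

/-!
# D4Q part FIN: the final theorem

PAPER PROOF. Let `P`, `F` be given. `HDI.exists_basis`: for `S ∈ F` generators `b_1, ..., b_r` of the space `van C S`,
`r ≤ r0` (depending on `C` only), padded by zeros to `r0` polynomials. GENERIC COORDINATES: an invertible matrix `M` such
that after the substitution (`p ↦ M p`, `S ↦ M S`, polynomials composed with `M⁻¹`) (a) the first coordinate is injective on `P`;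
(b) for each `(p, S)`, `p ∈ S`, there are `a, b` with `jzw b_a b_b ≠ 0` at `p` (the gradients of some `b_a, b_b` at `p` are linearly
independent, since `f, g` of `IsSurf.smooth` are combinations of the `b`'s; the condition is a nonzero polynomial in the
entries of `M`, see `W.lean` (c)). For fixed indices `(a, b)` let
`D_{ab}` = the pairs `(p, S)` with `p ∈ S` and `jzw b_a b_b ≠ 0` at `p`; `I` = the subtype of `F`. Hypotheses of `jets`: `S` is closed (`cut`: it is
the common zero set of `van C S`). LOCAL: if `x ∈ S` and `jzw b_a b_b ≠ 0` at `x` then near `x` the set `b_a = b_b = 0` is contained in `S`: with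
`f, g` of `smooth` at `x` (gradients independent), near `x` the set `{f = g = 0} ⊆ S` is the graph of a C^1 map over its tangent plane `T` at
`x`; `b_a, b_b` vanish on it so their gradients at `x` are orthogonal to `T`, so `T` is also the tangent plane of `{b_a = b_b = 0}`,
which is near `x` the graph of a map over `T` too; the first graph is contained in the second (`S ⊆ {b_a = b_b = 0}`), and both are
graphs over neighbourhoods in `T`, so near `x` they coincide. (With `jzw b_a b_b ≠ 0`: `T` projects bijectively to the `(x, y)`-plane; use `(x, y)` as parameters: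
`jzw f g ≠ 0` at `x` as well, both sets are graphs over the `(x, y)`-plane, implicit function theorem, uniqueness part.)
Sum over the `r0^2` pairs `(a, b)`.
-/

namespace D4Q

open MvPolynomial

/-- Padded generators of the space `van C S`. -/
private theorem gens (C r0 : ℕ) (hr0 : ∀ F : Submodule ℝ (MvPolynomial (Fin 4) ℝ),
    (∀ f ∈ F, f.totalDegree ≤ C) → ∃ (r : ℕ) (b : Fin r → MvPolynomial (Fin 4) ℝ),
      r ≤ r0 ∧ (∀ j, b j ∈ F) ∧ Submodule.span ℝ (Set.range b) = F) (S : Set (Fin 4 → ℝ)) :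
    ∃ b : Fin r0 → MvPolynomial (Fin 4) ℝ, (∀ a, b a ∈ HDI.van C S) ∧
      ∀ f ∈ HDI.van C S, f ∈ Submodule.span ℝ (Set.range b) := by
  let V : Submodule ℝ (MvPolynomial (Fin 4) ℝ) :=
    { carrier := HDI.van C S
      add_mem' := by
        rintro f g ⟨hf1, hf2⟩ ⟨hg1, hg2⟩
        refine ⟨(totalDegree_add _ _).trans (max_le hf1 hg1), fun x hx => ?_⟩
        rw [map_add, hf2 x hx, hg2 x hx, add_zero]
      zero_mem' := ⟨by rw [totalDegree_zero]; exact Nat.zero_le _, fun x _ => map_zero _⟩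
      smul_mem' := by
        rintro c f ⟨hf1, hf2⟩
        refine ⟨(totalDegree_smul_le _ _).trans hf1, fun x hx => ?_⟩
        rw [smul_eval, hf2 x hx, mul_zero] }
  obtain ⟨r, b, hr, hb1, hb2⟩ := hr0 V fun f hf => hf.1
  refine ⟨fun a => if h : a.1 < r then b ⟨a.1, h⟩ else 0, fun a => ?_, fun f hf => ?_⟩
  · show (if h : a.1 < r then b ⟨a.1, h⟩ else 0) ∈ V
    split_ifs with h
    · exact hb1 _
    · exact V.zero_mem
  · have h1 : f ∈ Submodule.span ℝ (Set.range b) := by
      rw [hb2]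
      exact hf
    refine Submodule.span_mono ?_ h1
    rintro _ ⟨j, rfl⟩
    refine ⟨⟨j.1, lt_of_lt_of_le j.2 hr⟩, ?_⟩
    show (if h : j.1 < r then b ⟨j.1, h⟩ else 0) = b j
    rw [dif_pos j.2]

private theorem exists_pair {r0 : ℕ} {p : Fin 4 → ℝ} {b : Fin r0 → MvPolynomial (Fin 4) ℝ}
    {f g : MvPolynomial (Fin 4) ℝ} (hf : f ∈ Submodule.span ℝ (Set.range b))
    (hg : g ∈ Submodule.span ℝ (Set.range b))
    (h : LinearIndependent ℝ ![HDI.grad p f, HDI.grad p g]) :
    ∃ i j, LinearIndependent ℝ ![HDI.grad p (b i), HDI.grad p (b j)] := by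
  by_contra hc
  push Not at hc
  have key : ∃ w : Fin 4 → ℝ, ∀ j, ∃ c : ℝ, HDI.grad p (b j) = c • w := by
    by_cases h0 : ∃ i, HDI.grad p (b i) ≠ 0
    · obtain ⟨i, hi⟩ := h0
      refine ⟨HDI.grad p (b i), fun j => ?_⟩
      have h1 := hc i j
      rw [LinearIndependent.pair_iff' hi] at h1
      push Not at h1
      obtain ⟨c, hc'⟩ := h1
      exact ⟨c, hc'.symm⟩
    · push Not at h0
      exact ⟨0, fun j => ⟨0, by rw [h0 j, smul_zero]⟩⟩
  obtain ⟨w, hw⟩ := key
  have h2 : ∀ q ∈ Submodule.span ℝ (Set.range b), ∃ c : ℝ, HDI.grad p q = c • w := by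
    intro q hq
    induction hq using Submodule.span_induction with
    | mem x hx =>
      obtain ⟨j, rfl⟩ := hx
      exact hw j
    | zero => exact ⟨0, by rw [zero_smul]; exact (HDI.gradL p).map_zero⟩
    | add x y _ _ hx hy =>
      obtain ⟨c, hc⟩ := hx
      obtain ⟨d, hd⟩ := hy
      refine ⟨c + d, ?_⟩
      rw [add_smul, ← hc, ← hd]
      exact (HDI.gradL p).map_add x y
    | smul a x _ hx =>
      obtain ⟨c, hc⟩ := hx
      refine ⟨a * c, ?_⟩
      rw [mul_smul, ← hc]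
      exact (HDI.gradL p).map_smul a x
  obtain ⟨s, hs⟩ := h2 f hf
  obtain ⟨t, ht⟩ := h2 g hg
  rw [hs, ht, LinearIndependent.pair_iff] at h
  have h3 := h t (-s) (by
    rw [smul_smul, smul_smul, ← add_smul]
    have : t * s + -s * t = 0 := by ring
    rw [this, zero_smul])
  have hs0 : s = 0 := by linarith [h3.2]
  have h4 := h 1 0 (by rw [hs0, zero_smul, smul_zero, zero_smul, add_zero])
  exact one_ne_zero h4.1

private theorem closed_surf {C : ℕ} {S : Set (Fin 4 → ℝ)} (h : IsSurf C S) : IsClosed S := by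
  have h1 : S = ⋂ f ∈ HDI.van C S, {x : Fin 4 → ℝ | eval x f = 0} := by
    ext x
    simp only [Set.mem_iInter, Set.mem_setOf_eq]
    exact ⟨fun hx f hf => hf.2 x hx, fun hx => h.cut x hx⟩
  rw [h1]
  refine isClosed_biInter fun f _ => ?_
  exact isClosed_eq (HDI.continuous_evalp f) continuous_const

private theorem cont_mulVec (N : Matrix (Fin 4) (Fin 4) ℝ) :
    Continuous fun y : Fin 4 → ℝ => N.mulVec y := by
  refine continuous_pi fun i => ?_
  simp only [Matrix.mulVec, dotProduct]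
  fun_prop

theorem main (k C : ℕ) (hk : 2 ≤ k) (hC : 1 ≤ C) : ∃ A : ℝ, 0 < A ∧
    ∀ (P : Finset (Fin 4 → ℝ)) (F : Finset (Set (Fin 4 → ℝ))), Adm k C F →
      (inc P F : ℝ) ≤ A * ((P.card : ℝ) ^ ((k : ℝ) / (2 * k - 1)) *
        (F.card : ℝ) ^ ((2 * k - 2 : ℝ) / (2 * k - 1)) + P.card + F.card) := by
  classical
  obtain ⟨r0, hr0⟩ := HDI.exists_basis 4 C
  obtain ⟨A, hA, hJ⟩ := jets k C hk
  refine ⟨((r0 : ℝ) * r0 + 1) * A, by positivity, fun P F hF => ?_⟩
  choose bb hb1 hb2 using gens C r0 hr0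
  have hpair : ∀ S ∈ F, ∀ p ∈ S, ∃ a b, LinearIndependent ℝ
      ![HDI.grad p (bb S a), HDI.grad p (bb S b)] := by
    intro S hS p hp
    obtain ⟨f, hf, g, hg, hfg, -⟩ := (hF.surf S hS).smooth p hp
    exact exists_pair (hb2 S f hf) (hb2 S g hg) hfg
  obtain ⟨M, hM0, hMz, hMt⟩ := gen
    (((P ×ˢ P).filter fun q => q.1 ≠ q.2).image fun q => q.1 - q.2)
    (by
      intro z hz
      obtain ⟨q, hq, rfl⟩ := Finset.mem_image.1 hz
      exact sub_ne_zero.2 (Finset.mem_filter.1 hq).2)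
    ((((P ×ˢ F) ×ˢ (Finset.univ : Finset (Fin r0 × Fin r0))).image fun q =>
      (HDI.grad q.1.1 (bb q.1.2 q.2.1), HDI.grad q.1.1 (bb q.1.2 q.2.2))).filter
        fun t => LinearIndependent ℝ ![t.1, t.2])
    (fun t ht => (Finset.mem_filter.1 ht).2)
  have hMt' : ∀ p ∈ P, ∀ S ∈ F, ∀ a b, LinearIndependent ℝ
      ![HDI.grad p (bb S a), HDI.grad p (bb S b)] →
      (Matrix.of ![M 0, M 1, HDI.grad p (bb S a), HDI.grad p (bb S b)]).det ≠ 0 := by
    intro p hp S hS a b hab
    exact hMt (HDI.grad p (bb S a), HDI.grad p (bb S b)) (Finset.mem_filter.2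
      ⟨Finset.mem_image.2 ⟨((p, S), (a, b)), Finset.mem_product.2
        ⟨Finset.mem_product.2 ⟨hp, hS⟩, Finset.mem_univ _⟩, rfl⟩, hab⟩)
  obtain ⟨N, hMN, hNM⟩ : ∃ N, M * N = 1 ∧ N * M = 1 :=
    ⟨M⁻¹, Matrix.mul_nonsing_inv _ (isUnit_iff_ne_zero.2 hM0),
      Matrix.nonsing_inv_mul _ (isUnit_iff_ne_zero.2 hM0)⟩
  have hN0 : N.det ≠ 0 := by
    intro h0
    have := congrArg Matrix.det hNM
    rw [Matrix.det_mul, h0, zero_mul, Matrix.det_one] at this
    exact zero_ne_one this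
  have hNMv : ∀ p, N.mulVec (M.mulVec p) = p := fun p => by
    rw [Matrix.mulVec_mulVec, hNM, Matrix.one_mulVec]
  have hMNv : ∀ p, M.mulVec (N.mulVec p) = p := fun p => by
    rw [Matrix.mulVec_mulVec, hMN, Matrix.one_mulVec]
  have hMinj : Function.Injective M.mulVec := fun p q h => by
    rw [← hNMv p, h, hNMv]
  have hNinj : Function.Injective N.mulVec := fun p q h => by
    rw [← hMNv p, h, hMNv]
  -- the designated incidences
  let D : Fin r0 × Fin r0 → Finset ((Fin 4 → ℝ) × {S // S ∈ F}) := fun ab =>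
    ((P ×ˢ (Finset.univ : Finset {S // S ∈ F})).filter fun q => q.1 ∈ q.2.1 ∧
      LinearIndependent ℝ ![HDI.grad q.1 (bb q.2.1 ab.1), HDI.grad q.1 (bb q.2.1 ab.2)]).image
      fun q => (M.mulVec q.1, q.2)
  have hD : ∀ ab d, d ∈ D ab → ∃ p ∈ P, d.1 = M.mulVec p ∧ p ∈ d.2.1 ∧
      LinearIndependent ℝ ![HDI.grad p (bb d.2.1 ab.1), HDI.grad p (bb d.2.1 ab.2)] := by
    intro ab d hd
    obtain ⟨q, hq, rfl⟩ := Finset.mem_image.1 hd
    obtain ⟨hq1, hq2, hq3⟩ := Finset.mem_filter.1 hq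
    exact ⟨q.1, (Finset.mem_product.1 hq1).1, rfl, hq2, hq3⟩
  have hbound : ∀ ab, ((D ab).card : ℝ) ≤ A * ((P.card : ℝ) ^ ((k : ℝ) / (2 * k - 1)) *
        (F.card : ℝ) ^ ((2 * k - 2 : ℝ) / (2 * k - 1)) + P.card + F.card) := by
    intro ab
    have h := hJ {S // S ∈ F} (fun i => {y | N.mulVec y ∈ i.1}) (fun i => sub N (bb i.1 ab.1))
      (fun i => sub N (bb i.1 ab.2)) (P.image M.mulVec) (D ab) ?_ ?_ ?_ ?_ ?_
    · rw [Finset.card_image_of_injective _ hMinj, Fintype.card_coe] at h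
      exact h
    · -- the hypotheses on the surfaces
      intro i
      refine ⟨(degree_sub _ _).trans (hb1 i.1 ab.1).1, (degree_sub _ _).trans (hb1 i.1 ab.2).1,
        (closed_surf (hF.surf i.1 i.2)).preimage (cont_mulVec N), fun x hx => ?_⟩
      refine ⟨?_, ?_, fun hz => ?_⟩
      · show eval x (sub N (bb i.1 ab.1)) = 0
        rw [eval_sub]
        exact (hb1 i.1 ab.1).2 _ hx
      · show eval x (sub N (bb i.1 ab.2)) = 0
        rw [eval_sub]
        exact (hb1 i.1 ab.2).2 _ hx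
      · obtain ⟨f, hf, g, hg, hfg, U, hU, hUS⟩ := (hF.surf i.1 i.2).smooth _ hx
        obtain ⟨V, hV, hVS⟩ := local0 (hf.2 _ hx) (hg.2 _ hx) U hU hUS
          (fun y hy => ⟨(hb1 i.1 ab.1).2 y hy, (hb1 i.1 ab.2).2 y hy⟩) hfg (indep_of_jzw hz)
        refine ⟨(fun y => N.mulVec y) ⁻¹' V, (cont_mulVec N).continuousAt.preimage_mem_nhds hV, ?_⟩
        intro y hy h1 h2
        rw [eval_sub] at h1 h2
        exact hVS _ hy h1 h2
    · -- two surfaces have few common points
      intro i j hij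
      have h1 : ({y | N.mulVec y ∈ i.1} ∩ {y | N.mulVec y ∈ j.1} : Set (Fin 4 → ℝ)) ⊆
          M.mulVec '' (i.1 ∩ j.1) := by
        rintro y ⟨hy1, hy2⟩
        exact ⟨N.mulVec y, ⟨hy1, hy2⟩, hMNv y⟩
      refine (Set.encard_le_encard h1).trans ((Set.encard_image_le _ _).trans ?_)
      exact hF.inter i.1 i.2 j.1 j.2 fun h => hij (Subtype.ext h)
    · intro d hd
      obtain ⟨p, hp, hdp, hpS, hli⟩ := hD ab d hd
      refine ⟨?_, ?_, ?_⟩
      · rw [hdp]
        exact Finset.mem_image_of_mem _ hp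
      · show N.mulVec d.1 ∈ d.2.1
        rw [hdp, hNMv]
        exact hpS
      · show eval d.1 (jzw (sub N (bb d.2.1 ab.1)) (sub N (bb d.2.1 ab.2))) ≠ 0
        rw [sub_jzw hMN, hdp, hNMv]
        exact mul_ne_zero (hMt' p hp d.2.1 d.2.2 _ _ hli) hN0
    · -- the first coordinate is injective
      intro x hx y hy hxy
      obtain ⟨p, hp, rfl⟩ := Finset.mem_image.1 (Finset.mem_coe.1 hx)
      obtain ⟨q, hq, rfl⟩ := Finset.mem_image.1 (Finset.mem_coe.1 hy)
      by_contra hne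
      have hpq : p ≠ q := fun h => hne (by rw [h])
      refine hMz (p - q) (Finset.mem_image.2 ⟨(p, q), Finset.mem_filter.2
        ⟨Finset.mem_product.2 ⟨hp, hq⟩, hpq⟩, rfl⟩) ?_
      rw [Matrix.mulVec_sub, Pi.sub_apply]
      exact sub_eq_zero.2 hxy
    · -- the degrees of freedom
      intro Q hQ hQk
      refine le_trans ?_ (hF.deg (Q.image N.mulVec)
        (by rw [Finset.card_image_of_injective _ hNinj, hQk]))
      refine Finset.card_le_card_of_injOn (fun i => i.1) ?_ (fun i _ j _ h => Subtype.ext h)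
      intro i hi
      have hi' := (Finset.mem_filter.1 (Finset.mem_coe.1 hi)).2
      refine Finset.mem_coe.2 (Finset.mem_filter.2 ⟨i.2, ?_⟩)
      intro z hz
      obtain ⟨y, hy, rfl⟩ := Finset.mem_image.1 (Finset.mem_coe.1 hz)
      obtain ⟨p, hp, hdp, hpS, -⟩ := hD ab (y, i) (hi' y hy)
      have hyp : y = M.mulVec p := hdp
      rw [hyp, hNMv]
      exact hpS
  have hinc : inc P F ≤ ∑ ab, (D ab).card := by
    have h1 : ((P ×ˢ F).filter fun q => q.1 ∈ q.2) ⊆
        (Finset.univ.biUnion D).image fun d => (N.mulVec d.1, d.2.1) := by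
      intro q hq
      obtain ⟨hq1, hq2⟩ := Finset.mem_filter.1 hq
      obtain ⟨hqP, hqF⟩ := Finset.mem_product.1 hq1
      obtain ⟨a, b, hab⟩ := hpair q.2 hqF q.1 hq2
      refine Finset.mem_image.2 ⟨(M.mulVec q.1, ⟨q.2, hqF⟩), ?_, ?_⟩
      · refine Finset.mem_biUnion.2 ⟨(a, b), Finset.mem_univ _, ?_⟩
        exact Finset.mem_image.2 ⟨(q.1, ⟨q.2, hqF⟩), Finset.mem_filter.2
          ⟨Finset.mem_product.2 ⟨hqP, Finset.mem_univ _⟩, hq2, hab⟩, rfl⟩
      · show (N.mulVec (M.mulVec q.1), q.2) = q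
        rw [hNMv]
    calc inc P F = ((P ×ˢ F).filter fun q => q.1 ∈ q.2).card := by
          rw [inc]
      _ ≤ ((Finset.univ.biUnion D).image fun d => (N.mulVec d.1, d.2.1)).card :=
          Finset.card_le_card h1
      _ ≤ (Finset.univ.biUnion D).card := Finset.card_image_le
      _ ≤ ∑ ab, (D ab).card := Finset.card_biUnion_le
  set B : ℝ := (P.card : ℝ) ^ ((k : ℝ) / (2 * k - 1)) *
        (F.card : ℝ) ^ ((2 * k - 2 : ℝ) / (2 * k - 1)) + P.card + F.card with hB
  have hB0 : 0 ≤ B := by positivity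
  calc (inc P F : ℝ) ≤ ((∑ ab, (D ab).card : ℕ) : ℝ) := by exact_mod_cast hinc
    _ = ∑ ab, ((D ab).card : ℝ) := by push_cast; rfl
    _ ≤ ∑ _ab : Fin r0 × Fin r0, A * B := Finset.sum_le_sum fun ab _ => hbound ab
    _ = (r0 : ℝ) * r0 * (A * B) := by
        rw [Finset.sum_const, Finset.card_univ, Fintype.card_prod, Fintype.card_fin, nsmul_eq_mul]
        push_cast
        ring
    _ ≤ ((r0 : ℝ) * r0 + 1) * A * B := by
        have : 0 ≤ A * B := by positivity
        nlinarith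

end D4Q
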