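import Mathlib
import Pool.Agent.D4Q.VD
import Pool.Agent.D4Q.VtTrap

/-!
# D4Q-VtExt: limits of trapezoids

PROOF of `vextL`. By `trap_of_sec` there is a trapezoid over `(t1, t0]`. (1) `κ t` converges for `t → t1`: `y (κ t)` converges, since otherwise every number strictly between its lower and upper limit is, by the intermediate value theorem, a
limit of values `y (κ t_j)`, `t_j → t1`, exactly equal to it, and a cluster point (`K` compact, `H` closed) of `κ t_j` is a point of `H` over `t1` with this `y`: infinitely many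
points of `H` over `t1`, contradiction to `VS.fin`. Then a cluster point `β ∈ H` of `κ t` has `(x, y)` = the limit; the box section through `β` contains `κ t` for some `t` close to `t1`, hence (uniqueness, `sec_unique` for `t ↦ κ t` and `t ↦` section at `(t, y (κ t))`)
for all `t` close to `t1`: convergence to `β`. Same for `τ t → ω`. (2) Lift the vertical line from `β` upwards inside `K` as long as possible; CLAIM it reaches height `y ω`. Let the lift `g : [y β, Y) → K` be maximal with `Y ≤ y ω`; it converges at `Y` to a point of `K` (as in `gap_exists`); by `tube` there is a section `s'` over a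
neighbourhood of `{t1} × [y β, Y]`; for `t` close to `t1` the paths `s (t, ·)` agree with `s' (t, ·)` (both start at `κ t`, `s' (t, y (κ t)) = κ t` near `β`), as long as `u ≤ y (τ t)`, so if `Y < y ω` then `s' (t1, u)`, `u` slightly
larger than `Y`, is a limit of points `s (t, u) ∈ K`, contradiction to maximality. So `s` extends by `s'` to a continuous section on the closed region, values in `K`, and `s (t1, y ω) = ω`. This is the `Trap` over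
`[t1, t0]` with good gaps over `(t1, t0]`. (3) If no point of the slice over `t1` is in `Sp`: an interior point `s (t1, u)`, `y β < u < y ω`, in `H` would by `LocSec` give points of `H` inside the gaps for `t` close to `t1`, contradiction; if `y β = y ω` then `β = ω ∉ Sp` and
`κ t`, `τ t` are both the local section of `H` at `β`, contradiction to `y (κ t) < y (τ t)`. So it is a good gap.
`vextR`: the same with `x` replaced by `-x` (`VS (-x) y K H Sp` holds), or repeat.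
-/

namespace D4Q

open Set Filter Topology

/-- A continuous map on `D` with values in a compact set and finitely many cluster points at `a0`
converges, if `D` is locally connected at `a0`. -/
private theorem ext_conv {X A : Type} [TopologicalSpace X] [T2Space X] [TopologicalSpace A]
    (D : Set A) (a0 : A) (h0 : a0 ∈ closure D)
    (hc : ∀ U ∈ 𝓝 a0, ∃ V ∈ 𝓝 a0, V ⊆ U ∧ IsPreconnected (V ∩ D)) (c : A → X)
    (hcc : ContinuousOn c D) (K : Set X) (hK : IsCompact K) (hcK : ∀ a ∈ D, c a ∈ K) (Z : Set X)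
    (hZ : Z.Finite) (hcl : ∀ y ∈ K, MapClusterPt y (𝓝[D] a0) c → y ∈ Z) :
    ∃ β ∈ K, Tendsto c (𝓝[D] a0) (𝓝 β) := by
  classical
  have : (𝓝[D] a0).NeBot := mem_closure_iff_nhdsWithin_neBot.1 h0
  obtain ⟨U, hU, hd⟩ := hZ.t2_separation
  have hKev : ∀ᶠ a in 𝓝[D] a0, c a ∈ K := eventually_nhdsWithin_of_forall hcK
  have hW : IsOpen (⋃ z ∈ Z, U z) := isOpen_biUnion fun z _ => (hU z).2
  have hev : ∀ᶠ a in 𝓝[D] a0, c a ∈ ⋃ z ∈ Z, U z := by
    by_contra hcon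
    have hf : ∃ᶠ a in 𝓝[D] a0, c a ∈ K \ ⋃ z ∈ Z, U z := by
      have h1 : ∃ᶠ a in 𝓝[D] a0, ¬ c a ∈ ⋃ z ∈ Z, U z := Filter.not_eventually.1 hcon
      exact (h1.and_eventually hKev).mono fun a ha => ⟨ha.2, ha.1⟩
    obtain ⟨y, hy, hy'⟩ := (hK.diff hW).exists_mapClusterPt_of_frequently hf
    exact hy.2 (mem_biUnion (hcl y hy.1 hy') (hU y).1)
  obtain ⟨O, hO, hO'⟩ := mem_nhdsWithin_iff_exists_mem_nhds_inter.1 hev
  obtain ⟨V, hV, hVO, hVp⟩ := hc O hO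
  obtain ⟨a1, ha1⟩ : (V ∩ D).Nonempty := mem_closure_iff_nhds.1 h0 V hV
  have hsub : ∀ a ∈ V ∩ D, c a ∈ ⋃ z ∈ Z, U z := fun a ha => hO' ⟨hVO ha.1, ha.2⟩
  obtain ⟨z0, hz0, hz1⟩ := mem_iUnion₂.1 (hsub a1 ha1)
  have him : c '' (V ∩ D) ⊆ U z0 := by
    refine IsPreconnected.subset_left_of_subset_union (v := ⋃ z ∈ Z \ {z0}, U z) (hU z0).2
      (isOpen_biUnion fun z _ => (hU z).2) ?_ ?_ ⟨c a1, ⟨a1, ha1, rfl⟩, hz1⟩
      (hVp.image c (hcc.mono inter_subset_right))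
    · refine disjoint_iUnion₂_right.2 fun z hz => ?_
      exact hd hz0 hz.1 (fun h => hz.2 h.symm)
    · rintro _ ⟨a, ha, rfl⟩
      obtain ⟨z, hz, hz'⟩ := mem_iUnion₂.1 (hsub a ha)
      by_cases h : z = z0
      · exact Or.inl (h ▸ hz')
      · exact Or.inr (mem_biUnion (show z ∈ Z \ {z0} from ⟨hz, h⟩) hz')
  have hev2 : ∀ᶠ a in 𝓝[D] a0, c a ∈ U z0 := by
    refine mem_nhdsWithin_iff_exists_mem_nhds_inter.2 ⟨V, hV, fun a ha => ?_⟩
    exact him ⟨a, ha, rfl⟩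
  have huniq : ∀ y ∈ K, MapClusterPt y (𝓝[D] a0) c → y = z0 := by
    intro y hy hy'
    by_contra hne
    have h1 := (mapClusterPt_iff_frequently.1 hy') (U y) ((hU y).2.mem_nhds (hU y).1)
    obtain ⟨a, ha, ha'⟩ := (h1.and_eventually hev2).exists
    exact disjoint_left.1 (hd (hcl y hy hy') hz0 hne) ha ha'
  have ht : Tendsto c (𝓝[D] a0) (𝓝 z0) :=
    hK.tendsto_nhds_of_unique_mapClusterPt hKev huniq
  exact ⟨z0, hK.isClosed.mem_of_tendsto ht hKev, ht⟩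

private theorem ext_clus {X A Y : Type} [TopologicalSpace X] [TopologicalSpace Y] [T2Space Y]
    {F : Filter A} {c : A → X} {f : X → Y} (hf : Continuous f) {y : X} {w : Y}
    (h : MapClusterPt y F c) (h' : Tendsto (f ∘ c) F (𝓝 w)) : f y = w := by
  have h1 : MapClusterPt (f y) F (f ∘ c) := h.continuousAt_comp hf.continuousAt
  have h2 : ClusterPt (f y) (𝓝 w) := ClusterPt.mono h1 h'
  exact eq_of_nhds_neBot h2

private theorem ext_fib {X : Type} [TopologicalSpace X] (π : X → ℝ × ℝ)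
    (hπ : IsLocalHomeomorph π) (K : Set X) (hK : IsCompact K) (z : ℝ × ℝ) :
    {ζ | ζ ∈ K ∧ π ζ = z}.Finite := by
  have hcomp : IsCompact {ζ | ζ ∈ K ∧ π ζ = z} :=
    hK.inter_right (isClosed_singleton.preimage hπ.continuous)
  have hloc : ∀ ζ : X, ∃ U ∈ 𝓝 ζ, InjOn π U := by
    intro ζ
    obtain ⟨e, he, rfl⟩ := hπ ζ
    exact ⟨e.source, e.open_source.mem_nhds he, e.injOn⟩
  choose U hU hUi using hloc
  obtain ⟨t, ht, hcov⟩ := hcomp.elim_nhds_subcover U fun ζ _ => hU ζ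
  refine (t.finite_toSet).subset fun ζ hζ => ?_
  obtain ⟨i, hi, hi'⟩ := mem_iUnion₂.1 (hcov hζ)
  have h1 : ζ = i := hUi i hi' (mem_of_mem_nhds (hU i)) (hζ.2.trans (ht i hi).2.symm)
  rw [h1]
  exact hi

/-- The region between two functions is locally connected at its limit points. -/
private theorem ext_reg (T : Set ℝ) (hT : T.OrdConnected) (t1 : ℝ) (a b : ℝ → ℝ)
    (ha : ContinuousOn a T) (hb : ContinuousOn b T) (hab : ∀ t ∈ T, a t ≤ b t) (a1 b1 u : ℝ)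
    (hat : Tendsto a (𝓝[T] t1) (𝓝 a1)) (hbt : Tendsto b (𝓝[T] t1) (𝓝 b1)) (h1 : a1 ≤ u)
    (h2 : u ≤ b1) :
    ∀ U ∈ 𝓝 (t1, u), ∃ V ∈ 𝓝 (t1, u), V ⊆ U ∧
      IsPreconnected (V ∩ {z : ℝ × ℝ | z.1 ∈ T ∧ a z.1 ≤ z.2 ∧ z.2 ≤ b z.1}) := by
  intro U hU
  obtain ⟨ρ, hρ, hρU⟩ := Metric.mem_nhds_iff.1 hU
  have hev : ∀ᶠ t in 𝓝[T] t1, a t < u + ρ / 2 ∧ u - ρ / 2 < b t :=
    (hat.eventually (gt_mem_nhds (by linarith))).and (hbt.eventually (lt_mem_nhds (by linarith)))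
  obtain ⟨δ0, hδ0, hδ1⟩ := Metric.mem_nhdsWithin_iff.1 hev
  obtain ⟨δ, hδ, hδρ, hδδ⟩ : ∃ δ : ℝ, 0 < δ ∧ δ ≤ ρ / 2 ∧ δ ≤ δ0 :=
    ⟨min (ρ / 2) δ0, lt_min (by linarith) hδ0, min_le_left _ _, min_le_right _ _⟩
  refine ⟨Ioo (t1 - δ) (t1 + δ) ×ˢ Icc (u - ρ / 2) (u + ρ / 2),
    prod_mem_nhds (Ioo_mem_nhds (by linarith) (by linarith))
      (Icc_mem_nhds (by linarith) (by linarith)), ?_, ?_⟩
  · rintro ⟨t, v⟩ ⟨ht, hv⟩
    apply hρU
    rw [Metric.mem_ball, Prod.dist_eq, max_lt_iff, Real.dist_eq, Real.dist_eq, abs_lt, abs_lt]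
    simp only [mem_Ioo, mem_Icc] at ht hv
    exact ⟨⟨by linarith [ht.1], by linarith [ht.2]⟩, ⟨by linarith [hv.1], by linarith [hv.2]⟩⟩
  · have hT' : (T ∩ Ioo (t1 - δ) (t1 + δ)).OrdConnected := hT.inter ordConnected_Ioo
    have hpr : IsPreconnected ((T ∩ Ioo (t1 - δ) (t1 + δ)) ×ˢ (univ : Set ℝ)) :=
      hT'.isPreconnected.prod isPreconnected_univ
    have hin : ∀ t ∈ T ∩ Ioo (t1 - δ) (t1 + δ), a t < u + ρ / 2 ∧ u - ρ / 2 < b t := by
      intro t ht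
      refine hδ1 ⟨?_, ht.1⟩
      rw [Metric.mem_ball, Real.dist_eq, abs_lt]
      exact ⟨by linarith [ht.2.1], by linarith [ht.2.2]⟩
    have hcont : ContinuousOn (fun z : ℝ × ℝ => (z.1, max (max (a z.1) (u - ρ / 2))
        (min z.2 (min (b z.1) (u + ρ / 2))))) ((T ∩ Ioo (t1 - δ) (t1 + δ)) ×ˢ (univ : Set ℝ)) := by
      have e1 : ContinuousOn (fun z : ℝ × ℝ => a z.1)
          ((T ∩ Ioo (t1 - δ) (t1 + δ)) ×ˢ (univ : Set ℝ)) :=
        ha.comp continuousOn_fst fun z hz => hz.1.1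
      have e2 : ContinuousOn (fun z : ℝ × ℝ => b z.1)
          ((T ∩ Ioo (t1 - δ) (t1 + δ)) ×ˢ (univ : Set ℝ)) :=
        hb.comp continuousOn_fst fun z hz => hz.1.1
      exact continuousOn_fst.prodMk ((e1.sup continuousOn_const).sup
        (continuousOn_snd.inf (e2.inf continuousOn_const)))
    have him := hpr.image _ hcont
    have heq : (fun z : ℝ × ℝ => (z.1, max (max (a z.1) (u - ρ / 2))
        (min z.2 (min (b z.1) (u + ρ / 2))))) '' ((T ∩ Ioo (t1 - δ) (t1 + δ)) ×ˢ (univ : Set ℝ)) =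
        (Ioo (t1 - δ) (t1 + δ) ×ˢ Icc (u - ρ / 2) (u + ρ / 2)) ∩
          {z : ℝ × ℝ | z.1 ∈ T ∧ a z.1 ≤ z.2 ∧ z.2 ≤ b z.1} := by
      ext ⟨t, v⟩
      constructor
      · rintro ⟨⟨t', w⟩, ⟨ht', _⟩, he⟩
        simp only [Prod.mk.injEq] at he
        obtain ⟨rfl, rfl⟩ := he
        obtain ⟨i1, i2⟩ := hin t' ht'
        have hab' := hab t' ht'.1
        have hlo : max (a t') (u - ρ / 2) ≤ min (b t') (u + ρ / 2) :=
          le_min (max_le hab' i2.le) (max_le i1.le (by linarith))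
        have k1 : max (a t') (u - ρ / 2) ≤ max (max (a t') (u - ρ / 2))
            (min w (min (b t') (u + ρ / 2))) := le_max_left _ _
        have k2 : max (max (a t') (u - ρ / 2)) (min w (min (b t') (u + ρ / 2))) ≤
            min (b t') (u + ρ / 2) := max_le hlo (min_le_right _ _)
        exact ⟨⟨ht'.2, (le_max_right _ _).trans k1, k2.trans (min_le_right _ _)⟩, ht'.1,
          (le_max_left _ _).trans k1, k2.trans (min_le_left _ _)⟩
      · rintro ⟨⟨h3, h4⟩, h5, h6, h7⟩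
        refine ⟨(t, v), ⟨⟨h5, h3⟩, mem_univ _⟩, ?_⟩
        simp only [mem_Icc] at h4
        have j1 : min v (min (b t) (u + ρ / 2)) = v := min_eq_left (le_min h7 h4.2)
        have j2 : max (max (a t) (u - ρ / 2)) v = v := max_eq_right (max_le h6 h4.1)
        simp only [j1, j2]
    rw [← heq]
    exact him

private theorem ext_curve {X : Type} [TopologicalSpace X] [T2Space X] (x y : X → ℝ)
    (K H Sp : Set X) (hV : VS x y K H Sp) (T : Set ℝ) (hT : T.OrdConnected) (t1 : ℝ)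
    (h1 : t1 ∈ closure T) (c : ℝ → X) (hc : ContinuousOn c T) (hcx : ∀ t ∈ T, x (c t) = t)
    (hcH : ∀ t ∈ T, c t ∈ H) : ∃ β, β ∈ H ∧ x β = t1 ∧ Tendsto c (𝓝[T] t1) (𝓝 β) := by
  have : (𝓝[T] t1).NeBot := mem_closure_iff_nhdsWithin_neBot.1 h1
  have hx : Continuous x := continuous_fst.comp hV.loc.continuous
  have hconn : ∀ U ∈ 𝓝 t1, ∃ V ∈ 𝓝 t1, V ⊆ U ∧ IsPreconnected (V ∩ T) := by
    intro U hU
    obtain ⟨ε, hε, hεU⟩ := Metric.mem_nhds_iff.1 hU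
    refine ⟨Metric.ball t1 ε, Metric.ball_mem_nhds _ hε, hεU, ?_⟩
    rw [Real.ball_eq_Ioo]
    exact (ordConnected_Ioo.inter hT).isPreconnected
  have hlim : Tendsto (x ∘ c) (𝓝[T] t1) (𝓝 t1) := by
    refine (tendsto_id.mono_left nhdsWithin_le_nhds).congr' ?_
    exact eventually_nhdsWithin_of_forall fun t ht => (hcx t ht).symm
  have hev : ∀ᶠ t in 𝓝[T] t1, c t ∈ H := eventually_nhdsWithin_of_forall hcH
  obtain ⟨β, -, hβt⟩ := ext_conv T t1 h1 hconn c hc K hV.cK (fun t ht => hV.HK (hcH t ht)) _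
    (hV.fin t1) (fun z _ hz' => by
      refine ⟨?_, ext_clus hx hz' hlim⟩
      by_contra hzH
      have h2 := (mapClusterPt_iff_frequently.1 hz') Hᶜ (hV.cH.isOpen_compl.mem_nhds hzH)
      obtain ⟨t, ht, ht'⟩ := (h2.and_eventually hev).exists
      exact ht ht')
  exact ⟨β, hV.cH.mem_of_tendsto hβt hev,
    tendsto_nhds_unique ((hx.tendsto β).comp hβt) hlim, hβt⟩

private theorem ext_int {X : Type} [TopologicalSpace X] [T2Space X] (x y : X → ℝ)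
    (K H Sp : Set X) (hV : VS x y K H Sp) (T T' : Set ℝ) (κ τ : ℝ → X) (s : ℝ × ℝ → X)
    (hTr : Trap x y K H Sp T T' κ τ s) (t : ℝ) (ht : t ∈ T) (ht' : t ∈ T') (u : ℝ)
    (hu : u ∈ Ioo (y (κ t)) (y (τ t))) : s (t, u) ∈ K \ H := by
  obtain ⟨⟨p, -, -, -, -, γ, hγ, hγs, hγ1, -, -, hγi⟩, -, -⟩ := hTr.good t ht'
  have hle := hTr.le t ht
  have hxp : x p = t := by
    rw [← (hγs (y (κ t)) ⟨le_rfl, hle⟩).1, hγ1]
    exact (hTr.xκ t ht).1
  have hg : ContinuousOn (fun w : ℝ => s (t, w)) (Icc (y (κ t)) (y (τ t))) :=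
    hTr.cs.comp (continuousOn_const.prodMk continuousOn_id) fun w hw => ⟨ht, hw.1, hw.2⟩
  have heq := sec_unique (fun ζ => (x ζ, y ζ)) hV.loc (Icc (y (κ t)) (y (τ t)))
    isPreconnected_Icc γ (fun w : ℝ => s (t, w)) hγ hg (fun w hw => by
      obtain ⟨e1, e2⟩ := hγs w hw
      obtain ⟨e3, e4, -⟩ := hTr.sec (t, w) ht hw.1 hw.2
      simp only [e1, e2, e3, e4, hxp]) (y (κ t)) ⟨le_rfl, hle⟩
      (by rw [hγ1]; exact (hTr.sκ t ht).1.symm)
  have := heq ⟨hu.1.le, hu.2.le⟩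
  simp only at this
  rw [← this]
  exact hγi u hu

private theorem ext_trap {X : Type} [TopologicalSpace X] [T2Space X] (x y : X → ℝ)
    (K H Sp : Set X) (hV : VS x y K H Sp) (T : Set ℝ) (hT : T.OrdConnected) (t1 : ℝ)
    (h1 : t1 ∈ closure T) (h1' : t1 ∉ T) (κ τ : ℝ → X) (s : ℝ × ℝ → X)
    (hTr : Trap x y K H Sp T T κ τ s) :
    ∃ (κ' τ' : ℝ → X) (s' : ℝ × ℝ → X), Trap x y K H Sp (insert t1 T) T κ' τ' s' ∧
      (∀ t ∈ T, κ' t = κ t ∧ τ' t = τ t) ∧ Tendsto κ (𝓝[T] t1) (𝓝 (κ' t1)) ∧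
      Tendsto τ (𝓝[T] t1) (𝓝 (τ' t1)) := by
  classical
  have hF : (𝓝[T] t1).NeBot := mem_closure_iff_nhdsWithin_neBot.1 h1
  have hx : Continuous x := continuous_fst.comp hV.loc.continuous
  have hy : Continuous y := continuous_snd.comp hV.loc.continuous
  have hπ : Continuous (fun ζ => (x ζ, y ζ)) := hV.loc.continuous
  obtain ⟨β, hβH, hβx, hβt⟩ := ext_curve x y K H Sp hV T hT t1 h1 κ hTr.cκ
    (fun t ht => (hTr.xκ t ht).1) (fun t ht => (hTr.mH t ht).1)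
  obtain ⟨ω, hωH, hωx, hωt⟩ := ext_curve x y K H Sp hV T hT t1 h1 τ hTr.cτ
    (fun t ht => (hTr.xκ t ht).2) (fun t ht => (hTr.mH t ht).2)
  have hat : Tendsto (fun t => y (κ t)) (𝓝[T] t1) (𝓝 (y β)) := (hy.tendsto β).comp hβt
  have hbt : Tendsto (fun t => y (τ t)) (𝓝[T] t1) (𝓝 (y ω)) := (hy.tendsto ω).comp hωt
  have hβω : y β ≤ y ω := le_of_tendsto_of_tendsto hat hbt
    (eventually_nhdsWithin_of_forall hTr.le)
  obtain ⟨κ', hκ'⟩ : ∃ κ' : ℝ → X, κ' = Function.update κ t1 β := ⟨_, rfl⟩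
  obtain ⟨τ', hτ'⟩ : ∃ τ' : ℝ → X, τ' = Function.update τ t1 ω := ⟨_, rfl⟩
  have hne : ∀ t ∈ T, t ≠ t1 := fun t ht h => h1' (h ▸ ht)
  have hκT : ∀ t ∈ T, κ' t = κ t := fun t ht => by
    rw [hκ', Function.update_of_ne (hne t ht)]
  have hτT : ∀ t ∈ T, τ' t = τ t := fun t ht => by
    rw [hτ', Function.update_of_ne (hne t ht)]
  have hκ1 : κ' t1 = β := by rw [hκ', Function.update_self]
  have hτ1 : τ' t1 = ω := by rw [hτ', Function.update_self]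
  have hdiff : insert t1 T \ {t1} = T := by
    ext t
    constructor
    · rintro ⟨ht, ht'⟩
      rcases ht with ht | ht
      · exact absurd ht ht'
      · exact ht
    · exact fun ht => ⟨Or.inr ht, hne t ht⟩
  have hcκ : ContinuousOn κ' (insert t1 T) := by
    rw [hκ', continuousOn_update_iff, hdiff]
    exact ⟨hTr.cκ, fun _ => hβt⟩
  have hcτ : ContinuousOn τ' (insert t1 T) := by
    rw [hτ', continuousOn_update_iff, hdiff]
    exact ⟨hTr.cτ, fun _ => hωt⟩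
  obtain ⟨R, hR⟩ : ∃ R : Set (ℝ × ℝ),
    R = {z | z.1 ∈ T ∧ y (κ z.1) ≤ z.2 ∧ z.2 ≤ y (τ z.1)} := ⟨_, rfl⟩
  obtain ⟨R', hR'⟩ : ∃ R' : Set (ℝ × ℝ),
    R' = {z | z.1 ∈ insert t1 T ∧ y (κ' z.1) ≤ z.2 ∧ z.2 ≤ y (τ' z.1)} := ⟨_, rfl⟩
  have hmR : ∀ z : ℝ × ℝ, z ∈ R ↔ z.1 ∈ T ∧ y (κ z.1) ≤ z.2 ∧ z.2 ≤ y (τ z.1) := fun z => by
    rw [hR]; rfl
  have hRR' : ∀ z : ℝ × ℝ, z ∈ R' → z.1 ∈ T → z ∈ R := by
    intro z hz hzT
    rw [hR'] at hz
    rw [hmR]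
    obtain ⟨-, h2, h3⟩ := hz
    rw [hκT _ hzT] at h2
    rw [hτT _ hzT] at h3
    exact ⟨hzT, h2, h3⟩
  have hR'1 : ∀ z : ℝ × ℝ, z ∈ R' → z.1 = t1 → y β ≤ z.2 ∧ z.2 ≤ y ω := by
    intro z hz hz1
    rw [hR'] at hz
    obtain ⟨-, h2, h3⟩ := hz
    rw [hz1, hκ1] at h2
    rw [hz1, hτ1] at h3
    exact ⟨h2, h3⟩
  have hcs : ContinuousOn s R := by rw [hR]; exact hTr.cs
  have hsK : ∀ z ∈ R, s z ∈ K := fun z hz => by
    rw [hmR] at hz
    exact (hTr.sec z hz.1 hz.2.1 hz.2.2).2.2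
  have hsπ : ∀ z ∈ R, (x (s z), y (s z)) = z := fun z hz => by
    rw [hmR] at hz
    obtain ⟨e1, e2, -⟩ := hTr.sec z hz.1 hz.2.1 hz.2.2
    rw [e1, e2]
  have hcl1 : ∀ u, y β ≤ u → u ≤ y ω → (t1, u) ∈ closure R := by
    intro u hu1 hu2
    have ht : Tendsto (fun t => (t, max (y (κ t)) (min u (y (τ t))))) (𝓝[T] t1)
        (𝓝 (t1, max (y β) (min u (y ω)))) :=
      (tendsto_id.mono_left nhdsWithin_le_nhds).prodMk_nhds
        (hat.max (tendsto_const_nhds.min hbt))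
    rw [min_eq_left hu2, max_eq_right hu1] at ht
    refine mem_closure_of_tendsto ht (eventually_nhdsWithin_of_forall fun t ht' => ?_)
    rw [hmR]
    exact ⟨ht', le_max_left _ _, max_le (hTr.le t ht') (min_le_right _ _)⟩
  have hcl : R' ⊆ closure R := by
    rintro ⟨t, u⟩ hz
    by_cases ht : t = t1
    · subst ht
      obtain ⟨e1, e2⟩ := hR'1 _ hz rfl
      exact hcl1 u e1 e2
    · refine subset_closure (hRR' _ hz ?_)
      have hz' := hz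
      rw [hR'] at hz'
      rcases hz'.1 with h | h
      · exact absurd h ht
      · exact h
  have hπt : ∀ z : ℝ × ℝ, Tendsto ((fun ζ => (x ζ, y ζ)) ∘ s) (𝓝[R] z) (𝓝 z) := by
    intro z
    refine (tendsto_id.mono_left nhdsWithin_le_nhds).congr' ?_
    exact eventually_nhdsWithin_of_forall fun w hw => (hsπ w hw).symm
  -- the limits
  have hlim : ∀ z ∈ R', ∃ ζ ∈ K, Tendsto s (𝓝[R] z) (𝓝 ζ) := by
    rintro ⟨t, u⟩ hz
    by_cases ht : t = t1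
    · subst ht
      obtain ⟨e1, e2⟩ := hR'1 _ hz rfl
      have hreg := ext_reg T hT t (fun t => y (κ t)) (fun t => y (τ t))
        (hy.comp_continuousOn hTr.cκ) (hy.comp_continuousOn hTr.cτ) hTr.le (y β) (y ω) u hat hbt
        e1 e2
      rw [← hR] at hreg
      exact ext_conv R (t, u) (hcl1 u e1 e2) hreg s hcs K hV.cK hsK _
        (ext_fib (fun ζ => (x ζ, y ζ)) hV.loc K hV.cK (t, u))
        (fun ζ hζ hζ' => ⟨hζ, ext_clus hπ hζ' (hπt (t, u))⟩)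
    · have hzT : (t, u) ∈ R := by
        refine hRR' _ hz ?_
        have hz' := hz
        rw [hR'] at hz'
        rcases hz'.1 with h | h
        · exact absurd h ht
        · exact h
      exact ⟨s (t, u), hsK _ hzT, hcs (t, u) hzT⟩
  obtain ⟨t0, ht0⟩ : T.Nonempty := by
    rw [← closure_nonempty_iff]; exact ⟨t1, h1⟩
  have hk0 : κ t0 ∈ K := hV.HK (hTr.mH t0 ht0).1
  have : CompactSpace K := isCompact_iff_compactSpace.1 hV.cK
  obtain ⟨sK, hsK'⟩ : ∃ sK : ℝ × ℝ → K, sK = fun z => if hz : z ∈ R then ⟨s z, hsK z hz⟩ else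
    ⟨κ t0, hk0⟩ := ⟨_, rfl⟩
  have hsKR : ∀ z ∈ R, (sK z : X) = s z := fun z hz => by
    rw [hsK']; simp only [dif_pos hz]
  have hlimK : ∀ (z : ℝ × ℝ) (ζ : X) (hζ : ζ ∈ K), Tendsto s (𝓝[R] z) (𝓝 ζ) →
      Tendsto sK (𝓝[R] z) (𝓝 (⟨ζ, hζ⟩ : K)) := by
    intro z ζ hζ ht
    rw [tendsto_subtype_rng]
    refine ht.congr' (eventually_nhdsWithin_of_forall fun w hw => ?_)
    exact (hsKR w hw).symm
  have hlimK' : ∀ z ∈ R', ∃ ζ : K, Tendsto sK (𝓝[R] z) (𝓝 ζ) := by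
    intro z hz
    obtain ⟨ζ, hζ, ht⟩ := hlim z hz
    exact ⟨⟨ζ, hζ⟩, hlimK z ζ hζ ht⟩
  obtain ⟨s', hs'⟩ : ∃ s' : ℝ × ℝ → X, s' = fun z => ((extendFrom R sK z : K) : X) := ⟨_, rfl⟩
  have hs'c : ContinuousOn s' R' := by
    rw [hs']
    exact continuous_subtype_val.comp_continuousOn (continuousOn_extendFrom hcl hlimK')
  have hs'l : ∀ z ∈ R', Tendsto s (𝓝[R] z) (𝓝 (s' z)) := by
    intro z hz
    have h2 := tendsto_extendFrom (hlimK' z hz)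
    rw [tendsto_subtype_rng] at h2
    rw [hs']
    refine h2.congr' (eventually_nhdsWithin_of_forall fun w hw => ?_)
    exact hsKR w hw
  have hs'K : ∀ z, s' z ∈ K := fun z => by rw [hs']; exact (extendFrom R sK z).2
  have hs'R : ∀ z ∈ R', z ∈ R → s' z = s z := by
    intro z hz hzR
    have : (𝓝[R] z).NeBot := mem_closure_iff_nhdsWithin_neBot.1 (subset_closure hzR)
    exact tendsto_nhds_unique (hs'l z hz) (hcs z hzR)
  have hs'π : ∀ z ∈ R', (x (s' z), y (s' z)) = z := by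
    intro z hz
    have : (𝓝[R] z).NeBot := mem_closure_iff_nhdsWithin_neBot.1 (hcl hz)
    exact tendsto_nhds_unique ((hπ.tendsto (s' z)).comp (hs'l z hz)) (hπt z)
  have hR'R : ∀ z ∈ R, z ∈ R' := by
    intro z hz
    rw [hmR] at hz
    rw [hR']
    refine ⟨Or.inr hz.1, ?_, ?_⟩
    · rw [hκT _ hz.1]; exact hz.2.1
    · rw [hτT _ hz.1]; exact hz.2.2
  have hβR : (t1, y β) ∈ R' := by
    rw [hR']
    refine ⟨Or.inl rfl, ?_, ?_⟩
    · simp only [hκ1]; exact le_rfl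
    · simp only [hτ1]; exact hβω
  have hωR : (t1, y ω) ∈ R' := by
    rw [hR']
    refine ⟨Or.inl rfl, ?_, ?_⟩
    · simp only [hκ1]; exact hβω
    · simp only [hτ1]; exact le_rfl
  have hκR : ∀ t ∈ T, (t, y (κ t)) ∈ R := fun t ht => by
    rw [hmR]; exact ⟨ht, le_rfl, hTr.le t ht⟩
  have hτR : ∀ t ∈ T, (t, y (τ t)) ∈ R := fun t ht => by
    rw [hmR]; exact ⟨ht, hTr.le t ht, le_rfl⟩
  have hsβ : s' (t1, y β) = β := by
    have h2 : Tendsto (fun t => (t, y (κ t))) (𝓝[T] t1) (𝓝[R] (t1, y β)) := by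
      refine tendsto_nhdsWithin_iff.2 ⟨(tendsto_id.mono_left nhdsWithin_le_nhds).prodMk_nhds hat, ?_⟩
      exact eventually_nhdsWithin_of_forall hκR
    have h3 : Tendsto κ (𝓝[T] t1) (𝓝 (s' (t1, y β))) := by
      refine ((hs'l _ hβR).comp h2).congr' (eventually_nhdsWithin_of_forall fun t ht => ?_)
      exact (hTr.sκ t ht).1
    exact tendsto_nhds_unique h3 hβt
  have hsω : s' (t1, y ω) = ω := by
    have h2 : Tendsto (fun t => (t, y (τ t))) (𝓝[T] t1) (𝓝[R] (t1, y ω)) := by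
      refine tendsto_nhdsWithin_iff.2 ⟨(tendsto_id.mono_left nhdsWithin_le_nhds).prodMk_nhds hbt, ?_⟩
      exact eventually_nhdsWithin_of_forall hτR
    have h3 : Tendsto τ (𝓝[T] t1) (𝓝 (s' (t1, y ω))) := by
      refine ((hs'l _ hωR).comp h2).congr' (eventually_nhdsWithin_of_forall fun t ht => ?_)
      exact (hTr.sκ t ht).2
    exact tendsto_nhds_unique h3 hωt
  refine ⟨κ', τ', s', ?_, fun t ht => ⟨hκT t ht, hτT t ht⟩, by rw [hκ1]; exact hβt,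
    by rw [hτ1]; exact hωt⟩
  refine ⟨hcκ, hcτ, ?_, ?_, ?_, ?_, ?_, ?_, ?_⟩
  · rintro t (rfl | ht)
    · rw [hκ1, hτ1]; exact ⟨hβx, hωx⟩
    · rw [hκT t ht, hτT t ht]; exact hTr.xκ t ht
  · rintro t (rfl | ht)
    · rw [hκ1, hτ1]; exact hβω
    · rw [hκT t ht, hτT t ht]; exact hTr.le t ht
  · rintro t (rfl | ht)
    · rw [hκ1, hτ1]; exact ⟨hβH, hωH⟩
    · rw [hκT t ht, hτT t ht]; exact hTr.mH t ht
  · rw [← hR']; exact hs'c
  · intro z hz hz1 hz2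
    have hzR : z ∈ R' := by rw [hR']; exact ⟨hz, hz1, hz2⟩
    have h2 := hs'π z hzR
    exact ⟨congrArg Prod.fst h2, congrArg Prod.snd h2, hs'K z⟩
  · rintro t (rfl | ht)
    · rw [hκ1, hτ1]; exact ⟨hsβ, hsω⟩
    · rw [hκT t ht, hτT t ht, hs'R _ (hR'R _ (hκR t ht)) (hκR t ht),
        hs'R _ (hR'R _ (hτR t ht)) (hτR t ht)]
      exact hTr.sκ t ht
  · intro t ht
    rw [hκT t ht, hτT t ht]
    exact hTr.good t ht

private theorem ext_good {X : Type} [TopologicalSpace X] [T2Space X] (x y : X → ℝ)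
    (K H Sp : Set X) (hV : VS x y K H Sp) (T : Set ℝ) (t1 : ℝ)
    (h1 : t1 ∈ closure T) (hT1 : (insert t1 T).OrdConnected) (κ τ κ' τ' : ℝ → X)
    (s : ℝ × ℝ → X) (hTr : Trap x y K H Sp (insert t1 T) T κ' τ' s)
    (he : ∀ t ∈ T, κ' t = κ t ∧ τ' t = τ t) (hβt : Tendsto κ (𝓝[T] t1) (𝓝 (κ' t1)))
    (hωt : Tendsto τ (𝓝[T] t1) (𝓝 (τ' t1)))
    (hno : ¬ ∃ u ∈ Icc (y (κ' t1)) (y (τ' t1)), s (t1, u) ∈ Sp) :
    Good x y K H Sp (κ' t1) (τ' t1) := by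
  have hF : (𝓝[T] t1).NeBot := mem_closure_iff_nhdsWithin_neBot.1 h1
  have hx : Continuous x := continuous_fst.comp hV.loc.continuous
  have hy : Continuous y := continuous_snd.comp hV.loc.continuous
  have hm1 : t1 ∈ insert t1 T := Or.inl rfl
  have hle := hTr.le t1 hm1
  have hno' : ∀ u ∈ Icc (y (κ' t1)) (y (τ' t1)), s (t1, u) ∉ Sp := fun u hu h => hno ⟨u, hu, h⟩
  have hβS : κ' t1 ∉ Sp := by
    have h2 := hno' (y (κ' t1)) ⟨le_rfl, hle⟩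
    rwa [(hTr.sκ t1 hm1).1] at h2
  have hωS : τ' t1 ∉ Sp := by
    have h2 := hno' (y (τ' t1)) ⟨hle, le_rfl⟩
    rwa [(hTr.sκ t1 hm1).2] at h2
  have hβx : x (κ' t1) = t1 := (hTr.xκ t1 hm1).1
  have hlt : y (κ' t1) < y (τ' t1) := by
    rcases hle.lt_or_eq with h | h
    · exact h
    exfalso
    have heq : κ' t1 = τ' t1 := by
      rw [← (hTr.sκ t1 hm1).1, ← (hTr.sκ t1 hm1).2, h]
    obtain ⟨ε, -, κ₀, -, -, -, U, hU, hUH⟩ := hV.ls _ (hTr.mH t1 hm1).1 hβS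
    have e1 : ∀ᶠ t in 𝓝[T] t1, κ t ∈ U := hβt.eventually hU
    have e2 : ∀ᶠ t in 𝓝[T] t1, τ t ∈ U := by
      rw [← heq] at hωt
      exact hωt.eventually hU
    have e3 : ∀ᶠ t in 𝓝[T] t1, t ∈ T := eventually_mem_nhdsWithin
    obtain ⟨t, ⟨i1, i2⟩, i3⟩ := ((e1.and e2).and e3).exists
    have hmt : t ∈ insert t1 T := Or.inr i3
    rw [← (he t i3).1] at i1
    rw [← (he t i3).2] at i2
    have j1 := hUH _ i1 (hTr.mH t hmt).1
    have j2 := hUH _ i2 (hTr.mH t hmt).2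
    rw [(hTr.xκ t hmt).1] at j1
    rw [(hTr.xκ t hmt).2] at j2
    obtain ⟨⟨p, k1, k2, -⟩, -, -⟩ := hTr.good t i3
    have : y (κ' t) < y (τ' t) := k1.trans k2
    rw [j1, j2] at this
    exact lt_irrefl _ this
  have hint : ∀ u ∈ Ioo (y (κ' t1)) (y (τ' t1)), s (t1, u) ∉ H := by
    intro u hu hH
    obtain ⟨hvx, hvy, -⟩ := hTr.sec (t1, u) hm1 hu.1.le hu.2.le
    simp only at hvx hvy
    obtain ⟨ε, hε, κ₀, hκ₀, hκ₀v, hκ₀s, -⟩ := hV.ls _ hH (hno' u ⟨hu.1.le, hu.2.le⟩)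
    rw [hvx] at hκ₀ hκ₀v hκ₀s
    have hk0 : ContinuousAt κ₀ t1 :=
      hκ₀.continuousAt (Ioo_mem_nhds (by linarith) (by linarith))
    have l1 : Tendsto (fun t => y (κ₀ t)) (𝓝[insert t1 T] t1) (𝓝 u) := by
      have := (hy.continuousAt.comp hk0).tendsto
      simp only [Function.comp_apply, hκ₀v, hvy] at this
      exact this.mono_left nhdsWithin_le_nhds
    have l2 : Tendsto (fun t => y (κ' t)) (𝓝[insert t1 T] t1) (𝓝 (y (κ' t1))) :=
      (hy.tendsto _).comp (hTr.cκ t1 hm1)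
    have l3 : Tendsto (fun t => y (τ' t)) (𝓝[insert t1 T] t1) (𝓝 (y (τ' t1))) :=
      (hy.tendsto _).comp (hTr.cτ t1 hm1)
    have hev := (l2.eventually_lt l1 hu.1).and (l1.eventually_lt l3 hu.2)
    obtain ⟨δ0, hδ0, hδ1⟩ := Metric.mem_nhdsWithin_iff.1 hev
    obtain ⟨δ, hδ, hδε, hδδ⟩ : ∃ δ : ℝ, 0 < δ ∧ δ ≤ ε ∧ δ ≤ δ0 :=
      ⟨min ε δ0, lt_min hε hδ0, min_le_left _ _, min_le_right _ _⟩
    have hin : ∀ t ∈ insert t1 T ∩ Ioo (t1 - δ) (t1 + δ),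
        y (κ' t) < y (κ₀ t) ∧ y (κ₀ t) < y (τ' t) := by
      intro t ht
      refine hδ1 ⟨?_, ht.1⟩
      rw [Metric.mem_ball, Real.dist_eq, abs_lt]
      exact ⟨by linarith [ht.2.1], by linarith [ht.2.2]⟩
    have hsub : insert t1 T ∩ Ioo (t1 - δ) (t1 + δ) ⊆ Ioo (t1 - ε) (t1 + ε) := fun t ht =>
      ⟨by linarith [ht.2.1], by linarith [ht.2.2]⟩
    have hf : ContinuousOn κ₀ (insert t1 T ∩ Ioo (t1 - δ) (t1 + δ)) := hκ₀.mono hsub
    have hg : ContinuousOn (fun t => s (t, y (κ₀ t))) (insert t1 T ∩ Ioo (t1 - δ) (t1 + δ)) :=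
      hTr.cs.comp (continuousOn_id.prodMk (hy.comp_continuousOn hf)) fun t ht =>
        ⟨ht.1, (hin t ht).1.le, (hin t ht).2.le⟩
    have hmm : t1 ∈ insert t1 T ∩ Ioo (t1 - δ) (t1 + δ) := ⟨hm1, by linarith, by linarith⟩
    have heq := sec_unique (fun ζ => (x ζ, y ζ)) hV.loc (insert t1 T ∩ Ioo (t1 - δ) (t1 + δ))
      (hT1.inter ordConnected_Ioo).isPreconnected κ₀ (fun t => s (t, y (κ₀ t))) hf hg
      (fun t ht => by
        obtain ⟨e1, e2, -⟩ := hTr.sec (t, y (κ₀ t)) ht.1 (hin t ht).1.le (hin t ht).2.le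
        simp only [e1, e2, (hκ₀s t (hsub ht)).1]) t1 hmm
      (by simp only [hκ₀v, hvy])
    obtain ⟨t, ht, htT⟩ := mem_closure_iff_nhds.1 h1 (Ioo (t1 - δ) (t1 + δ))
      (Ioo_mem_nhds (by linarith) (by linarith))
    have hmt : t ∈ insert t1 T ∩ Ioo (t1 - δ) (t1 + δ) := ⟨Or.inr htT, ht⟩
    have h2 := ext_int x y K H Sp hV (insert t1 T) T κ' τ' s hTr t hmt.1 htT (y (κ₀ t))
      (hin t hmt)
    have h3 := heq hmt
    simp only at h3
    rw [← h3] at h2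
    exact h2.2 (hκ₀s t (hsub hmt)).2
  obtain ⟨m, hm⟩ : ∃ m : ℝ, m ∈ Ioo (y (κ' t1)) (y (τ' t1)) := exists_between hlt
  obtain ⟨hpx, hpy, -⟩ := hTr.sec (t1, m) hm1 hm.1.le hm.2.le
  simp only at hpx hpy
  refine ⟨⟨s (t1, m), ?_, ?_, (hTr.mH t1 hm1).1, (hTr.mH t1 hm1).2, fun u => s (t1, u), ?_, ?_,
    (hTr.sκ t1 hm1).1, ?_, (hTr.sκ t1 hm1).2, ?_⟩, hβS, hωS⟩
  · rw [hpy]; exact hm.1
  · rw [hpy]; exact hm.2
  · exact hTr.cs.comp (continuousOn_const.prodMk continuousOn_id) fun u hu => ⟨hm1, hu.1, hu.2⟩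
  · intro u hu
    obtain ⟨e1, e2, -⟩ := hTr.sec (t1, u) hm1 hu.1 hu.2
    rw [hpx]
    exact ⟨e1, e2⟩
  · simp only [hpy]
  · intro u hu
    exact ⟨(hTr.sec (t1, u) hm1 hu.1.le hu.2.le).2.2, hint u hu⟩

private theorem ext_gen {X : Type} [TopologicalSpace X] [T2Space X] (x y : X → ℝ)
    (K H Sp : Set X) (hV : VS x y K H Sp) (T : Set ℝ) (hT : T.OrdConnected) (t1 : ℝ)
    (h1 : t1 ∈ closure T) (h1' : t1 ∉ T) (hT1 : (insert t1 T).OrdConnected) (κ : ℝ → X)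
    (hκ : ContinuousOn κ T) (h : ∀ t ∈ T, x (κ t) = t ∧ κ t ∈ GS x y K H Sp) :
    ∃ (κ' τ' : ℝ → X) (s : ℝ × ℝ → X), Trap x y K H Sp (insert t1 T) T κ' τ' s ∧
      (∀ t ∈ T, κ' t = κ t) ∧
      ((∃ u ∈ Icc (y (κ' t1)) (y (τ' t1)), s (t1, u) ∈ Sp) ∨
        Good x y K H Sp (κ' t1) (τ' t1)) := by
  obtain ⟨τ, s, hTr⟩ := trap_of_sec x y K H Sp hV T hT κ hκ h
  obtain ⟨κ', τ', s', hTr', he, hβ, hω⟩ := ext_trap x y K H Sp hV T hT t1 h1 h1' κ τ s hTr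
  refine ⟨κ', τ', s', hTr', fun t ht => (he t ht).1, ?_⟩
  by_cases hno : ∃ u ∈ Icc (y (κ' t1)) (y (τ' t1)), s' (t1, u) ∈ Sp
  · exact Or.inl hno
  · exact Or.inr (ext_good x y K H Sp hV T t1 h1 hT1 κ τ κ' τ' s' hTr' he hβ hω hno)

theorem vextL {X : Type} [TopologicalSpace X] [T2Space X] (x y : X → ℝ) (K H Sp : Set X)
    (hV : VS x y K H Sp) (t1 t0 : ℝ) (ht : t1 < t0) (κ : ℝ → X) (hκ : ContinuousOn κ (Ioc t1 t0))
    (h : ∀ t ∈ Ioc t1 t0, x (κ t) = t ∧ κ t ∈ GS x y K H Sp) :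
    ∃ (κ' τ' : ℝ → X) (s : ℝ × ℝ → X), Trap x y K H Sp (Icc t1 t0) (Ioc t1 t0) κ' τ' s ∧
      (∀ t ∈ Ioc t1 t0, κ' t = κ t) ∧
      ((∃ u ∈ Icc (y (κ' t1)) (y (τ' t1)), s (t1, u) ∈ Sp) ∨ Good x y K H Sp (κ' t1) (τ' t1)) := by
  have e : insert t1 (Ioc t1 t0) = Icc t1 t0 := Ioc_insert_left ht.le
  rw [← e]
  refine ext_gen x y K H Sp hV (Ioc t1 t0) ordConnected_Ioc t1 ?_ (fun h => lt_irrefl _ h.1) ?_ κ
    hκ h
  · rw [closure_Ioc ht.ne]; exact ⟨le_rfl, ht.le⟩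
  · rw [e]; exact ordConnected_Icc

theorem vextR {X : Type} [TopologicalSpace X] [T2Space X] (x y : X → ℝ) (K H Sp : Set X)
    (hV : VS x y K H Sp) (t0 t1 : ℝ) (ht : t0 < t1) (κ : ℝ → X) (hκ : ContinuousOn κ (Ico t0 t1))
    (h : ∀ t ∈ Ico t0 t1, x (κ t) = t ∧ κ t ∈ GS x y K H Sp) :
    ∃ (κ' τ' : ℝ → X) (s : ℝ × ℝ → X), Trap x y K H Sp (Icc t0 t1) (Ico t0 t1) κ' τ' s ∧
      (∀ t ∈ Ico t0 t1, κ' t = κ t) ∧
      ((∃ u ∈ Icc (y (κ' t1)) (y (τ' t1)), s (t1, u) ∈ Sp) ∨ Good x y K H Sp (κ' t1) (τ' t1)) := by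
  have e : insert t1 (Ico t0 t1) = Icc t0 t1 := Ico_insert_right ht.le
  rw [← e]
  refine ext_gen x y K H Sp hV (Ico t0 t1) ordConnected_Ico t1 ?_ (fun h => lt_irrefl _ h.2) ?_ κ
    hκ h
  · rw [closure_Ico ht.ne]; exact ⟨ht.le, le_rfl⟩
  · rw [e]; exact ordConnected_Icc

end D4Q
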